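import Pool.Agent.Lib.MP_f1f412_co.Defs2

/-!
# MP_f1f412_co (C34): toolkit (proved rules)
-/

set_option autoImplicit false

namespace Pool.Agent.MPf1f412

open Matrix

/-! ### coordinates, cross product -/

theorem r3_ext {x y : R3} (h0 : x 0 = y 0) (h1 : x 1 = y 1) (h2 : x 2 = y 2) : x = y := by
  funext i
  fin_cases i
  · exact h0
  · exact h1
  · exact h2

theorem dot_eq (x y : R3) : x ⬝ᵥ y = x 0 * y 0 + x 1 * y 1 + x 2 * y 2 := by
  simp [dotProduct, Fin.sum_univ_three]

@[simp] theorem cr_zero (x y : R3) : cr x y 0 = x 1 * y 2 - x 2 * y 1 := by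
  simp [cr, cross_apply]

@[simp] theorem cr_one (x y : R3) : cr x y 1 = x 2 * y 0 - x 0 * y 2 := by
  simp [cr, cross_apply]

@[simp] theorem cr_two (x y : R3) : cr x y 2 = x 0 * y 1 - x 1 * y 0 := by
  simp [cr, cross_apply]

theorem cr_self (x : R3) : cr x x = 0 := by
  apply r3_ext <;> simp <;> ring

theorem cr_anti (x y : R3) : cr y x = - cr x y := by
  apply r3_ext <;> simp <;> ring

theorem cr_add_left (x y z : R3) : cr (x + y) z = cr x z + cr y z := by
  apply r3_ext <;> simp <;> ring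

theorem cr_add_right (x y z : R3) : cr x (y + z) = cr x y + cr x z := by
  apply r3_ext <;> simp <;> ring

theorem cr_sub_left (x y z : R3) : cr (x - y) z = cr x z - cr y z := by
  apply r3_ext <;> simp <;> ring

theorem cr_sub_right (x y z : R3) : cr x (y - z) = cr x y - cr x z := by
  apply r3_ext <;> simp <;> ring

theorem cr_smul_left (a : ℝ) (x y : R3) : cr (a • x) y = a • cr x y := by
  apply r3_ext <;> simp <;> ring

theorem cr_smul_right (a : ℝ) (x y : R3) : cr x (a • y) = a • cr x y := by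
  apply r3_ext <;> simp <;> ring

theorem cr_neg_left (x y : R3) : cr (-x) y = - cr x y := by
  apply r3_ext <;> simp <;> ring

theorem cr_neg_right (x y : R3) : cr x (-y) = - cr x y := by
  apply r3_ext <;> simp <;> ring

@[simp] theorem cr_zero_left (y : R3) : cr 0 y = 0 := by
  apply r3_ext <;> simp

@[simp] theorem cr_zero_right (y : R3) : cr y 0 = 0 := by
  apply r3_ext <;> simp

/-- the cross product as a bilinear map -/
noncomputable def crL : R3 →ₗ[ℝ] R3 →ₗ[ℝ] R3 :=
  LinearMap.mk₂ ℝ cr cr_add_left cr_smul_left cr_add_right cr_smul_right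

@[simp] theorem crL_apply (x y : R3) : crL x y = cr x y := rfl

theorem cr_sum_left {ι : Type*} (s : Finset ι) (f : ι → R3) (y : R3) :
    cr (∑ i ∈ s, f i) y = ∑ i ∈ s, cr (f i) y := by
  rw [← crL_apply, map_sum, LinearMap.sum_apply]
  rfl

theorem cr_sum_right {ι : Type*} (s : Finset ι) (f : ι → R3) (y : R3) :
    cr y (∑ i ∈ s, f i) = ∑ i ∈ s, cr y (f i) := by
  rw [← crL_apply, map_sum]
  rfl

theorem dot_cr_self (x y : R3) : x ⬝ᵥ cr x y = 0 := by
  simp [dot_eq]; ring

theorem dot_cr_self' (x y : R3) : y ⬝ᵥ cr x y = 0 := by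
  simp [dot_eq]; ring

/-- cyclic rule `x · (y × z) = y · (z × x)` -/
theorem dot_cr_cyc (x y z : R3) : x ⬝ᵥ cr y z = y ⬝ᵥ cr z x := by
  simp [dot_eq]; ring

theorem dot_cr_cyc' (x y z : R3) : x ⬝ᵥ cr y z = z ⬝ᵥ cr x y := by
  simp [dot_eq]; ring

/-- if `x · δ = 0` for all `δ` then `x = 0` -/
theorem eq_zero_of_dot {x : R3} (h : ∀ y : R3, x ⬝ᵥ y = 0) : x = 0 := by
  apply r3_ext
  · have := h (Pi.single 0 1); simpa using this
  · have := h (Pi.single 1 1); simpa using this
  · have := h (Pi.single 2 1); simpa using this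

theorem dot_self_eq_zero {x : R3} (h : x ⬝ᵥ x = 0) : x = 0 := by
  rw [dot_eq] at h
  have h0 : x 0 = 0 := by nlinarith [sq_nonneg (x 0), sq_nonneg (x 1), sq_nonneg (x 2)]
  have h1 : x 1 = 0 := by nlinarith [sq_nonneg (x 0), sq_nonneg (x 1), sq_nonneg (x 2)]
  have h2 : x 2 = 0 := by nlinarith [sq_nonneg (x 0), sq_nonneg (x 1), sq_nonneg (x 2)]
  exact r3_ext h0 h1 h2

/-- if `x × δ = 0` for all `δ` then `x = 0` -/
theorem eq_zero_of_cr {x : R3} (h : ∀ y : R3, cr x y = 0) : x = 0 := by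
  have h0 := h (Pi.single 0 1)
  have h1 := h (Pi.single 1 1)
  apply r3_ext
  · have := congrFun h1 2; simpa using this
  · have := congrFun h0 2; simpa using this
  · have := congrFun h0 1; simpa using this

/-- the double cross product -/
theorem cr_cr (x y z : R3) : cr x (cr y z) = (x ⬝ᵥ z) • y - (x ⬝ᵥ y) • z := by
  apply r3_ext <;> simp [dot_eq] <;> ring

/-- parallel vectors: `x × y = 0`, `x ≠ 0` gives `y = t x` -/
theorem par_of_cr {x y : R3} (hx : x ≠ 0) (h : cr x y = 0) : ∃ t : ℝ, y = t • x := by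
  have hxx : x ⬝ᵥ x ≠ 0 := fun h' => hx (dot_self_eq_zero h')
  refine ⟨(x ⬝ᵥ y) / (x ⬝ᵥ x), ?_⟩
  have h1 := cr_cr x x y
  rw [h, cr_zero_right] at h1
  have h2 : (x ⬝ᵥ x) • y = (x ⬝ᵥ y) • x := (sub_eq_zero.1 h1.symm).symm
  rw [div_eq_inv_mul, mul_smul, ← h2, smul_smul, inv_mul_cancel₀ hxx, one_smul]

/-! ### twists -/

theorem ev_add (m n : Tw) (x : R3) : ev (m + n) x = ev m x + ev n x := by
  apply r3_ext <;> simp [ev] <;> ring

theorem ev_sub (m n : Tw) (x : R3) : ev (m - n) x = ev m x - ev n x := by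
  apply r3_ext <;> simp [ev] <;> ring

theorem ev_smul (a : ℝ) (m : Tw) (x : R3) : ev (a • m) x = a • ev m x := by
  apply r3_ext <;> simp [ev] <;> ring

theorem ev_neg (m : Tw) (x : R3) : ev (-m) x = - ev m x := by
  apply r3_ext <;> simp [ev] <;> ring

@[simp] theorem ev_zero (x : R3) : ev 0 x = 0 := by
  apply r3_ext <;> simp [ev]

/-- the velocity at a point as a linear map -/
noncomputable def evL (x : R3) : Tw →ₗ[ℝ] R3 where
  toFun m := ev m x
  map_add' m n := ev_add m n x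
  map_smul' a m := ev_smul a m x

@[simp] theorem evL_apply (x : R3) (m : Tw) : evL x m = ev m x := rfl

theorem ev_sum {ι : Type*} (s : Finset ι) (f : ι → Tw) (x : R3) :
    ev (∑ i ∈ s, f i) x = ∑ i ∈ s, ev (f i) x := by
  rw [← evL_apply, map_sum]
  rfl

theorem ev_diff (m : Tw) (x y : R3) : ev m x = ev m y + cr m.1 (x - y) := by
  apply r3_ext <;> simp [ev] <;> ring

theorem ev_Ln (u w x : R3) : ev (Ln u w) x = cr (w - u) (x - u) := by
  apply r3_ext <;> simp [ev, Ln] <;> ring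

@[simp] theorem ev_Ln_left (u w : R3) : ev (Ln u w) u = 0 := by
  rw [ev_Ln, sub_self, cr_zero_right]

@[simp] theorem ev_Ln_right (u w : R3) : ev (Ln u w) w = 0 := by
  rw [ev_Ln, cr_self]

theorem Ln_swap (u w : R3) : Ln w u = - Ln u w := by
  refine Prod.ext ?_ ?_
  · apply r3_ext <;> simp [Ln]
  · apply r3_ext <;> simp [Ln] <;> ring

theorem kl_symm (m n : Tw) : kl m n = kl n m := by
  simp only [kl, dot_eq]; ring

theorem kl_add_left (m n r : Tw) : kl (m + n) r = kl m r + kl n r := by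
  simp only [kl, dot_eq, Prod.fst_add, Prod.snd_add, Pi.add_apply]; ring

theorem kl_add_right (m n r : Tw) : kl r (m + n) = kl r m + kl r n := by
  simp only [kl, dot_eq, Prod.fst_add, Prod.snd_add, Pi.add_apply]; ring

theorem kl_sub_left (m n r : Tw) : kl (m - n) r = kl m r - kl n r := by
  simp only [kl, dot_eq, Prod.fst_sub, Prod.snd_sub, Pi.sub_apply]; ring

theorem kl_sub_right (m n r : Tw) : kl r (m - n) = kl r m - kl r n := by
  simp only [kl, dot_eq, Prod.fst_sub, Prod.snd_sub, Pi.sub_apply]; ring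

theorem kl_smul_left (a : ℝ) (m n : Tw) : kl (a • m) n = a * kl m n := by
  simp only [kl, dot_eq, Prod.smul_fst, Prod.smul_snd, Pi.smul_apply, smul_eq_mul]; ring

theorem kl_smul_right (a : ℝ) (m n : Tw) : kl m (a • n) = a * kl m n := by
  simp only [kl, dot_eq, Prod.smul_fst, Prod.smul_snd, Pi.smul_apply, smul_eq_mul]; ring

theorem kl_neg_left (m n : Tw) : kl (-m) n = - kl m n := by
  simp only [kl, dot_eq, Prod.fst_neg, Prod.snd_neg, Pi.neg_apply]; ring

theorem kl_neg_right (m n : Tw) : kl m (-n) = - kl m n := by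
  simp only [kl, dot_eq, Prod.fst_neg, Prod.snd_neg, Pi.neg_apply]; ring

@[simp] theorem kl_zero_left (m : Tw) : kl 0 m = 0 := by
  simp [kl]

@[simp] theorem kl_zero_right (m : Tw) : kl m 0 = 0 := by
  simp [kl]

/-- the Klein form as a bilinear form -/
noncomputable def klB : LinearMap.BilinForm ℝ Tw :=
  LinearMap.mk₂ ℝ kl kl_add_left kl_smul_left (fun r m n => kl_add_right m n r)
    (fun a m n => kl_smul_right a m n)

@[simp] theorem klB_apply (m n : Tw) : klB m n = kl m n := rfl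

theorem kl_sum_left {ι : Type*} (s : Finset ι) (f : ι → Tw) (n : Tw) :
    kl (∑ i ∈ s, f i) n = ∑ i ∈ s, kl (f i) n := by
  rw [← klB_apply, map_sum, LinearMap.sum_apply]
  rfl

theorem kl_sum_right {ι : Type*} (s : Finset ι) (f : ι → Tw) (n : Tw) :
    kl n (∑ i ∈ s, f i) = ∑ i ∈ s, kl n (f i) := by
  rw [← klB_apply, map_sum]
  rfl

/-- the Klein form is nondegenerate -/
theorem kl_nondeg {m : Tw} (h : ∀ n, kl m n = 0) : m = 0 := by
  refine Prod.ext ?_ ?_
  · exact eq_zero_of_dot fun y => by have := h (0, y); simpa [kl] using this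
  · refine eq_zero_of_dot fun y => ?_
    have := h (y, 0)
    simp only [kl, dotProduct_zero, zero_add] at this
    rw [dotProduct_comm]
    exact this

theorem klB_nondegenerate : klB.Nondegenerate :=
  ⟨fun _ h => kl_nondeg h, fun m h => kl_nondeg fun n => by
    rw [kl_symm]; exact h n⟩

/-- (T1) a twist which vanishes at two different points is a multiple of the line -/
theorem t1 {m : Tw} {u w : R3} (huw : u ≠ w) (hu : ev m u = 0) (hw : ev m w = 0) :
    ∃ t : ℝ, m = t • Ln u w := by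
  have h1 : cr m.1 (w - u) = 0 := by
    have := ev_diff m w u
    rw [hu, hw, zero_add] at this
    exact this.symm
  have h2 : cr (w - u) m.1 = 0 := by rw [cr_anti, h1, neg_zero]
  obtain ⟨t, ht⟩ := par_of_cr (sub_ne_zero.2 (Ne.symm huw)) h2
  refine ⟨t, Prod.ext ht ?_⟩
  have h3 : m.2 = - cr m.1 u := by
    have : cr m.1 u + m.2 = 0 := hu
    exact eq_neg_of_add_eq_zero_right this
  rw [h3, ht]
  apply r3_ext <;> simp [Ln] <;> ring

/-- (T2) a twist which vanishes at three points not on a line is zero -/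
theorem t2 {m : Tw} {x y z : R3} (h : cr (y - x) (z - x) ≠ 0) (hx : ev m x = 0) (hy : ev m y = 0)
    (hz : ev m z = 0) : m = 0 := by
  have hxy : x ≠ y := by
    rintro rfl
    apply h
    rw [sub_self, cr_zero_left]
  obtain ⟨t, rfl⟩ := t1 hxy hx hy
  rw [ev_smul, ev_Ln] at hz
  rcases smul_eq_zero.1 hz with h1 | h1
  · rw [h1, zero_smul]
  · exact absurd h1 h

/-- a twist which vanishes at `u` is determined by its angular velocity -/
theorem t2' {m : Tw} {u : R3} (hu : ev m u = 0) : m = (m.1, cr u m.1) := by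
  refine Prod.ext rfl ?_
  have : cr m.1 u + m.2 = 0 := hu
  rw [eq_neg_of_add_eq_zero_right this, cr_anti u, neg_neg]

theorem t2'' {m : Tw} {u : R3} (hu : ev m u = 0) (x : R3) : ev m x = cr m.1 (x - u) := by
  rw [ev_diff m x u, hu, zero_add]

/-- `m ≠ 0` vanishing at `u` has `ω ≠ 0` -/
theorem fst_ne_zero {m : Tw} {u : R3} (hu : ev m u = 0) (hm : m ≠ 0) : m.1 ≠ 0 := by
  intro h
  apply hm
  rw [t2' hu, h, cr_zero_right]
  rfl

/-- (T3) -/
theorem t3 (m : Tw) (u w : R3) : kl m (Ln u w) = (w - u) ⬝ᵥ ev m u := by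
  simp [kl, Ln, ev, dot_eq]; ring

/-- (T3) -/
theorem t3' (m : Tw) (u w : R3) : kl m (Ln u w) = (w - u) ⬝ᵥ ev m w := by
  simp [kl, Ln, ev, dot_eq]; ring

/-- (T4) -/
theorem t4 {m : Tw} {u : R3} (hu : ev m u = 0) (m' : Tw) : kl m m' = m.1 ⬝ᵥ ev m' u := by
  rw [t2' hu]
  simp [kl, ev, dot_eq]; ring

/-- (T5) -/
theorem t5 (m : Tw) (δ w : R3) : kl m (-δ, cr δ w) = - (δ ⬝ᵥ ev m w) := by
  simp [kl, ev, dot_eq]; ring

theorem Ln_ne_zero {u w : R3} (h : u ≠ w) : Ln u w ≠ 0 := by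
  intro h'
  apply h
  have : w - u = 0 := congrArg Prod.fst h'
  exact (sub_eq_zero.1 this).symm

theorem Ln_swap_iff {m : Tw} {u w : R3} : (∃ t : ℝ, m = t • Ln u w) ↔ ∃ t : ℝ, m = t • Ln w u := by
  constructor
  · rintro ⟨t, rfl⟩
    exact ⟨-t, by rw [Ln_swap u w, smul_neg, neg_smul, neg_neg]⟩
  · rintro ⟨t, rfl⟩
    exact ⟨-t, by rw [Ln_swap u w, smul_neg, neg_smul]⟩

/-! ### derivations -/

section D

variable (D : Derivation ℚ ℝ ℝ)

@[simp] theorem D3_apply (x : R3) (i : Fin 3) : D3 D x i = D (x i) := rfl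

theorem D3_add (x y : R3) : D3 D (x + y) = D3 D x + D3 D y := by
  funext i; simp

theorem D3_sub (x y : R3) : D3 D (x - y) = D3 D x - D3 D y := by
  funext i; simp

theorem D3_neg (x : R3) : D3 D (-x) = - D3 D x := by
  funext i; simp

@[simp] theorem D3_zero : D3 D 0 = 0 := by
  funext i; simp

theorem D3_smul (a : ℝ) (x : R3) : D3 D (a • x) = D a • x + a • D3 D x := by
  funext i; simp [mul_comm]; ring

theorem D3_sum {ι : Type*} (s : Finset ι) (f : ι → R3) : D3 D (∑ i ∈ s, f i) = ∑ i ∈ s, D3 D (f i) := by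
  funext i; simp [Finset.sum_apply]

theorem D_dot (x y : R3) : D (x ⬝ᵥ y) = D3 D x ⬝ᵥ y + x ⬝ᵥ D3 D y := by
  simp only [dot_eq, map_add, Derivation.leibniz, smul_eq_mul, D3_apply]; ring

theorem D3_cr (x y : R3) : D3 D (cr x y) = cr (D3 D x) y + cr x (D3 D y) := by
  apply r3_ext <;>
    simp only [D3_apply, Pi.add_apply, cr_zero, cr_one, cr_two, map_sub, Derivation.leibniz,
      smul_eq_mul] <;> ring

@[simp] theorem DT_fst (m : Tw) : (DT D m).1 = D3 D m.1 := rfl

@[simp] theorem DT_snd (m : Tw) : (DT D m).2 = D3 D m.2 := rfl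

theorem DT_add (m n : Tw) : DT D (m + n) = DT D m + DT D n :=
  Prod.ext (D3_add D _ _) (D3_add D _ _)

theorem DT_sub (m n : Tw) : DT D (m - n) = DT D m - DT D n :=
  Prod.ext (D3_sub D _ _) (D3_sub D _ _)

theorem DT_neg (m : Tw) : DT D (-m) = - DT D m :=
  Prod.ext (D3_neg D _) (D3_neg D _)

@[simp] theorem DT_zero : DT D 0 = 0 := Prod.ext (D3_zero D) (D3_zero D)

theorem DT_smul (a : ℝ) (m : Tw) : DT D (a • m) = D a • m + a • DT D m :=
  Prod.ext (D3_smul D _ _) (D3_smul D _ _)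

theorem D3_ev (m : Tw) (x : R3) : D3 D (ev m x) = ev (DT D m) x + cr m.1 (D3 D x) := by
  simp only [ev, D3_add, D3_cr, DT_fst, DT_snd]
  abel

theorem D_kl (m n : Tw) : D (kl m n) = kl (DT D m) n + kl m (DT D n) := by
  simp only [kl, map_add, D_dot, DT_fst, DT_snd]; ring

theorem DT_Ln (u w : R3) : DT D (Ln u w) = (D3 D w - D3 D u, cr (D3 D u) w + cr u (D3 D w)) :=
  Prod.ext (D3_sub D _ _) (D3_cr D _ _)

theorem DT_Ln_left {u w : R3} (hw : D3 D w = 0) : DT D (Ln u w) = (-(D3 D u), cr (D3 D u) w) := by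
  rw [DT_Ln, hw, zero_sub, cr_zero_right, add_zero]

theorem DT_Ln_zero {u w : R3} (hu : D3 D u = 0) (hw : D3 D w = 0) : DT D (Ln u w) = 0 := by
  rw [DT_Ln, hu, hw, sub_zero, cr_zero_right, cr_zero_left, add_zero]
  rfl

end D

/-! ### general position -/

section GP

variable {V : Type} {p : V → R3}

theorem Gn.exists_single (h : Gn p) (v : V) (δ : R3) :
    ∃ D : Derivation ℚ ℝ ℝ, Spt p D {v} ∧ D3 D (p v) = δ := by
  classical
  obtain ⟨D, hD⟩ := h (fun u => if u = v then δ else 0)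
  refine ⟨D, fun u hu => ?_, ?_⟩
  · rw [hD, if_neg (by simpa using hu)]
  · rw [hD, if_pos rfl]

theorem Gn.inj (h : Gn p) {a b : V} (hab : a ≠ b) : p a ≠ p b := by
  intro he
  obtain ⟨D, h1, h2⟩ := h.exists_single b (Pi.single 0 1)
  have h3 : D3 D (p a) = 0 := h1 a (by simpa using hab)
  rw [he, h2] at h3
  have := congrFun h3 0
  simp at this

/-- three different points are not collinear -/
theorem Gn.gp3 (h : Gn p) {a b c : V} (hab : a ≠ b) (hac : a ≠ c) (hbc : b ≠ c) :
    cr (p b - p a) (p c - p a) ≠ 0 := by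
  intro he
  have h0 : p b - p a = 0 := by
    refine eq_zero_of_cr fun δ => ?_
    obtain ⟨D, h1, h2⟩ := h.exists_single c δ
    have h3 := congrArg (D3 D) he
    rw [D3_cr, D3_sub, D3_sub, h1 b (by simpa using hbc), h1 a (by simpa using hac), h2, sub_zero,
      sub_zero, cr_zero_left, zero_add, D3_zero] at h3
    exact h3
  exact h.inj hab (sub_eq_zero.1 h0).symm

/-- four different points are not coplanar -/
theorem Gn.gp4 (h : Gn p) {a b c d : V} (hab : a ≠ b) (hac : a ≠ c) (had : a ≠ d) (hbc : b ≠ c)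
    (hbd : b ≠ d) (hcd : c ≠ d) : cr (p b - p a) (p c - p a) ⬝ᵥ (p d - p a) ≠ 0 := by
  intro he
  refine h.gp3 hab hac hbc (eq_zero_of_dot fun δ => ?_)
  obtain ⟨D, h1, h2⟩ := h.exists_single d δ
  have h3 := congrArg D he
  rw [D_dot, D3_cr, D3_sub, D3_sub, D3_sub, h1 a (by simpa using had), h1 b (by simpa using hbd),
    h1 c (by simpa using hcd), h2, sub_zero, sub_zero, cr_zero_left, cr_zero_right, add_zero,
    zero_dotProduct, zero_add, map_zero] at h3
  exact h3

/-- linear independence of `b - a, c - a, d - a` in the form which is used -/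
theorem Gn.gp4' (h : Gn p) {a b c d : V} (hab : a ≠ b) (hac : a ≠ c) (had : a ≠ d) (hbc : b ≠ c)
    (hbd : b ≠ d) (hcd : c ≠ d) {r s t : ℝ}
    (he : r • (p b - p a) + s • (p c - p a) + t • (p d - p a) = 0) : r = 0 ∧ s = 0 ∧ t = 0 := by
  have key : ∀ x y z : R3, cr x y ⬝ᵥ z ≠ 0 → ∀ r s t : ℝ, r • x + s • y + t • z = 0 →
      t = 0 := by
    intro x y z hxyz r s t h0
    have h1 := congrArg (fun v => cr x y ⬝ᵥ v) h0
    simp only [dotProduct_add, dotProduct_smul, dotProduct_zero, smul_eq_mul] at h1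
    have h2 : cr x y ⬝ᵥ x = 0 := by rw [dotProduct_comm]; exact dot_cr_self x y
    have h3 : cr x y ⬝ᵥ y = 0 := by rw [dotProduct_comm]; exact dot_cr_self' x y
    rw [h2, h3, mul_zero, mul_zero, zero_add, zero_add] at h1
    rcases mul_eq_zero.1 h1 with h4 | h4
    · exact h4
    · exact absurd h4 hxyz
  have ht := key _ _ _ (h.gp4 hab hac had hbc hbd hcd) r s t he
  have hs := key _ _ _ (h.gp4 hab had hac hbd hbc (Ne.symm hcd)) r t s (by rw [← he]; abel)
  have hr := key _ _ _ (h.gp4 hac had hab hcd (Ne.symm hbc) (Ne.symm hbd)) s t r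
    (by rw [← he]; abel)
  exact ⟨hr, hs, ht⟩

/-- the dot product with three independent differences determines a vector -/
theorem Gn.dot3 (h : Gn p) {a b c d : V} (hab : a ≠ b) (hac : a ≠ c) (had : a ≠ d) (hbc : b ≠ c)
    (hbd : b ≠ d) (hcd : c ≠ d) {x : R3} (h1 : x ⬝ᵥ (p b - p a) = 0) (h2 : x ⬝ᵥ (p c - p a) = 0)
    (h3 : x ⬝ᵥ (p d - p a) = 0) : x = 0 := by
  have h4 := h.gp4 hab hac had hbc hbd hcd
  set e := p b - p a
  set f := p c - p a
  set g := p d - p a
  have h5 : cr x (cr e f) = 0 := by rw [cr_cr, h1, h2, zero_smul, zero_smul, sub_zero]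
  by_contra hx
  obtain ⟨t, ht⟩ := par_of_cr hx h5
  apply h4
  rw [ht, smul_dotProduct, h3, smul_zero]

end GP

/-! ### structures -/

section S

variable {V K : Type} {G : SimpleGraph V} {c : V → K} {p : V → R3} {S : Set K}

theorem Cre.symm {u w : V} (h : Cre G c S u w) : Cre G c S w u :=
  ⟨h.1.symm, h.2.2.1, h.2.1, h.2.2.2.symm⟩

theorem Cre.mono {T : Set K} {u w : V} (h : Cre G c S u w) (hT : S ⊆ T) : Cre G c T u w :=
  ⟨h.1, hT h.2.1, hT h.2.2.1, h.2.2.2⟩

theorem IsMot.mono {T : Set K} {m : K → Tw} (h : IsMot G c p T m) (hS : S ⊆ T) :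
    IsMot G c p S m := fun u w huw => h u w (huw.mono hS)

theorem IsMot.mono_graph {H : SimpleGraph V} {m : K → Tw} (h : IsMot G c p S m) (hH : H ≤ G) :
    IsMot H c p S m := fun u w huw => h u w ⟨hH huw.1, huw.2⟩

theorem IsMot.of_adj {m : K → Tw} (h : IsMot G c p S m) {u w : V} (huw : G.Adj u w) (hu : c u ∈ S)
    (hw : c w ∈ S) : ∃ t : ℝ, m (c u) - m (c w) = t • Ln (p u) (p w) := by
  by_cases he : c u = c w
  · exact ⟨0, by rw [he, sub_self, zero_smul]⟩
  · exact h u w ⟨huw, hu, hw, he⟩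

theorem IsMot.ev_eq {m : K → Tw} (h : IsMot G c p S m) {u w : V} (huw : G.Adj u w) (hu : c u ∈ S)
    (hw : c w ∈ S) : ev (m (c u)) (p u) = ev (m (c w)) (p u) := by
  obtain ⟨t, ht⟩ := h.of_adj huw hu hw
  rw [← sub_eq_zero, ← ev_sub, ht, ev_smul, ev_Ln_left, smul_zero]

theorem isMot_iff_ev (hp : Gn p) {m : K → Tw} : IsMot G c p S m ↔ ∀ u w, Cre G c S u w →
    ev (m (c u)) (p u) = ev (m (c w)) (p u) := by
  constructor
  · intro h u w huw
    exact h.ev_eq huw.1 huw.2.1 huw.2.2.1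
  · intro h u w huw
    refine t1 (hp.inj huw.1.ne) ?_ ?_
    · rw [ev_sub, h u w huw, sub_self]
    · rw [ev_sub, h w u huw.symm, sub_self]

theorem isMot_const (m : Tw) : IsMot G c p S (fun _ => m) :=
  fun _ _ _ => ⟨0, by simp⟩

theorem IsMot.add {m n : K → Tw} (h : IsMot G c p S m) (h' : IsMot G c p S n) :
    IsMot G c p S (m + n) := by
  intro u w huw
  obtain ⟨s, hs⟩ := h u w huw
  obtain ⟨t, ht⟩ := h' u w huw
  refine ⟨s + t, ?_⟩
  rw [Pi.add_apply, Pi.add_apply, add_smul, ← hs, ← ht]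
  abel

theorem IsMot.smul {m : K → Tw} (h : IsMot G c p S m) (a : ℝ) : IsMot G c p S (a • m) := by
  intro u w huw
  obtain ⟨s, hs⟩ := h u w huw
  refine ⟨a * s, ?_⟩
  rw [Pi.smul_apply, Pi.smul_apply, ← smul_sub, hs, smul_smul]

theorem IsMot.sub {m n : K → Tw} (h : IsMot G c p S m) (h' : IsMot G c p S n) :
    IsMot G c p S (m - n) := by
  have h1 := h.add (h'.smul (-1))
  rwa [neg_one_smul, ← sub_eq_add_neg] at h1

/-- motions only depend on the values on `S` -/
theorem IsMot.congr {m n : K → Tw} (h : IsMot G c p S m) (hmn : ∀ X ∈ S, n X = m X) :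
    IsMot G c p S n := by
  intro u w huw
  rw [hmn _ huw.2.1, hmn _ huw.2.2.1]
  exact h u w huw

/-- symmetric coefficients exist -/
theorem IsMot.exists_co {m : K → Tw} (h : IsMot G c p S m) (hp : Gn p) :
    ∃ C : V → V → ℝ, IsCo G c p S m C := by
  classical
  choose t ht using h
  refine ⟨fun u w => if huw : Cre G c S u w then t u w huw else 0, fun u w huw => ?_,
    fun u w => ?_⟩
  · show _ = (if huw : Cre G c S u w then t u w huw else 0) • _
    rw [dif_pos huw]
    exact ht u w huw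
  · show (if huw : Cre G c S u w then t u w huw else 0) =
      (if huw : Cre G c S w u then t w u huw else 0)
    by_cases huw : Cre G c S u w
    · rw [dif_pos huw, dif_pos huw.symm]
      have h1 := ht u w huw
      have h2 := ht w u huw.symm
      have h3 : (t u w huw - t w u huw.symm) • Ln (p u) (p w) = 0 := by
        rw [sub_smul, ← h1]
        rw [Ln_swap (p u) (p w), smul_neg] at h2
        rw [← neg_eq_iff_eq_neg.2 h2]
        abel
      rcases smul_eq_zero.1 h3 with h4 | h4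
      · exact sub_eq_zero.1 h4
      · exact absurd h4 (Ln_ne_zero (hp.inj huw.1.ne))
    · rw [dif_neg huw, dif_neg fun h => huw h.symm]

end S

end Pool.Agent.MPf1f412
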