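import Pool.Agent.Lib.MP_f1f412_co.SpecA
import Pool.Agent.Lib.MP_f1f412_co.Basic

/-!
# MP_f1f412_co (C34), section 9, (9.4): the count
-/

set_option autoImplicit false

namespace Pool.Agent.MPf1f412

theorem a94 : S_ALeave → S_AI2 → S_AI3 → S_AMg → S_ARest → S_A94 := by
  intro hL h2 h3 hM hR V N J _ _ G cp Z f hN X hXZ hX2 hX
  have hleave := hL V N G cp Z hN
  obtain ⟨hi1, hi2⟩ := h2 V N J G cp Z f hN.ndn
    (fun Y hY hY2 u w huw hu => hleave Y hY hY2 u w huw hu)
  -- two values
  obtain ⟨Y, hYZ, hYX⟩ : ∃ Y ∈ Z, Y ≠ X := by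
    obtain ⟨A, hA, B, hB, hAB⟩ := hN.mz.two
    by_cases h : A = X
    · exact ⟨B, hB, fun h' => hAB (h.trans h'.symm)⟩
    · exact ⟨A, hA, h⟩
  have hk : 2 ≤ (f '' Z).ncard := by
    have h1 : 1 < (f '' Z).ncard := (Set.one_lt_ncard (Set.toFinite _)).2
      ⟨f X, Set.mem_image_of_mem f hXZ, f Y, Set.mem_image_of_mem f hYZ,
        fun h => hYX (hX Y h.symm)⟩
    exact h1
  obtain ⟨ha, hb⟩ := h3 V N J G cp Z f hN hk
  have hm := hM V N J G cp Z f ⟨X, hXZ⟩
  have hδ := hN.mz.le
  have hi2' : ∀ A, A ∈ i2 G cp Z f → dK G cp {A} = 2 := fun A hA => hA.2.1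
  by_cases hc : ∃ A B, mgZ Z f A ≠ mgZ Z f B
  · -- (I)
    have h1 := hN.cnt (Option J) (mgZ Z f) hc
    refine ⟨by omega, fun hs u w huw hu hw hne => ?_⟩
    have he : ef G cp Z f = 2 * (i2 G cp Z f).ncard := by omega
    rcases hi2 he u w huw hu hw hne with h | h
    · exact Or.inl (hi2' _ h)
    · exact Or.inr (hi2' _ h)
  · -- (II)
    push Not at hc
    have hnone : ∀ A, mgZ Z f A = none := by
      intro A
      rw [hc A X]
      unfold mgZ
      rw [if_pos (Set.mem_image_of_mem f hXZ)]
    have hval : ∀ A, f A ∈ f '' Z := by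
      intro A
      by_contra h
      have h1 := hnone A
      unfold mgZ at h1
      rw [if_neg h] at h1
      exact Option.some_ne_none _ h1
    have himg : f '' Set.univ = f '' Z := by
      apply Set.Subset.antisymm
      · rintro _ ⟨A, _, rfl⟩
        exact hval A
      · exact Set.image_mono (Set.subset_univ Z)
    have hsf1 : 0 ≤ sf G cp Set.univ (mgZ Z f) := by
      unfold sf
      have h1 : (mgZ Z f '' Set.univ).ncard ≤ 1 := by
        have h2 : mgZ Z f '' Set.univ ⊆ {none} := by
          rintro _ ⟨A, _, rfl⟩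
          exact hnone A
        have h3 := Set.ncard_le_ncard h2 (Set.finite_singleton _)
        rwa [Set.ncard_singleton] at h3
      omega
    have hsf : sf G cp Set.univ f = 5 * (ef G cp Set.univ f : ℤ) -
        6 * (((f '' Z).ncard : ℤ) - 1) := by
      unfold sf
      rw [himg]
    have key : 4 ≤ sf G cp Set.univ f := by
      by_cases hedge : ∃ u w, G.Adj u w ∧ cp u ∈ Z ∧ cp w ∉ Z
      · obtain ⟨u, w, huw, hu, hw⟩ := hedge
        by_cases h4 : ∃ u' w', G.Adj u' w' ∧ cp u' ∈ Z ∧ cp w' ∉ Z ∧ f (cp u') ≠ f (cp u)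
        · obtain ⟨u', w', huw', hu', hw', hne⟩ := h4
          rcases hR V N J G cp Z f hN.deg hδ u w u' w' huw huw' hu hw hu' hw' with h | h
          · exact absurd h.symm hne
          · omega
        · push Not at h4
          have hfX : f X ≠ f (cp u) := by
            intro h
            exact hw (hleave X hXZ hX2 u w huw (hX _ h.symm))
          by_cases h5 : ∃ A ∈ Z, ∃ B ∈ Z, A ≠ B ∧ f A ≠ f (cp u) ∧ f B ≠ f (cp u)
          · have h6 := hb (f (cp u)) (Set.mem_image_of_mem f hu)
              (fun u' w' huw' hu' hw' => h4 u' w' huw' hu' hw') h5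
            omega
          · push Not at h5
            have h6 : f '' Z ⊆ {f X, f (cp u)} := by
              rintro _ ⟨A, hA, rfl⟩
              by_cases hAX : A = X
              · rw [hAX]
                exact Or.inl rfl
              · right
                exact h5 X hXZ A hA (Ne.symm hAX) hfX
            have h7 : (f '' Z).ncard ≤ 2 := by
              refine (Set.ncard_le_ncard h6 (Set.toFinite _)).trans ?_
              refine (Set.ncard_insert_le _ _).trans ?_
              rw [Set.ncard_singleton]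
            have h8 : 0 < (i2 G cp Z f).ncard := by
              rw [Set.ncard_pos (Set.toFinite _)]
              exact ⟨X, hXZ, hX2, fun Y' _ h => hX Y' h⟩
            omega
      · push Not at hedge
        have h9 : dK G cp Z = 0 := by
          unfold dK
          rw [Set.ncard_eq_zero (Set.toFinite _)]
          rw [Set.eq_empty_iff_forall_notMem]
          rintro e ⟨he1, he2, he3⟩
          exact he3 (hedge _ _ he1 he2)
        omega
    exact ⟨by omega, fun hs => by omega⟩

end Pool.Agent.MPf1f412
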