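import Pool.Agent.Lib.MP_f1f412_co.SpecA
import Pool.Agent.Lib.MP_f1f412_co.Basic

/-!
# MP_f1f412_co (C34), A15: Case A (helper50)
-/

set_option autoImplicit false

namespace Pool.Agent.MPf1f412

open Matrix

theorem aCaseA : S_AZeta → S_ATya → S_ATyb → S_ANode → S_CaseA := by
  classical
  intro hz hya hyb hn V K N _ _ _ G c p q g π hE hND Z hZ X hXZ hd
  obtain ⟨X₀, x, y, x', y', hX, h2⟩ := hE.deg2 X hd
  obtain ⟨ζ, hs⟩ := hz V K N G c p q g π hE hND Z hZ X hXZ hd X₀ x y x' y' hX h2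
  by_cases hxx : x = x'
  · subst hxx
    refine hyb V K G c p q g hE.env X₀ x y y' ζ h2 (fun η => ?_)
    obtain ⟨m, hm⟩ := hE.env.T (fun u => if u = x then η else 0)
    have hL : Lse G c p x m := fun u hu Y Y' h1 h2 => by
      rw [hm Y Y' u h1 h2, if_neg hu, mulVec_zero]
    obtain ⟨m', h3, h4⟩ := hn V K N G c p q g π hE X X₀ hX x m h2.cx hL
    have hy : π (c y) ≠ X := fun h => h2.cy ((hX _).1 h)
    have hy' : π (c y') ≠ X := fun h => h2.cy' ((hX _).1 h)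
    obtain ⟨r, hr⟩ := hs.zr m' h3
    refine ⟨r, ?_⟩
    have h5 := hm (c y) (c y') x ⟨y, rfl, Or.inr h2.adj.symm⟩ ⟨y', rfl, Or.inr h2.adj'.symm⟩
    rw [if_pos rfl] at h5
    rw [← ev_smul, ← hr, ← h4 _ hy, ← h4 _ hy', h5]
  · exact hya V K N G c p q g π X X₀ x y x' y' ζ hs hND hd hxx

end Pool.Agent.MPf1f412
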