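import Pool.Agent.Lib.MP_f1f412_co.SpecA
import Pool.Agent.Lib.MP_f1f412_co.Basic

/-!
# MP_f1f412_co (C34), A8: the motions of the structure on the nodes different from `X` (helper86)
-/

set_option autoImplicit false

namespace Pool.Agent.MPf1f412

theorem aDmo : S_A94 → S_AOpt → S_D0f → S_D0r → S_ADmo := by
  classical
  intro hA94 hAOpt hD0f hD0r V N _ _ G cp p Z hgn hnt hcnt X hXZ hX
  have ho1 : ∀ (J : Type) (f' : N → J), opX X f' X = none := fun J f' => if_pos rfl
  have ho2 : ∀ (J : Type) (f' : N → J) Y, Y ≠ X → opX X f' Y = some (f' Y) :=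
    fun J f' Y h => if_neg h
  have hpart : ∀ (J : Type) (f' : N → J), ∀ Y, opX X f' Y = opX X f' X → Y = X := by
    intro J f' Y h
    by_contra hY
    rw [ho1, ho2 J f' Y hY] at h
    exact absurd h (by simp)
  have hSf : ({A | A ≠ X} : Set N).Finite := Set.toFinite _
  have h1 : dmo G cp p {A | A ≠ X} ≤ 6 + 1 := by
    refine (hD0r V N G cp p {A | A ≠ X} 1 hSf hgn hnt fun J f => ?_).1
    have h2 := (hA94 V N (Option J) G cp Z (opX X f) hcnt X hXZ hX (hpart J f)).1
    rw [hAOpt V N J G cp X f hX] at h2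
    push_cast
    linarith
  refine ⟨h1, fun h7 u w huw hu hw hux hwx hne => ?_⟩
  have h8 : dmo G cp p {A | A ≠ X} = 7 := by omega
  have h9 := hD0f V N G cp p {A | A ≠ X} hSf hgn hnt
  rw [h8] at h9
  have h10 : sf G cp {A | A ≠ X} (cmp G cp p {A | A ≠ X}) = -1 := by
    unfold sf
    have : (7 : ℤ) + 5 * (ef G cp {A | A ≠ X} (cmp G cp p {A | A ≠ X}) : ℤ) =
        6 * ((cmp G cp p {A | A ≠ X} '' {A | A ≠ X}).ncard : ℤ) := by
      exact_mod_cast h9
    linarith
  have h11 : sf G cp Set.univ (opX X (cmp G cp p {A | A ≠ X})) = 3 := by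
    rw [hAOpt V N (Set N) G cp X _ hX, h10]
    norm_num
  have h12 := (hA94 V N (Option (Set N)) G cp Z (opX X (cmp G cp p {A | A ≠ X})) hcnt X hXZ hX
    (hpart (Set N) _)).2 h11 u w huw hu hw
  apply h12
  rw [ho2 _ _ _ hux, ho2 _ _ _ hwx]
  intro h
  exact hne (Option.some.inj h)

end Pool.Agent.MPf1f412
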