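import Pool.Agent.Lib.MP_f1f412_co.SpecA
import Pool.Agent.Lib.MP_f1f412_co.Basic

/-!
# MP_f1f412_co (C34), A2: the edges at the nodes of `i2` (helper86)
-/

set_option autoImplicit false

namespace Pool.Agent.MPf1f412

theorem aI2 : S_AI2 := by
  classical
  intro V N J _ _ G cp Z f hnd hl
  set I := i2 G cp Z f with hI
  let P : Set (V × V) := {e | G.Adj e.1 e.2 ∧ cp e.1 ∈ I ∧ cp e.2 ≠ cp e.1}
  have hPf : P.Finite := Set.toFinite _
  have hIf : I.Finite := Set.toFinite _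
  have hPc : P.ncard = 2 * I.ncard := by
    rw [Set.ncard_eq_toFinset_card P hPf, Set.ncard_eq_toFinset_card I hIf,
      Finset.card_eq_sum_card_fiberwise (f := fun e : V × V => cp e.1) (t := hIf.toFinset)
        (fun e he => by
          have h1 : e ∈ P := hPf.mem_toFinset.1 he
          exact Finset.mem_coe.2 (hIf.mem_toFinset.2 h1.2.1)),
      Finset.sum_const_nat (m := 2), mul_comm]
    intro Y hY
    have hY' : Y ∈ I := hIf.mem_toFinset.1 hY
    have hd : dK G cp {Y} = 2 := hY'.2.1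
    rw [← hd]
    unfold dK
    rw [Set.ncard_eq_toFinset_card _ (Set.toFinite _)]
    congr 1
    ext e
    simp only [Finset.mem_filter, Set.Finite.mem_toFinset, Set.mem_setOf_eq,
      Set.mem_singleton_iff, P]
    constructor
    · rintro ⟨⟨h1, h2, h3⟩, h4⟩
      exact ⟨h1, h4, fun h5 => h3 (by rw [h5, h4])⟩
    · rintro ⟨h1, h2, h3⟩
      exact ⟨⟨h1, by rw [h2]; exact hY', fun h5 => h3 (by rw [h5, h2])⟩, h2⟩
  let E : Set (Sym2 V) := {z | ∃ u w, z = s(u, w) ∧ Cre G cp Z u w ∧ f (cp u) ≠ f (cp w)}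
  have hEf : E.Finite := Set.toFinite _
  let φ : V × V → Sym2 V := fun e => s(e.1, e.2)
  have hmaps : φ '' P ⊆ E := by
    rintro _ ⟨e, ⟨h1, h2, h3⟩, rfl⟩
    have hw : cp e.2 ∈ Z := hl (cp e.1) h2.1 h2.2.1 e.1 e.2 h1 rfl
    refine ⟨e.1, e.2, rfl, ⟨h1, h2.1, hw, fun h => h3 h.symm⟩, fun h => h3 ?_⟩
    exact h2.2.2 (cp e.2) hw h.symm
  have hinj : Set.InjOn φ P := by
    rintro ⟨a, b⟩ ⟨h1, h2, h3⟩ ⟨a', b'⟩ ⟨h1', h2', h3'⟩ he
    rcases Sym2.eq_iff.1 he with ⟨h4, h5⟩ | ⟨h4, h5⟩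
    · exact Prod.ext h4 h5
    · exfalso
      simp only at h1 h2 h3 h1' h2' h3' h4 h5
      subst h4 h5
      exact hnd a b h1 (fun h => h3 h.symm) h2.2.1 h2'.2.1
  have hcard : (φ '' P).ncard = 2 * I.ncard := by
    rw [Set.InjOn.ncard_image hinj, hPc]
  have hef : ef G cp Z f = E.ncard := rfl
  refine ⟨?_, ?_⟩
  · rw [← hcard, hef]
    exact Set.ncard_le_ncard hmaps hEf
  · intro heq u w huw hu hw hne
    have h1 : φ '' P = E := by
      apply Set.eq_of_subset_of_ncard_le hmaps _ hEf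
      rw [hcard, ← heq, hef]
    have h2 : s(u, w) ∈ E := ⟨u, w, rfl, ⟨huw, hu, hw, fun h => hne (by rw [h])⟩, hne⟩
    rw [← h1] at h2
    obtain ⟨e, he, he2⟩ := h2
    rcases Sym2.eq_iff.1 he2 with ⟨h4, h5⟩ | ⟨h4, h5⟩
    · left
      rw [← h4]
      exact he.2.1
    · right
      rw [← h4]
      exact he.2.1

end Pool.Agent.MPf1f412
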