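import Pool.Agent.Lib.MP_f1f412_co.SpecA
import Pool.Agent.Lib.MP_f1f412_co.Basic

/-!
# MP_f1f412_co (C34), section 9, A3: the sum of the degrees of the parts
-/

set_option autoImplicit false

namespace Pool.Agent.MPf1f412

theorem aI3 : S_Parts → S_AI3 := by
  classical
  intro hP V N J _ _ G cp Z f hN hk
  let F : Finset J := (Set.toFinite (f '' Z)).toFinset
  have hFm : ∀ j, j ∈ F ↔ j ∈ f '' Z := fun j => Set.Finite.mem_toFinset _
  have hFc : F.card = (f '' Z).ncard := (Set.ncard_eq_toFinset_card (f '' Z) _).symm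
  let P : J → Set N := fun j => {Y | Y ∈ Z ∧ f Y = j}
  have hsum : ∑ j ∈ F, dK G cp (P j) = 2 * ef G cp Z f + dK G cp Z :=
    hP V N J G cp Z f F (Set.Finite.coe_toFinset _)
  obtain ⟨A₀, hA₀, B₀, hB₀, hAB₀⟩ := hN.mz.two
  -- the parts
  have hpart : ∀ j ∈ F, 3 ≤ dK G cp (P j) ∨
      (2 ≤ dK G cp (P j) ∧ ∃ Y ∈ i2 G cp Z f, f Y = j) := by
    intro j hj
    obtain ⟨Y, hYZ, hYj⟩ := (hFm j).1 hj
    have hYP : Y ∈ P j := ⟨hYZ, hYj⟩
    have hne : P j ≠ Z := by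
      intro h
      have h1 : (f '' Z).ncard ≤ 1 := by
        have h2 : f '' Z ⊆ {j} := by
          rintro _ ⟨A, hA, rfl⟩
          rw [← h] at hA
          exact hA.2
        have h3 := Set.ncard_le_ncard h2 (Set.finite_singleton _)
        rwa [Set.ncard_singleton] at h3
      omega
    by_cases h2 : ∃ A ∈ P j, ∃ B ∈ P j, A ≠ B
    · left
      exact hN.mz.min (P j) (fun A hA => hA.1) hne h2
    · push Not at h2
      have hPY : P j = {Y} := by
        ext A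
        rw [Set.mem_singleton_iff]
        exact ⟨fun hA => h2 A hA Y hYP, fun hA => hA ▸ hYP⟩
      have h3 : 2 ≤ dK G cp {Y} := by
        refine hN.deg {Y} ⟨Y, rfl⟩ ?_
        intro h
        have h4 : A₀ ∈ ({Y} : Set N) := by rw [h]; trivial
        have h5 : B₀ ∈ ({Y} : Set N) := by rw [h]; trivial
        exact hAB₀ (h4.trans h5.symm)
      rw [hPY]
      by_cases h6 : 3 ≤ dK G cp {Y}
      · exact Or.inl h6
      · right
        refine ⟨h3, Y, ⟨hYZ, by omega, fun Y' hY' hf => ?_⟩, hYj⟩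
        exact h2 Y' ⟨hY', hf.trans hYj⟩ Y hYP
  let F₂ : Finset J := F.filter fun j => ¬ 3 ≤ dK G cp (P j)
  have hF₂ : F₂.card ≤ (i2 G cp Z f).ncard := by
    rw [Set.ncard_eq_toFinset_card (i2 G cp Z f) (Set.toFinite _)]
    refine le_trans (Finset.card_le_card ?_) (Finset.card_image_le (f := f))
    intro j hj
    rw [Finset.mem_filter] at hj
    rcases hpart j hj.1 with h | ⟨_, Y, hY, hYj⟩
    · exact absurd h hj.2
    · rw [Finset.mem_image]
      exact ⟨Y, (Set.Finite.mem_toFinset _).2 hY, hYj⟩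
  have hterm : ∀ j ∈ F, 3 ≤ dK G cp (P j) + (if ¬ 3 ≤ dK G cp (P j) then 1 else 0) := by
    intro j hj
    split_ifs with h
    · omega
    · rcases hpart j hj with h' | ⟨h', _⟩
      · omega
      · omega
  have hF₂c : F₂.card = ∑ j ∈ F, (if ¬ 3 ≤ dK G cp (P j) then 1 else 0) :=
    Finset.card_filter _ _
  refine ⟨?_, ?_⟩
  · have h1 : ∑ j ∈ F, 3 ≤ ∑ j ∈ F, (dK G cp (P j) + (if ¬ 3 ≤ dK G cp (P j) then 1 else 0)) :=
      Finset.sum_le_sum hterm
    rw [Finset.sum_add_distrib, hsum, ← hF₂c, Finset.sum_const, smul_eq_mul] at h1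
    omega
  · intro j₀ hj₀ hleave ⟨A, hA, B, hB, hAB, hfA, hfB⟩
    have hj₀F : j₀ ∈ F := (hFm j₀).2 hj₀
    let W : Set N := {Y | Y ∈ Z ∧ f Y ≠ j₀}
    have hW3 : 3 ≤ dK G cp W := by
      refine hN.mz.min W (fun Y hY => hY.1) ?_ ⟨A, ⟨hA, hfA⟩, B, ⟨hB, hfB⟩, hAB⟩
      intro h
      obtain ⟨Y, hYZ, hYj⟩ := hj₀
      rw [← h] at hYZ
      exact hYZ.2 hYj
    have hbig : dK G cp W + dK G cp Z ≤ dK G cp (P j₀) := by
      unfold dK
      have e1 : ({e : V × V | G.Adj e.1 e.2 ∧ cp e.1 ∈ W ∧ cp e.2 ∉ W}).ncard =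
          (Prod.swap '' {e : V × V | G.Adj e.1 e.2 ∧ cp e.1 ∈ W ∧ cp e.2 ∉ W}).ncard :=
        (Set.ncard_image_of_injective _ Prod.swap_injective).symm
      rw [e1, ← Set.ncard_union_eq _ (Set.toFinite _) (Set.toFinite _)]
      · refine Set.ncard_le_ncard ?_ (Set.toFinite _)
        rintro e (⟨⟨a, b⟩, ⟨h1, h2, h3⟩, rfl⟩ | ⟨h1, h2, h3⟩)
        · have hbZ : cp b ∈ Z := by
            by_contra hb
            exact h2.2 (hleave a b h1 h2.1 hb)
          have hbj : f (cp b) = j₀ := by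
            by_contra hb
            exact h3 ⟨hbZ, hb⟩
          exact ⟨h1.symm, ⟨hbZ, hbj⟩, fun h => h2.2 h.2⟩
        · exact ⟨h1, ⟨h2, hleave _ _ h1 h2 h3⟩, fun h => h3 h.1⟩
      · rw [Set.disjoint_left]
        rintro e ⟨⟨a, b⟩, ⟨h1, h2, h3⟩, rfl⟩ ⟨h4, h5, h6⟩
        exact h6 h2.1
    have h1 : ∑ j ∈ F.erase j₀, 3 ≤ ∑ j ∈ F.erase j₀,
        (dK G cp (P j) + (if ¬ 3 ≤ dK G cp (P j) then 1 else 0)) :=
      Finset.sum_le_sum fun j hj => hterm j (Finset.mem_of_mem_erase hj)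
    rw [Finset.sum_add_distrib, Finset.sum_const, smul_eq_mul, Finset.card_erase_of_mem hj₀F] at h1
    have h2 := Finset.add_sum_erase F (fun j => dK G cp (P j)) hj₀F
    have h3 := Finset.add_sum_erase F
      (fun j => if ¬ 3 ≤ dK G cp (P j) then 1 else 0) hj₀F
    rw [hsum] at h2
    rw [← hF₂c] at h3
    have h4 : 0 < F.card := Finset.card_pos.2 ⟨j₀, hj₀F⟩
    omega

end Pool.Agent.MPf1f412
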