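import Pool.Agent.Lib.MP_f1f412_co.SpecA

/-!
# MP_f1f412_co: no edge leaves `Z` from a node of degree two (`S_ALeave`)
-/

set_option autoImplicit false

namespace Pool.Agent.MPf1f412

/-- **A1.** No edge leaves `Z` from a node of degree two. -/
theorem aLeave : S_Add → S_ALeave := by
  intro hAdd V N _ G cp Z hZ X hX hdX u w huw hu
  by_contra hw
  obtain ⟨h1, h2⟩ := hAdd V N G cp Z X hX
  have hj : 1 ≤ eAB G cp {X} Zᶜ := by
    unfold eAB
    rw [Nat.one_le_iff_ne_zero, ← Nat.pos_iff_ne_zero, Set.ncard_pos]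
    exact ⟨(u, w), huw, hu, hw⟩
  have hle := hZ.mz.le
  obtain ⟨A, hA, B, hB, hAB⟩ := hZ.mz.two
  have hne : (Z \ {X}).Nonempty := by
    by_cases hAX : A = X
    · exact ⟨B, hB, fun h => hAB (hAX.trans (Set.mem_singleton_iff.mp h).symm)⟩
    · exact ⟨A, hA, hAX⟩
  have hnu : Z \ {X} ≠ Set.univ := by
    intro h
    have h3 : X ∈ Z \ {X} := by
      rw [h]
      exact Set.mem_univ X
    exact h3.2 rfl
  have h3 := hZ.deg (Z \ {X}) hne hnu
  have hnZ : Z \ {X} ≠ Z := by
    intro h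
    have h4 : X ∈ Z \ {X} := by
      rw [h]
      exact hX
    exact h4.2 rfl
  obtain ⟨Y, hY⟩ := hne
  have hsing : Z \ {X} = {Y} := by
    ext Y'
    constructor
    · intro hY'
      by_contra hYY
      have h4 := hZ.mz.min (Z \ {X}) Set.sdiff_subset hnZ ⟨Y', hY', Y, hY, hYY⟩
      omega
    · intro hY'
      rw [Set.mem_singleton_iff.mp hY']
      exact hY
  rw [hsing] at h1 h2 h3
  have ht : 1 ≤ eAB G cp {X} {Y} := by omega
  have hdY : dK G cp {Y} = 2 := by omega
  unfold eAB at ht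
  rw [Nat.one_le_iff_ne_zero, ← Nat.pos_iff_ne_zero, Set.ncard_pos] at ht
  obtain ⟨e, he, he1, he2⟩ := ht
  have he1' : cp e.1 = X := he1
  have he2' : cp e.2 = Y := he2
  refine hZ.ndn e.1 e.2 he ?_ ?_ ?_
  · rw [he1', he2']
    exact fun h => hY.2 h.symm
  · rw [he1']
    exact hdX
  · rw [he2']
    exact hdY

end Pool.Agent.MPf1f412
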