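import Pool.Agent.Lib.MP_f1f412_co.SpecA

/-!
# MP_f1f412_co (C34), A4: merging the parts which meet `Z` (helper18)
-/

set_option autoImplicit false

namespace Pool.Agent.MPf1f412

namespace aMgAux

variable {V N J : Type}

theorem mgZ_eq_none {Z : Set N} {f : N → J} {Y : N} : mgZ Z f Y = none ↔ f Y ∈ f '' Z := by
  unfold mgZ
  split_ifs with h
  · exact iff_of_true rfl h
  · exact iff_of_false (by simp) h

theorem mgZ_eq_some {Z : Set N} {f : N → J} {Y : N} (h : f Y ∉ f '' Z) : mgZ Z f Y = some (f Y) := by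
  unfold mgZ
  rw [if_neg h]

/-- the values of `mgZ Z f` -/
theorem image_eq {Z : Set N} {f : N → J} (hZ : Z.Nonempty) :
    mgZ Z f '' Set.univ = insert none (some '' (f '' Set.univ \ f '' Z)) := by
  ext o
  constructor
  · rintro ⟨Y, -, rfl⟩
    by_cases h : f Y ∈ f '' Z
    · exact Or.inl (mgZ_eq_none.2 h)
    · rw [mgZ_eq_some h]
      exact Or.inr ⟨f Y, ⟨⟨Y, trivial, rfl⟩, h⟩, rfl⟩
  · rintro (rfl | ⟨j, ⟨⟨Y, -, rfl⟩, h⟩, rfl⟩)
    · obtain ⟨Y, hY⟩ := hZ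
      exact ⟨Y, trivial, mgZ_eq_none.2 ⟨Y, hY, rfl⟩⟩
    · exact ⟨Y, trivial, mgZ_eq_some h⟩

/-- the number of the values of `mgZ Z f` -/
theorem ncard_image [Finite N] {Z : Set N} {f : N → J} (hZ : Z.Nonempty) :
    (mgZ Z f '' Set.univ).ncard + (f '' Z).ncard = 1 + (f '' Set.univ).ncard := by
  have hfin : (f '' Set.univ).Finite := Set.toFinite _
  have hfin' : (some '' (f '' Set.univ \ f '' Z)).Finite := (hfin.subset Set.sdiff_subset).image _
  rw [image_eq hZ, Set.ncard_insert_of_notMem (by simp) hfin',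
    Set.ncard_image_of_injective _ (Option.some_injective J)]
  have h := Set.ncard_sdiff_add_ncard_of_subset
    (Set.image_mono (f := f) (Set.subset_univ Z)) hfin
  omega

/-- the number of the edges -/
theorem ef_add [Finite V] {G : SimpleGraph V} {cp : V → N} {Z : Set N} {f : N → J} :
    ef G cp Set.univ (mgZ Z f) + ef G cp Z f ≤ ef G cp Set.univ f := by
  unfold ef
  rw [← Set.ncard_union_eq ?_ (Set.toFinite _) (Set.toFinite _)]
  · refine Set.ncard_le_ncard ?_ (Set.toFinite _)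
    rintro z (⟨u, w, rfl, ⟨h1, h2, h3, h4⟩, h5⟩ | ⟨u, w, rfl, ⟨h1, h2, h3, h4⟩, h5⟩)
    · refine ⟨u, w, rfl, ⟨h1, h2, h3, h4⟩, fun h => h5 ?_⟩
      by_cases hm : f (cp u) ∈ f '' Z
      · rw [mgZ_eq_none.2 hm, mgZ_eq_none.2 (h ▸ hm)]
      · rw [mgZ_eq_some hm, mgZ_eq_some (h ▸ hm), h]
    · exact ⟨u, w, rfl, ⟨h1, trivial, trivial, h4⟩, h5⟩
  · rw [Set.disjoint_left]
    rintro z ⟨u, w, rfl, ⟨h1, h2, h3, h4⟩, h5⟩ ⟨u', w', h, ⟨h1', h2', h3', h4'⟩, h5'⟩
    have hu : mgZ Z f (cp u') = none := mgZ_eq_none.2 ⟨_, h2', rfl⟩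
    have hw : mgZ Z f (cp w') = none := mgZ_eq_none.2 ⟨_, h3', rfl⟩
    rw [Sym2.eq_iff] at h
    rcases h with ⟨rfl, rfl⟩ | ⟨rfl, rfl⟩
    · exact h5 (hu.trans hw.symm)
    · exact h5 (hw.trans hu.symm)

end aMgAux

/-- **A4.** Merging the parts which meet `Z`. -/
theorem aMg : S_AMg := by
  intro V N J _ _ G cp Z f hZ
  have h1 := aMgAux.ncard_image (f := f) hZ
  have h2 := aMgAux.ef_add (G := G) (cp := cp) (Z := Z) (f := f)
  unfold sf
  omega

end Pool.Agent.MPf1f412
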