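import Pool.Agent.Lib.MP_f1f412_co.SpecA
import Pool.Agent.Lib.MP_f1f412_co.Basic

/-!
# MP_f1f412_co (C34), A9: from class motions to node motions (helper50)
-/

set_option autoImplicit false

namespace Pool.Agent.MPf1f412

open Matrix

theorem aNode : S_ANode := by
  intro V K N _ G c p q g π hE X X₀ hX z m hz hL
  have hmot : IsMot G c p (π ⁻¹' {A | A ≠ X}) m := by
    intro u w huw
    obtain ⟨hadj, hu, hw, hne⟩ := huw
    have huz : u ≠ z := by
      rintro rfl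
      exact hu ((hX _).2 hz)
    have hwz : w ≠ z := by
      rintro rfl
      exact hw ((hX _).2 hz)
    refine t1 (hE.env.gn.inj hadj.ne) ?_ ?_
    · exact hL u huz _ _ ⟨u, rfl, Or.inl rfl⟩ ⟨w, rfl, Or.inr hadj.symm⟩
    · exact hL w hwz _ _ ⟨u, rfl, Or.inr hadj⟩ ⟨w, rfl, Or.inl rfl⟩
  have hex : ∀ A : N, ∃ Y, π Y = A := hE.psurj
  choose s hs using hex
  have hm' : ∀ Y, π Y ≠ X → m Y = m (s (π Y)) := fun Y hY =>
    hE.motN {A | A ≠ X} m hmot Y (s (π Y)) hY (hs (π Y)).symm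
  refine ⟨fun A => m (s A), ?_, hm'⟩
  intro u w huw
  obtain ⟨hadj, hu, hw, hne⟩ := huw
  have hu' : π (c u) ≠ X := hu
  have hw' : π (c w) ≠ X := hw
  obtain ⟨t, ht⟩ := hmot u w ⟨hadj, hu', hw', fun h => hne (congrArg π h)⟩
  refine ⟨t, ?_⟩
  show m (s (π (c u))) - m (s (π (c w))) = _
  rw [← hm' _ hu', ← hm' _ hw', ht]

end Pool.Agent.MPf1f412
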