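import Pool.Agent.Lib.MP_f1f412_co.SpecA
import Pool.Agent.Lib.MP_f1f412_co.Basic

/-!
# MP_f1f412_co (C34), A7: adding the node `X` of degree two (helper86)
-/

set_option autoImplicit false

namespace Pool.Agent.MPf1f412

theorem aOpt : S_AOpt := by
  classical
  intro V N J _ _ G cp X f' hX
  have ho1 : opX X f' X = none := if_pos rfl
  have ho2 : ∀ Y, Y ≠ X → opX X f' Y = some (f' Y) := fun Y h => if_neg h
  let E1 : Set (Sym2 V) :=
    {z | ∃ u w, z = s(u, w) ∧ Cre G cp Set.univ u w ∧ opX X f' (cp u) ≠ opX X f' (cp w)}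
  let E2 : Set (Sym2 V) :=
    {z | ∃ u w, z = s(u, w) ∧ Cre G cp {A | A ≠ X} u w ∧ f' (cp u) ≠ f' (cp w)}
  let P : Set (V × V) := {e | G.Adj e.1 e.2 ∧ cp e.1 ∈ ({X} : Set N) ∧ cp e.2 ∉ ({X} : Set N)}
  have hP : P.ncard = 2 := hX
  let φ : V × V → Sym2 V := fun e => s(e.1, e.2)
  have hinj : Set.InjOn φ P := by
    rintro ⟨a, b⟩ ⟨h1, h2, h3⟩ ⟨a', b'⟩ ⟨h1', h2', h3'⟩ he
    rcases Sym2.eq_iff.1 he with ⟨h4, h5⟩ | ⟨h4, h5⟩
    · exact Prod.ext h4 h5
    · exfalso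
      simp only at h1 h2 h3 h1' h2' h3' h4 h5
      subst h4 h5
      exact h3 h2'
  have hdisj : Disjoint E2 (φ '' P) := by
    rw [Set.disjoint_left]
    rintro z ⟨a, b, rfl, h1, -⟩ ⟨⟨a', b'⟩, ⟨-, h2, -⟩, he⟩
    have h2' : cp a' = X := h2
    rcases Sym2.eq_iff.1 he with ⟨h4, h5⟩ | ⟨h4, h5⟩
    · simp only at h4
      rw [h4] at h2'
      exact h1.2.1 h2'
    · simp only at h4
      rw [h4] at h2'
      exact h1.2.2.1 h2'
  have hun : E1 = E2 ∪ φ '' P := by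
    ext z
    constructor
    · rintro ⟨a, b, rfl, h1, h2⟩
      by_cases ha : cp a = X
      · right
        refine ⟨(a, b), ⟨h1.1, ha, fun hb => h1.2.2.2 ?_⟩, rfl⟩
        have hb' : cp b = X := hb
        rw [ha, hb']
      · by_cases hb : cp b = X
        · right
          exact ⟨(b, a), ⟨h1.1.symm, hb, ha⟩, Sym2.eq_swap⟩
        · left
          refine ⟨a, b, rfl, ⟨h1.1, ha, hb, h1.2.2.2⟩, fun h => h2 ?_⟩
          rw [ho2 _ ha, ho2 _ hb, h]
    · rintro (⟨a, b, rfl, h1, h2⟩ | ⟨⟨a, b⟩, ⟨h1, h2, h3⟩, rfl⟩)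
      · refine ⟨a, b, rfl, ⟨h1.1, Set.mem_univ _, Set.mem_univ _, h1.2.2.2⟩, fun h => h2 ?_⟩
        rw [ho2 _ h1.2.1, ho2 _ h1.2.2.1] at h
        exact Option.some.inj h
      · have h2' : cp a = X := h2
        have h3' : cp b ≠ X := h3
        refine ⟨a, b, rfl, ⟨h1, Set.mem_univ _, Set.mem_univ _, fun h => h3' ?_⟩, fun h => ?_⟩
        · rw [← h, h2']
        · rw [h2', ho1, ho2 _ h3'] at h
          exact absurd h (by simp)
  have he : ef G cp Set.univ (opX X f') = ef G cp {A | A ≠ X} f' + 2 := by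
    have e1 : ef G cp Set.univ (opX X f') = E1.ncard := rfl
    have e2 : ef G cp {A | A ≠ X} f' = E2.ncard := rfl
    rw [e1, e2, hun, Set.ncard_union_eq hdisj (Set.toFinite _) (Set.toFinite _),
      Set.InjOn.ncard_image hinj, hP]
  have hi : (opX X f' '' Set.univ).ncard = (f' '' {A | A ≠ X}).ncard + 1 := by
    have h1 : opX X f' '' Set.univ = insert none (some '' (f' '' {A | A ≠ X})) := by
      ext y
      constructor
      · rintro ⟨Y, -, rfl⟩
        by_cases h : Y = X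
        · left
          rw [h, ho1]
        · right
          exact ⟨f' Y, ⟨Y, h, rfl⟩, (ho2 Y h).symm⟩
      · rintro (rfl | ⟨_, ⟨Y, hY, rfl⟩, rfl⟩)
        · exact ⟨X, Set.mem_univ _, ho1⟩
        · exact ⟨Y, Set.mem_univ _, ho2 Y hY⟩
    rw [h1, Set.ncard_insert_of_notMem _ (Set.toFinite _),
      Set.ncard_image_of_injective _ (Option.some_injective J)]
    rintro ⟨y, -, hy⟩
    exact absurd hy (by simp)
  unfold sf
  rw [he, hi]
  push_cast
  ring

end Pool.Agent.MPf1f412
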