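import Pool.Agent.Lib.MP_f1f412_co.SpecA
import Pool.Agent.Lib.MP_f1f412_co.Basic

/-!
# MP_f1f412_co (C34), A12 and A13: the twist vanishes at `y`
-/

set_option autoImplicit false

namespace Pool.Agent.MPf1f412

open Matrix

theorem aDer : S_ADer := by
  intro V p ζ x' y' y hp hy hy' hD h
  refine eq_zero_of_dot fun δ => ?_
  obtain ⟨D, h1, h2⟩ := hp.exists_single x' δ
  obtain ⟨t, ht⟩ := hD D h1
  have e1 : D3 D (p y') = 0 := h1 y' (by simpa using hy')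
  have e2 : D3 D (p y) = 0 := h1 y (by simpa using hy)
  have h3 := congrArg D h
  rw [D_dot, D3_sub, h2, e1, sub_zero, D3_ev, ht, e2, cr_zero_right, add_zero, ev_smul,
    dotProduct_smul, h, smul_zero, add_zero, map_zero] at h3
  rw [dotProduct_comm]
  exact h3

theorem aRel : S_ARel := by
  intro V K _ G c p q g hE X x y x' y' ζ h2 hne hD hL
  by_contra hζ
  obtain ⟨m, hm, hmx⟩ := hE.tr x X (c y) (Ne.symm h2.cy) ⟨x, h2.cx, Or.inl rfl⟩
    ⟨y, rfl, Or.inr h2.adj.symm⟩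
  have ne1 : y ≠ x := h2.adj.ne.symm
  have ne2 : y' ≠ x := fun h => h2.cy' (by rw [h]; exact h2.cx)
  have ne3 : x' ≠ y := fun h => h2.cy (by rw [← h]; exact h2.cx')
  have ne4 : y' ≠ y := fun h => h2.cyy (by rw [h])
  have a1 : ev (m X - m (c y')) (p x') = 0 :=
    hm x' (Ne.symm hne) X (c y') ⟨x', h2.cx', Or.inl rfl⟩ ⟨y', rfl, Or.inr h2.adj'.symm⟩
  have a2 : ev (m X - m (c y')) (p y') = 0 :=
    hm y' ne2 X (c y') ⟨x', h2.cx', Or.inr h2.adj'⟩ ⟨y', rfl, Or.inl rfl⟩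
  have a3 : ev (m X - m (c y)) (p y) = 0 :=
    hm y ne1 X (c y) ⟨x, h2.cx, Or.inr h2.adj⟩ ⟨y, rfl, Or.inl rfl⟩
  obtain ⟨b, hb⟩ := t1 (hE.gn.inj h2.adj'.ne) a1 a2
  obtain ⟨r, hr⟩ := hL m hm
  have e1 : m X - m (c y) = b • Ln (p x') (p y') - r • ζ := by
    rw [← hb, ← hr]
    abel
  have e2 : b • ev (Ln (p x') (p y')) (p y) = r • ev ζ (p y) := by
    rw [e1, ev_sub, ev_smul, ev_smul] at a3
    exact sub_eq_zero.1 a3
  have hn : ev (Ln (p x') (p y')) (p y) ≠ 0 := by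
    rw [ev_Ln]
    exact hE.gn.gp3 h2.adj'.ne ne3 ne4
  have hr0 : r ≠ 0 := by
    intro h0
    rw [h0, zero_smul] at e2
    rcases smul_eq_zero.1 e2 with h | h
    · rw [h0, h, zero_smul, zero_smul, sub_zero] at e1
      apply hmx
      rw [e1, ev_zero]
    · exact hn h
  apply hζ
  refine aDer V p ζ x' y' y hE.gn (Ne.symm ne3) (h2.adj'.ne.symm) hD ?_
  have e3 : ev ζ (p y) = (r⁻¹ * b) • ev (Ln (p x') (p y')) (p y) := by
    rw [mul_smul, e2, smul_smul, inv_mul_cancel₀ hr0, one_smul]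
  rw [e3, dotProduct_smul, ev_Ln]
  have e4 : p x' - p y' = -(p y' - p x') := by abel
  rw [e4, neg_dotProduct, dot_cr_self, neg_zero, smul_zero]

end Pool.Agent.MPf1f412
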