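import Pool.Agent.Lib.MP_f1f412_co.SpecA
import Pool.Agent.Lib.MP_f1f412_co.Basic

/-!
# MP_f1f412_co (C34), A5: the two edges leaving `Z` (helper86)
-/

set_option autoImplicit false

namespace Pool.Agent.MPf1f412

theorem aRest : S_ARest := by
  classical
  intro V N J _ _ G cp Z f hdeg hZ u w u' w' huw huw' hu hw hu' hw'
  by_contra hno
  push Not at hno
  obtain ⟨hne, hlt⟩ := hno
  let E : Set (Sym2 V) := {z | ∃ u w, z = s(u, w) ∧ Cre G cp Z u w ∧ f (cp u) ≠ f (cp w)}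
  let E' : Set (Sym2 V) :=
    {z | ∃ u w, z = s(u, w) ∧ Cre G cp Set.univ u w ∧ f (cp u) ≠ f (cp w)}
  have hEE : E ⊆ E' := by
    rintro z ⟨a, b, rfl, h1, h2⟩
    exact ⟨a, b, rfl, ⟨h1.1, Set.mem_univ _, Set.mem_univ _, h1.2.2.2⟩, h2⟩
  have he1 : ef G cp Z f = E.ncard := rfl
  have he2 : ef G cp Set.univ f = E'.ncard := rfl
  have hEq : E = E' := by
    apply Set.eq_of_subset_of_ncard_le hEE _ (Set.toFinite _)
    omega
  -- every edge with an end outside of `Z` has equal values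
  have hstar : ∀ a b, G.Adj a b → (cp a ∉ Z ∨ cp b ∉ Z) → f (cp a) = f (cp b) := by
    intro a b hab hout
    by_contra hf
    have h1 : s(a, b) ∈ E' :=
      ⟨a, b, rfl, ⟨hab, Set.mem_univ _, Set.mem_univ _, fun h => hf (by rw [h])⟩, hf⟩
    rw [← hEq] at h1
    obtain ⟨a', b', h2, h3, -⟩ := h1
    rcases Sym2.eq_iff.1 h2 with ⟨h4, h5⟩ | ⟨h4, h5⟩
    · subst h4 h5
      rcases hout with h | h
      · exact h h3.2.1
      · exact h h3.2.2.1
    · subst h4 h5
      rcases hout with h | h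
      · exact h h3.2.2.1
      · exact h h3.2.1
  -- the pairs leaving `Z`
  let L : Set (V × V) := {e | G.Adj e.1 e.2 ∧ cp e.1 ∈ Z ∧ cp e.2 ∉ Z}
  have hL : L.ncard ≤ 2 := hZ
  have hne2 : ((u, w) : V × V) ≠ (u', w') := by
    intro h
    apply hne
    rw [(Prod.mk.inj h).1]
  have hLeq : L = {(u, w), (u', w')} := by
    symm
    apply Set.eq_of_subset_of_ncard_le _ _ (Set.toFinite _)
    · rintro z (rfl | rfl)
      · exact ⟨huw, hu, hw⟩
      · exact ⟨huw', hu', hw'⟩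
    · rw [Set.ncard_pair hne2]
      exact hL
  let U : Set N := {Y | Y ∉ Z ∧ f Y = f (cp u)}
  have hwU : cp w ∈ U := ⟨hw, (hstar u w huw (Or.inr hw)).symm⟩
  have hUne : U ≠ Set.univ := by
    intro h
    have h1 : cp u ∈ U := by rw [h]; exact Set.mem_univ _
    exact h1.1 hu
  have h2 := hdeg U ⟨_, hwU⟩ hUne
  have h3 : dK G cp U ≤ 1 := by
    unfold dK
    have h4 : {e : V × V | G.Adj e.1 e.2 ∧ cp e.1 ∈ U ∧ cp e.2 ∉ U} ⊆ {(w, u)} := by
      rintro ⟨a, b⟩ ⟨hab, ha, hb⟩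
      simp only at hab ha hb
      have h5 : f (cp a) = f (cp b) := hstar a b hab (Or.inl ha.1)
      have h6 : cp b ∈ Z := by
        by_contra h7
        exact hb ⟨h7, by rw [← h5]; exact ha.2⟩
      have h7 : ((b, a) : V × V) ∈ L := ⟨hab.symm, h6, ha.1⟩
      rw [hLeq] at h7
      rcases h7 with h8 | h8
      · obtain ⟨h9, h10⟩ := Prod.mk.inj h8
        rw [h9, h10]
        rfl
      · exfalso
        have h8' : ((b, a) : V × V) = (u', w') := h8
        obtain ⟨h9, h10⟩ := Prod.mk.inj h8'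
        apply hne
        rw [← h9, ← h5]
        exact ha.2.symm
    have h5 := Set.ncard_le_ncard h4 (Set.toFinite _)
    rw [Set.ncard_singleton] at h5
    exact h5
  omega

end Pool.Agent.MPf1f412
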