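import Pool.Agent.Lib.MP_f1f412_co.SpecA
import Pool.Agent.Lib.MP_f1f412_co.Basic

/-!
# MP_f1f412_co (C34), A14: type (a)
-/

set_option autoImplicit false

namespace Pool.Agent.MPf1f412

open Matrix

namespace aTyaAux

variable {V K : Type} {G : SimpleGraph V} {c : V → K} {X : K} {x y x' y' : V}

theorem D2.symm (h : D2 G c X x y x' y') (hne : x ≠ x') : D2 G c X x' y' x y where
  cx := h.cx'
  cx' := h.cx
  cy := h.cy'
  cy' := h.cy
  cyy := h.cyy.symm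
  adj := h.adj'
  adj' := h.adj
  all := fun u w hu hw huw => (h.all u w hu hw huw).symm
  one := fun h' => absurd h'.symm hne

end aTyaAux

open aTyaAux in
theorem aTya (h1 : S_ARel) (h2 : S_ANode) (h3 : S_DZP) : S_ATya := by
  intro V K N _ _ _ G c p q g π X X₀ x y x' y' ζ hZ hND hdX hne
  have hy : π (c y) ≠ X := fun h => hZ.d2.cy ((hZ.pX _).1 h)
  have hy' : π (c y') ≠ X := fun h => hZ.d2.cy' ((hZ.pX _).1 h)
  have hgn : Gn p := hZ.ne.env.gn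
  have key : ∀ z, c z = X₀ → (∀ D : Derivation ℚ ℝ ℝ, Spt p D {z} → ∃ t : ℝ, DT D ζ = t • ζ) ∧
      ∀ m : K → Tw, Lse G c p z m → ∃ r : ℝ, m (c y) - m (c y') = r • ζ := by
    intro z hz
    refine ⟨fun D hD => hZ.zd D fun u hu => hD u fun hu' => hu ?_, fun m hm => ?_⟩
    · rw [Set.mem_singleton_iff] at hu'
      rw [hu']
      exact hz
    · obtain ⟨m', hm', hmm'⟩ := h2 V K N G c p q g π hZ.ne X X₀ hZ.pX z m hz hm
      obtain ⟨r, hr⟩ := hZ.zr m' hm'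
      exact ⟨r, by rw [hmm' _ hy, hmm' _ hy', hr]⟩
  have v1 : ev ζ (p y) = 0 :=
    h1 V K G c p q g hZ.ne.env X₀ x y x' y' ζ hZ.d2 hne (key x' hZ.d2.cx').1 (key x hZ.d2.cx).2
  have v2 : ev ζ (p y') = 0 :=
    h1 V K G c p q g hZ.ne.env X₀ x' y' x y ζ (D2.symm hZ.d2 hne) (Ne.symm hne)
      (key x hZ.d2.cx).1 (fun m hm => by
        obtain ⟨r, hr⟩ := (key x' hZ.d2.cx').2 m hm
        exact ⟨-r, by rw [neg_smul, ← hr, neg_sub]⟩)
  obtain ⟨m₀, hm₀, hm₀ζ⟩ := hZ.zm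
  obtain ⟨w, hyw, -, hw⟩ := h3 V N G (π ∘ c) p {A | A ≠ X} (Set.toFinite _) hgn
    hZ.ne.env.hyp.tri y (π (c y')) hy hy' (fun m hm => by
      obtain ⟨r, hr⟩ := hZ.zr m hm
      change ev (m (π (c y)) - m (π (c y'))) (p y) = 0
      rw [hr, ev_smul, v1, smul_zero]) ⟨m₀, hm₀, fun h => hZ.z0 (by
        rw [← hm₀ζ]
        exact sub_eq_zero.2 h)⟩
  obtain ⟨t, ht⟩ := hw m₀ hm₀
  have ht' : ζ = t • Ln (p y) (p w) := by
    rw [← hm₀ζ]
    exact ht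
  have ht0 : t ≠ 0 := by
    rintro rfl
    rw [zero_smul] at ht'
    exact hZ.z0 ht'
  have hyy' : y ≠ y' := fun h => hZ.d2.cyy (congrArg c h)
  have hwy : w = y' := by
    by_contra hwy
    rw [ht', ev_smul, ev_Ln] at v2
    rcases smul_eq_zero.1 v2 with h | h
    · exact ht0 h
    · exact hgn.gp3 hyw.ne hyy' hwy h
  rw [hwy] at hyw
  have hx : π (c x) = X := (hZ.pX _).2 hZ.d2.cx
  have hx' : π (c x') = X := (hZ.pX _).2 hZ.d2.cx'
  rcases hZ.ze y y' hyw ⟨x, hZ.d2.adj, hx⟩ ⟨x', hZ.d2.adj', hx'⟩ hy hy' hZ.zc with h | h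
  · refine hND x y hZ.d2.adj (fun h' => hy ?_) ?_ h
    · rw [← hx]
      exact h'.symm
    · change dK G (π ∘ c) {π (c x)} = 2
      rw [hx]
      exact hdX
  · refine hND x' y' hZ.d2.adj' (fun h' => hy' ?_) ?_ h
    · rw [← hx']
      exact h'.symm
    · change dK G (π ∘ c) {π (c x')} = 2
      rw [hx']
      exact hdX

end Pool.Agent.MPf1f412
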