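import Pool.Agent.Lib.MP_f1f412_co.SpecA
import Pool.Agent.Lib.MP_f1f412_co.Basic

/-!
# MP_f1f412_co (C34), A11: type (b), a vertex of degree two (helper50)
-/

set_option autoImplicit false

namespace Pool.Agent.MPf1f412

open Matrix

namespace aTybAux

theorem dsq_ap (g : Iso3) (x y : R3) : dsq (g.ap x) (g.ap y) = dsq x y := by
  unfold dsq Iso3.ap
  have h1 : g.A *ᵥ x + g.b - (g.A *ᵥ y + g.b) = g.A *ᵥ (x - y) := by
    rw [mulVec_sub]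
    abel
  rw [h1, dotProduct_mulVec, ← mulVec_transpose, mulVec_mulVec, g.orth, one_mulVec]

end aTybAux

theorem aTyb : S_R1 → S_TwoIso → S_ATyb := by
  intro hR1 hTI V K _ G c p q g hE X z y y' ζ h2 hη
  have pYz : Pin G c (c y) z := ⟨y, rfl, Or.inr h2.adj.symm⟩
  have pYz' : Pin G c (c y') z := ⟨y', rfl, Or.inr h2.adj'.symm⟩
  have pYy : Pin G c (c y) y := ⟨y, rfl, Or.inl rfl⟩
  have pYy' : Pin G c (c y') y' := ⟨y', rfl, Or.inl rfl⟩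
  have pXz : Pin G c X z := ⟨z, h2.cx, Or.inl rfl⟩
  have pXy : Pin G c X y := ⟨z, h2.cx, Or.inr h2.adj⟩
  have pXy' : Pin G c X y' := ⟨z, h2.cx, Or.inr h2.adj'⟩
  have pinX : ∀ u, Pin G c X u → u = z ∨ u = y ∨ u = y' := by
    rintro u ⟨v, hv, h⟩
    obtain ⟨o1, o2⟩ := h2.one rfl
    have hvz := o1 v hv
    subst hvz
    rcases h with h | h
    · exact Or.inl h
    · exact Or.inr (o2 u h)
  have he : ev ζ (p z) ≠ 0 := by
    intro h0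
    refine hE.T0 (c y) (c y') z h2.cyy pYz pYz' (sub_eq_zero.1 ?_)
    ext i j
    obtain ⟨r, hr⟩ := hη (Pi.single j 1)
    rw [h0, smul_zero, mulVec_single_one] at hr
    exact congrFun hr i
  set g₁ := g (c y) with hg1
  set g₂ := g (c y') with hg2
  have a1 : g₁.A * g₁.Aᵀ = 1 := mul_eq_one_comm.1 g₁.orth
  have hC : (g₁.Aᵀ * g₂.A)ᵀ * (g₁.Aᵀ * g₂.A) = 1 := by
    rw [transpose_mul, transpose_transpose, Matrix.mul_assoc, ← Matrix.mul_assoc g₁.A, a1,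
      Matrix.one_mul, g₂.orth]
  have hx : ∀ x, ∃ r : ℝ, (g₁.Aᵀ * g₂.A)ᵀ *ᵥ x - x = r • ev ζ (p z) := by
    intro x
    obtain ⟨r, hr⟩ := hη (g₁.A *ᵥ x)
    refine ⟨-r, ?_⟩
    have h3 : (g₁.B - g₂.B) *ᵥ (g₁.A *ᵥ x) = x - (g₁.Aᵀ * g₂.A)ᵀ *ᵥ x := by
      rw [sub_mulVec, mulVec_mulVec, mulVec_mulVec, transpose_mul, transpose_transpose]
      show (g₁.Aᵀ * g₁.A) *ᵥ x - (g₂.Aᵀ * g₁.A) *ᵥ x = _
      rw [g₁.orth, one_mulVec]
    rw [neg_smul, ← hr, h3, neg_sub]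
  have hCC := (hR1 (g₁.Aᵀ * g₂.A) (ev ζ (p z)) hC he).2 hx
  have hq1 : g₁.ap (p z) = g₂.ap (p z) := by
    rw [← hE.pl _ _ pYz, ← hE.pl _ _ pYz']
  have hd : dsq (g₁.ap (p y)) (g₂.ap (p y')) = dsq (p y) (p y') := by
    rw [← hE.pl _ _ pYy, ← hE.pl _ _ pYy', hE.pl _ _ pXy, hE.pl _ _ pXy', aTybAux.dsq_ap]
  have hr : ∀ A : K, A ∈ Set.range c := hE.surj
  rcases hTI g₁ g₂ (p z) (p y') (p y) hq1 hd
    (hCC.imp id fun h => ⟨ev ζ (p z), he, h⟩) with h | h | h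
  · exact hE.mp _ (hr (c y)) _ (hr (c y')) h2.cyy
      ⟨g₁, fun u hu => hE.pl _ _ hu, fun u hu => by rw [h]; exact hE.pl _ _ hu⟩
  · refine hE.mp _ (hr (c y)) _ (hr X) h2.cy ⟨g₁, fun u hu => hE.pl _ _ hu, fun u hu => ?_⟩
    rcases pinX u hu with rfl | rfl | rfl
    · exact hE.pl _ _ pYz
    · exact hE.pl _ _ pYy
    · rw [← h]
      exact hE.pl _ _ pYy'
  · refine hE.mp _ (hr (c y')) _ (hr X) h2.cy' ⟨g₂, fun u hu => hE.pl _ _ hu, fun u hu => ?_⟩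
    rcases pinX u hu with rfl | rfl | rfl
    · exact hE.pl _ _ pYz'
    · rw [h]
      exact hE.pl _ _ pYy
    · exact hE.pl _ _ pYy'

end Pool.Agent.MPf1f412
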