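import Pool.Agent.Lib.MP_f1f412_co.SpecA
import Pool.Agent.Lib.MP_f1f412_co.Basic

/-!
# MP_f1f412_co (C34), section 9, A10: the twist zeta
-/

set_option autoImplicit false

namespace Pool.Agent.MPf1f412

theorem aZeta : S_ALeave → S_ADmo → S_CompRig → S_Mrg → S_SpDim → S_Stab → S_AZeta := by
  intro hL hD hC hM hSd hSt V K N _ _ _ G c p q g π hE hN Z hZ X hXZ hX2 X₀ x y x' y' hπ hd
  have hNC : NCnt G (π ∘ c) Z := ⟨hN, hE.deg, hE.cntN, hZ⟩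
  have hgn := hE.env.gn
  have htri := hE.env.hyp.tri
  have hy : π (c y) ≠ X := fun h => hd.cy ((hπ _).1 h)
  have hy' : π (c y') ≠ X := fun h => hd.cy' ((hπ _).1 h)
  have hx : π (c x) = X := (hπ _).2 hd.cx
  have hx' : π (c x') = X := (hπ _).2 hd.cx'
  have hSf : ({A | A ≠ X} : Set N).Finite := Set.toFinite _
  have zc : cmp G (π ∘ c) p {A | A ≠ X} (π (c y)) ≠
      cmp G (π ∘ c) p {A | A ≠ X} (π (c y')) := by
    intro h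
    have hR : Rig G (π ∘ c) p (cmp G (π ∘ c) p {A | A ≠ X} (π (c y))) :=
      hC V N G (π ∘ c) p {A | A ≠ X} hSf hgn htri (π (c y)) hy
    have h1 : π (c y) ∈ cmp G (π ∘ c) p {A | A ≠ X} (π (c y)) := ⟨hy, fun _ _ => rfl⟩
    have h2 : π (c y') ∈ cmp G (π ∘ c) p {A | A ≠ X} (π (c y)) := by
      rw [h]
      exact ⟨hy', fun _ _ => rfl⟩
    have h3 := hE.slowN _ X hR (fun h4 => h4.1 rfl) x y x' y' hx hx' h1 h2 hd.adj hd.adj'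
    exact hd.cyy (by rw [h3.2])
  obtain ⟨hD1, hD2⟩ := hD V N G (π ∘ c) p Z hgn htri hNC X hXZ hX2
  have hsd := hSd V N G (π ∘ c) p {A | A ≠ X} (π (c y)) (π (c y')) hy hy'
  obtain ⟨m₀, hm₀, hne₀⟩ : ∃ m, IsMot G (π ∘ c) p {A | A ≠ X} m ∧ m (π (c y)) ≠ m (π (c y')) := by
    by_contra hcon
    push Not at hcon
    exact zc (((hM V N G (π ∘ c) p {A | A ≠ X} ⟨_, hy⟩).1 _ hy _ hy').2 hcon)
  have hpos : 1 ≤ Module.finrank ℝ (Sp G (π ∘ c) p {A | A ≠ X} (π (c y)) (π (c y'))) := by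
    have hnt : Nontrivial (Sp G (π ∘ c) p {A | A ≠ X} (π (c y)) (π (c y'))) := by
      refine ⟨⟨⟨m₀ (π (c y)) - m₀ (π (c y')), m₀, hm₀, rfl⟩, 0, fun h => ?_⟩⟩
      have h1 := congrArg Subtype.val h
      exact hne₀ (sub_eq_zero.1 h1)
    exact Module.finrank_pos
  have h1 : Module.finrank ℝ (Sp G (π ∘ c) p {A | A ≠ X} (π (c y)) (π (c y'))) = 1 := by omega
  have h7 : 7 ≤ dmo G (π ∘ c) p {A | A ≠ X} := by omega
  obtain ⟨⟨ζ, m₁, hm₁, hζ⟩, hζ0, hspan⟩ := finrank_eq_one_iff'.1 h1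
  have hζ0' : ζ ≠ 0 := fun h => hζ0 (Subtype.ext h)
  have zr : ∀ m : N → Tw, IsMot G (π ∘ c) p {A | A ≠ X} m →
      ∃ r : ℝ, m (π (c y)) - m (π (c y')) = r • ζ := by
    intro m hm
    obtain ⟨r, hr⟩ := hspan ⟨m (π (c y)) - m (π (c y')), m, hm, rfl⟩
    exact ⟨r, (congrArg Subtype.val hr).symm⟩
  refine ⟨ζ, hE, hπ, hd, hζ0', zr, ⟨m₁, hm₁, hζ.symm⟩, ?_, zc, ?_⟩
  · intro D hDs
    have h2 := hSt V N G (π ∘ c) p {A | A ≠ X} D {u | c u = X₀} hDs (by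
      intro u hu w huw
      exact huw.2.1 ((hπ _).2 hu)) m₁ hm₁
    obtain ⟨r, hr⟩ := zr _ h2
    refine ⟨r, ?_⟩
    rw [← hr, hζ, DT_sub]
  · rintro u w huw ⟨v, hvu, hv⟩ ⟨v', hvw, hv'⟩ hu hw hne
    exact hD2 h7 u w huw (hL V N G (π ∘ c) Z hNC X hXZ hX2 v u hvu hv)
      (hL V N G (π ∘ c) Z hNC X hXZ hX2 v' w hvw hv') hu hw hne

end Pool.Agent.MPf1f412
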