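import Pool.Agent.Lib.MP_f1f412_co.Spec1

/-!
# MP_f1f412_co (C34): the counting lemma (S_Cnt)
-/

set_option autoImplicit false

namespace Pool.Agent.MPf1f412

theorem cnt : S_Cnt := by
  intro V K _ _ c P Ex hsym hdeg hnb
  set T : Finset K := P.image fun z => c z.1 with hT
  set dg : K → ℕ := fun X => (P.filter fun z => c z.1 = X).card with hdg
  have hsum : P.card = ∑ X ∈ T, dg X :=
    Finset.card_eq_sum_card_fiberwise (fun z hz => Finset.mem_coe.2
      (Finset.mem_image_of_mem _ (Finset.mem_coe.1 hz)))
  have hdT : ∀ X ∈ T, 2 ≤ dg X := by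
    intro X hX
    rw [hT, Finset.mem_image] at hX
    obtain ⟨z, hz, rfl⟩ := hX
    exact hdeg z hz
  set A : Finset K := T.filter fun X => dg X = 2 ∧ X ∉ Ex with hA
  have h1 : 3 * T.card ≤ P.card + A.card + (T ∩ Ex).card := by
    have h2 : A.card = ∑ X ∈ T, if dg X = 2 ∧ X ∉ Ex then 1 else 0 := Finset.card_filter _ _
    have h3 : (T ∩ Ex).card = ∑ X ∈ T, if X ∈ Ex then 1 else 0 := by
      rw [← Finset.filter_mem_eq_inter, Finset.card_filter]
    rw [hsum, h2, h3, ← Finset.sum_add_distrib, ← Finset.sum_add_distrib, Nat.mul_comm,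
      ← smul_eq_mul, ← Finset.sum_const]
    apply Finset.sum_le_sum
    intro X hX
    have h4 := hdT X hX
    by_cases h5 : X ∈ Ex
    · rw [if_neg (fun h => h.2 h5), if_pos h5]
      omega
    · by_cases h6 : dg X = 2
      · rw [if_pos ⟨h6, h5⟩, if_neg h5]
        omega
      · rw [if_neg (fun h => h6 h.1), if_neg h5]
        omega
  set PA : Finset (V × V) := P.filter fun z => c z.1 ∈ A with hPA
  have h2 : PA.card = 2 * A.card := by
    have h3 : PA.card = ∑ X ∈ A, (PA.filter fun z => c z.1 = X).card :=
      Finset.card_eq_sum_card_fiberwise (fun z hz => by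
        rw [Finset.mem_coe, hPA, Finset.mem_filter] at hz
        exact Finset.mem_coe.2 hz.2)
    have h4 : ∀ X ∈ A, (PA.filter fun z => c z.1 = X).card = 2 := by
      intro X hX
      have h5 : (PA.filter fun z => c z.1 = X) = P.filter fun z => c z.1 = X := by
        ext z
        simp only [hPA, Finset.mem_filter]
        constructor
        · rintro ⟨⟨h6, -⟩, h7⟩
          exact ⟨h6, h7⟩
        · rintro ⟨h6, h7⟩
          exact ⟨⟨h6, h7 ▸ hX⟩, h7⟩
      rw [h5]
      rw [hA, Finset.mem_filter] at hX
      exact hX.2.1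
    rw [h3, Finset.sum_congr rfl h4, Finset.sum_const, smul_eq_mul, Nat.mul_comm]
  have h3 : (PA ∪ PA.image Prod.swap).card = 4 * A.card := by
    rw [Finset.card_union_of_disjoint, Finset.card_image_of_injective _ Prod.swap_injective, h2]
    · omega
    · rw [Finset.disjoint_left]
      intro z hz hz'
      rw [Finset.mem_image] at hz'
      obtain ⟨y, hy, rfl⟩ := hz'
      rw [hPA, Finset.mem_filter] at hz hy
      rcases y with ⟨w, u⟩
      have h5 : c u ∈ A := hz.2
      have h6 : c w ∈ A := hy.2
      rw [hA, Finset.mem_filter] at h5 h6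
      rcases hnb u w hz.1 h5.2.2 h6.2.2 with h7 | h7
      · have : dg (c u) = 2 := h5.2.1
        rw [hdg] at this
        simp only at this
        omega
      · have : dg (c w) = 2 := h6.2.1
        rw [hdg] at this
        simp only at this
        omega
  have h4 : 4 * A.card ≤ P.card := by
    rw [← h3]
    apply Finset.card_le_card
    apply Finset.union_subset
    · exact Finset.filter_subset _ _
    · intro z hz
      rw [Finset.mem_image] at hz
      obtain ⟨y, hy, rfl⟩ := hz
      exact hsym _ _ (Finset.mem_of_mem_filter _ hy)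
  have h5 : (T ∩ Ex).card ≤ Ex.card := Finset.card_le_card Finset.inter_subset_right
  omega

end Pool.Agent.MPf1f412
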