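import Pool.Agent.Lib.MP_f1f412_co.Spec1

/-!
# MP_f1f412_co (C34), module CompRig: components are rigid
-/

set_option autoImplicit false

namespace Pool.Agent.MPf1f412

namespace compRigAux

variable {V K : Type} {G : SimpleGraph V} {c : V → K} {p : V → R3} {S : Set K}

/-- the space of the motions is finite dimensional -/
theorem fin_mot (hS : S.Finite) : Module.Finite ℝ (Mot G c p S) := by
  haveI : Finite S := hS
  let φ : Mot G c p S →ₗ[ℝ] (S → Tw) :=
    { toFun := fun m X => m.1 X.1
      map_add' := fun a b => rfl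
      map_smul' := fun r a => rfl }
  apply Module.Finite.of_injective φ
  intro a b hab
  apply Subtype.ext
  funext X
  by_cases hX : X ∈ S
  · exact congrFun hab ⟨X, hX⟩
  · rw [a.2.2 X hX, b.2.2 X hX]

/-- at most six dimensions of motions: rigid -/
theorem rig_of_dmo (hS : S.Finite) (h : dmo G c p S ≤ 6) : Rig G c p S := by
  classical
  intro m hm X hX Y hY
  haveI := fin_mot (G := G) (c := c) (p := p) hS
  -- the constant motions
  let κ : Tw →ₗ[ℝ] Mot G c p S :=
    { toFun := fun t => ⟨fun Z => if Z ∈ S then t else 0, fun u w hc => ⟨0, by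
        beta_reduce
        rw [if_pos hc.2.1, if_pos hc.2.2.1, sub_self, zero_smul]⟩, fun Z hZ => if_neg hZ⟩
      map_add' := fun a b => by
        apply Subtype.ext
        funext Z
        by_cases hZ : Z ∈ S
        · simp [hZ]
        · simp [hZ]
      map_smul' := fun r a => by
        apply Subtype.ext
        funext Z
        by_cases hZ : Z ∈ S
        · simp [hZ]
        · simp [hZ] }
  have hinj : Function.Injective κ := by
    intro a b hab
    have h1 := congrFun (congrArg Subtype.val hab) X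
    simp only [κ, LinearMap.coe_mk, AddHom.coe_mk, if_pos hX] at h1
    exact h1
  have h6 : Module.finrank ℝ Tw = 6 := by
    simp [Tw, R3]
  have hrange : LinearMap.range κ = ⊤ := by
    apply Submodule.eq_top_of_finrank_eq
    apply le_antisymm (Submodule.finrank_le _)
    rw [LinearMap.finrank_range_of_inj hinj, h6]
    exact h
  have hm' : (fun Z => if Z ∈ S then m Z else 0) ∈ Mot G c p S := by
    refine ⟨fun u w hc => ?_, fun Z hZ => if_neg hZ⟩
    beta_reduce
    rw [if_pos hc.2.1, if_pos hc.2.2.1]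
    exact hm u w hc
  have h7 : (⟨_, hm'⟩ : Mot G c p S) ∈ LinearMap.range κ := by
    rw [hrange]; exact Submodule.mem_top
  obtain ⟨t, ht⟩ := h7
  have h8 := congrFun (congrArg Subtype.val ht) X
  have h9 := congrFun (congrArg Subtype.val ht) Y
  simp only [κ, LinearMap.coe_mk, AddHom.coe_mk, if_pos hX, if_pos hY] at h8 h9
  rw [← h8, ← h9]

/-- a class of the component has the same component -/
theorem cmp_eq {X Y : K} (hY : Y ∈ cmp G c p S X) : cmp G c p S Y = cmp G c p S X := by
  ext Z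
  constructor
  · rintro ⟨h1, h2⟩
    exact ⟨h1, fun m hm => (h2 m hm).trans (hY.2 m hm)⟩
  · rintro ⟨h1, h2⟩
    exact ⟨h1, fun m hm => (h2 m hm).trans (hY.2 m hm).symm⟩

theorem mem_cmp {X : K} (hX : X ∈ S) : X ∈ cmp G c p S X := ⟨hX, fun _ _ => rfl⟩

end compRigAux

open compRigAux in
theorem compRig (h1 : S_D0f) (h2 : S_Low) (h3 : S_Mrg) : S_CompRig := by
  intro V K _ G c p S hS hp hG X hX
  classical
  set R := cmp G c p S X with hR
  have hRS : R ⊆ S := fun Y hY => hY.1
  have hRf : R.Finite := hS.subset hRS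
  have hXR : X ∈ R := mem_cmp hX
  have hinR : ∀ Y ∈ R, cmp G c p S Y = R := fun Y hY => cmp_eq hY
  have houtR : ∀ Y ∈ S, Y ∉ R → cmp G c p S Y ≠ R := by
    intro Y hY hYR h
    exact hYR (h ▸ mem_cmp hY)
  let g : K → Set K ⊕ Set K := fun Y =>
    if Y ∈ R then Sum.inl (cmp G c p R Y) else Sum.inr (cmp G c p S Y)
  have hg1 : ∀ Y, Y ∈ R → g Y = Sum.inl (cmp G c p R Y) := fun Y hY => if_pos hY
  have hg2 : ∀ Y, Y ∉ R → g Y = Sum.inr (cmp G c p S Y) := fun Y hY => if_neg hY
  have hlow := h2 V K (Set K ⊕ Set K) G c p S g hS hp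
  have hdS := h1 V K G c p S hS hp hG
  have hdR := h1 V K G c p R hRf hp hG
  -- the number of the values
  have hcard : (g '' S).ncard + 1 = (cmp G c p R '' R).ncard + (cmp G c p S '' S).ncard := by
    have h4 : g '' S = Sum.inl '' (cmp G c p R '' R) ∪ Sum.inr '' (cmp G c p S '' (S \ R)) := by
      ext z
      constructor
      · rintro ⟨Y, hY, rfl⟩
        by_cases hYR : Y ∈ R
        · left
          exact ⟨_, ⟨Y, hYR, rfl⟩, (hg1 Y hYR).symm⟩
        · right
          exact ⟨_, ⟨Y, ⟨hY, hYR⟩, rfl⟩, (hg2 Y hYR).symm⟩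
      · rintro (⟨_, ⟨Y, hY, rfl⟩, rfl⟩ | ⟨_, ⟨Y, hY, rfl⟩, rfl⟩)
        · exact ⟨Y, hRS hY, hg1 Y hY⟩
        · exact ⟨Y, hY.1, hg2 Y hY.2⟩
    have h5 : Disjoint (Sum.inl '' (cmp G c p R '' R) : Set (Set K ⊕ Set K))
        (Sum.inr '' (cmp G c p S '' (S \ R))) := by
      rw [Set.disjoint_left]
      rintro z ⟨a, _, rfl⟩ ⟨b, _, hb⟩
      exact Sum.inr_ne_inl hb
    have h6 : (Sum.inl '' (cmp G c p R '' R) : Set (Set K ⊕ Set K)).Finite :=
      (hRf.image _).image _
    have h7 : (Sum.inr '' (cmp G c p S '' (S \ R)) : Set (Set K ⊕ Set K)).Finite :=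
      ((hS.subset Set.sdiff_subset).image _).image _
    have h8 : cmp G c p S '' S = insert R (cmp G c p S '' (S \ R)) := by
      ext z
      constructor
      · rintro ⟨Y, hY, rfl⟩
        by_cases hYR : Y ∈ R
        · left; exact hinR Y hYR
        · right; exact ⟨Y, ⟨hY, hYR⟩, rfl⟩
      · rintro (rfl | ⟨Y, hY, rfl⟩)
        · exact ⟨X, hX, rfl⟩
        · exact ⟨Y, hY.1, rfl⟩
    have h9 : R ∉ cmp G c p S '' (S \ R) := by
      rintro ⟨Y, hY, h⟩
      exact houtR Y hY.1 hY.2 h
    rw [h4, Set.ncard_union_eq h5 h6 h7, Set.ncard_image_of_injective _ Sum.inl_injective,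
      Set.ncard_image_of_injective _ Sum.inr_injective, h8,
      Set.ncard_insert_of_notMem h9 ((hS.subset Set.sdiff_subset).image _)]
    omega
  -- the number of the edges
  have hedge : ef G c S g = ef G c S (cmp G c p S) + ef G c R (cmp G c p R) := by
    unfold ef
    rw [← Set.ncard_union_eq _ (Set.toFinite _) (Set.toFinite _)]
    · apply congrArg Set.ncard
      ext z
      constructor
      · rintro ⟨u, w, rfl, hc, hne⟩
        by_cases hu : c u ∈ R <;> by_cases hw : c w ∈ R
        · right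
          refine ⟨u, w, rfl, ⟨hc.1, hu, hw, hc.2.2.2⟩, fun h => hne ?_⟩
          rw [hg1 _ hu, hg1 _ hw, h]
        · left
          refine ⟨u, w, rfl, hc, fun h => ?_⟩
          rw [hinR _ hu] at h
          exact houtR _ hc.2.2.1 hw h.symm
        · left
          refine ⟨u, w, rfl, hc, fun h => ?_⟩
          rw [hinR _ hw] at h
          exact houtR _ hc.2.1 hu h
        · left
          refine ⟨u, w, rfl, hc, fun h => hne ?_⟩
          rw [hg2 _ hu, hg2 _ hw, h]
      · rintro (⟨u, w, rfl, hc, hne⟩ | ⟨u, w, rfl, hc, hne⟩)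
        · refine ⟨u, w, rfl, hc, fun h => ?_⟩
          by_cases hu : c u ∈ R <;> by_cases hw : c w ∈ R
          · exact hne (by rw [hinR _ hu, hinR _ hw])
          · rw [hg1 _ hu, hg2 _ hw] at h
            exact Sum.inl_ne_inr h
          · rw [hg2 _ hu, hg1 _ hw] at h
            exact Sum.inr_ne_inl h
          · rw [hg2 _ hu, hg2 _ hw] at h
            exact hne (Sum.inr_injective h)
        · refine ⟨u, w, rfl, ⟨hc.1, hRS hc.2.1, hRS hc.2.2.1, hc.2.2.2⟩, fun h => hne ?_⟩
          rw [hg1 _ hc.2.1, hg1 _ hc.2.2.1] at h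
          exact Sum.inl_injective h
    · rw [Set.disjoint_left]
      rintro z ⟨u, w, rfl, hc, hne⟩ ⟨u', w', heq, hc', _⟩
      apply hne
      have h4 := hinR _ hc'.2.1
      have h5 := hinR _ hc'.2.2.1
      rw [Sym2.eq_iff] at heq
      rcases heq with ⟨h6, h7⟩ | ⟨h6, h7⟩
      · rw [h6, h7, h4, h5]
      · rw [h6, h7, h4, h5]
  apply rig_of_dmo hRf
  omega

end Pool.Agent.MPf1f412
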