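import Pool.Agent.Lib.MP_f1f412_co.Spec1

/-!
# MP_f1f412_co (C34): dimension formula for the components
-/

set_option autoImplicit false

namespace Pool.Agent.MPf1f412

namespace d0fAux

theorem dmo_empty {V K : Type} (G : SimpleGraph V) (c : V → K) (p : V → R3) :
    dmo G c p ∅ = 0 := by
  have h : Mot G c p (∅ : Set K) = ⊥ := by
    rw [eq_bot_iff]
    intro m hm
    rw [Submodule.mem_bot]
    funext X
    exact hm.2 X (Set.notMem_empty X)
  unfold dmo
  rw [h]
  exact finrank_bot ℝ _

theorem ef_empty {V K J : Type} (G : SimpleGraph V) (c : V → K) (f : K → J) :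
    ef G c (∅ : Set K) f = 0 := by
  have h : {z : Sym2 V | ∃ u w, z = s(u, w) ∧ Cre G c ∅ u w ∧ f (c u) ≠ f (c w)} = ∅ := by
    rw [Set.eq_empty_iff_forall_notMem]
    rintro z ⟨u, w, _, hc, _⟩
    exact hc.2.1
  unfold ef
  rw [h, Set.ncard_empty]

end d0fAux

open d0fAux in
theorem d0f (h1 : S_D0) (h2 : S_DIM) (h3 : S_Mrg) : S_D0f := by
  intro V K _ G c p S hS hG hN
  rcases Set.eq_empty_or_nonempty S with rfl | hne
  · rw [dmo_empty, ef_empty, Set.image_empty, Set.ncard_empty]
  · obtain ⟨_, _, hFF, hd, he⟩ := h3 V K G c p S hne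
    have hfin : (cmp G c p S '' S).Finite := hS.image _
    have h0 := h1 V (Set K) G (fun u => cmp G c p S (c u)) p (cmp G c p S '' S) hfin hG hN hFF
    obtain ⟨T, hT, hdim⟩ := h2 V (Set K) G (fun u => cmp G c p S (c u)) p (cmp G c p S '' S) hfin hG
    have hbot : T = ⊥ := by
      rw [eq_bot_iff]
      intro lam hlam
      rw [Submodule.mem_bot]
      exact h0 lam ((hT lam).mp hlam)
    rw [hbot, finrank_bot, add_zero, hd, he] at hdim
    exact hdim

end Pool.Agent.MPf1f412
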