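import Pool.Agent.Lib.MP_f1f412_co.Spec1

/-!
# MP_f1f412_co (C34), module D0r: rigidity from counts
-/

set_option autoImplicit false

namespace Pool.Agent.MPf1f412

namespace d0rAux

variable {V K : Type} {G : SimpleGraph V} {c : V → K} {p : V → R3} {S : Set K}

/-- the space of the motions is finite dimensional -/
theorem fin_mot (hS : S.Finite) : Module.Finite ℝ (Mot G c p S) := by
  haveI : Finite S := hS
  let φ : Mot G c p S →ₗ[ℝ] (S → Tw) :=
    { toFun := fun m X => m.1 X.1
      map_add' := fun a b => rfl
      map_smul' := fun r a => rfl }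
  apply Module.Finite.of_injective φ
  intro a b hab
  apply Subtype.ext
  funext X
  by_cases hX : X ∈ S
  · exact congrFun hab ⟨X, hX⟩
  · rw [a.2.2 X hX, b.2.2 X hX]

/-- at most six dimensions of motions: rigid -/
theorem rig_of_dmo (hS : S.Finite) (h : dmo G c p S ≤ 6) : Rig G c p S := by
  classical
  intro m hm X hX Y hY
  haveI := fin_mot (G := G) (c := c) (p := p) hS
  -- the constant motions
  let κ : Tw →ₗ[ℝ] Mot G c p S :=
    { toFun := fun t => ⟨fun Z => if Z ∈ S then t else 0, fun u w hc => ⟨0, by
        beta_reduce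
        rw [if_pos hc.2.1, if_pos hc.2.2.1, sub_self, zero_smul]⟩, fun Z hZ => if_neg hZ⟩
      map_add' := fun a b => by
        apply Subtype.ext
        funext Z
        by_cases hZ : Z ∈ S
        · simp [hZ]
        · simp [hZ]
      map_smul' := fun r a => by
        apply Subtype.ext
        funext Z
        by_cases hZ : Z ∈ S
        · simp [hZ]
        · simp [hZ] }
  have hinj : Function.Injective κ := by
    intro a b hab
    have h1 := congrFun (congrArg Subtype.val hab) X
    simp only [κ, LinearMap.coe_mk, AddHom.coe_mk, if_pos hX] at h1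
    exact h1
  have h6 : Module.finrank ℝ Tw = 6 := by
    simp [Tw, R3]
  have hrange : LinearMap.range κ = ⊤ := by
    apply Submodule.eq_top_of_finrank_eq
    apply le_antisymm (Submodule.finrank_le _)
    rw [LinearMap.finrank_range_of_inj hinj, h6]
    exact h
  have hm' : (fun Z => if Z ∈ S then m Z else 0) ∈ Mot G c p S := by
    refine ⟨fun u w hc => ?_, fun Z hZ => if_neg hZ⟩
    beta_reduce
    rw [if_pos hc.2.1, if_pos hc.2.2.1]
    exact hm u w hc
  have h7 : (⟨_, hm'⟩ : Mot G c p S) ∈ LinearMap.range κ := by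
    rw [hrange]; exact Submodule.mem_top
  obtain ⟨t, ht⟩ := h7
  have h8 := congrFun (congrArg Subtype.val ht) X
  have h9 := congrFun (congrArg Subtype.val ht) Y
  simp only [κ, LinearMap.coe_mk, AddHom.coe_mk, if_pos hX, if_pos hY] at h8 h9
  rw [← h8, ← h9]

end d0rAux

open d0rAux in
theorem d0r (h1 : S_D0f) (h2 : S_Mrg) : S_D0r := by
  intro V K _ G c p S k hS hp hG hsf
  have h3 := h1 V K G c p S hS hp hG
  have h4 := hsf (Set K) (cmp G c p S)
  unfold sf at h4
  have h5 : dmo G c p S ≤ 6 + k := by omega
  refine ⟨h5, fun hk => rig_of_dmo hS ?_⟩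
  omega

end Pool.Agent.MPf1f412
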