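import Pool.Agent.Lib.MP_f1f412_co.Spec1

/-!
# MP_f1f412_co (C34): the dimension formula for hinge structures
-/

set_option autoImplicit false
set_option linter.unusedSectionVars false

namespace Pool.Agent.MPf1f412

open Matrix

namespace dimAux

/-! ### the Klein form -/

theorem dt (x y : R3) : x ⬝ᵥ y = x 0 * y 0 + x 1 * y 1 + x 2 * y 2 := by
  simp [dotProduct, Fin.sum_univ_three]

theorem kl_add_left (a b m : Tw) : kl (a + b) m = kl a m + kl b m := by
  simp only [kl, dt, Prod.fst_add, Prod.snd_add, Pi.add_apply]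
  ring

theorem kl_smul_left (r : ℝ) (a m : Tw) : kl (r • a) m = r * kl a m := by
  simp only [kl, dt, Prod.smul_fst, Prod.smul_snd, Pi.smul_apply, smul_eq_mul]
  ring

theorem kl_comm (a b : Tw) : kl a b = kl b a := by
  simp only [kl, dt]
  ring

theorem kl_add_right (a b m : Tw) : kl m (a + b) = kl m a + kl m b := by
  rw [kl_comm, kl_add_left, kl_comm a, kl_comm b]

theorem kl_smul_right (r : ℝ) (a m : Tw) : kl m (r • a) = r * kl m a := by
  rw [kl_comm, kl_smul_left, kl_comm a]

theorem kl_neg_left (a m : Tw) : kl (-a) m = - kl a m := by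
  have := kl_smul_left (-1) a m
  rw [neg_one_smul, neg_one_mul] at this
  exact this

theorem kl_sub_right (a b m : Tw) : kl m (a - b) = kl m a - kl m b := by
  rw [sub_eq_add_neg, kl_add_right, kl_comm m (-b), kl_neg_left, kl_comm b, ← sub_eq_add_neg]

theorem kl_zero_left (m : Tw) : kl 0 m = 0 := by
  have := kl_smul_left 0 0 m
  rw [zero_smul, zero_mul] at this
  exact this

theorem kl_zero_right (m : Tw) : kl m 0 = 0 := by rw [kl_comm, kl_zero_left]

theorem kl_sum_left {ι : Type} (s : Finset ι) (f : ι → Tw) (m : Tw) :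
    kl (∑ i ∈ s, f i) m = ∑ i ∈ s, kl (f i) m := by
  classical
  induction s using Finset.induction_on with
  | empty => rw [Finset.sum_empty, Finset.sum_empty, kl_zero_left]
  | insert i s hi ih => rw [Finset.sum_insert hi, Finset.sum_insert hi, kl_add_left, ih]

/-- nondegeneracy -/
theorem kl_nd {a : Tw} (h : ∀ m, kl a m = 0) : a = 0 := by
  have h1 := h (a.2, a.1)
  simp only [kl, dt] at h1
  have e : a.1 0 ^ 2 + a.1 1 ^ 2 + a.1 2 ^ 2 + a.2 0 ^ 2 + a.2 1 ^ 2 + a.2 2 ^ 2 = 0 := by
    linear_combination h1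
  have f : ∀ x : ℝ, x ^ 2 ≤ 0 → x = 0 := fun x hx => by
    have : x ^ 2 = 0 := le_antisymm hx (sq_nonneg x)
    exact pow_eq_zero_iff (two_ne_zero) |>.1 this
  have k1 := sq_nonneg (a.1 0)
  have k2 := sq_nonneg (a.1 1)
  have k3 := sq_nonneg (a.1 2)
  have k4 := sq_nonneg (a.2 0)
  have k5 := sq_nonneg (a.2 1)
  have k6 := sq_nonneg (a.2 2)
  have g1 : a.1 0 = 0 := f _ (by linarith)
  have g2 : a.1 1 = 0 := f _ (by linarith)
  have g3 : a.1 2 = 0 := f _ (by linarith)
  have g4 : a.2 0 = 0 := f _ (by linarith)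
  have g5 : a.2 1 = 0 := f _ (by linarith)
  have g6 : a.2 2 = 0 := f _ (by linarith)
  refine Prod.ext ?_ ?_
  · funext i
    fin_cases i
    · exact g1
    · exact g2
    · exact g3
  · funext i
    fin_cases i
    · exact g4
    · exact g5
    · exact g6

theorem Ln_neg (u w : R3) : Ln w u = - Ln u w := by
  refine Prod.ext ?_ ?_
  · show u - w = -(w - u)
    abel
  · show cr w u = - cr u w
    simp only [cr]
    rw [cross_anticomm]

section

variable {V K : Type} [Fintype V] (G : SimpleGraph V) (c : V → K) (p : V → R3) (S : Set K)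

/-- the oriented crossing edges -/
abbrev I : Type := {z : V × V // Cre G c S z.1 z.2 ∧ Fintype.equivFin V z.1 < Fintype.equivFin V z.2}

noncomputable instance : Fintype (I G c S) := by
  classical
  infer_instance

variable {G c S}

theorem cre_symm {u w : V} (h : Cre G c S u w) : Cre G c S w u :=
  ⟨h.1.symm, h.2.2.1, h.2.1, fun h' => h.2.2.2 h'.symm⟩

variable (G c S)

theorem card_I : Fintype.card (I G c S) = ec G c S := by
  classical
  unfold ec ef
  have h : {z : Sym2 V | ∃ u w, z = s(u, w) ∧ Cre G c S u w ∧ id (c u) ≠ id (c w)} =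
      Set.range (fun z : I G c S => s(z.1.1, z.1.2)) := by
    ext z
    constructor
    · rintro ⟨u, w, rfl, h, -⟩
      rcases lt_trichotomy (Fintype.equivFin V u) (Fintype.equivFin V w) with h1 | h1 | h1
      · exact ⟨⟨(u, w), h, h1⟩, rfl⟩
      · exact absurd ((Fintype.equivFin V).injective h1) h.1.ne
      · exact ⟨⟨(w, u), cre_symm h, h1⟩, Sym2.eq_swap⟩
    · rintro ⟨z, rfl⟩
      exact ⟨z.1.1, z.1.2, rfl, z.2.1, z.2.1.2.2.2⟩
  rw [h, Set.ncard_eq_toFinset_card', Set.toFinset_range, Finset.card_image_of_injective,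
    Finset.card_univ]
  intro z z' hz
  rcases Sym2.eq_iff.1 hz with ⟨h1, h2⟩ | ⟨h1, h2⟩
  · exact Subtype.ext (Prod.ext h1 h2)
  · exfalso
    have a := z.2.2
    have b := z'.2.2
    rw [h1, h2] at a
    exact lt_asymm a b

/-- extension by zero of the values on `S` -/
noncomputable def ex (m : S → Tw) : K → Tw := by
  classical
  exact fun X => if h : X ∈ S then m ⟨X, h⟩ else 0

theorem ex_mem {m : S → Tw} {X : K} (h : X ∈ S) : ex S m X = m ⟨X, h⟩ := by
  unfold ex
  rw [dif_pos h]

theorem ex_not {m : S → Tw} {X : K} (h : X ∉ S) : ex S m X = 0 := by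
  unfold ex
  rw [dif_neg h]

theorem ex_add (m n : S → Tw) : ex S (m + n) = ex S m + ex S n := by
  funext X
  by_cases h : X ∈ S
  · rw [Pi.add_apply, ex_mem S h, ex_mem S h, ex_mem S h, Pi.add_apply]
  · rw [Pi.add_apply, ex_not S h, ex_not S h, ex_not S h, add_zero]

theorem ex_smul (r : ℝ) (m : S → Tw) : ex S (r • m) = r • ex S m := by
  funext X
  by_cases h : X ∈ S
  · rw [Pi.smul_apply, ex_mem S h, ex_mem S h, Pi.smul_apply]
  · rw [Pi.smul_apply, ex_not S h, ex_not S h, smul_zero]

/-- the map whose kernel is the space of motions -/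
noncomputable def Phi : ((S → Tw) × (I G c S → ℝ)) →ₗ[ℝ] (I G c S → Tw) where
  toFun x := fun z => ex S x.1 (c z.1.1) - ex S x.1 (c z.1.2) - x.2 z • Ln (p z.1.1) (p z.1.2)
  map_add' := by
    intro x y
    funext z
    show ex S (x.1 + y.1) (c z.1.1) - ex S (x.1 + y.1) (c z.1.2) -
      (x.2 z + y.2 z) • Ln (p z.1.1) (p z.1.2) = _
    rw [ex_add, Pi.add_apply, Pi.add_apply, Pi.add_apply, add_smul]
    abel
  map_smul' := by
    intro r x
    funext z
    show ex S (r • x.1) (c z.1.1) - ex S (r • x.1) (c z.1.2) -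
      (r * x.2 z) • Ln (p z.1.1) (p z.1.2) = _
    rw [ex_smul, Pi.smul_apply, Pi.smul_apply, RingHom.id_apply, Pi.smul_apply, smul_sub, smul_sub,
      smul_smul]

theorem Phi_apply (x : (S → Tw) × (I G c S → ℝ)) (z : I G c S) :
    Phi G c p S x z = ex S x.1 (c z.1.1) - ex S x.1 (c z.1.2) - x.2 z • Ln (p z.1.1) (p z.1.2) :=
  rfl

/-- the form on the target -/
noncomputable def B : LinearMap.BilinForm ℝ (I G c S → Tw) :=
  LinearMap.mk₂ ℝ (fun x y => ∑ z, kl (x z) (y z))
    (fun x x' y => by
      rw [← Finset.sum_add_distrib]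
      exact Finset.sum_congr rfl fun z _ => kl_add_left _ _ _)
    (fun r x y => by
      rw [smul_eq_mul, Finset.mul_sum]
      exact Finset.sum_congr rfl fun z _ => kl_smul_left _ _ _)
    (fun x y y' => by
      rw [← Finset.sum_add_distrib]
      exact Finset.sum_congr rfl fun z _ => kl_add_right _ _ _)
    (fun r x y => by
      rw [smul_eq_mul, Finset.mul_sum]
      exact Finset.sum_congr rfl fun z _ => kl_smul_right _ _ _)

theorem B_apply (x y : I G c S → Tw) : B G c S x y = ∑ z, kl (x z) (y z) := rfl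

theorem B_nd : (B G c S).Nondegenerate := by
  classical
  have key : ∀ x : I G c S → Tw, (∀ y : I G c S → Tw, ∑ z, kl (x z) (y z) = 0) → x = 0 := by
    intro x h
    funext z
    apply kl_nd
    intro m
    have h1 := h (Pi.single z m)
    rw [Fintype.sum_eq_single z, Pi.single_eq_same] at h1
    · exact h1
    · intro z' hz'
      rw [Pi.single_eq_of_ne hz', kl_zero_right]
  have key2 : ∀ y : I G c S → Tw, (∀ x : I G c S → Tw, ∑ z, kl (x z) (y z) = 0) → y = 0 := by
    intro y h
    apply key y
    intro x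
    rw [← h x]
    exact Finset.sum_congr rfl fun z _ => kl_comm _ _
  exact ⟨fun x h => key x h, fun y h => key2 y h⟩

/-- the antisymmetric function given by the values on the oriented edges -/
noncomputable def Fx (x : I G c S → Tw) (u w : V) : Tw := by
  classical
  exact if h : Cre G c S u w ∧ Fintype.equivFin V u < Fintype.equivFin V w then x ⟨(u, w), h⟩ else 0

theorem Fx_pos {x : I G c S → Tw} {u w : V}
    (h : Cre G c S u w ∧ Fintype.equivFin V u < Fintype.equivFin V w) :
    Fx G c S x u w = x ⟨(u, w), h⟩ := by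
  unfold Fx
  rw [dif_pos h]

theorem Fx_neg {x : I G c S → Tw} {u w : V}
    (h : ¬ (Cre G c S u w ∧ Fintype.equivFin V u < Fintype.equivFin V w)) :
    Fx G c S x u w = 0 := by
  unfold Fx
  rw [dif_neg h]

/-- the antisymmetric extension, as a linear map -/
noncomputable def ext : (I G c S → Tw) →ₗ[ℝ] (V → V → Tw) where
  toFun x := fun u w => Fx G c S x u w - Fx G c S x w u
  map_add' := by
    intro x y
    have h : ∀ u w, Fx G c S (x + y) u w = Fx G c S x u w + Fx G c S y u w := by
      intro u w
      by_cases h : Cre G c S u w ∧ Fintype.equivFin V u < Fintype.equivFin V w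
      · rw [Fx_pos _ _ _ h, Fx_pos _ _ _ h, Fx_pos _ _ _ h, Pi.add_apply]
      · rw [Fx_neg _ _ _ h, Fx_neg _ _ _ h, Fx_neg _ _ _ h, add_zero]
    funext u w
    show Fx G c S (x + y) u w - Fx G c S (x + y) w u = _
    rw [h, h]
    show _ = (Fx G c S x u w - Fx G c S x w u) + (Fx G c S y u w - Fx G c S y w u)
    abel
  map_smul' := by
    intro r x
    have h : ∀ u w, Fx G c S (r • x) u w = r • Fx G c S x u w := by
      intro u w
      by_cases h : Cre G c S u w ∧ Fintype.equivFin V u < Fintype.equivFin V w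
      · rw [Fx_pos _ _ _ h, Fx_pos _ _ _ h, Pi.smul_apply]
      · rw [Fx_neg _ _ _ h, Fx_neg _ _ _ h, smul_zero]
    funext u w
    show Fx G c S (r • x) u w - Fx G c S (r • x) w u = _
    rw [h, h]
    show _ = r • (Fx G c S x u w - Fx G c S x w u)
    rw [smul_sub]

theorem ext_apply (x : I G c S → Tw) (u w : V) :
    ext G c S x u w = Fx G c S x u w - Fx G c S x w u := rfl

theorem ext_pos {x : I G c S → Tw} {u w : V}
    (h : Cre G c S u w ∧ Fintype.equivFin V u < Fintype.equivFin V w) :
    ext G c S x u w = x ⟨(u, w), h⟩ := by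
  rw [ext_apply, Fx_pos _ _ _ h, Fx_neg _ _ _ (fun h' => lt_asymm h.2 h'.2), sub_zero]

theorem ext_inj : Function.Injective (ext G c S) := by
  intro x y h
  funext z
  have h1 := congrFun (congrFun h z.1.1) z.1.2
  rw [ext_pos _ _ _ z.2, ext_pos _ _ _ z.2] at h1
  exact h1

/-- sums over the oriented edges -/
theorem sum_I (x : I G c S → Tw) (g : V → V → Tw) :
    ∑ z : I G c S, kl (x z) (g z.1.1 z.1.2) = ∑ u, ∑ w, kl (Fx G c S x u w) (g u w) := by
  classical
  rw [← Fintype.sum_prod_type (f := fun z : V × V => kl (Fx G c S x z.1 z.2) (g z.1 z.2))]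
  rw [← Finset.sum_subset (Finset.subset_univ (Finset.univ.image
    (fun z : I G c S => z.1)))]
  · rw [Finset.sum_image (fun z _ z' _ h => Subtype.ext h)]
    refine Finset.sum_congr rfl fun z _ => ?_
    rw [Fx_pos _ _ _ z.2]
  · intro z _ hz
    rw [Fx_neg, kl_zero_left]
    intro h
    exact hz (Finset.mem_image.2 ⟨⟨z, h⟩, Finset.mem_univ _, rfl⟩)

/-- the pairing with the range of `Phi` -/
theorem pairing (x : I G c S → Tw) (m : S → Tw) (t : I G c S → ℝ) :
    B G c S (Phi G c p S (m, t)) x = ∑ u, kl (∑ w, ext G c S x u w) (ex S m (c u)) -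
      ∑ z : I G c S, t z * kl (x z) (Ln (p z.1.1) (p z.1.2)) := by
  rw [B_apply]
  have h1 : ∀ z : I G c S, kl (Phi G c p S (m, t) z) (x z) =
      kl (x z) (ex S m (c z.1.1) - ex S m (c z.1.2)) -
        t z * kl (x z) (Ln (p z.1.1) (p z.1.2)) := by
    intro z
    rw [Phi_apply, kl_comm, kl_sub_right, kl_smul_right]
  rw [Finset.sum_congr rfl fun z _ => h1 z, Finset.sum_sub_distrib]
  congr 1
  rw [sum_I G c S x (fun u w => ex S m (c u) - ex S m (c w))]
  have h2 : ∀ u, ∑ w, kl (Fx G c S x u w) (ex S m (c u) - ex S m (c w)) =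
      ∑ w, kl (Fx G c S x u w) (ex S m (c u)) - ∑ w, kl (Fx G c S x u w) (ex S m (c w)) := by
    intro u
    rw [← Finset.sum_sub_distrib]
    exact Finset.sum_congr rfl fun w _ => kl_sub_right _ _ _
  rw [Finset.sum_congr rfl fun u _ => h2 u, Finset.sum_sub_distrib]
  rw [Finset.sum_comm (f := fun u w => kl (Fx G c S x u w) (ex S m (c w)))]
  rw [← Finset.sum_sub_distrib]
  refine Finset.sum_congr rfl fun u _ => ?_
  rw [kl_sum_left, ← Finset.sum_sub_distrib]
  refine Finset.sum_congr rfl fun w _ => ?_
  rw [ext_apply, sub_eq_add_neg (Fx G c S x u w), kl_add_left, kl_neg_left, ← sub_eq_add_neg]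

variable {S}

/-- grouping by classes -/
theorem group (hS : S.Finite) (g : V → Tw) (M : K → Tw) (hM : ∀ X, X ∉ S → M X = 0)
    (h : ∀ X ∈ S, ∑ u, ({u | c u = X} : Set V).indicator g u = 0) :
    ∑ u, kl (g u) (M (c u)) = 0 := by
  classical
  have e1 : ∀ u, kl (g u) (M (c u)) =
      ∑ X ∈ hS.toFinset, kl (({u | c u = X} : Set V).indicator g u) (M X) := by
    intro u
    by_cases hu : c u ∈ S
    · rw [Finset.sum_eq_single (c u)]
      · rw [Set.indicator_of_mem (show u ∈ {v | c v = c u} from rfl)]
      · intro X _ hX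
        rw [Set.indicator_of_notMem (show u ∉ {v | c v = X} from fun h' => hX h'.symm),
          kl_zero_left]
      · intro h'
        exact absurd (hS.mem_toFinset.2 hu) h'
    · rw [hM _ hu, kl_zero_right]
      symm
      apply Finset.sum_eq_zero
      intro X hX
      rw [Set.indicator_of_notMem, kl_zero_left]
      intro h'
      exact hu (by rw [show c u = X from h']; exact hS.mem_toFinset.1 hX)
  rw [Finset.sum_congr rfl fun u _ => e1 u, Finset.sum_comm]
  apply Finset.sum_eq_zero
  intro X hX
  rw [← kl_sum_left, h X (hS.mem_toFinset.1 hX), kl_zero_left]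

end

/-! ### general position -/

theorem gp2 {V : Type} {p : V → R3} (hp : Gn p) {a b : V} (hab : a ≠ b) : p b - p a ≠ 0 := by
  classical
  intro h
  obtain ⟨D, hD⟩ := hp (fun u => if u = b then (fun _ => 1) else 0)
  have h0 := congrFun h 0
  have h1 : D ((p b - p a) 0) = 0 := by rw [h0]; exact D.map_zero
  have h2 := congrFun (hD b) 0
  have h3 := congrFun (hD a) 0
  rw [if_pos rfl] at h2
  rw [if_neg hab] at h3
  rw [Pi.sub_apply, map_sub] at h1
  have h4 : D (p b 0) = 1 := h2
  have h5 : D (p a 0) = 0 := h3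
  rw [h4, h5] at h1
  norm_num at h1

theorem Ln_ne {V : Type} {p : V → R3} (hp : Gn p) {a b : V} (hab : a ≠ b) :
    Ln (p a) (p b) ≠ 0 := by
  intro h
  exact gp2 hp hab (congrArg Prod.fst h)

end dimAux

open dimAux

theorem dIM : S_DIM := by
  classical
  intro V K _ G c p S hS hp
  have : Fintype S := hS.fintype
  -- kernel
  have hker : Module.finrank ℝ (LinearMap.ker (Phi G c p S)) = dmo G c p S := by
    have hmot : ∀ x ∈ LinearMap.ker (Phi G c p S), ex S x.1 ∈ Mot G c p S := by
      intro x hx
      refine ⟨?_, fun X hX => ex_not S hX⟩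
      intro u w huw
      rcases lt_trichotomy (Fintype.equivFin V u) (Fintype.equivFin V w) with h1 | h1 | h1
      · have h2 := congrFun (LinearMap.mem_ker.1 hx) ⟨(u, w), huw, h1⟩
        rw [Phi_apply, Pi.zero_apply] at h2
        exact ⟨x.2 ⟨(u, w), huw, h1⟩, sub_eq_zero.1 h2⟩
      · exact absurd ((Fintype.equivFin V).injective h1) huw.1.ne
      · have h2 := congrFun (LinearMap.mem_ker.1 hx) ⟨(w, u), cre_symm huw, h1⟩
        rw [Phi_apply, Pi.zero_apply] at h2
        refine ⟨x.2 ⟨(w, u), cre_symm huw, h1⟩, ?_⟩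
        have h3 := sub_eq_zero.1 h2
        rw [Ln_neg (p w) (p u), smul_neg, ← h3, neg_sub]
    let f : LinearMap.ker (Phi G c p S) →ₗ[ℝ] Mot G c p S :=
      { toFun := fun x => ⟨ex S x.1.1, hmot x.1 x.2⟩
        map_add' := fun x y => Subtype.ext (ex_add S _ _)
        map_smul' := fun r x => Subtype.ext (ex_smul S _ _) }
    have hf : Function.Bijective f := by
      constructor
      · rw [← LinearMap.ker_eq_bot, LinearMap.ker_eq_bot']
        intro x hx
        have h0 : ex S x.1.1 = 0 := congrArg Subtype.val hx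
        have h1 : x.1.1 = 0 := by
          funext X
          have h2 := congrFun h0 X.1
          rw [ex_mem S X.2] at h2
          exact h2
        have h2 : x.1.2 = 0 := by
          funext z
          have h3 := congrFun (LinearMap.mem_ker.1 x.2) z
          rw [Phi_apply, h0, Pi.zero_apply, Pi.zero_apply, Pi.zero_apply, sub_zero, zero_sub,
            neg_eq_zero, smul_eq_zero] at h3
          exact h3.resolve_right (Ln_ne hp z.2.1.1.ne)
        exact Subtype.ext (Prod.ext h1 h2)
      · intro m
        have ht : ∀ z : I G c S, ∃ t : ℝ, m.1 (c z.1.1) - m.1 (c z.1.2) =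
            t • Ln (p z.1.1) (p z.1.2) := fun z => m.2.1 _ _ z.2.1
        choose t ht using ht
        have hex : ex S (fun X : S => m.1 X.1) = m.1 := by
          funext X
          by_cases hX : X ∈ S
          · rw [ex_mem S hX]
          · rw [ex_not S hX, m.2.2 X hX]
        refine ⟨⟨(fun X : S => m.1 X.1, t), ?_⟩, Subtype.ext hex⟩
        rw [LinearMap.mem_ker]
        funext z
        rw [Phi_apply]
        show ex S (fun X : S => m.1 X.1) (c z.1.1) - ex S (fun X : S => m.1 X.1) (c z.1.2) -
          t z • _ = 0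
        rw [hex, ht z, sub_self]
    exact LinearEquiv.finrank_eq (LinearEquiv.ofBijective f hf)
  -- the stresses
  let O := (B G c S).orthogonal (LinearMap.range (Phi G c p S))
  refine ⟨O.map (ext G c S), ?_, ?_⟩
  · intro lam
    constructor
    · rintro ⟨x, hx, rfl⟩
      have hx' : ∀ m t, B G c S (Phi G c p S (m, t)) x = 0 := fun m t => hx _ ⟨(m, t), rfl⟩
      have hor : ∀ z : I G c S, kl (x z) (Ln (p z.1.1) (p z.1.2)) = 0 := by
        intro z
        have h := hx' 0 (Pi.single z 1)
        rw [pairing] at h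
        have h0 : ex S (0 : S → Tw) = 0 := by
          funext X
          by_cases hX : X ∈ S
          · rw [ex_mem S hX]; rfl
          · rw [ex_not S hX]; rfl
        rw [h0] at h
        have h1 : ∑ u, kl (∑ w, ext G c S x u w) ((0 : K → Tw) (c u)) = 0 :=
          Finset.sum_eq_zero fun u _ => kl_zero_right _
        rw [h1, zero_sub, neg_eq_zero, Fintype.sum_eq_single z, Pi.single_eq_same, one_mul] at h
        · exact h
        · intro z' hz'
          rw [Pi.single_eq_of_ne hz', zero_mul]
      refine ⟨⟨?_, ?_, ?_⟩, ?_⟩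
      · intro u w
        rw [ext_apply, ext_apply]
        abel
      · intro u w
        have h1 : ∀ a b, kl (Fx G c S x a b) (Ln (p a) (p b)) = 0 := by
          intro a b
          by_cases h : Cre G c S a b ∧ Fintype.equivFin V a < Fintype.equivFin V b
          · rw [Fx_pos _ _ _ h]
            exact hor ⟨(a, b), h⟩
          · rw [Fx_neg _ _ _ h, kl_zero_left]
        rw [ext_apply, sub_eq_add_neg, kl_add_left, kl_neg_left, h1, zero_add, neg_eq_zero,
          Ln_neg (p w) (p u), kl_comm, kl_neg_left, kl_comm, h1, neg_zero]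
      · intro u w h
        by_contra h1
        apply h
        rw [ext_apply, Fx_neg _ _ _ (fun h' => h1 h'.1),
          Fx_neg _ _ _ (fun h' => h1 (cre_symm h'.1)), sub_zero]
      · intro X hX
        apply kl_nd
        intro τ
        have h := hx' (Pi.single ⟨X, hX⟩ τ) 0
        rw [pairing] at h
        have h1 : ∑ z : I G c S, (0 : I G c S → ℝ) z * kl (x z) (Ln (p z.1.1) (p z.1.2)) = 0 :=
          Finset.sum_eq_zero fun z _ => zero_mul _
        rw [h1, sub_zero] at h
        rw [← h]
        unfold out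
        rw [kl_sum_left]
        refine Finset.sum_congr rfl fun u _ => ?_
        by_cases hu : c u = X
        · rw [Set.indicator_of_mem (show u ∈ {u | c u = X} from hu), hu, ex_mem S hX,
            Pi.single_eq_same]
        · rw [Set.indicator_of_notMem (show u ∉ {u | c u = X} from hu), kl_zero_left]
          by_cases hu' : c u ∈ S
          · rw [ex_mem S hu', Pi.single_eq_of_ne, kl_zero_right]
            intro h'
            exact hu (congrArg Subtype.val h')
          · rw [ex_not S hu', kl_zero_right]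
    · rintro ⟨hpre, hout⟩
      have hlam : ext G c S (fun z => lam z.1.1 z.1.2) = lam := by
        funext u w
        by_cases h : Cre G c S u w
        · rcases lt_trichotomy (Fintype.equivFin V u) (Fintype.equivFin V w) with h1 | h1 | h1
          · rw [ext_pos _ _ _ ⟨h, h1⟩]
          · exact absurd ((Fintype.equivFin V).injective h1) h.1.ne
          · rw [ext_apply, Fx_neg _ _ _ (fun h' => lt_asymm h1 h'.2),
              Fx_pos _ _ _ ⟨cre_symm h, h1⟩, zero_sub, hpre.anti u w, neg_neg]
        · rw [ext_apply, Fx_neg _ _ _ (fun h' => h h'.1),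
            Fx_neg _ _ _ (fun h' => h (cre_symm h'.1)), sub_zero]
          by_contra h'
          exact h (hpre.supp u w (Ne.symm h'))
      refine ⟨fun z => lam z.1.1 z.1.2, ?_, hlam⟩
      rintro _ ⟨⟨m, t⟩, rfl⟩
      rw [pairing, hlam]
      have h1 : ∑ z : I G c S, t z * kl (lam z.1.1 z.1.2) (Ln (p z.1.1) (p z.1.2)) = 0 :=
        Finset.sum_eq_zero fun z _ => by rw [hpre.orth, mul_zero]
      rw [h1, sub_zero]
      exact group c hS (fun u => ∑ w, lam u w) (ex S m) (fun X hX => ex_not S hX) hout
  · have h1 : Module.finrank ℝ (O.map (ext G c S)) = Module.finrank ℝ O :=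
      (LinearEquiv.finrank_eq (Submodule.equivMapOfInjective _ (ext_inj G c S) O)).symm
    have h2 := LinearMap.BilinForm.finrank_orthogonal (B_nd G c S)
      (LinearMap.range (Phi G c p S))
    have h3 := LinearMap.finrank_range_add_finrank_ker (Phi G c p S)
    have h4 : Module.finrank ℝ ((S → Tw) × (I G c S → ℝ)) =
        S.ncard * 6 + Fintype.card (I G c S) := by
      rw [Module.finrank_prod, Module.finrank_pi_fintype, Module.finrank_fintype_fun_eq_card]
      have : Module.finrank ℝ Tw = 6 := by
        show Module.finrank ℝ (R3 × R3) = 6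
        rw [Module.finrank_prod, Module.finrank_fintype_fun_eq_card, Fintype.card_fin]
      rw [Finset.sum_const, this, Finset.card_univ, smul_eq_mul, ← Nat.card_coe_set_eq,
        Nat.card_eq_fintype_card]
    have h5 : Module.finrank ℝ (I G c S → Tw) = Fintype.card (I G c S) * 6 := by
      rw [Module.finrank_pi_fintype]
      have : Module.finrank ℝ Tw = 6 := by
        show Module.finrank ℝ (R3 × R3) = 6
        rw [Module.finrank_prod, Module.finrank_fintype_fun_eq_card, Fintype.card_fin]
      rw [Finset.sum_const, this, Finset.card_univ, smul_eq_mul]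
    have h6 := Submodule.finrank_le (LinearMap.range (Phi G c p S))
    rw [h1]
    rw [hker] at h3
    rw [← card_I]
    change Module.finrank ℝ O = _ at h2
    omega

end Pool.Agent.MPf1f412
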