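import Pool.Agent.Lib.MP_f1f412_co.SpecQ
import Pool.Agent.Lib.MP_f1f412_co.Basic

/-!
# MP_f1f412_co (C34), D0+ in general: pass to the components
-/

set_option autoImplicit false

namespace Pool.Agent.MPf1f412

theorem dZP (h1 : S_QFF) (h2 : S_Mrg) : S_DZP := by
  intro V K _ G c p S hS hp hG y₁ Y₂ hy hY hsp hne
  obtain ⟨m1, m2, m3, _, _⟩ := h2 V K G c p S ⟨Y₂, hY⟩
  have hmot : ∀ m' : Set K → Tw, IsMot G (fun u => cmp G c p S (c u)) p (cmp G c p S '' S) m' →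
      IsMot G c p S (fun X => m' (cmp G c p S X)) := by
    intro m' hm' u w huw
    by_cases he : cmp G c p S (c u) = cmp G c p S (c w)
    · exact ⟨0, by simp [he]⟩
    · exact hm' u w ⟨huw.1, Set.mem_image_of_mem _ huw.2.1, Set.mem_image_of_mem _ huw.2.2.1, he⟩
  have hYne : cmp G c p S (c y₁) ≠ cmp G c p S Y₂ := by
    intro he
    obtain ⟨m, hm, hmne⟩ := hne
    exact hmne ((m1 _ hy _ hY).1 he m hm)
  obtain ⟨w, hw, hcw⟩ := h1 V (Set K) G (fun u => cmp G c p S (c u)) p (cmp G c p S '' S)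
    (hS.image _) hp hG m3 y₁ (cmp G c p S Y₂) (Set.mem_image_of_mem _ hy)
    (Set.mem_image_of_mem _ hY) hYne (fun m' hm' => hsp _ (hmot m' hm'))
  have hcw' : cmp G c p S (c w) = cmp G c p S Y₂ := hcw
  have hwS : c w ∈ S := (m2 w).1 (by rw [hcw']; exact Set.mem_image_of_mem _ hY)
  have heq : ∀ m, IsMot G c p S m → m (c w) = m Y₂ := (m1 _ hwS _ hY).1 hcw'
  refine ⟨w, hw, ⟨hwS, heq⟩, fun m hm => ?_⟩
  obtain ⟨t, ht⟩ := hm.of_adj hw hy hwS
  exact ⟨t, by rw [← ht, heq m hm]⟩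

end Pool.Agent.MPf1f412
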