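import Pool.Agent.Lib.MP_f1f412_co.Spec1

/-!
# MP_f1f412_co (C34): derivations with prescribed values (S_Der)
-/

set_option autoImplicit false

namespace Pool.Agent.MPf1f412

open scoped TensorProduct

theorem der : S_Der := by
  intro F L ι _ _ _ _ x hx a
  classical
  obtain ⟨t, hxt, ht⟩ := exists_isTranscendenceBasis_superset (R := F) (A := L)
    (s := Set.range x) hx.coe_range
  let P : Type := MvPolynomial t F
  letI algPL : Algebra P L := (MvPolynomial.aeval (Subtype.val : t → L)).toRingHom.toAlgebra
  have hmap : ∀ p : P, algebraMap P L p = MvPolynomial.aeval (Subtype.val : t → L) p :=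
    fun p => rfl
  haveI : IsScalarTower F P L := IsScalarTower.of_algebraMap_eq (fun r => by
    rw [hmap]
    exact (AlgHom.commutes _ r).symm)
  have hinj : Function.Injective (algebraMap P L) :=
    algebraicIndependent_iff_injective_aeval.1 ht.1
  haveI : FaithfulSMul P L := (faithfulSMul_iff_algebraMap_injective P L).mpr hinj
  haveI halg : Algebra.IsAlgebraic P L := by
    haveI := ht.isAlgebraic
    refine Algebra.IsAlgebraic.of_ringHom_of_comp_eq (R := P) (A := L)
      (S := Algebra.adjoin F (Set.range (Subtype.val : t → L))) (B := L)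
      (ht.1.aevalEquiv : P ≃+* _) (RingHom.id L) ?_ ?_ ?_
    · exact (ht.1.aevalEquiv).surjective
    · exact fun _ _ h => h
    · ext p
      all_goals rfl
  letI := FractionRing.liftAlgebra P L
  haveI := FractionRing.isScalarTower_liftAlgebra P L
  haveI : Algebra.IsAlgebraic (FractionRing P) L :=
    (IsFractionRing.comap_isAlgebraic_iff (A := P) (K := FractionRing P) (C := L)).mp halg
  haveI : CharZero P := inferInstance
  haveI : CharZero (FractionRing P) := inferInstance
  haveI : Algebra.IsSeparable (FractionRing P) L := inferInstance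
  haveI : Algebra.FormallyEtale (FractionRing P) L := Algebra.FormallyEtale.of_isSeparable _ _
  haveI : Algebra.FormallyEtale P (FractionRing P) :=
    Algebra.FormallyEtale.of_isLocalization (nonZeroDivisors P)
  haveI : Algebra.FormallyEtale P L := Algebra.FormallyEtale.comp P (FractionRing P) L
  let a' : t → L := fun y => if h : ∃ i, x i = y.1 then a h.choose else 0
  have ha' : ∀ i, a' ⟨x i, hxt ⟨i, rfl⟩⟩ = a i := by
    intro i
    have h : ∃ j, x j = (⟨x i, hxt ⟨i, rfl⟩⟩ : t).1 := ⟨i, rfl⟩
    show (if h : ∃ j, x j = (⟨x i, hxt ⟨i, rfl⟩⟩ : t).1 then a h.choose else 0) = a i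
    rw [dif_pos h]
    exact congrArg a (hx.injective h.choose_spec)
  let D₀ : Derivation F P L := MvPolynomial.mkDerivation F a'
  let g : L ⊗[P] Ω[P⁄F] →ₗ[L] L := D₀.liftKaehlerDifferential.liftBaseChange L
  let h : Ω[L⁄F] →ₗ[L] L :=
    g ∘ₗ (KaehlerDifferential.tensorKaehlerEquivOfFormallyEtale F P L).symm.toLinearMap
  have key : ∀ y : t, h (KaehlerDifferential.D F L y.1) = a' y := by
    intro y
    have h1 : y.1 = algebraMap P L (MvPolynomial.X y) := by
      rw [hmap, MvPolynomial.aeval_X]
    show g ((KaehlerDifferential.tensorKaehlerEquivOfFormallyEtale F P L).symm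
      (KaehlerDifferential.D F L y.1)) = _
    rw [h1, KaehlerDifferential.tensorKaehlerEquivOfFormallyEtale_symm_D_algebraMap]
    show D₀.liftKaehlerDifferential.liftBaseChange L (1 ⊗ₜ _) = _
    rw [LinearMap.liftBaseChange_tmul, one_smul, Derivation.liftKaehlerDifferential_comp_D]
    exact MvPolynomial.mkDerivation_X F a' _
  refine ⟨h.compDer (KaehlerDifferential.D F L), fun i => ?_⟩
  rw [← ha' i, ← key ⟨x i, hxt ⟨i, rfl⟩⟩]
  rfl

end Pool.Agent.MPf1f412
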