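import Pool.Agent.Lib.MP_f1f412_co.Spec1

/-!
# MP_f1f412_co (C34), module Eqm: equilibrium
-/

set_option autoImplicit false

namespace Pool.Agent.MPf1f412

open Matrix

namespace eqmAux

theorem kl_add_left (a b c : Tw) : kl (a + b) c = kl a c + kl b c := by
  unfold kl
  rw [Prod.fst_add, Prod.snd_add, add_dotProduct, dotProduct_add]
  ring

theorem kl_sub_right (a b c : Tw) : kl a (b - c) = kl a b - kl a c := by
  unfold kl
  rw [Prod.fst_sub, Prod.snd_sub, sub_dotProduct, dotProduct_sub]
  ring

theorem kl_neg_left (a b : Tw) : kl (-a) b = - kl a b := by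
  unfold kl
  rw [Prod.fst_neg, Prod.snd_neg, neg_dotProduct, dotProduct_neg]
  ring

theorem kl_zero_left (b : Tw) : kl 0 b = 0 := by
  unfold kl
  rw [Prod.fst_zero, Prod.snd_zero, zero_dotProduct, dotProduct_zero, add_zero]

theorem kl_sum_left {ι : Type} (s : Finset ι) (f : ι → Tw) (b : Tw) :
    kl (∑ i ∈ s, f i) b = ∑ i ∈ s, kl (f i) b := by
  classical
  induction s using Finset.induction_on with
  | empty => rw [Finset.sum_empty, Finset.sum_empty, kl_zero_left]
  | insert a s ha ih => rw [Finset.sum_insert ha, Finset.sum_insert ha, kl_add_left, ih]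

end eqmAux

open eqmAux in
theorem eqm : S_Eq := by
  intro V K _ G c p S lam m' hP
  classical
  have h1 : ∑ u, ∑ w, kl (lam u w) (m' (c u) - m' (c w)) =
      2 * ∑ u, kl (∑ w, lam u w) (m' (c u)) := by
    have h2 : ∑ u, ∑ w, kl (lam u w) (m' (c w)) = - ∑ u, kl (∑ w, lam u w) (m' (c u)) := by
      rw [Finset.sum_comm, ← Finset.sum_neg_distrib]
      refine Finset.sum_congr rfl fun u _ => ?_
      rw [kl_sum_left, ← Finset.sum_neg_distrib]
      refine Finset.sum_congr rfl fun w _ => ?_
      rw [hP.anti u w, kl_neg_left]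
    have h3 : ∑ u, ∑ w, kl (lam u w) (m' (c u)) = ∑ u, kl (∑ w, lam u w) (m' (c u)) :=
      Finset.sum_congr rfl fun u _ => (kl_sum_left _ _ _).symm
    simp only [kl_sub_right, Finset.sum_sub_distrib]
    rw [h2, h3]
    ring
  refine ⟨h1, fun hout => ?_⟩
  have hout' : ∀ X, out c lam X = 0 := by
    intro X
    by_cases hX : X ∈ S
    · exact hout X hX
    · unfold out
      refine Finset.sum_eq_zero fun u _ => ?_
      rw [Set.indicator_apply]
      split_ifs with hu
      · refine Finset.sum_eq_zero fun w _ => ?_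
        by_contra hne
        have h2 := (hP.supp u w hne).2.1
        rw [Set.mem_setOf_eq] at hu
        rw [hu] at h2
        exact hX h2
      · rfl
  rw [h1, ← Finset.sum_fiberwise_of_maps_to (s := Finset.univ) (t := Finset.univ.image c) (g := c)
    (fun u _ => Finset.mem_image_of_mem c (Finset.mem_univ u)), Finset.sum_eq_zero, mul_zero]
  intro X _
  have h4 : ∑ u ∈ Finset.univ.filter (fun u => c u = X), kl (∑ w, lam u w) (m' (c u)) =
      ∑ u ∈ Finset.univ.filter (fun u => c u = X), kl (∑ w, lam u w) (m' X) := by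
    refine Finset.sum_congr rfl fun u hu => ?_
    rw [(Finset.mem_filter.mp hu).2]
  rw [h4, ← kl_sum_left, Finset.sum_filter]
  have h5 : ∑ u, (if c u = X then ∑ w, lam u w else 0) = out c lam X := by
    unfold out
    refine Finset.sum_congr rfl fun u _ => ?_
    rw [Set.indicator_apply]
    rfl
  rw [h5, hout' X, kl_zero_left]

end Pool.Agent.MPf1f412
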