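import Pool.Agent.Lib.MP_f1f412_co.Defs2

/-!
# MP_f1f412_co (C34), Spec 1: derivations, (star), Lemma N, D0, components (TEXT1.md, sections 1 and 2)

Every `S_...` is a statement to be proved in its own file; the docstring contains the complete
proof.  `L(u, w)` is `Ln (p u) (p w)`; a crossing edge of `G[S]` is `Cre G c S u w`.  The toolkit
(rules for `cr`, `ev`, `kl`, `Ln`, `D3`, `DT`, general position, (T1)-(T5)) is in `Basic.lean`.
-/

set_option autoImplicit false

namespace Pool.Agent.MPf1f412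

open Matrix

/-- **Der.** Derivations with prescribed values.

Proof. `x` is injective and its range is contained in a transcendence basis `s ⊆ L` of `L` over `F`
(`exists_isTranscendenceBasis_subset` and its variants).  Let `P = MvPolynomial s F`, embedded in `L` by `aeval`; `L` is algebraic over the
image of `FractionRing P`, in characteristic zero, so separable: `Algebra.FormallyEtale.of_isSeparable`; `FractionRing P` is
formally étale over `P` (localization); by composition `L` is formally étale over `P` (`Algebra P L` by `aeval`, scalar tower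
`F, P, L`), and `KaehlerDifferential.tensorKaehlerEquivOfFormallyEtale` with `KaehlerDifferential.mvPolynomialBasis` gives a basis of `Ω[L⁄F]`
consisting of the differentials of the elements of `s`; a derivation is a linear map on `Ω[L⁄F]`.  (Or: extend `mkDerivation` to the fraction field and
then through the algebraic extension, `Mathlib/FieldTheory/Differential/Basic.lean`; or Zorn's lemma for pairs (intermediate field, derivation into `L`).) -/
def S_Der : Prop := ∀ (F L ι : Type) [Field F] [Field L] [Algebra F L] [CharZero F] (x : ι → L),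
  AlgebraicIndependent F x → ∀ a : ι → L, ∃ D : Derivation F L L, ∀ i, D (x i) = a i

/-- **Gn** (from `Der`).  Proof.  `Der` for the index type `V × Fin 3`. -/
def S_Gn : Prop := ∀ (V : Type) (p : V → R3),
  AlgebraicIndependent ℚ (fun i : V × Fin 3 => p i.1 i.2) → Gn p

/-- **Stab.** Proof.  Let `u w` be a crossing edge; `u, w ∉ A` (`Cre` is symmetric), so `D p_u = D p_w = 0` and
`DT D L(u,w) = 0`.  Apply `D` to `m (c u) - m (c w) = t L(u,w)`: the result is `(D t) L(u,w)`. -/
def S_Stab : Prop := ∀ (V K : Type) (G : SimpleGraph V) (c : V → K) (p : V → R3) (S : Set K)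
  (D : Derivation ℚ ℝ ℝ) (A : Set V), Spt p D A → (∀ u ∈ A, ∀ w, ¬ Cre G c S u w) →
  ∀ m, IsMot G c p S m → IsMot G c p S (fun X => DT D (m X))

/-- **Cover.** Proof.  `t = (ω, τ)`, `τ = - ω × v`, `ω ≠ 0` (write `v` for `p v`).  For `δ ∈ R3` let `D` be supported on `{v}` with `D v = δ`
(`Gn`).  `0 = D ev(t, v) = ev(D t, v) + ω × δ`.  So the linear map `T → R3`, `t' ↦ ev t' v`, has image containing all `ω × δ`,
that is `ω^⊥` (dimension 2), and `t ≠ 0` in its kernel: `finrank T ≥ 3`.  If `finrank T = 3` then the image is exactly `ω^⊥` and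
`kl t t' = ω · ev t' v = 0` for all `t' ∈ T`.  So `t` is in `Rad = {r ∈ T | ∀ t' ∈ T, kl r t' = 0}`, which is again stable under all `D` supported on
`{v}` (`0 = D kl(r,t') = kl(Dr,t') + kl(r,Dt')`, and `Dt' ∈ T`).  The first part for `Rad`: `finrank Rad ≥ 3`, so `Rad = T`. -/
def S_Cover : Prop := ∀ (V : Type) (p : V → R3) (v : V) (T : Submodule ℝ Tw), Gn p →
  (∀ D, Spt p D {v} → DSt D T) → ∀ t ∈ T, t ≠ 0 → ev t (p v) = 0 →
  3 ≤ Module.finrank ℝ T ∧ (Module.finrank ℝ T = 3 → ∀ r ∈ T, ∀ s ∈ T, kl r s = 0)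

/-- **Vw.** Virtual work of the derivative of a motion.

Proof. For a crossing edge `u w`: `m (c u) - m (c w) = C(u,w) L(u,w)`, so
`DT D (m (c u)) - DT D (m (c w)) = (D C(u,w)) L(u,w) + C(u,w) DT D L(u,w)`, and `kl (lam u w) L(u,w) = 0`.  `DT D L(u,w) = 0` if `u, w ≠ v`.  For
`u = v`: `DT D L(v,w) = (-δ, δ × w)`, `δ = D3 D (p v)`, and `kl (lam v w) (-δ, δ × w) = - δ · ev (lam v w) w` (T5).  The pairs `(v,w)` and `(w,v)` give the
same value (antisymmetry of `lam` and of the difference, `C` symmetric).  Where `u w` is not crossing, `lam u w = 0`. -/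
def S_Vw : Prop := ∀ (V K : Type) [Fintype V] (G : SimpleGraph V) (c : V → K) (p : V → R3)
  (S : Set K) (m : K → Tw) (C : V → V → ℝ) (lam : V → V → Tw) (D : Derivation ℚ ℝ ℝ) (v : V),
  IsCo G c p S m C → Pre G c p S lam → Spt p D {v} →
  ∑ u, ∑ w, kl (lam u w) (DT D (m (c u)) - DT D (m (c w))) =
    -2 * (D3 D (p v) ⬝ᵥ ∑ w, C v w • ev (lam v w) (p w))

/-- **Eq.** Equilibrium.

Proof. The sum is `∑_u ∑_w kl (lam u w) (m' (c u)) - ∑_u ∑_w kl (lam u w) (m' (c w))`, by antisymmetry twice the first sum, which is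
`∑_X kl (out c lam X) (m' X)` (group the `u` by their class, `Finset.sum_fiberwise` or induction; only classes in `c '' univ` matter;
for `X ∉ S` all `lam u w` with `c u = X` vanish). -/
def S_Eq : Prop := ∀ (V K : Type) [Fintype V] (G : SimpleGraph V) (c : V → K) (p : V → R3)
  (S : Set K) (lam : V → V → Tw) (m' : K → Tw), Pre G c p S lam →
  (∑ u, ∑ w, kl (lam u w) (m' (c u) - m' (c w)) = 2 * ∑ u, kl (∑ w, lam u w) (m' (c u))) ∧
  ((∀ X ∈ S, out c lam X = 0) → ∑ u, ∑ w, kl (lam u w) (m' (c u) - m' (c w)) = 0)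

/-- **star** (from `Vw`, `Eq`).  Proof.  `Eq` for `m' X = DT D (m X)`, `D` supported on `{v}` with `D3 D (p v) = δ` arbitrary (`Gn`): `Vw` gives
`δ · ∑_w C(v,w) ev(lam v w, w) = 0` for all `δ`. -/
def S_Star : Prop := ∀ (V K : Type) [Fintype V] (G : SimpleGraph V) (c : V → K) (p : V → R3)
  (S : Set K) (m : K → Tw) (C : V → V → ℝ) (lam : V → V → Tw), Gn p →
  IsCo G c p S m C → IsStr G c p S lam → ∀ v, ∑ w, C v w • ev (lam v w) (p w) = 0

/-- **GenM.** A motion with distinct values.

Proof. In the space `Mot G c p S` the subspaces `{m | m X = m Y}` for the finitely many pairs `X ≠ Y` in `S` are proper (a motion which separates `X` and `Y`,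
set to `0` outside of `S`), so their union is not everything (`Subspace.biUnion_ne_univ_of_top_notMem`, `Mathlib/GroupTheory/CosetCover.lean`). -/
def S_GenM : Prop := ∀ (V K : Type) (G : SimpleGraph V) (c : V → K) (p : V → R3) (S : Set K),
  S.Finite → FF G c p S → ∃ m, IsMot G c p S m ∧ Set.InjOn m S

/-- **NoDbl.** No two hinges between the same classes.

Proof. `0 ≠ m (c u) - m (c w) = t L(u,w) = t' L(u',w')`, `t, t' ≠ 0`.  `ev (L(u',w')) u = 0`, that is `(w' - u') × (u - u') = 0`; if `u ≠ u'` then, as `u ≠ w'`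
(`c u = c u' ≠ c w = c w'`), this contradicts general position.  In the same way `w = w'` (`w ≠ u'`). -/
def S_NoDbl : Prop := ∀ (V K : Type) (G : SimpleGraph V) (c : V → K) (p : V → R3) (S : Set K)
  (m : K → Tw), Gn p → IsMot G c p S m → Set.InjOn m S → ∀ u w u' w', Cre G c S u w →
  Cre G c S u' w' → c u = c u' → c w = c w' → u = u' ∧ w = w'

/-- **Lemma N.** No two adjacent classes of support degree two.

Proof. `lam₀ := lam x₁ x₂ ≠ 0`.  Equilibrium: `lam x₁' y₁ = - lam₀`, `lam x₂ x₁ = - lam₀`, `lam x₂' y₂ = lam₀`.  `y₁` is not in `X₁` or `X₂`,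
`y₂` not in `X₂` or `X₁` (no double hinges).  We write `v` for `p v`.
(aa) `x₁ ≠ x₁'`, `x₂ ≠ x₂'`.  (star) at `x₁`, `x₁'`, `x₂` (one support edge each, `C ≠ 0`): `ev lam₀` vanishes at `x₂`, `y₁`, `x₁`, three different points:
`lam₀ = 0` (T2).
(ab) `x₁ ≠ x₁'`, `x₂ = x₂' = v`.  (star) at `x₁`: `ev lam₀ v = 0`; at `x₁'`: `ev lam₀ y₁ = 0`; at `v`: `- C₁ ev lam₀ x₁ + C₂ ev lam₀ y₂ = 0`.  `v ≠ y₁`, so
`lam₀ = t L(v,y₁)`, `t ≠ 0` (T1): `(y₁ - v) × (- C₁ (x₁ - v) + C₂ (y₂ - v)) = 0`.  If `y₁ ≠ y₂`: `x₁ - v`, `y₂ - v`, `y₁ - v` are linearly independent: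
contradiction.  If `y₁ = y₂`: `(y₁ - v) × (x₁ - v) = 0`: contradiction.  The case `x₁ = x₁'`, `x₂ ≠ x₂'` is symmetric (exchange the indices, `lam₀` becomes `- lam₀`).
(bb) `x₁ = x₁' = v`, `x₂ = x₂' = w`.  `y₁ ≠ y₂` (no triangle); `v, w, y₁, y₂` are different.  Origin at `v`: `a := ev lam₀ v`, `ev lam₀ x = a + ω × (x - v)`;
put `w' = w - v`, `z₁ = y₁ - v`, `z₂ = y₂ - v`.  `kl lam₀ L = 0` on the three edges: `a·w' = 0`, `a·z₁ = 0`, `(z₂ - w')·(a + ω × w') = 0` (T3).
(star) at `v`: `C₀ (a + ω × w') = C₁ (a + ω × z₁)`; at `w`: `C₀ a = C₂ (a + ω × z₂)`; all `C ≠ 0`.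
If `C₀ ≠ C₂`: the second with `z₂`: `a·z₂ = 0`; `w', z₁, z₂` are linearly independent, so `a = 0`; then `ω × z₂ = 0`, `ω = b z₂`, and the first says
`b z₂ × (C₀ w' - C₁ z₁) = 0`, so `b = 0`, `lam₀ = 0`.  If `C₀ = C₂`: `ω × z₂ = 0`, `ω = b z₂`, `(z₂ - w')·(a + b z₂ × w') = a·z₂ = 0` (`a·w' = 0`): `a = 0`, and `b = 0` as before. -/
def S_LemN : Prop := ∀ (V K : Type) [Fintype V] (G : SimpleGraph V) (c : V → K) (p : V → R3)
  (C : V → V → ℝ) (lam : V → V → Tw) (X₁ X₂ : K) (x₁ x₂ x₁' x₂' y₁ y₂ : V), Gn p → NoTri G →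
  (∀ u w, lam w u = - lam u w) → (∀ u w, kl (lam u w) (Ln (p u) (p w)) = 0) →
  (∀ u w, lam u w ≠ 0 → G.Adj u w ∧ c u ≠ c w) →
  (∀ u w, C u w = C w u) → (∀ u w, lam u w ≠ 0 → C u w ≠ 0) →
  (∀ u w u' w', lam u w ≠ 0 → lam u' w' ≠ 0 → c u = c u' → c w = c w' → u = u' ∧ w = w') →
  (∀ v, c v = X₁ ∨ c v = X₂ → ∑ w, C v w • ev (lam v w) (p w) = 0) →
  out c lam X₁ = 0 → out c lam X₂ = 0 → X₁ ≠ X₂ →
  c x₁ = X₁ → c x₂ = X₂ → c x₁' = X₁ → c x₂' = X₂ → (x₁', y₁) ≠ (x₁, x₂) →
  (x₂', y₂) ≠ (x₂, x₁) → lam x₁ x₂ ≠ 0 → lam x₁' y₁ ≠ 0 → lam x₂' y₂ ≠ 0 →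
  (∀ u w, c u = X₁ → lam u w ≠ 0 → (u, w) = (x₁, x₂) ∨ (u, w) = (x₁', y₁)) →
  (∀ u w, c u = X₂ → lam u w ≠ 0 → (u, w) = (x₂, x₁) ∨ (u, w) = (x₂', y₂)) → False

/-- **Cnt.** Counting.  `P` is a symmetric set of ordered pairs, the degree of a class `X` is the number of the pairs in `P` with
first element in `X`.

Proof. `n` = number of classes touched, `deg X ≥ 2` for all of them, `A` = the touched classes of degree `2` which are not in `Ex`, `a = |A|`,
`x ≤ |Ex|` the number of touched classes in `Ex`.  `|P| = ∑ deg ≥ 2 a + 3 (n - a - x) + 2 x = 3 n - a - x`.  There are `2 a` pairs with first element in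
a class of `A`; their second elements are in classes not in `A` (hypothesis), so together with the reversed pairs they are `4 a` different pairs: `|P| ≥ 4 a`.
`5 |P| = 4 |P| + |P| ≥ 12 n - 4 a - 4 x + 4 a`. -/
def S_Cnt : Prop := ∀ (V K : Type) [DecidableEq V] [DecidableEq K] (c : V → K)
  (P : Finset (V × V)) (Ex : Finset K), (∀ u w, (u, w) ∈ P → (w, u) ∈ P) →
  (∀ z ∈ P, 2 ≤ (P.filter fun z' => c z'.1 = c z.1).card) →
  (∀ u w, (u, w) ∈ P → c u ∉ Ex → c w ∉ Ex → 3 ≤ (P.filter fun z' => c z'.1 = c u).card ∨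
    3 ≤ (P.filter fun z' => c z'.1 = c w).card) →
  12 * (P.image fun z => c z.1).card ≤ 5 * P.card + 4 * Ex.card

/-- **DIM.** The dimension formula.

Proof. Let `I` be the (finite) set of the crossing edges `z` of `G[S]` (as elements of `Sym2 V`), `z = {u_z, w_z}` with a chosen orientation.  Let
`Φ : (S → Tw) × (I → ℝ) → (I → Tw)`, `Φ (m, t) z = m (c u_z) - m (c w_z) - t_z L(u_z, w_z)`.  The kernel is isomorphic to the space of motions (`L ≠ 0`, so `t` is determined
by `m`).  Rank-nullity: `dmo + rank = 6 |S| + |I|`.  The orthogonal complement of the range of `Φ` for the nondegenerate form `∑_z kl (lam_z) (x_z)` on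
`I → Tw` has dimension `6 |I| - rank` (`LinearMap.BilinForm.finrank_orthogonal` or duality) and is isomorphic to the space of stresses: orthogonality to the `t`-part is
`kl lam_z L_z = 0`, to the `m`-part is `out c lam X = 0` for `X ∈ S` (`lam u_z w_z = lam_z`, `lam w_z u_z = - lam_z`, `0` elsewhere).  Subtract. -/
def S_DIM : Prop := ∀ (V K : Type) [Fintype V] (G : SimpleGraph V) (c : V → K) (p : V → R3)
  (S : Set K), S.Finite → Gn p → ∃ T : Submodule ℝ (V → V → Tw),
    (∀ lam, lam ∈ T ↔ IsStr G c p S lam) ∧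
    dmo G c p S + 5 * ec G c S = 6 * S.ncard + Module.finrank ℝ T

/-- **D0** (from `Star`, `GenM`, `NoDbl`, `LemN`, `Cnt`, `DIM`).

Proof. Induction on the number of edges of `G` (over all `G`, `S`; `V`, `K`, `c`, `p` fixed).  Let `lam ≠ 0` be a stress.  Let `G''` be the graph of the edges with
`lam u w ≠ 0` and `S' = {c u | ∃ w, lam u w ≠ 0} ⊆ S`.  `(G'', c)` is fully flexible on `S'` (motions of `(G,c)` on `S` are motions of `(G'',c)` on
`S'`), triangle-free, and `lam` is a stress of it.  `m` from `GenM` (for `S'`), `C` its coefficients (choose `C` symmetric, `0` off the crossing edges); all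
`C u w ≠ 0` on the support.  By equilibrium every class of `S'` has degree at least `2` (degree one: `lam = 0` on this edge).  (star) and Lemma N: no two
adjacent classes have degree `2`.  `Cnt` with `Ex = ∅`, `|P| = 2 e`: `12 n ≤ 10 e`, `n = |S'|`, `e = ec G'' c S'`.  `e ≥ 1`.  Remove one edge `z` from `G''`: still
fully flexible on `S'`, with fewer edges than `G`, so by induction without stress; `DIM`: `dmo + 5 (e - 1) = 6 n`, so `dmo ≤ 5`.  But the constant
motions (on `S' ≠ ∅`) form a space of dimension `6`.  Contradiction. -/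
def S_D0 : Prop := ∀ (V K : Type) [Fintype V] (G : SimpleGraph V) (c : V → K) (p : V → R3)
  (S : Set K), S.Finite → Gn p → NoTri G → FF G c p S → ∀ lam, IsStr G c p S lam → lam = 0

/-! ### components -/

/-- **Low.** Proof.  Let `f' : K → Option J` be `some ∘ f` on `S` and `none` outside.  Let `N` be the space of the functions `n : f '' S → Tw` with
`n (f (c u)) - n (f (c w)) ∈ ℝ L(u,w)` for the crossing edges with `f (c u) ≠ f (c w)`: `dim N ≥ 6 |f(S)| - 5 ef` (each edge is at most five linear conditions: the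
kernel of a linear map into `Tw / ℝ L` for every edge).  `n ↦ (X ↦ n (f X))` for `X ∈ S`, `0` outside, is an injective linear map `N → Mot G c p S`. -/
def S_Low : Prop := ∀ (V K J : Type) [Fintype V] (G : SimpleGraph V) (c : V → K) (p : V → R3)
  (S : Set K) (f : K → J), S.Finite → Gn p →
  6 * (f '' S).ncard ≤ dmo G c p S + 5 * ef G c S f

/-- **Mrg.** Merging the components.

Proof. (1) For `X, Y ∈ S`: `cmp X = cmp Y` iff `m X = m Y` for all motions `m` on `S`.  For `X ∉ S` the set `cmp X` is empty if `S ≠ ∅` (change `m` at `X`), and it is not in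
`cmp '' S`.  So `c' u ∈ S'` iff `c u ∈ S` (`S' = cmp '' S`, `c' = cmp ∘ c`), and `Cre G c' S' u w` iff `Cre G c S u w` and `cmp (c u) ≠ cmp (c w)`.
(2) Motions: if `m` is a motion on `S` then `m' (cmp X) = m X` is well defined and a motion of `(G, c')` on `S'`; if `m'` is a motion of `(G, c')` on `S'` then
`m' ∘ cmp` is a motion of `(G, c)` on `S` (edges inside a component: difference zero).  This is a linear isomorphism `Mot G c p S ≃ Mot G c' p S'` (values `0` outside), so the
`dmo` are equal.  (3) `FF`: different components are separated by a motion.  (4) `ec G c' S' = ef G c S cmp`: the same set of edges. -/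
def S_Mrg : Prop := ∀ (V K : Type) (G : SimpleGraph V) (c : V → K) (p : V → R3)
  (S : Set K), S.Nonempty →
  (∀ X ∈ S, ∀ Y ∈ S, (cmp G c p S X = cmp G c p S Y ↔ ∀ m, IsMot G c p S m → m X = m Y)) ∧
  (∀ u, cmp G c p S (c u) ∈ cmp G c p S '' S ↔ c u ∈ S) ∧
  FF G (fun u => cmp G c p S (c u)) p (cmp G c p S '' S) ∧
  dmo G (fun u => cmp G c p S (c u)) p (cmp G c p S '' S) = dmo G c p S ∧
  ec G (fun u => cmp G c p S (c u)) (cmp G c p S '' S) = ef G c S (cmp G c p S)

/-- **D0f** (from `D0`, `DIM`, `Mrg`).  Proof.  The merged structure is fully flexible, so it has no stress (`D0`); `DIM` for it.  (`S = ∅`: both sides are `0`.) -/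
def S_D0f : Prop := ∀ (V K : Type) [Fintype V] (G : SimpleGraph V) (c : V → K) (p : V → R3)
  (S : Set K), S.Finite → Gn p → NoTri G →
  dmo G c p S + 5 * ef G c S (cmp G c p S) = 6 * (cmp G c p S '' S).ncard

/-- **D0r, D0d** (from `D0f`, `Mrg`).  Proof.  `dmo = 6 - sf(cmp)` by `D0f`, so `dmo ≤ 6 + k`.  If `k = 0` and `S ≠ ∅`: let `r` be the number of components;
`dmo ≤ 6`, and the constant motions (dimension `6`) are all motions (in `Mot`), so every motion is constant on `S`.  (A predicate motion `m` is brought to `Mot` by setting it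
`0` outside of `S`.) -/
def S_D0r : Prop := ∀ (V K : Type) [Fintype V] (G : SimpleGraph V) (c : V → K) (p : V → R3)
  (S : Set K) (k : ℕ), S.Finite → Gn p → NoTri G →
  (∀ (J : Type) (f : K → J), - (k : ℤ) ≤ sf G c S f) →
  dmo G c p S ≤ 6 + k ∧ (k = 0 → Rig G c p S)

/-- **CompRig** (from `D0f`, `Low`, `Mrg`).  Proof.  Let `R = cmp G c p S X ∋ X`; suppose that the structure on `R` is not rigid.  Let `g` be the map
with `g Y = cmp G c p R Y` (tagged) for `Y ∈ R` and `g Y = cmp G c p S Y` (tagged differently, for instance in a sum type) for `Y ∉ R`; `r` = number of components of `S`, `t ≥ 2` the number of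
components of the structure on `R` (if `t = 1` then `R` is rigid).  `(g '' S)` has `r - 1 + t` elements, and the crossing edges with different `g`-values are those with different `cmp`
on `S` and those in `R` with different `cmp` on `R`: `ef G c S g = ef G c S (cmp S) + ef G c R (cmp R)`.  `Low`: `6 (r - 1 + t) ≤ dmo S + 5 ef(S, cmp) + 5 ef(R, cmp)
= 6 r + (6 t - dmo R)`, that is `dmo R ≤ 6`, so (as in `D0r`) `R` is rigid. -/
def S_CompRig : Prop := ∀ (V K : Type) [Fintype V] (G : SimpleGraph V) (c : V → K) (p : V → R3)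
  (S : Set K), S.Finite → Gn p → NoTri G → ∀ X ∈ S, Rig G c p (cmp G c p S X)

end Pool.Agent.MPf1f412
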