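import Pool.Agent.Lib.MP_f1f412_co.SpecF
import Pool.Agent.Lib.MP_f1f412_co.Spec1

/-!
# MP_f1f412_co (C34): all graphs, induction over the leaves
-/

set_option autoImplicit false

namespace Pool.Agent.MPf1f412

open Matrix

theorem fAll (hMin : S_FMin) (hCon4 : S_Con4) (hCon : S_FCon) (hDown : S_FDown)
    (hUp : S_FUp) (hIso : S_FIso) (hCore : S_FCore) (hBase : S_FBase) (hGn : S_Gn)
    (hBrg : S_Brg) : S_FAll := by
  classical
  suffices H : ∀ (n : ℕ) (V : Type) [Finite V] (G : SimpleGraph V) (p : V → E3),
      Nat.card V = n → NoShortCycle G → 5 ≤ Nat.card V → Generic p →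
      (FrameworkGloballyRigid (square G) p → CondC G) ∧
      (CondC G → FrameworkGloballyRigid (square G) p) from
    fun V _ G p hG h5 hp => H _ V G p rfl hG h5 hp
  intro n
  induction n using Nat.strong_induction_on with
  | _ n ih =>
  intro V _ G p hn hG h5 hp
  have hgn : Gn (toR p) := hGn V (toR p) hp
  -- the graph without a leaf
  have hstep : ∀ l : V, 6 ≤ Nat.card V →
      (FrameworkGloballyRigid (square (del G l)) (fun x => p x) → CondC (del G l)) ∧
      (CondC (del G l) → FrameworkGloballyRigid (square (del G l)) (fun x => p x)) := by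
    intro l h6
    have hcard : Nat.card {x : V // x ≠ l} + 1 = Nat.card V := by
      have : Fintype V := Fintype.ofFinite V
      rw [Nat.card_eq_fintype_card, Nat.card_eq_fintype_card]
      have h1 : Fintype.card {x : V // x ≠ l} = Fintype.card V - 1 := Set.card_ne_eq l
      have h2 : 0 < Fintype.card V := Fintype.card_pos_iff.2 ⟨l⟩
      omega
    refine ih _ (by omega) {x : V // x ≠ l} (del G l) (fun x => p x) rfl ⟨?_, ?_⟩ (by omega) ?_
    · intro a b c h
      exact hG.1 a b c h
    · intro a b c d hac hbd h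
      exact hG.2 a b c d (fun h' => hac (Subtype.ext h')) (fun h' => hbd (Subtype.ext h')) h
    · have h1 := hp.comp (fun i : {x : V // x ≠ l} × Fin 3 => ((i.1 : V), i.2)) (by
        rintro ⟨a, i⟩ ⟨b, j⟩ h
        have h2 := congrArg Prod.fst h
        have h3 := congrArg Prod.snd h
        exact Prod.ext (Subtype.ext h2) h3)
      exact h1
  constructor
  · intro hfr
    have hR := (hBrg V (square G) p).1 hfr
    have hk : KConnected 4 (square G) := hCon4 V (square G) (toR p) h5 hp hR
    obtain ⟨hor, hfive⟩ := hBase V G hG h5 hk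
    refine ⟨hk, ?_⟩
    rcases hor with hd | ⟨l, u, hl⟩
    · have h1 := ((hMin V G p hG hd h5 hp).1 hfr).2
      exact hIso V (core G) G (G.induce (core G)) (((hCore V G).2 hd).map fun e => e.symm) h1
    · by_cases h6 : Nat.card V = 5
      · exact (hfive h6).2 ⟨l, u, hl⟩
      · have h7 : 6 ≤ Nat.card V := by omega
        have h8 := hDown V G l u (toR p) hl hR
        have h9 := ((hstep l h7).1 ((hBrg _ (square (del G l)) (fun x => p x)).2 h8)).2
        exact hIso _ _ _ _ ((hCore V G).1 l u hl) h9
  · rintro ⟨hk, hh⟩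
    obtain ⟨hor, hfive⟩ := hBase V G hG h5 hk
    rcases hor with hd | ⟨l, u, hl⟩
    · refine (hMin V G p hG hd h5 hp).2 ⟨hk, ?_⟩
      exact hIso _ _ _ _ ((hCore V G).2 hd) hh
    · by_cases h6 : Nat.card V = 5
      · intro q hq x y
        by_cases hxy : x = y
        · rw [hxy, dist_self, dist_self]
        · exact hq x y ((hfive h6).1 x y hxy)
      · have h7 : 6 ≤ Nat.card V := by omega
        obtain ⟨hx, hk'⟩ := hCon V G l u hl h7 hk
        have h9 : CondC (del G l) :=
          ⟨hk', hIso _ _ _ _ (((hCore V G).1 l u hl).map fun e => e.symm) hh⟩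
        have h10 := (hBrg _ (square (del G l)) (fun x => p x)).1 ((hstep l h7).2 h9)
        exact (hBrg V (square G) p).2 (hUp V G l u (toR p) hgn hl hx h10)

end Pool.Agent.MPf1f412
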