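import Pool.Agent.Lib.MP_f1f412_co.SpecF

set_option autoImplicit false

namespace Pool.Agent.MPf1f412

namespace fBaseAux

/-- the first step of a walk -/
theorem first {V : Type} (H : SimpleGraph V) (x y : V) (hxy : x ≠ y) (h : H.Reachable x y) :
    ∃ z, H.Adj x z := by
  obtain ⟨w⟩ := h
  cases w with
  | nil => exact absurd rfl hxy
  | cons hz _ => exact ⟨_, hz⟩

end fBaseAux

open fBaseAux in
theorem fBase : S_FBase := by
  intro V _ G hN h5 hK
  have hnb : ∀ v, ∃ u, G.Adj v u := by
    intro v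
    have h1 := hK ∅ Set.finite_empty (by rw [Set.ncard_empty]; norm_num)
    haveI : Nontrivial V := Finite.one_lt_card_iff_nontrivial.1 (by omega)
    obtain ⟨w, hw⟩ := exists_ne v
    have hv : v ∈ (∅ : Set V)ᶜ := fun h => h
    have hw' : w ∈ (∅ : Set V)ᶜ := fun h => h
    obtain ⟨z, hz⟩ := first _ (⟨v, hv⟩ : ((∅ : Set V)ᶜ : Set V)) ⟨w, hw'⟩
      (fun h => hw (congrArg Subtype.val h).symm) (h1.preconnected _ _)
    rcases hz.2 with h | ⟨x, h, -⟩
    · exact ⟨_, h⟩
    · exact ⟨_, h⟩
  refine ⟨?_, ?_⟩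
  · by_contra hcon
    rw [not_or] at hcon
    obtain ⟨h1, h2⟩ := hcon
    apply h1
    intro v
    obtain ⟨u, hu⟩ := hnb v
    by_contra h3
    apply h2
    refine ⟨v, u, fun x => ⟨fun hx => ?_, fun hx => hx ▸ hu⟩⟩
    by_contra hxu
    exact h3 ⟨x, u, hxu, hx, hu⟩
  · intro hc5
    have hcomp : ∀ x y, x ≠ y → (square G).Adj x y := by
      intro x y hxy
      have hcard : ({x, y}ᶜ : Set V).ncard < 4 := by
        have h1 := Set.ncard_add_ncard_compl ({x, y} : Set V)
        rw [Set.ncard_pair hxy, hc5] at h1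
        omega
      have h1 := hK ({x, y}ᶜ) (Set.toFinite _) hcard
      rw [compl_compl] at h1
      obtain ⟨z, hz⟩ := first _ (⟨x, Set.mem_insert x _⟩ : ({x, y} : Set V))
        ⟨y, Set.mem_insert_of_mem x rfl⟩ (fun h => hxy (congrArg Subtype.val h))
        (h1.preconnected _ _)
      have hz' : (square G).Adj x z.1 := hz
      rcases z.2 with h | h
      · exact absurd h.symm hz'.1
      · have h' : z.1 = y := h
        rw [← h']
        exact hz'
    refine ⟨hcomp, ?_⟩
    rintro ⟨l, u, hL⟩
    have hu : ∀ x, x ≠ u → G.Adj u x := by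
      intro x hx
      by_cases hxl : x = l
      · rw [hxl]
        exact ((hL u).2 rfl).symm
      · rcases (hcomp l x (Ne.symm hxl)).2 with h | ⟨w, h1, h2⟩
        · exact absurd ((hL x).1 h) hx
        · rw [(hL w).1 h1] at h2
          exact h2
    have hst : ∀ a b, a ≠ u → G.Adj a b → b = u := by
      intro a b ha hab
      by_contra hb
      exact hN.1 u a b ⟨hu a ha, hab, (hu b hb).symm⟩
    have hcore : ∀ x, x ∉ core G := by
      rintro x ⟨U, hU, hx⟩
      have key : ∀ a ∈ U, a ≠ u → False := by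
        intro a ha hau
        obtain ⟨c, -, d, -, hcd, h1, h2⟩ := hU a ha
        exact hcd ((hst a c hau h1).trans (hst a d hau h2).symm)
      by_cases hxu : x = u
      · obtain ⟨a, ha, -, -, -, h1, -⟩ := hU x hx
        refine key a ha (fun h => ?_)
        rw [hxu, h] at h1
        exact G.irrefl h1
      · exact key x hx hxu
    intro e
    exfalso
    obtain ⟨⟨z, hz⟩, -⟩ := e
    induction z using Sym2.ind with
    | _ x y => exact hcore x.1 x.2

end Pool.Agent.MPf1f412
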