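import Pool.Agent.Lib.MP_f1f412_co.SpecF

/-!
# MP_f1f412_co (C34), FBrg: from `E3` to `R3`
-/

set_option autoImplicit false

namespace Pool.Agent.MPf1f412

private theorem dist_sq (x y : E3) : dist x y ^ 2 = dsq (fun i => x i) (fun i => y i) := by
  rw [EuclideanSpace.dist_eq, Real.sq_sqrt (Finset.sum_nonneg fun i _ => sq_nonneg _)]
  unfold dsq dotProduct
  refine Finset.sum_congr rfl fun i _ => ?_
  rw [Real.dist_eq, sq_abs, sq]
  rfl

private theorem dist_iff (a b c d : E3) : dist a b = dist c d ↔
    dsq (fun i => a i) (fun i => b i) = dsq (fun i => c i) (fun i => d i) := by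
  rw [← dist_sq, ← dist_sq]
  constructor
  · intro h
    rw [h]
  · intro h
    exact (sq_eq_sq₀ dist_nonneg dist_nonneg).1 h

theorem fBrg : S_Brg := by
  intro V H p
  constructor
  · intro h q hq u w
    have h1 := h (fun v => WithLp.toLp 2 (q v)) (fun a b hab => by
      rw [dist_iff]
      exact hq a b hab) u w
    rw [dist_iff] at h1
    exact h1
  · intro h q hq u w
    rw [dist_iff]
    exact h (toR q) (fun a b hab => (dist_iff _ _ _ _).1 (hq a b hab)) u w

end Pool.Agent.MPf1f412
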