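import Pool.Agent.Lib.MP_f1f412_co.SpecF

/-!
# MP_f1f412_co (C34): four-connectivity and leaves
-/

set_option autoImplicit false

namespace Pool.Agent.MPf1f412

namespace FConM

/-- images of connected graphs under maps which send edges to edges or loops are connected -/
theorem conn_of_map {A B : Type} {H : SimpleGraph A} {H' : SimpleGraph B} (f : A → B)
    (hf : Function.Surjective f) (h : ∀ a b, H.Adj a b → f a = f b ∨ H'.Adj (f a) (f b))
    (hc : H.Connected) : H'.Connected := by
  have hr : ∀ a b, H.Reachable a b → H'.Reachable (f a) (f b) := by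
    rintro a b ⟨w⟩
    induction w with
    | nil => exact SimpleGraph.Reachable.refl _
    | cons h1 _ ih =>
      rcases h _ _ h1 with h2 | h2
      · rw [h2]
        exact ih
      · exact h2.reachable.trans ih
  have hne : Nonempty B := hc.nonempty.map f
  refine SimpleGraph.Connected.mk ?_
  intro x y
  obtain ⟨a, rfl⟩ := hf x
  obtain ⟨b, rfl⟩ := hf y
  exact hr a b (hc.preconnected a b)

end FConM

open FConM in
theorem fCon (hSq : S_FSq) : S_FCon := by
  classical
  intro V _ G l u hl h6 hk
  obtain ⟨hs1, -, hs3⟩ := hSq V G l u hl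
  have : Fintype V := Fintype.ofFinite V
  -- four neighbours
  obtain ⟨x, hxinj, hx⟩ : ∃ x : Fin 4 → V, Function.Injective x ∧ ∀ i, (square G).Adj l (x i) := by
    obtain ⟨N, hN⟩ : ∃ N : Finset V, ∀ y, y ∈ N ↔ (square G).Adj l y :=
      ⟨Finset.univ.filter fun y => (square G).Adj l y, fun y => by simp⟩
    have h4 : 4 ≤ N.card := by
      by_contra hlt
      push Not at hlt
      have hc := hk (N : Set V) N.finite_toSet (by rw [Set.ncard_coe_finset]; exact hlt)
      have hl' : l ∈ ((N : Set V)ᶜ : Set V) := by
        intro h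
        exact (square G).loopless.irrefl l ((hN l).1 h)
      obtain ⟨z, hz⟩ : ∃ z, z ∉ insert l N := by
        by_contra hcon
        push Not at hcon
        have h1 : (Finset.univ : Finset V) ⊆ insert l N := fun z _ => hcon z
        have h2 := Finset.card_le_card h1
        have h3 := Finset.card_insert_le l N
        rw [Finset.card_univ, ← Nat.card_eq_fintype_card] at h2
        omega
      rw [Finset.mem_insert, not_or] at hz
      have hz' : z ∈ ((N : Set V)ᶜ : Set V) := hz.2
      obtain ⟨w⟩ := hc.preconnected ⟨l, hl'⟩ ⟨z, hz'⟩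
      cases w with
      | nil => exact hz.1 rfl
      | @cons _ y _ h1 _ => exact y.2 ((hN y).2 h1)
    obtain ⟨t, ht, hc⟩ := Finset.exists_subset_card_eq h4
    refine ⟨fun i => ((t.equivFinOfCardEq hc).symm i : V),
      Subtype.val_injective.comp (t.equivFinOfCardEq hc).symm.injective, fun i => ?_⟩
    exact (hN _).1 (ht ((t.equivFinOfCardEq hc).symm i).2)
  refine ⟨⟨x, hxinj, hx⟩, ?_⟩
  intro S hS hS4
  have hS' : (Subtype.val '' S : Set V).ncard < 4 := by
    rw [Set.ncard_image_of_injective S Subtype.val_injective]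
    exact hS4
  have hSf : (Subtype.val '' S : Set V).Finite := hS.image _
  have hc := hk (Subtype.val '' S : Set V) hSf hS'
  -- a neighbour of `l` outside of `S`
  obtain ⟨i, hi⟩ : ∃ i, x i ∉ (Subtype.val '' S : Set V) := by
    by_contra hcon
    push Not at hcon
    have h1 : Set.range x ⊆ (Subtype.val '' S : Set V) := by
      rintro _ ⟨i, rfl⟩
      exact hcon i
    have h2 := Set.ncard_le_ncard h1 hSf
    rw [Set.ncard_range_of_injective hxinj, Nat.card_eq_fintype_card, Fintype.card_fin] at h2
    omega
  obtain ⟨x₀, hx₀⟩ : ∃ x₀, x₀ = x i := ⟨_, rfl⟩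
  rw [← hx₀] at hi
  have hlx : (square G).Adj l x₀ := hx₀ ▸ hx i
  have hx₀l : x₀ ≠ l := fun h => hlx.ne h.symm
  have hlS : ∀ y : {y : V // y ≠ l}, y ∈ S ↔ (y : V) ∈ (Subtype.val '' S : Set V) := by
    intro y
    constructor
    · intro h
      exact ⟨y, h, rfl⟩
    · rintro ⟨z, hz, hzy⟩
      rw [← Subtype.ext hzy]
      exact hz
  let f : ((Subtype.val '' S : Set V)ᶜ : Set V) → (Sᶜ : Set {y : V // y ≠ l}) := fun v =>
    if h : (v : V) = l then ⟨⟨x₀, hx₀l⟩, fun h' => hi ((hlS _).1 h')⟩
    else ⟨⟨v, h⟩, fun h' => v.2 ((hlS _).1 h')⟩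
  have hfl : ∀ v : ((Subtype.val '' S : Set V)ᶜ : Set V), (v : V) = l → ((f v : {y : V // y ≠ l}) : V) = x₀ := by
    intro v hv
    simp only [f, dif_pos hv]
  have hfn : ∀ v : ((Subtype.val '' S : Set V)ᶜ : Set V), (v : V) ≠ l → ((f v : {y : V // y ≠ l}) : V) = v := by
    intro v hv
    simp only [f, dif_neg hv]
  have hadj : ∀ a b : (Sᶜ : Set {y : V // y ≠ l}), (square G).Adj (a : {y : V // y ≠ l})
      (b : {y : V // y ≠ l}) → ((square (del G l)).induce Sᶜ).Adj a b := by
    intro a b h
    exact (hs1 _ _).2 h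
  refine conn_of_map f ?_ ?_ hc
  · intro y
    have hy : ((y : {y : V // y ≠ l}) : V) ∈ ((Subtype.val '' S : Set V)ᶜ : Set V) := by
      intro h
      exact y.2 ((hlS _).2 h)
    refine ⟨⟨_, hy⟩, ?_⟩
    apply Subtype.ext
    apply Subtype.ext
    exact hfn _ (y : {y : V // y ≠ l}).2
  · intro a b hab
    have hab' : (square G).Adj (a : V) (b : V) := hab
    by_cases ha : (a : V) = l
    · have hb : (b : V) ≠ l := fun h => hab'.ne (ha.trans h.symm)
      by_cases hbx : x₀ = (b : V)
      · left
        apply Subtype.ext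
        apply Subtype.ext
        rw [hfl a ha, hfn b hb, hbx]
      · right
        apply hadj
        rw [hfl a ha, hfn b hb]
        have h1 : (square G).Adj l (b : V) :=
          Eq.mp (congrArg (fun t => (square G).Adj t (b : V)) ha) hab'
        exact hs3 _ _ hlx h1 hbx
    · by_cases hb : (b : V) = l
      · by_cases hax : (a : V) = x₀
        · left
          apply Subtype.ext
          apply Subtype.ext
          rw [hfl b hb, hfn a ha, hax]
        · right
          apply hadj
          rw [hfl b hb, hfn a ha]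
          have h1 : (square G).Adj l (a : V) :=
            Eq.mp (congrArg (fun t => (square G).Adj t (a : V)) hb) hab'.symm
          exact hs3 _ _ h1 hlx hax
      · right
        apply hadj
        rw [hfn a ha, hfn b hb]
        exact hab'

end Pool.Agent.MPf1f412
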