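import Pool.Agent.Lib.MP_f1f412_co.SpecF

/-!
# MP_f1f412_co (C34), FDown: deleting a leaf
-/

set_option autoImplicit false

namespace Pool.Agent.MPf1f412

open Matrix

private theorem dsq_self (x : R3) : dsq x x = 0 := by
  unfold dsq
  rw [sub_self, zero_dotProduct]

private theorem dsq_comm (x y : R3) : dsq x y = dsq y x := by
  unfold dsq
  rw [← neg_sub y x, neg_dotProduct_neg]

private theorem dsq_ap (g : Iso3) (x y : R3) : dsq (g.ap x) (g.ap y) = dsq x y := by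
  unfold dsq Iso3.ap
  have h1 : g.A *ᵥ x + g.b - (g.A *ᵥ y + g.b) = g.A *ᵥ (x - y) := by
    rw [mulVec_sub]
    abel
  rw [h1, dotProduct_mulVec, vecMul_mulVec, g.orth, vecMul_one]

theorem fDown (h1 : S_FSq) (h2 : S_Ext) : S_FDown := by
  classical
  intro V _ G l u p hl hgr q hq x y
  obtain ⟨sq1, _, sq3⟩ := h1 V G l u hl
  let q₀ : V → R3 := fun v => if h : v ≠ l then q ⟨v, h⟩ else 0
  have hq₀ : ∀ (v : V) (h : v ≠ l), q₀ v = q ⟨v, h⟩ := fun v h => dif_pos h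
  obtain ⟨g, hg⟩ := h2 V {v | (square G).Adj l v} p q₀ (by
    intro a ha b hb
    have ha' : (square G).Adj l a := ha
    have hb' : (square G).Adj l b := hb
    by_cases hab : a = b
    · subst hab
      rw [dsq_self, dsq_self]
    · rw [hq₀ a ha'.ne.symm, hq₀ b hb'.ne.symm]
      exact hq _ _ ((sq1 ⟨a, ha'.ne.symm⟩ ⟨b, hb'.ne.symm⟩).2 (sq3 a b ha' hb' hab)))
  let q₁ : V → R3 := fun v => if v = l then g.ap (p l) else q₀ v
  have hq₁l : q₁ l = g.ap (p l) := if_pos rfl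
  have hq₁ : ∀ v, v ≠ l → q₁ v = q₀ v := fun v h => if_neg h
  have hadj : ∀ b, (square G).Adj l b → dsq (q₁ l) (q₁ b) = dsq (p l) (p b) := by
    intro b hb
    rw [hq₁l, hq₁ b hb.ne.symm, hg b hb, dsq_ap]
  have hE : Eqv (square G) p q₁ := by
    intro a b hab
    by_cases ha : a = l
    · subst ha
      exact hadj b hab
    · by_cases hb : b = l
      · subst hb
        rw [dsq_comm, hadj a hab.symm, dsq_comm]
      · rw [hq₁ a ha, hq₁ b hb, hq₀ a ha, hq₀ b hb]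
        exact hq _ _ ((sq1 ⟨a, ha⟩ ⟨b, hb⟩).2 hab)
  have h3 := hgr q₁ hE x y
  rw [hq₁ x x.2, hq₁ y y.2, hq₀ x x.2, hq₀ y y.2] at h3
  exact h3

end Pool.Agent.MPf1f412
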