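import Pool.Agent.Lib.MP_f1f412_co.SpecF

/-!
# MP_f1f412_co (C34): the final statement (`S_End`)
-/

set_option autoImplicit false

namespace Pool.Agent.MPf1f412

theorem fEnd (hA : S_FAll) (hM : S_FMin) (hE : S_ExG) : S_End := by
  intro V _ G hc h5
  obtain ⟨p₀, hp₀⟩ := hE V
  have h1 : GloballyRigid (square G) → ∃ p : V → E3, Generic p ∧
      FrameworkGloballyRigid (square G) p := fun h => ⟨p₀, hp₀, h.2 p₀ hp₀⟩
  have h2 : (∃ p : V → E3, Generic p ∧ FrameworkGloballyRigid (square G) p) → CondC G := by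
    rintro ⟨p, hp, h⟩
    exact (hA V G p hc h5 hp).1 h
  have h3 : CondC G → GloballyRigid (square G) := fun h =>
    ⟨⟨p₀, hp₀⟩, fun p hp => (hA V G p hc h5 hp).2 h⟩
  refine ⟨⟨fun h => h3 (h2 h), h1⟩, ⟨fun h => h2 (h1 h), h3⟩, fun hd => ⟨fun h => ?_, fun h => ?_⟩⟩
  · exact (hM V G p₀ hc hd h5 hp₀).1 (h.2 p₀ hp₀)
  · exact ⟨⟨p₀, hp₀⟩, fun p hp => (hM V G p hc hd h5 hp).2 h⟩

end Pool.Agent.MPf1f412
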