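import Pool.Agent.Lib.MP_f1f412_co.SpecF

/-!
# MP_f1f412_co (C34), generic configurations exist (`S_ExG`)
-/

set_option autoImplicit false

namespace Pool.Agent.MPf1f412

namespace fExGAux

theorem infinite_transcendence {s : Set ℝ} (hs : IsTranscendenceBasis ℚ ((↑) : s → ℝ)) :
    s.Infinite := by
  intro hfin
  have : Algebra.IsAlgebraic (Algebra.adjoin ℚ s) ℝ := by
    have h := hs.isAlgebraic
    have h2 : Set.range ((↑) : s → ℝ) = s := Subtype.range_coe
    rw [h2] at h
    exact h
  have hcount : Countable (Algebra.adjoin ℚ s) := by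
    have : Countable (MvPolynomial s ℚ) := by
      have := hfin.countable.to_subtype
      have h := MvPolynomial.cardinalMk_le_max (σ := s) (R := ℚ)
      have h' : Cardinal.mk (MvPolynomial s ℚ) ≤ Cardinal.aleph0 :=
        h.trans (max_le (max_le Cardinal.mk_le_aleph0 Cardinal.mk_le_aleph0) le_rfl)
      exact Cardinal.mk_le_aleph0_iff.mp h'
    have hr : (Algebra.adjoin ℚ s : Set ℝ) ⊆ Set.range (MvPolynomial.aeval ((↑) : s → ℝ) :
        MvPolynomial s ℚ →ₐ[ℚ] ℝ) := by
      intro x hx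
      have h3 : Algebra.adjoin ℚ s = (MvPolynomial.aeval ((↑) : s → ℝ) :
        MvPolynomial s ℚ →ₐ[ℚ] ℝ).range := by
        rw [← Algebra.adjoin_range_eq_range_aeval, Subtype.range_coe]
      have hx' : x ∈ Algebra.adjoin ℚ s := hx
      rw [h3] at hx'
      exact hx'
    exact ((Set.countable_range _).mono hr).to_subtype
  have h1 := Algebra.IsAlgebraic.cardinalMk_le_max (Algebra.adjoin ℚ s) ℝ
  have h2 : Cardinal.mk (Algebra.adjoin ℚ s) ≤ Cardinal.aleph0 := Cardinal.mk_le_aleph0
  have h3 : Cardinal.mk ℝ ≤ Cardinal.aleph0 := h1.trans (max_le h2 le_rfl)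
  rw [Cardinal.mk_real] at h3
  exact absurd h3 (not_le.mpr Cardinal.aleph0_lt_continuum)

end fExGAux

theorem fExG : S_ExG := by
  intro V _
  obtain ⟨s, hs⟩ := exists_isTranscendenceBasis ℚ ℝ
  have hinf : Infinite s := (fExGAux.infinite_transcendence hs).to_subtype
  obtain ⟨f⟩ : Nonempty (V × Fin 3 ↪ s) := by
    have := Cardinal.mk_le_aleph0 (α := V × Fin 3)
    have h2 := Cardinal.aleph0_le_mk s
    exact (Cardinal.le_def _ _).mp (this.trans h2)
  refine ⟨fun v => WithLp.toLp 2 (fun i => (f (v, i) : ℝ)), ?_⟩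
  have h := hs.1.comp f f.injective
  exact h

end Pool.Agent.MPf1f412
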