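import Pool.Agent.Lib.MP_f1f412_co.SpecF

/-!
# MP_f1f412_co (C34): isomorphic graphs (`S_FIso`)

Direct transport of the spanning trees (tree packing is not needed).
-/

set_option autoImplicit false

namespace Pool.Agent.MPf1f412

namespace fIsoAux

variable {V W E F : Type}

/-- the isomorphism of the trees -/
def iso (φ : V ≃ W) (S : Set (Sym2 V)) :
    SimpleGraph.fromEdgeSet S ≃g SimpleGraph.fromEdgeSet (Sym2.map φ '' S) where
  toEquiv := φ
  map_rel_iff' := by
    intro a b
    simp only [SimpleGraph.fromEdgeSet_adj, Set.mem_image, ne_eq, EmbeddingLike.apply_eq_iff_eq]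
    refine and_congr_left fun _ => ⟨?_, fun h => ⟨_, h, by simp⟩⟩
    rintro ⟨z, hz, he⟩
    have : z = s(a, b) := by
      apply Sym2.map.injective φ.injective
      simpa using he
    rwa [← this]

theorem tree (ends : E → Sym2 V) (ends' : F → Sym2 W) (φ : V ≃ W) (ε : E ≃ F)
    (h : ∀ e, ends' (ε e) = Sym2.map φ (ends e)) (T : Set E) (hT : IsSpanningTree ends T) :
    IsSpanningTree ends' (ε '' T) := by
  refine ⟨?_, ?_⟩
  · rintro _ ⟨a, ha, rfl⟩ _ ⟨b, hb, rfl⟩ hab
    rw [h, h] at hab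
    rw [hT.1 ha hb (Sym2.map.injective φ.injective hab)]
  · have e : ends' '' (ε '' T) = Sym2.map φ '' (ends '' T) := by
      rw [Set.image_image, Set.image_image]
      exact Set.image_congr fun a _ => h a
    rw [e]
    exact (iso φ (ends '' T)).isTree_iff.1 hT.2

theorem htc (ends : E → Sym2 V) (ends' : F → Sym2 W) (φ : V ≃ W) (ε : E ≃ F)
    (h : ∀ e, ends' (ε e) = Sym2.map φ (ends e)) (k : ℕ) (hG : HighlyTreeConnected k ends) :
    HighlyTreeConnected k ends' := by
  intro f
  obtain ⟨T, h1, h2, h3⟩ := hG (ε.symm f)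
  refine ⟨fun i => ε '' T i, fun i => tree ends ends' φ ε h _ (h1 i), ?_, ?_⟩
  · intro i j hij
    exact (Set.disjoint_image_iff ε.injective).2 (h2 i j hij)
  · rintro i ⟨e, he, rfl⟩
    exact h3 i (by simpa using he)

end fIsoAux

open fIsoAux in
theorem fIso : S_FIso := by
  rintro V W _ _ G H ⟨φ⟩ hG
  refine htc (multiple 5 G) (multiple 5 H) φ.toEquiv
    (Equiv.prodCongr φ.mapEdgeSet (Equiv.refl (Fin 5))) ?_ 6 hG
  rintro ⟨e, i⟩
  rfl

end Pool.Agent.MPf1f412
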