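import Pool.Agent.Lib.MP_f1f412_co.SpecF
import Pool.Agent.Lib.MP_f1f412_co.Spec1

/-!
# MP_f1f412_co (C34): the theorem for minimum degree two (`S_FMin`)
-/

set_option autoImplicit false

namespace Pool.Agent.MPf1f412

open Matrix

theorem fMin (hS : S_Suff) (h4 : S_Con4) (hN : S_Nec) (hT : S_TP) (hG : S_Gn) (hB : S_Brg) :
    S_FMin := by
  intro V _ G p hc hd h5 hp
  have hne : ∃ u v, G.Adj u v := by
    have : Nonempty V := by
      by_contra h
      rw [not_nonempty_iff] at h
      rw [Nat.card_of_isEmpty] at h5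
      omega
    obtain ⟨v⟩ := this
    obtain ⟨a, -, -, ha, -⟩ := hd v
    exact ⟨v, a, ha⟩
  have htri : NoTri G := hc.1
  constructor
  · intro h
    have h' := (hB V (square G) p).1 h
    refine ⟨h4 V (square G) (toR p) h5 hp h', ?_⟩
    rw [hT V G hne]
    exact hN V G (toR p) htri hc.2 hd h5 hp h'
  · rintro ⟨h1, h2⟩
    rw [hT V G hne] at h2
    rw [hB V (square G) p]
    intro q hq
    exact hS V G (toR p) q ⟨htri, hc.2, hd, h1, h2⟩ (hG V (toR p) hp) hq

end Pool.Agent.MPf1f412
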