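import Pool.Agent.Lib.MP_f1f412_co.SpecF

/-!
# MP_f1f412_co (C34), FSq: the square without a leaf
-/

set_option autoImplicit false

namespace Pool.Agent.MPf1f412

theorem fSq : S_FSq := by
  intro V G l u hl
  have hlu : G.Adj l u := (hl u).2 rfl
  have h2 : ∀ x, (square G).Adj l x ↔ x = u ∨ (G.Adj u x ∧ x ≠ l) := by
    intro x
    constructor
    · rintro ⟨hne, h | ⟨w, h1, h2⟩⟩
      · exact Or.inl ((hl x).1 h)
      · have hw : w = u := (hl w).1 h1
        subst hw
        exact Or.inr ⟨h2, hne.symm⟩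
    · rintro (rfl | ⟨h1, h2⟩)
      · exact ⟨hlu.ne, Or.inl hlu⟩
      · exact ⟨h2.symm, Or.inr ⟨u, hlu, h1⟩⟩
  refine ⟨?_, h2, ?_⟩
  · intro x y
    constructor
    · rintro ⟨hne, h⟩
      refine ⟨fun h' => hne (Subtype.ext h'), ?_⟩
      rcases h with h | ⟨w, h1, h2⟩
      · exact Or.inl h
      · exact Or.inr ⟨w, h1, h2⟩
    · rintro ⟨hne, h⟩
      refine ⟨fun h' => hne (congrArg Subtype.val h'), ?_⟩
      rcases h with h | ⟨w, h1, h2⟩
      · exact Or.inl h
      · by_cases hw : w = l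
        · subst hw
          exact absurd (((hl _).1 h1.symm).trans ((hl _).1 h2).symm) hne
        · exact Or.inr ⟨⟨w, hw⟩, h1, h2⟩
  · intro x y hx hy hne
    refine ⟨hne, ?_⟩
    rcases (h2 x).1 hx with rfl | ⟨h3, _⟩
    · rcases (h2 y).1 hy with rfl | ⟨h4, _⟩
      · exact absurd rfl hne
      · exact Or.inl h4
    · rcases (h2 y).1 hy with rfl | ⟨h4, _⟩
      · exact Or.inl h3.symm
      · exact Or.inr ⟨u, h3.symm, h4⟩

end Pool.Agent.MPf1f412
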