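import Pool.Agent.Lib.MP_f1f412_co.SpecF
import Pool.Agent.Lib.MP_f1f412_co.Basic

set_option autoImplicit false

namespace Pool.Agent.MPf1f412

open Matrix

namespace fUpAux

theorem dsq_ap (g : Iso3) (x y : R3) : dsq (g.ap x) (g.ap y) = dsq x y := by
  have h1 : g.ap x - g.ap y = g.A *ᵥ (x - y) := by
    unfold Iso3.ap
    rw [Matrix.mulVec_sub]
    abel
  unfold dsq
  rw [h1, Matrix.dotProduct_mulVec, ← Matrix.mulVec_transpose, Matrix.mulVec_mulVec, g.orth,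
    Matrix.one_mulVec]

theorem exists_ap (g : Iso3) (y : R3) : ∃ z : R3, g.ap z = y := by
  refine ⟨g.Aᵀ *ᵥ (y - g.b), ?_⟩
  unfold Iso3.ap
  rw [Matrix.mulVec_mulVec, mul_eq_one_comm.1 g.orth, Matrix.one_mulVec, sub_add_cancel]

theorem lin (z w a b : R3) (h1 : dsq z a = dsq w a) (h2 : dsq z b = dsq w b) :
    (z - w) ⬝ᵥ (b - a) = 0 := by
  unfold dsq at h1 h2
  rw [dot_eq, dot_eq] at h1 h2
  simp only [Pi.sub_apply] at h1 h2
  rw [dot_eq]
  simp only [Pi.sub_apply]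
  linear_combination (h1 - h2) / 2

end fUpAux

open fUpAux in
theorem fUp (h1 : S_FSq) (h2 : S_Ext) : S_FUp := by
  intro V _ G l u p hG hL hx hres q hq
  obtain ⟨x, hxi, hxa⟩ := hx
  obtain ⟨s1, s2, s3⟩ := h1 V G l u hL
  have hE : Eqv (square (del G l)) (fun x => p x) (fun x => q x) := by
    intro a b hab
    exact hq a b ((s1 a b).1 hab)
  have hcong := hres (fun x => q x) hE
  obtain ⟨g, hg⟩ := h2 V {x | x ≠ l} p q (fun a ha b hb => hcong ⟨a, ha⟩ ⟨b, hb⟩)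
  obtain ⟨z, hz⟩ := exists_ap g (q l)
  have hne : ∀ i, x i ≠ l := fun i h => (hxa i).1 h.symm
  have hd : ∀ i, dsq z (p (x i)) = dsq (p l) (p (x i)) := by
    intro i
    rw [← dsq_ap g z, hz, ← hg (x i) (hne i)]
    exact hq l (x i) (hxa i)
  have hij : ∀ i j : Fin 4, i ≠ j → x i ≠ x j := fun i j h h' => h (hxi h')
  have hzl : z - p l = 0 :=
    hG.dot3 (hij 0 1 (by decide)) (hij 0 2 (by decide)) (hij 0 3 (by decide))
      (hij 1 2 (by decide)) (hij 1 3 (by decide)) (hij 2 3 (by decide))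
      (lin _ _ _ _ (hd 0) (hd 1)) (lin _ _ _ _ (hd 0) (hd 2)) (lin _ _ _ _ (hd 0) (hd 3))
  have hall : ∀ y, q y = g.ap (p y) := by
    intro y
    by_cases hy : y = l
    · rw [hy, ← hz, sub_eq_zero.1 hzl]
    · exact hg y hy
  intro a b
  rw [hall a, hall b]
  exact dsq_ap g _ _

end Pool.Agent.MPf1f412
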