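import Pool.Agent.Lib.MP_f1f412_co.Spec1

/-!
# MP_f1f412_co (C34): a motion with distinct values
-/

set_option autoImplicit false

namespace Pool.Agent.MPf1f412

namespace genMAux

/-- the motions with equal values at `X` and `Y` -/
def eqSub {V K : Type} (G : SimpleGraph V) (c : V → K) (p : V → R3) (S : Set K) (X Y : K) :
    Subspace ℝ (Mot G c p S) where
  carrier := {m | m.1 X = m.1 Y}
  add_mem' := by
    intro a b ha hb
    change a.1 X + b.1 X = a.1 Y + b.1 Y
    rw [show a.1 X = a.1 Y from ha, show b.1 X = b.1 Y from hb]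
  zero_mem' := rfl
  smul_mem' := by
    intro r a ha
    change r • a.1 X = r • a.1 Y
    rw [show a.1 X = a.1 Y from ha]

end genMAux

open genMAux in
theorem genM : S_GenM := by
  classical
  intro V K G c p S hS hFF
  by_contra hc
  push Not at hc
  have hfin : Finite {z : K × K // z.1 ∈ S ∧ z.2 ∈ S ∧ z.1 ≠ z.2} := by
    refine Set.Finite.to_subtype ((hS.prod hS).subset ?_)
    rintro ⟨X, Y⟩ ⟨h1, h2, -⟩
    exact ⟨h1, h2⟩
  have hcov : ⋃ z : {z : K × K // z.1 ∈ S ∧ z.2 ∈ S ∧ z.1 ≠ z.2},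
      (eqSub G c p S z.1.1 z.1.2 : Set (Mot G c p S)) = Set.univ := by
    refine Set.eq_univ_of_forall fun m => ?_
    have h1 := hc m.1 m.2.1
    unfold Set.InjOn at h1
    push Not at h1
    obtain ⟨X, hX, Y, hY, hXY, hne⟩ := h1
    exact Set.mem_iUnion.2 ⟨⟨(X, Y), hX, hY, hne⟩, hXY⟩
  obtain ⟨⟨⟨X, Y⟩, hX, hY, hne⟩, htop⟩ := Subspace.exists_eq_top_of_iUnion_eq_univ hcov
  obtain ⟨m, hm, hmXY⟩ := hFF X hX Y hY hne
  have hm' : (S.indicator m) ∈ Mot G c p S := by
    refine ⟨?_, fun Z hZ => Set.indicator_of_notMem hZ m⟩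
    intro u w huw
    obtain ⟨t, ht⟩ := hm u w huw
    refine ⟨t, ?_⟩
    rw [Set.indicator_of_mem huw.2.1, Set.indicator_of_mem huw.2.2.1]
    exact ht
  have h2 : (⟨S.indicator m, hm'⟩ : Mot G c p S) ∈ eqSub G c p S X Y := by
    change _ ∈ eqSub G c p S (X, Y).1 (X, Y).2
    rw [htop]
    trivial
  have h3 : S.indicator m X = S.indicator m Y := h2
  rw [Set.indicator_of_mem hX, Set.indicator_of_mem hY] at h3
  exact hmXY h3

end Pool.Agent.MPf1f412
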