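import Pool.Agent.Lib.MP_f1f412_co.Spec1

/-!
# MP_f1f412_co (C34), module GnP: `Gn` from algebraic independence
-/

set_option autoImplicit false

namespace Pool.Agent.MPf1f412

theorem gnP (h : S_Der) : S_Gn := by
  intro V p hp v
  obtain ⟨D, hD⟩ := h ℚ ℝ (V × Fin 3) (fun i => p i.1 i.2) hp (fun i => v i.1 i.2)
  exact ⟨D, fun u => funext fun i => hD (u, i)⟩

end Pool.Agent.MPf1f412
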