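import Pool.Agent.Lib.MP_f1f412_co.Spec1

/-!
# MP_f1f412_co (C34): Lemma N, no two adjacent classes of support degree two
-/

set_option autoImplicit false

namespace Pool.Agent.MPf1f412

open Matrix

namespace lemNAux

/-! ### vectors -/

theorem dt (x y : R3) : x ⬝ᵥ y = x 0 * y 0 + x 1 * y 1 + x 2 * y 2 := by
  simp [dotProduct, Fin.sum_univ_three]

theorem cr0 (x y : R3) : cr x y 0 = x 1 * y 2 - x 2 * y 1 := by
  simp [cr, cross_apply]

theorem cr1 (x y : R3) : cr x y 1 = x 2 * y 0 - x 0 * y 2 := by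
  simp [cr, cross_apply]

theorem cr2 (x y : R3) : cr x y 2 = x 0 * y 1 - x 1 * y 0 := by
  simp [cr, cross_apply]

theorem ext3 {x y : R3} (h0 : x 0 = y 0) (h1 : x 1 = y 1) (h2 : x 2 = y 2) : x = y := by
  funext i
  fin_cases i
  · exact h0
  · exact h1
  · exact h2

theorem cr_neg_left (x y : R3) : cr (-x) y = - cr x y := by
  refine ext3 ?_ ?_ ?_ <;> simp only [cr0, cr1, cr2, Pi.neg_apply] <;> ring

theorem cr_smul_left (b : ℝ) (x y : R3) : cr (b • x) y = b • cr x y := by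
  refine ext3 ?_ ?_ ?_ <;> simp only [cr0, cr1, cr2, Pi.smul_apply, smul_eq_mul] <;> ring

theorem cr_sub_right (x y z : R3) : cr x (y - z) = cr x y - cr x z := by
  refine ext3 ?_ ?_ ?_ <;> simp only [cr0, cr1, cr2, Pi.sub_apply] <;> ring

/-- a vector orthogonal to three linearly independent vectors is zero -/
theorem dots_zero {x y z a : R3} (hd : x ⬝ᵥ cr y z ≠ 0) (h1 : a ⬝ᵥ x = 0) (h2 : a ⬝ᵥ y = 0)
    (h3 : a ⬝ᵥ z = 0) : a = 0 := by
  rw [dt, cr0, cr1, cr2] at hd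
  rw [dt] at h1 h2 h3
  refine ext3 ?_ ?_ ?_
  · apply mul_left_cancel₀ hd
    simp only [Pi.zero_apply]
    linear_combination (y 1 * z 2 - y 2 * z 1) * h1 + (z 1 * x 2 - z 2 * x 1) * h2 +
      (x 1 * y 2 - x 2 * y 1) * h3
  · apply mul_left_cancel₀ hd
    simp only [Pi.zero_apply]
    linear_combination (y 2 * z 0 - y 0 * z 2) * h1 + (z 2 * x 0 - z 0 * x 2) * h2 +
      (x 2 * y 0 - x 0 * y 2) * h3
  · apply mul_left_cancel₀ hd
    simp only [Pi.zero_apply]
    linear_combination (y 0 * z 1 - y 1 * z 0) * h1 + (z 0 * x 1 - z 1 * x 0) * h2 +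
      (x 0 * y 1 - x 1 * y 0) * h3

theorem dt_self_ne {y : R3} (h : y ≠ 0) : y ⬝ᵥ y ≠ 0 := fun h' => h (dotProduct_self_eq_zero.1 h')

/-- parallel vectors -/
theorem par {x y : R3} (hy : y ≠ 0) (h : cr x y = 0) : ∃ b : ℝ, x = b • y := by
  have hd := dt_self_ne hy
  refine ⟨x ⬝ᵥ y / y ⬝ᵥ y, ?_⟩
  have h0 := congrFun h 0
  have h1 := congrFun h 1
  have h2 := congrFun h 2
  rw [cr0, Pi.zero_apply] at h0
  rw [cr1, Pi.zero_apply] at h1
  rw [cr2, Pi.zero_apply] at h2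
  have key : (y ⬝ᵥ y) • x = (x ⬝ᵥ y) • y := by
    refine ext3 ?_ ?_ ?_ <;> simp only [Pi.smul_apply, smul_eq_mul, dt]
    · linear_combination y 1 * h2 - y 2 * h1
    · linear_combination y 2 * h0 - y 0 * h2
    · linear_combination y 0 * h1 - y 1 * h0
  calc x = (y ⬝ᵥ y)⁻¹ • ((y ⬝ᵥ y) • x) := by rw [smul_smul, inv_mul_cancel₀ hd, one_smul]
    _ = (x ⬝ᵥ y / y ⬝ᵥ y) • y := by
        rw [key, smul_smul]
        congr 1
        ring

theorem cross_pair {w x y : R3} (h : cr x y ≠ 0) (h1 : cr w x = 0) (h2 : cr w y = 0) : w = 0 := by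
  by_contra hw
  obtain ⟨a, ha⟩ := par hw (x := x) (by
    have : cr x w = - cr w x := by
      refine ext3 ?_ ?_ ?_ <;> simp only [cr0, cr1, cr2, Pi.neg_apply] <;> ring
    rw [this, h1, neg_zero])
  obtain ⟨b, hb⟩ := par hw (x := y) (by
    have : cr y w = - cr w y := by
      refine ext3 ?_ ?_ ?_ <;> simp only [cr0, cr1, cr2, Pi.neg_apply] <;> ring
    rw [this, h2, neg_zero])
  apply h
  rw [ha, hb]
  refine ext3 ?_ ?_ ?_ <;>
    simp only [cr0, cr1, cr2, Pi.smul_apply, smul_eq_mul, Pi.zero_apply] <;> ring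

/-! ### twists -/

theorem ev_neg (m : Tw) (x : R3) : ev (-m) x = - ev m x := by
  show cr (-m.1) x + (-m.2) = -(cr m.1 x + m.2)
  rw [cr_neg_left]
  abel

theorem ev_zero (x : R3) : ev 0 x = 0 := by
  show cr 0 x + 0 = 0
  refine ext3 ?_ ?_ ?_ <;>
    simp only [cr0, cr1, cr2, Pi.add_apply, Pi.zero_apply] <;> ring

theorem ev_sub (m : Tw) (x y : R3) : ev m x - ev m y = cr m.1 (x - y) := by
  show (cr m.1 x + m.2) - (cr m.1 y + m.2) = _
  rw [cr_sub_right]
  abel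

theorem tw_zero {m : Tw} {x : R3} (h1 : m.1 = 0) (h2 : ev m x = 0) : m = 0 := by
  have h3 : m.2 = 0 := by
    have : ev m x = m.2 := by
      show cr m.1 x + m.2 = m.2
      rw [h1]
      refine ext3 ?_ ?_ ?_ <;>
        simp only [cr0, cr1, cr2, Pi.add_apply, Pi.zero_apply] <;> ring
    rw [← this, h2]
  exact Prod.ext h1 h3

/-- (T2) -/
theorem T2 {m : Tw} {x y z : R3} (h : cr (y - x) (z - x) ≠ 0) (hx : ev m x = 0) (hy : ev m y = 0)
    (hz : ev m z = 0) : m = 0 := by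
  refine tw_zero (cross_pair h ?_ ?_) hx
  · rw [← ev_sub, hy, hx, sub_zero]
  · rw [← ev_sub, hz, hx, sub_zero]

/-- (T3) -/
theorem T3 (m : Tw) (u w : R3) : kl m (Ln u w) = (w - u) ⬝ᵥ ev m u := by
  show m.1 ⬝ᵥ cr u w + (w - u) ⬝ᵥ m.2 = (w - u) ⬝ᵥ (cr m.1 u + m.2)
  simp only [dt, cr0, cr1, cr2, Pi.add_apply, Pi.sub_apply]
  ring

theorem T3' (m : Tw) (u w : R3) : kl m (Ln u w) = (w - u) ⬝ᵥ ev m w := by
  show m.1 ⬝ᵥ cr u w + (w - u) ⬝ᵥ m.2 = (w - u) ⬝ᵥ (cr m.1 w + m.2)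
  simp only [dt, cr0, cr1, cr2, Pi.add_apply, Pi.sub_apply]
  ring

/-! ### general position -/

theorem D3_sub (D : Derivation ℚ ℝ ℝ) (x y : R3) : D3 D (x - y) = D3 D x - D3 D y := by
  funext i
  exact D.map_sub _ _

theorem D3_zero (D : Derivation ℚ ℝ ℝ) : D3 D 0 = 0 := by
  funext i
  exact D.map_zero

theorem D_dot (D : Derivation ℚ ℝ ℝ) (x y : R3) :
    D (x ⬝ᵥ y) = D3 D x ⬝ᵥ y + x ⬝ᵥ D3 D y := by
  simp only [dt, D3, map_add, Derivation.leibniz, smul_eq_mul]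
  ring

theorem D_cr (D : Derivation ℚ ℝ ℝ) (x y : R3) :
    D3 D (cr x y) = cr (D3 D x) y + cr x (D3 D y) := by
  refine ext3 ?_ ?_ ?_ <;>
    simp only [D3, cr0, cr1, cr2, Pi.add_apply, map_sub, Derivation.leibniz, smul_eq_mul] <;> ring

variable {V : Type} {p : V → R3}

theorem exD (hp : Gn p) (v : V) (δ : R3) :
    ∃ D : Derivation ℚ ℝ ℝ, D3 D (p v) = δ ∧ ∀ u, u ≠ v → D3 D (p u) = 0 := by
  classical
  obtain ⟨D, hD⟩ := hp (fun u => if u = v then δ else 0)
  refine ⟨D, ?_, fun u hu => ?_⟩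
  · rw [hD, if_pos rfl]
  · rw [hD, if_neg hu]

theorem gp2 (hp : Gn p) {a b : V} (hab : a ≠ b) : p b - p a ≠ 0 := by
  intro h
  obtain ⟨D, hD, hD'⟩ := exD hp b (fun _ => 1)
  have h1 : D3 D (p b - p a) = 0 := by rw [h, D3_zero]
  rw [D3_sub, hD, hD' a hab, sub_zero] at h1
  have := congrFun h1 0
  simp at this

theorem gp3 (hp : Gn p) {a b c : V} (hab : a ≠ b) (hac : a ≠ c) (hbc : b ≠ c) :
    cr (p b - p a) (p c - p a) ≠ 0 := by
  intro h
  have key : ∀ δ : R3, cr δ (p c - p a) = 0 := by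
    intro δ
    obtain ⟨D, hD, hD'⟩ := exD hp b δ
    have h1 : D3 D (cr (p b - p a) (p c - p a)) = 0 := by rw [h, D3_zero]
    rw [D_cr, D3_sub, D3_sub, hD, hD' a hab, hD' c hbc.symm, sub_zero, sub_zero] at h1
    rw [← h1]
    refine ext3 ?_ ?_ ?_ <;>
      simp only [cr0, cr1, cr2, Pi.add_apply, Pi.zero_apply] <;> ring
  apply gp2 hp hac
  have k0 := key ![1, 0, 0]
  have k1 := key ![0, 1, 0]
  have a1 := congrFun k0 1
  have a2 := congrFun k0 2
  have a3 := congrFun k1 2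
  rw [cr1] at a1
  rw [cr2] at a2 a3
  simp at a1 a2 a3
  refine ext3 ?_ ?_ ?_
  · simp only [Pi.sub_apply, Pi.zero_apply]
    linarith
  · simp only [Pi.sub_apply, Pi.zero_apply]
    linarith
  · simp only [Pi.sub_apply, Pi.zero_apply]
    linarith

theorem gp4 (hp : Gn p) {a b c d : V} (hab : a ≠ b) (hac : a ≠ c) (had : a ≠ d) (hbc : b ≠ c)
    (hbd : b ≠ d) (hcd : c ≠ d) : (p b - p a) ⬝ᵥ cr (p c - p a) (p d - p a) ≠ 0 := by
  intro h
  apply gp3 hp hac had hcd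
  have key : ∀ δ : R3, δ ⬝ᵥ cr (p c - p a) (p d - p a) = 0 := by
    intro δ
    obtain ⟨D, hD, hD'⟩ := exD hp b δ
    have h1 : D ((p b - p a) ⬝ᵥ cr (p c - p a) (p d - p a)) = 0 := by rw [h, map_zero]
    rw [D_dot, D_cr, D3_sub, D3_sub, D3_sub, hD, hD' a hab, hD' c hbc.symm, hD' d hbd.symm,
      sub_zero, sub_zero] at h1
    rw [← h1]
    simp only [dt, cr0, cr1, cr2, Pi.add_apply, Pi.zero_apply, Pi.sub_apply]
    ring
  exact dotProduct_self_eq_zero.1 (key _)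

/-! ### the three cases -/

theorem geom_ab (hp : Gn p) {v x y z : V} {l : Tw} {C1 C2 : ℝ} (hvx : v ≠ x) (hvy : v ≠ y)
    (hvz : v ≠ z) (hxy : x ≠ y) (hxz : x ≠ z) (h1 : C1 ≠ 0) (hv : ev l (p v) = 0)
    (hy : ev l (p y) = 0) (hs : C1 • ev (-l) (p x) + C2 • ev l (p z) = 0) : l = 0 := by
  -- `l` is a rotation about the line `v y`
  have hl : cr l.1 (p y - p v) = 0 := by rw [← ev_sub, hy, hv, sub_zero]
  obtain ⟨b, hb⟩ := par (gp2 hp hvy) hl
  have hex : ∀ u : V, ev l (p u) = b • cr (p y - p v) (p u - p v) := by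
    intro u
    have : ev l (p u) = cr l.1 (p u - p v) := by rw [← ev_sub, hv, sub_zero]
    rw [this, hb, cr_smul_left]
  refine tw_zero (x := p v) ?_ hv
  rw [ev_neg, hex x, hex z] at hs
  have hb0 : b = 0 := by
    by_contra hb0
    by_cases hyz : y = z
    · subst hyz
      have h5 : cr (p y - p v) (p y - p v) = 0 := by
        refine ext3 ?_ ?_ ?_ <;> simp only [cr0, cr1, cr2, Pi.zero_apply] <;> ring
      rw [h5, smul_zero, smul_zero, add_zero, smul_neg, neg_eq_zero, smul_eq_zero,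
        smul_eq_zero] at hs
      rcases hs with h6 | h6 | h6
      · exact h1 h6
      · exact hb0 h6
      · exact gp3 hp hvy hvx hxy.symm h6
    · have h7 := congrArg (fun q => (p z - p v) ⬝ᵥ q) hs
      simp only [dotProduct_add, dotProduct_smul, dotProduct_neg, dotProduct_zero,
        smul_eq_mul] at h7
      have h8 : (p z - p v) ⬝ᵥ cr (p y - p v) (p z - p v) = 0 := by
        simp only [dt, cr0, cr1, cr2, Pi.sub_apply]
        ring
      rw [h8] at h7
      have h9 : C1 * b * ((p z - p v) ⬝ᵥ cr (p y - p v) (p x - p v)) = 0 := by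
        linear_combination -h7
      rcases mul_eq_zero.1 h9 with h10 | h10
      · rcases mul_eq_zero.1 h10 with h11 | h11
        · exact h1 h11
        · exact hb0 h11
      · exact gp4 hp hvz hvy hvx (Ne.symm hyz) hxz.symm hxy.symm h10
  rw [hb, hb0, zero_smul]

theorem vec_bb {a o W Z1 Z2 : R3} {C0 C1 C2 : ℝ} (hd : W ⬝ᵥ cr Z1 Z2 ≠ 0) (h0 : C0 ≠ 0)
    (h2 : C2 ≠ 0) (hZ2 : Z2 ≠ 0) (e1 : a ⬝ᵥ W = 0) (e2 : a ⬝ᵥ Z1 = 0)
    (e3 : (Z2 - W) ⬝ᵥ (a + cr o W) = 0) (e4 : C0 • (a + cr o W) = C1 • (a + cr o Z1))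
    (e5 : C0 • a = C2 • (a + cr o Z2)) : a = 0 ∧ o = 0 := by
  have f5 : C0 * (a ⬝ᵥ Z2) = C2 * (a ⬝ᵥ Z2) := by
    have h := congrArg (fun q => q ⬝ᵥ Z2) e5
    simp only [smul_dotProduct, add_dotProduct, smul_eq_mul] at h
    have h' : cr o Z2 ⬝ᵥ Z2 = 0 := by
      simp only [dt, cr0, cr1, cr2]
      ring
    rw [h', add_zero] at h
    exact h
  have key : a = 0 ∧ cr o Z2 = 0 := by
    by_cases hC : C0 = C2
    · have h3 : cr o Z2 = 0 := by
        rw [hC, smul_add] at e5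
        have h4 : C2 • cr o Z2 = 0 := by
          have := e5
          rw [left_eq_add] at this
          exact this
        exact (smul_eq_zero.1 h4).resolve_left h2
      obtain ⟨b, hb⟩ := par hZ2 h3
      have h4 : a ⬝ᵥ Z2 = 0 := by
        rw [hb] at e3
        simp only [dt, cr0, cr1, cr2, Pi.add_apply, Pi.sub_apply, Pi.smul_apply,
          smul_eq_mul] at e3 e1 ⊢
        linear_combination e3 + e1
      exact ⟨dots_zero hd e1 e2 h4, h3⟩
    · have h4 : a ⬝ᵥ Z2 = 0 := by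
        have h5 : (C0 - C2) * (a ⬝ᵥ Z2) = 0 := by linear_combination f5
        exact (mul_eq_zero.1 h5).resolve_left (sub_ne_zero.2 hC)
      have ha := dots_zero hd e1 e2 h4
      rw [ha, smul_zero, zero_add] at e5
      exact ⟨ha, (smul_eq_zero.1 e5.symm).resolve_left h2⟩
  obtain ⟨ha, h3⟩ := key
  refine ⟨ha, ?_⟩
  obtain ⟨b, hb⟩ := par hZ2 h3
  rw [ha, zero_add, zero_add, hb] at e4
  have h6 := congrArg (fun q => q ⬝ᵥ Z1) e4
  simp only [smul_dotProduct, smul_eq_mul] at h6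
  have h7 : cr (b • Z2) Z1 ⬝ᵥ Z1 = 0 := by
    simp only [dt, cr0, cr1, cr2, Pi.smul_apply, smul_eq_mul]
    ring
  have h8 : cr (b • Z2) W ⬝ᵥ Z1 = b * (W ⬝ᵥ cr Z1 Z2) := by
    simp only [dt, cr0, cr1, cr2, Pi.smul_apply, smul_eq_mul]
    ring
  rw [h7, h8, mul_zero] at h6
  have h9 : b = 0 := by
    rcases mul_eq_zero.1 h6 with h | h
    · exact absurd h h0
    · exact (mul_eq_zero.1 h).resolve_right hd
  rw [hb, h9, zero_smul]

theorem geom_bb (hp : Gn p) {v w y z : V} {l : Tw} {C0 C1 C2 : ℝ} (hvw : v ≠ w) (hvy : v ≠ y)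
    (hvz : v ≠ z) (hwy : w ≠ y) (hwz : w ≠ z) (hyz : y ≠ z) (h0 : C0 ≠ 0) (h2 : C2 ≠ 0)
    (k0 : kl l (Ln (p v) (p w)) = 0) (k1 : kl l (Ln (p v) (p y)) = 0)
    (k2 : kl l (Ln (p w) (p z)) = 0) (s1 : C0 • ev l (p w) + C1 • ev (-l) (p y) = 0)
    (s2 : C0 • ev (-l) (p v) + C2 • ev l (p z) = 0) : l = 0 := by
  have hex : ∀ u : V, ev l (p u) = ev l (p v) + cr l.1 (p u - p v) := by
    intro u
    rw [← ev_sub]
    abel
  rw [T3] at k0 k1
  rw [T3] at k2
  rw [ev_neg] at s1 s2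
  have := vec_bb (a := ev l (p v)) (o := l.1) (W := p w - p v) (Z1 := p y - p v)
    (Z2 := p z - p v) (C0 := C0) (C1 := C1) (C2 := C2) (gp4 hp hvw hvy hvz hwy hwz hyz) h0 h2
    (gp2 hp hvz) (by rw [dotProduct_comm]; exact k0) (by rw [dotProduct_comm]; exact k1)
    (by rw [← hex w, sub_sub_sub_cancel_right]; exact k2)
    (by
      rw [← hex w, ← hex y]
      rw [smul_neg] at s1
      exact eq_of_sub_eq_zero (by rw [sub_eq_add_neg]; exact s1))
    (by
      rw [← hex z]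
      rw [smul_neg, neg_add_eq_zero] at s2
      exact s2)
  exact tw_zero (x := p v) this.2 this.1

/-! ### sums -/

variable {K : Type} [Fintype V]

theorem out_two {c : V → K} {lam : V → V → Tw} {X : K} {z₁ z₂ : V × V} (hne : z₁ ≠ z₂)
    (h1 : c z₁.1 = X) (h2 : c z₂.1 = X)
    (h : ∀ u w, c u = X → lam u w ≠ 0 → (u, w) = z₁ ∨ (u, w) = z₂) :
    out c lam X = lam z₁.1 z₁.2 + lam z₂.1 z₂.2 := by
  classical
  have e1 : out c lam X = ∑ z : V × V, if c z.1 = X then lam z.1 z.2 else 0 := by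
    rw [Fintype.sum_prod_type]
    unfold out
    refine Finset.sum_congr rfl fun u _ => ?_
    by_cases hu : c u = X
    · rw [Set.indicator_of_mem (show u ∈ {u | c u = X} from hu)]
      refine Finset.sum_congr rfl fun w _ => ?_
      rw [if_pos hu]
    · rw [Set.indicator_of_notMem (show u ∉ {u | c u = X} from hu)]
      symm
      exact Finset.sum_eq_zero fun w _ => if_neg hu
  rw [e1, Fintype.sum_eq_add z₁ z₂ hne, if_pos h1, if_pos h2]
  rintro ⟨u, w⟩ ⟨hz1, hz2⟩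
  by_cases hu : c u = X
  · rw [if_pos hu]
    by_contra hl
    rcases h u w hu hl with h' | h'
    · exact hz1 h'
    · exact hz2 h'
  · exact if_neg hu

theorem star_one {p : V → R3} {C : V → V → ℝ} {lam : V → V → Tw} {v x : V}
    (h : ∀ w, lam v w ≠ 0 → w = x) (hs : ∑ w, C v w • ev (lam v w) (p w) = 0)
    (hC : C v x ≠ 0) : ev (lam v x) (p x) = 0 := by
  rw [Fintype.sum_eq_single x] at hs
  · exact (smul_eq_zero.1 hs).resolve_left hC
  · intro w hw
    have : lam v w = 0 := by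
      by_contra h'
      exact hw (h w h')
    rw [this, ev_zero, smul_zero]

theorem star_two {p : V → R3} {C : V → V → ℝ} {lam : V → V → Tw} {v x y : V} (hxy : x ≠ y)
    (h : ∀ w, lam v w ≠ 0 → w = x ∨ w = y) (hs : ∑ w, C v w • ev (lam v w) (p w) = 0) :
    C v x • ev (lam v x) (p x) + C v y • ev (lam v y) (p y) = 0 := by
  rw [Fintype.sum_eq_add x y hxy] at hs
  · exact hs
  · rintro w ⟨hw1, hw2⟩
    have : lam v w = 0 := by
      by_contra h'
      rcases h w h' with h' | h'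
      · exact hw1 h'
      · exact hw2 h'
    rw [this, ev_zero, smul_zero]

end lemNAux

open lemNAux

theorem lemN : S_LemN := by
  intro V K _ G c p C lam X₁ X₂ x₁ x₂ x₁' x₂' y₁ y₂ hp hG hanti horth hsupp hC hC0 hdbl hstar ho1
    ho2 hX hcx1 hcx2 hcx1' hcx2' hne1 hne2 h1 h2 h3 hs1 hs2
  have h1' : lam x₂ x₁ ≠ 0 := by
    rw [hanti]
    exact neg_ne_zero.2 h1
  -- equilibrium
  have e1 : lam x₁' y₁ = - lam x₁ x₂ := by
    have h := out_two (z₁ := (x₁, x₂)) (z₂ := (x₁', y₁)) (Ne.symm hne1) hcx1 hcx1' hs1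
    rw [ho1] at h
    exact eq_neg_of_add_eq_zero_right h.symm
  have e2 : lam x₂ x₁ = - lam x₁ x₂ := hanti _ _
  have e3 : lam x₂' y₂ = lam x₁ x₂ := by
    have h := out_two (z₁ := (x₂, x₁)) (z₂ := (x₂', y₂)) (Ne.symm hne2) hcx2 hcx2' hs2
    rw [ho2] at h
    have h' := eq_neg_of_add_eq_zero_right h.symm
    rw [h']
    simp only [e2, neg_neg]
  -- classes
  have cy11 : c y₁ ≠ X₁ := fun h => (hsupp _ _ h2).2 (hcx1'.trans h.symm)
  have cy12 : c y₁ ≠ X₂ := by
    intro h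
    obtain ⟨ha, hb⟩ := hdbl x₁ x₂ x₁' y₁ h1 h2 (hcx1.trans hcx1'.symm) (hcx2.trans h.symm)
    exact hne1 (by rw [ha, hb])
  have cy22 : c y₂ ≠ X₂ := fun h => (hsupp _ _ h3).2 (hcx2'.trans h.symm)
  have cy21 : c y₂ ≠ X₁ := by
    intro h
    obtain ⟨ha, hb⟩ := hdbl x₂ x₁ x₂' y₂ h1' h3 (hcx2.trans hcx2'.symm) (hcx1.trans h.symm)
    exact hne2 (by rw [ha, hb])
  have n12 : x₁ ≠ x₂ := fun h => hX (by rw [← hcx1, ← hcx2, h])
  have n1y1 : x₁ ≠ y₁ := fun h => cy11 (by rw [← h, hcx1])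
  have n1y2 : x₁ ≠ y₂ := fun h => cy21 (by rw [← h, hcx1])
  have n2y1 : x₂ ≠ y₁ := fun h => cy12 (by rw [← h, hcx2])
  have n2y2 : x₂ ≠ y₂ := fun h => cy22 (by rw [← h, hcx2])
  apply h1
  by_cases hx1 : x₁ = x₁'
  · subst hx1
    by_cases hx2 : x₂ = x₂'
    · -- (bb)
      subst hx2
      have s1 := star_two (p := p) (v := x₁) n2y1 (fun w hw => by
        rcases hs1 x₁ w hcx1 hw with h | h
        · exact Or.inl (congrArg Prod.snd h)
        · exact Or.inr (congrArg Prod.snd h)) (hstar x₁ (Or.inl hcx1))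
      have s2 := star_two (p := p) (v := x₂) n1y2 (fun w hw => by
        rcases hs2 x₂ w hcx2 hw with h | h
        · exact Or.inl (congrArg Prod.snd h)
        · exact Or.inr (congrArg Prod.snd h)) (hstar x₂ (Or.inr hcx2))
      rw [e1] at s1
      rw [e2, e3, hC x₂ x₁] at s2
      have hyy : y₁ ≠ y₂ := by
        rintro rfl
        exact hG x₁ x₂ y₁ ⟨(hsupp _ _ h1).1, (hsupp _ _ h3).1, (hsupp _ _ h2).1.symm⟩
      have k1 : kl (lam x₁ x₂) (Ln (p x₁) (p y₁)) = 0 := by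
        have h := horth x₁ y₁
        rw [e1] at h
        rw [T3, ev_neg, dotProduct_neg, neg_eq_zero] at h
        rw [T3]
        exact h
      have k2 : kl (lam x₁ x₂) (Ln (p x₂) (p y₂)) = 0 := by
        have h := horth x₂ y₂
        rw [e3] at h
        exact h
      exact geom_bb hp n12 n1y1 n1y2 n2y1 n2y2 hyy (hC0 _ _ h1) (hC0 _ _ h3) (horth x₁ x₂) k1 k2
        s1 s2
    · -- (ba)
      have s1 := star_two (p := p) (v := x₁) n2y1 (fun w hw => by
        rcases hs1 x₁ w hcx1 hw with h | h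
        · exact Or.inl (congrArg Prod.snd h)
        · exact Or.inr (congrArg Prod.snd h)) (hstar x₁ (Or.inl hcx1))
      have s2 := star_one (p := p) (v := x₂) (x := x₁) (fun w hw => by
        rcases hs2 x₂ w hcx2 hw with h | h
        · exact congrArg Prod.snd h
        · exact absurd (congrArg Prod.fst h) hx2) (hstar x₂ (Or.inr hcx2)) (hC0 _ _ h1')
      have s3 := star_one (p := p) (v := x₂') (x := y₂) (fun w hw => by
        rcases hs2 x₂' w hcx2' hw with h | h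
        · exact absurd (congrArg Prod.fst h).symm hx2
        · exact congrArg Prod.snd h) (hstar x₂' (Or.inr hcx2')) (hC0 _ _ h3)
      rw [e1] at s1
      rw [e2] at s2
      rw [e3] at s3
      have h := geom_ab (p := p) (v := x₁) (x := x₂) (y := y₂) (z := y₁) (l := - lam x₁ x₂)
        hp n12 n1y2 n1y1 n2y2 n2y1 (hC0 _ _ h1) s2 (by rw [ev_neg, s3, neg_zero])
        (by rw [neg_neg]; exact s1)
      rw [neg_eq_zero] at h
      exact h
  · have s1 := star_one (p := p) (v := x₁) (x := x₂) (fun w hw => by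
      rcases hs1 x₁ w hcx1 hw with h | h
      · exact congrArg Prod.snd h
      · exact absurd (congrArg Prod.fst h) hx1) (hstar x₁ (Or.inl hcx1)) (hC0 _ _ h1)
    have s2 := star_one (p := p) (v := x₁') (x := y₁) (fun w hw => by
      rcases hs1 x₁' w hcx1' hw with h | h
      · exact absurd (congrArg Prod.fst h).symm hx1
      · exact congrArg Prod.snd h) (hstar x₁' (Or.inl hcx1')) (hC0 _ _ h2)
    rw [e1, ev_neg, neg_eq_zero] at s2
    by_cases hx2 : x₂ = x₂'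
    · -- (ab)
      subst hx2
      have s3 := star_two (p := p) (v := x₂) n1y2 (fun w hw => by
        rcases hs2 x₂ w hcx2 hw with h | h
        · exact Or.inl (congrArg Prod.snd h)
        · exact Or.inr (congrArg Prod.snd h)) (hstar x₂ (Or.inr hcx2))
      rw [e2, e3] at s3
      exact geom_ab (p := p) (v := x₂) (x := x₁) (y := y₁) (z := y₂) (l := lam x₁ x₂)
        hp n12.symm n2y1 n2y2 n1y1 n1y2 (hC0 _ _ h1') s1 s2 s3
    · -- (aa)
      have s3 := star_one (p := p) (v := x₂) (x := x₁) (fun w hw => by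
        rcases hs2 x₂ w hcx2 hw with h | h
        · exact congrArg Prod.snd h
        · exact absurd (congrArg Prod.fst h) hx2) (hstar x₂ (Or.inr hcx2)) (hC0 _ _ h1')
      rw [e2, ev_neg, neg_eq_zero] at s3
      exact T2 (gp3 hp n12 n1y1 n2y1) s3 s1 s2

end Pool.Agent.MPf1f412
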