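import Pool.Agent.Lib.MP_f1f412_co.Spec1

/-!
# MP_f1f412_co (C34): a lower bound for the dimension of the space of motions
-/

set_option autoImplicit false

namespace Pool.Agent.MPf1f412

namespace lowAux

open Matrix

theorem Ln_swap (x y : R3) : Ln x y = - Ln y x := by
  unfold Ln
  refine Prod.ext ?_ ?_
  · change y - x = -(x - y)
    abel
  · change crossProduct x y = -(crossProduct y x)
    exact (cross_anticomm y x).symm

theorem p_ne {V : Type} {p : V → R3} (hp : Gn p) {u w : V} (h : u ≠ w) : p u ≠ p w := by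
  classical
  intro he
  obtain ⟨D, hD⟩ := hp (fun x => if x = u then (fun _ => 1) else 0)
  have h1 := hD u
  have h2 := hD w
  rw [if_pos rfl] at h1
  rw [if_neg (Ne.symm h)] at h2
  rw [he, h2] at h1
  have h3 := congrFun h1 0
  simp at h3

theorem Ln_ne {V : Type} {p : V → R3} (hp : Gn p) {u w : V} (h : u ≠ w) :
    Ln (p u) (p w) ≠ 0 := by
  intro h1
  have h2 : p w - p u = 0 := congrArg Prod.fst h1
  exact p_ne hp h (sub_eq_zero.1 h2).symm

theorem fin_Mot {V K : Type} (G : SimpleGraph V) (c : V → K) (p : V → R3) {S : Set K}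
    (hS : S.Finite) : Module.Finite ℝ (Mot G c p S) := by
  classical
  haveI : Finite S := hS.to_subtype
  let φ : Mot G c p S →ₗ[ℝ] (S → Tw) :=
    { toFun := fun m X => m.1 X.1
      map_add' := fun a b => rfl
      map_smul' := fun r a => rfl }
  refine Module.Finite.of_injective φ ?_
  refine (injective_iff_map_eq_zero φ).2 fun m hm => ?_
  refine Subtype.ext (funext fun X => ?_)
  by_cases hX : X ∈ S
  · exact congrFun hm ⟨X, hX⟩
  · exact m.2.2 X hX

theorem main {V K J : Type} [Fintype V] (G : SimpleGraph V) (c : V → K) (p : V → R3)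
    (S : Set K) (f : K → J) (hS : S.Finite) (hp : Gn p) :
    6 * (f '' S).ncard ≤ dmo G c p S + 5 * ef G c S f := by
  classical
  haveI hfinM := fin_Mot G c p hS
  have hFf : (f '' S).Finite := hS.image f
  haveI : Fintype (f '' S) := hFf.fintype
  set Z : Set (Sym2 V) :=
    {z : Sym2 V | ∃ u w, z = s(u, w) ∧ Cre G c S u w ∧ f (c u) ≠ f (c w)} with hZ
  have hZf : Z.Finite := Set.toFinite Z
  haveI : Fintype Z := hZf.fintype
  have hch : ∀ z : Z, ∃ e : V × V, z.1 = s(e.1, e.2) ∧ Cre G c S e.1 e.2 ∧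
      f (c e.1) ≠ f (c e.2) := by
    rintro ⟨z, u, w, h1, h2, h3⟩
    exact ⟨(u, w), h1, h2, h3⟩
  choose e he1 he2 he3 using hch
  have hcS : ∀ z : Z, c (e z).1 ∈ S := fun z => (he2 z).2.1
  have hcS' : ∀ z : Z, c (e z).2 ∈ S := fun z => (he2 z).2.2.1
  let L : Z → Tw := fun z => Ln (p (e z).1) (p (e z).2)
  have hL : ∀ z, L z ≠ 0 := fun z => Ln_ne hp (he2 z).1.ne
  let Ψ : ((f '' S) → Tw) →ₗ[ℝ] (∀ z : Z, Tw ⧸ Submodule.span ℝ {L z}) :=
    LinearMap.pi fun z => (Submodule.mkQ (Submodule.span ℝ {L z})).comp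
      ((LinearMap.proj (⟨f (c (e z).1), Set.mem_image_of_mem f (hcS z)⟩ : f '' S) :
          ((f '' S) → Tw) →ₗ[ℝ] Tw) -
        LinearMap.proj (⟨f (c (e z).2), Set.mem_image_of_mem f (hcS' z)⟩ : f '' S))
  have hdim := LinearMap.finrank_range_add_finrank_ker Ψ
  have hd1 : Module.finrank ℝ ((f '' S) → Tw) = 6 * (f '' S).ncard := by
    have h6 : Module.finrank ℝ Tw = 6 := by
      rw [Module.finrank_prod, Module.finrank_fin_fun]
    rw [Module.finrank_pi_fintype, Finset.sum_const, h6, Finset.card_univ,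
      ← Nat.card_eq_fintype_card, Nat.card_coe_set_eq, smul_eq_mul, mul_comm]
  have hd2 : Module.finrank ℝ (LinearMap.range Ψ) ≤ 5 * Z.ncard := by
    refine (Submodule.finrank_le _).trans ?_
    have h5 : ∀ z : Z, Module.finrank ℝ (Tw ⧸ Submodule.span ℝ {L z}) = 5 := by
      intro z
      have h6 : Module.finrank ℝ Tw = 6 := by
        rw [Module.finrank_prod, Module.finrank_fin_fun]
      have h7 := Submodule.finrank_quotient_add_finrank (Submodule.span ℝ {L z})
      rw [finrank_span_singleton (hL z), h6] at h7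
      omega
    rw [Module.finrank_pi_fintype, Finset.sum_congr rfl (fun z _ => h5 z), Finset.sum_const,
      Finset.card_univ, ← Nat.card_eq_fintype_card, Nat.card_coe_set_eq, smul_eq_mul, mul_comm]
  -- the map to the motions
  have hmot : ∀ n ∈ LinearMap.ker Ψ,
      (fun X => if h : X ∈ S then n (⟨f X, Set.mem_image_of_mem f h⟩ : f '' S) else 0) ∈
        Mot G c p S := by
    intro n hn
    have hn' : ∀ z : Z, ∃ t : ℝ,
        n ⟨f (c (e z).1), Set.mem_image_of_mem f (hcS z)⟩ -
          n ⟨f (c (e z).2), Set.mem_image_of_mem f (hcS' z)⟩ = t • L z := by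
      intro z
      have h1 := congrFun (LinearMap.mem_ker.1 hn) z
      have h2 : n ⟨f (c (e z).1), Set.mem_image_of_mem f (hcS z)⟩ -
          n ⟨f (c (e z).2), Set.mem_image_of_mem f (hcS' z)⟩ ∈ Submodule.span ℝ {L z} :=
        (Submodule.Quotient.mk_eq_zero _).1 h1
      obtain ⟨t, ht⟩ := Submodule.mem_span_singleton.1 h2
      exact ⟨t, ht.symm⟩
    refine ⟨?_, fun X hX => dif_neg hX⟩
    intro u w huw
    dsimp only
    rw [dif_pos huw.2.1, dif_pos huw.2.2.1]
    by_cases hf : f (c u) = f (c w)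
    · refine ⟨0, ?_⟩
      rw [zero_smul, sub_eq_zero]
      congr 1
      exact Subtype.ext hf
    · have hz : s(u, w) ∈ Z := ⟨u, w, rfl, huw, hf⟩
      obtain ⟨t, ht⟩ := hn' ⟨s(u, w), hz⟩
      have h1 := he1 ⟨s(u, w), hz⟩
      rw [Sym2.eq_iff] at h1
      rcases h1 with ⟨h1, h2⟩ | ⟨h1, h2⟩
      · refine ⟨t, ?_⟩
        have h3 : (⟨f (c u), Set.mem_image_of_mem f huw.2.1⟩ : f '' S) =
            ⟨f (c (e ⟨s(u, w), hz⟩).1), Set.mem_image_of_mem f (hcS ⟨s(u, w), hz⟩)⟩ := by
          refine Subtype.ext ?_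
          change f (c u) = f (c (e ⟨s(u, w), hz⟩).1)
          rw [← h1]
        have h4 : (⟨f (c w), Set.mem_image_of_mem f huw.2.2.1⟩ : f '' S) =
            ⟨f (c (e ⟨s(u, w), hz⟩).2), Set.mem_image_of_mem f (hcS' ⟨s(u, w), hz⟩)⟩ := by
          refine Subtype.ext ?_
          change f (c w) = f (c (e ⟨s(u, w), hz⟩).2)
          rw [← h2]
        rw [h3, h4, ht]
        change t • Ln (p (e ⟨s(u, w), hz⟩).1) (p (e ⟨s(u, w), hz⟩).2) = _
        rw [← h1, ← h2]
      · refine ⟨t, ?_⟩
        have h3 : (⟨f (c u), Set.mem_image_of_mem f huw.2.1⟩ : f '' S) =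
            ⟨f (c (e ⟨s(u, w), hz⟩).2), Set.mem_image_of_mem f (hcS' ⟨s(u, w), hz⟩)⟩ := by
          refine Subtype.ext ?_
          change f (c u) = f (c (e ⟨s(u, w), hz⟩).2)
          rw [← h1]
        have h4 : (⟨f (c w), Set.mem_image_of_mem f huw.2.2.1⟩ : f '' S) =
            ⟨f (c (e ⟨s(u, w), hz⟩).1), Set.mem_image_of_mem f (hcS ⟨s(u, w), hz⟩)⟩ := by
          refine Subtype.ext ?_
          change f (c w) = f (c (e ⟨s(u, w), hz⟩).1)
          rw [← h2]
        rw [h3, h4, ← neg_sub, ht]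
        change -(t • Ln (p (e ⟨s(u, w), hz⟩).1) (p (e ⟨s(u, w), hz⟩).2)) = _
        rw [← h1, ← h2, Ln_swap (p w) (p u), smul_neg, neg_neg]
  let ι : LinearMap.ker Ψ →ₗ[ℝ] Mot G c p S :=
    { toFun := fun n => ⟨fun X => if h : X ∈ S then
          n.1 (⟨f X, Set.mem_image_of_mem f h⟩ : f '' S) else 0, hmot n.1 n.2⟩
      map_add' := by
        intro a b
        refine Subtype.ext (funext fun X => ?_)
        by_cases hX : X ∈ S
        · change (if h : X ∈ S then (a.1 + b.1) (⟨f X, Set.mem_image_of_mem f h⟩ : f '' S) else 0)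
            = (if h : X ∈ S then a.1 (⟨f X, Set.mem_image_of_mem f h⟩ : f '' S) else 0) +
              (if h : X ∈ S then b.1 (⟨f X, Set.mem_image_of_mem f h⟩ : f '' S) else 0)
          rw [dif_pos hX, dif_pos hX, dif_pos hX]
          rfl
        · change (if h : X ∈ S then (a.1 + b.1) (⟨f X, Set.mem_image_of_mem f h⟩ : f '' S) else 0)
            = (if h : X ∈ S then a.1 (⟨f X, Set.mem_image_of_mem f h⟩ : f '' S) else 0) +
              (if h : X ∈ S then b.1 (⟨f X, Set.mem_image_of_mem f h⟩ : f '' S) else 0)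
          rw [dif_neg hX, dif_neg hX, dif_neg hX, add_zero]
      map_smul' := by
        intro r a
        refine Subtype.ext (funext fun X => ?_)
        by_cases hX : X ∈ S
        · change (if h : X ∈ S then (r • a.1) (⟨f X, Set.mem_image_of_mem f h⟩ : f '' S) else 0)
            = r • (if h : X ∈ S then a.1 (⟨f X, Set.mem_image_of_mem f h⟩ : f '' S) else 0)
          rw [dif_pos hX, dif_pos hX]
          rfl
        · change (if h : X ∈ S then (r • a.1) (⟨f X, Set.mem_image_of_mem f h⟩ : f '' S) else 0)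
            = r • (if h : X ∈ S then a.1 (⟨f X, Set.mem_image_of_mem f h⟩ : f '' S) else 0)
          rw [dif_neg hX, dif_neg hX, smul_zero] }
  have hι : Function.Injective ι := by
    refine (injective_iff_map_eq_zero ι).2 fun n hn => ?_
    refine Subtype.ext (funext fun j => ?_)
    obtain ⟨j, X, hX, rfl⟩ := j
    have h1 : (if h : X ∈ S then n.1 (⟨f X, Set.mem_image_of_mem f h⟩ : f '' S) else 0) = 0 :=
      congrFun (congrArg Subtype.val hn) X
    rw [dif_pos hX] at h1
    exact h1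
  have hd3 : Module.finrank ℝ (LinearMap.ker Ψ) ≤ dmo G c p S :=
    LinearMap.finrank_le_finrank_of_injective hι
  have hef : ef G c S f = Z.ncard := rfl
  rw [hef]
  omega

end lowAux

theorem low : S_Low := by
  intro V K J _ G c p S f hS hp
  exact lowAux.main G c p S f hS hp

end Pool.Agent.MPf1f412
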