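import Pool.Agent.Lib.MP_f1f412_co.SpecM
import Pool.Agent.Lib.MP_f1f412_co.Basic

/-!
# MP_f1f412_co (C34): lemma alpha
-/

set_option autoImplicit false

namespace Pool.Agent.MPf1f412

theorem mAlpha (hD0r : S_D0r) (hDD : S_DD) : S_Alpha := by
  classical
  intro V K _ G c p q g X Y z b b' hE hD
  by_contra hcon
  push Not at hcon
  have : Fintype V := Fintype.ofFinite V
  have hKf : Finite K := Finite.of_surjective c hE.surj
  obtain ⟨G', hG'⟩ : ∃ G' : SimpleGraph V, G' = G.deleteEdges {s(z, b)} := ⟨_, rfl⟩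
  have hadj : ∀ u w, G'.Adj u w ↔ G.Adj u w ∧ s(u, w) ≠ s(z, b) := by
    intro u w
    rw [hG', SimpleGraph.deleteEdges_adj]
    rfl
  have hNT : NoTri G' := by
    rintro u v w ⟨h1, h2, h3⟩
    exact hE.hyp.tri u v w ⟨((hadj _ _).1 h1).1, ((hadj _ _).1 h2).1, ((hadj _ _).1 h3).1⟩
  have hpos : ∀ (J : Type) (f : K → J), - ((0 : ℕ) : ℤ) ≤ sf G' c Set.univ f := by
    intro J f
    rw [Nat.cast_zero, neg_zero]
    by_cases hf : f X = f Y
    · have h1 : ef G' c Set.univ f = ef G c Set.univ f := by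
        unfold ef
        congr 1
        ext e
        constructor
        · rintro ⟨u, w, rfl, hc, huw⟩
          exact ⟨u, w, rfl, ⟨((hadj _ _).1 hc.1).1, hc.2⟩, huw⟩
        · rintro ⟨u, w, rfl, hc, huw⟩
          refine ⟨u, w, rfl, ⟨(hadj _ _).2 ⟨hc.1, ?_⟩, hc.2⟩, huw⟩
          intro h
          rcases Sym2.eq_iff.1 h with ⟨h3, h4⟩ | ⟨h3, h4⟩
          · apply huw
            rw [h3, h4, hD.cz, hD.cb, hf]
          · apply huw
            rw [h3, h4, hD.cz, hD.cb, hf]
      have h2 : sf G' c Set.univ f = sf G c Set.univ f := by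
        unfold sf
        rw [h1]
      rw [h2]
      by_cases hc : ∃ X Y, f X ≠ f Y
      · have := hE.cntK J f hc
        linarith
      · push Not at hc
        have h3 : f '' Set.univ = {f X} := by
          ext j
          constructor
          · rintro ⟨Z, -, rfl⟩
            exact hc Z X
          · rintro rfl
            exact ⟨X, trivial, rfl⟩
        unfold sf
        rw [h3, Set.ncard_singleton]
        simp
    · have h1 : ef G c Set.univ f ≤ ef G' c Set.univ f + 1 := by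
        unfold ef
        refine le_trans (Set.ncard_le_ncard (t := insert s(z, b) {e : Sym2 V | ∃ u w, e = s(u, w) ∧
          Cre G' c Set.univ u w ∧ f (c u) ≠ f (c w)}) ?_ (Set.toFinite _))
          (Set.ncard_insert_le _ _)
        rintro e ⟨u, w, rfl, hc, huw⟩
        by_cases h : s(u, w) = s(z, b)
        · exact Or.inl h
        · exact Or.inr ⟨u, w, rfl, ⟨(hadj _ _).2 ⟨hc.1, h⟩, hc.2⟩, huw⟩
      have h2 := hDD V K J G c p q g f X Y z b b' hE hD hf
      have h3 : (ef G c Set.univ f : ℤ) ≤ (ef G' c Set.univ f : ℤ) + 1 := by exact_mod_cast h1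
      unfold sf at h2 ⊢
      linarith
  have hrig : Rig G' c p Set.univ :=
    (hD0r V K G' c p Set.univ 0 Set.finite_univ hE.gn hNT hpos).2 rfl
  obtain ⟨m, hm, hne⟩ := hE.tr b X Y hD.ne ⟨b, hD.cb, Or.inl rfl⟩ ⟨z, hD.cz, Or.inr hD.ab⟩
  have hb : ∀ w, G'.Adj b w → c w = c b := by
    intro w hw
    rw [hadj] at hw
    rw [hD.cb]
    refine hcon w hw.1 ?_
    rintro rfl
    exact hw.2 Sym2.eq_swap
  have hmot : IsMot G' c p Set.univ m := by
    intro u w huw
    have hu : u ≠ b := by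
      rintro rfl
      exact huw.2.2.2 (hb w huw.1).symm
    have hw : w ≠ b := by
      rintro rfl
      exact huw.2.2.2 (hb u huw.1.symm)
    have hG := ((hadj _ _).1 huw.1).1
    exact t1 (hE.gn.inj hG.ne)
      (hm u hu (c u) (c w) ⟨u, rfl, Or.inl rfl⟩ ⟨w, rfl, Or.inr hG.symm⟩)
      (hm w hw (c u) (c w) ⟨u, rfl, Or.inr hG⟩ ⟨w, rfl, Or.inl rfl⟩)
  apply hne
  rw [hrig m hmot X trivial Y trivial, sub_self, ev_zero]

end Pool.Agent.MPf1f412
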