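import Pool.Agent.Lib.MP_f1f412_co.SpecM
import Pool.Agent.Lib.MP_f1f412_co.Basic

set_option autoImplicit false

namespace Pool.Agent.MPf1f412

private theorem mC1_dbl {V K : Type} (G : SimpleGraph V) (c : V → K) (p : V → R3) (Y : Set K)
    (hG : Gn p) (m : K → Tw) (hm : IsMot G c p Y m) (A B : K) (hA : A ∈ Y) (hB : B ∈ Y)
    (z b b' : V) (h : Dbl G c A B z b b') : m A = m B := by
  obtain ⟨h1, h2, h3, h4, h5, h6, h7⟩ := h
  have e1 := hm.ev_eq h6 (by rw [h3]; exact hB) (by rw [h4]; exact hA)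
  have e2 := hm.ev_eq h6.symm (by rw [h4]; exact hA) (by rw [h3]; exact hB)
  have e3 := hm.ev_eq h7.symm (by rw [h5]; exact hA) (by rw [h3]; exact hB)
  rw [h3, h4] at e1 e2
  rw [h3, h5] at e3
  have h0 : m A - m B = 0 := by
    refine t2 (hG.gp3 h6.ne h7.ne h2) ?_ ?_ ?_
    · rw [ev_sub, e1, sub_self]
    · rw [ev_sub, e2, sub_self]
    · rw [ev_sub, e3, sub_self]
  exact sub_eq_zero.1 h0

theorem mC1 : S_C1 := by
  intro V K G c p Y hG hD m hm X hX X' hX'
  have hstep : ∀ A B, A ∈ Y → B ∈ Y → DE G c A B → m A = m B := by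
    rintro A B hA hB ⟨z, b, b', h | h⟩
    · exact mC1_dbl G c p Y hG m hm A B hA hB z b b' h
    · exact (mC1_dbl G c p Y hG m hm B A hB hA z b b' h).symm
  have h := hD X hX X' hX'
  induction h with
  | refl => rfl
  | tail h1 h2 ih =>
    obtain ⟨hA, hB, hAB⟩ := h2
    exact (ih hA).trans (hstep _ _ hA hB hAB)

end Pool.Agent.MPf1f412
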