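import Pool.Agent.Lib.MP_f1f412_co.SpecM
import Pool.Agent.Lib.MP_f1f412_co.Basic

/-!
# MP_f1f412_co (C34), MC2: edges inside a set connected by double edges
-/

set_option autoImplicit false

namespace Pool.Agent.MPf1f412

private theorem mC2_chain {K : Type} {R : K → K → Prop} {S : Set K} {A B : K}
    (h : Relation.ReflTransGen R A B) (hA : A ∈ S) (hB : B ∉ S) :
    ∃ C D, R C D ∧ C ∈ S ∧ D ∉ S := by
  induction h with
  | refl => exact absurd hA hB
  | @tail C D _ hCD ih =>
    by_cases hC : C ∈ S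
    · exact ⟨C, D, hCD, hC, hB⟩
    · exact ih hC

private theorem mC2_con {V K : Type} {G : SimpleGraph V} {c : V → K} {Y : Set K} {C D : K}
    (hs : ∀ X Y, DE G c X Y → DE G c Y X) (hY : DCon G c Y) (hC : C ∈ Y) (hCD : DE G c C D) :
    DCon G c (insert D Y) := by
  have hmono : ∀ A B, Relation.ReflTransGen (fun A B => A ∈ Y ∧ B ∈ Y ∧ DE G c A B) A B →
      Relation.ReflTransGen (fun A B => A ∈ insert D Y ∧ B ∈ insert D Y ∧ DE G c A B) A B :=
    fun A B h => Relation.ReflTransGen.mono (fun a b ⟨ha, hb, hab⟩ =>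
      ⟨Set.mem_insert_of_mem _ ha, Set.mem_insert_of_mem _ hb, hab⟩) _ _ h
  have h1 : Relation.ReflTransGen (fun A B => A ∈ insert D Y ∧ B ∈ insert D Y ∧ DE G c A B) C D :=
    Relation.ReflTransGen.single ⟨Set.mem_insert_of_mem _ hC, Set.mem_insert _ _, hCD⟩
  have h2 : Relation.ReflTransGen (fun A B => A ∈ insert D Y ∧ B ∈ insert D Y ∧ DE G c A B) D C :=
    Relation.ReflTransGen.single ⟨Set.mem_insert _ _, Set.mem_insert_of_mem _ hC, hs _ _ hCD⟩
  intro A hA B hB
  rcases Set.mem_insert_iff.1 hA with hAD | hA'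
  · rcases Set.mem_insert_iff.1 hB with hBD | hB'
    · rw [hAD, hBD]
    · rw [hAD]
      exact h2.trans (hmono _ _ (hY C hC B hB'))
  · rcases Set.mem_insert_iff.1 hB with hBD | hB'
    · rw [hBD]
      exact (hmono _ _ (hY A hA' C hC)).trans h1
    · exact hmono _ _ (hY A hA' B hB')

theorem mC2 (h1 : S_SL1) (h2 : S_DEs) (h3 : S_C1) : S_C2 := by
  intro V K _ G c p q g Y henv hY hne
  haveI : Finite K := Finite.of_surjective c henv.surj
  have hDEs := h2 V K G c p q g henv
  have key : ∀ n, 1 ≤ n → n ≤ Y.ncard → ∃ Y' ⊆ Y, Y'.ncard = n ∧ DCon G c Y' ∧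
      ec G c Y' + 2 = 2 * Y'.ncard ∧ ∀ u w, Cre G c Y' u w → DE G c (c u) (c w) := by
    intro n hn
    induction n, hn using Nat.le_induction with
    | base =>
      intro _
      obtain ⟨A, hA⟩ := hne
      have hno : ∀ u w, ¬ Cre G c {A} u w := by
        rintro u w ⟨_, hu, hw, hne⟩
        exact hne (by rw [Set.mem_singleton_iff.1 hu, Set.mem_singleton_iff.1 hw])
      refine ⟨{A}, Set.singleton_subset_iff.2 hA, Set.ncard_singleton A, ?_, ?_, ?_⟩
      · intro B hB C hC
        rw [Set.mem_singleton_iff.1 hB, Set.mem_singleton_iff.1 hC]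
      · have : {z : Sym2 V | ∃ u w, z = s(u, w) ∧ Cre G c {A} u w ∧ id (c u) ≠ id (c w)} = ∅ := by
          ext z
          simp only [Set.mem_setOf_eq, Set.mem_empty_iff_false, iff_false]
          rintro ⟨u, w, _, h, _⟩
          exact hno u w h
        have h0 : ec G c {A} = 0 := by
          unfold ec ef
          rw [this, Set.ncard_empty]
        rw [h0, Set.ncard_singleton]
      · intro u w h
        exact absurd h (hno u w)
    | succ n hn ih =>
      intro hle
      obtain ⟨Y', hsub, hcard, hcon, hec, hde⟩ := ih (by omega)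
      have hlt : Y'.ncard < Y.ncard := by omega
      obtain ⟨B, hB, hB'⟩ : ∃ B ∈ Y, B ∉ Y' := Set.exists_mem_notMem_of_ncard_lt_ncard hlt
      obtain ⟨A, hA⟩ : Y'.Nonempty := (Set.ncard_pos (Set.toFinite Y')).1 (by omega)
      obtain ⟨C, D, ⟨_, hDY, hCD⟩, hC, hD⟩ := mC2_chain (hY A (hsub hA) B hB) hA hB'
      have hrig : Rig G c p Y' := h3 V K G c p Y' henv.gn hcon
      -- two different edges
      obtain ⟨z₁, w₁, z₂, w₂, ha1, ha2, hz1, hz2, hw1, hw2, hneq⟩ : ∃ z₁ w₁ z₂ w₂, G.Adj z₁ w₁ ∧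
          G.Adj z₂ w₂ ∧ c z₁ = D ∧ c z₂ = D ∧ c w₁ ∈ Y' ∧ c w₂ ∈ Y' ∧ (z₁ ≠ z₂ ∨ w₁ ≠ w₂) := by
        obtain ⟨z, b, b', h | h⟩ := hCD
        · exact ⟨z, b, z, b', h.ab, h.ab', h.cz, h.cz, by rw [h.cb]; exact hC,
            by rw [h.cb']; exact hC, Or.inr h.bb⟩
        · exact ⟨b, z, b', z, h.ab.symm, h.ab'.symm, h.cb, h.cb', by rw [h.cz]; exact hC,
            by rw [h.cz]; exact hC, Or.inl h.bb⟩
      obtain ⟨hcw, hDE, hall⟩ := h1 V K G c p q g Y' henv hrig z₁ w₁ z₂ w₂ ha1 ha2
        (by rw [hz1, hz2]) (by rw [hz1]; exact hD) hw1 hw2 hneq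
      have hall' : ∀ u w, G.Adj u w → c u = D → c w ∈ Y' →
          (u = z₁ ∧ w = w₁) ∨ (u = z₂ ∧ w = w₂) := fun u w h hu hw =>
        hall u w h (by rw [hu, hz1]) hw
      have hDEc : ∀ u w, G.Adj u w → c u = D → c w ∈ Y' → DE G c (c u) (c w) := by
        intro u w h hu hw
        rcases hall' u w h hu hw with ⟨rfl, rfl⟩ | ⟨rfl, rfl⟩
        · exact hDE
        · rw [← hcw, hu, ← hz1]
          exact hDE
      have hcard' : (insert D Y').ncard = n + 1 := by
        rw [Set.ncard_insert_of_notMem hD (Set.toFinite _), hcard]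
      refine ⟨insert D Y', Set.insert_subset hDY hsub, hcard', mC2_con hDEs.1 hcon hC hCD, ?_, ?_⟩
      · rw [hcard']
        have hset : {z : Sym2 V | ∃ u w, z = s(u, w) ∧ Cre G c (insert D Y') u w ∧
            id (c u) ≠ id (c w)} = {z : Sym2 V | ∃ u w, z = s(u, w) ∧ Cre G c Y' u w ∧
            id (c u) ≠ id (c w)} ∪ {s(z₁, w₁), s(z₂, w₂)} := by
          ext z
          simp only [Set.mem_setOf_eq, Set.mem_union, Set.mem_insert_iff, Set.mem_singleton_iff,
            id]
          constructor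
          · rintro ⟨u, w, rfl, ⟨hadj, hu, hw, hne'⟩, _⟩
            rcases Set.mem_insert_iff.1 hu with hu | hu
            · rcases Set.mem_insert_iff.1 hw with hw | hw
              · exact absurd (hu.trans hw.symm) hne'
              · right
                rcases hall' u w hadj hu hw with ⟨rfl, rfl⟩ | ⟨rfl, rfl⟩
                · exact Or.inl rfl
                · exact Or.inr rfl
            · rcases Set.mem_insert_iff.1 hw with hw | hw
              · right
                rcases hall' w u hadj.symm hw hu with ⟨rfl, rfl⟩ | ⟨rfl, rfl⟩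
                · exact Or.inl Sym2.eq_swap
                · exact Or.inr Sym2.eq_swap
              · exact Or.inl ⟨u, w, rfl, ⟨hadj, hu, hw, hne'⟩, hne'⟩
          · rintro (⟨u, w, rfl, h, h'⟩ | rfl | rfl)
            · exact ⟨u, w, rfl, h.mono (Set.subset_insert _ _), h'⟩
            · have hne' : c z₁ ≠ c w₁ := fun h => hD (by rw [← hz1, h]; exact hw1)
              exact ⟨z₁, w₁, rfl, ⟨ha1, Set.mem_insert_iff.2 (Or.inl hz1),
                Set.mem_insert_of_mem _ hw1, hne'⟩, hne'⟩
            · have hne' : c z₂ ≠ c w₂ := fun h => hD (by rw [← hz2, h]; exact hw2)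
              exact ⟨z₂, w₂, rfl, ⟨ha2, Set.mem_insert_iff.2 (Or.inl hz2),
                Set.mem_insert_of_mem _ hw2, hne'⟩, hne'⟩
        have hdis : Disjoint {z : Sym2 V | ∃ u w, z = s(u, w) ∧ Cre G c Y' u w ∧
            id (c u) ≠ id (c w)} {s(z₁, w₁), s(z₂, w₂)} := by
          rw [Set.disjoint_left]
          rintro z ⟨u, w, rfl, ⟨_, hu, hw, _⟩, _⟩ hz
          simp only [Set.mem_insert_iff, Set.mem_singleton_iff, Sym2.eq_iff] at hz
          rcases hz with (⟨rfl, rfl⟩ | ⟨rfl, rfl⟩) | (⟨rfl, rfl⟩ | ⟨rfl, rfl⟩)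
          · exact hD (by rw [← hz1]; exact hu)
          · exact hD (by rw [← hz1]; exact hw)
          · exact hD (by rw [← hz2]; exact hu)
          · exact hD (by rw [← hz2]; exact hw)
        have hpair : ({s(z₁, w₁), s(z₂, w₂)} : Set (Sym2 V)).ncard = 2 := by
          refine Set.ncard_pair ?_
          intro h
          rcases Sym2.eq_iff.1 h with ⟨h, h'⟩ | ⟨h, _⟩
          · rcases hneq with hneq | hneq
            · exact hneq h
            · exact hneq h'
          · exact hD (by rw [← hz1, h]; exact hw2)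
        have hecc : ec G c (insert D Y') = ec G c Y' + 2 := by
          unfold ec ef
          rw [hset, Set.ncard_union_eq hdis (Set.toFinite _) (Set.toFinite _), hpair]
        rw [hecc]
        omega
      · rintro u w ⟨hadj, hu, hw, hne'⟩
        rcases Set.mem_insert_iff.1 hu with hu | hu
        · rcases Set.mem_insert_iff.1 hw with hw | hw
          · exact absurd (hu.trans hw.symm) hne'
          · exact hDEc u w hadj hu hw
        · rcases Set.mem_insert_iff.1 hw with hw | hw
          · exact hDEs.1 _ _ (hDEc w u hadj.symm hw hu)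
          · exact hde u w ⟨hadj, hu, hw, hne'⟩
  obtain ⟨Y', hsub, hcard, _, h4, h5⟩ := key Y.ncard
    ((Set.ncard_pos (Set.toFinite Y)).2 hne) le_rfl
  have hYY : Y' = Y := Set.eq_of_subset_of_ncard_le hsub (by rw [hcard]) (Set.toFinite _)
  subst hYY
  exact ⟨h4, h5⟩

end Pool.Agent.MPf1f412
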