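import Pool.Agent.Lib.MP_f1f412_co.SpecM
import Pool.Agent.Lib.MP_f1f412_co.Basic

/-!
# MP_f1f412_co (C34): at least three edges leave a cluster with at least two classes (`S_C4a`)
-/

set_option autoImplicit false

namespace Pool.Agent.MPf1f412

open Matrix

namespace mC4aAux

theorem sum_ncard {α β : Type} [Finite α] [Finite β] [DecidableEq α] (s : Finset α)
    (R : α → β → Prop) :
    ∑ a ∈ s, {b | R a b}.ncard = {P : α × β | P.1 ∈ s ∧ R P.1 P.2}.ncard := by
  induction s using Finset.induction_on with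
  | empty => simp
  | insert a s ha ih =>
    rw [Finset.sum_insert ha, ih]
    have e : {P : α × β | P.1 ∈ insert a s ∧ R P.1 P.2} =
        (Prod.mk a) '' {b | R a b} ∪ {P : α × β | P.1 ∈ s ∧ R P.1 P.2} := by
      ext ⟨x, y⟩
      simp only [Finset.mem_insert, Set.mem_ofPred_eq, Set.mem_union, Set.mem_image, Prod.mk.injEq]
      constructor
      · rintro ⟨rfl | h, h2⟩
        · exact Or.inl ⟨y, h2, rfl, rfl⟩
        · exact Or.inr ⟨h, h2⟩
      · rintro (⟨b, h, rfl, rfl⟩ | ⟨h, h2⟩)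
        · exact ⟨Or.inl rfl, h⟩
        · exact ⟨Or.inr h, h2⟩
    rw [e, Set.ncard_union_eq ?_ (Set.toFinite _) (Set.toFinite _),
      Set.ncard_image_of_injective _ (Prod.mk_right_injective a)]
    rw [Set.disjoint_left]
    rintro _ ⟨b, -, rfl⟩ h
    exact ha h.1

end mC4aAux

open mC4aAux in
theorem mC4a (hDE : S_DEs) (hC2 : S_C2) (hC3 : S_C3) : S_C4a := by
  classical
  intro V K _ G c p q g Y he hY hnt
  have hfK : Finite K := Finite.of_surjective c he.surj
  have : Fintype K := Fintype.ofFinite K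
  obtain ⟨hsym, hD⟩ := hDE V K G c p q g he
  obtain ⟨hec, -⟩ := hC2 V K G c p q g Y he hY.2.1 hY.1
  have h3 := fun X hX => hC3 V K G c p q g Y X he hY hnt hX
  set W : Set (K × K) := {P | P.1 ∈ Y.toFinset ∧ ∃ z b b', Dbl G c P.1 P.2 z b b'} with hW
  have hi : ∑ X ∈ Y.toFinset, iN G c X = W.ncard :=
    sum_ncard Y.toFinset fun X X' => ∃ z b b', Dbl G c X X' z b b'
  have ho : ∑ X ∈ Y.toFinset, oN G c X = W.ncard := by
    refine (sum_ncard Y.toFinset fun X X' => ∃ z b b', Dbl G c X' X z b b').trans ?_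
    rw [← Set.ncard_image_of_injective W Prod.swap_injective]
    congr 1
    ext ⟨A, B⟩
    simp only [Set.mem_toFinset, Set.mem_ofPred_eq, Set.mem_image, Prod.exists, hW,
      Prod.swap_prod_mk, Prod.mk.injEq]
    constructor
    · rintro ⟨hA, z, b, b', h⟩
      exact ⟨B, A, ⟨hY.2.2 A hA B ⟨z, b, b', Or.inr h⟩, z, b, b', h⟩, rfl, rfl⟩
    · rintro ⟨_, _, ⟨hB, z, b, b', h⟩, rfl, rfl⟩
      exact ⟨hY.2.2 _ hB _ ⟨z, b, b', Or.inl h⟩, z, b, b', h⟩
  have hl : ∑ X ∈ Y.toFinset, lN G c Y X = dK G c Y := by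
    refine (sum_ncard Y.toFinset fun X (e : V × V) =>
      G.Adj e.1 e.2 ∧ c e.1 = X ∧ c e.2 ∉ Y).trans ?_
    refine Set.ncard_congr (fun P _ => P.2) ?_ ?_ ?_
    · rintro ⟨X, u, w⟩ ⟨h1, h2, h3, h4⟩
      refine ⟨h2, ?_, h4⟩
      have : c u = X := h3
      rw [this]
      simpa using h1
    · rintro ⟨X, u, w⟩ ⟨X', u', w'⟩ ⟨h1, h2, h3, h4⟩ ⟨h1', h2', h3', h4'⟩ h
      have h5 : (u, w) = (u', w') := h
      have h6 : c u = X := h3
      have h7 : c u' = X' := h3'
      rw [Prod.mk.injEq] at h5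
      obtain ⟨rfl, rfl⟩ := h5
      rw [← h6, ← h7]
    · rintro ⟨u, w⟩ ⟨h1, h2, h3⟩
      exact ⟨(c u, u, w), ⟨by simpa using h2, h1, rfl, h3⟩, rfl⟩
  -- `2 |W| ≤ ec`
  have hWe : 2 * W.ncard ≤ ec G c Y := by
    have hch : ∀ P : W, ∃ z b b', Dbl G c P.1.1 P.1.2 z b b' := fun P => P.2.2
    choose z b b' h using hch
    let β : W × Bool → V := fun x => if x.2 then b x.1 else b' x.1
    have hβ : ∀ x, c (β x) = x.1.1.1 := by
      rintro ⟨P, t⟩
      cases t
      · exact (h P).cb'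
      · exact (h P).cb
    have hβa : ∀ x, G.Adj (z x.1) (β x) := by
      rintro ⟨P, t⟩
      cases t
      · exact (h P).ab'
      · exact (h P).ab
    let f : W × Bool → Sym2 V := fun x => s(z x.1, β x)
    have hf : Function.Injective f := by
      rintro x x' hxx
      have h1 : (z x.1 = z x'.1 ∧ β x = β x') ∨ (z x.1 = β x' ∧ β x = z x'.1) := by
        simpa [f] using hxx
      rcases h1 with ⟨h1, h2⟩ | ⟨h1, h2⟩
      · have e1 : x.1 = x'.1 := by
          apply Subtype.ext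
          apply Prod.ext
          · rw [← hβ x, ← hβ x', h2]
          · rw [← (h x.1).cz, ← (h x'.1).cz, h1]
        obtain ⟨P, t⟩ := x
        obtain ⟨P', t'⟩ := x'
        simp only at e1
        subst e1
        rcases t with _ | _ <;> rcases t' with _ | _
        · rfl
        · exact absurd h2.symm (h P).bb
        · exact absurd h2 (h P).bb
        · rfl
      · exfalso
        have e1 : x'.1.1.1 = x.1.1.2 := by rw [← hβ x', ← h1, (h x.1).cz]
        have e2 : x'.1.1.2 = x.1.1.1 := by rw [← (h x'.1).cz, ← h2, hβ x]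
        have h4 := h x'.1
        rw [e1, e2] at h4
        exact (hD _ _ _ _ _ (h x.1)).2.2.1 _ _ _ h4
    have hcard : (Set.range f).ncard = 2 * W.ncard := by
      rw [← Set.image_univ, Set.ncard_image_of_injective _ hf, Set.ncard_univ, Nat.card_prod,
        Nat.card_eq_fintype_card (α := Bool), Fintype.card_bool, mul_comm]
      rfl
    rw [← hcard]
    refine Set.ncard_le_ncard ?_ (Set.toFinite _)
    rintro _ ⟨x, rfl⟩
    have hxY : x.1.1.1 ∈ Y := by simpa using x.1.2.1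
    have hxY' : x.1.1.2 ∈ Y := hY.2.2 _ hxY _ ⟨_, _, _, Or.inl (h x.1)⟩
    refine ⟨z x.1, β x, rfl, ⟨hβa x, ?_, ?_, ?_⟩, ?_⟩
    · rw [(h x.1).cz]; exact hxY'
    · rw [hβ]; exact hxY
    · rw [(h x.1).cz, hβ]; exact (h x.1).ne.symm
    · simp only [id]
      rw [(h x.1).cz, hβ]; exact (h x.1).ne.symm
  have hcardY : Y.ncard = Y.toFinset.card := Set.ncard_eq_toFinset_card' Y
  have hsum : ∑ X ∈ Y.toFinset, (iN G c X + 2 * oN G c X + lN G c Y X) =
      3 * W.ncard + dK G c Y := by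
    rw [Finset.sum_add_distrib, Finset.sum_add_distrib, ← Finset.mul_sum, hi, ho, hl]
    ring
  have hle : ∑ X ∈ Y.toFinset, 3 ≤ ∑ X ∈ Y.toFinset, (iN G c X + 2 * oN G c X + lN G c Y X) :=
    Finset.sum_le_sum fun X hX => (h3 X (by simpa using hX)).1
  have h3c : ∑ X ∈ Y.toFinset, 3 = 3 * Y.ncard := by
    rw [Finset.sum_const, smul_eq_mul, hcardY, mul_comm]
  refine ⟨?_, ?_⟩
  · rw [h3c, hsum] at hle
    omega
  · intro hd X hX
    have heq : ∑ X ∈ Y.toFinset, 3 =
        ∑ X ∈ Y.toFinset, (iN G c X + 2 * oN G c X + lN G c Y X) := by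
      refine le_antisymm hle ?_
      rw [h3c, hsum]
      omega
    exact ((Finset.sum_eq_sum_iff_of_le fun X hX => (h3 X (by simpa using hX)).1).1 heq X
      (by simpa using hX)).symm

end Pool.Agent.MPf1f412
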