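import Pool.Agent.Lib.MP_f1f412_co.SpecM
import Pool.Agent.Lib.MP_f1f412_co.Basic

/-!
# MP_f1f412_co (C34): clusters of type I (`S_C4b`)
-/

set_option autoImplicit false

namespace Pool.Agent.MPf1f412

open Matrix

namespace mC4bAux

theorem Dbl.swap {V K : Type} {G : SimpleGraph V} {c : V → K} {X Y : K} {z b b' : V}
    (h : Dbl G c X Y z b b') : Dbl G c X Y z b' b :=
  ⟨h.ne, h.bb.symm, h.cz, h.cb', h.cb, h.ab', h.ab⟩

end mC4bAux

open mC4bAux in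
theorem mC4b (hAl : S_Alpha) (hDE : S_DEs) : S_C4b := by
  intro V K _ G c p q g Y U he hY hty hU hi
  have : Finite K := Finite.of_surjective c he.surj
  obtain ⟨hsym, hD⟩ := hDE V K G c p q g he
  -- the type of `U`
  have hU1 : oN G c U = 0 ∧ lN G c Y U = 2 := by
    rcases hty U hU with h | h | h <;> omega
  obtain ⟨Z, hZ⟩ := Set.ncard_eq_one.1 hi
  have hZ1 : Z ∈ {Y | ∃ z b b', Dbl G c U Y z b b'} := by rw [hZ]; rfl
  obtain ⟨z, b, b', hd⟩ := hZ1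
  have hZY : Z ∈ Y := hY.2.2 U hU Z ⟨z, b, b', Or.inl hd⟩
  have hUo : ∀ B z b b', ¬ Dbl G c B U z b b' := by
    intro B z b b' h
    have h0 := (Set.ncard_eq_zero (Set.toFinite _)).1 hU1.1
    have : B ∈ {Y | ∃ z b b', Dbl G c Y U z b b'} := ⟨z, b, b', h⟩
    rw [h0] at this
    exact this
  have hUi : ∀ B z b b', Dbl G c U B z b b' → B = Z := by
    intro B z b b' h
    have : B ∈ {Y | ∃ z b b', Dbl G c U Y z b b'} := ⟨z, b, b', h⟩
    rwa [hZ] at this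
  -- the type of `Z`
  have hoZ : oN G c Z ≠ 0 := by
    intro h
    have h0 := (Set.ncard_eq_zero (Set.toFinite _)).1 h
    have : U ∈ {Y | ∃ z b b', Dbl G c Y Z z b b'} := ⟨z, b, b', hd⟩
    rw [h0] at this
    exact this
  have hZ2 : iN G c Z = 0 ∧ oN G c Z = 1 ∧ lN G c Y Z = 1 := by
    rcases hty Z hZY with h | h | h
    · exact h
    · exact absurd h.2.1 hoZ
    · exact absurd h.2.1 hoZ
  have hZi : ∀ B z b b', ¬ Dbl G c Z B z b b' := by
    intro B z b b' h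
    have h0 := (Set.ncard_eq_zero (Set.toFinite _)).1 hZ2.1
    have : B ∈ {Y | ∃ z b b', Dbl G c Z Y z b b'} := ⟨z, b, b', h⟩
    rw [h0] at this
    exact this
  have hZo : ∀ B z b b', Dbl G c B Z z b b' → B = U := by
    intro B z₂ b₂ b₂' h
    obtain ⟨W, hW⟩ := Set.ncard_eq_one.1 hZ2.2.1
    have h1 : B ∈ {Y | ∃ z b b', Dbl G c Y Z z b b'} := ⟨z₂, b₂, b₂', h⟩
    have h2 : U ∈ {Y | ∃ z b b', Dbl G c Y Z z b b'} := ⟨z, b, b', hd⟩
    rw [hW] at h1 h2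
    exact h1.trans h2.symm
  -- the cluster
  have hYeq : Y = {U, Z} := by
    apply Set.Subset.antisymm
    · intro A hA
      have key := hY.2.1 U hU A hA
      have : A = U ∨ A = Z := by
        induction key with
        | refl => exact Or.inl rfl
        | @tail B C h1 h2 ih =>
          obtain ⟨z₃, b₃, b₃', h3⟩ := h2.2.2
          rcases ih h2.1 with rfl | rfl
          · rcases h3 with h3 | h3
            · exact Or.inr (hUi _ _ _ _ h3)
            · exact absurd h3 (hUo _ _ _ _)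
          · rcases h3 with h3 | h3
            · exact absurd h3 (hZi _ _ _ _)
            · exact Or.inl (hZo _ _ _ _ h3)
      simpa using this
    · intro A hA
      rcases hA with rfl | hA
      · exact hU
      · rw [Set.mem_singleton_iff.1 hA]
        exact hZY
  have hnot : ∀ v, c v ≠ U → c v ≠ Z → c v ∉ Y := by
    intro v h1 h2 h3
    rw [hYeq] at h3
    rcases h3 with h3 | h3
    · exact h1 h3
    · exact h2 h3
  obtain ⟨-, hD3, -, -⟩ := hD _ _ _ _ _ hd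
  -- the legs at `b`, `b'`
  obtain ⟨y, hy1, hy2, hy3⟩ := hAl V K G c p q g U Z z b b' he hd
  have hyY : c y ∉ Y := hnot y hy3 fun h => hy2 (hD3 b y hy1 hd.cb h).1
  obtain ⟨y', hy1', hy2', hy3'⟩ := hAl V K G c p q g U Z z b' b he (Dbl.swap hd)
  have hyY' : c y' ∉ Y := hnot y' hy3' fun h => hy2' (hD3 b' y' hy1' hd.cb' h).1
  have hlU : ({(b, y), (b', y')} : Set (V × V)) =
      {e : V × V | G.Adj e.1 e.2 ∧ c e.1 = U ∧ c e.2 ∉ Y} := by
    refine Set.eq_of_subset_of_ncard_le ?_ ?_ (Set.toFinite _)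
    · rintro e (rfl | he')
      · exact ⟨hy1, hd.cb, hyY⟩
      · rw [Set.mem_singleton_iff.1 he']
        exact ⟨hy1', hd.cb', hyY'⟩
    · rw [Set.ncard_pair fun h => hd.bb (Prod.mk.inj h).1]
      exact hU1.2.le
  -- the leg at `Z`
  obtain ⟨⟨a, y₁⟩, hlZ⟩ := Set.ncard_eq_one.1 hZ2.2.2
  have h1 : (a, y₁) ∈ {e : V × V | G.Adj e.1 e.2 ∧ c e.1 = Z ∧ c e.2 ∉ Y} := by rw [hlZ]; rfl
  refine ⟨U, Z, z, b, b', a, y, y', y₁, hYeq, hd, fun u w h2 h3 h4 => hD3 u w h2 h3 h4, h1.2.1,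
    hy1, hy1', h1.1, hyY, hyY', h1.2.2, ?_⟩
  intro u w huw hu hw
  rw [hYeq] at hu
  rcases hu with hu | hu
  · have h2 : (u, w) ∈ {e : V × V | G.Adj e.1 e.2 ∧ c e.1 = U ∧ c e.2 ∉ Y} := ⟨huw, hu, hw⟩
    rw [← hlU] at h2
    rcases h2 with h2 | h2
    · exact Or.inl ⟨(Prod.mk.inj h2).1, (Prod.mk.inj h2).2⟩
    · exact Or.inr (Or.inl ⟨(Prod.mk.inj h2).1, (Prod.mk.inj h2).2⟩)
  · have h2 : (u, w) ∈ {e : V × V | G.Adj e.1 e.2 ∧ c e.1 = Z ∧ c e.2 ∉ Y} := ⟨huw, hu, hw⟩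
    rw [hlZ] at h2
    exact Or.inr (Or.inr ⟨(Prod.mk.inj h2).1, (Prod.mk.inj h2).2⟩)

end Pool.Agent.MPf1f412
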