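import Pool.Agent.Lib.MP_f1f412_co.SpecM

/-!
# MP_f1f412_co (C34): C4c, the clusters of type II
-/

set_option autoImplicit false

namespace Pool.Agent.MPf1f412

open Matrix

private theorem dbl_swap {V K : Type} {G : SimpleGraph V} {c : V → K} {X Y : K} {z b b' : V}
    (h : Dbl G c X Y z b b') : Dbl G c X Y z b' b :=
  ⟨h.ne, h.bb.symm, h.cz, h.cb', h.cb, h.ab', h.ab⟩

/-- labelling, first step -/
private theorem lab_aux {V : Type} (P : Fin 3 → V → Prop)
    (hP : ∀ i, ∃ b b', b ≠ b' ∧ ∀ v, P i v ↔ v = b ∨ v = b')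
    (ha : ∀ i v, P i v → ∃ j, j ≠ i ∧ P j v)
    (hb : ∀ i j, i ≠ j → ∀ v w, v ≠ w → P i v → P i w → P j v → P j w → False)
    (x x' : V) (hx : P 0 x) (hx' : P 0 x') (hne : x ≠ x') (h1 : P 1 x) (h2 : P 2 x') :
    ∃ bb : Fin 3 → V, Function.Injective bb ∧ ∀ i v, P i v ↔ ∃ j, j ≠ i ∧ v = bb j := by
  -- two elements are all elements
  have hall : ∀ i v w, P i v → P i w → v ≠ w → ∀ u, P i u ↔ u = v ∨ u = w := by
    intro i v w hv hw hvw u
    obtain ⟨b, b', hbb, h⟩ := hP i
    have hv' := (h v).mp hv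
    have hw' := (h w).mp hw
    rw [h u]
    rcases hv' with rfl | rfl <;> rcases hw' with rfl | rfl
    · exact absurd rfl hvw
    · exact Iff.rfl
    · exact or_comm
    · exact absurd rfl hvw
  obtain ⟨t, ht, htx⟩ : ∃ t, P 1 t ∧ t ≠ x := by
    obtain ⟨b, b', hbb, h⟩ := hP 1
    by_cases h5 : b = x
    · exact ⟨b', (h b').mpr (Or.inr rfl), fun h6 => hbb (h5.trans h6.symm)⟩
    · exact ⟨b, (h b).mpr (Or.inl rfl), h5⟩
  have h1x' : ¬ P 1 x' := fun h => hb 0 1 (by decide) x x' hne hx hx' h1 h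
  have h2x : ¬ P 2 x := fun h => hb 0 2 (by decide) x x' hne hx hx' h h2
  have htx' : t ≠ x' := by
    rintro rfl
    exact h1x' ht
  have h0t : ¬ P 0 t := by
    intro h
    rcases (hall 0 x x' hx hx' hne t).mp h with h5 | h5
    · exact htx h5
    · exact htx' h5
  have h2t : P 2 t := by
    obtain ⟨j, hj, hjt⟩ := ha 1 t ht
    fin_cases j
    · exact absurd hjt h0t
    · exact absurd rfl hj
    · exact hjt
  refine ⟨![t, x', x], ?_, ?_⟩
  · intro i j hij
    fin_cases i <;> fin_cases j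
    · rfl
    · exact absurd hij htx'
    · exact absurd hij htx
    · exact absurd hij.symm htx'
    · rfl
    · exact absurd hij.symm hne
    · exact absurd hij.symm htx
    · exact absurd hij hne
    · rfl
  · intro i v
    fin_cases i
    · refine (hall 0 x x' hx hx' hne v).trans ⟨?_, ?_⟩
      · rintro (h | h)
        · exact ⟨2, by decide, h⟩
        · exact ⟨1, by decide, h⟩
      · rintro ⟨j, hj, h⟩
        fin_cases j
        · exact absurd rfl hj
        · exact Or.inr h
        · exact Or.inl h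
    · refine (hall 1 x t h1 ht htx.symm v).trans ⟨?_, ?_⟩
      · rintro (h | h)
        · exact ⟨2, by decide, h⟩
        · exact ⟨0, by decide, h⟩
      · rintro ⟨j, hj, h⟩
        fin_cases j
        · exact Or.inr h
        · exact absurd rfl hj
        · exact Or.inl h
    · refine (hall 2 x' t h2 h2t htx'.symm v).trans ⟨?_, ?_⟩
      · rintro (h | h)
        · exact ⟨1, by decide, h⟩
        · exact ⟨0, by decide, h⟩
      · rintro ⟨j, hj, h⟩
        fin_cases j
        · exact Or.inr h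
        · exact Or.inl h
        · exact absurd rfl hj

/-- labelling -/
private theorem lab {V : Type} (P : Fin 3 → V → Prop)
    (hP : ∀ i, ∃ b b', b ≠ b' ∧ ∀ v, P i v ↔ v = b ∨ v = b')
    (ha : ∀ i v, P i v → ∃ j, j ≠ i ∧ P j v)
    (hb : ∀ i j, i ≠ j → ∀ v w, v ≠ w → P i v → P i w → P j v → P j w → False) :
    ∃ bb : Fin 3 → V, Function.Injective bb ∧ ∀ i v, P i v ↔ ∃ j, j ≠ i ∧ v = bb j := by
  obtain ⟨x, x', hne, h0⟩ := hP 0
  have hx : P 0 x := (h0 x).mpr (Or.inl rfl)
  have hx' : P 0 x' := (h0 x').mpr (Or.inr rfl)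
  obtain ⟨j, hj, hjx⟩ := ha 0 x hx
  obtain ⟨k, hk, hkx⟩ := ha 0 x' hx'
  have hjk : j ≠ k := by
    rintro rfl
    exact hb 0 j hj.symm x x' hne hx hx' hjx hkx
  fin_cases j <;> fin_cases k
  · exact absurd rfl hj
  · exact absurd rfl hj
  · exact absurd rfl hj
  · exact absurd rfl hk
  · exact absurd rfl hjk
  · exact lab_aux P hP ha hb x x' hx hx' hne hjx hkx
  · exact absurd rfl hk
  · exact lab_aux P hP ha hb x' x hx' hx hne.symm hkx hjx
  · exact absurd rfl hjk

theorem mC4c (h1 : S_Alpha) (h2 : S_DEs) (h3 : S_C2) : S_C4c := by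
  intro V K _ G c p q g Y U henv hY htype hU hi3
  have hK : Finite K := Finite.of_surjective c henv.surj
  obtain ⟨hsymm, hdes⟩ := h2 V K G c p q g henv
  have hC2 := (h3 V K G c p q g Y henv hY.2.1 hY.1).2
  -- the type of `U`
  have hoU : oN G c U = 0 := by
    rcases htype U hU with h | h | h
    · omega
    · omega
    · exact h.2.1
  have hlU : lN G c Y U = 0 := by
    rcases htype U hU with h | h | h
    · omega
    · omega
    · exact h.2.2
  have hoU' : ∀ B z b b', ¬ Dbl G c B U z b b' := by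
    intro B z b b' h
    have h5 : {Y | ∃ z b b', Dbl G c Y U z b b'} = ∅ := by
      rw [← Set.ncard_eq_zero (Set.toFinite _)]
      exact hoU
    have h6 : B ∈ {Y | ∃ z b b', Dbl G c Y U z b b'} := ⟨z, b, b', h⟩
    rw [h5] at h6
    exact h6
  have hlU' : ∀ u w, G.Adj u w → c u = U → c w ∈ Y := by
    intro u w hadj hu
    by_contra hw
    have h5 : {e : V × V | G.Adj e.1 e.2 ∧ c e.1 = U ∧ c e.2 ∉ Y} = ∅ := by
      rw [← Set.ncard_eq_zero (Set.toFinite _)]
      exact hlU
    have h6 : (u, w) ∈ {e : V × V | G.Adj e.1 e.2 ∧ c e.1 = U ∧ c e.2 ∉ Y} := ⟨hadj, hu, hw⟩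
    rw [h5] at h6
    exact h6
  -- the three other classes
  obtain ⟨W, hWinj, hWdbl, hWall⟩ : ∃ W : Fin 3 → K, Function.Injective W ∧
      (∀ i, ∃ z b b', Dbl G c U (W i) z b b') ∧
      ∀ B z b b', Dbl G c U B z b b' → ∃ i, B = W i := by
    obtain ⟨W0, W1, W2, h01, h02, h12, hW⟩ := Set.ncard_eq_three.mp hi3
    have hm : ∀ B, (B = W0 ∨ B = W1 ∨ B = W2) ↔ ∃ z b b', Dbl G c U B z b b' := by
      intro B
      have h5 : B ∈ {Y | ∃ z b b', Dbl G c U Y z b b'} ↔ B ∈ ({W0, W1, W2} : Set K) := by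
        rw [hW]
      exact h5.symm
    refine ⟨![W0, W1, W2], ?_, ?_, ?_⟩
    · intro i j hij
      fin_cases i <;> fin_cases j
      · rfl
      · exact absurd hij h01
      · exact absurd hij h02
      · exact absurd hij.symm h01
      · rfl
      · exact absurd hij h12
      · exact absurd hij.symm h02
      · exact absurd hij.symm h12
      · rfl
    · intro i
      fin_cases i
      · exact (hm W0).mp (Or.inl rfl)
      · exact (hm W1).mp (Or.inr (Or.inl rfl))
      · exact (hm W2).mp (Or.inr (Or.inr rfl))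
    · intro B z b b' h
      rcases (hm B).mpr ⟨z, b, b', h⟩ with h5 | h5 | h5
      · exact ⟨0, h5⟩
      · exact ⟨1, h5⟩
      · exact ⟨2, h5⟩
  choose z b b' hD using hWdbl
  have hWY : ∀ i, W i ∈ Y := fun i => hY.2.2 U hU (W i) ⟨z i, b i, b' i, Or.inl (hD i)⟩
  have hWU : ∀ i, W i ≠ U := fun i => (hD i).ne.symm
  -- the type of `W i`
  have htW : ∀ i, iN G c (W i) = 0 ∧ oN G c (W i) = 1 ∧ lN G c Y (W i) = 1 := by
    intro i
    have h5 : 0 < oN G c (W i) :=
      (Set.ncard_pos (Set.toFinite _)).mpr ⟨U, z i, b i, b' i, hD i⟩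
    rcases htype (W i) (hWY i) with h | h | h
    · exact h
    · omega
    · omega
  have hDEW : ∀ i B, DE G c (W i) B → B = U := by
    intro i B ⟨z₁, b₁, b₁', h⟩
    rcases h with h | h
    · exfalso
      have h5 : {Y | ∃ z b b', Dbl G c (W i) Y z b b'} = ∅ := by
        rw [← Set.ncard_eq_zero (Set.toFinite _)]
        exact (htW i).1
      have h6 : B ∈ {Y | ∃ z b b', Dbl G c (W i) Y z b b'} := ⟨z₁, b₁, b₁', h⟩
      rw [h5] at h6
      exact h6
    · obtain ⟨Z, hZ⟩ := Set.ncard_eq_one.mp (htW i).2.1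
      have h6 : B ∈ {Y | ∃ z b b', Dbl G c Y (W i) z b b'} := ⟨z₁, b₁, b₁', h⟩
      have h7 : U ∈ {Y | ∃ z b b', Dbl G c Y (W i) z b b'} := ⟨z i, b i, b' i, hD i⟩
      rw [hZ] at h6 h7
      exact h6.trans h7.symm
  have hDEU : ∀ B, DE G c U B → ∃ i, B = W i := by
    intro B ⟨z₁, b₁, b₁', h⟩
    rcases h with h | h
    · exact hWall B _ _ _ h
    · exact absurd h (hoU' B _ _ _)
  -- all classes
  have hset : ∀ B, B ∈ Y ↔ B = U ∨ ∃ i, B = W i := by
    intro B
    constructor
    · intro hB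
      have hch := hY.2.1 U hU B hB
      clear hB
      induction hch with
      | refl => exact Or.inl rfl
      | tail _ h ih =>
        rcases ih with ih | ⟨i, ih⟩
        · rw [ih] at h
          exact Or.inr (hDEU _ h.2.2)
        · rw [ih] at h
          exact Or.inl (hDEW i _ h.2.2)
    · rintro (rfl | ⟨i, rfl⟩)
      · exact hU
      · exact hWY i
  have hedge : ∀ u w i, G.Adj u w → c u = U → c w = W i → w = z i ∧ (u = b i ∨ u = b' i) :=
    fun u w i hadj hu hw => (hdes U (W i) (z i) (b i) (b' i) (hD i)).2.1 u w hadj hu hw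
  -- the labelling
  obtain ⟨bb, hbinj, hbb⟩ := lab (fun i v => v = b i ∨ v = b' i)
    (fun i => ⟨b i, b' i, (hD i).bb, fun v => Iff.rfl⟩)
    (by
      intro i x hx
      have hxU : c x = U := by
        rcases hx with rfl | rfl
        · exact (hD i).cb
        · exact (hD i).cb'
      obtain ⟨w, hw, hwz, hwU⟩ : ∃ w, G.Adj x w ∧ w ≠ z i ∧ c w ≠ U := by
        rcases hx with rfl | rfl
        · exact h1 V K G c p q g U (W i) (z i) (b i) (b' i) henv (hD i)
        · exact h1 V K G c p q g U (W i) (z i) (b' i) (b i) henv (dbl_swap (hD i))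
      rcases (hset (c w)).mp (hlU' x w hw hxU) with h5 | ⟨j, h5⟩
      · exact absurd h5 hwU
      · obtain ⟨h6, h7⟩ := hedge x w j hw hxU h5
        refine ⟨j, ?_, h7⟩
        rintro rfl
        exact hwz h6)
    (by
      intro i j hij v w hvw hiv hiw hjv hjw
      have hzz : z i ≠ z j := by
        intro h
        apply hij
        apply hWinj
        rw [← (hD i).cz, ← (hD j).cz, h]
      have hA : ∀ k v, (v = b k ∨ v = b' k) → G.Adj (z k) v := by
        rintro k v (rfl | rfl)
        · exact (hD k).ab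
        · exact (hD k).ab'
      exact henv.hyp.quad (z i) v (z j) w hzz hvw
        ⟨hA i v hiv, (hA j v hjv).symm, hA j w hjw, (hA i w hiw).symm⟩)
  have hbadj : ∀ i j, i ≠ j → G.Adj (z i) (bb j) := by
    intro i j hij
    rcases (hbb i (bb j)).mpr ⟨j, hij.symm, rfl⟩ with h | h
    · rw [h]
      exact (hD i).ab
    · rw [h]
      exact (hD i).ab'
  have hbc : ∀ j, c (bb j) = U := by
    intro j
    obtain ⟨i, hij⟩ : ∃ i : Fin 3, i ≠ j := exists_ne j
    rcases (hbb i (bb j)).mpr ⟨j, hij.symm, rfl⟩ with h | h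
    · rw [h]
      exact (hD i).cb
    · rw [h]
      exact (hD i).cb'
  -- the legs
  have hleg : ∀ i, ∃ e : V × V, {e : V × V | G.Adj e.1 e.2 ∧ c e.1 = W i ∧ c e.2 ∉ Y} = {e} :=
    fun i => Set.ncard_eq_one.mp (htW i).2.2
  choose e he using hleg
  have hemem : ∀ i, e i ∈ {e : V × V | G.Adj e.1 e.2 ∧ c e.1 = W i ∧ c e.2 ∉ Y} := by
    intro i
    rw [he i]
    rfl
  refine ⟨U, W, z, bb, fun i => (e i).1, fun i => (e i).2, ?_⟩
  exact
    { set := hset
      injX := hWinj
      neX := hWU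
      injb := hbinj
      cz := fun i => (hD i).cz
      cb := hbc
      ab := hbadj
      inn := by
        intro u w hadj hu hw hne
        have hde := hC2 u w ⟨hadj, hu, hw, hne⟩
        rcases (hset (c u)).mp hu with h5 | ⟨i, h5⟩
        · rw [h5] at hde
          obtain ⟨i, h6⟩ := hDEU _ hde
          obtain ⟨h7, h8⟩ := hedge u w i hadj h5 h6
          obtain ⟨j, hj, hbj⟩ := (hbb i u).mp h8
          exact ⟨i, j, hj.symm, Or.inr ⟨hbj, h7⟩⟩
        · rw [h5] at hde
          have h6 := hDEW i _ hde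
          obtain ⟨h7, h8⟩ := hedge w u i hadj.symm h6 h5
          obtain ⟨j, hj, hbj⟩ := (hbb i w).mp h8
          exact ⟨i, j, hj.symm, Or.inl ⟨h7, hbj⟩⟩
      ca := fun i => (hemem i).2.1
      adj := fun i => (hemem i).1
      cy := fun i => (hemem i).2.2
      all := by
        intro u w hadj hu hw
        rcases (hset (c u)).mp hu with h5 | ⟨i, h5⟩
        · exact absurd (hlU' u w hadj h5) hw
        · have h6 : (u, w) ∈ {e : V × V | G.Adj e.1 e.2 ∧ c e.1 = W i ∧ c e.2 ∉ Y} :=
            ⟨hadj, h5, hw⟩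
          rw [he i] at h6
          have h7 : (u, w) = e i := h6
          exact ⟨i, by rw [← h7], by rw [← h7]⟩ }

end Pool.Agent.MPf1f412
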