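import Pool.Agent.Lib.MP_f1f412_co.SpecM
import Pool.Agent.Lib.MP_f1f412_co.Basic

/-!
# MP_f1f412_co (C34): a cluster and a rigid set (`S_C5`)
-/

set_option autoImplicit false

namespace Pool.Agent.MPf1f412

open Matrix

namespace mC5Aux

variable {V K : Type} {G : SimpleGraph V} {c : V → K} {p : V → R3}

theorem mot_of_lse (hgn : Gn p) {z : V} {m : K → Tw} (h : Lse G c p z m) (T : Set K)
    (hz : c z ∉ T) : IsMot G c p T m := by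
  rw [isMot_iff_ev hgn]
  intro u w huw
  have hu : u ≠ z := by
    rintro rfl
    exact hz huw.2.1
  have := h u hu (c u) (c w) ⟨u, rfl, Or.inl rfl⟩ ⟨w, rfl, Or.inr huw.1.symm⟩
  rwa [ev_sub, sub_eq_zero] at this

theorem lin (hgn : Gn p) {a a' u₂ y₁ y₂ : V} {α β : ℝ} (h1 : a ≠ a') (h2 : a ≠ y₁)
    (h3 : a ≠ y₂) (h4 : a' ≠ y₁) (h5 : a' ≠ y₂) (h6 : y₁ ≠ y₂) (h7 : u₂ ≠ y₁) (h8 : u₂ ≠ y₂)
    (h : α • ev (Ln (p a) (p a')) (p y₁) + β • ev (Ln (p u₂) (p y₂)) (p y₁) = 0) :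
    α = 0 ∧ β = 0 := by
  have hα : α = 0 := by
    have e := congrArg (fun x => x ⬝ᵥ (p y₂ - p y₁)) h
    simp only [add_dotProduct, smul_dotProduct, zero_dotProduct, smul_eq_mul, ev_Ln] at e
    have e1 : cr (p y₂ - p u₂) (p y₁ - p u₂) ⬝ᵥ (p y₂ - p y₁) = 0 := by
      simp [dot_eq]; ring
    have e2 : cr (p a' - p a) (p y₁ - p a) ⬝ᵥ (p y₂ - p y₁) =
        cr (p a' - p a) (p y₁ - p a) ⬝ᵥ (p y₂ - p a) := by
      simp [dot_eq]; ring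
    rw [e1, e2, mul_zero, add_zero] at e
    rcases mul_eq_zero.1 e with e3 | e3
    · exact e3
    · exact absurd e3 (hgn.gp4 h1 h2 h3 h4 h5 h6)
  refine ⟨hα, ?_⟩
  rw [hα, zero_smul, zero_add, ev_Ln] at h
  rcases smul_eq_zero.1 h with e | e
  · exact e
  · exact absurd e (hgn.gp3 h8 h7 (Ne.symm h6))

end mC5Aux

open mC5Aux in
theorem mC5 (hSL : S_SL1) (hDE : S_DEs) (hC1 : S_C1) : S_C5 := by
  intro V K G c p q g Y S he hY hnt hS hdis u₁ y₁ u₂ y₂ hadj₁ hadj₂ hu₁ hu₂ hy₁ hy₂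
  by_contra hne
  have hne' : u₁ ≠ u₂ ∨ y₁ ≠ y₂ := by
    by_contra hcon
    push Not at hcon
    exact hne hcon
  obtain ⟨hsym, hD⟩ := hDE V K G c p q g he
  have hYS : ∀ X, X ∈ Y → X ∈ S → False := fun X h1 h2 => Set.disjoint_left.1 hdis h1 h2
  have hu₁S : c u₁ ∉ S := fun h => hYS _ hu₁ h
  have hu₂S : c u₂ ∉ S := fun h => hYS _ hu₂ h
  have hy₁Y : c y₁ ∉ Y := fun h => hYS _ h hy₁
  have hy₂Y : c y₂ ∉ Y := fun h => hYS _ h hy₂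
  -- (a)
  have ha : c u₁ ≠ c u₂ := by
    intro heq
    obtain ⟨-, h2, -⟩ := hSL V K G c p q g S he hS u₁ y₁ u₂ y₂ hadj₁ hadj₂ heq hu₁S hy₁ hy₂ hne'
    exact hy₁Y (hY.2.2 _ hu₁ _ h2)
  -- (b)
  have hb : c y₁ ≠ c y₂ := by
    intro heq
    have hRY : Rig G c p Y := hC1 V K G c p Y he.gn hY.2.1
    obtain ⟨h1, -, -⟩ := hSL V K G c p q g Y he hRY y₁ u₁ y₂ u₂ hadj₁.symm hadj₂.symm heq hy₁Y
      hu₁ hu₂ hne'.symm
    exact ha h1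
  -- (c)
  let r : K → K → Prop := fun A B => A ≠ c u₁ ∧ B ≠ c u₁ ∧ DE G c A B
  let R : Set K := {B | Relation.ReflTransGen r (c u₂) B}
  have hR0 : c u₂ ∈ R := Relation.ReflTransGen.refl
  have hRne : ∀ B ∈ R, B ≠ c u₁ := by
    intro B hB
    induction hB with
    | refl => exact Ne.symm ha
    | tail _ h _ => exact h.2.1
  have hRY : ∀ B ∈ R, B ∈ Y := by
    intro B hB
    induction hB with
    | refl => exact hu₂
    | tail _ h ih => exact hY.2.2 _ ih _ h.2.2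
  let r' : K → K → Prop := fun A B => A ∈ R ∧ B ∈ R ∧ DE G c A B
  have hr'symm : Std.Symm r' := ⟨fun A B h => ⟨h.2.1, h.1, hsym _ _ h.2.2⟩⟩
  have hR1 : ∀ B ∈ R, Relation.ReflTransGen r' (c u₂) B := by
    intro B hB
    induction hB with
    | refl => exact Relation.ReflTransGen.refl
    | tail h1 h2 ih => exact ih.tail ⟨h1, h1.tail h2, h2.2.2⟩
  have hRcon : DCon G c R := fun A hA B hB =>
    (Relation.ReflTransGen.stdSymm.symm _ _ (hR1 A hA)).trans (hR1 B hB)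
  have hX₁ : ∃ X₁ ∈ R, DE G c X₁ (c u₁) := by
    have key : ∀ B, Relation.ReflTransGen (fun A B => A ∈ Y ∧ B ∈ Y ∧ DE G c A B) (c u₂) B →
        B ∈ R ∨ ∃ X₁ ∈ R, DE G c X₁ (c u₁) := by
      intro B hB
      induction hB with
      | refl => exact Or.inl hR0
      | @tail B C h1 h2 ih =>
        rcases ih with ih | ih
        · by_cases hC : C = c u₁
          · exact Or.inr ⟨B, ih, hC ▸ h2.2.2⟩
          · exact Or.inl (Relation.ReflTransGen.tail ih ⟨hRne B ih, hC, h2.2.2⟩)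
        · exact Or.inr ih
    rcases key _ (hY.2.1 _ hu₂ _ hu₁) with h | h
    · exact absurd rfl (hRne _ h)
    · exact h
  obtain ⟨X₁, hX₁R, hX₁D⟩ := hX₁
  -- (d)
  have hyu : ∀ v, c v ∈ S → v ≠ u₁ := by
    rintro v hv rfl
    exact hu₁S hv
  obtain ⟨m, hm, hm0⟩ := he.tr u₁ (c u₁) (c y₁) (fun h => hu₁S (h ▸ hy₁)) ⟨u₁, rfl, Or.inl rfl⟩
    ⟨y₁, rfl, Or.inr hadj₁.symm⟩
  have hmS : m (c y₂) = m (c y₁) := hS m (mot_of_lse he.gn hm S hu₁S) _ hy₂ _ hy₁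
  have hmR : m X₁ = m (c u₂) := hC1 V K G c p R he.gn hRcon m
    (mot_of_lse he.gn hm R fun h => hRne _ h rfl) _ hX₁R _ hR0
  have hu₂u₁ : u₂ ≠ u₁ := by
    rintro rfl
    exact ha rfl
  have e1 : ev (m (c u₂) - m (c y₂)) (p u₂) = 0 :=
    hm u₂ hu₂u₁ _ _ ⟨u₂, rfl, Or.inl rfl⟩ ⟨y₂, rfl, Or.inr hadj₂.symm⟩
  have e2 : ev (m (c u₂) - m (c y₂)) (p y₂) = 0 :=
    hm y₂ (hyu _ hy₂) _ _ ⟨u₂, rfl, Or.inr hadj₂⟩ ⟨y₂, rfl, Or.inl rfl⟩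
  have e3 : ev (m (c u₁) - m (c y₁)) (p y₁) = 0 :=
    hm y₁ (hyu _ hy₁) _ _ ⟨u₁, rfl, Or.inr hadj₁⟩ ⟨y₁, rfl, Or.inl rfl⟩
  obtain ⟨β, hβ⟩ := t1 (he.gn.inj hadj₂.ne) e1 e2
  -- the two common pins
  have hpins : ∃ a a', a ≠ a' ∧ a ≠ u₁ ∧ a' ≠ u₁ ∧ c a ∈ Y ∧ c a' ∈ Y ∧
      (Pin G c (c u₁) a ∧ Pin G c X₁ a) ∧ (Pin G c (c u₁) a' ∧ Pin G c X₁ a') := by
    have hX₁Y := hRY _ hX₁R
    have pick : ∀ z b b' : V, z ≠ b → z ≠ b' → b ≠ b' → c z ∈ Y → c b ∈ Y → c b' ∈ Y →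
        (∀ t, (t = z ∨ t = b ∨ t = b') → Pin G c (c u₁) t ∧ Pin G c X₁ t) →
        ∃ a a', a ≠ a' ∧ a ≠ u₁ ∧ a' ≠ u₁ ∧ c a ∈ Y ∧ c a' ∈ Y ∧
      (Pin G c (c u₁) a ∧ Pin G c X₁ a) ∧ (Pin G c (c u₁) a' ∧ Pin G c X₁ a') := by
      intro z b b' h1 h2 h3 h4 h5 h6 h7
      by_cases hz : z = u₁
      · exact ⟨b, b', h3, fun h => h1 (hz.trans h.symm), fun h => h2 (hz.trans h.symm), h5, h6,
          h7 b (by simp), h7 b' (by simp)⟩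
      · by_cases hb : b = u₁
        · exact ⟨z, b', h2, hz, fun h => h3 (hb.trans h.symm), h4, h6, h7 z (by simp),
            h7 b' (by simp)⟩
        · exact ⟨z, b, h1, hz, hb, h4, h5, h7 z (by simp), h7 b (by simp)⟩
    obtain ⟨z, b, b', h | h⟩ := hX₁D
    · obtain ⟨⟨h1, h2, h3⟩, -⟩ := hD _ _ _ _ _ h
      refine pick z b b' h1 h2 h.bb ?_ ?_ ?_ fun t ht => (h3 t ht).symm
      · rw [h.cz]; exact hu₁
      · rw [h.cb]; exact hX₁Y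
      · rw [h.cb']; exact hX₁Y
    · obtain ⟨⟨h1, h2, h3⟩, -⟩ := hD _ _ _ _ _ h
      refine pick z b b' h1 h2 h.bb ?_ ?_ ?_ fun t ht => h3 t ht
      · rw [h.cz]; exact hX₁Y
      · rw [h.cb]; exact hu₁
      · rw [h.cb']; exact hu₁
  obtain ⟨a, a', haa', hau, ha'u, haY, ha'Y, hpa, hpa'⟩ := hpins
  obtain ⟨α, hα⟩ := t1 (he.gn.inj haa') (hm a hau _ _ hpa.1 hpa.2) (hm a' ha'u _ _ hpa'.1 hpa'.2)
  have e4 : m (c u₁) - m (c y₁) = α • Ln (p a) (p a') + β • Ln (p u₂) (p y₂) := by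
    rw [← hα, ← hβ, hmR, hmS]
    abel
  have hcl : ∀ v w, c v ∈ Y → c w ∈ S → v ≠ w := by
    rintro v w h1 h2 rfl
    exact hYS _ h1 h2
  rw [e4, ev_add, ev_smul, ev_smul] at e3
  obtain ⟨rfl, rfl⟩ := lin he.gn haa' (hcl _ _ haY hy₁) (hcl _ _ haY hy₂) (hcl _ _ ha'Y hy₁)
    (hcl _ _ ha'Y hy₂) (fun h => hb (congrArg c h)) (hcl _ _ hu₂ hy₁) (hcl _ _ hu₂ hy₂) e3
  rw [zero_smul, zero_smul, add_zero] at e4
  apply hm0
  rw [e4, ev_zero]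

end Pool.Agent.MPf1f412
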