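import Pool.Agent.Lib.MP_f1f412_co.SpecM

/-!
# MP_f1f412_co (C34): partitions separating a double edge
-/

set_option autoImplicit false

namespace Pool.Agent.MPf1f412

theorem mDD (hSB : S_SB) (hF3 : S_F3) : S_DD := by
  intro V K J _ G c p q g f X Y z b b' hE hD hf
  obtain ⟨h1, h2⟩ := hSB V K J G c p q g f X Y hE hf
  obtain ⟨D, hDdef⟩ : ∃ D : Set (Sym2 V), D = {z : Sym2 V | ∃ u w, z = s(u, w) ∧ G.Adj u w ∧
    c u ∈ (Set.univ : Set K) ∧ c w ∈ (Set.univ : Set K) ∧ f (c u) = f X ∧ f (c w) = f Y} := ⟨_, rfl⟩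
  have heb : eb G c Set.univ f (f X) (f Y) = D.ncard := by rw [hDdef]; rfl
  have hbz : s(b, z) ∈ D := by
    rw [hDdef]
    exact ⟨b, z, rfl, hD.ab.symm, trivial, trivial, by rw [hD.cb], by rw [hD.cz]⟩
  have hbz' : s(b', z) ∈ D := by
    rw [hDdef]
    exact ⟨b', z, rfl, hD.ab'.symm, trivial, trivial, by rw [hD.cb'], by rw [hD.cz]⟩
  have hne : s(b, z) ≠ s(b', z) := by
    intro h
    rcases Sym2.eq_iff.1 h with ⟨h3, -⟩ | ⟨h3, h4⟩
    · exact hD.bb h3
    · exact hD.bb (h3.trans h4)
  have hsub : ({s(b, z), s(b', z)} : Set (Sym2 V)) ⊆ D := by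
    rintro y (rfl | rfl)
    · exact hbz
    · exact hbz'
  have h2' : 2 ≤ D.ncard := by
    rw [← Set.ncard_pair hne]
    exact Set.ncard_le_ncard hsub (Set.toFinite _)
  rw [heb] at h1 h2
  by_cases hthird : ∃ Z, f Z ≠ f X ∧ f Z ≠ f Y
  · have h3 := h2 hthird
    have h4 : (2 : ℤ) ≤ (D.ncard : ℤ) := by exact_mod_cast h2'
    linarith
  · by_cases h3 : 3 ≤ D.ncard
    · have h4 : (3 : ℤ) ≤ (D.ncard : ℤ) := by exact_mod_cast h3
      linarith
    · exfalso
      push Not at hthird h3
      have hDeq : ({s(b, z), s(b', z)} : Set (Sym2 V)) = D := by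
        refine Set.eq_of_subset_of_ncard_le hsub ?_ (Set.toFinite _)
        rw [Set.ncard_pair hne]
        omega
      have hbA : f (c b) ≠ f Y := by
        rw [hD.cb]
        exact hf
      have hbA' : f (c b') ≠ f Y := by
        rw [hD.cb']
        exact hf
      obtain ⟨hA, hz⟩ := hF3 V G {v | f (c v) = f Y} z b b' hE.hyp
        (show f (c z) = f Y by rw [hD.cz]) hbA hbA' hD.bb hD.ab hD.ab' (by
        intro u v hu hv huv
        have hv' : f (c v) = f X := by
          by_contra hcon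
          exact hv (hthird _ hcon)
        have h4 : s(v, u) ∈ D := by
          rw [hDdef]
          exact ⟨v, u, rfl, huv.symm, trivial, trivial, hv', hu⟩
        rw [← hDeq] at h4
        rcases h4 with h4 | h4
        · rcases Sym2.eq_iff.1 h4 with ⟨h5, h6⟩ | ⟨h5, h6⟩
          · exact ⟨h6, Or.inl h5⟩
          · exfalso
            apply hv
            change f (c v) = f Y
            rw [h5, hD.cz]
        · rcases Sym2.eq_iff.1 h4 with ⟨h5, h6⟩ | ⟨h5, h6⟩
          · exact ⟨h6, Or.inr h5⟩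
          · exfalso
            apply hv
            change f (c v) = f Y
            rw [h5, hD.cz])
      rcases hE.f4c z b b' hD.ab hD.ab' hD.bb (hD.cb.trans hD.cb'.symm)
        (by rw [hD.cz, hD.cb]; exact hD.ne.symm) with ⟨v, hvz, hcv⟩ | ⟨x, hx, hxb, hxb'⟩
      · have h5 : v ∈ {v | f (c v) = f Y} := by
          change f (c v) = f Y
          rw [hcv, hD.cz]
        rw [hA] at h5
        exact hvz h5
      · rcases hz x hx with h | h
        · exact hxb h
        · exact hxb' h

end Pool.Agent.MPf1f412
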