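import Pool.Agent.Lib.MP_f1f412_co.SpecM

/-!
# MP_f1f412_co (C34): DEs, facts on double edges
-/

set_option autoImplicit false

namespace Pool.Agent.MPf1f412

open Matrix

theorem mDEs : S_DEs := by
  intro V K G c p q g henv
  refine ⟨fun X Y => ?_, ?_⟩
  · rintro ⟨z, b, b', h | h⟩
    · exact ⟨z, b, b', Or.inr h⟩
    · exact ⟨z, b, b', Or.inl h⟩
  intro X Y z b b' h
  have h3 : ∀ u w, G.Adj u w → c u = X → c w = Y → w = z ∧ (u = b ∨ u = b') := by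
    intro u w hadj hu hw
    have hwz : w = z := by
      by_contra hne
      have h5 : u = b := henv.f4a w u z b hadj.symm h.ab (hw.trans h.cz.symm)
        (hu.trans h.cb.symm) (by rw [hw, hu]; exact h.ne.symm) hne
      have h6 : u = b' := henv.f4a w u z b' hadj.symm h.ab' (hw.trans h.cz.symm)
        (hu.trans h.cb'.symm) (by rw [hw, hu]; exact h.ne.symm) hne
      exact h.bb (h5.symm.trans h6)
    refine ⟨hwz, ?_⟩
    rw [hwz] at hadj
    rcases henv.f4b z b b' u h.ab h.ab' hadj.symm (h.cb.trans h.cb'.symm)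
      (h.cb'.trans hu.symm) (by rw [h.cz, h.cb]; exact h.ne.symm) with h5 | h5 | h5
    · exact absurd h5 h.bb
    · exact Or.inl h5.symm
    · exact Or.inr h5.symm
  refine ⟨⟨h.ab.ne, h.ab'.ne, ?_⟩, h3, ?_, ?_⟩
  · rintro t (rfl | rfl | rfl)
    · exact ⟨⟨b, h.cb, Or.inr h.ab.symm⟩, ⟨t, h.cz, Or.inl rfl⟩⟩
    · exact ⟨⟨t, h.cb, Or.inl rfl⟩, ⟨z, h.cz, Or.inr h.ab⟩⟩
    · exact ⟨⟨t, h.cb', Or.inl rfl⟩, ⟨z, h.cz, Or.inr h.ab'⟩⟩
  · intro z' a a' h4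
    exact h4.bb ((h3 z' a h4.ab h4.cz h4.cb).1.trans (h3 z' a' h4.ab' h4.cz h4.cb').1.symm)
  · intro z' a a' h4
    obtain ⟨h5, h6⟩ := h3 a z' h4.ab.symm h4.cb h4.cz
    obtain ⟨-, h7⟩ := h3 a' z' h4.ab'.symm h4.cb' h4.cz
    refine ⟨h5, ?_⟩
    rcases h6 with h6 | h6 <;> rcases h7 with h7 | h7
    · exact absurd (h6.trans h7.symm) h4.bb
    · exact Or.inl ⟨h6, h7⟩
    · exact Or.inr ⟨h6, h7⟩
    · exact absurd (h6.trans h7.symm) h4.bb

end Pool.Agent.MPf1f412
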