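import Pool.Agent.Lib.MP_f1f412_co.SpecM
import Pool.Agent.Lib.MP_f1f412_co.Basic

set_option autoImplicit false

namespace Pool.Agent.MPf1f412

open Matrix

theorem mEnv (h1 : S_D0r) (h2 : S_T) (h3 : S_T0) (h4 : S_CntK) (h5 : S_F4) : S_Env := by
  classical
  intro V K _ _ G c p q g hH hG hc hP hM hXY
  haveI : Finite K := Finite.of_surjective c hc
  haveI : Fintype V := Fintype.ofFinite V
  have hcnt : ∀ (J : Type) (f : K → J), (∃ X Y, f X ≠ f Y) → 1 ≤ sf G c Set.univ f :=
    h4 V K G c hH hc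
  have hrig : Rig G c p Set.univ := by
    refine (h1 V K G c p Set.univ 0 (Set.toFinite _) hG hH.tri (fun J f => ?_)).2 rfl
    by_cases hf : ∃ X Y, f X ≠ f Y
    · have := hcnt J f hf
      simp only [Nat.cast_zero, neg_zero]
      omega
    · have h6 : (f '' Set.univ).ncard ≤ 1 := by
        rw [Set.ncard_le_one (Set.toFinite _)]
        rintro _ ⟨a, -, rfl⟩ _ ⟨b, -, rfl⟩
        by_contra hab
        exact hf ⟨a, b, hab⟩
      unfold sf
      simp only [Nat.cast_zero, neg_zero]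
      have h7 : (0 : ℤ) ≤ (ef G c Set.univ f : ℤ) := Int.natCast_nonneg _
      omega
  have hT := h2 V K G p q c g hc hG hP hrig
  have hT0 := h3 V K G p q c g hc hP hM
  obtain ⟨f1, f2, f3⟩ := h5 V K G p q c g hc hG hP hM
  refine ⟨hH, hG, hc, hP, hM, hXY, hrig, hcnt, hT, hT0, ?_, f1, f2, f3⟩
  intro z X Y hne hX hY
  have h6 : ∃ e : R3, ((g X).B - (g Y).B) *ᵥ e ≠ 0 := by
    by_contra hcon
    push Not at hcon
    apply hT0 X Y z hne hX hY
    rw [← sub_eq_zero]
    ext i j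
    have h7 := congrFun (hcon (Pi.single j 1)) i
    rw [Matrix.mulVec_single_one] at h7
    exact h7
  obtain ⟨e, he⟩ := h6
  obtain ⟨m, hm⟩ := hT (fun u => if u = z then e else 0)
  refine ⟨m, ?_, ?_⟩
  · intro u hu A B hA hB
    rw [hm A B u hA hB, if_neg hu, Matrix.mulVec_zero]
  · rw [hm X Y z hX hY, if_pos rfl]
    exact he

end Pool.Agent.MPf1f412
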