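import Pool.Agent.Lib.MP_f1f412_co.SpecM
import Pool.Agent.Lib.MP_f1f412_co.Basic

/-!
# MP_f1f412_co (C34): at least two edges leave a set of classes
-/

set_option autoImplicit false

namespace Pool.Agent.MPf1f412

theorem mF1 : S_F1 := by
  intro V K _ G c S hyp h1 h2
  obtain ⟨v, hv⟩ := h1
  obtain ⟨v', hv'⟩ := h2
  let f : V → Prop := fun v => c v ∈ S
  have hf : f v ≠ f v' := by
    intro h
    have h3 : f v := hv
    rw [h] at h3
    exact hv' h3
  have hcls : 2 ≤ cls f := by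
    unfold cls
    rw [Nat.succ_le_iff, Set.one_lt_ncard_iff (Set.toFinite _)]
    exact ⟨f v, f v', ⟨v, rfl⟩, ⟨v', rfl⟩, hf⟩
  have hcnt := hyp.cnt Prop f hcls
  have hle : crn G f ≤ dK G c S := by
    unfold crn dK
    refine le_trans (Set.ncard_le_ncard (t := (fun e : V × V => s(e.1, e.2)) ''
      {e : V × V | G.Adj e.1 e.2 ∧ c e.1 ∈ S ∧ c e.2 ∉ S}) ?_ (Set.toFinite _))
      (Set.ncard_image_le (Set.toFinite _))
    rintro z ⟨hz, u, w, rfl, huw⟩
    rw [SimpleGraph.mem_edgeSet] at hz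
    by_cases hu : c u ∈ S
    · have hw : c w ∉ S := by
        intro hw
        exact huw (propext ⟨fun _ => hw, fun _ => hu⟩)
      exact ⟨(u, w), ⟨hz, hu, hw⟩, rfl⟩
    · have hw : c w ∈ S := by
        by_contra hw
        exact huw (propext ⟨fun h => absurd h hu, fun h => absurd h hw⟩)
      exact ⟨(w, u), ⟨hz.symm, hw, hu⟩, Sym2.eq_swap⟩
  omega

end Pool.Agent.MPf1f412
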