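import Pool.Agent.Lib.MP_f1f412_co.SpecM

/-!
# MP_f1f412_co (C34): a set left by two edges with a common end
-/

set_option autoImplicit false

namespace Pool.Agent.MPf1f412

theorem mF3 : S_F3 := by
  intro V _ G A w a b hG hw ha hb hab hwa hwb hlv
  have hA : A = {w} := by
    by_contra hne
    obtain ⟨x₀, hx₀, hx₀w⟩ : ∃ x₀ ∈ A, x₀ ≠ w := by
      by_contra hcon
      push Not at hcon
      exact hne (Set.eq_singleton_iff_unique_mem.2 ⟨hw, hcon⟩)
    obtain ⟨a', ha'w, haa'⟩ : ∃ a', a' ≠ w ∧ G.Adj a a' := by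
      obtain ⟨s, t, hst, hs, ht⟩ := hG.deg a
      by_cases h : s = w
      · exact ⟨t, fun h' => hst (h.trans h'.symm), ht⟩
      · exact ⟨s, h, hs⟩
    have ha'b : a' ≠ b := by
      rintro rfl
      exact hG.tri w a a' ⟨hwa, haa', hwb.symm⟩
    have ha'A : a' ∉ A := fun h => ha'w (hlv a' a h ha haa'.symm).1
    have hS : ({w, a, b} : Set V).ncard < 4 := by
      have h1 := Set.ncard_insert_le w ({a, b} : Set V)
      have h2 := Set.ncard_insert_le a ({b} : Set V)
      rw [Set.ncard_singleton] at h2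
      omega
    have hc := hG.con ({w, a, b} : Set V) (Set.toFinite _) hS
    have hxS : x₀ ∈ (({w, a, b} : Set V)ᶜ : Set V) := by
      rintro (h | h | h)
      · exact hx₀w h
      · exact ha (h ▸ hx₀)
      · exact hb (h ▸ hx₀)
    have haS : a' ∈ (({w, a, b} : Set V)ᶜ : Set V) := by
      rintro (h | h | h)
      · exact ha'w h
      · exact haa'.ne h.symm
      · exact ha'b h
    have key : ∀ x y : (({w, a, b} : Set V)ᶜ : Set V),
        ((square G).induce (({w, a, b} : Set V)ᶜ)).Reachable x y → (x : V) ∈ A → (y : V) ∈ A := by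
      rintro x y ⟨W⟩
      induction W with
      | nil => exact id
      | @cons x y _ h1 _ ih =>
        intro hx
        apply ih
        by_contra hy
        obtain ⟨-, h2⟩ : (square G).Adj (x : V) (y : V) := h1
        have hxw : (x : V) ≠ w := fun h => x.2 (Or.inl h)
        rcases h2 with h2 | ⟨t, h2, h3⟩
        · exact hxw (hlv _ _ hx hy h2).1
        · by_cases ht : t ∈ A
          · rcases (hlv _ _ ht hy h3).2 with h | h
            · exact y.2 (Or.inr (Or.inl h))
            · exact y.2 (Or.inr (Or.inr h))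
          · exact hxw (hlv _ _ hx ht h2).1
    exact ha'A (key ⟨x₀, hxS⟩ ⟨a', haS⟩ (hc.preconnected _ _) hx₀)
  refine ⟨hA, fun t ht => ?_⟩
  refine (hlv w t hw ?_ ht).2
  rw [hA]
  exact fun h => ht.ne (Set.mem_singleton_iff.1 h).symm

end Pool.Agent.MPf1f412
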