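import Pool.Agent.Lib.MP_f1f412_co.SpecM
import Pool.Agent.Lib.MP_f1f412_co.Basic

set_option autoImplicit false

namespace Pool.Agent.MPf1f412

theorem mM1 : S_M1 := by
  intro V K G c p q g S hE hR z w₁ w₂ h1 h2 hz hw1 hw2
  by_contra hne
  obtain ⟨m, hm, hm2⟩ := hE.tr z (c w₁) (c w₂) hne ⟨w₁, rfl, Or.inr h1.symm⟩
    ⟨w₂, rfl, Or.inr h2.symm⟩
  have hmot : IsMot G c p S m := by
    rw [isMot_iff_ev hE.gn]
    intro u w huw
    have hu : u ≠ z := fun h => hz (h ▸ huw.2.1)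
    have h3 := hm u hu (c u) (c w) ⟨u, rfl, Or.inl rfl⟩ ⟨w, rfl, Or.inr huw.1.symm⟩
    rw [ev_sub, sub_eq_zero] at h3
    exact h3
  apply hm2
  rw [hR m hmot (c w₁) hw1 (c w₂) hw2, sub_self, ev_zero]

end Pool.Agent.MPf1f412
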