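import Pool.Agent.Lib.MP_f1f412_co.SpecM

/-!
# MP_f1f412_co (C34): merging two parts of a partition
-/

set_option autoImplicit false

namespace Pool.Agent.MPf1f412

open Classical in
theorem mMg : S_Mg := by
  intro V K J _ G c S f X Y hS hX hY hXY
  obtain ⟨f', hf'⟩ : ∃ f' : K → J, f' = fun Z => if f Z = f Y then f X else f Z := ⟨_, rfl⟩
  rw [← hf']
  have hy : ∀ Z, f Z = f Y → f' Z = f X := by
    intro Z h
    rw [hf']
    exact if_pos h
  have hn : ∀ Z, f Z ≠ f Y → f' Z = f Z := by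
    intro Z h
    rw [hf']
    exact if_neg h
  have hne : ∀ Z W, f' Z ≠ f' W → f Z ≠ f W := by
    intro Z W h h'
    apply h
    rw [hf']
    simp only [h']
  -- the edges
  have h1 : ef G c S f = ef G c S f' + eb G c S f (f X) (f Y) := by
    unfold ef eb
    rw [← Set.ncard_union_eq ?_ (Set.toFinite _) (Set.toFinite _)]
    · congr 1
      ext z
      constructor
      · rintro ⟨u, w, rfl, hc, huw⟩
        by_cases h : f' (c u) = f' (c w)
        · right
          by_cases hu : f (c u) = f Y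
          · have hw : f (c w) ≠ f Y := fun h' => huw (hu.trans h'.symm)
            rw [hy _ hu, hn _ hw] at h
            exact ⟨w, u, Sym2.eq_swap, hc.1.symm, hc.2.2.1, hc.2.1, h.symm, hu⟩
          · by_cases hw : f (c w) = f Y
            · rw [hy _ hw, hn _ hu] at h
              exact ⟨u, w, rfl, hc.1, hc.2.1, hc.2.2.1, h, hw⟩
            · rw [hn _ hu, hn _ hw] at h
              exact absurd h huw
        · exact Or.inl ⟨u, w, rfl, hc, h⟩
      · rintro (⟨u, w, rfl, hc, huw⟩ | ⟨u, w, rfl, ha, hu, hw, h1, h2⟩)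
        · exact ⟨u, w, rfl, hc, hne _ _ huw⟩
        · have h3 : f (c u) ≠ f (c w) := by
            rw [h1, h2]
            exact hXY
          exact ⟨u, w, rfl, ⟨ha, hu, hw, fun h => h3 (congrArg f h)⟩, h3⟩
    · rw [Set.disjoint_left]
      rintro z ⟨u, w, rfl, hc, huw⟩ ⟨u', w', he, ha, hu, hw, h1, h2⟩
      have h3 : f' (c u') = f' (c w') := by
        rw [hy _ h2, hn _ (h1 ▸ hXY), h1]
      rcases Sym2.eq_iff.1 he with ⟨rfl, rfl⟩ | ⟨rfl, rfl⟩
      · exact huw h3
      · exact huw h3.symm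
  -- the values
  have h2 : (f '' S).ncard = (f' '' S).ncard + 1 := by
    have h3 : f' '' S = (f '' S) \ {f Y} := by
      ext j
      constructor
      · rintro ⟨Z, hZ, rfl⟩
        by_cases h : f Z = f Y
        · rw [hy _ h]
          exact ⟨⟨X, hX, rfl⟩, hXY⟩
        · rw [hn _ h]
          exact ⟨⟨Z, hZ, rfl⟩, h⟩
      · rintro ⟨⟨Z, hZ, rfl⟩, h⟩
        exact ⟨Z, hZ, hn _ h⟩
    rw [h3]
    exact (Set.ncard_diff_singleton_add_one (show f Y ∈ f '' S from ⟨Y, hY, rfl⟩)
      (hS.image f)).symm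
  unfold sf
  rw [h1, h2]
  push_cast
  ring

end Pool.Agent.MPf1f412
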