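import Pool.Agent.Lib.MP_f1f412_co.SpecM
import Pool.Agent.Lib.MP_f1f412_co.Basic

/-!
# MP_f1f412_co (C34), module MN1: vertices in exactly one partner pair
-/

set_option autoImplicit false

namespace Pool.Agent.MPf1f412

open Matrix

private theorem mn1_swap {V K : Type} {G : SimpleGraph V} {c : V → K} {X Y : K} {z b b' : V}
    (h : Dbl G c X Y z b b') : Dbl G c X Y z b' b :=
  ⟨h.ne, h.bb.symm, h.cz, h.cb', h.cb, h.ab', h.ab⟩

theorem mN1 (h1 : S_Alpha) (h2 : S_DEs) (h3 : S_C2) : S_N1 := by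
  classical
  intro V K _ G c p q g Y X B hE hY hX hB
  have hK : Finite K := Finite.of_surjective c hE.surj
  have h2' := (h2 V K G c p q g hE).2
  have hkey : ∀ b ∈ B, (∃ w, G.Adj b w ∧ c w ∉ Y) ∨ ∃ Y₂ a a', Dbl G c Y₂ X b a a' := by
    intro b hb
    obtain ⟨⟨Y₁, z, b', hd⟩, huniq⟩ := hB b hb
    obtain ⟨w, hbw, hwz, hwX⟩ := h1 V K G c p q g X Y₁ z b b' hE hd
    by_cases hwY : c w ∈ Y
    · right
      have hcre : Cre G c Y b w := ⟨hbw, by rw [hd.cb]; exact hX, hwY, by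
        rw [hd.cb]; exact fun h => hwX h.symm⟩
      have hDE := (h3 V K G c p q g Y hE hY.2.1 hY.1).2 b w hcre
      rw [hd.cb] at hDE
      obtain ⟨z', a, a', hz | hz⟩ := hDE
      · exfalso
        obtain ⟨hw, hba⟩ := (h2' X (c w) z' a a' hz).2.1 b w hbw hd.cb rfl
        subst hw
        have hd' : ∃ b'', Dbl G c X (c w) w b b'' := by
          rcases hba with rfl | rfl
          · exact ⟨a', hz⟩
          · exact ⟨a, mn1_swap hz⟩
        obtain ⟨b'', hd'⟩ := hd'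
        have hY₁ := huniq Y₁ z b' (c w) w b'' hd hd'
        rw [← hY₁] at hd'
        exact hwz ((h2' X Y₁ z b b' hd).2.2.2 w b b'' hd').1
      · obtain ⟨hb', -⟩ := (h2' (c w) X z' a a' hz).2.1 w b hbw.symm rfl hd.cb
        subst hb'
        exact ⟨c w, a, a', hz⟩
    · exact Or.inl ⟨w, hbw, hwY⟩
  have hfinB : B.Finite := Set.toFinite _
  set B₁ : Set V := {b | b ∈ B ∧ ∃ w, G.Adj b w ∧ c w ∉ Y} with hB₁
  set B₂ : Set V := {b | b ∈ B ∧ ∃ Y₂ a a', Dbl G c Y₂ X b a a'} with hB₂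
  have hsub : B ⊆ B₁ ∪ B₂ := by
    intro b hb
    rcases hkey b hb with h | h
    · exact Or.inl ⟨hb, h⟩
    · exact Or.inr ⟨hb, h⟩
  have hcB : ∀ b ∈ B, c b = X := by
    intro b hb
    obtain ⟨⟨Y₁, z, b', hd⟩, -⟩ := hB b hb
    exact hd.cb
  have hc1 : B₁.ncard ≤ lN G c Y X := by
    have hs : B₁ ⊆ Prod.fst '' {e : V × V | G.Adj e.1 e.2 ∧ c e.1 = X ∧ c e.2 ∉ Y} := by
      rintro b ⟨hb, w, hbw, hw⟩
      exact ⟨(b, w), ⟨hbw, hcB b hb, hw⟩, rfl⟩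
    calc B₁.ncard ≤ (Prod.fst '' {e : V × V | G.Adj e.1 e.2 ∧ c e.1 = X ∧ c e.2 ∉ Y}).ncard :=
          Set.ncard_le_ncard hs (Set.toFinite _)
      _ ≤ lN G c Y X := Set.ncard_image_le (Set.toFinite _)
  have hc2 : B₂.ncard ≤ oN G c X := by
    have hch : ∀ b : V, ∃ Y₂ : K, b ∈ B₂ → ∃ a a', Dbl G c Y₂ X b a a' := by
      intro b
      by_cases hb : b ∈ B₂
      · obtain ⟨-, Y₂, h⟩ := hb
        exact ⟨Y₂, fun _ => h⟩
      · exact ⟨X, fun h => absurd h hb⟩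
    choose f hf using hch
    refine Set.ncard_le_ncard_of_injOn f (fun b hb => ?_) (fun b hb b' hb' hff => ?_)
      (Set.toFinite _)
    · obtain ⟨a, a', h⟩ := hf b hb
      exact ⟨b, a, a', h⟩
    · obtain ⟨a, a', h⟩ := hf b hb
      obtain ⟨e, e', h'⟩ := hf b' hb'
      rw [← hff] at h'
      exact (((h2' _ _ _ _ _ h).2.2.2 b' e e' h').1).symm
  calc B.ncard ≤ (B₁ ∪ B₂).ncard := Set.ncard_le_ncard hsub (Set.toFinite _)
    _ ≤ B₁.ncard + B₂.ncard := Set.ncard_union_le _ _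
    _ ≤ _ := Nat.add_le_add hc1 hc2

end Pool.Agent.MPf1f412
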