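import Pool.Agent.Lib.MP_f1f412_co.SpecM
import Pool.Agent.Lib.MP_f1f412_co.Basic

/-!
# MP_f1f412_co (C34): NE, the environment with nodes
-/

set_option autoImplicit false

namespace Pool.Agent.MPf1f412

open Matrix

private theorem rtg_symm {K : Type} {r : K → K → Prop} (hs : ∀ X Y, r X Y → r Y X) {X Y : K}
    (h : Relation.ReflTransGen r X Y) : Relation.ReflTransGen r Y X := by
  induction h with
  | refl => exact Relation.ReflTransGen.refl
  | tail _ h2 ih => exact (Relation.ReflTransGen.single (hs _ _ h2)).trans ih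

private theorem fib_clu {V K N : Type} {G : SimpleGraph V} {c : V → K} {π : K → N}
    (hsurj : Function.Surjective π)
    (hpde : ∀ X Y, π X = π Y ↔ Relation.ReflTransGen (DE G c) X Y) (A : N) :
    Clu G c {X | π X = A} := by
  refine ⟨?_, ?_, ?_⟩
  · obtain ⟨X, hX⟩ := hsurj A
    exact ⟨X, hX⟩
  · intro X hX Y hY
    have hX' : π X = A := hX
    have hY' : π Y = A := hY
    have h := (hpde X Y).mp (hX'.trans hY'.symm)
    clear hY hY'
    induction h with
    | refl => exact Relation.ReflTransGen.refl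
    | tail h1 h2 ih =>
      rename_i B C
      refine ih.tail ⟨?_, ?_, h2⟩
      · exact ((hpde X B).mpr h1).symm.trans hX'
      · exact ((hpde X C).mpr (h1.tail h2)).symm.trans hX'
  · intro X hX Y hXY
    have hX' : π X = A := hX
    exact ((hpde X Y).mpr (Relation.ReflTransGen.single hXY)).symm.trans hX'

theorem mNE (h1 : S_F1) (h2 : S_DEs) (h3 : S_C1) (h4 : S_C4a) (h5 : S_Slow) (h6 : S_NT) :
    S_NE := by
  intro V K _ G c p q g henv
  have hsymm : ∀ X Y, DE G c X Y → DE G c Y X := (h2 V K G c p q g henv).1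
  let sd : Setoid K :=
    ⟨Relation.ReflTransGen (DE G c),
      ⟨fun _ => Relation.ReflTransGen.refl,
        fun {X Y} h => rtg_symm hsymm h,
        fun h h' => h.trans h'⟩⟩
  let π : K → Quotient sd := Quotient.mk sd
  have hsurj : Function.Surjective π := Quotient.mk_surjective
  have hpde : ∀ X Y, π X = π Y ↔ Relation.ReflTransGen (DE G c) X Y := fun X Y =>
    ⟨fun h => Quotient.exact h, fun h => Quotient.sound h⟩
  have hclu := fib_clu (G := G) (c := c) hsurj hpde
  have hmot : ∀ (S : Set (Quotient sd)) (m : K → Tw), IsMot G c p (π ⁻¹' S) m →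
      ∀ X Y, π X ∈ S → π X = π Y → m X = m Y := by
    intro S m hm X Y hX hXY
    have hr := h3 V K G c p {Z | π Z = π X} henv.gn (hclu (π X)).2.1
    refine hr m (hm.mono ?_) X rfl Y hXY.symm
    intro Z hZ
    have hZ' : π Z = π X := hZ
    change π Z ∈ S
    rw [hZ']
    exact hX
  have hslow : ∀ (S : Set K) (A : Quotient sd), Rig G c p S → (∀ X ∈ S, π X ≠ A) →
      ∀ u y u' y', π (c u) = A → π (c u') = A → c y ∈ S → c y' ∈ S → G.Adj u y →
      G.Adj u' y' → u = u' ∧ y = y' := by
    intro S A hS hSA u y u' y' hu hu' hy hy' ha ha'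
    refine h5 V K G c p q g {X | π X = A} S henv (hclu A) hS ?_ u y u' y' ha ha' hu hu' hy hy'
    rw [Set.disjoint_left]
    intro X hX hXS
    exact hSA X hXS hX
  refine ⟨Quotient sd, π, henv, hsurj, hpde, ?_, hmot, ?_, hslow, ?_, ?_, ?_, ?_⟩
  · -- at least two nodes
    by_contra hcon
    push Not at hcon
    obtain ⟨X, Y, hXY⟩ := henv.two
    have h7 := (h4 V K G c p q g {Z | π Z = π X} henv (hclu (π X))
      ⟨X, rfl, Y, hcon _ _, hXY⟩).1
    have h8 : dK G c {Z | π Z = π X} = 0 := by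
      unfold dK
      have h9 : {e : V × V | G.Adj e.1 e.2 ∧ c e.1 ∈ {Z | π Z = π X} ∧
          c e.2 ∉ {Z | π Z = π X}} = ∅ := by
        rw [Set.eq_empty_iff_forall_notMem]
        rintro e ⟨_, _, he⟩
        exact he (hcon _ _)
      rw [h9, Set.ncard_empty]
    omega
  · -- counts
    intro J f hf
    obtain ⟨A, B, hAB⟩ := hf
    obtain ⟨X, rfl⟩ := hsurj A
    obtain ⟨Y, rfl⟩ := hsurj B
    have h7 := henv.cntK J (f ∘ π) ⟨X, Y, hAB⟩
    have h8 : ef G (π ∘ c) Set.univ f = ef G c Set.univ (f ∘ π) := by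
      unfold ef
      congr 1
      ext z
      constructor
      · rintro ⟨u, w, hz, hcre, hne⟩
        refine ⟨u, w, hz, ⟨hcre.1, trivial, trivial, fun h => hne ?_⟩, hne⟩
        change f (π (c u)) = f (π (c w))
        rw [h]
      · rintro ⟨u, w, hz, hcre, hne⟩
        refine ⟨u, w, hz, ⟨hcre.1, trivial, trivial, fun h => hne ?_⟩, hne⟩
        have h' : π (c u) = π (c w) := h
        change f (π (c u)) = f (π (c w))
        rw [h']
    have h9 : (f '' Set.univ) = (f ∘ π) '' Set.univ := by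
      rw [Set.image_univ, Set.image_univ, hsurj.range_comp]
    unfold sf at h7 ⊢
    rw [h8, h9]
    exact h7
  · -- slowness for sets of nodes
    intro S A hS hA u y u' y' hu hu' hy hy' ha ha'
    have hrig : Rig G c p (π ⁻¹' S) := by
      intro m hm X hX Y hY
      let o : Quotient sd → K := Function.surjInv hsurj
      have ho : ∀ n, π (o n) = n := Function.surjInv_eq hsurj
      have hm' : ∀ Z, π Z ∈ S → m (o (π Z)) = m Z := by
        intro Z hZ
        refine hmot S m hm (o (π Z)) Z ?_ (ho _)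
        rw [ho]
        exact hZ
      have h7 := hS (fun n => m (o n)) ?_ (π X) hX (π Y) hY
      · have h8 : m (o (π X)) = m (o (π Y)) := h7
        rw [hm' X hX, hm' Y hY] at h8
        exact h8
      · intro u w hcre
        obtain ⟨t, ht⟩ := hm u w ⟨hcre.1, hcre.2.1, hcre.2.2.1, fun h => hcre.2.2.2 (by
          change π (c u) = π (c w)
          rw [h])⟩
        refine ⟨t, ?_⟩
        change m (o (π (c u))) - m (o (π (c w))) = _
        rw [hm' _ hcre.2.1, hm' _ hcre.2.2.1]
        exact ht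
    refine hslow (π ⁻¹' S) A hrig ?_ u y u' y' hu hu' hy hy' ha ha'
    intro X hX hXA
    apply hA
    rw [← hXA]
    exact hX
  · -- at least two leaving edges
    intro S hne hS
    refine h1 V (Quotient sd) G (π ∘ c) S henv.hyp ?_ ?_
    · obtain ⟨A, hA⟩ := hne
      obtain ⟨X, rfl⟩ := hsurj A
      obtain ⟨v, rfl⟩ := henv.surj X
      exact ⟨v, hA⟩
    · obtain ⟨A, hA⟩ := (Set.ne_univ_iff_exists_notMem S).mp hS
      obtain ⟨X, rfl⟩ := hsurj A
      obtain ⟨v, rfl⟩ := henv.surj X
      exact ⟨v, hA⟩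
  · intro A hA
    obtain ⟨X, x, y, x', y', hX, hD⟩ := (h6 V K G c p q g {Z | π Z = A} henv (hclu A)).1 hA
    refine ⟨X, x, y, x', y', fun Y => ?_, hD⟩
    have h7 : Y ∈ {Z | π Z = A} ↔ Y ∈ ({X} : Set K) := by rw [hX]
    exact h7
  · intro A hA
    rcases (h6 V K G c p q g {Z | π Z = A} henv (hclu A)).2 hA with ⟨X, hX⟩ | h7 | h7
    · left
      refine ⟨X, fun Y => ?_⟩
      have h7 : Y ∈ {Z | π Z = A} ↔ Y ∈ ({X} : Set K) := by rw [hX]
      exact h7
    · exact Or.inr (Or.inl h7)
    · exact Or.inr (Or.inr h7)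

end Pool.Agent.MPf1f412
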