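import Pool.Agent.Lib.MP_f1f412_co.SpecM
import Pool.Agent.Lib.MP_f1f412_co.Basic

/-!
# MP_f1f412_co (C34), module MNT: clusters with two or three leaving edges
-/

set_option autoImplicit false

namespace Pool.Agent.MPf1f412

open Matrix

theorem mNT (h1 : S_F3) (_h2 : S_DEs) (h3 : S_C3) (h4 : S_C4a) (h5 : S_C4b) (h6 : S_C4c)
    (h7 : S_Slow) : S_NT := by
  classical
  intro V K _ G c p q g Y hE hY
  have hK : Finite K := Finite.of_surjective c hE.surj
  have hsing : ¬ Y.Nontrivial → ∃ X, Y = {X} := by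
    intro h
    rw [Set.not_nontrivial_iff] at h
    obtain ⟨X, hX⟩ := hY.1
    exact ⟨X, (Set.subsingleton_iff_singleton hX).mp h⟩
  refine ⟨fun hd => ?_, fun hd => ?_⟩
  · have hnt : ¬ Y.Nontrivial := by
      intro h
      have := (h4 V K G c p q g Y hE hY h).1
      omega
    obtain ⟨X, hX⟩ := hsing hnt
    subst hX
    unfold dK at hd
    obtain ⟨⟨x, y⟩, ⟨x', y'⟩, hne, hset⟩ := Set.ncard_eq_two.mp hd
    have hmem : ∀ u w, (G.Adj u w ∧ c u = X ∧ c w ≠ X) ↔ (u = x ∧ w = y) ∨ (u = x' ∧ w = y') := by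
      intro u w
      have : (u, w) ∈ {e : V × V | G.Adj e.1 e.2 ∧ c e.1 ∈ ({X} : Set K) ∧ c e.2 ∉ ({X} : Set K)} ↔
          (u, w) ∈ ({(x, y), (x', y')} : Set (V × V)) := by rw [hset]
      simpa only [Set.mem_ofPred_eq, Set.mem_singleton_iff, Set.mem_insert_iff, Prod.mk.injEq]
        using this
    have hxy := (hmem x y).mpr (Or.inl ⟨rfl, rfl⟩)
    have hxy' := (hmem x' y').mpr (Or.inr ⟨rfl, rfl⟩)
    refine ⟨X, x, y, x', y', rfl, ?_⟩
    refine ⟨hxy.2.1, hxy'.2.1, hxy.2.2, hxy'.2.2, ?_, hxy.1, hxy'.1, ?_, ?_⟩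
    · intro hcy
      have hrig : Rig G c p {c y} := by
        intro m _ A hA B hB
        rw [Set.mem_singleton_iff] at hA hB
        rw [hA, hB]
      have hdis : Disjoint ({X} : Set K) {c y} := by
        rw [Set.disjoint_singleton]
        exact fun h => hxy.2.2 h.symm
      obtain ⟨ha, hb⟩ := h7 V K G c p q g {X} {c y} hE hY hrig hdis x y x' y' hxy.1 hxy'.1
        hxy.2.1 hxy'.2.1 rfl hcy.symm
      exact hne (by rw [ha, hb])
    · intro u w hu hw huw
      exact (hmem u w).mp ⟨huw, hu, hw⟩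
    · intro hxx
      subst hxx
      have hyy : y ≠ y' := fun h => hne (by rw [h])
      obtain ⟨hA, ht⟩ := h1 V G {v | c v = X} x y y' hE.hyp hxy.2.1 hxy.2.2 hxy'.2.2 hyy hxy.1 hxy'.1
        (by
          intro u v hu hv huv
          rcases (hmem u v).mp ⟨huv, hu, hv⟩ with ⟨ha, hb⟩ | ⟨ha, hb⟩
          · exact ⟨ha, Or.inl hb⟩
          · exact ⟨ha, Or.inr hb⟩)
      refine ⟨fun v hv => ?_, ht⟩
      have : v ∈ {v | c v = X} := hv
      rw [hA] at this
      exact this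
  · by_cases hnt : Y.Nontrivial
    · right
      have hall := (h4 V K G c p q g Y hE hY hnt).2 hd
      have hty : ∀ X ∈ Y, (iN G c X = 0 ∧ oN G c X = 1 ∧ lN G c Y X = 1) ∨
          (iN G c X = 1 ∧ oN G c X = 0 ∧ lN G c Y X = 2) ∨
          (iN G c X = 3 ∧ oN G c X = 0 ∧ lN G c Y X = 0) := fun X hX =>
        (h3 V K G c p q g Y X hE hY hnt hX).2 (hall X hX)
      have hpos : ∀ A B z b b', Dbl G c A B z b b' → 1 ≤ iN G c A := by
        intro A B z b b' h
        have hm : B ∈ {Y | ∃ z b b', Dbl G c A Y z b b'} := ⟨z, b, b', h⟩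
        exact (Set.ncard_pos (Set.toFinite _)).mpr ⟨B, hm⟩
      have hU : ∃ U ∈ Y, 1 ≤ iN G c U := by
        obtain ⟨A, hA, B, hB, hAB⟩ := hnt
        rcases Relation.ReflTransGen.cases_head (hY.2.1 A hA B hB) with he | ⟨A', ⟨_, hA', z, b, b', hz⟩, -⟩
        · exact absurd he hAB
        · rcases hz with hz | hz
          · exact ⟨A, hA, hpos _ _ _ _ _ hz⟩
          · exact ⟨A', hA', hpos _ _ _ _ _ hz⟩
      obtain ⟨U, hUY, hU1⟩ := hU
      rcases hty U hUY with h | h | h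
      · omega
      · left
        exact h5 V K G c p q g Y U hE hY hty hUY h.1
      · right
        exact h6 V K G c p q g Y U hE hY hty hUY h.1
    · exact Or.inl (hsing hnt)

end Pool.Agent.MPf1f412
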