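import Pool.Agent.Lib.MP_f1f412_co.SpecM
import Pool.Agent.Lib.MP_f1f412_co.Basic

/-!
# MP_f1f412_co (C34), SB: a consequence of Mg (helper86)
-/

set_option autoImplicit false

namespace Pool.Agent.MPf1f412

theorem mSB (h1 : S_Mg) : S_SB := by
  classical
  intro V K J _ G c p q g f X Y henv hXY
  have hK : Finite K := Finite.of_surjective c henv.surj
  have h2 := h1 V K J G c Set.univ f X Y Set.finite_univ (Set.mem_univ X) (Set.mem_univ Y) hXY
  have h0 : ∀ f' : K → J, 0 ≤ sf G c Set.univ f' := by
    intro f'
    by_cases hne : ∃ A B, f' A ≠ f' B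
    · have := henv.cntK J f' hne
      omega
    · push Not at hne
      have h3 : (f' '' Set.univ).ncard = 1 := by
        rw [Set.ncard_eq_one]
        refine ⟨f' X, ?_⟩
        ext y
        constructor
        · rintro ⟨Z, -, rfl⟩
          exact hne Z X
        · intro hy
          exact ⟨X, Set.mem_univ X, hy.symm⟩
      unfold sf
      rw [h3]
      push_cast
      have : (0 : ℤ) ≤ (ef G c Set.univ f' : ℤ) := Int.natCast_nonneg _
      linarith
  constructor
  · have := h0 (fun Z => if f Z = f Y then f X else f Z)
    linarith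
  · rintro ⟨Z, hZX, hZY⟩
    have h3 := henv.cntK J (fun Z => if f Z = f Y then f X else f Z) ⟨Z, X, by
      rw [if_neg hZY, if_neg hXY]
      exact hZX⟩
    linarith

end Pool.Agent.MPf1f412
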