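import Pool.Agent.Lib.MP_f1f412_co.SpecM
import Pool.Agent.Lib.MP_f1f412_co.Basic

/-!
# MP_f1f412_co (C34), SL1: edges between a class and a rigid set (helper86)
-/

set_option autoImplicit false

namespace Pool.Agent.MPf1f412

theorem mSL1 (h1 : S_M1) (h2 : S_M3) : S_SL1 := by
  intro V K G c p q g S henv hrig z₁ w₁ z₂ w₂ a1 a2 hz hzS hw1 hw2 hne
  have hzS2 : c z₂ ∉ S := hz ▸ hzS
  have hne1 : c z₁ ≠ c w₁ := fun h => hzS (h ▸ hw1)
  -- two edges with disjoint ends do not exist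
  have m3 : ∀ z w z' w', G.Adj z w → G.Adj z' w' → c z = c z₁ → c z' = c z₁ → c w ∈ S →
      c w' ∈ S → z = z' ∨ w = w' := by
    intro z w z' w' h3 h4 h5 h6 h7 h8
    refine h2 V K G c p q g S henv hrig z w z' w' h3 h4 (h5.trans h6.symm) ?_ h7 h8
    rw [h5]
    exact hzS
  have m1 : ∀ z w w', G.Adj z w → G.Adj z w' → c z = c z₁ → c w ∈ S → c w' ∈ S → c w = c w' := by
    intro z w w' h3 h4 h5 h7 h8
    refine h1 V K G c p q g S henv hrig z w w' h3 h4 ?_ h7 h8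
    rw [h5]
    exact hzS
  by_cases hzz : z₁ = z₂
  · subst hzz
    have hww : w₁ ≠ w₂ := by
      rcases hne with h | h
      · exact absurd rfl h
      · exact h
    have hc : c w₁ = c w₂ := m1 z₁ w₁ w₂ a1 a2 rfl hw1 hw2
    refine ⟨hc, ⟨z₁, w₁, w₂, Or.inr ⟨Ne.symm hne1, hww, rfl, rfl, hc.symm, a1, a2⟩⟩, ?_⟩
    intro z₃ w₃ a3 hz3 hw3
    by_cases h : z₃ = z₁
    · subst h
      by_cases h3 : w₃ = w₁
      · exact Or.inl ⟨rfl, h3⟩
      · by_cases h4 : w₃ = w₂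
        · exact Or.inr ⟨rfl, h4⟩
        · exfalso
          have hc3 : c w₂ = c w₃ := m1 z₃ w₂ w₃ a2 a3 rfl hw2 hw3
          rcases henv.f4b z₃ w₁ w₂ w₃ a1 a2 a3 hc hc3 hne1 with h5 | h5 | h5
          · exact hww h5
          · exact h3 h5.symm
          · exact h4 h5.symm
    · exfalso
      have e1 := (m3 z₃ w₃ z₁ w₁ a3 a1 hz3 rfl hw3 hw1).resolve_left h
      have e2 := (m3 z₃ w₃ z₁ w₂ a3 a2 hz3 rfl hw3 hw2).resolve_left h
      exact hww (e1.symm.trans e2)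
  · have hww : w₁ = w₂ := (m3 z₁ w₁ z₂ w₂ a1 a2 rfl hz.symm hw1 hw2).resolve_left hzz
    subst hww
    refine ⟨rfl, ⟨w₁, z₁, z₂, Or.inl ⟨hne1, hzz, rfl, rfl, hz.symm, a1.symm, a2.symm⟩⟩, ?_⟩
    intro z₃ w₃ a3 hz3 hw3
    by_cases h : w₃ = w₁
    · subst h
      by_cases h3 : z₃ = z₁
      · exact Or.inl ⟨h3, rfl⟩
      · by_cases h4 : z₃ = z₂
        · exact Or.inr ⟨h4, rfl⟩
        · exfalso
          rcases henv.f4b w₃ z₁ z₂ z₃ a1.symm a2.symm a3.symm hz (hz.symm.trans hz3.symm)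
            (Ne.symm hne1) with h5 | h5 | h5
          · exact hzz h5
          · exact h3 h5.symm
          · exact h4 h5.symm
    · exfalso
      have e1 := (m3 z₃ w₃ z₁ w₁ a3 a1 hz3 rfl hw3 hw1).resolve_right h
      have e2 := (m3 z₃ w₃ z₂ w₁ a3 a2 hz3 hz.symm hw3 hw1).resolve_right h
      exact hzz (e1.symm.trans e2)

end Pool.Agent.MPf1f412
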