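import Pool.Agent.Lib.MP_f1f412_co.SpecM

/-!
# MP_f1f412_co (C34): Slow, at most one edge between a cluster and a rigid set
-/

set_option autoImplicit false

namespace Pool.Agent.MPf1f412

open Matrix

theorem mSlow (h1 : S_SL1) (h2 : S_C5) : S_Slow := by
  intro V K G c p q g Y S henv hY hS hdis u₁ y₁ u₂ y₂ hu hu' hc₁ hc₂ hs₁ hs₂
  by_cases hnt : Y.Nontrivial
  · exact h2 V K G c p q g Y S henv hY hnt hS hdis u₁ y₁ u₂ y₂ hu hu' hc₁ hc₂ hs₁ hs₂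
  have hsub : Y.Subsingleton := Set.not_nontrivial_iff.mp hnt
  by_contra hne
  have hne' : u₁ ≠ u₂ ∨ y₁ ≠ y₂ := by
    by_contra h
    push Not at h
    exact hne h
  obtain ⟨-, hDE, -⟩ := h1 V K G c p q g S henv hS u₁ y₁ u₂ y₂ hu hu' (hsub hc₁ hc₂)
    (fun h => Set.disjoint_left.mp hdis hc₁ h) hs₁ hs₂ hne'
  exact Set.disjoint_left.mp hdis (hY.2.2 _ hc₁ _ hDE) hs₁

end Pool.Agent.MPf1f412
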