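import Pool.Agent.Lib.MP_f1f412_co.Spec1

/-!
# MP_f1f412_co (C34): merging the components (S_Mrg)
-/

set_option autoImplicit false

namespace Pool.Agent.MPf1f412

open Matrix

namespace mrgAux

section M

variable {V K : Type} (G : SimpleGraph V) (c : V → K) (p : V → R3) (S : Set K)

theorem cmp_iff {X Y : K} (hX : X ∈ S) :
    cmp G c p S X = cmp G c p S Y ↔ ∀ m, IsMot G c p S m → m X = m Y := by
  constructor
  · intro h m hm
    have h1 : X ∈ cmp G c p S X := ⟨hX, fun m _ => rfl⟩
    rw [h] at h1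
    exact h1.2 m hm
  · intro h
    ext Z
    constructor
    · rintro ⟨hZ, h2⟩
      exact ⟨hZ, fun m hm => (h2 m hm).trans (h m hm)⟩
    · rintro ⟨hZ, h2⟩
      exact ⟨hZ, fun m hm => (h2 m hm).trans (h m hm).symm⟩

theorem mem_iff (Z : K) : cmp G c p S Z ∈ cmp G c p S '' S ↔ Z ∈ S := by
  classical
  constructor
  · rintro ⟨X, hX, h⟩
    by_contra hZ
    have h1 := (cmp_iff G c p S hX).mp h
    have h2 : IsMot G c p S (fun Y => if Y = Z then ((1 : R3), (0 : R3)) else 0) := by
      intro u w huw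
      have hu : c u ≠ Z := fun e => hZ (e ▸ huw.2.1)
      have hw : c w ≠ Z := fun e => hZ (e ▸ huw.2.2.1)
      refine ⟨0, ?_⟩
      simp only [if_neg hu, if_neg hw, sub_zero, zero_smul]
    have h3 := h1 _ h2
    have hXZ : X ≠ Z := fun e => hZ (e ▸ hX)
    simp only [if_neg hXZ, if_true] at h3
    have h4 : (0 : R3) = 1 := congrArg Prod.fst h3
    have h5 : (0 : ℝ) = 1 := congrFun h4 0
    exact zero_ne_one h5
  · intro h
    exact ⟨Z, h, rfl⟩

theorem cre_iff (u w : V) : Cre G (fun u => cmp G c p S (c u)) (cmp G c p S '' S) u w ↔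
    Cre G c S u w ∧ cmp G c p S (c u) ≠ cmp G c p S (c w) := by
  constructor
  · rintro ⟨h1, h2, h3, h4⟩
    exact ⟨⟨h1, (mem_iff G c p S _).mp h2, (mem_iff G c p S _).mp h3,
      fun e => h4 (congrArg (cmp G c p S) e)⟩, h4⟩
  · rintro ⟨⟨h1, h2, h3, _⟩, h5⟩
    exact ⟨h1, (mem_iff G c p S _).mpr h2, (mem_iff G c p S _).mpr h3, h5⟩

open Classical in
/-- a function on the components -/
noncomputable def dn (m : K → Tw) (Z : Set K) : Tw :=
  if h : ∃ X ∈ S, cmp G c p S X = Z then m (Classical.choose h) else 0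

theorem dn_cmp {m : K → Tw} (hm : IsMot G c p S m) {X : K} (hX : X ∈ S) :
    dn G c p S m (cmp G c p S X) = m X := by
  have h : ∃ Y ∈ S, cmp G c p S Y = cmp G c p S X := ⟨X, hX, rfl⟩
  have h1 : dn G c p S m (cmp G c p S X) = m (Classical.choose h) := by
    unfold dn
    rw [dif_pos h]
  rw [h1]
  have h2 := Classical.choose_spec h
  exact (cmp_iff G c p S h2.1).mp h2.2 m hm

theorem dn_out {m : K → Tw} {Z : Set K} (hZ : Z ∉ cmp G c p S '' S) : dn G c p S m Z = 0 := by
  unfold dn
  rw [dif_neg]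
  rintro ⟨X, hX, h⟩
  exact hZ ⟨X, hX, h⟩

theorem dn_mot {m : K → Tw} (hm : IsMot G c p S m) :
    IsMot G (fun u => cmp G c p S (c u)) p (cmp G c p S '' S) (dn G c p S m) := by
  intro u w huw
  have h := ((cre_iff G c p S u w).mp huw).1
  obtain ⟨t, ht⟩ := hm u w h
  refine ⟨t, ?_⟩
  rw [← ht]
  show dn G c p S m (cmp G c p S (c u)) - dn G c p S m (cmp G c p S (c w)) = m (c u) - m (c w)
  rw [dn_cmp G c p S hm h.2.1, dn_cmp G c p S hm h.2.2.1]

open Classical in
/-- a function on the classes from a function on the components -/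
noncomputable def up (m : Set K → Tw) (X : K) : Tw := if X ∈ S then m (cmp G c p S X) else 0

theorem up_in {m : Set K → Tw} {X : K} (hX : X ∈ S) : up G c p S m X = m (cmp G c p S X) := by
  unfold up
  rw [if_pos hX]

theorem up_out {m : Set K → Tw} {X : K} (hX : X ∉ S) : up G c p S m X = 0 := by
  unfold up
  rw [if_neg hX]

theorem up_mot {m : Set K → Tw}
    (hm : IsMot G (fun u => cmp G c p S (c u)) p (cmp G c p S '' S) m) :
    IsMot G c p S (up G c p S m) := by
  intro u w huw
  rw [up_in G c p S huw.2.1, up_in G c p S huw.2.2.1]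
  by_cases h : cmp G c p S (c u) = cmp G c p S (c w)
  · refine ⟨0, ?_⟩
    rw [h, sub_self, zero_smul]
  · exact hm u w ((cre_iff G c p S u w).mpr ⟨huw, h⟩)

/-- the linear map between the spaces of motions -/
noncomputable def upL : Mot G (fun u => cmp G c p S (c u)) p (cmp G c p S '' S) →ₗ[ℝ]
    Mot G c p S where
  toFun := fun m => ⟨up G c p S m.1, up_mot G c p S m.2.1, fun _ hX => up_out G c p S hX⟩
  map_add' := by
    intro a b
    apply Subtype.ext
    funext X
    show up G c p S (a.1 + b.1) X = up G c p S a.1 X + up G c p S b.1 X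
    by_cases hX : X ∈ S
    · rw [up_in G c p S hX, up_in G c p S hX, up_in G c p S hX]
      rfl
    · rw [up_out G c p S hX, up_out G c p S hX, up_out G c p S hX, add_zero]
  map_smul' := by
    intro r a
    apply Subtype.ext
    funext X
    show up G c p S (r • a.1) X = r • up G c p S a.1 X
    by_cases hX : X ∈ S
    · rw [up_in G c p S hX, up_in G c p S hX]
      rfl
    · rw [up_out G c p S hX, up_out G c p S hX, smul_zero]

theorem upL_bij : Function.Bijective (upL G c p S) := by
  constructor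
  · rw [← LinearMap.ker_eq_bot, LinearMap.ker_eq_bot']
    intro m hm
    apply Subtype.ext
    funext Z
    by_cases hZ : Z ∈ cmp G c p S '' S
    · obtain ⟨X, hX, rfl⟩ := hZ
      have h1 : up G c p S m.1 X = 0 := congrFun (congrArg Subtype.val hm) X
      rw [up_in G c p S hX] at h1
      exact h1
    · exact m.2.2 Z hZ
  · intro m
    refine ⟨⟨dn G c p S m.1, dn_mot G c p S m.2.1, fun Z hZ => dn_out G c p S hZ⟩, ?_⟩
    apply Subtype.ext
    funext X
    show up G c p S (dn G c p S m.1) X = m.1 X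
    by_cases hX : X ∈ S
    · rw [up_in G c p S hX, dn_cmp G c p S m.2.1 hX]
    · rw [up_out G c p S hX, m.2.2 X hX]

end M

end mrgAux

open mrgAux

theorem mrg : S_Mrg := by
  intro V K G c p S _
  refine ⟨fun X hX Y _ => cmp_iff G c p S hX, fun u => mem_iff G c p S (c u), ?_, ?_, ?_⟩
  · rintro _ ⟨X, hX, rfl⟩ _ ⟨Y, hY, rfl⟩ hne
    by_contra hcon
    apply hne
    rw [cmp_iff G c p S hX]
    intro m hm
    by_contra hm2
    apply hcon
    refine ⟨dn G c p S m, dn_mot G c p S hm, ?_⟩
    rw [dn_cmp G c p S hm hX, dn_cmp G c p S hm hY]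
    exact hm2
  · exact LinearEquiv.finrank_eq (LinearEquiv.ofBijective (upL G c p S) (upL_bij G c p S))
  · unfold ec ef
    congr 1
    ext z
    constructor
    · rintro ⟨u, w, hz, h1, _⟩
      have h2 := (cre_iff G c p S u w).mp h1
      exact ⟨u, w, hz, h2.1, h2.2⟩
    · rintro ⟨u, w, hz, h1, h2⟩
      exact ⟨u, w, hz, (cre_iff G c p S u w).mpr ⟨h1, h2⟩, h2⟩

end Pool.Agent.MPf1f412
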