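import Pool.Agent.Lib.MP_f1f412_co.Spec1

/-!
# MP_f1f412_co: no two hinges between the same classes (`S_NoDbl`)
-/

set_option autoImplicit false

namespace Pool.Agent.MPf1f412

namespace noDblAux

theorem cr_def (x y : R3) : cr x y =
    ![x 1 * y 2 - x 2 * y 1, x 2 * y 0 - x 0 * y 2, x 0 * y 1 - x 1 * y 0] := by
  unfold cr
  exact cross_apply x y

theorem D3_cr (D : Derivation ℚ ℝ ℝ) (x y : R3) :
    D3 D (cr x y) = cr (D3 D x) y + cr x (D3 D y) := by
  ext i
  fin_cases i <;> simp [D3, cr_def, Derivation.leibniz] <;> ring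

theorem D3_sub (D : Derivation ℚ ℝ ℝ) (x y : R3) : D3 D (x - y) = D3 D x - D3 D y := by
  ext i
  simp [D3]

theorem D3_zero (D : Derivation ℚ ℝ ℝ) : D3 D 0 = 0 := by
  ext i
  simp [D3]

/-- only the zero vector has zero cross product with all vectors -/
theorem eq_zero_of_cr {x : R3} (h : ∀ y : R3, cr x y = 0) : x = 0 := by
  have h1 := h ![0, 1, 0]
  have h2 := h ![0, 0, 1]
  rw [cr_def] at h1 h2
  have a1 := congrFun h1 0
  have a2 := congrFun h1 2
  have b1 := congrFun h2 0
  simp at a1 a2 b1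
  ext i
  fin_cases i
  · simpa using a2
  · simpa using b1
  · simpa using a1

theorem cr_zero_left (y : R3) : cr 0 y = 0 := by
  rw [cr_def]
  ext i
  fin_cases i <;> simp

/-- general position of two points -/
theorem gp2 {V : Type} {p : V → R3} (hp : Gn p) {a b : V} (hab : a ≠ b) : p b - p a ≠ 0 := by
  classical
  intro h
  obtain ⟨D, hD⟩ := hp (Function.update (fun _ => 0) b (fun _ => 1))
  have h1 : D3 D (p b - p a) = 0 := by rw [h, D3_zero]
  rw [D3_sub, hD b, hD a, Function.update_self, Function.update_of_ne hab, sub_zero] at h1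
  have h2 := congrFun h1 0
  exact one_ne_zero h2

/-- general position of three points -/
theorem gp3 {V : Type} {p : V → R3} (hp : Gn p) {a b c : V} (hab : a ≠ b) (hac : a ≠ c)
    (hbc : b ≠ c) : cr (p b - p a) (p c - p a) ≠ 0 := by
  classical
  intro h
  apply gp2 hp hab
  apply eq_zero_of_cr
  intro y
  obtain ⟨D, hD⟩ := hp (Function.update (fun _ => 0) c y)
  have h1 : D3 D (cr (p b - p a) (p c - p a)) = 0 := by rw [h, D3_zero]
  rw [D3_cr, D3_sub, D3_sub, hD a, hD b, hD c, Function.update_self,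
    Function.update_of_ne hac, Function.update_of_ne hbc, sub_zero, sub_zero, cr_zero_left,
    zero_add] at h1
  exact h1

theorem cr_smul (t : ℝ) (a x : R3) : cr (t • a) x = t • cr a x := by
  rw [cr_def, cr_def]
  ext i
  fin_cases i <;> simp <;> ring

theorem ev_smul (t : ℝ) (m : Tw) (x : R3) : ev (t • m) x = t • ev m x := by
  change cr (t • m.1) x + t • m.2 = t • (cr m.1 x + m.2)
  rw [cr_smul, smul_add]

/-- the velocity of a rotation at a point -/
theorem ev_Ln (u w x : R3) : ev (Ln u w) x = cr (w - u) (x - u) := by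
  unfold ev Ln
  ext i
  fin_cases i <;> simp [cr_def] <;> ring

theorem cr_self (x : R3) : cr x x = 0 := by
  rw [cr_def]
  ext i
  fin_cases i <;> simp <;> ring

theorem ev_Ln_left (u w : R3) : ev (Ln u w) u = 0 := by
  rw [ev_Ln, sub_self, cr_def]
  ext i
  fin_cases i <;> simp

theorem ev_Ln_right (u w : R3) : ev (Ln u w) w = 0 := by
  rw [ev_Ln, cr_self]

end noDblAux

open noDblAux in
/-- **NoDbl.** No two hinges between the same classes. -/
theorem noDbl : S_NoDbl := by
  intro V K G c p S m hp hm hinj u w u' w' h h' hu hw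
  obtain ⟨t, ht⟩ := hm u w h
  obtain ⟨t', ht'⟩ := hm u' w' h'
  have hne : m (c u) - m (c w) ≠ 0 := by
    intro h0
    exact h.2.2.2 (hinj h.2.1 h.2.2.1 (sub_eq_zero.mp h0))
  have heq : t • Ln (p u) (p w) = t' • Ln (p u') (p w') := by
    rw [← ht, ← ht', hu, hw]
  have ht0 : t' ≠ 0 := by
    intro h0
    apply hne
    rw [ht, heq, h0, zero_smul]
  have huw' : u ≠ w' := by
    intro h0
    apply h.2.2.2
    rw [h0, hw]
  have hwu' : w ≠ u' := by
    intro h0
    apply h.2.2.2
    rw [h0, hu]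
  have hu'w' : u' ≠ w' := fun h0 => h'.2.2.2 (by rw [h0])
  have key : ∀ x : R3, ev (Ln (p u) (p w)) x = 0 → cr (p w' - p u') (x - p u') = 0 := by
    intro x hx
    have h1 : ev (t' • Ln (p u') (p w')) x = 0 := by
      rw [← heq, ev_smul, hx, smul_zero]
    rw [ev_smul, ev_Ln] at h1
    exact (smul_eq_zero.mp h1).resolve_left ht0
  constructor
  · by_contra hne'
    exact gp3 hp hu'w' (Ne.symm hne') (Ne.symm huw') (key (p u) (ev_Ln_left _ _))
  · by_contra hne'
    exact gp3 hp hu'w' (Ne.symm hwu') (Ne.symm hne') (key (p w) (ev_Ln_right _ _))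

end Pool.Agent.MPf1f412
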