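import Pool.Agent.Lib.MP_f1f412_co.SpecP

/-!
# MP_f1f412_co (C34): `s(f)` for maps on the classes
-/

set_option autoImplicit false

namespace Pool.Agent.MPf1f412

theorem pCntK : S_CntK := by
  intro V K _ G c hG hc J f hne
  have h1 : crn G (f ∘ c) = ef G c Set.univ f := by
    unfold crn ef
    congr 1
    ext z
    constructor
    · rintro ⟨hz, u, w, rfl, hf⟩
      have hf' : f (c u) ≠ f (c w) := hf
      exact ⟨u, w, rfl, ⟨hz, trivial, trivial, fun h => hf' (by rw [h])⟩, hf'⟩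
    · rintro ⟨u, w, rfl, h2, hf⟩
      exact ⟨h2.1, u, w, rfl, hf⟩
  have h2 : cls (f ∘ c) = (f '' Set.univ).ncard := by
    unfold cls
    rw [Set.range_comp, hc.range_eq]
  have h3 : 2 ≤ cls (f ∘ c) := by
    obtain ⟨X, Y, hXY⟩ := hne
    obtain ⟨u, rfl⟩ := hc X
    obtain ⟨w, rfl⟩ := hc Y
    exact (Set.one_lt_ncard (Set.finite_range (f ∘ c))).2
      ⟨f (c u), ⟨u, rfl⟩, f (c w), ⟨w, rfl⟩, hXY⟩
  have h4 := hG.cnt J (f ∘ c) h3
  unfold sf
  rw [h1, h2] at h4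
  omega

end Pool.Agent.MPf1f412
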