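import Pool.Agent.Lib.MP_f1f412_co.SpecP

/-!
# MP_f1f412_co (C34), P4: the isometry of a class, differentiated
-/

set_option autoImplicit false

namespace Pool.Agent.MPf1f412

open Matrix

private lemma skD_spec (M : Matrix (Fin 3) (Fin 3) ℝ) (h : ∀ i j, M j i = - M i j) (x : R3) :
    M *ᵥ x = cr ![M 2 1, M 0 2, M 1 0] x := by
  have e00 : M 0 0 = 0 := by have := h 0 0; linarith
  have e11 : M 1 1 = 0 := by have := h 1 1; linarith
  have e22 : M 2 2 = 0 := by have := h 2 2; linarith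
  have e01 := h 1 0
  have e12 := h 2 1
  have e20 := h 0 2
  ext i
  fin_cases i <;>
    simp [cr, cross_apply, Matrix.mulVec, dotProduct, Fin.sum_univ_three, e00, e11, e22,
      e01, e12, e20] <;> ring

/-- the derivative of a matrix -/
private noncomputable def DMm (D : Derivation ℚ ℝ ℝ) (A : Matrix (Fin 3) (Fin 3) ℝ) :
    Matrix (Fin 3) (Fin 3) ℝ := fun i j => D (A i j)

private lemma D3_mulVec (D : Derivation ℚ ℝ ℝ) (A : Matrix (Fin 3) (Fin 3) ℝ) (x : R3) :
    D3 D (A *ᵥ x) = DMm D A *ᵥ x + A *ᵥ D3 D x := by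
  ext i
  simp only [D3, DMm, Matrix.mulVec, dotProduct, Pi.add_apply, Fin.sum_univ_three, map_add,
    Derivation.leibniz, smul_eq_mul]
  ring

private lemma D3_add (D : Derivation ℚ ℝ ℝ) (x y : R3) : D3 D (x + y) = D3 D x + D3 D y := by
  ext i
  simp [D3]

theorem pDIso : S_DIso := by
  intro D g
  have hA : g.Aᵀ * g.A = 1 := g.orth
  have hW : ∀ i j, (g.Aᵀ * DMm D g.A) j i = - (g.Aᵀ * DMm D g.A) i j := by
    intro i j
    have h1 : (g.Aᵀ * g.A) i j = (1 : Matrix (Fin 3) (Fin 3) ℝ) i j := by rw [hA]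
    have h2 : D ((g.Aᵀ * g.A) i j) = 0 := by
      rw [h1, Matrix.one_apply]
      split_ifs
      · exact Derivation.map_one_eq_zero D
      · exact map_zero D
    simp only [Matrix.mul_apply, Matrix.transpose_apply, Fin.sum_univ_three, map_add,
      Derivation.leibniz, smul_eq_mul] at h2
    simp only [Matrix.mul_apply, Matrix.transpose_apply, Fin.sum_univ_three, DMm]
    linarith
  refine ⟨(![(g.Aᵀ * DMm D g.A) 2 1, (g.Aᵀ * DMm D g.A) 0 2, (g.Aᵀ * DMm D g.A) 1 0],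
    g.Aᵀ *ᵥ D3 D g.b), fun x => ?_⟩
  show g.Aᵀ *ᵥ D3 D (g.A *ᵥ x + g.b) = D3 D x + (cr _ x + g.Aᵀ *ᵥ D3 D g.b)
  rw [← skD_spec _ hW, D3_add, D3_mulVec]
  simp only [Matrix.mulVec_add, Matrix.mulVec_mulVec, hA, Matrix.one_mulVec]
  abel

end Pool.Agent.MPf1f412
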