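import Pool.Agent.Lib.MP_f1f412_co.SpecP

/-!
# MP_f1f412_co (C34), module PExt: congruent families of points are moved by an isometry
-/

set_option autoImplicit false

namespace Pool.Agent.MPf1f412

open Matrix

namespace pExtAux

/-- the vectors as elements of the Euclidean space -/
noncomputable def tl (x : R3) : E3 := WithLp.toLp 2 x

theorem inner_tl (x y : R3) : inner ℝ (tl x) (tl y) = x ⬝ᵥ y := by
  unfold tl
  rw [EuclideanSpace.inner_toLp_toLp, star_trivial, dotProduct_comm]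

theorem inner_comb {V : Type} [Fintype V] (a : V → R3) (l : V → ℝ) :
    inner ℝ (Fintype.linearCombination ℝ (fun u => tl (a u)) l)
      (Fintype.linearCombination ℝ (fun u => tl (a u)) l) =
      ∑ u, ∑ w, l u * l w * (a u ⬝ᵥ a w) := by
  rw [Fintype.linearCombination_apply, sum_inner]
  refine Finset.sum_congr rfl fun u _ => ?_
  rw [inner_sum]
  refine Finset.sum_congr rfl fun w _ => ?_
  rw [real_inner_smul_left, real_inner_smul_right, inner_tl]
  ring

/-- a linear isometry of the Euclidean space with prescribed values -/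
theorem exists_isom {V : Type} [Fintype V] (a b : V → R3)
    (h : ∀ u w, a u ⬝ᵥ a w = b u ⬝ᵥ b w) : ∃ T : E3 →ₗᵢ[ℝ] E3, ∀ u, T (tl (a u)) = tl (b u) := by
  classical
  set f := Fintype.linearCombination ℝ (fun u => tl (a u)) with hf
  set g := Fintype.linearCombination ℝ (fun u => tl (b u)) with hg
  have hn : ∀ l, ‖f l‖ = ‖g l‖ := by
    intro l
    have h1 := inner_comb a l
    have h2 := inner_comb b l
    have h3 : inner ℝ (f l) (f l) = inner ℝ (g l) (g l) := by
      rw [hf, hg, h1, h2]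
      exact Finset.sum_congr rfl fun u _ => Finset.sum_congr rfl fun w _ => by rw [h u w]
    rw [real_inner_self_eq_norm_sq, real_inner_self_eq_norm_sq] at h3
    exact (pow_left_inj₀ (norm_nonneg _) (norm_nonneg _) two_ne_zero).mp h3
  have hker : LinearMap.ker f ≤ LinearMap.ker g := by
    intro l hl
    rw [LinearMap.mem_ker] at hl ⊢
    have h1 := hn l
    rw [hl, norm_zero] at h1
    exact norm_eq_zero.mp h1.symm
  let T₀ : LinearMap.range f →ₗ[ℝ] E3 :=
    ((LinearMap.ker f).liftQ g hker).comp f.quotKerEquivRange.symm.toLinearMap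
  have hT₀ : ∀ l (hl : f l ∈ LinearMap.range f), T₀ ⟨f l, hl⟩ = g l := by
    intro l hl
    simp only [T₀, LinearMap.comp_apply, LinearEquiv.coe_coe]
    rw [LinearMap.quotKerEquivRange_symm_apply_image, Submodule.mkQ_apply, Submodule.liftQ_apply]
  let T₁ : LinearMap.range f →ₗᵢ[ℝ] E3 := ⟨T₀, by
    rintro ⟨z, l, rfl⟩
    rw [hT₀ l ⟨l, rfl⟩, ← hn l]
    rfl⟩
  refine ⟨T₁.extend, fun u => ?_⟩
  have h1 : f (Pi.single u 1) = tl (a u) := by
    rw [hf, Fintype.linearCombination_apply_single, one_smul]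
  have h2 : g (Pi.single u 1) = tl (b u) := by
    rw [hg, Fintype.linearCombination_apply_single, one_smul]
  have h3 := T₁.extend_apply ⟨f (Pi.single u 1), ⟨_, rfl⟩⟩
  rw [← h1, ← h2, ← hT₀ _ ⟨_, rfl⟩]
  exact h3

/-- the matrix of a linear isometry -/
theorem exists_matrix (T : E3 →ₗᵢ[ℝ] E3) : ∃ A : Matrix (Fin 3) (Fin 3) ℝ, Aᵀ * A = 1 ∧
    ∀ x, tl (A *ᵥ x) = T (tl x) := by
  let L : R3 →ₗ[ℝ] R3 := (WithLp.linearEquiv 2 ℝ R3).toLinearMap.comp
    (T.toLinearMap.comp (WithLp.linearEquiv 2 ℝ R3).symm.toLinearMap)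
  have hL : ∀ x, tl (L x) = T (tl x) := fun x => rfl
  refine ⟨LinearMap.toMatrix' L, ?_, fun x => ?_⟩
  · have h1 : ∀ x y : R3, (LinearMap.toMatrix' L *ᵥ x) ⬝ᵥ (LinearMap.toMatrix' L *ᵥ y) = x ⬝ᵥ y := by
      intro x y
      rw [LinearMap.toMatrix'_mulVec, LinearMap.toMatrix'_mulVec, ← inner_tl, hL, hL,
        T.inner_map_map, inner_tl]
    ext i j
    have h2 := h1 (Pi.single i 1) (Pi.single j 1)
    rw [mulVec_single_one, mulVec_single_one, single_one_dotProduct] at h2
    rw [mul_apply, one_apply]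
    simp only [dotProduct, col_apply, Pi.single_apply] at h2
    simp only [transpose_apply]
    exact h2
  · rw [LinearMap.toMatrix'_mulVec, hL]

end pExtAux

open pExtAux in
theorem pExt : S_Ext := by
  intro V _ N x y h
  classical
  haveI := Fintype.ofFinite V
  by_cases hN : N.Nonempty
  · obtain ⟨u₀, hu₀⟩ := hN
    let a : V → R3 := fun u => if u ∈ N then x u - x u₀ else 0
    let b : V → R3 := fun u => if u ∈ N then y u - y u₀ else 0
    have ha : ∀ u ∈ N, a u = x u - x u₀ := fun u hu => if_pos hu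
    have hb : ∀ u ∈ N, b u = y u - y u₀ := fun u hu => if_pos hu
    have hgen : ∀ z : V → R3, ∀ u w, (z u - z u₀) ⬝ᵥ (z w - z u₀) =
        (dsq (z u) (z u₀) + dsq (z w) (z u₀) - dsq (z u) (z w)) / 2 := by
      intro z u w
      unfold dsq
      simp only [dotProduct, Fin.sum_univ_three, Pi.sub_apply]
      ring
    obtain ⟨T, hT⟩ := exists_isom a b (by
      intro u w
      by_cases hu : u ∈ N
      · by_cases hw : w ∈ N
        · rw [ha u hu, ha w hw, hb u hu, hb w hw, hgen, hgen, h u hu w hw, h u hu u₀ hu₀,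
            h w hw u₀ hu₀]
        · simp [a, b, hw]
      · simp [a, b, hu])
    obtain ⟨A, hA, hAT⟩ := exists_matrix T
    refine ⟨⟨A, y u₀ - A *ᵥ x u₀, hA⟩, fun u hu => ?_⟩
    have h1 := hT u
    rw [← hAT] at h1
    have h2 : A *ᵥ a u = b u := by
      have := congrArg (WithLp.ofLp) h1
      exact this
    rw [ha u hu, hb u hu, mulVec_sub] at h2
    have h3 : A *ᵥ x u = y u - y u₀ + A *ᵥ x u₀ := by rw [← h2]; abel
    show y u = A *ᵥ x u + (y u₀ - A *ᵥ x u₀)
    rw [h3]
    abel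
  · refine ⟨⟨1, 0, by simp⟩, fun u hu => absurd ⟨u, hu⟩ hN⟩

end Pool.Agent.MPf1f412
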