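import Pool.Agent.Lib.MP_f1f412_co.SpecP
import Pool.Agent.Lib.MP_f1f412_co.Basic

/-!
# MP_f1f412_co (C34), P9: (F4), the edges between two classes
-/

set_option autoImplicit false

namespace Pool.Agent.MPf1f412

open Matrix

private theorem row_aux {A B : Matrix (Fin 3) (Fin 3) ℝ} {s t x y : R3}
    (hx : A *ᵥ x + s = B *ᵥ x + t) (hy : A *ᵥ y + s = B *ᵥ y + t) (i : Fin 3) :
    (A i - B i) ⬝ᵥ (y - x) = 0 := by
  have h1 := congrFun hx i
  have h2 := congrFun hy i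
  simp only [Pi.add_apply, mulVec] at h1 h2
  rw [sub_dotProduct, dotProduct_sub, dotProduct_sub]
  linarith

private theorem four_pins {V K : Type} {G : SimpleGraph V} {p q : V → R3} {c : V → K}
    {g : K → Iso3} (hc : Function.Surjective c) (hG : Gn p) (hP : Pl G p q c g)
    (hM : MinPl G p q c) {X Y : K} (hXY : X ≠ Y) {a b d e : V} (hab : a ≠ b) (had : a ≠ d)
    (hae : a ≠ e) (hbd : b ≠ d) (hbe : b ≠ e) (hde : d ≠ e)
    (hXa : Pin G c X a) (hXb : Pin G c X b) (hXd : Pin G c X d) (hXe : Pin G c X e)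
    (hYa : Pin G c Y a) (hYb : Pin G c Y b) (hYd : Pin G c Y d) (hYe : Pin G c Y e) : False := by
  have ea : (g X).A *ᵥ p a + (g X).b = (g Y).A *ᵥ p a + (g Y).b :=
    (hP X a hXa).symm.trans (hP Y a hYa)
  have eb : (g X).A *ᵥ p b + (g X).b = (g Y).A *ᵥ p b + (g Y).b :=
    (hP X b hXb).symm.trans (hP Y b hYb)
  have ed : (g X).A *ᵥ p d + (g X).b = (g Y).A *ᵥ p d + (g Y).b :=
    (hP X d hXd).symm.trans (hP Y d hYd)
  have ee : (g X).A *ᵥ p e + (g X).b = (g Y).A *ᵥ p e + (g Y).b :=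
    (hP X e hXe).symm.trans (hP Y e hYe)
  have hA : (g X).A = (g Y).A := by
    funext i
    exact sub_eq_zero.1 (hG.dot3 hab had hae hbd hbe hde (row_aux ea eb i) (row_aux ea ed i)
      (row_aux ea ee i))
  have hb : (g X).b = (g Y).b := by
    rw [hA] at ea
    exact add_left_cancel ea
  refine hM X (hc X) Y (hc Y) hXY ⟨g X, hP X, fun u hu => ?_⟩
  rw [hP Y u hu]
  simp only [Iso3.ap, hA, hb]

theorem pF4 : S_F4 := by
  intro V K _ G p q c g hc hG hP hM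
  refine ⟨?_, ?_, ?_⟩
  · intro u w u' w' h1 h2 h3 h4 h5 h6
    by_contra hw
    have n1 : u ≠ w := h1.ne
    have n2 : u ≠ w' := fun h => h5 (by rw [h, ← h4])
    have n3 : u' ≠ w := fun h => h5 (by rw [h3, h])
    have n4 : u' ≠ w' := h2.ne
    refine four_pins hc hG hP hM h5 h6 n1 n2 n3 n4 hw
      ⟨u, rfl, Or.inl rfl⟩ ⟨u', h3.symm, Or.inl rfl⟩ ⟨u, rfl, Or.inr h1⟩ ⟨u', h3.symm, Or.inr h2⟩
      ⟨w, rfl, Or.inr h1.symm⟩ ⟨w', h4.symm, Or.inr h2.symm⟩ ⟨w, rfl, Or.inl rfl⟩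
      ⟨w', h4.symm, Or.inl rfl⟩
  · intro z a b d h1 h2 h3 h4 h5 h6
    by_contra hn
    have n1 : a ≠ b := fun h => hn (Or.inl h)
    have n2 : a ≠ d := fun h => hn (Or.inr (Or.inl h))
    have n3 : b ≠ d := fun h => hn (Or.inr (Or.inr h))
    exact four_pins hc hG hP hM h6 h1.ne h2.ne h3.ne n1 n2 n3
      ⟨z, rfl, Or.inl rfl⟩ ⟨z, rfl, Or.inr h1⟩ ⟨z, rfl, Or.inr h2⟩ ⟨z, rfl, Or.inr h3⟩
      ⟨a, rfl, Or.inr h1.symm⟩ ⟨a, rfl, Or.inl rfl⟩ ⟨b, h4.symm, Or.inl rfl⟩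
      ⟨d, (h4.trans h5).symm, Or.inl rfl⟩
  · intro z b b' h1 h2 h3 h4 h5
    by_contra hn
    push Not at hn
    obtain ⟨hn1, hn2⟩ := hn
    refine hM (c z) ⟨z, rfl⟩ (c b) ⟨b, rfl⟩ h5 ⟨g (c b), fun u hu => ?_, hP (c b)⟩
    obtain ⟨v, hv1, hv2⟩ := hu
    have hvz : v = z := by
      by_contra hvz
      exact hn1 v hvz hv1
    rw [hvz] at hv2
    refine hP (c b) u ?_
    rcases hv2 with h | h
    · exact ⟨b, rfl, Or.inr (h ▸ h1.symm)⟩
    · by_cases hub : u = b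
      · exact ⟨b, rfl, Or.inl hub⟩
      · exact ⟨b', h4.symm, Or.inl (hn2 u h hub)⟩

end Pool.Agent.MPf1f412
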