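import Pool.Agent.Lib.MP_f1f412_co.SpecP

/-!
# MP_f1f412_co (C34): minimal placements exist
-/

set_option autoImplicit false

namespace Pool.Agent.MPf1f412

open Matrix

private theorem pMinEx_dsq (x : R3) : dsq x x = 0 := by
  unfold dsq
  rw [sub_self]
  exact zero_dotProduct _

private theorem pMinEx_one (h1 : S_Ext) {V : Type} [Finite V] (G : SimpleGraph V) (p q : V → R3)
    (h : Eqv (square G) p q) (v : V) :
    ∃ g : Iso3, ∀ u, (u = v ∨ G.Adj v u) → q u = g.ap (p u) := by
  obtain ⟨g, hg⟩ := h1 V {u | u = v ∨ G.Adj v u} p q (by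
    intro u hu w hw
    by_cases huw : u = w
    · rw [huw, pMinEx_dsq, pMinEx_dsq]
    · apply h
      refine ⟨huw, ?_⟩
      rcases hu with hu | hu <;> rcases hw with hw | hw
      · exact absurd (hu.trans hw.symm) huw
      · rw [hu]
        exact Or.inl hw
      · rw [hw]
        exact Or.inl hu.symm
      · exact Or.inr ⟨v, hu.symm, hw⟩)
  exact ⟨g, fun u hu => hg u hu⟩

private theorem pMinEx_min (h1 : S_Ext) {V : Type} [Finite V] (G : SimpleGraph V) (p q : V → R3)
    (h : Eqv (square G) p q) :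
    ∃ (c : V → V) (g : V → Iso3), Pl G p q c g ∧ MinPl G p q c := by
  classical
  have hex : ∃ n, ∃ (c : V → V) (g : V → Iso3), Pl G p q c g ∧ (Set.range c).ncard = n := by
    choose g hg using pMinEx_one h1 G p q h
    refine ⟨_, id, g, ?_, rfl⟩
    rintro X u ⟨v, hv, hu⟩
    have hv' : v = X := hv
    subst hv'
    exact hg v u hu
  obtain ⟨c, g, hPl, hn⟩ := Nat.find_spec hex
  refine ⟨c, g, hPl, ?_⟩
  rintro X hX Y hY hXY ⟨k, hkX, hkY⟩
  let c' : V → V := fun v => if c v = Y then X else c v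
  let g' : V → Iso3 := fun Z => if Z = X then k else g Z
  have hPl' : Pl G p q c' g' := by
    rintro Z u ⟨v, hv, hu⟩
    by_cases hvY : c v = Y
    · have hZ : Z = X := by
        rw [← hv]
        exact if_pos hvY
      have hg' : g' Z = k := if_pos hZ
      rw [hg']
      exact hkY u ⟨v, hvY, hu⟩
    · have hZ : c v = Z := by
        rw [← hv]
        exact (if_neg hvY).symm
      by_cases hZX : Z = X
      · have hg' : g' Z = k := if_pos hZX
        rw [hg']
        exact hkX u ⟨v, hZ.trans hZX, hu⟩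
      · have hg' : g' Z = g Z := if_neg hZX
        rw [hg']
        exact hPl Z u ⟨v, hZ, hu⟩
  have hsub : Set.range c' ⊂ Set.range c := by
    refine ⟨?_, ?_⟩
    · rintro _ ⟨v, rfl⟩
      by_cases hvY : c v = Y
      · have e : c' v = X := if_pos hvY
        rw [e]
        exact hX
      · have e : c' v = c v := if_neg hvY
        rw [e]
        exact ⟨v, rfl⟩
    · intro hs
      obtain ⟨v, hv⟩ := hs hY
      by_cases hvY : c v = Y
      · have e : c' v = X := if_pos hvY
        exact hXY (e.symm.trans hv)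
      · have e : c' v = c v := if_neg hvY
        exact hvY (e.symm.trans hv)
  have hlt := Set.ncard_lt_ncard hsub (Set.toFinite _)
  rw [hn] at hlt
  exact Nat.find_min hex hlt ⟨c', g', hPl', rfl⟩

theorem pMinEx (h1 : S_Ext) : S_MinEx := by
  intro V _ _ G p q h
  obtain ⟨c, g, hPl, hmin⟩ := pMinEx_min h1 G p q h
  refine ⟨Set.range c, Set.rangeFactorization c, fun X => g X.1, Set.rangeFactorization_surjective,
    ?_, ?_⟩
  · rintro X u ⟨v, hv, hu⟩
    refine hPl X.1 u ⟨v, ?_, hu⟩
    rw [← hv]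
    rfl
  · rintro X _ Y _ hXY ⟨k, hkX, hkY⟩
    refine hmin X.1 X.2 Y.1 Y.2 (fun h => hXY (Subtype.ext h)) ⟨k, ?_, ?_⟩
    · rintro u ⟨v, hv, hu⟩
      exact hkX u ⟨v, Subtype.ext hv, hu⟩
    · rintro u ⟨v, hv, hu⟩
      exact hkY u ⟨v, Subtype.ext hv, hu⟩

end Pool.Agent.MPf1f412
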