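import Pool.Agent.Lib.MP_f1f412_co.SpecP

/-!
# MP_f1f412_co (C34), module POne: one class
-/

set_option autoImplicit false

namespace Pool.Agent.MPf1f412

open Matrix

theorem pOne : S_One := by
  intro V K G p q c g hPl hK u w
  have hu := hPl (c u) u ⟨u, rfl, Or.inl rfl⟩
  have hw := hPl (c w) w ⟨w, rfl, Or.inl rfl⟩
  rw [hK (c w) (c u)] at hw
  have h1 : q u - q w = (g (c u)).A *ᵥ (p u - p w) := by
    rw [hu, hw]
    unfold Iso3.ap
    rw [mulVec_sub]
    abel
  unfold dsq
  rw [h1, dotProduct_mulVec, ← mulVec_transpose, mulVec_mulVec, (g (c u)).orth, one_mulVec]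

end Pool.Agent.MPf1f412
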