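import Pool.Agent.Lib.MP_f1f412_co.SpecP

/-!
# MP_f1f412_co (C34), P5: twists of the image, pulled back
-/

set_option autoImplicit false

namespace Pool.Agent.MPf1f412

open Matrix

/-- the matrix of `x ↦ ω × x` -/
private def skP (w : R3) : Matrix (Fin 3) (Fin 3) ℝ :=
  !![0, - w 2, w 1; w 2, 0, - w 0; - w 1, w 0, 0]

private lemma skP_mulVec (w x : R3) : skP w *ᵥ x = cr w x := by
  ext i
  fin_cases i <;>
    simp [skP, cr, cross_apply, Matrix.mulVec, dotProduct, Fin.sum_univ_three] <;> ring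

private lemma skP_tr (w : R3) : (skP w)ᵀ = - skP w := by
  ext i j
  fin_cases i <;> fin_cases j <;> simp [skP]

private lemma skP_add (v w : R3) : skP (v + w) = skP v + skP w := by
  ext i j
  fin_cases i <;> fin_cases j <;> simp [skP] <;> ring

private lemma skP_smul (t : ℝ) (w : R3) : skP (t • w) = t • skP w := by
  ext i j
  fin_cases i <;> fin_cases j <;> simp [skP]

/-- the vector of a skew matrix -/
private def vcP (M : Matrix (Fin 3) (Fin 3) ℝ) : R3 := ![M 2 1, M 0 2, M 1 0]

private lemma vcP_spec (M : Matrix (Fin 3) (Fin 3) ℝ) (h : Mᵀ = - M) (x : R3) :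
    M *ᵥ x = cr (vcP M) x := by
  have e : ∀ i j, M j i = - M i j := fun i j => by
    have := congrFun (congrFun h i) j
    simpa using this
  have e00 : M 0 0 = 0 := by have := e 0 0; linarith
  have e11 : M 1 1 = 0 := by have := e 1 1; linarith
  have e22 : M 2 2 = 0 := by have := e 2 2; linarith
  have e01 := e 1 0
  have e12 := e 2 1
  have e20 := e 0 2
  ext i
  fin_cases i <;>
    simp [vcP, cr, cross_apply, Matrix.mulVec, dotProduct, Fin.sum_univ_three, e00, e11, e22,
      e01, e12, e20] <;> ring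

private lemma vcP_add (M N : Matrix (Fin 3) (Fin 3) ℝ) : vcP (M + N) = vcP M + vcP N := by
  ext i
  fin_cases i <;> simp [vcP]

private lemma vcP_smul (t : ℝ) (M : Matrix (Fin 3) (Fin 3) ℝ) : vcP (t • M) = t • vcP M := by
  ext i
  fin_cases i <;> simp [vcP]

private lemma cr_zero_all (w : R3) (h : ∀ x, cr w x = 0) : w = 0 := by
  have h0 := congrFun (h ![1, 0, 0])
  have h1 := congrFun (h ![0, 1, 0])
  have a1 := h0 1
  have a2 := h0 2
  have a0 := h1 2
  simp [cr, cross_apply] at a0 a1 a2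
  ext i
  fin_cases i
  · simpa using a0
  · simpa using a2
  · simpa using a1

theorem pPull : S_Pull := by
  intro g
  have hA : g.Aᵀ * g.A = 1 := g.orth
  have hA' : g.A * g.Aᵀ = 1 := mul_eq_one_comm.mp hA
  let M : R3 → Matrix (Fin 3) (Fin 3) ℝ := fun w => g.Aᵀ * skP w * g.A
  have Madd : ∀ v w, M (v + w) = M v + M w := fun v w => by
    simp only [M, skP_add, Matrix.mul_add, Matrix.add_mul]
  have Msmul : ∀ (t : ℝ) w, M (t • w) = t • M w := fun t w => by
    simp only [M, skP_smul, Matrix.mul_smul, Matrix.smul_mul]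
  have Mtr : ∀ w, (M w)ᵀ = - M w := fun w => by
    simp only [M, Matrix.transpose_mul, skP_tr, Matrix.transpose_transpose, Matrix.mul_neg,
      Matrix.neg_mul, Matrix.mul_assoc]
  let T : Tw →ₗ[ℝ] Tw :=
    { toFun := fun n => (vcP (M n.1), g.Aᵀ *ᵥ (cr n.1 g.b + n.2))
      map_add' := fun a b => by
        refine Prod.ext ?_ ?_
        · simp only [Prod.fst_add, Madd, vcP_add]
        · simp only [Prod.fst_add, Prod.snd_add, cr, map_add, LinearMap.add_apply,
            Matrix.mulVec_add]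
          abel
      map_smul' := fun t a => by
        refine Prod.ext ?_ ?_
        · simp only [Prod.smul_fst, Msmul, vcP_smul, RingHom.id_apply]
        · simp only [Prod.smul_fst, Prod.smul_snd, cr, map_smul, LinearMap.smul_apply,
            Matrix.mulVec_add, Matrix.mulVec_smul, RingHom.id_apply, smul_add] }
  have hT : ∀ n x, ev (T n) x = g.B *ᵥ ev n (g.ap x) := by
    intro n x
    show cr (vcP (M n.1)) x + g.Aᵀ *ᵥ (cr n.1 g.b + n.2) = g.Aᵀ *ᵥ (cr n.1 (g.A *ᵥ x + g.b) + n.2)
    rw [← vcP_spec _ (Mtr n.1) x]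
    have : M n.1 *ᵥ x = g.Aᵀ *ᵥ (cr n.1 (g.A *ᵥ x)) := by
      rw [← skP_mulVec]
      simp only [M, ← Matrix.mulVec_mulVec]
    rw [this]
    simp only [cr, map_add, Matrix.mulVec_add]
    abel
  refine ⟨T, hT, (injective_iff_map_eq_zero T).2 fun n hn => ?_⟩
  have key : ∀ y, ev n y = 0 := by
    intro y
    have h1 := hT n (g.Aᵀ *ᵥ (y - g.b))
    have h2 : g.ap (g.Aᵀ *ᵥ (y - g.b)) = y := by
      simp only [Iso3.ap, Matrix.mulVec_mulVec, hA', Matrix.one_mulVec]
      abel
    rw [h2, hn] at h1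
    have h3 : ev (0 : Tw) (g.Aᵀ *ᵥ (y - g.b)) = 0 := by
      simp [ev, cr]
    rw [h3] at h1
    have h4 : g.A *ᵥ (g.B *ᵥ ev n y) = 0 := by
      rw [← h1, Matrix.mulVec_zero]
    simpa only [Iso3.B, Matrix.mulVec_mulVec, hA', Matrix.one_mulVec] using h4
  have h2 : n.2 = 0 := by
    have := key 0
    simpa [ev, cr] using this
  have h1 : n.1 = 0 := cr_zero_all _ fun x => by
    have := key x
    simpa [ev, h2] using this
  exact Prod.ext h1 h2

end Pool.Agent.MPf1f412
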