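import Pool.Agent.Lib.MP_f1f412_co.SpecP

/-!
# MP_f1f412_co (C34): the transfer lemma (T)
-/

set_option autoImplicit false

namespace Pool.Agent.MPf1f412

open Matrix

private theorem pT_ev_add (m m' : Tw) (x : R3) : ev (m + m') x = ev m x + ev m' x := by
  unfold ev cr
  rw [Prod.fst_add, Prod.snd_add, map_add, LinearMap.add_apply]
  abel

private theorem pT_ev_smul (r : ℝ) (m : Tw) (x : R3) : ev (r • m) x = r • ev m x := by
  unfold ev cr
  rw [Prod.smul_fst, Prod.smul_snd, map_smul, LinearMap.smul_apply, smul_add]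

private theorem pT_ev_sub (m m' : Tw) (x : R3) : ev (m - m') x = ev m x - ev m' x := by
  have h := pT_ev_add (m - m') m' x
  rw [sub_add_cancel] at h
  rw [h]
  abel

private theorem pT_ev_zero (x : R3) : ev 0 x = 0 := by
  have h := pT_ev_smul 0 0 x
  rwa [zero_smul, zero_smul] at h

/-- a vector with vanishing cross product with `d ≠ 0` is a multiple of `d` -/
private theorem pT_par (w d : R3) (hd : d ≠ 0) (h : cr w d = 0) : ∃ t : ℝ, w = t • d := by
  unfold cr at h
  have h0 := congrFun h 0
  have h1 := congrFun h 1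
  have h2 := congrFun h 2
  simp only [cross_apply, Matrix.cons_val_zero, Matrix.cons_val_one, Matrix.cons_val,
    Pi.zero_apply] at h0 h1 h2
  have hne : d 0 ≠ 0 ∨ d 1 ≠ 0 ∨ d 2 ≠ 0 := by
    by_contra hcon
    push Not at hcon
    apply hd
    funext i
    fin_cases i
    · exact hcon.1
    · exact hcon.2.1
    · exact hcon.2.2
  rcases hne with hi | hi | hi
  · refine ⟨w 0 / d 0, ?_⟩
    funext i
    rw [Pi.smul_apply, smul_eq_mul]
    fin_cases i
    · simp only [Fin.zero_eta]; field_simp
    · simp only [Fin.mk_one]; field_simp; linarith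
    · simp only [Fin.reduceFinMk]; field_simp; linarith
  · refine ⟨w 1 / d 1, ?_⟩
    funext i
    rw [Pi.smul_apply, smul_eq_mul]
    fin_cases i
    · simp only [Fin.zero_eta]; field_simp; linarith
    · simp only [Fin.mk_one]; field_simp
    · simp only [Fin.reduceFinMk]; field_simp; linarith
  · refine ⟨w 2 / d 2, ?_⟩
    funext i
    rw [Pi.smul_apply, smul_eq_mul]
    fin_cases i
    · simp only [Fin.zero_eta]; field_simp; linarith
    · simp only [Fin.mk_one]; field_simp; linarith
    · simp only [Fin.reduceFinMk]; field_simp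

/-- (T1) a twist which vanishes at two different points is a rotation about their line -/
private theorem pT_line (m : Tw) (x y : R3) (hxy : x ≠ y) (hx : ev m x = 0) (hy : ev m y = 0) :
    ∃ t : ℝ, m = t • Ln x y := by
  have h1 : cr m.1 (y - x) = 0 := by
    have h2 : ev m y - ev m x = 0 := by rw [hx, hy, sub_zero]
    unfold ev cr at h2
    unfold cr
    rw [map_sub]
    rw [← h2]
    abel
  obtain ⟨t, ht⟩ := pT_par m.1 (y - x) (sub_ne_zero.2 (Ne.symm hxy)) h1
  refine ⟨t, Prod.ext ht ?_⟩
  have h3 : m.2 = - cr m.1 x := by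
    unfold ev at hx
    exact eq_neg_of_add_eq_zero_right hx
  rw [h3, ht]
  unfold Ln cr
  rw [Prod.smul_snd, map_smul, LinearMap.smul_apply, ← smul_neg, map_sub, LinearMap.sub_apply,
    cross_self, sub_zero, neg_cross]

/-- the solutions of the transfer equations -/
private def pT_AA {V K : Type} (G : SimpleGraph V) (p : V → R3) (c : V → K) (g : K → Iso3) :
    Submodule ℝ ((V → R3) × (V → R3) × (K → Tw)) where
  carrier := {x | ∀ X u, Pin G c X u → (g X).B *ᵥ x.2.1 u = x.1 u + ev (x.2.2 X) (p u)}
  add_mem' := by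
    intro x y hx hy X u h
    have h1 := hx X u h
    have h2 := hy X u h
    show (g X).B *ᵥ (x.2.1 u + y.2.1 u) = (x.1 u + y.1 u) + ev (x.2.2 X + y.2.2 X) (p u)
    rw [Matrix.mulVec_add, h1, h2, pT_ev_add]
    abel
  zero_mem' := by
    intro X u h
    show (g X).B *ᵥ 0 = 0 + ev 0 (p u)
    rw [Matrix.mulVec_zero, pT_ev_zero, add_zero]
  smul_mem' := by
    intro r x hx X u h
    have h1 := hx X u h
    show (g X).B *ᵥ (r • x.2.1 u) = r • x.1 u + ev (r • x.2.2 X) (p u)
    rw [Matrix.mulVec_smul, h1, pT_ev_smul, smul_add]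

private theorem pT_mem {V K : Type} {G : SimpleGraph V} {p : V → R3} {c : V → K} {g : K → Iso3}
    {x : (V → R3) × (V → R3) × (K → Tw)} : x ∈ pT_AA G p c g ↔
      ∀ X u, Pin G c X u → (g X).B *ᵥ x.2.1 u = x.1 u + ev (x.2.2 X) (p u) := Iff.rfl

private theorem pT_ne {V : Type} {p : V → R3} (h : Gn p) {u w : V} (huw : u ≠ w) : p u ≠ p w := by
  classical
  intro hp
  obtain ⟨D, hD⟩ := h (fun v => if v = u then (fun _ => 1) else 0)
  have h1 := hD u
  have h2 := hD w
  rw [hp, h2, if_pos rfl, if_neg huw.symm] at h1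
  have := congrFun h1 0
  norm_num at this

theorem pT (h1 : S_DIso) (h2 : S_Pull) : S_T := by
  intro V K _ _ G p q c g hc hGn hPl hRig η
  classical
  letI : Fintype V := Fintype.ofFinite V
  have : Finite K := Finite.of_surjective c hc
  letI : Fintype K := Fintype.ofFinite K
  obtain ⟨v₀⟩ := (inferInstance : Nonempty V)
  set X₀ : K := c v₀ with hX₀
  set πa : pT_AA G p c g →ₗ[ℝ] (V → R3) :=
    (LinearMap.fst ℝ (V → R3) ((V → R3) × (K → Tw))).comp (pT_AA G p c g).subtype with hπa
  set πe : pT_AA G p c g →ₗ[ℝ] (V → R3) :=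
    ((LinearMap.fst ℝ (V → R3) (K → Tw)).comp
      (LinearMap.snd ℝ (V → R3) ((V → R3) × (K → Tw)))).comp (pT_AA G p c g).subtype with hπe
  have ha : ∀ x : pT_AA G p c g, πa x = x.1.1 := fun x => rfl
  have he : ∀ x : pT_AA G p c g, πe x = x.1.2.1 := fun x => rfl
  -- (1)
  have hsurj : LinearMap.range πa = ⊤ := by
    rw [LinearMap.range_eq_top]
    intro a
    obtain ⟨D, hD⟩ := hGn a
    choose m hm using fun X => h1 D (g X)
    refine ⟨⟨(a, fun u => D3 D (q u), m), ?_⟩, rfl⟩
    rw [pT_mem]
    intro X u h
    show (g X).B *ᵥ D3 D (q u) = a u + ev (m X) (p u)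
    rw [hPl X u h, hm, hD]
  -- (2)
  choose T hT hTi using h2
  have hker : 6 ≤ Module.finrank ℝ (LinearMap.ker πa) := by
    have hmem : ∀ n : Tw, ((0 : V → R3), (fun u => ev n (q u)), fun X => T (g X) n) ∈
        pT_AA G p c g := by
      intro n
      rw [pT_mem]
      intro X u h
      show (g X).B *ᵥ ev n (q u) = 0 + ev (T (g X) n) (p u)
      rw [hT, hPl X u h, zero_add]
    let L : Tw →ₗ[ℝ] LinearMap.ker πa :=
      { toFun := fun n => ⟨⟨_, hmem n⟩, rfl⟩
        map_add' := by
          intro n n'
          apply Subtype.ext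
          apply Subtype.ext
          show ((0 : V → R3), (fun u => ev (n + n') (q u)), fun X => T (g X) (n + n')) =
            ((0 : V → R3) + 0, (fun u => ev n (q u)) + (fun u => ev n' (q u)),
              (fun X => T (g X) n) + fun X => T (g X) n')
          refine Prod.ext (by simp) (Prod.ext ?_ ?_)
          · funext u
            exact pT_ev_add n n' (q u)
          · funext X
            exact map_add (T (g X)) n n'
        map_smul' := by
          intro r n
          apply Subtype.ext
          apply Subtype.ext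
          show ((0 : V → R3), (fun u => ev (r • n) (q u)), fun X => T (g X) (r • n)) =
            (r • (0 : V → R3), r • (fun u => ev n (q u)), r • fun X => T (g X) n)
          refine Prod.ext (by simp) (Prod.ext ?_ ?_)
          · funext u
            exact pT_ev_smul r n (q u)
          · funext X
            exact map_smul (T (g X)) r n }
    have hL : Function.Injective L := by
      intro n n' h
      have h3 := congrArg (fun x : LinearMap.ker πa => x.1.1.2.2 X₀) h
      exact hTi (g X₀) h3
    have h3 := LinearMap.finrank_le_finrank_of_injective hL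
    have h4 : Module.finrank ℝ Tw = 6 := by
      rw [Module.finrank_prod, Module.finrank_fin_fun]
    omega
  -- (3)
  have hker2 : Module.finrank ℝ (LinearMap.ker πe) ≤ 6 := by
    let L : LinearMap.ker πe →ₗ[ℝ] Tw :=
      { toFun := fun x => x.1.1.2.2 X₀
        map_add' := fun x y => rfl
        map_smul' := fun r x => rfl }
    have hL : Function.Injective L := by
      rw [injective_iff_map_eq_zero]
      rintro ⟨⟨⟨a, e, m⟩, hx⟩, hx'⟩ hm
      have hm0 : m X₀ = 0 := hm
      have he0 : e = 0 := hx'
      subst he0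
      rw [pT_mem] at hx
      have hx2 : ∀ X u, Pin G c X u → a u + ev (m X) (p u) = 0 := by
        intro X u h
        have h3 := hx X u h
        have h4 : (g X).B *ᵥ (0 : R3) = a u + ev (m X) (p u) := h3
        rw [Matrix.mulVec_zero] at h4
        exact h4.symm
      have hmot : IsMot G c p Set.univ m := by
        intro u w hcre
        obtain ⟨hadj, -, -, hne⟩ := hcre
        have huw : u ≠ w := hadj.ne
        refine pT_line _ _ _ (pT_ne hGn huw) ?_ ?_
        · have e1 := hx2 (c u) u ⟨u, rfl, Or.inl rfl⟩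
          have e2 := hx2 (c w) u ⟨w, rfl, Or.inr hadj.symm⟩
          rw [pT_ev_sub]
          rw [eq_neg_of_add_eq_zero_right e1, eq_neg_of_add_eq_zero_right e2, sub_self]
        · have e1 := hx2 (c u) w ⟨u, rfl, Or.inr hadj⟩
          have e2 := hx2 (c w) w ⟨w, rfl, Or.inl rfl⟩
          rw [pT_ev_sub]
          rw [eq_neg_of_add_eq_zero_right e1, eq_neg_of_add_eq_zero_right e2, sub_self]
      have hm1 : m = 0 := by
        funext X
        rw [hRig m hmot X (Set.mem_univ _) X₀ (Set.mem_univ _), hm0]
        rfl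
      have ha1 : a = 0 := by
        funext u
        have h3 := hx2 (c u) u ⟨u, rfl, Or.inl rfl⟩
        rw [hm1] at h3
        have h4 : a u + ev 0 (p u) = 0 := h3
        rw [pT_ev_zero, add_zero] at h4
        exact h4
      subst hm1 ha1
      rfl
    have h3 := LinearMap.finrank_le_finrank_of_injective hL
    have h4 : Module.finrank ℝ Tw = 6 := by
      rw [Module.finrank_prod, Module.finrank_fin_fun]
    omega
  -- (4)
  have hr1 := LinearMap.finrank_range_add_finrank_ker πa
  have hr2 := LinearMap.finrank_range_add_finrank_ker πe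
  rw [hsurj, finrank_top] at hr1
  have htop : LinearMap.range πe = ⊤ := by
    apply Submodule.eq_top_of_finrank_eq
    have h3 := Submodule.finrank_le (LinearMap.range πe)
    omega
  rw [LinearMap.range_eq_top] at htop
  obtain ⟨x, hx⟩ := htop η
  refine ⟨x.1.2.2, fun X Y u hX hY => ?_⟩
  have e1 := (pT_mem.1 x.2) X u hX
  have e2 := (pT_mem.1 x.2) Y u hY
  rw [he] at hx
  rw [hx] at e1 e2
  rw [pT_ev_sub, Matrix.sub_mulVec, e1, e2]
  abel

end Pool.Agent.MPf1f412
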