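import Pool.Agent.Lib.MP_f1f412_co.SpecP

/-!
# MP_f1f412_co (C34), (T0): different classes with a common pin (`S_T0`)
-/

set_option autoImplicit false

namespace Pool.Agent.MPf1f412

open Matrix

theorem pT0 : S_T0 := by
  intro V K G p q c g hc hP hM X Y z hXY hX hY hB
  have hA : (g X).A = (g Y).A := by
    have h := congrArg Matrix.transpose hB
    unfold Iso3.B at h
    rwa [Matrix.transpose_transpose, Matrix.transpose_transpose] at h
  have hz : (g X).ap (p z) = (g Y).ap (p z) := (hP X z hX).symm.trans (hP Y z hY)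
  have hb : (g X).b = (g Y).b := by
    unfold Iso3.ap at hz
    rw [hA] at hz
    exact add_left_cancel hz
  refine hM X (hc.range_eq ▸ Set.mem_univ X) Y (hc.range_eq ▸ Set.mem_univ Y) hXY
    ⟨g X, fun u hu => hP X u hu, fun u hu => ?_⟩
  rw [hP Y u hu]
  unfold Iso3.ap
  rw [hA, hb]

end Pool.Agent.MPf1f412
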