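import Pool.Agent.Lib.MP_f1f412_co.SpecQ

/-!
# MP_f1f412_co: symmetric coefficients of a motion (`S_QCo`)
-/

set_option autoImplicit false

namespace Pool.Agent.MPf1f412

private theorem qCo_cre_symm {V K : Type} {G : SimpleGraph V} {c : V → K} {S : Set K} {u w : V}
    (h : Cre G c S u w) : Cre G c S w u :=
  ⟨h.1.symm, h.2.2.1, h.2.1, h.2.2.2.symm⟩

private theorem qCo_Ln (x y : R3) : Ln y x = - Ln x y := by
  unfold Ln cr
  rw [← neg_cross, Prod.neg_mk, neg_sub]

/-- **QCo.** Coefficients. -/
theorem qCo : S_QCo := by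
  classical
  intro V K G c p S m hm
  let t : V → V → ℝ := fun u w => if h : Cre G c S u w then Classical.choose (hm u w h) else 0
  have ht : ∀ u w, Cre G c S u w → m (c u) - m (c w) = t u w • Ln (p u) (p w) := by
    intro u w h
    have h1 : t u w = Classical.choose (hm u w h) := dif_pos h
    rw [h1]
    exact Classical.choose_spec (hm u w h)
  refine ⟨fun u w => (t u w + t w u) / 2, fun u w h => ?_, fun u w => by ring⟩
  have h1 := ht u w h
  have h2 := ht w u (qCo_cre_symm h)
  rw [qCo_Ln (p u) (p w), smul_neg] at h2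
  have h3 : m (c u) - m (c w) = t w u • Ln (p u) (p w) := by
    rw [← neg_sub, h2, neg_neg]
  have h4 : ((t u w + t w u) / 2) • Ln (p u) (p w) =
      (1 / 2 : ℝ) • (t u w • Ln (p u) (p w) + t w u • Ln (p u) (p w)) := by
    rw [← add_smul, smul_smul]
    ring_nf
  rw [h4, ← h1, ← h3, ← two_smul ℝ, smul_smul]
  norm_num

end Pool.Agent.MPf1f412
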