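import Pool.Agent.Lib.MP_f1f412_co.SpecQ
import Pool.Agent.Lib.MP_f1f412_co.Basic

/-!
# MP_f1f412_co (C34), QDual: the loaded lambda
-/

set_option autoImplicit false

namespace Pool.Agent.MPf1f412

theorem qDual (h1 : S_QLin) : S_QDual := by
  classical
  intro V K _ G c p S Y₁ Y₂ l hY hl
  let P : K → ((K → Tw) →ₗ[ℝ] Tw) := fun X => LinearMap.proj X
  let f : V × V → (K → Tw) →ₗ[ℝ] Tw := fun z =>
    if Cre G c S z.1 z.2 then P (c z.1) - P (c z.2) else 0
  have hf1 : ∀ z : V × V, Cre G c S z.1 z.2 → ∀ m : K → Tw, f z m = m (c z.1) - m (c z.2) := by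
    intro z hz m
    show (if Cre G c S z.1 z.2 then P (c z.1) - P (c z.2) else 0) m = _
    rw [if_pos hz]
    rfl
  have hf0 : ∀ z : V × V, ¬ Cre G c S z.1 z.2 → ∀ m : K → Tw, f z m = 0 := by
    intro z hz m
    show (if Cre G c S z.1 z.2 then P (c z.1) - P (c z.2) else 0) m = _
    rw [if_neg hz]
    rfl
  let φ : (K → Tw) →ₗ[ℝ] ℝ := (klB l) ∘ₗ (P Y₁ - P Y₂)
  have hφ : ∀ m : K → Tw, φ m = kl l (m Y₁ - m Y₂) := fun m => rfl
  obtain ⟨ν, hν, hsum⟩ := h1 (V × V) (K → Tw) f (fun z => Ln (p z.1) (p z.2)) φ (by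
    intro m hm
    rw [hφ]
    apply hl
    intro u w huw
    obtain ⟨t, ht⟩ := hm (u, w)
    rw [hf1 (u, w) huw] at ht
    exact ⟨t, ht⟩)
  let lam : V → V → Tw := fun u w => if Cre G c S u w then ν (u, w) - ν (w, u) else 0
  have hlam1 : ∀ u w, Cre G c S u w → lam u w = ν (u, w) - ν (w, u) := fun u w h => if_pos h
  have hlam0 : ∀ u w, ¬ Cre G c S u w → lam u w = 0 := fun u w h => if_neg h
  have hpre : Pre G c p S lam := by
    refine ⟨fun u w => ?_, fun u w => ?_, fun u w h => ?_⟩
    · by_cases h : Cre G c S u w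
      · rw [hlam1 u w h, hlam1 w u h.symm, neg_sub]
      · rw [hlam0 u w h, hlam0 w u (fun h' => h h'.symm), neg_zero]
    · by_cases h : Cre G c S u w
      · rw [hlam1 u w h, kl_sub_left, hν (u, w), Ln_swap (p w) (p u), kl_neg_right, hν (w, u)]
        simp
      · rw [hlam0 u w h, kl_zero_left]
    · by_contra h'
      exact h (hlam0 u w h')
  have hvw : ∀ m' : K → Tw, ∑ u, kl (∑ w, lam u w) (m' (c u)) = kl l (m' Y₁ - m' Y₂) := by
    intro m'
    rw [← hφ, hsum m', Fintype.sum_prod_type]
    have e1 : ∀ u, kl (∑ w, lam u w) (m' (c u)) = ∑ w, kl (lam u w) (m' (c u)) := fun u =>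
      kl_sum_left _ _ _
    simp_rw [e1]
    let a : V → V → ℝ := fun u w => if Cre G c S u w then kl (ν (u, w)) (m' (c u)) else 0
    let b : V → V → ℝ := fun u w => if Cre G c S u w then kl (ν (u, w)) (m' (c w)) else 0
    have e2 : ∀ u w, kl (lam u w) (m' (c u)) = a u w - b w u := by
      intro u w
      show _ = (if Cre G c S u w then kl (ν (u, w)) (m' (c u)) else 0) -
        (if Cre G c S w u then kl (ν (w, u)) (m' (c u)) else 0)
      by_cases h : Cre G c S u w
      · rw [hlam1 u w h, if_pos h, if_pos h.symm, kl_sub_left]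
      · rw [hlam0 u w h, if_neg h, if_neg (fun h' => h h'.symm), kl_zero_left, sub_zero]
    have e3 : ∀ u w, kl (ν (u, w)) (f (u, w) m') = a u w - b u w := by
      intro u w
      show _ = (if Cre G c S u w then kl (ν (u, w)) (m' (c u)) else 0) -
        (if Cre G c S u w then kl (ν (u, w)) (m' (c w)) else 0)
      by_cases h : Cre G c S u w
      · rw [hf1 (u, w) h, if_pos h, if_pos h, kl_sub_right]
      · rw [hf0 (u, w) h, if_neg h, if_neg h, kl_zero_right, sub_zero]
    simp_rw [e2, e3, Finset.sum_sub_distrib]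
    rw [Finset.sum_comm (f := fun u w => b w u)]
  have hout : ∀ X x, kl (out c lam X) x =
      kl l (Function.update (0 : K → Tw) X x Y₁ - Function.update (0 : K → Tw) X x Y₂) := by
    intro X x
    rw [← hvw]
    unfold out
    rw [kl_sum_left]
    refine Finset.sum_congr rfl fun u _ => ?_
    by_cases hu : c u = X
    · rw [Set.indicator_of_mem (show u ∈ ({u | c u = X} : Set V) from hu), hu,
        Function.update_self]
    · rw [Set.indicator_of_notMem (show u ∉ ({u | c u = X} : Set V) from hu),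
        Function.update_of_ne hu, kl_zero_left, Pi.zero_apply, kl_zero_right]
  refine ⟨lam, hpre, hvw, ?_, ?_, ?_⟩
  · rw [← sub_eq_zero]
    refine kl_nondeg fun x => ?_
    rw [kl_sub_left, hout, Function.update_self, Function.update_of_ne hY.symm, Pi.zero_apply,
      sub_zero, sub_self]
  · rw [← sub_eq_zero]
    refine kl_nondeg fun x => ?_
    rw [kl_sub_left, hout, Function.update_self, Function.update_of_ne hY, Pi.zero_apply,
      zero_sub, kl_neg_left, kl_neg_right, sub_self]
  · intro X h1 h2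
    refine kl_nondeg fun x => ?_
    rw [hout, Function.update_of_ne h1.symm, Function.update_of_ne h2.symm, Pi.zero_apply,
      Pi.zero_apply, sub_zero, kl_zero_right]

end Pool.Agent.MPf1f412
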