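import Pool.Agent.Lib.MP_f1f412_co.SpecQ
import Pool.Agent.Lib.MP_f1f412_co.Basic

/-!
# MP_f1f412_co (C34): D0+ for fully flexible structures
-/

set_option autoImplicit false

namespace Pool.Agent.MPf1f412

open Matrix

theorem qFF (hGenM : S_GenM) (hCo : S_QCo) (hOm : S_QOm) (hDual : S_QDual) (hStar : S_QStar)
    (hY1 : S_QY1) (hY2 : S_QY2) (hMain : S_QMain) : S_QFF := by
  classical
  intro V K _ G c p S hS hp hNT hFF y₁ Y₂ hy₁ hY₂ hne hev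
  obtain ⟨m, hm, hinj⟩ := hGenM V K G c p S hS hFF
  obtain ⟨C, hC⟩ := hCo V K G c p S m hm
  -- the vector `ω`
  obtain ⟨ω, hω0, hω⟩ := hOm (Set.range (fun w : V => p w - p y₁) ∪
    Set.range (fun w : V => (m (c y₁) - m Y₂).1 - C y₁ w • (p w - p y₁)))
    ((Set.finite_range _).union (Set.finite_range _))
  have hω1 : ∀ w, w ≠ y₁ → cr ω (p w - p y₁) ≠ 0 := by
    intro w hw
    refine hω _ (Or.inl ⟨w, rfl⟩) ?_
    exact sub_ne_zero.2 (hp.inj hw)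
  have hω2 : ∀ w, (m (c y₁) - m Y₂).1 - C y₁ w • (p w - p y₁) ≠ 0 →
      cr ω ((m (c y₁) - m Y₂).1 - C y₁ w • (p w - p y₁)) ≠ 0 := by
    intro w hw
    exact hω _ (Or.inr ⟨w, rfl⟩) hw
  -- the load
  obtain ⟨l, hl⟩ : ∃ l : Tw, l = (ω, cr (p y₁) ω) := ⟨_, rfl⟩
  have hl0 : l ≠ 0 := by
    rintro h
    rw [hl] at h
    exact hω0 (congrArg Prod.fst h)
  have hlev : ev l (p y₁) = 0 := by
    rw [hl]
    change cr ω (p y₁) + cr (p y₁) ω = 0
    rw [cr_anti ω (p y₁), add_neg_cancel]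
  have hkl : ∀ m', IsMot G c p S m' → kl l (m' (c y₁) - m' Y₂) = 0 := by
    intro m' hm'
    rw [t4 hlev, hev m' hm', dotProduct_zero]
  obtain ⟨lam, hlam⟩ := hDual V K G c p S (c y₁) Y₂ l hne hkl
  obtain ⟨hst1, hst2⟩ := hStar V K G c p S m C lam (c y₁) Y₂ y₁ ω hp hC (hl ▸ hlam) (hev m hm)
  have hC0 : ∀ u w, lam u w ≠ 0 → C u w ≠ 0 := by
    intro u w h hc
    have h1 := hlam.pre.supp u w h
    have h2 := hC.1 u w h1
    rw [hc, zero_smul, sub_eq_zero] at h2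
    exact h1.2.2.2 (hinj h1.2.1 h1.2.2.1 h2)
  -- there are pairs at both classes
  have hex : ∀ X, out c lam X ≠ 0 → ∃ u w, c u = X ∧ lam u w ≠ 0 := by
    intro X hX
    by_contra hcon
    push Not at hcon
    apply hX
    unfold out
    refine Finset.sum_eq_zero fun u _ => ?_
    by_cases hu : c u = X
    · rw [Set.indicator_of_mem (show u ∈ ({u | c u = X} : Set V) from hu)]
      exact Finset.sum_eq_zero fun w _ => hcon u w hu
    · exact Set.indicator_of_notMem (show u ∉ ({u | c u = X} : Set V) from hu) _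
  obtain ⟨u₁, w₁, hu₁, hl₁⟩ := hex (c y₁) (by rw [hlam.out1]; exact hl0)
  obtain ⟨u₂, w₂, hu₂, hl₂⟩ := hex Y₂ (by rw [hlam.out2]; exact neg_ne_zero.2 hl0)
  by_cases h2 : ∀ u' w', c u' = Y₂ → lam u' w' ≠ 0 → u' = u₂ ∧ w' = w₂
  · have h3 := hY2 V K c p C lam Y₂ y₁ ω hne hω1 hC0 hst1 (by rw [hlam.out2, hl]) u₂ w₂ hu₂ hl₂ h2
    have h4 := hlam.pre.supp u₂ w₂ hl₂
    rw [h3] at h4
    exact ⟨u₂, h4.1.symm, hu₂⟩
  · by_cases h1 : ∀ u' w', c u' = c y₁ → lam u' w' ≠ 0 → u' = u₁ ∧ w' = w₁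
    · obtain ⟨h3, h5⟩ := hY1 V K G c p S m C lam Y₂ y₁ ω hC hinj hY₂ hlam.pre hω1 hω2 hC0 (hev m hm)
        hst1 hst2 (by rw [hlam.out1, hl]) u₁ w₁ hu₁ hl₁ h1
      have h4 := hlam.pre.supp u₁ w₁ hl₁
      rw [h3] at h4
      exact ⟨w₁, h4.1, h5⟩
    · exfalso
      push Not at h1 h2
      obtain ⟨a, b, ha, hab, hne1⟩ := h1
      obtain ⟨a', b', ha', hab', hne2⟩ := h2
      refine hMain V K G c p S m C lam Y₂ y₁ hS hp hNT hFF hC hinj hlam.pre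
        (fun X h3 h4 => hlam.out0 X h3 h4) hst1 ⟨u₁, w₁, a, b, hu₁, ha, hl₁, hab, ?_⟩
        ⟨u₂, w₂, a', b', hu₂, ha', hl₂, hab', ?_⟩
      · intro h
        exact hne1 (congrArg Prod.fst h).symm (congrArg Prod.snd h).symm
      · intro h
        exact hne2 (congrArg Prod.fst h).symm (congrArg Prod.snd h).symm

end Pool.Agent.MPf1f412
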