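import Pool.Agent.Lib.MP_f1f412_co.SpecQ
import Pool.Agent.Lib.MP_f1f412_co.Basic

/-!
# MP_f1f412_co (C34), QLin: linear duality with the Klein form
-/

set_option autoImplicit false

namespace Pool.Agent.MPf1f412

/-- every functional on the twists is `kl b` -/
private theorem exists_kl (ψ : Tw →ₗ[ℝ] ℝ) : ∃ b : Tw, ∀ x, ψ x = kl b x := by
  refine ⟨(klB.toDual klB_nondegenerate).symm ψ, fun x => ?_⟩
  have h := LinearMap.BilinForm.apply_toDual_symm_apply (B := klB) (hB := klB_nondegenerate) ψ x
  rw [← klB_apply]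
  exact h.symm

theorem qLin : S_QLin := by
  classical
  intro I W _ _ _ f L φ hφ
  let g : W →ₗ[ℝ] (I → Tw) := LinearMap.pi f
  let N : Submodule ℝ (I → Tw) := Submodule.pi Set.univ (fun i => Submodule.span ℝ {L i})
  have hker : φ ∈ (LinearMap.ker (N.mkQ ∘ₗ g)).dualAnnihilator := by
    rw [Submodule.mem_dualAnnihilator]
    intro x hx
    apply hφ
    intro i
    rw [LinearMap.mem_ker, LinearMap.comp_apply, Submodule.mkQ_apply,
      Submodule.Quotient.mk_eq_zero] at hx
    have h1 := (Submodule.mem_pi.1 hx) i (Set.mem_univ i)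
    obtain ⟨t, ht⟩ := Submodule.mem_span_singleton.1 h1
    exact ⟨t, ht.symm⟩
  rw [← LinearMap.range_dualMap_eq_dualAnnihilator_ker] at hker
  obtain ⟨ψ, hψ⟩ := hker
  have hψ' : ∀ x, ψ (N.mkQ (g x)) = φ x := fun x => by
    rw [← hψ]
    rfl
  choose b hb using fun i : I => exists_kl (ψ ∘ₗ N.mkQ ∘ₗ LinearMap.single ℝ (fun _ : I => Tw) i)
  refine ⟨b, fun i => ?_, fun x => ?_⟩
  · rw [← hb i (L i)]
    simp only [LinearMap.comp_apply]
    have h2 : N.mkQ (LinearMap.single ℝ (fun _ : I => Tw) i (L i)) = 0 := by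
      rw [Submodule.mkQ_apply, Submodule.Quotient.mk_eq_zero]
      rw [Submodule.mem_pi]
      intro j _
      by_cases hj : j = i
      · subst hj
        rw [LinearMap.single_apply, Pi.single_eq_same]
        exact Submodule.mem_span_singleton_self _
      · rw [LinearMap.single_apply, Pi.single_eq_of_ne hj]
        exact Submodule.zero_mem _
    rw [h2, map_zero]
  · rw [← hψ' x]
    have h3 : g x = ∑ i, LinearMap.single ℝ (fun _ : I => Tw) i (f i x) := by
      have := (Finset.univ_sum_single (g x)).symm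
      exact this
    rw [h3, map_sum, map_sum]
    refine Finset.sum_congr rfl fun i _ => ?_
    rw [← hb i (f i x)]
    rfl

end Pool.Agent.MPf1f412
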