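import Pool.Agent.Lib.MP_f1f412_co.SpecQ
import Pool.Agent.Lib.MP_f1f412_co.Basic

/-!
# MP_f1f412_co (C34), module QMain: the count for D0+
-/

set_option autoImplicit false

namespace Pool.Agent.MPf1f412

open Matrix

private theorem qm_out {V K : Type} [Fintype V] [DecidableEq K] (c : V → K) (lam : V → V → Tw)
    (X : K) [DecidablePred fun z : V × V => lam z.1 z.2 ≠ 0] :
    out c lam X = ∑ z ∈ ((Finset.univ : Finset (V × V)).filter
      fun z => lam z.1 z.2 ≠ 0).filter (fun z => c z.1 = X), lam z.1 z.2 := by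
  classical
  unfold out
  rw [Finset.sum_filter, Finset.sum_filter, Fintype.sum_prod_type]
  refine Finset.sum_congr rfl fun u _ => ?_
  by_cases h : c u = X
  · rw [Set.indicator_of_mem (show u ∈ {u | c u = X} from h)]
    refine Finset.sum_congr rfl fun w _ => ?_
    by_cases h' : lam u w = 0
    · simp [h']
    · simp [h', h]
  · rw [Set.indicator_of_notMem (show u ∉ {u | c u = X} from h)]
    symm
    refine Finset.sum_eq_zero fun w _ => ?_
    by_cases h' : lam u w = 0
    · simp [h']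
    · simp [h', h]

theorem qMain (h1 : S_LemN) (h2 : S_Cnt) (h3 : S_NoDbl) (h4 : S_DIM) (h5 : S_D0) (h6 : S_QSup)
    (h7 : S_QSix) : S_QMain := by
  intro V K _ G c p S m C lam Y₂ y₁ hS hp hT hF hC hinj hpre hout hst hd1 hd2
  classical
  have hmot : IsMot G c p S m := fun u w h => ⟨C u w, hC.1 u w h⟩
  set P : Finset (V × V) := Finset.univ.filter fun z => lam z.1 z.2 ≠ 0 with hP
  have hPmem : ∀ u w, (u, w) ∈ P ↔ lam u w ≠ 0 := by
    intro u w
    simp [hP]
  have hPs : ∀ u w, (u, w) ∈ P → (w, u) ∈ P := by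
    intro u w h
    rw [hPmem] at h ⊢
    rw [hpre.anti u w]
    exact neg_ne_zero.mpr h
  have hC0 : ∀ u w, lam u w ≠ 0 → C u w ≠ 0 := by
    intro u w h h0
    have hc := hpre.supp u w h
    have h' := hC.1 u w hc
    rw [h0, zero_smul, sub_eq_zero] at h'
    exact hc.2.2.2 (hinj hc.2.1 hc.2.2.1 h')
  -- degrees
  have hdeg2 : ∀ X : K, (∃ u w u' w', c u = X ∧ c u' = X ∧ lam u w ≠ 0 ∧ lam u' w' ≠ 0 ∧
      (u, w) ≠ (u', w')) → 2 ≤ (P.filter fun z' => c z'.1 = X).card := by
    rintro X ⟨u, w, u', w', hu, hu', hl, hl', hne⟩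
    have hsub : ({(u, w), (u', w')} : Finset (V × V)) ⊆ P.filter fun z' => c z'.1 = X := by
      intro z hz
      rw [Finset.mem_insert, Finset.mem_singleton] at hz
      rcases hz with rfl | rfl
      · exact Finset.mem_filter.mpr ⟨(hPmem _ _).mpr hl, hu⟩
      · exact Finset.mem_filter.mpr ⟨(hPmem _ _).mpr hl', hu'⟩
    calc 2 = ({(u, w), (u', w')} : Finset (V × V)).card := (Finset.card_pair hne).symm
      _ ≤ _ := Finset.card_le_card hsub
  have hdeg : ∀ z ∈ P, 2 ≤ (P.filter fun z' => c z'.1 = c z.1).card := by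
    rintro ⟨u, w⟩ hz
    by_cases ha : c u = c y₁
    · have := hdeg2 _ hd1
      simpa only [ha] using this
    by_cases hb : c u = Y₂
    · have := hdeg2 _ hd2
      simpa only [hb] using this
    by_contra hlt
    have hmem : (u, w) ∈ P.filter fun z' => c z'.1 = c u := Finset.mem_filter.mpr ⟨hz, rfl⟩
    have hone : (P.filter fun z' => c z'.1 = c u).card = 1 := by
      have := Finset.card_pos.mpr ⟨_, hmem⟩
      simp only at hlt
      omega
    obtain ⟨z, hz'⟩ := Finset.card_eq_one.mp hone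
    have hzz : (u, w) = z := by
      rw [hz', Finset.mem_singleton] at hmem
      exact hmem
    have ho := hout (c u) ha hb
    rw [qm_out c lam (c u)] at ho
    rw [← hP, hz', Finset.sum_singleton, ← hzz] at ho
    exact (hPmem u w).mp hz ho
  -- no two adjacent classes of degree two
  have hadj : ∀ u w, (u, w) ∈ P → c u ∉ ({c y₁, Y₂} : Finset K) → c w ∉ ({c y₁, Y₂} : Finset K) →
      3 ≤ (P.filter fun z' => c z'.1 = c u).card ∨
      3 ≤ (P.filter fun z' => c z'.1 = c w).card := by
    intro u w hz hu hw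
    by_contra hcon
    rw [not_or, not_le, not_le] at hcon
    have hu2 : (P.filter fun z' => c z'.1 = c u).card = 2 := by
      have := hdeg (u, w) hz
      simp only at this
      omega
    have hw2 : (P.filter fun z' => c z'.1 = c w).card = 2 := by
      have := hdeg (w, u) (hPs _ _ hz)
      simp only at this
      omega
    rw [Finset.mem_insert, Finset.mem_singleton, not_or] at hu hw
    have hother : ∀ a b, (a, b) ∈ P → (P.filter fun z' => c z'.1 = c a).card = 2 →
        ∃ a' b', c a' = c a ∧ lam a' b' ≠ 0 ∧ (a', b') ≠ (a, b) ∧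
          ∀ x y, c x = c a → lam x y ≠ 0 → (x, y) = (a, b) ∨ (x, y) = (a', b') := by
      intro a b hab h2'
      have hmem : (a, b) ∈ P.filter fun z' => c z'.1 = c a := Finset.mem_filter.mpr ⟨hab, rfl⟩
      have her : ((P.filter fun z' => c z'.1 = c a).erase (a, b)).card = 1 := by
        rw [Finset.card_erase_of_mem hmem, h2']
      obtain ⟨⟨a', b'⟩, hz'⟩ := Finset.card_eq_one.mp her
      have hm' : (a', b') ∈ (P.filter fun z' => c z'.1 = c a).erase (a, b) := by
        rw [hz']
        exact Finset.mem_singleton_self _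
      rw [Finset.mem_erase, Finset.mem_filter] at hm'
      refine ⟨a', b', hm'.2.2, (hPmem _ _).mp hm'.2.1, hm'.1, fun x y hx hxy => ?_⟩
      by_cases he : (x, y) = (a, b)
      · exact Or.inl he
      · right
        have : (x, y) ∈ (P.filter fun z' => c z'.1 = c a).erase (a, b) :=
          Finset.mem_erase.mpr ⟨he, Finset.mem_filter.mpr ⟨(hPmem _ _).mpr hxy, hx⟩⟩
        rw [hz', Finset.mem_singleton] at this
        exact this
    obtain ⟨x₁', z₁, hx₁, hl₁, hn₁, hall₁⟩ := hother u w hz hu2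
    obtain ⟨x₂', z₂, hx₂, hl₂, hn₂, hall₂⟩ := hother w u (hPs _ _ hz) hw2
    have hlz := (hPmem u w).mp hz
    have hcr := hpre.supp u w hlz
    refine h1 V K G c p C lam (c u) (c w) u w x₁' x₂' z₁ z₂ hp hT hpre.anti hpre.orth
      (fun a b hab => ⟨(hpre.supp a b hab).1, (hpre.supp a b hab).2.2.2⟩) hC.2 hC0
      (fun a b a' b' hab hab' hca hcb => h3 V K G c p S m hp hmot hinj a b a' b'
        (hpre.supp a b hab) (hpre.supp a' b' hab') hca hcb)
      (fun v hv => hst v ?_) (hout _ hu.1 hu.2) (hout _ hw.1 hw.2) hcr.2.2.2 rfl rfl hx₁ hx₂ hn₁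
      hn₂ hlz hl₁ hl₂ hall₁ hall₂
    rintro rfl
    rcases hv with hv | hv
    · exact hu.1 hv.symm
    · exact hw.1 hv.symm
  have hcnt := h2 V K c P {c y₁, Y₂} hPs hdeg hadj
  have hcard2 : ({c y₁, Y₂} : Finset K).card ≤ 2 := Finset.card_le_two
  -- the support structure
  obtain ⟨hsub, hnt, hff, hec⟩ := h6 V K G c p S lam hT hF hpre
  have hfin : (sc c lam).Finite := hS.subset hsub
  have hne : (sc c lam).Nonempty := by
    obtain ⟨u, w, -, -, -, -, hl, -, -⟩ := hd1
    exact ⟨c u, u, w, rfl, hl⟩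
  have h6' := h7 V K (sg lam) c p (sc c lam) hfin hne
  obtain ⟨T, hT', hdim⟩ := h4 V K (sg lam) c p (sc c lam) hfin hp
  have hT0 : T = ⊥ := by
    rw [eq_bot_iff]
    intro x hx
    rw [Submodule.mem_bot]
    exact h5 V K (sg lam) c p (sc c lam) hfin hp hnt hff x ((hT' x).mp hx)
  rw [hT0, finrank_bot, add_zero] at hdim
  have hpc : {z : V × V | lam z.1 z.2 ≠ 0}.ncard = P.card := by
    rw [← Set.ncard_coe_finset]
    congr 1
    ext z
    simp [hP]
  have hsc : (sc c lam).ncard = (P.image fun z => c z.1).card := by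
    rw [← Set.ncard_coe_finset]
    congr 1
    ext X
    simp only [sc, Set.mem_ofPred_eq, Finset.coe_image, Set.mem_image, Finset.mem_coe, Prod.exists]
    constructor
    · rintro ⟨u, w, hX, hl⟩
      exact ⟨u, w, (hPmem _ _).mpr hl, hX⟩
    · rintro ⟨u, w, hl, hX⟩
      exact ⟨u, w, hX, (hPmem _ _).mp hl⟩
  rw [hpc] at hec
  rw [hsc] at hdim
  omega

end Pool.Agent.MPf1f412
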