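import Pool.Agent.Lib.MP_f1f412_co.SpecQ

/-!
# MP_f1f412_co (C34): a vector which is not parallel to finitely many vectors
-/

set_option autoImplicit false

namespace Pool.Agent.MPf1f412

theorem qOm : S_QOm := by
  intro F hF
  obtain ⟨t, ht⟩ := (hF.image (fun a : R3 => a 1 / a 0)).exists_notMem
  refine ⟨![1, t, t ^ 2], ?_, ?_⟩
  · intro h
    have h1 := congrFun h 0
    simp at h1
  · intro a ha hne hcr
    unfold cr at hcr
    rw [cross_apply] at hcr
    have h1 : t * a 2 - t ^ 2 * a 1 = 0 := by simpa using congrFun hcr 0
    have h2 : t ^ 2 * a 0 - 1 * a 2 = 0 := by simpa using congrFun hcr 1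
    have h3 : 1 * a 1 - t * a 0 = 0 := by simpa using congrFun hcr 2
    by_cases h0 : a 0 = 0
    · apply hne
      funext i
      fin_cases i
      · exact h0
      · change a 1 = 0
        rw [h0] at h3
        linarith
      · change a 2 = 0
        rw [h0] at h2
        linarith
    · apply ht
      refine ⟨a, ha, ?_⟩
      change a 1 / a 0 = t
      rw [div_eq_iff h0]
      linarith

end Pool.Agent.MPf1f412
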