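import Pool.Agent.Lib.MP_f1f412_co.SpecQ
import Pool.Agent.Lib.MP_f1f412_co.Basic

/-! C34, module QSix (SpecQ): the constant motions -/

set_option autoImplicit false

namespace Pool.Agent.MPf1f412

open Matrix

theorem qSix : S_QSix := by
  intro V K G c p T hT hTne
  classical
  haveI : Finite T := hT
  -- restriction to T is injective
  let r : Mot G c p T →ₗ[ℝ] (T → Tw) :=
    { toFun := fun m X => m.1 X.1
      map_add' := fun _ _ => rfl
      map_smul' := fun _ _ => rfl }
  have hr : Function.Injective r := by
    intro m n h
    apply Subtype.ext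
    funext X
    by_cases hX : X ∈ T
    · exact congrFun h ⟨X, hX⟩
    · rw [m.2.2 X hX, n.2.2 X hX]
  haveI : Module.Finite ℝ (Mot G c p T) := Module.Finite.of_injective r hr
  have hmem : ∀ x : Tw, (fun X => if X ∈ T then x else 0) ∈ Mot G c p T := by
    intro x
    refine ⟨?_, fun X hX => if_neg hX⟩
    intro u w h
    refine ⟨0, ?_⟩
    simp only [if_pos h.2.1, if_pos h.2.2.1, sub_self, zero_smul]
  let f : Tw →ₗ[ℝ] Mot G c p T :=
    { toFun := fun x => ⟨fun X => if X ∈ T then x else 0, hmem x⟩
      map_add' := by
        intro x y
        apply Subtype.ext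
        funext X
        by_cases hX : X ∈ T
        · simp [hX]
        · simp [hX]
      map_smul' := by
        intro a x
        apply Subtype.ext
        funext X
        by_cases hX : X ∈ T
        · simp [hX]
        · simp [hX] }
  have hf : Function.Injective f := by
    intro x y h
    obtain ⟨X, hX⟩ := hTne
    have h1 := congrFun (congrArg Subtype.val h) X
    have h2 : (if X ∈ T then x else 0) = (if X ∈ T then y else 0) := h1
    rw [if_pos hX, if_pos hX] at h2
    exact h2
  have h6 : Module.finrank ℝ Tw = 6 := by
    rw [Module.finrank_prod, Module.finrank_fin_fun]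
  unfold dmo
  rw [← h6]
  exact LinearMap.finrank_le_finrank_of_injective hf

end Pool.Agent.MPf1f412
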