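import Pool.Agent.Lib.MP_f1f412_co.SpecQ
import Pool.Agent.Lib.MP_f1f412_co.Basic

/-! C34, module QSup (SpecQ): the support structure -/

set_option autoImplicit false

namespace Pool.Agent.MPf1f412

open Matrix

theorem qSup : S_QSup := by
  intro V K _ G c p S lam hNT hFF hpre
  classical
  have hsub : sc c lam ⊆ S := by
    rintro X ⟨u, w, rfl, h⟩
    exact (hpre.supp u w h).2.1
  have hadj : ∀ {u w : V}, (sg lam).Adj u w → lam u w ≠ 0 := fun h => h.2.1
  have hadj' : ∀ {u w : V}, lam u w ≠ 0 → (sg lam).Adj u w := by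
    intro u w h
    refine ⟨?_, h, ?_⟩
    · rintro rfl
      exact (hpre.supp u u h).2.2.2 rfl
    · rw [hpre.anti u w]
      exact neg_ne_zero.mpr h
  have hcre : ∀ {u w : V}, (sg lam).Adj u w → Cre (sg lam) c (sc c lam) u w := by
    intro u w h
    refine ⟨h, ⟨u, w, rfl, h.2.1⟩, ⟨w, u, rfl, h.2.2⟩, (hpre.supp u w h.2.1).2.2.2⟩
  refine ⟨hsub, ?_, ?_, ?_⟩
  · rintro a b d ⟨h1, h2, h3⟩
    exact hNT a b d ⟨(hpre.supp _ _ (hadj h1)).1, (hpre.supp _ _ (hadj h2)).1,
      (hpre.supp _ _ (hadj h3)).1⟩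
  · intro X hX Y hY hXY
    obtain ⟨m, hm, hne⟩ := hFF X (hsub hX) Y (hsub hY) hXY
    refine ⟨m, ?_, hne⟩
    intro u w h
    exact hm u w (hpre.supp u w (hadj h.1))
  · have hE : {z : Sym2 V | ∃ u w, z = s(u, w) ∧ Cre (sg lam) c (sc c lam) u w ∧
        id (c u) ≠ id (c w)} = (sg lam).edgeSet := by
      ext z
      constructor
      · rintro ⟨u, w, rfl, h, -⟩
        exact h.1
      · intro hz
        induction z using Sym2.ind with
        | _ u w =>
          have h : (sg lam).Adj u w := hz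
          exact ⟨u, w, rfl, hcre h, (hpre.supp u w (hadj h)).2.2.2⟩
    have hec : ec (sg lam) c (sc c lam) = (sg lam).edgeFinset.card := by
      unfold ec ef
      rw [hE, ← SimpleGraph.coe_edgeFinset, Set.ncard_coe_finset]
    let e : (sg lam).Dart ≃ {z : V × V | lam z.1 z.2 ≠ 0} :=
      { toFun := fun d => ⟨(d.fst, d.snd), hadj d.adj⟩
        invFun := fun z => ⟨(z.1.1, z.1.2), hadj' z.2⟩
        left_inv := fun d => by
          apply SimpleGraph.Dart.ext
          rfl
        right_inv := fun z => by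
          apply Subtype.ext
          rfl }
    have hc : {z : V × V | lam z.1 z.2 ≠ 0}.ncard = Fintype.card (sg lam).Dart := by
      rw [← Nat.card_coe_set_eq, ← Nat.card_eq_fintype_card]
      exact (Nat.card_congr e).symm
    rw [hec, hc, SimpleGraph.dart_card_eq_twice_card_edges]

end Pool.Agent.MPf1f412
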