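import Pool.Agent.Lib.MP_f1f412_co.SpecQ
import Pool.Agent.Lib.MP_f1f412_co.Basic

/-! C34, module QY1 (SpecQ): support degree one at `Y₁` -/

set_option autoImplicit false

namespace Pool.Agent.MPf1f412

open Matrix

private theorem qy1_out {V K : Type} [Fintype V] (c : V → K) (lam : V → V → Tw) (X : K)
    (u w : V) (hu : c u = X)
    (h : ∀ u' w', c u' = X → lam u' w' ≠ 0 → u' = u ∧ w' = w) : out c lam X = lam u w := by
  classical
  unfold out
  rw [Finset.sum_eq_single u]
  · rw [Set.indicator_of_mem (show u ∈ ({u | c u = X} : Set V) from hu)]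
    rw [Finset.sum_eq_single w]
    · intro w' _ hw'
      by_contra hne
      exact hw' (h u w' hu hne).2
    · intro hw
      exact absurd (Finset.mem_univ w) hw
  · intro u' _ hu'
    by_cases hc : c u' = X
    · rw [Set.indicator_of_mem (show u' ∈ ({u | c u = X} : Set V) from hc)]
      refine Finset.sum_eq_zero fun w' _ => ?_
      by_contra hne
      exact hu' (h u' w' hc hne).1
    · exact Set.indicator_of_notMem (show u' ∉ ({u | c u = X} : Set V) from hc) _
  · intro hu'
    exact absurd (Finset.mem_univ u) hu'

private theorem qy1_ev (ω a b : R3) : ev (ω, cr a ω) b = cr ω (b - a) := by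
  show cr ω b + cr a ω = _
  rw [cr_sub_right, cr_anti ω a]
  abel

theorem qY1 : S_QY1 := by
  intro V K _ G c p S m C lam Y₂ y₁ ω hC hinj hY2 hpre h2 h2' h3 hev0 h4 h4' h5 u w hu hl huniq
  classical
  have hout := qy1_out c lam (c y₁) u w hu huniq
  rw [h5] at hout
  have hCre := hpre.supp u w hl
  have hlz : ∀ w', w' ≠ w → C u w' • ev (lam u w') (p w') = 0 := by
    intro w' hw'
    have : lam u w' = 0 := by
      by_contra hne
      exact hw' (huniq u w' hu hne).2
    rw [this, ev_zero, smul_zero]
  have hsum : ∑ w', C u w' • ev (lam u w') (p w') = C u w • cr ω (p w - p y₁) := by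
    rw [Finset.sum_eq_single w (fun w' _ hw' => hlz w' hw')
      (fun hw => absurd (Finset.mem_univ w) hw), ← hout, qy1_ev]
  by_cases huy : u = y₁
  · subst huy
    refine ⟨rfl, ?_⟩
    rw [hsum] at h4'
    have hs1 : (m (c u) - m Y₂).1 - C u w • (p w - p u) = 0 := by
      by_contra hne
      apply h2' w hne
      rw [cr_sub_right, cr_smul_right, h4', sub_self]
    have hs1' : (m (c u) - m Y₂).1 = C u w • (p w - p u) := sub_eq_zero.mp hs1
    have hs : m (c u) - m Y₂ = C u w • Ln (p u) (p w) := by
      rw [t2' hev0, hs1', cr_smul_right, cr_sub_right, cr_self, sub_zero]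
      rfl
    have hco := hC.1 u w hCre
    have hm : m (c w) = m Y₂ := by
      have := hs.trans hco.symm
      exact (sub_right_injective this).symm
    exact hinj hCre.2.2.1 hY2 hm
  · exfalso
    have hs := h4 u huy
    rw [hsum] at hs
    rcases smul_eq_zero.mp hs with h | h
    · exact h3 u w hl h
    · have hw : w = y₁ := by
        by_contra hw
        exact h2 w hw h
      subst hw
      exact hCre.2.2.2 hu

end Pool.Agent.MPf1f412
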