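import Pool.Agent.Lib.MP_f1f412_co.SpecQ
import Pool.Agent.Lib.MP_f1f412_co.Basic

/-! C34, module QY2 (SpecQ): support degree one at `Y₂` -/

set_option autoImplicit false

namespace Pool.Agent.MPf1f412

open Matrix

private theorem qy2_out {V K : Type} [Fintype V] (c : V → K) (lam : V → V → Tw) (X : K)
    (u w : V) (hu : c u = X)
    (h : ∀ u' w', c u' = X → lam u' w' ≠ 0 → u' = u ∧ w' = w) : out c lam X = lam u w := by
  classical
  unfold out
  rw [Finset.sum_eq_single u]
  · rw [Set.indicator_of_mem (show u ∈ ({u | c u = X} : Set V) from hu)]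
    rw [Finset.sum_eq_single w]
    · intro w' _ hw'
      by_contra hne
      exact hw' (h u w' hu hne).2
    · intro hw
      exact absurd (Finset.mem_univ w) hw
  · intro u' _ hu'
    by_cases hc : c u' = X
    · rw [Set.indicator_of_mem (show u' ∈ ({u | c u = X} : Set V) from hc)]
      refine Finset.sum_eq_zero fun w' _ => ?_
      by_contra hne
      exact hu' (h u' w' hc hne).1
    · exact Set.indicator_of_notMem (show u' ∉ ({u | c u = X} : Set V) from hc) _
  · intro hu'
    exact absurd (Finset.mem_univ u) hu'

theorem qY2 : S_QY2 := by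
  intro V K _ c p C lam Y₂ y₁ ω h1 h2 h3 h4 h5 u w hu hl huniq
  classical
  have hout := qy2_out c lam Y₂ u w hu huniq
  rw [h5] at hout
  have huy : u ≠ y₁ := by
    rintro rfl
    exact h1 hu
  have hs := h4 u huy
  rw [Finset.sum_eq_single w] at hs
  · have hC := h3 u w hl
    have hev : ev (lam u w) (p w) = 0 := by
      rcases smul_eq_zero.mp hs with h | h
      · exact absurd h hC
      · exact h
    rw [← hout] at hev
    have hcr : cr ω (p w - p y₁) = 0 := by
      have : ev (-(ω, cr (p y₁) ω)) (p w) = - cr ω (p w - p y₁) := by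
        rw [ev_neg]
        show -(cr ω (p w) + cr (p y₁) ω) = _
        rw [cr_sub_right, cr_anti ω (p y₁)]
        abel
      rw [this] at hev
      exact neg_eq_zero.mp hev
    by_contra hw
    exact h2 w hw hcr
  · intro w' _ hw'
    have : lam u w' = 0 := by
      by_contra hne
      exact hw' (huniq u w' hu hne).2
    rw [this, ev_zero, smul_zero]
  · intro hw
    exact absurd (Finset.mem_univ w) hw

end Pool.Agent.MPf1f412
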