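import Pool.Agent.Lib.MP_f1f412_co.Spec1

/-!
# MP_f1f412_co (C34): derivations preserve motions
-/

set_option autoImplicit false

namespace Pool.Agent.MPf1f412

namespace stabAux

theorem cr_zero (D : Derivation ℚ ℝ ℝ) (a b : R3) (ha : ∀ i, D (a i) = 0)
    (hb : ∀ i, D (b i) = 0) (i : Fin 3) : D (cr a b i) = 0 := by
  unfold cr
  rw [cross_apply]
  fin_cases i <;>
    simp [Derivation.leibniz, ha, hb]

theorem smul_zero' (D : Derivation ℚ ℝ ℝ) (t x : ℝ) (h : D x = 0) : D (t * x) = D t * x := by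
  rw [Derivation.leibniz, h, smul_zero, zero_add, smul_eq_mul, mul_comm]

end stabAux

open stabAux in
theorem stab : S_Stab := by
  intro V K G c p S D A hD hA m hm u w h
  obtain ⟨t, ht⟩ := hm u w h
  have hu : ∀ i, D (p u i) = 0 := by
    intro i
    exact congrFun (hD u fun hu => hA u hu w h) i
  have hw : ∀ i, D (p w i) = 0 := by
    intro i
    exact congrFun (hD w fun hw => hA w hw u ⟨h.1.symm, h.2.2.1, h.2.1, h.2.2.2.symm⟩) i
  refine ⟨D t, ?_⟩
  have h1 : ∀ i, D ((m (c u)).1 i) - D ((m (c w)).1 i) = D t * (p w - p u) i := by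
    intro i
    have e : (m (c u)).1 i - (m (c w)).1 i = t * (p w - p u) i :=
      congrFun (congrArg Prod.fst ht) i
    rw [← map_sub, e, smul_zero']
    rw [Pi.sub_apply, map_sub, hu, hw, sub_zero]
  have h2 : ∀ i, D ((m (c u)).2 i) - D ((m (c w)).2 i) = D t * cr (p u) (p w) i := by
    intro i
    have e : (m (c u)).2 i - (m (c w)).2 i = t * cr (p u) (p w) i :=
      congrFun (congrArg Prod.snd ht) i
    rw [← map_sub, e, smul_zero' D t _ (cr_zero D _ _ hu hw i)]
  exact Prod.ext (funext h1) (funext h2)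

end Pool.Agent.MPf1f412
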