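import Pool.Agent.Lib.MP_f1f412_co.Spec1

/-!
# MP_f1f412_co (C34), module Star: the star identity
-/

set_option autoImplicit false

namespace Pool.Agent.MPf1f412

open Matrix

theorem star (h1 : S_Vw) (h2 : S_Eq) : S_Star := by
  intro V K _ G c p S m C lam hG hC hS v
  classical
  set s := ∑ w, C v w • ev (lam v w) (p w) with hs
  obtain ⟨D, hD⟩ := hG (fun u => if u = v then s else 0)
  have hspt : Spt p D {v} := by
    intro u hu
    rw [Set.mem_singleton_iff] at hu
    rw [hD u, if_neg hu]
  have h3 := h1 V K G c p S m C lam D v hC hS.1 hspt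
  have h4 := (h2 V K G c p S lam (fun X => DT D (m X)) hS.1).2 hS.2
  rw [h4, hD v, if_pos rfl, ← hs] at h3
  have h5 : s ⬝ᵥ s = 0 := by linarith
  exact dotProduct_self_eq_zero.mp h5

end Pool.Agent.MPf1f412
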