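import Pool.Agent.Lib.MP_f1f412_co.SpecT

/-!
# MP_f1f412_co (C34), T4: a spanning tree crosses a partition often (helper86)
-/

set_option autoImplicit false

namespace Pool.Agent.MPf1f412

theorem tEasy : S_Easy := by
  intro V E K _ _ ends T c hT
  obtain ⟨hinj, htree⟩ := hT
  set H := SimpleGraph.fromEdgeSet (ends '' T) with hH
  have hconn := htree.connected
  let f : V → Set.range c := fun v => ⟨c v, Set.mem_range_self v⟩
  let Q : SimpleGraph (Set.range c) :=
    { Adj := fun y z => y ≠ z ∧ ∃ u v, f u = y ∧ f v = z ∧ H.Adj u v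
      symm := ⟨fun y z h => ⟨h.1.symm, by
        obtain ⟨u, v, h1, h2, h3⟩ := h.2
        exact ⟨v, u, h2, h1, h3.symm⟩⟩⟩
      loopless := ⟨fun y h => h.1 rfl⟩ }
  have hreach : ∀ u v, H.Walk u v → Q.Reachable (f u) (f v) := by
    intro u v p
    induction p with
    | nil => exact SimpleGraph.Reachable.refl _
    | @cons a b w hab _ ih =>
      by_cases h : f a = f b
      · rw [h]
        exact ih
      · have hQ : Q.Adj (f a) (f b) := ⟨h, a, b, rfl, rfl, hab⟩
        exact hQ.reachable.trans ih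
  have hQconn : Q.Connected := by
    have hne := hconn.nonempty
    refine SimpleGraph.connected_iff _ |>.2 ⟨?_, ⟨f hne.some⟩⟩
    rintro ⟨_, u, rfl⟩ ⟨_, v, rfl⟩
    obtain ⟨p⟩ := hconn.preconnected u v
    exact hreach u v p
  have h1 := hQconn.card_vert_le_card_edgeSet_add_one
  have h2 : ∀ q : Q.edgeSet, ∃ e : E, (e ∈ T ∧ Crs c (ends e)) ∧ Sym2.map f (ends e) = q.1 := by
    rintro ⟨q, hq⟩
    induction q using Sym2.ind with
    | _ y z =>
      rw [SimpleGraph.mem_edgeSet] at hq
      obtain ⟨hne, u, v, hu, hv, huv⟩ := hq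
      rw [hH, SimpleGraph.fromEdgeSet_adj] at huv
      obtain ⟨⟨e, heT, he⟩, -⟩ := huv
      refine ⟨e, ⟨heT, u, v, he, ?_⟩, ?_⟩
      · intro hc
        apply hne
        rw [← hu, ← hv]
        exact Subtype.ext hc
      · rw [he, Sym2.map_mk, hu, hv]
  choose g hg1 hg2 using h2
  have h3 : Nat.card Q.edgeSet ≤ Nat.card {e : E | e ∈ T ∧ Crs c (ends e)} := by
    apply Nat.card_le_card_of_injective
      (f := fun q => (⟨g q, hg1 q⟩ : {e : E | e ∈ T ∧ Crs c (ends e)}))
    intro q q' hqq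
    have h4 : g q = g q' := congrArg Subtype.val hqq
    apply Subtype.ext
    rw [← hg2 q, ← hg2 q', h4]
  rw [cls, ← Nat.card_coe_set_eq, ← Nat.card_coe_set_eq]
  omega

end Pool.Agent.MPf1f412
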