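import Pool.Agent.Lib.MP_f1f412_co.SpecT

/-!
# MP_f1f412_co (C34), T5: the theorem of Nash-Williams and Tutte (helper86)
-/

set_option autoImplicit false
set_option linter.unusedSectionVars false

namespace Pool.Agent.MPf1f412

namespace NWTAux

variable {V E : Type} [Finite V] [Finite E]

/-- the partition into the components of a set of edges -/
theorem comp (h2 : S_Rank) (ends : E → Sym2 V) (R : Set E) :
    ∃ c : V → V, (∀ e ∈ R, ¬ Crs c (ends e)) ∧
      Module.finrank (ZMod 2) (Submodule.span (ZMod 2) ((fun e => vec (ends e)) '' R)) + cls c =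
        Nat.card V := by
  let r : V → V → Prop := fun a b => ∃ e ∈ R, ends e = s(a, b)
  have hr : ∀ a b, r a b → r b a := by
    rintro a b ⟨e, he, hab⟩
    exact ⟨e, he, by rw [hab, Sym2.eq_swap]⟩
  have hsymm : ∀ a b, Relation.ReflTransGen r a b → Relation.ReflTransGen r b a := by
    intro a b h
    induction h with
    | refl => exact Relation.ReflTransGen.refl
    | tail _ hbc ih => exact Relation.ReflTransGen.head (hr _ _ hbc) ih
  let s : Setoid V := ⟨Relation.ReflTransGen r, fun a => Relation.ReflTransGen.refl,
    fun {a b} h => hsymm a b h, fun {a b c} h h' => h.trans h'⟩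
  let c : V → V := fun v => (Quotient.mk s v).out
  have hc1 : ∀ u v, c u = c v → Relation.ReflTransGen r u v := by
    intro u v h
    have h1 : Quotient.mk s u = Quotient.mk s v := by
      have h3 := congrArg (Quotient.mk s) h
      rwa [Quotient.out_eq, Quotient.out_eq] at h3
    exact Quotient.exact h1
  have hc2 : ∀ u v, r u v → c u = c v := by
    intro u v h
    have h1 : Quotient.mk s u = Quotient.mk s v :=
      Quotient.sound (s := s) (Relation.ReflTransGen.single h)
    change (Quotient.mk s u).out = (Quotient.mk s v).out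
    rw [h1]
  have hR : ∀ e ∈ R, ¬ Crs c (ends e) := by
    rintro e he ⟨u, v, huv, hne⟩
    exact hne (hc2 u v ⟨e, he, huv⟩)
  exact ⟨c, hR, h2 V E V ends R c hR hc1⟩

theorem finrank_indep (ends : E → Sym2 V) (T : Set E)
    (hT : LinearIndepOn (ZMod 2) (fun e => vec (ends e)) T) :
    Module.finrank (ZMod 2) (Submodule.span (ZMod 2) ((fun e => vec (ends e)) '' T)) =
      T.ncard := by
  classical
  have : Fintype E := Fintype.ofFinite E
  have : Fintype T := Fintype.ofFinite T
  have h1 : (fun e => vec (ends e)) '' T = Set.range (fun e : T => vec (ends e)) := by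
    rw [Set.image_eq_range]
  rw [h1, finrank_span_eq_card (show LinearIndependent (ZMod 2) (fun e : T => vec (ends e)) from hT),
    ← Nat.card_coe_set_eq, Nat.card_eq_fintype_card]

theorem cls_pos [Nonempty V] (c : V → V) : 1 ≤ cls c := by
  rw [cls, Nat.one_le_iff_ne_zero, Ne, Set.ncard_eq_zero]
  exact (Set.range_nonempty c).ne_empty

end NWTAux

open NWTAux in
theorem tNWT (h1 : S_Union) (h2 : S_Rank) (h3 : S_Tree) : S_NWT := by
  intro V E _ _ _ ends k hyp
  obtain ⟨φ, R, hind, hR, hspan⟩ := h1 (ZMod 2) (V → ZMod 2) E (fun e => vec (ends e)) k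
  let F : Fin k → Set E := fun i => {e | φ e = some i}
  obtain ⟨c, hc, hrank⟩ := comp h2 ends R
  -- (i)
  have hi : ∀ i, (F i ∩ R).ncard + cls c = Nat.card V := by
    intro i
    rw [← hrank, ← finrank_indep ends (F i ∩ R) ((hind i).mono Set.inter_subset_left)]
    have : Submodule.span (ZMod 2) ((fun e => vec (ends e)) '' (F i ∩ R)) =
        Submodule.span (ZMod 2) ((fun e => vec (ends e)) '' R) := by
      apply le_antisymm
      · exact Submodule.span_mono (Set.image_mono Set.inter_subset_right)
      · rw [Submodule.span_le]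
        rintro _ ⟨e, he, rfl⟩
        exact hspan i e he
    rw [this]
  -- (ii)
  have hii : ∀ i, (F i).ncard + 1 ≤ Nat.card V := by
    intro i
    obtain ⟨c', -, h4⟩ := comp h2 ends (F i)
    rw [finrank_indep ends (F i) (hind i)] at h4
    have := cls_pos c'
    omega
  -- (iii)
  have hsum : ∑ i, (F i \ R).ncard ≥ {e | Crs c (ends e)}.ncard := by
    have h4 : {e | Crs c (ends e)} ⊆ ⋃ i, (F i \ R) := by
      intro e he
      have heR : e ∉ R := fun h => hc e h he
      have hne : φ e ≠ none := fun h => heR (hR e h)
      obtain ⟨i, hi⟩ := Option.ne_none_iff_exists'.1 hne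
      exact Set.mem_iUnion.2 ⟨i, hi, heR⟩
    refine (Set.ncard_le_ncard h4 (Set.toFinite _)).trans ?_
    classical
    have h5 : ∀ s : Finset (Fin k), (⋃ i ∈ s, (F i \ R)).ncard ≤ ∑ i ∈ s, (F i \ R).ncard := by
      intro s
      induction s using Finset.induction_on with
      | empty => simp
      | insert a s ha ih =>
        rw [Finset.set_biUnion_insert, Finset.sum_insert ha]
        exact (Set.ncard_union_le _ _).trans (Nat.add_le_add_left ih _)
    have h6 := h5 Finset.univ
    simpa using h6
  have hsplit : ∀ i, (F i).ncard = (F i ∩ R).ncard + (F i \ R).ncard := fun i =>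
    (Set.ncard_inter_add_ncard_sdiff_eq_ncard (F i) R).symm
  have hm := cls_pos c
  have hV : cls c ≤ Nat.card V := by
    rw [cls]
    exact Set.ncard_le_card _
  have htotal : k * Nat.card V ≤ ∑ i, ((F i).ncard + 1) := by
    have e1 : ∑ i, ((F i).ncard + 1) = k * (Nat.card V - cls c) + ∑ i, (F i \ R).ncard + k := by
      have e2 : ∀ i, (F i).ncard + 1 = (Nat.card V - cls c) + (F i \ R).ncard + 1 := by
        intro i
        rw [hsplit i]
        have := hi i
        omega
      rw [Finset.sum_congr rfl fun i _ => e2 i, Finset.sum_add_distrib, Finset.sum_add_distrib]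
      simp
    rw [e1]
    have e3 := hyp c
    have e4 : k * Nat.card V = k * (Nat.card V - cls c) + k * cls c := by
      rw [← mul_add]
      congr 1
      omega
    omega
  have hall : ∀ i, (F i).ncard + 1 = Nat.card V := by
    have e1 : ∑ i, ((F i).ncard + 1) = ∑ _i : Fin k, Nat.card V := by
      apply le_antisymm
      · exact Finset.sum_le_sum fun i _ => hii i
      · simpa using htotal
    intro i
    exact (Finset.sum_eq_sum_iff_of_le fun i _ => hii i).1 e1 i (Finset.mem_univ i)
  refine ⟨F, fun i => h3 V E ends (F i) (hind i) (hall i), fun i j hij => ?_⟩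
  rw [Set.disjoint_left]
  intro e he he'
  apply hij
  have : some i = some j := he.symm.trans he'
  exact Option.some.inj this

end Pool.Agent.MPf1f412
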