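import Pool.Agent.Lib.MP_f1f412_co.SpecT

/-!
# MP_f1f412_co, T2: the rank of a set of edges
-/

set_option autoImplicit false

namespace Pool.Agent.MPf1f412

namespace tRankAux

open Classical

theorem vec_mk {V : Type} (u v : V) :
    vec s(u, v) = Pi.single u 1 + Pi.single v 1 := rfl

theorem add_self_eq {V : Type} (w : V → ZMod 2) : w + w = 0 := by
  funext x
  simp only [Pi.add_apply, Pi.zero_apply]
  exact CharTwo.add_self_eq_zero _

/-- the sums over the classes -/
noncomputable def L {V K : Type} [Fintype V] (c : V → K) :
    (V → ZMod 2) →ₗ[ZMod 2] (Set.range c → ZMod 2) where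
  toFun w y := ∑ v, if c v = y then w v else 0
  map_add' w w' := by
    funext y
    simp only [Pi.add_apply]
    rw [← Finset.sum_add_distrib]
    refine Finset.sum_congr rfl fun v _ => ?_
    split_ifs <;> simp
  map_smul' a w := by
    funext y
    simp only [Pi.smul_apply, RingHom.id_apply, smul_eq_mul]
    rw [Finset.mul_sum]
    refine Finset.sum_congr rfl fun v _ => ?_
    split_ifs <;> simp

theorem Lc_apply {V K : Type} [Fintype V] (c : V → K) (w : V → ZMod 2) (y : Set.range c) :
    L c w y = ∑ v, if c v = y then w v else 0 := rfl

theorem L_single {V K : Type} [Fintype V] (c : V → K) (u : V) (y : Set.range c) :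
    L c (Pi.single u 1) y = if c u = y then 1 else 0 := by
  rw [Lc_apply, Finset.sum_eq_single u]
  · rw [Pi.single_eq_same]
  · intro v _ hv
    rw [Pi.single_eq_of_ne hv]
    simp
  · intro h
    exact absurd (Finset.mem_univ u) h

theorem L_surj {V K : Type} [Fintype V] (c : V → K) : Function.Surjective (L c) := by
  have hrep : ∀ y : Set.range c, ∃ v, c v = y := fun y => y.2
  choose r hr using hrep
  intro z
  refine ⟨∑ y, z y • Pi.single (r y) 1, ?_⟩
  funext x
  rw [map_sum, Finset.sum_apply, Finset.sum_eq_single x]
  · rw [map_smul, Pi.smul_apply, L_single, hr, if_pos rfl, smul_eq_mul, mul_one]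
  · intro y _ hy
    rw [map_smul, Pi.smul_apply, L_single, hr, if_neg, smul_zero]
    exact fun h => hy (Subtype.ext h)
  · intro h
    exact absurd (Finset.mem_univ x) h

theorem L_vec {V K : Type} [Fintype V] (c : V → K) {z : Sym2 V} (hz : ¬ Crs c z) :
    L c (vec z) = 0 := by
  induction z with
  | h u v =>
    have huv : c u = c v := by
      by_contra h
      exact hz ⟨u, v, rfl, h⟩
    funext y
    rw [vec_mk, map_add, Pi.add_apply, L_single, L_single, huv, Pi.zero_apply]
    exact CharTwo.add_self_eq_zero _

theorem finrank_ker {V K : Type} [Fintype V] (c : V → K) :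
    Module.finrank (ZMod 2) (LinearMap.ker (L c)) + cls c = Nat.card V := by
  have h1 := (L c).finrank_range_add_finrank_ker
  rw [LinearMap.range_eq_top.mpr (L_surj c), finrank_top, Module.finrank_fintype_fun_eq_card,
    Module.finrank_fintype_fun_eq_card] at h1
  have h2 : cls c = Fintype.card (Set.range c) := by
    unfold cls
    rw [Set.ncard_eq_toFinset_card', Set.toFinset_card]
  rw [h2, Nat.card_eq_fintype_card]
  omega

theorem conn_mem {V E : Type} {ends : E → Sym2 V} {R : Set E} {u v : V}
    (h : Relation.ReflTransGen (fun a b => ∃ e ∈ R, ends e = s(a, b)) u v) :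
    (Pi.single u 1 + Pi.single v 1 : V → ZMod 2) ∈
      Submodule.span (ZMod 2) ((fun e => vec (ends e)) '' R) := by
  induction h with
  | refl =>
    rw [add_self_eq]
    exact Submodule.zero_mem _
  | @tail b d _ hbd ih =>
    obtain ⟨e, he, hed⟩ := hbd
    have h1 : (Pi.single b 1 + Pi.single d 1 : V → ZMod 2) ∈
        Submodule.span (ZMod 2) ((fun e => vec (ends e)) '' R) := by
      refine Submodule.subset_span ⟨e, he, ?_⟩
      change vec (ends e) = _
      rw [hed, vec_mk]
    have h2 := Submodule.add_mem _ ih h1
    have h3 : (Pi.single u 1 + Pi.single b 1 + (Pi.single b 1 + Pi.single d 1) : V → ZMod 2) =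
        Pi.single u 1 + Pi.single d 1 := by
      have h4 := add_self_eq (Pi.single b 1 : V → ZMod 2)
      calc (Pi.single u 1 + Pi.single b 1 + (Pi.single b 1 + Pi.single d 1) : V → ZMod 2)
          = Pi.single u 1 + (Pi.single b 1 + Pi.single b 1) + Pi.single d 1 := by abel
        _ = _ := by rw [h4, add_zero]
    rwa [h3] at h2

end tRankAux

open tRankAux Classical in
theorem tRank : S_Rank := by
  intro V E K _ ends R c hR hc
  have := Fintype.ofFinite V
  rw [← finrank_ker c]
  congr 1
  have hS : Submodule.span (ZMod 2) ((fun e => vec (ends e)) '' R) = LinearMap.ker (L c) := by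
    apply le_antisymm
    · rw [Submodule.span_le]
      rintro _ ⟨e, he, rfl⟩
      exact L_vec c (hR e he)
    · intro w hw
      have hLw : ∀ y : Set.range c, ∑ v, (if c v = y then w v else 0) = 0 := fun y => by
        have := congrFun (LinearMap.mem_ker.mp hw) y
        rwa [Lc_apply] at this
      have hrep : ∀ y : Set.range c, ∃ v, c v = y := fun y => y.2
      choose r hr using hrep
      set ρ : V → V := fun v => r ⟨c v, v, rfl⟩ with hρ
      have hcρ : ∀ v, c (ρ v) = c v := fun v => hr ⟨c v, v, rfl⟩
      have hρc : ∀ u v, c u = c v → ρ u = ρ v := by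
        intro u v h
        simp only [hρ]
        congr 1
        exact Subtype.ext h
      have e1 : w = ∑ v, w v • (Pi.single v 1 + Pi.single (ρ v) 1 : V → ZMod 2) := by
        have e2 : ∑ v, w v • (Pi.single v 1 : V → ZMod 2) = w := by
          funext x
          rw [Finset.sum_apply, Finset.sum_eq_single x]
          · simp
          · intro v _ hv
            simp [Pi.single_eq_of_ne hv.symm]
          · intro h
            exact absurd (Finset.mem_univ x) h
        have e3 : ∑ v, w v • (Pi.single (ρ v) 1 : V → ZMod 2) = 0 := by
          funext x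
          rw [Finset.sum_apply, Pi.zero_apply]
          by_cases hx : ρ x = x
          · rw [← hLw ⟨c x, x, rfl⟩]
            refine Finset.sum_congr rfl fun v _ => ?_
            rw [Pi.smul_apply, smul_eq_mul]
            by_cases hv : c v = c x
            · have : ρ v = x := (hρc v x hv).trans hx
              rw [this, Pi.single_eq_same, if_pos hv, mul_one]
            · have : x ≠ ρ v := fun h => hv (by rw [h, hcρ])
              rw [Pi.single_eq_of_ne this, if_neg hv, mul_zero]
          · refine Finset.sum_eq_zero fun v _ => ?_
            have : x ≠ ρ v := fun h => hx (by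
              have := hρc x v (by rw [h, hcρ])
              rw [this, ← h])
            rw [Pi.smul_apply, Pi.single_eq_of_ne this, smul_zero]
        simp only [smul_add]
        rw [Finset.sum_add_distrib, e2, e3, add_zero]
      rw [e1]
      refine Submodule.sum_mem _ fun v _ => Submodule.smul_mem _ _ ?_
      exact conn_mem (hc v (ρ v) (hcρ v).symm)
  rw [hS]

end Pool.Agent.MPf1f412
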