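import Pool.Agent.Lib.MP_f1f412_co.SpecT

/-!
# MP_f1f412_co, T3: independent sets of `|V| - 1` edges are spanning trees
-/

set_option autoImplicit false

namespace Pool.Agent.MPf1f412

namespace tTreeAux

open Classical

theorem vec_mk {V : Type} (u v : V) :
    vec s(u, v) = Pi.single u 1 + Pi.single v 1 := rfl

theorem add_self_eq {V : Type} (w : V → ZMod 2) : w + w = 0 := by
  funext x
  simp only [Pi.add_apply, Pi.zero_apply]
  exact CharTwo.add_self_eq_zero _

/-- the sums over the classes -/
noncomputable def L {V K : Type} [Fintype V] (c : V → K) :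
    (V → ZMod 2) →ₗ[ZMod 2] (Set.range c → ZMod 2) where
  toFun w y := ∑ v, if c v = y then w v else 0
  map_add' w w' := by
    funext y
    simp only [Pi.add_apply]
    rw [← Finset.sum_add_distrib]
    refine Finset.sum_congr rfl fun v _ => ?_
    split_ifs <;> simp
  map_smul' a w := by
    funext y
    simp only [Pi.smul_apply, RingHom.id_apply, smul_eq_mul]
    rw [Finset.mul_sum]
    refine Finset.sum_congr rfl fun v _ => ?_
    split_ifs <;> simp

theorem Lc_apply {V K : Type} [Fintype V] (c : V → K) (w : V → ZMod 2) (y : Set.range c) :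
    L c w y = ∑ v, if c v = y then w v else 0 := rfl

theorem L_single {V K : Type} [Fintype V] (c : V → K) (u : V) (y : Set.range c) :
    L c (Pi.single u 1) y = if c u = y then 1 else 0 := by
  rw [Lc_apply, Finset.sum_eq_single u]
  · rw [Pi.single_eq_same]
  · intro v _ hv
    rw [Pi.single_eq_of_ne hv]
    simp
  · intro h
    exact absurd (Finset.mem_univ u) h

theorem L_surj {V K : Type} [Fintype V] (c : V → K) : Function.Surjective (L c) := by
  have hrep : ∀ y : Set.range c, ∃ v, c v = y := fun y => y.2
  choose r hr using hrep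
  intro z
  refine ⟨∑ y, z y • Pi.single (r y) 1, ?_⟩
  funext x
  rw [map_sum, Finset.sum_apply, Finset.sum_eq_single x]
  · rw [map_smul, Pi.smul_apply, L_single, hr, if_pos rfl, smul_eq_mul, mul_one]
  · intro y _ hy
    rw [map_smul, Pi.smul_apply, L_single, hr, if_neg, smul_zero]
    exact fun h => hy (Subtype.ext h)
  · intro h
    exact absurd (Finset.mem_univ x) h

theorem L_vec {V K : Type} [Fintype V] (c : V → K) {z : Sym2 V} (hz : ¬ Crs c z) :
    L c (vec z) = 0 := by
  induction z with
  | h u v =>
    have huv : c u = c v := by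
      by_contra h
      exact hz ⟨u, v, rfl, h⟩
    funext y
    rw [vec_mk, map_add, Pi.add_apply, L_single, L_single, huv, Pi.zero_apply]
    exact CharTwo.add_self_eq_zero _

theorem finrank_ker {V K : Type} [Fintype V] (c : V → K) :
    Module.finrank (ZMod 2) (LinearMap.ker (L c)) + cls c = Nat.card V := by
  have h1 := (L c).finrank_range_add_finrank_ker
  rw [LinearMap.range_eq_top.mpr (L_surj c), finrank_top, Module.finrank_fintype_fun_eq_card,
    Module.finrank_fintype_fun_eq_card] at h1
  have h2 : cls c = Fintype.card (Set.range c) := by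
    unfold cls
    rw [Set.ncard_eq_toFinset_card', Set.toFinset_card]
  rw [h2, Nat.card_eq_fintype_card]
  omega

end tTreeAux

open tTreeAux Classical in
theorem tTree : S_Tree := by
  intro V E _ _ ends T hT hcard
  have := Fintype.ofFinite V
  have := Fintype.ofFinite E
  have hinj : Set.InjOn ends T := by
    intro e he f hf h
    refine hT.injOn he hf ?_
    change vec (ends e) = vec (ends f)
    rw [h]
  refine ⟨hinj, ?_⟩
  have hnd : ∀ z ∈ ends '' T, ¬ z.IsDiag := by
    rintro _ ⟨e, he, rfl⟩ hd
    have hne : vec (ends e) ≠ 0 := hT.ne_zero he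
    apply hne
    generalize ends e = z at hd
    induction z with
    | h u v =>
      rw [Sym2.mk_isDiag_iff] at hd
      rw [hd, vec_mk, add_self_eq]
  set H := SimpleGraph.fromEdgeSet (ends '' T) with hH
  have hedge : H.edgeSet = ends '' T := by
    rw [hH, SimpleGraph.edgeSet_fromEdgeSet]
    ext z
    constructor
    · exact fun h => h.1
    · exact fun h => ⟨h, fun hz => hnd z h hz⟩
  have hecard : Nat.card H.edgeSet + 1 = Nat.card V := by
    rw [hedge, Nat.card_coe_set_eq, hinj.ncard_image, hcard]
  rw [SimpleGraph.isTree_iff_connected_and_card]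
  refine ⟨?_, hecard⟩
  -- the rank
  set c : V → H.ConnectedComponent := H.connectedComponentMk with hc
  have hspan : Submodule.span (ZMod 2) ((fun e => vec (ends e)) '' T) ≤ LinearMap.ker (L c) := by
    rw [Submodule.span_le]
    rintro _ ⟨e, he, rfl⟩
    refine L_vec c ?_
    rintro ⟨u, v, huv, hne⟩
    apply hne
    have hadj : H.Adj u v := by
      rw [← SimpleGraph.mem_edgeSet, hedge, ← huv]
      exact ⟨e, he, rfl⟩
    exact SimpleGraph.ConnectedComponent.sound hadj.reachable
  have hrank : Module.finrank (ZMod 2)
      (Submodule.span (ZMod 2) ((fun e => vec (ends e)) '' T)) = T.ncard := by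
    have h1 := finrank_span_set_eq_card (R := ZMod 2) (s := (fun e => vec (ends e)) '' T)
      hT.id_image
    rw [h1, Set.toFinset_card, ← Nat.card_eq_fintype_card, Nat.card_coe_set_eq,
      hT.injOn.ncard_image]
  have h2 := Submodule.finrank_mono hspan
  have h3 := finrank_ker c
  have h4 : cls c ≤ 1 := by omega
  have hcl : ∀ u v, c u = c v := by
    intro u v
    unfold cls at h4
    have h5 : (Set.range c).Subsingleton := by
      rw [← Set.ncard_le_one_iff_subsingleton]
      exact h4
    exact h5 ⟨u, rfl⟩ ⟨v, rfl⟩
  have hne : Nonempty V := by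
    rw [← Finite.card_pos_iff]
    omega
  exact ⟨fun u v => SimpleGraph.ConnectedComponent.exact (hcl u v)⟩

end Pool.Agent.MPf1f412
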