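import Pool.Agent.Lib.MP_f1f412_co.SpecT

/-!
# MP_f1f412_co (C34), T1: matroid union for vectors
-/

set_option autoImplicit false

namespace Pool.Agent.MPf1f412

namespace tUnionAux

variable {F W E : Type} [Field F] [AddCommGroup W] [Module F W] [Finite E] {x : E → W} {k : ℕ}

/-- the colour classes are independent -/
def Good (F : Type) {W E : Type} [Field F] [AddCommGroup W] [Module F W] (x : E → W) {k : ℕ}
    (φ : E → Option (Fin k)) : Prop :=
  ∀ i, LinearIndepOn F x {e | φ e = some i}

/-- the number of coloured elements -/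
noncomputable def num (φ : E → Option (Fin k)) : ℕ := {e | φ e ≠ none}.ncard

open Classical in
/-- the swapped colouring -/
noncomputable def sw (φ : E → Option (Fin k)) (e f : E) (i : Fin k) : E → Option (Fin k) :=
  fun g => if g = e then some i else if g = f then none else φ g

open Classical in
/-- one more colour -/
noncomputable def ad (φ : E → Option (Fin k)) (e : E) (i : Fin k) : E → Option (Fin k) :=
  fun g => if g = e then some i else φ g

/-- one step -/
def St (F : Type) {W E : Type} [Field F] [AddCommGroup W] [Module F W] (x : E → W) {k : ℕ}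
    (φ φ' : E → Option (Fin k)) : Prop :=
  Good F x φ' ∧ ∃ e f i, φ e = none ∧ φ f = some i ∧ φ' = sw φ e f i

theorem sw_e (φ : E → Option (Fin k)) (e f : E) (i : Fin k) : sw φ e f i e = some i := by
  simp [sw]

theorem sw_f (φ : E → Option (Fin k)) {e f : E} (i : Fin k) (h : f ≠ e) : sw φ e f i f = none := by
  simp [sw, h]

theorem sw_g (φ : E → Option (Fin k)) {e f g : E} (i : Fin k) (h : g ≠ e) (h' : g ≠ f) :
    sw φ e f i g = φ g := by
  simp [sw, h, h']

theorem num_sw {φ : E → Option (Fin k)} {e f : E} {i : Fin k} (he : φ e = none)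
    (hf : φ f = some i) : num (sw φ e f i) = num φ := by
  have hfe : f ≠ e := by
    rintro rfl
    rw [he] at hf
    cases hf
  have h1 : {g | sw φ e f i g ≠ none} = insert e ({g | φ g ≠ none} \ {f}) := by
    ext g
    simp only [Set.mem_ofPred_eq, Set.mem_insert_iff, Set.mem_sdiff, Set.mem_singleton_iff]
    by_cases hge : g = e
    · subst hge
      simp [sw_e]
    · by_cases hgf : g = f
      · subst hgf
        simp [sw_f φ i hfe, hge]
      · rw [sw_g φ i hge hgf]
        simp [hge, hgf]
  unfold num
  rw [h1, Set.ncard_insert_of_notMem (by simp [he]) (Set.toFinite _),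
    Set.ncard_sdiff_singleton_add_one (by simp [hf]) (Set.toFinite _)]

theorem num_ad {φ : E → Option (Fin k)} {e : E} {i : Fin k} (he : φ e = none) :
    num (ad φ e i) = num φ + 1 := by
  have h1 : {g | ad φ e i g ≠ none} = insert e {g | φ g ≠ none} := by
    ext g
    simp only [Set.mem_ofPred_eq, Set.mem_insert_iff]
    by_cases hge : g = e
    · subst hge
      simp [ad]
    · simp [ad, hge]
  unfold num
  rw [h1, Set.ncard_insert_of_notMem (by simp [he]) (Set.toFinite _)]

theorem class_ad {φ : E → Option (Fin k)} {e : E} {i : Fin k} (he : φ e = none) (j : Fin k) :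
    {g | ad φ e i g = some j} = if j = i then insert e {g | φ g = some i} else
      {g | φ g = some j} := by
  split_ifs with h
  · subst h
    ext g
    simp only [Set.mem_ofPred_eq, Set.mem_insert_iff]
    by_cases hge : g = e
    · simp [ad, hge]
    · simp [ad, hge]
  · ext g
    simp only [Set.mem_ofPred_eq]
    by_cases hge : g = e
    · subst hge
      simp [ad, he, Ne.symm h]
    · simp [ad, hge]

theorem class_sw {φ : E → Option (Fin k)} {e f : E} {i : Fin k} (he : φ e = none)
    (hf : φ f = some i) (j : Fin k) :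
    {g | sw φ e f i g = some j} = if j = i then insert e ({g | φ g = some i} \ {f}) else
      {g | φ g = some j} := by
  have hfe : f ≠ e := by
    rintro rfl
    rw [he] at hf
    cases hf
  split_ifs with h
  · subst h
    ext g
    simp only [Set.mem_ofPred_eq, Set.mem_insert_iff, Set.mem_sdiff, Set.mem_singleton_iff]
    by_cases hge : g = e
    · simp [hge, sw_e]
    · by_cases hgf : g = f
      · subst hgf
        simp [sw_f φ j hfe, hge]
      · rw [sw_g φ j hge hgf]
        simp [hge, hgf]
  · ext g
    simp only [Set.mem_ofPred_eq]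
    by_cases hge : g = e
    · subst hge
      simp [sw_e, he, Ne.symm h]
    · by_cases hgf : g = f
      · subst hgf
        simp [sw_f φ i hfe, hf, Ne.symm h]
      · rw [sw_g φ i hge hgf]

/-- the reachable colourings are good and maximal -/
theorem reach {φ₀ φ : E → Option (Fin k)} (h0 : Good F x φ₀)
    (h : Relation.ReflTransGen (St F x) φ₀ φ) : Good F x φ ∧ num φ = num φ₀ := by
  induction h with
  | refl => exact ⟨h0, rfl⟩
  | tail _ h2 ih =>
    obtain ⟨h3, e, f, i, he, hf, rfl⟩ := h2
    exact ⟨h3, (num_sw he hf).trans ih.2⟩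

/-- the set `R` -/
def RR (F : Type) {W E : Type} [Field F] [AddCommGroup W] [Module F W] (x : E → W) {k : ℕ}
    (φ₀ : E → Option (Fin k)) : Set E :=
  {e | ∃ φ, Relation.ReflTransGen (St F x) φ₀ φ ∧ φ e = none}

theorem one {φ₀ φ : E → Option (Fin k)} (h0 : Good F x φ₀)
    (hmax : ∀ φ : E → Option (Fin k), Good F x φ → num φ ≤ num φ₀)
    (h : Relation.ReflTransGen (St F x) φ₀ φ) {e : E} (he : φ e = none) (i : Fin k) :
    x e ∈ Submodule.span F (x '' ({g | φ g = some i} ∩ RR F x φ₀)) := by
  obtain ⟨hg, hn⟩ := reach h0 h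
  have heC : e ∉ {g | φ g = some i} := by
    simp [he]
  have h1 : x e ∈ Submodule.span F (x '' {g | φ g = some i}) := by
    by_contra hcon
    have h2 : Good F x (ad φ e i) := by
      intro j
      rw [class_ad he]
      split_ifs with hj
      · exact (linearIndepOn_insert heC).2 ⟨hg i, hcon⟩
      · exact hg j
    have h3 := hmax _ h2
    rw [num_ad he] at h3
    omega
  obtain ⟨l, hl, hle⟩ := (Finsupp.mem_span_image_iff_linearCombination F).1 h1
  apply (Finsupp.mem_span_image_iff_linearCombination F).2
  refine ⟨l, ?_, hle⟩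
  rw [Finsupp.mem_supported] at hl ⊢
  intro f hf
  refine ⟨hl hf, ?_⟩
  have hfi : φ f = some i := hl hf
  have hfe : f ≠ e := by
    rintro rfl
    exact heC (hl hf)
  have h4 : x e ∉ Submodule.span F (x '' ({g | φ g = some i} \ {f})) := by
    intro h5
    obtain ⟨l', hl', hle'⟩ := (Finsupp.mem_span_image_iff_linearCombination F).1 h5
    rw [Finsupp.mem_supported] at hl'
    have h6 : l - l' ∈ Finsupp.supported F F {g | φ g = some i} := by
      apply Submodule.sub_mem
      · rw [Finsupp.mem_supported]; exact hl
      · rw [Finsupp.mem_supported]; exact hl'.trans Set.sdiff_subset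
    have h7 := linearIndepOn_iff.1 (hg i) _ h6 (by rw [map_sub, hle, hle', sub_self])
    have h8 : l f = l' f := by
      have := DFunLike.congr_fun h7 f
      rw [Finsupp.sub_apply, Finsupp.zero_apply, sub_eq_zero] at this
      exact this
    have h9 : f ∈ (l'.support : Set E) := by
      rw [Finset.mem_coe, Finsupp.mem_support_iff, ← h8]
      exact Finsupp.mem_support_iff.1 hf
    exact (hl' h9).2 rfl
  have h10 : Good F x (sw φ e f i) := by
    intro j
    rw [class_sw he hfi]
    split_ifs with hj
    · refine (linearIndepOn_insert (fun h => heC h.1)).2 ⟨(hg i).mono Set.sdiff_subset, h4⟩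
    · exact hg j
  exact ⟨sw φ e f i, h.tail ⟨h10, e, f, i, he, hfi, rfl⟩, sw_f φ i hfe⟩

theorem two {φ₀ φ : E → Option (Fin k)} (h0 : Good F x φ₀)
    (hmax : ∀ φ : E → Option (Fin k), Good F x φ → num φ ≤ num φ₀)
    (h : Relation.ReflTransGen (St F x) φ₀ φ) (i : Fin k) :
    Submodule.span F (x '' ({g | φ g = some i} ∩ RR F x φ₀)) =
      Submodule.span F (x '' ({g | φ₀ g = some i} ∩ RR F x φ₀)) := by
  induction h with
  | refl => rfl
  | @tail φ φ' h1 h2 ih =>
    rw [← ih]
    have h3 : Relation.ReflTransGen (St F x) φ₀ φ' := h1.tail h2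
    obtain ⟨_, e, f, j, he, hf, rfl⟩ := h2
    have hfe : f ≠ e := by
      rintro rfl
      rw [he] at hf
      cases hf
    by_cases hij : i = j
    · subst hij
      apply le_antisymm
      · rw [Submodule.span_le]
        rintro _ ⟨g, ⟨hg1, hg2⟩, rfl⟩
        rw [class_sw he hf, if_pos rfl] at hg1
        rcases hg1 with rfl | ⟨hg1, _⟩
        · exact one h0 hmax h1 he i
        · exact Submodule.subset_span ⟨g, ⟨hg1, hg2⟩, rfl⟩
      · rw [Submodule.span_le]
        rintro _ ⟨g, ⟨hg1, hg2⟩, rfl⟩
        by_cases hgf : g = f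
        · subst hgf
          exact one h0 hmax h3 (sw_f φ i hfe) i
        · apply Submodule.subset_span
          refine ⟨g, ⟨?_, hg2⟩, rfl⟩
          rw [class_sw he hf, if_pos rfl]
          exact Or.inr ⟨hg1, hgf⟩
    · rw [class_sw he hf, if_neg hij]

end tUnionAux

open tUnionAux in
theorem tUnion : S_Union := by
  intro F W E _ _ _ _ x k
  have hgood0 : Good F x (fun _ : E => (none : Option (Fin k))) := by
    intro i
    have : {e : E | (none : Option (Fin k)) = some i} = ∅ := by
      ext e
      simp
    rw [this]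
    exact linearIndepOn_empty F x
  obtain ⟨φ₀, h0, hmax⟩ := Set.exists_max_image {φ : E → Option (Fin k) | Good F x φ} num
    (Set.toFinite _) ⟨_, hgood0⟩
  refine ⟨φ₀, RR F x φ₀, h0, fun e he => ⟨φ₀, Relation.ReflTransGen.refl, he⟩, ?_⟩
  rintro i e ⟨φ, hφ, he⟩
  rw [← two h0 hmax hφ i]
  exact one h0 hmax hφ he i

end Pool.Agent.MPf1f412
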