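import Pool.Agent.Lib.MP_f1f412_co.Spec1

/-!
# MP_f1f412_co (C34): virtual work of the derivative of a motion (S_Vw)
-/

set_option autoImplicit false

namespace Pool.Agent.MPf1f412

open Matrix

namespace vwAux

theorem kl_DLn (D : Derivation ℚ ℝ ℝ) (m : Tw) (u w : R3) :
    kl m (DT D (Ln u w)) = - (D3 D u ⬝ᵥ ev m w) + D3 D w ⬝ᵥ ev m u := by
  have h : ∀ x y : R3, cr x y = ![x 1 * y 2 - x 2 * y 1, x 2 * y 0 - x 0 * y 2,
      x 0 * y 1 - x 1 * y 0] := by
    intro x y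
    exact cross_apply x y
  simp only [kl, DT, Ln, ev, D3, dotProduct, Fin.sum_univ_three, h, Pi.sub_apply, Pi.add_apply,
    Matrix.cons_val_zero, Matrix.cons_val_one, Matrix.cons_val, map_sub, Derivation.leibniz,
    smul_eq_mul]
  ring

theorem DT_sub (D : Derivation ℚ ℝ ℝ) (a b : Tw) : DT D (a - b) = DT D a - DT D b := by
  unfold DT D3
  ext i <;> simp

theorem DT_smul (D : Derivation ℚ ℝ ℝ) (t : ℝ) (a : Tw) :
    DT D (t • a) = (D t) • a + t • DT D a := by
  unfold DT D3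
  ext i <;> simp [Derivation.leibniz] <;> ring

theorem kl_add (m a b : Tw) : kl m (a + b) = kl m a + kl m b := by
  unfold kl
  simp only [Prod.snd_add, Prod.fst_add, dotProduct_add, add_dotProduct]
  ring

theorem kl_smul (m a : Tw) (t : ℝ) : kl m (t • a) = t * kl m a := by
  unfold kl
  simp only [Prod.smul_snd, Prod.smul_fst, dotProduct_smul, smul_dotProduct, smul_eq_mul]
  ring

theorem ev_neg (m : Tw) (x : R3) : ev (-m) x = - ev m x := by
  unfold ev cr
  simp only [Prod.fst_neg, Prod.snd_neg, map_neg, LinearMap.neg_apply]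
  abel

theorem kl_zero_left (a : Tw) : kl 0 a = 0 := by
  unfold kl
  simp

theorem ev_zero (x : R3) : ev 0 x = 0 := by
  unfold ev cr
  simp

end vwAux

open vwAux

theorem vw : S_Vw := by
  intro V K _ G c p S m C lam D v hCo hPre hSpt
  have hF : ∀ u w, kl (lam u w) (DT D (m (c u)) - DT D (m (c w))) =
      - (C u w * (D3 D (p u) ⬝ᵥ ev (lam u w) (p w))) -
        C w u * (D3 D (p w) ⬝ᵥ ev (lam w u) (p u)) := by
    intro u w
    by_cases h0 : lam u w = 0
    · have h0' : lam w u = 0 := by rw [hPre.anti u w, h0, neg_zero]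
      rw [h0, h0', kl_zero_left, ev_zero, ev_zero, dotProduct_zero, dotProduct_zero]
      ring
    · have h1 := hPre.supp u w h0
      have h2 := hCo.1 u w h1
      rw [← DT_sub, h2, DT_smul, kl_add, kl_smul, kl_smul, hPre.orth u w, kl_DLn, ← hCo.2 u w,
        hPre.anti u w, ev_neg, dotProduct_neg]
      ring
  simp only [hF]
  have h1 : ∀ u, ∑ w, C u w * (D3 D (p u) ⬝ᵥ ev (lam u w) (p w)) =
      D3 D (p u) ⬝ᵥ ∑ w, C u w • ev (lam u w) (p w) := by
    intro u
    rw [dotProduct_sum]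
    refine Finset.sum_congr rfl fun w _ => ?_
    rw [dotProduct_smul, smul_eq_mul]
  have h2 : ∑ u, ∑ w, C u w * (D3 D (p u) ⬝ᵥ ev (lam u w) (p w)) =
      D3 D (p v) ⬝ᵥ ∑ w, C v w • ev (lam v w) (p w) := by
    rw [Finset.sum_eq_single v]
    · exact h1 v
    · intro u _ hu
      rw [h1, hSpt u (by simpa using hu), zero_dotProduct]
    · intro h
      exact absurd (Finset.mem_univ v) h
  have h3 : ∑ u, ∑ w, C w u * (D3 D (p w) ⬝ᵥ ev (lam w u) (p u)) =
      D3 D (p v) ⬝ᵥ ∑ w, C v w • ev (lam v w) (p w) := by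
    rw [Finset.sum_comm]
    exact h2
  rw [show (∑ u, ∑ w, (- (C u w * (D3 D (p u) ⬝ᵥ ev (lam u w) (p w))) -
      C w u * (D3 D (p w) ⬝ᵥ ev (lam w u) (p u)))) =
      - (∑ u, ∑ w, C u w * (D3 D (p u) ⬝ᵥ ev (lam u w) (p w))) -
      ∑ u, ∑ w, C w u * (D3 D (p w) ⬝ᵥ ev (lam w u) (p u)) by
    simp only [Finset.sum_sub_distrib, Finset.sum_neg_distrib]]
  rw [h2, h3]
  ring

end Pool.Agent.MPf1f412
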