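import Pool.Agent.Lib.MP_f1f412_co.TPc
import Pool.Agent.Lib.MP_f1f412_co.TEasy
import Pool.Agent.Lib.MP_f1f412_co.TNWT
import Pool.Agent.Lib.MP_f1f412_co.TUnion
import Pool.Agent.Lib.MP_f1f412_co.TRank
import Pool.Agent.Lib.MP_f1f412_co.TTree
import Pool.Agent.Lib.MP_f1f412_co.GnP
import Pool.Agent.Lib.MP_f1f412_co.Der
import Pool.Agent.Lib.MP_f1f412_co.Star
import Pool.Agent.Lib.MP_f1f412_co.Vw
import Pool.Agent.Lib.MP_f1f412_co.Eqm
import Pool.Agent.Lib.MP_f1f412_co.D0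
import Pool.Agent.Lib.MP_f1f412_co.GenM
import Pool.Agent.Lib.MP_f1f412_co.NoDbl
import Pool.Agent.Lib.MP_f1f412_co.LemN
import Pool.Agent.Lib.MP_f1f412_co.Cnt
import Pool.Agent.Lib.MP_f1f412_co.DIM
import Pool.Agent.Lib.MP_f1f412_co.D0f
import Pool.Agent.Lib.MP_f1f412_co.D0r
import Pool.Agent.Lib.MP_f1f412_co.CompRig
import Pool.Agent.Lib.MP_f1f412_co.Low
import Pool.Agent.Lib.MP_f1f412_co.Mrg
import Pool.Agent.Lib.MP_f1f412_co.Stab
import Pool.Agent.Lib.MP_f1f412_co.Cover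
import Pool.Agent.Lib.MP_f1f412_co.PMinEx
import Pool.Agent.Lib.MP_f1f412_co.PExt
import Pool.Agent.Lib.MP_f1f412_co.PT
import Pool.Agent.Lib.MP_f1f412_co.PDIso
import Pool.Agent.Lib.MP_f1f412_co.PPull
import Pool.Agent.Lib.MP_f1f412_co.PT0
import Pool.Agent.Lib.MP_f1f412_co.POne
import Pool.Agent.Lib.MP_f1f412_co.PCntK
import Pool.Agent.Lib.MP_f1f412_co.PF4
import Pool.Agent.Lib.MP_f1f412_co.QDual
import Pool.Agent.Lib.MP_f1f412_co.QLin
import Pool.Agent.Lib.MP_f1f412_co.QStar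
import Pool.Agent.Lib.MP_f1f412_co.QMain
import Pool.Agent.Lib.MP_f1f412_co.QSup
import Pool.Agent.Lib.MP_f1f412_co.QSix
import Pool.Agent.Lib.MP_f1f412_co.QFF
import Pool.Agent.Lib.MP_f1f412_co.QCo
import Pool.Agent.Lib.MP_f1f412_co.QOm
import Pool.Agent.Lib.MP_f1f412_co.QY1
import Pool.Agent.Lib.MP_f1f412_co.QY2
import Pool.Agent.Lib.MP_f1f412_co.DZP
import Pool.Agent.Lib.MP_f1f412_co.MEnv
import Pool.Agent.Lib.MP_f1f412_co.MM1
import Pool.Agent.Lib.MP_f1f412_co.MM3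
import Pool.Agent.Lib.MP_f1f412_co.MSL1
import Pool.Agent.Lib.MP_f1f412_co.MMg
import Pool.Agent.Lib.MP_f1f412_co.MSB
import Pool.Agent.Lib.MP_f1f412_co.MF1
import Pool.Agent.Lib.MP_f1f412_co.MF3
import Pool.Agent.Lib.MP_f1f412_co.MDD
import Pool.Agent.Lib.MP_f1f412_co.MAlpha
import Pool.Agent.Lib.MP_f1f412_co.MDEs
import Pool.Agent.Lib.MP_f1f412_co.MC1
import Pool.Agent.Lib.MP_f1f412_co.MC2
import Pool.Agent.Lib.MP_f1f412_co.MN1
import Pool.Agent.Lib.MP_f1f412_co.MC3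
import Pool.Agent.Lib.MP_f1f412_co.MC4a
import Pool.Agent.Lib.MP_f1f412_co.MC4b
import Pool.Agent.Lib.MP_f1f412_co.MC4c
import Pool.Agent.Lib.MP_f1f412_co.MC5
import Pool.Agent.Lib.MP_f1f412_co.MSlow
import Pool.Agent.Lib.MP_f1f412_co.MNT
import Pool.Agent.Lib.MP_f1f412_co.MNE
import Pool.Agent.Lib.MP_f1f412_co.FAll
import Pool.Agent.Lib.MP_f1f412_co.FBase
import Pool.Agent.Lib.MP_f1f412_co.FBrg
import Pool.Agent.Lib.MP_f1f412_co.FCon
import Pool.Agent.Lib.MP_f1f412_co.FCore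
import Pool.Agent.Lib.MP_f1f412_co.FDown
import Pool.Agent.Lib.MP_f1f412_co.FEnd
import Pool.Agent.Lib.MP_f1f412_co.FExG
import Pool.Agent.Lib.MP_f1f412_co.FIso
import Pool.Agent.Lib.MP_f1f412_co.FMin
import Pool.Agent.Lib.MP_f1f412_co.FSq
import Pool.Agent.Lib.MP_f1f412_co.FUp

/-!
# MP_f1f412_co (C34): assembly, part 1 (sections 1 to 7, tree packing, leaves)
-/

set_option autoImplicit false

namespace Pool.Agent.MPf1f412

/-! ### tree packing, genericity -/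

theorem aTP : S_TP := tTP tEasy (tNWT tUnion tRank tTree)

theorem aGn : S_Gn := gnP der

/-! ### sections 1 to 4 -/

theorem aStar : S_Star := star vw eqm

theorem aD0 : S_D0 := d0 aStar genM noDbl lemN cnt dIM

theorem aD0f : S_D0f := d0f aD0 dIM mrg

theorem aD0r : S_D0r := d0r aD0f mrg

theorem aCompRig : S_CompRig := compRig aD0f low mrg

theorem aMinEx : S_MinEx := pMinEx pExt

theorem aT : S_T := pT pDIso pPull

theorem aQDual : S_QDual := qDual qLin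

theorem aQStar : S_QStar := qStar vw eqm

theorem aQMain : S_QMain := qMain lemN cnt noDbl dIM aD0 qSup qSix

theorem aQFF : S_QFF := qFF genM qCo qOm aQDual aQStar qY1 qY2 aQMain

theorem aDZP : S_DZP := dZP aQFF mrg

/-! ### sections 5 to 7 -/

theorem aEnv : S_Env := mEnv aD0r aT pT0 pCntK pF4

theorem aSL1 : S_SL1 := mSL1 mM1 mM3

theorem aSB : S_SB := mSB mMg

theorem aDD : S_DD := mDD aSB mF3

theorem aAlpha : S_Alpha := mAlpha aD0r aDD

theorem aC2 : S_C2 := mC2 aSL1 mDEs mC1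

theorem aN1 : S_N1 := mN1 aAlpha mDEs aC2

theorem aC3 : S_C3 := mC3 mF3 mDEs aC2 aN1

theorem aC4a : S_C4a := mC4a mDEs aC2 aC3

theorem aC4b : S_C4b := mC4b aAlpha mDEs

theorem aC4c : S_C4c := mC4c aAlpha mDEs aC2

theorem aC5 : S_C5 := mC5 aSL1 mDEs mC1

theorem aSlow : S_Slow := mSlow aSL1 aC5

theorem aNT : S_NT := mNT mF3 mDEs aC3 aC4a aC4b aC4c aSlow

theorem aNE : S_NE := mNE mF1 mDEs mC1 aC4a aSlow aNT

/-! ### the final theorem from sufficiency, necessity and four-connectivity -/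

theorem aFMin (h1 : S_Suff) (h2 : S_Con4) (h3 : S_Nec) : S_FMin := fMin h1 h2 h3 aTP aGn fBrg

theorem aFAll (h1 : S_Suff) (h2 : S_Con4) (h3 : S_Nec) : S_FAll :=
  fAll (aFMin h1 h2 h3) h2 (fCon fSq) (fDown fSq pExt) (fUp fSq pExt) fIso fCore fBase aGn fBrg

theorem aEnd (h1 : S_Suff) (h2 : S_Con4) (h3 : S_Nec) : S_End :=
  fEnd (aFAll h1 h2 h3) (aFMin h1 h2 h3) fExG

end Pool.Agent.MPf1f412
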