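import Pool.Agent.Lib.MP_f1f412_co.SpecB

/-!
# MP_f1f412_co (C34), `S_Add`: additivity of `dK`
-/

set_option autoImplicit false

namespace Pool.Agent.MPf1f412

theorem Add : S_Add := by
  intro V N _ G cp S X hX
  have hE1 : ∀ s : Set (V × V), s.Finite := fun s => Set.toFinite s
  -- the four sets
  have h1 : {e : V × V | G.Adj e.1 e.2 ∧ cp e.1 ∈ ({X} : Set N) ∧ cp e.2 ∉ ({X} : Set N)} =
      {e : V × V | G.Adj e.1 e.2 ∧ cp e.1 ∈ ({X} : Set N) ∧ cp e.2 ∈ S \ {X}} ∪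
        {e : V × V | G.Adj e.1 e.2 ∧ cp e.1 ∈ ({X} : Set N) ∧ cp e.2 ∈ Sᶜ} := by
    ext e
    simp only [Set.mem_setOf_eq, Set.mem_singleton_iff, Set.mem_union, Set.mem_diff,
      Set.mem_compl_iff]
    constructor
    · rintro ⟨a, b, c⟩
      by_cases h : cp e.2 ∈ S
      · exact Or.inl ⟨a, b, h, c⟩
      · exact Or.inr ⟨a, b, h⟩
    · rintro (⟨a, b, _, c⟩ | ⟨a, b, c⟩)
      · exact ⟨a, b, c⟩
      · exact ⟨a, b, fun h => c (h ▸ hX)⟩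
  have h2 : {e : V × V | G.Adj e.1 e.2 ∧ cp e.1 ∈ S \ {X} ∧ cp e.2 ∉ S \ {X}} =
      {e : V × V | G.Adj e.1 e.2 ∧ cp e.1 ∈ S \ {X} ∧ cp e.2 ∈ ({X} : Set N)} ∪
        {e : V × V | G.Adj e.1 e.2 ∧ cp e.1 ∈ S \ {X} ∧ cp e.2 ∉ S} := by
    ext e
    simp only [Set.mem_setOf_eq, Set.mem_singleton_iff, Set.mem_union, Set.mem_diff, not_and,
      not_not]
    constructor
    · rintro ⟨a, b, c⟩
      by_cases h : cp e.2 ∈ S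
      · exact Or.inl ⟨a, b, c h⟩
      · exact Or.inr ⟨a, b, h⟩
    · rintro (⟨a, b, c⟩ | ⟨a, b, c⟩)
      · exact ⟨a, b, fun _ => c⟩
      · exact ⟨a, b, fun h => absurd h c⟩
  have h3 : {e : V × V | G.Adj e.1 e.2 ∧ cp e.1 ∈ S ∧ cp e.2 ∉ S} =
      {e : V × V | G.Adj e.1 e.2 ∧ cp e.1 ∈ ({X} : Set N) ∧ cp e.2 ∈ Sᶜ} ∪
        {e : V × V | G.Adj e.1 e.2 ∧ cp e.1 ∈ S \ {X} ∧ cp e.2 ∉ S} := by
    ext e
    simp only [Set.mem_setOf_eq, Set.mem_singleton_iff, Set.mem_union, Set.mem_diff,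
      Set.mem_compl_iff]
    constructor
    · rintro ⟨a, b, c⟩
      by_cases h : cp e.1 = X
      · exact Or.inl ⟨a, h, c⟩
      · exact Or.inr ⟨a, ⟨b, h⟩, c⟩
    · rintro (⟨a, b, c⟩ | ⟨a, b, c⟩)
      · exact ⟨a, b ▸ hX, c⟩
      · exact ⟨a, b.1, c⟩
  have h4 : {e : V × V | G.Adj e.1 e.2 ∧ cp e.1 ∈ S \ {X} ∧ cp e.2 ∈ ({X} : Set N)}.ncard =
      {e : V × V | G.Adj e.1 e.2 ∧ cp e.1 ∈ ({X} : Set N) ∧ cp e.2 ∈ S \ {X}}.ncard := by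
    refine Set.ncard_congr (fun e _ => (e.2, e.1)) ?_ ?_ ?_
    · rintro e ⟨a, b, c⟩
      exact ⟨a.symm, c, b⟩
    · rintro ⟨a, b⟩ ⟨c, d⟩ _ _ h
      simp only [Prod.mk.injEq] at h
      rw [h.1, h.2]
    · rintro ⟨a, b⟩ ⟨h, h', h''⟩
      exact ⟨(b, a), ⟨h.symm, h'', h'⟩, rfl⟩
  have c1 : dK G cp {X} = eAB G cp {X} (S \ {X}) + eAB G cp {X} Sᶜ := by
    unfold dK eAB
    rw [h1, Set.ncard_union_eq _ (hE1 _) (hE1 _)]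
    rw [Set.disjoint_left]
    rintro e ⟨_, _, h⟩ ⟨_, _, h'⟩
    exact h' h.1
  refine ⟨c1, ?_⟩
  unfold dK eAB
  rw [h2, h3, Set.ncard_union_eq _ (hE1 _) (hE1 _), Set.ncard_union_eq _ (hE1 _) (hE1 _), h4]
  · ring
  · rw [Set.disjoint_left]
    rintro e ⟨_, h, _⟩ ⟨_, h', _⟩
    exact h'.2 h
  · rw [Set.disjoint_left]
    rintro e ⟨_, _, h⟩ ⟨_, _, h'⟩
    have : cp e.2 = X := h
    exact h' (this ▸ hX)

end Pool.Agent.MPf1f412
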