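import Pool.Agent.Lib.MP_f1f412_co.SpecB

/-!
# MP_f1f412_co (C34), Case B (`S_CaseB`)
-/

set_option autoImplicit false

namespace Pool.Agent.MPf1f412

theorem bCaseB : S_Cub → S_CompPN → S_NoTri3 → S_CaseB := by
  intro hCub hComp hNo V K N _ _ _ G c p q g π hE Z hZ hd h3
  obtain ⟨A, B, C, -, -, -, h⟩ := hCub V N G (π ∘ c) (fun S => cmp G (π ∘ c) p S)
    (hComp V K N G c p q g π hE) Z hZ (hd.trans (by norm_num)) h3
  exact hNo V K N G c p q g π hE A B C h

end Pool.Agent.MPf1f412
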