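import Pool.Agent.Lib.MP_f1f412_co.SpecB
import Pool.Agent.Lib.MP_f1f412_co.MMg

/-!
# MP_f1f412_co (C34): the count for the 5-cycle
-/

set_option autoImplicit false

namespace Pool.Agent.MPf1f412

namespace BCnt9M

variable {V K J : Type} [Finite V] {G : SimpleGraph V} {c : V → K} {p q : V → R3} {g : K → Iso3}

theorem sf_nonneg (hE : Env G c p q g) (f : K → J) (X : K) : 0 ≤ sf G c Set.univ f := by
  by_cases hc : ∃ X Y, f X ≠ f Y
  · have := hE.cntK J f hc
    linarith
  · push Not at hc
    have h3 : f '' Set.univ = {f X} := by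
      ext j
      constructor
      · rintro ⟨Z, -, rfl⟩
        exact hc Z X
      · rintro rfl
        exact ⟨X, trivial, rfl⟩
    unfold sf
    rw [h3, Set.ncard_singleton]
    simp

/-- Two edges with a common end are not the only edges which leave a set containing the class. -/
theorem no_two (hF3 : S_F3B) (hE : Env G c p q g) {A : Set V} {z b b' : V} (hb : b ∉ A)
    (hb' : b' ∉ A) (hbb : b ≠ b') (hzb : G.Adj z b) (hzb' : G.Adj z b')
    (hcz : ∀ v, c v = c z → v ∈ A)
    (hl : ∀ u w, G.Adj u w → u ∈ A → w ∉ A → u = z ∧ (w = b ∨ w = b'))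
    (h1 : (∃ v, v ≠ z ∧ c v = c z) ∨ ∃ x, G.Adj z x ∧ x ≠ b ∧ x ≠ b') : False := by
  have hA := hF3 V G hE.hyp A z b b' (hcz z rfl) hb hb' hbb hzb hzb' hl
  rcases h1 with ⟨v, hv, hcv⟩ | ⟨x, hx, hxb, hxb'⟩
  · have h2 := hcz v hcv
    rw [hA] at h2
    exact hv h2
  · have h2 : x ∉ A := by
      rw [hA]
      exact fun h => hx.ne (Set.mem_singleton_iff.1 h).symm
    rcases (hl z x hx (hcz z rfl) h2).2 with h | h
    · exact hxb h
    · exact hxb' h

/-- The bound for a partition which separates exactly one of the two ends. -/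
theorem bnd_one (hMb : S_Mb) (hF3 : S_F3B) [Finite K] (hE : Env G c p q g) (f : K → J) {z b b' : V}
    (hbb : b ≠ b') (hzb : G.Adj z b) (hzb' : G.Adj z b') (hf : f (c b) = f (c b'))
    (hne : f (c z) ≠ f (c b))
    (h1 : (∃ v, v ≠ z ∧ c v = c z) ∨ ∃ x, G.Adj z x ∧ x ≠ b ∧ x ≠ b') :
    5 ≤ sf G c Set.univ f := by
  rcases hMb V K J G c p q g hE f z b z b' hzb hzb' (fun h => hbb (congrArg Prod.snd h)) rfl hf hne
    with h | ⟨h2, h3⟩
  · exact h
  · exfalso
    refine no_two hF3 hE (A := {v | f (c v) = f (c z)}) (z := z) (b := b) (b' := b') ?_ ?_ hbb hzb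
      hzb' ?_ ?_ h1
    · exact fun h => hne h.symm
    · exact fun h => hne (h.symm.trans hf.symm)
    · intro v hv
      exact congrArg f hv
    · intro u w huw hu hw
      have h4 : f (c w) = f (c b) := (h2 (c w)).resolve_left hw
      rcases h3 u w huw hu h4 with ⟨h5, h6⟩ | ⟨h5, h6⟩
      · exact ⟨h5, Or.inl h6⟩
      · exact ⟨h5, Or.inr h6⟩

end BCnt9M

open BCnt9M in
theorem bCnt9 (hMb : S_Mb) (hF3 : S_F3B) : S_Cnt9 := by
  classical
  intro V K _ _ G c p q g hE z b b' y y' hzb hzb' hbb hby hyy hyb hcb hczb hcyb hcyb' hczy hczy'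
    hcyy h1 h2 c₁ hc₁ hc₁' J f
  -- the vertices are different
  have nbz : b ≠ z := hzb.ne.symm
  have nbz' : b' ≠ z := hzb'.ne.symm
  have nby : b ≠ y := hby.ne
  have nyy : y ≠ y' := hyy.ne
  have nyb : y' ≠ b' := hyb.ne
  have nyb2 : y' ≠ b := fun h => hcyb' (congrArg c h)
  have nyb3 : b' ≠ y := fun h => hcyb ((congrArg c h).symm.trans hcb.symm)
  have nzy : z ≠ y := fun h => hczy (congrArg c h)
  have nzy' : z ≠ y' := fun h => hczy' (congrArg c h)
  -- the function `f₁`
  obtain ⟨f₁, hf₁⟩ : ∃ f₁ : K → J, f₁ = fun X => if X = c y' then f (c b) else f X := ⟨_, rfl⟩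
  have hf₁y : f₁ (c y') = f (c b) := by
    rw [hf₁]
    exact if_pos rfl
  have hf₁n : ∀ X, X ≠ c y' → f₁ X = f X := by
    intro X h
    rw [hf₁]
    exact if_neg h
  have hf₁b : f₁ (c b) = f (c b) := hf₁n _ (Ne.symm hcyb')
  have hfc : ∀ v, f (c₁ v) = f₁ (c v) := by
    intro v
    by_cases h : c v = c y'
    · rw [hc₁ v h, h, hf₁y]
    · rw [hc₁' v h, hf₁n _ h]
  have hcS : ∀ v, c₁ v ≠ c y' := by
    intro v
    by_cases h : c v = c y'
    · rw [hc₁ v h]
      exact Ne.symm hcyb'
    · rw [hc₁' v h]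
      exact h
  have himg : f '' {X | X ≠ c y'} = f₁ '' Set.univ := by
    ext j
    constructor
    · rintro ⟨X, hX, rfl⟩
      exact ⟨X, trivial, hf₁n X hX⟩
    · rintro ⟨X, -, rfl⟩
      by_cases h : X = c y'
      · refine ⟨c b, Ne.symm hcyb', ?_⟩
        rw [h, hf₁y]
      · exact ⟨X, h, (hf₁n X h).symm⟩
  obtain ⟨G', hG'⟩ : ∃ G' : SimpleGraph V, G' = G.deleteEdges {s(b, z), s(b, y)} := ⟨_, rfl⟩
  rw [← hG']
  have hadj : ∀ u w, G'.Adj u w ↔ G.Adj u w ∧ ¬ (s(u, w) = s(b, z) ∨ s(u, w) = s(b, y)) := by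
    intro u w
    rw [hG', SimpleGraph.deleteEdges_adj]
    rfl
  -- the edges
  obtain ⟨E₁, hE₁⟩ : ∃ E₁ : Set (Sym2 V), E₁ = {e : Sym2 V | ∃ u w, e = s(u, w) ∧
    Cre G c Set.univ u w ∧ f₁ (c u) ≠ f₁ (c w)} := ⟨_, rfl⟩
  have hef : ef G c Set.univ f₁ = E₁.ncard := by
    rw [hE₁]
    rfl
  have hef' : ef G' c₁ {X | X ≠ c y'} f = (E₁ \ {s(b, z), s(b, y)}).ncard := by
    unfold ef
    congr 1
    ext e
    rw [hE₁]
    constructor
    · rintro ⟨u, w, rfl, hc, huw⟩
      rw [hfc, hfc] at huw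
      refine ⟨⟨u, w, rfl, ⟨((hadj _ _).1 hc.1).1, trivial, trivial,
        fun h => huw (congrArg f₁ h)⟩, huw⟩, ?_⟩
      exact ((hadj _ _).1 hc.1).2
    · rintro ⟨⟨u, w, rfl, hc, huw⟩, he⟩
      rw [← hfc, ← hfc] at huw
      exact ⟨u, w, rfl, ⟨(hadj _ _).2 ⟨hc.1, he⟩, hcS u, hcS w, fun h => huw (congrArg f h)⟩, huw⟩
  have hsf : sf G' c₁ {X | X ≠ c y'} f = sf G c Set.univ f₁ +
      5 * (((E₁ \ {s(b, z), s(b, y)}).ncard : ℤ) - (E₁.ncard : ℤ)) := by
    unfold sf
    rw [hef, hef', himg]
    ring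
  have hmem : ∀ u w, G.Adj u w → (s(u, w) ∈ E₁ ↔ f₁ (c u) ≠ f₁ (c w)) := by
    intro u w huw
    rw [hE₁]
    constructor
    · rintro ⟨u', w', he, -, hne⟩
      rcases Sym2.eq_iff.1 he with ⟨rfl, rfl⟩ | ⟨rfl, rfl⟩
      · exact hne
      · exact hne.symm
    · intro h
      exact ⟨u, w, rfl, ⟨huw, trivial, trivial, fun h' => h (congrArg f₁ h')⟩, h⟩
  -- at most two edges are missing
  have hmiss2 : (E₁.ncard : ℤ) ≤ ((E₁ \ {s(b, z), s(b, y)}).ncard : ℤ) + 2 := by
    have h3 := Set.ncard_le_ncard_sdiff_add_ncard E₁ ({s(b, z), s(b, y)} : Set (Sym2 V))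
      (Set.toFinite _)
    have h4 := Set.ncard_insert_le s(b, z) ({s(b, y)} : Set (Sym2 V))
    rw [Set.ncard_singleton] at h4
    have h5 : E₁.ncard ≤ (E₁ \ {s(b, z), s(b, y)}).ncard + 2 := by omega
    exact_mod_cast h5
  have hmiss1 : ∀ e e', e' ∉ E₁ → ({s(b, z), s(b, y)} : Set (Sym2 V)) = {e, e'} →
      (E₁.ncard : ℤ) ≤ ((E₁ \ {s(b, z), s(b, y)}).ncard : ℤ) + 1 := by
    intro e e' he' hee
    have h3 := Set.ncard_le_ncard_sdiff_add_ncard E₁ ({e} : Set (Sym2 V)) (Set.toFinite _)
    rw [Set.ncard_singleton] at h3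
    have h4 : E₁ \ {s(b, z), s(b, y)} = E₁ \ {e} := by
      rw [hee]
      ext x
      constructor
      · rintro ⟨hx, hx'⟩
        exact ⟨hx, fun h => hx' (Or.inl h)⟩
      · rintro ⟨hx, hx'⟩
        refine ⟨hx, ?_⟩
        rintro (h | h)
        · exact hx' h
        · rw [Set.mem_singleton_iff] at h
          exact he' (h ▸ hx)
    rw [h4]
    exact_mod_cast h3
  have hmiss0 : s(b, z) ∉ E₁ → s(b, y) ∉ E₁ → E₁ \ {s(b, z), s(b, y)} = E₁ := by
    intro h3 h4
    ext x
    constructor
    · exact fun h => h.1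
    · intro hx
      refine ⟨hx, ?_⟩
      rintro (h | h)
      · exact h3 (h ▸ hx)
      · rw [Set.mem_singleton_iff] at h
        exact h4 (h ▸ hx)
  have hyb' : f₁ (c y') = f₁ (c b) := by rw [hf₁y, hf₁b]
  rw [hsf]
  by_cases hz : f₁ (c z) = f₁ (c b)
  · have hz' : s(b, z) ∉ E₁ := by
      rw [hmem b z hzb.symm, hz]
      exact fun h => h rfl
    by_cases hy : f₁ (c y) = f₁ (c b)
    · have hy' : s(b, y) ∉ E₁ := by
        rw [hmem b y hby, hy]
        exact fun h => h rfl
      rw [hmiss0 hz' hy']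
      have h3 := sf_nonneg hE f₁ (c b)
      linarith
    · have h3 := bnd_one hMb hF3 hE f₁ (z := y) (b := b) (b' := y') (Ne.symm nyb2) hby.symm hyy
        hyb'.symm hy h2
      have h4 := hmiss1 s(b, y) s(b, z) hz' (Set.pair_comm _ _)
      linarith
  · by_cases hy : f₁ (c y) = f₁ (c b)
    · have hy' : s(b, y) ∉ E₁ := by
        rw [hmem b y hby, hy]
        exact fun h => h rfl
      have h3 := bnd_one hMb hF3 hE f₁ (z := z) (b := b) (b' := b') hbb hzb hzb'
        (by rw [hcb]) hz h1
      have h4 := hmiss1 s(b, z) s(b, y) hy' rfl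
      linarith
    · -- both values are different from the value at `b`
      have hMg := mMg V K J G c Set.univ f₁ (c b) (c z) Set.finite_univ trivial trivial
        (fun h => hz h.symm)
      obtain ⟨f₂, hf₂⟩ : ∃ f₂ : K → J, f₂ = fun Z => if f₁ Z = f₁ (c z) then f₁ (c b) else f₁ Z :=
        ⟨_, rfl⟩
      rw [← hf₂] at hMg
      have hf₂z : ∀ Z, f₁ Z = f₁ (c z) → f₂ Z = f₁ (c b) := by
        intro Z h
        rw [hf₂]
        exact if_pos h
      have hf₂n : ∀ Z, f₁ Z ≠ f₁ (c z) → f₂ Z = f₁ Z := by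
        intro Z h
        rw [hf₂]
        exact if_neg h
      have hin : ∀ (F : K → J) (α β : J) (u w : V), G.Adj u w → F (c u) = α → F (c w) = β →
          s(u, w) ∈ {e : Sym2 V | ∃ u w, e = s(u, w) ∧ G.Adj u w ∧ c u ∈ (Set.univ : Set K) ∧
            c w ∈ (Set.univ : Set K) ∧ F (c u) = α ∧ F (c w) = β} := by
        intro F α β u w h3 h4 h5
        exact ⟨u, w, rfl, h3, trivial, trivial, h4, h5⟩
      have hbz1 : f₁ (c b') = f₁ (c b) := by rw [hcb]
      by_cases hzy : f₁ (c z) = f₁ (c y)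
      · -- four edges between the two parts
        have h4 : 4 ≤ eb G c Set.univ f₁ (f₁ (c b)) (f₁ (c z)) := by
          have hcard : ({s(b, z), s(b', z), s(b, y), s(y', y)} : Finset (Sym2 V)).card = 4 := by
            rw [Finset.card_insert_of_notMem, Finset.card_insert_of_notMem, Finset.card_pair]
            · simp [Sym2.eq_iff, nbz, nbz', nby, nyy, nyb, nyb2, nyb3, nzy, nzy', nyb2.symm,
                nby.symm]
            · simp [Sym2.eq_iff, nbz, nbz', nby, nyy, nyb, nyb2, nyb3, nzy, nzy', hbb.symm,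
                nyb.symm]
            · simp [Sym2.eq_iff, nbz, nbz', nby, nyy, nyb, nyb2, nyb3, nzy, nzy', hbb,
                nyb2.symm]
          rw [← hcard, ← Set.ncard_coe_finset]
          unfold eb
          refine Set.ncard_le_ncard ?_ (Set.toFinite _)
          intro e he
          simp only [Finset.coe_insert, Finset.coe_singleton, Set.mem_insert_iff,
            Set.mem_singleton_iff] at he
          rcases he with rfl | rfl | rfl | rfl
          · exact hin f₁ _ _ b z hzb.symm rfl rfl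
          · exact hin f₁ _ _ b' z hzb'.symm hbz1 rfl
          · exact hin f₁ _ _ b y hby rfl hzy.symm
          · exact hin f₁ _ _ y' y hyy.symm hyb' hzy.symm
        have h5 := sf_nonneg hE f₂ (c b)
        have h6 : (4 : ℤ) ≤ (eb G c Set.univ f₁ (f₁ (c b)) (f₁ (c z)) : ℤ) := by exact_mod_cast h4
        linarith
      · -- three values
        have hf₂b : f₂ (c b) = f₁ (c b) := hf₂n _ (fun h => hz h.symm)
        have hf₂y : f₂ (c y) = f₁ (c y) := hf₂n _ (fun h => hzy h.symm)
        have hf₂y' : f₂ (c y') = f₁ (c b) := by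
          rw [hf₂n _ (by rw [hyb']; exact fun h => hz h.symm), hyb']
        have hMg2 := mMg V K J G c Set.univ f₂ (c b) (c y) Set.finite_univ trivial trivial
          (by rw [hf₂b, hf₂y]; exact fun h => hy h.symm)
        obtain ⟨f₃, hf₃⟩ : ∃ f₃ : K → J,
          f₃ = fun Z => if f₂ Z = f₂ (c y) then f₂ (c b) else f₂ Z := ⟨_, rfl⟩
        rw [← hf₃] at hMg2
        obtain ⟨D₁, hD₁⟩ : ∃ D₁ : Set (Sym2 V), D₁ = {e : Sym2 V | ∃ u w, e = s(u, w) ∧
          G.Adj u w ∧ c u ∈ (Set.univ : Set K) ∧ c w ∈ (Set.univ : Set K) ∧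
            f₁ (c u) = f₁ (c b) ∧ f₁ (c w) = f₁ (c z)} := ⟨_, rfl⟩
        obtain ⟨D₂, hD₂⟩ : ∃ D₂ : Set (Sym2 V), D₂ = {e : Sym2 V | ∃ u w, e = s(u, w) ∧
          G.Adj u w ∧ c u ∈ (Set.univ : Set K) ∧ c w ∈ (Set.univ : Set K) ∧
            f₂ (c u) = f₂ (c b) ∧ f₂ (c w) = f₂ (c y)} := ⟨_, rfl⟩
        have he1 : eb G c Set.univ f₁ (f₁ (c b)) (f₁ (c z)) = D₁.ncard := by
          rw [hD₁]
          rfl
        have he2 : eb G c Set.univ f₂ (f₂ (c b)) (f₂ (c y)) = D₂.ncard := by
          rw [hD₂]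
          rfl
        have hne1 : s(b, z) ≠ s(b', z) := by
          simp [Sym2.eq_iff, nbz, hbb]
        have hne2 : s(b, y) ≠ s(y', y) := by
          simp [Sym2.eq_iff, nby, nyb2.symm]
        have hs1 : ({s(b, z), s(b', z)} : Set (Sym2 V)) ⊆ D₁ := by
          rw [hD₁]
          rintro e (rfl | rfl)
          · exact hin f₁ _ _ b z hzb.symm rfl rfl
          · exact hin f₁ _ _ b' z hzb'.symm hbz1 rfl
        have hs2 : ({s(b, y), s(y', y)} : Set (Sym2 V)) ⊆ D₂ := by
          rw [hD₂]
          rintro e (rfl | rfl)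
          · exact hin f₂ _ _ b y hby rfl rfl
          · exact hin f₂ _ _ y' y hyy.symm (by rw [hf₂y', hf₂b]) rfl
        have hl1 := Set.ncard_le_ncard hs1 (Set.toFinite _)
        have hl2 := Set.ncard_le_ncard hs2 (Set.toFinite _)
        rw [Set.ncard_pair hne1] at hl1
        rw [Set.ncard_pair hne2] at hl2
        rw [he1] at hMg
        rw [he2] at hMg2
        have hl1' : (2 : ℤ) ≤ (D₁.ncard : ℤ) := by exact_mod_cast hl1
        have hl2' : (2 : ℤ) ≤ (D₂.ncard : ℤ) := by exact_mod_cast hl2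
        by_cases hc3 : ∃ X Y, f₃ X ≠ f₃ Y
        · have h3 := hE.cntK J f₃ hc3
          linarith
        · have h3 := sf_nonneg hE f₃ (c b)
          by_cases h5 : 5 ≤ D₁.ncard + D₂.ncard
          · have h6 : (5 : ℤ) ≤ (D₁.ncard : ℤ) + (D₂.ncard : ℤ) := by exact_mod_cast h5
            linarith
          · exfalso
            push Not at hc3
            have hD₁e : ({s(b, z), s(b', z)} : Set (Sym2 V)) = D₁ := by
              refine Set.eq_of_subset_of_ncard_le hs1 ?_ (Set.toFinite _)
              rw [Set.ncard_pair hne1]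
              omega
            have hD₂e : ({s(b, y), s(y', y)} : Set (Sym2 V)) = D₂ := by
              refine Set.eq_of_subset_of_ncard_le hs2 ?_ (Set.toFinite _)
              rw [Set.ncard_pair hne2]
              omega
            -- only three values
            have hval : ∀ X, f₁ X = f₁ (c z) ∨ f₁ X = f₁ (c b) ∨ f₁ X = f₁ (c y) := by
              intro X
              by_cases h6 : f₁ X = f₁ (c z)
              · exact Or.inl h6
              · right
                by_cases h7 : f₁ X = f₁ (c y)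
                · exact Or.inr h7
                · left
                  have h8 := hc3 X (c b)
                  rw [hf₃] at h8
                  simp only [] at h8
                  rw [if_neg (by rw [hf₂n _ h6, hf₂y]; exact h7),
                    if_neg (by rw [hf₂b, hf₂y]; exact fun h => hy h.symm), hf₂n _ h6, hf₂b] at h8
                  exact h8
            refine no_two hF3 hE (A := {v | f₁ (c v) = f₁ (c z)}) (z := z) (b := b) (b' := b')
              (fun h => hz h.symm) (fun h => hz (h.symm.trans hbz1)) hbb hzb hzb'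
              (fun v hv => congrArg f₁ hv) ?_ h1
            intro u w huw hu hw
            rcases hval (c w) with h6 | h6 | h6
            · exact absurd h6 hw
            · have h7 : s(w, u) ∈ D₁ := by
                rw [hD₁]
                exact hin f₁ _ _ w u huw.symm h6 hu
              rw [← hD₁e] at h7
              rcases h7 with h7 | h7
              · rcases Sym2.eq_iff.1 h7 with ⟨h8, h9⟩ | ⟨h8, h9⟩
                · exact ⟨h9, Or.inl h8⟩
                · exfalso
                  apply hw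
                  change f₁ (c w) = f₁ (c z)
                  rw [h8]
              · rcases Sym2.eq_iff.1 h7 with ⟨h8, h9⟩ | ⟨h8, h9⟩
                · exact ⟨h9, Or.inr h8⟩
                · exfalso
                  apply hw
                  change f₁ (c w) = f₁ (c z)
                  rw [h8]
            · exfalso
              have hu2 : f₂ (c u) = f₂ (c b) := by
                rw [hf₂z _ hu, hf₂b]
              have hw2 : f₂ (c w) = f₂ (c y) := by
                rw [hf₂n _ hw, h6, hf₂y]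
              have h7 : s(u, w) ∈ D₂ := by
                rw [hD₂]
                exact hin f₂ _ _ u w huw hu2 hw2
              rw [← hD₂e] at h7
              have hu' : f₁ (c u) = f₁ (c z) := hu
              rcases h7 with h7 | h7
              · rcases Sym2.eq_iff.1 h7 with ⟨h8, h9⟩ | ⟨h8, h9⟩
                · rw [h8] at hu'
                  exact hz hu'.symm
                · rw [h8] at hu'
                  exact hzy hu'.symm
              · rcases Sym2.eq_iff.1 h7 with ⟨h8, h9⟩ | ⟨h8, h9⟩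
                · rw [h8, hyb'] at hu'
                  exact hz hu'.symm
                · rw [h8] at hu'
                  exact hzy hu'.symm

end Pool.Agent.MPf1f412
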