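import Pool.Agent.Lib.MP_f1f412_co.SpecB
import Pool.Agent.Lib.MP_f1f412_co.Spec1
import Pool.Agent.Lib.MP_f1f412_co.Basic

/-!
# MP_f1f412_co (C34), B6: the components of sets of nodes
-/

set_option autoImplicit false

namespace Pool.Agent.MPf1f412

open Matrix

namespace bCompPAux

variable {V K : Type}

/-- a motion which is not constant gives dimension at least seven -/
theorem seven [Finite K] {G : SimpleGraph V} {c : V → K} {p : V → R3} {S : Set K} {X Y : K}
    (hX : X ∈ S) (hY : Y ∈ S) {m : K → Tw} (hm : IsMot G c p S m) (hne : m X ≠ m Y) :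
    7 ≤ dmo G c p S := by
  classical
  have hmem : ∀ x : Tw × ℝ, (fun X => if X ∈ S then (x.1 + x.2 • m X) else 0)
      ∈ Mot G c p S := by
    intro x
    have h1 : IsMot G c p S ((fun _ => x.1) + x.2 • m) := (isMot_const x.1).add (hm.smul x.2)
    refine ⟨h1.congr fun X hX => ?_, fun X hX => ?_⟩
    · show (if X ∈ S then (x.1 + x.2 • m X) else 0) = _
      rw [if_pos hX]
      rfl
    · show (if X ∈ S then (x.1 + x.2 • m X) else 0) = 0
      rw [if_neg hX]
  let Φ : (Tw × ℝ) →ₗ[ℝ] Mot G c p S :=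
    { toFun := fun x => ⟨_, hmem x⟩
      map_add' := by
        intro x y
        refine Subtype.ext (funext fun X => ?_)
        show (if X ∈ S then ((x + y).1 + (x + y).2 • m X) else 0) =
          (if X ∈ S then (x.1 + x.2 • m X) else 0) + (if X ∈ S then (y.1 + y.2 • m X) else 0)
        split_ifs
        · simp only [Prod.fst_add, Prod.snd_add, add_smul]
          abel
        · rw [add_zero]
      map_smul' := by
        intro a x
        refine Subtype.ext (funext fun X => ?_)
        show (if X ∈ S then ((a • x).1 + (a • x).2 • m X) else 0) =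
          a • (if X ∈ S then (x.1 + x.2 • m X) else 0)
        split_ifs
        · simp only [Prod.smul_fst, Prod.smul_snd, smul_add, smul_smul, smul_eq_mul]
        · rw [smul_zero] }
  have hΦ : ∀ (x : Tw × ℝ) (X : K), X ∈ S → (Φ x : K → Tw) X = x.1 + x.2 • m X := by
    intro x X hX
    show (if X ∈ S then (x.1 + x.2 • m X) else 0) = _
    rw [if_pos hX]
  have hinj : Function.Injective Φ := by
    rw [injective_iff_map_eq_zero]
    intro x hx
    have h1 : ∀ X ∈ S, x.1 + x.2 • m X = 0 := by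
      intro X hX
      rw [← hΦ x X hX, hx]
      rfl
    have h2 : x.2 • (m X - m Y) = 0 := by
      have := congrArg₂ (· - ·) (h1 _ hX) (h1 _ hY)
      simp only [sub_zero] at this
      rw [← this, smul_sub]
      abel
    have h3 : x.2 = 0 := by
      rcases smul_eq_zero.1 h2 with h3 | h3
      · exact h3
      · exact absurd (sub_eq_zero.1 h3) hne
    have h4 := h1 X hX
    rw [h3, zero_smul, add_zero] at h4
    exact Prod.ext h4 h3
  have h8 := LinearMap.finrank_le_finrank_of_injective hinj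
  have h9 : Module.finrank ℝ (Tw × ℝ) = 7 := by
    simp [Tw, R3, Module.finrank_prod]
  rw [h9] at h8
  exact h8

theorem mem_cmp {G : SimpleGraph V} {c : V → K} {p : V → R3} {S : Set K} {X : K} (hX : X ∈ S) :
    X ∈ cmp G c p S X := ⟨hX, fun _ _ => rfl⟩

theorem cmp_eq {G : SimpleGraph V} {c : V → K} {p : V → R3} {S : Set K} {X Y : K}
    (h : ∀ m, IsMot G c p S m → m X = m Y) : cmp G c p S X = cmp G c p S Y := by
  ext Z
  constructor
  · rintro ⟨h1, h2⟩
    exact ⟨h1, fun m hm => (h2 m hm).trans (h m hm)⟩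
  · rintro ⟨h1, h2⟩
    exact ⟨h1, fun m hm => (h2 m hm).trans (h m hm).symm⟩

end bCompPAux

open bCompPAux in
theorem bCompP : S_D0f → S_CompRig → S_Mrg → S_CompPN := by
  intro hD0f hCR _ V K N _ _ _ G c p q g π hE
  have hG := hE.env
  refine ⟨?_, ?_, ?_⟩
  · intro u y u' y' hne hu hy huy huy'
    refine hE.slowN {(π ∘ c) y} ((π ∘ c) u) ?_ hne u y u' y' rfl hu.symm rfl hy.symm huy huy'
    intro m _ X hX Y hY
    rw [Set.mem_singleton_iff.1 hX, Set.mem_singleton_iff.1 hY]
  · intro S A u y u' y' hu hu' hy hy' hr hA huy huy'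
    refine hE.slowN (cmp G (π ∘ c) p S ((π ∘ c) y)) A ?_ ?_ u y u' y' hu hu' (mem_cmp hy) ?_
      huy huy'
    · exact hCR V N G (π ∘ c) p S (Set.toFinite _) hG.gn hG.hyp.tri _ hy
    · rintro ⟨h1, h2⟩
      rcases hA with h | h
      · exact h h1
      · exact h (cmp_eq h2)
    · have h3 : (π ∘ c) y' ∈ cmp G (π ∘ c) p S ((π ∘ c) y') := mem_cmp hy'
      have h4 : cmp G (π ∘ c) p S ((π ∘ c) y) = cmp G (π ∘ c) p S ((π ∘ c) y') := hr
      rw [← h4] at h3
      exact h3
  · intro S hS
    obtain ⟨a, b, ha, hb, hab⟩ := (Set.one_lt_ncard_iff (Set.toFinite _)).1 hS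
    obtain ⟨X, hX, rfl⟩ := ha
    obtain ⟨Y, hY, rfl⟩ := hb
    have h1 : ∃ m, IsMot G (π ∘ c) p S m ∧ m X ≠ m Y := by
      by_contra hno
      apply hab
      refine cmp_eq fun m hm => ?_
      by_contra h
      exact hno ⟨m, hm, h⟩
    obtain ⟨m, hm, hne⟩ := h1
    have h2 := seven hX hY hm hne
    have h3 := hD0f V N G (π ∘ c) p S (Set.toFinite _) hG.gn hG.hyp.tri
    omega

end Pool.Agent.MPf1f412
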