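import Pool.Agent.Lib.MP_f1f412_co.SpecB

/-!
# MP_f1f412_co (C34): the cubic triangle (counting)
-/

set_option autoImplicit false

namespace Pool.Agent.MPf1f412

namespace BCubM

variable {V N : Type} [Finite V] [Finite N] {G : SimpleGraph V} {cp : V → N}
  {r : Set N → N → Set N}

theorem eAB_pos {A B : Set N} (h : 1 ≤ eAB G cp A B) : ∃ u w, G.Adj u w ∧ cp u ∈ A ∧ cp w ∈ B := by
  unfold eAB at h
  have h1 : {e : V × V | G.Adj e.1 e.2 ∧ cp e.1 ∈ A ∧ cp e.2 ∈ B}.Nonempty := by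
    rw [← Set.ncard_pos (Set.toFinite _)]
    omega
  obtain ⟨e, he⟩ := h1
  exact ⟨e.1, e.2, he⟩

theorem eAB_union {A B C : Set N} : eAB G cp A (B ∪ C) ≤ eAB G cp A B + eAB G cp A C := by
  unfold eAB
  refine le_trans (Set.ncard_le_ncard ?_ (Set.toFinite _)) (Set.ncard_union_le _ _)
  rintro e ⟨h1, h2, h3 | h3⟩
  · exact Or.inl ⟨h1, h2, h3⟩
  · exact Or.inr ⟨h1, h2, h3⟩

theorem eAB_mono {A B C : Set N} (h : B ⊆ C) : eAB G cp A B ≤ eAB G cp A C := by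
  unfold eAB
  refine Set.ncard_le_ncard ?_ (Set.toFinite _)
  rintro e ⟨h1, h2, h3⟩
  exact ⟨h1, h2, h h3⟩

theorem eAB_one (hr : CompP G cp r) {X Y : N} (h : X ≠ Y) : eAB G cp {X} {Y} ≤ 1 := by
  unfold eAB
  rw [Set.ncard_le_one (Set.toFinite _)]
  rintro e ⟨h1, h2, h3⟩ e' ⟨h1', h2', h3'⟩
  rw [Set.mem_singleton_iff] at h2 h3 h2' h3'
  obtain ⟨h4, h5⟩ := hr.one e.1 e.2 e'.1 e'.2 (by rw [h2, h3]; exact h) (h2.trans h2'.symm)
    (h3.trans h3'.symm) h1 h1'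
  exact Prod.ext h4 h5

end BCubM

open BCubM in
theorem bCub (hAdd : S_Add) (hStar : S_Star10) : S_Cub := by
  classical
  intro V N _ _ G cp r hr Z hZ2 hZ3 hZd
  -- a minimal set
  obtain ⟨S, ⟨hSZ, hS2, hSD⟩, hSmin⟩ : ∃ S : Set N, (S ⊆ Z ∧ 2 ≤ S.ncard ∧ dK G cp S ≤ 3) ∧
      ∀ T : Set N, T ⊆ Z ∧ 2 ≤ T.ncard ∧ dK G cp T ≤ 3 → S.ncard ≤ T.ncard := by
    have h1 := Set.exists_min_image {T : Set N | T ⊆ Z ∧ 2 ≤ T.ncard ∧ dK G cp T ≤ 3}
      (fun T => T.ncard) (Set.toFinite _) ⟨Z, subset_rfl, hZ2, hZ3⟩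
    obtain ⟨S, h2, h3⟩ := h1
    exact ⟨S, h2, fun T hT => h3 T hT⟩
  have hmin : ∀ T ⊆ S, T ≠ S → 2 ≤ T.ncard → 4 ≤ dK G cp T := by
    intro T hT hTS hT2
    by_contra hcon
    have h1 := hSmin T ⟨hT.trans hSZ, hT2, by omega⟩
    have h2 := Set.ncard_lt_ncard (HasSubset.Subset.ssubset_of_ne hT hTS) (Set.toFinite S)
    omega
  have hdeg : ∀ Y ∈ S, 3 ≤ dK G cp {Y} := fun Y hY => hZd Y (hSZ hY)
  -- at least three elements
  have hS3 : 3 ≤ S.ncard := by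
    by_contra hcon
    have h2 : S.ncard = 2 := by omega
    obtain ⟨X, Y, hXY, rfl⟩ := Set.ncard_eq_two.1 h2
    obtain ⟨h3, h4⟩ := hAdd V N G cp {X, Y} X (Or.inl rfl)
    have h5 : ({X, Y} : Set N) \ {X} = {Y} := by
      ext W
      constructor
      · rintro ⟨h | h, h'⟩
        · exact absurd h h'
        · exact h
      · rintro rfl
        exact ⟨Or.inr rfl, fun h => hXY h.symm⟩
    rw [h5] at h3 h4
    have h6 := eAB_one hr hXY
    have h7 := hdeg X (Or.inl rfl)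
    have h8 := hdeg Y (Or.inr rfl)
    omega
  -- the data for a node
  have hdata : ∀ X ∈ S, ∃ (F : Finset (Set N)), (F : Set (Set N)) = r (S \ {X}) '' (S \ {X}) ∧
      2 ≤ eAB G cp {X} (S \ {X}) ∧ 1 + eAB G cp {X} Sᶜ ≤ eAB G cp {X} (S \ {X}) ∧
      eAB G cp {X} (S \ {X}) ≤ F.card ∧
      (∀ j ∈ F, 3 ≤ dK G cp {Y | Y ∈ S \ {X} ∧ r (S \ {X}) Y = j}) ∧
      ∑ j ∈ F, dK G cp {Y | Y ∈ S \ {X} ∧ r (S \ {X}) Y = j} =
        2 * ef G cp (S \ {X}) (r (S \ {X})) + dK G cp (S \ {X}) ∧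
      5 * ef G cp (S \ {X}) (r (S \ {X})) + 7 ≤ 6 * F.card ∧
      dK G cp {X} = eAB G cp {X} (S \ {X}) + eAB G cp {X} Sᶜ ∧
      dK G cp (S \ {X}) + eAB G cp {X} Sᶜ = dK G cp S + eAB G cp {X} (S \ {X}) ∧
      ∀ j ∈ F, 4 ≤ dK G cp {Y | Y ∈ S \ {X} ∧ r (S \ {X}) Y = j} ∨
        ∃ Y, Y ∈ S ∧ Y ≠ X ∧ {Y | Y ∈ S \ {X} ∧ r (S \ {X}) Y = j} = {Y} := by
    intro X hX
    obtain ⟨F, h1, h2, h3, h4, h5, h6, h7⟩ := hStar V N G cp r hr S hS3 hSD hdeg hmin X hX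
    obtain ⟨h8, h9⟩ := hAdd V N G cp S X hX
    refine ⟨F, h1, h2, h3, h4, h5, h6, h7, h8, h9, ?_⟩
    intro j hj
    have hj' : j ∈ r (S \ {X}) '' (S \ {X}) := by
      rw [← h1]
      exact hj
    obtain ⟨Y, hY, hYj⟩ := hj'
    by_cases h10 : 2 ≤ {Y | Y ∈ S \ {X} ∧ r (S \ {X}) Y = j}.ncard
    · left
      refine hmin _ (fun W hW => hW.1.1) ?_ h10
      intro h11
      have h12 : X ∈ {Y | Y ∈ S \ {X} ∧ r (S \ {X}) Y = j} := by
        rw [h11]
        exact hX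
      exact h12.1.2 rfl
    · right
      have h11 : {Y | Y ∈ S \ {X} ∧ r (S \ {X}) Y = j}.ncard ≤ 1 := by omega
      refine ⟨Y, hY.1, hY.2, ?_⟩
      rw [Set.ncard_le_one (Set.toFinite _)] at h11
      ext W
      constructor
      · intro hW
        exact h11 W hW Y ⟨hY, hYj⟩
      · rintro rfl
        exact ⟨hY, hYj⟩
  -- a node of degree three
  obtain ⟨X, hX, hX3⟩ : ∃ X ∈ S, dK G cp {X} = 3 := by
    by_contra hcon
    push Not at hcon
    obtain ⟨X, hX⟩ : S.Nonempty := by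
      rw [← Set.ncard_pos (Set.toFinite _)]
      omega
    obtain ⟨F, h1, h2, h3, h4, h5, h6, h7, h8, h9, h10⟩ := hdata X hX
    have h11 : ∀ j ∈ F, 4 ≤ dK G cp {Y | Y ∈ S \ {X} ∧ r (S \ {X}) Y = j} := by
      intro j hj
      rcases h10 j hj with h | ⟨Y, hY, hYX, h⟩
      · exact h
      · rw [h]
        have h12 := hcon Y hY
        have h13 := hdeg Y hY
        omega
    have h12 := Finset.card_nsmul_le_sum F _ 4 h11
    rw [smul_eq_mul] at h12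
    omega
  by_cases hext : ∃ X ∈ S, dK G cp {X} = 3 ∧ eAB G cp {X} Sᶜ ≠ 0
  · -- one edge leaves `S` at `X`
    clear hX3 hX X
    obtain ⟨X, hX, hX3, hXe⟩ := hext
    obtain ⟨F, h1, h2, h3, h4, h5, h6, h7, h8, h9, h10⟩ := hdata X hX
    have h11 := Finset.card_nsmul_le_sum F _ 3 h5
    rw [smul_eq_mul] at h11
    have hF : F.card = 2 := by omega
    have hsum : ∑ j ∈ F, dK G cp {Y | Y ∈ S \ {X} ∧ r (S \ {X}) Y = j} = 6 := by omega
    have hef : ef G cp (S \ {X}) (r (S \ {X})) = 1 := by omega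
    obtain ⟨j₁, j₂, hj, rfl⟩ := Finset.card_eq_two.1 hF
    rw [Finset.sum_pair hj] at hsum
    have ha := h5 j₁ (by simp)
    have hb := h5 j₂ (by simp)
    have ha3 : dK G cp {Y | Y ∈ S \ {X} ∧ r (S \ {X}) Y = j₁} = 3 := by omega
    have hb3 : dK G cp {Y | Y ∈ S \ {X} ∧ r (S \ {X}) Y = j₂} = 3 := by omega
    obtain ⟨Y, hY, hYX, hYe⟩ := (h10 j₁ (by simp)).resolve_left (by omega)
    obtain ⟨Y', hY', hYX', hYe'⟩ := (h10 j₂ (by simp)).resolve_left (by omega)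
    rw [hYe] at ha3
    rw [hYe'] at hb3
    have hmY : Y ∈ {Y | Y ∈ S \ {X} ∧ r (S \ {X}) Y = j₁} := by rw [hYe]; rfl
    have hmY' : Y' ∈ {Y | Y ∈ S \ {X} ∧ r (S \ {X}) Y = j₂} := by rw [hYe']; rfl
    have hYY : Y ≠ Y' := by
      rintro rfl
      exact hj (hmY.2.symm.trans hmY'.2)
    have hS' : ∀ W, W ∈ S \ {X} → W = Y ∨ W = Y' := by
      intro W hW
      have h12 : r (S \ {X}) W ∈ (({j₁, j₂} : Finset (Set N)) : Set (Set N)) := by
        rw [h1]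
        exact ⟨W, hW, rfl⟩
      rw [Finset.mem_coe, Finset.mem_insert, Finset.mem_singleton] at h12
      rcases h12 with h12 | h12
      · left
        have h13 : W ∈ {Y | Y ∈ S \ {X} ∧ r (S \ {X}) Y = j₁} := ⟨hW, h12⟩
        rw [hYe] at h13
        exact h13
      · right
        have h13 : W ∈ {Y | Y ∈ S \ {X} ∧ r (S \ {X}) Y = j₂} := ⟨hW, h12⟩
        rw [hYe'] at h13
        exact h13
    -- the edge between `Y` and `Y'`
    obtain ⟨u, w, huw, hu, hw⟩ : ∃ u w, G.Adj u w ∧ cp u = Y ∧ cp w = Y' := by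
      unfold ef at hef
      obtain ⟨e, he⟩ := Set.ncard_eq_one.1 hef
      have h12 : e ∈ {z : Sym2 V | ∃ u w, z = s(u, w) ∧ Cre G cp (S \ {X}) u w ∧
          r (S \ {X}) (cp u) ≠ r (S \ {X}) (cp w)} := by
        rw [he]
        rfl
      obtain ⟨u, w, -, ⟨hadj, hu, hw, huw⟩, -⟩ := h12
      rcases hS' _ hu with h | h
      · rcases hS' _ hw with h' | h'
        · exact absurd (h.trans h'.symm) huw
        · exact ⟨u, w, hadj, h, h'⟩
      · rcases hS' _ hw with h' | h'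
        · exact ⟨w, u, hadj.symm, h', h⟩
        · exact absurd (h.trans h'.symm) huw
    -- the edges from `X`
    have hsub : S \ {X} ⊆ {Y} ∪ {Y'} := fun W hW => hS' W hW
    have h12 := (eAB_mono (G := G) (cp := cp) (A := {X}) hsub).trans eAB_union
    have h13 := eAB_one hr hYX.symm
    have h14 := eAB_one hr hYX'.symm
    obtain ⟨u₁, w₁, hu₁, hu₁', hu₁''⟩ := eAB_pos (G := G) (cp := cp) (A := {X}) (B := {Y})
      (by omega)
    obtain ⟨u₂, w₂, hu₂, hu₂', hu₂''⟩ := eAB_pos (G := G) (cp := cp) (A := {X}) (B := {Y'})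
      (by omega)
    exact ⟨X, Y, Y', hSZ hX, hSZ hY, hSZ hY', hYX.symm, hYY, hYX', ⟨u₁, w₁, hu₁, hu₁', hu₁''⟩,
      ⟨u, w, huw, hu, hw⟩, ⟨w₂, u₂, hu₂.symm, hu₂'', hu₂'⟩, hX3, ha3, hb3⟩
  · -- no edge leaves `S` at nodes of degree three
    exfalso
    push Not at hext
    obtain ⟨F, h1, h2, h3, h4, h5, h6, h7, h8, h9, h10⟩ := hdata X hX
    have hXe := hext X hX hX3
    have h11 := Finset.card_nsmul_le_sum F _ 3 h5
    rw [smul_eq_mul] at h11
    -- the sum is larger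
    have hlt : 3 * F.card + 1 ≤
        ∑ j ∈ F, dK G cp {Y | Y ∈ S \ {X} ∧ r (S \ {X}) Y = j} := by
      by_contra hcon
      have hsum : ∑ j ∈ F, dK G cp {Y | Y ∈ S \ {X} ∧ r (S \ {X}) Y = j} = ∑ j ∈ F, 3 := by
        rw [Finset.sum_const, smul_eq_mul]
        omega
      have hall : ∀ j ∈ F, 3 = dK G cp {Y | Y ∈ S \ {X} ∧ r (S \ {X}) Y = j} :=
        (Finset.sum_eq_sum_iff_of_le h5).1 hsum.symm
      have hall' : ∀ Y ∈ S, dK G cp {Y} = 3 := by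
        intro Y hY
        by_cases hYX : Y = X
        · rw [hYX, hX3]
        · have h12 : r (S \ {X}) Y ∈ (F : Set (Set N)) := by
            rw [h1]
            exact ⟨Y, ⟨hY, hYX⟩, rfl⟩
          have h13 := hall _ h12
          rcases h10 _ h12 with h | ⟨W, hW, hWX, h⟩
          · omega
          · have h14 : Y ∈ {W | W ∈ S \ {X} ∧ r (S \ {X}) W = r (S \ {X}) Y} :=
              ⟨⟨hY, hYX⟩, rfl⟩
            rw [h] at h14 h13
            rw [Set.mem_singleton_iff.1 h14]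
            exact h13.symm
      have hD : dK G cp S = 0 := by
        unfold dK
        rw [Set.ncard_eq_zero (Set.toFinite _)]
        rw [Set.eq_empty_iff_forall_notMem]
        rintro e ⟨h12, h13, h14⟩
        have h15 := hext _ h13 (hall' _ h13)
        unfold eAB at h15
        rw [Set.ncard_eq_zero (Set.toFinite _), Set.eq_empty_iff_forall_notMem] at h15
        exact h15 e ⟨h12, rfl, h14⟩
      omega
    have hF : F.card = 3 := by omega
    have hsum : ∑ j ∈ F, dK G cp {Y | Y ∈ S \ {X} ∧ r (S \ {X}) Y = j} = 10 := by omega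
    have hef : ef G cp (S \ {X}) (r (S \ {X})) = 2 := by omega
    -- names for the parts
    obtain ⟨j₁, j₂, j₃, hj12, hj13, hj23, hm1, hm2, hm3, hFe, hd1, hd2⟩ : ∃ j₁ j₂ j₃, j₁ ≠ j₂ ∧
        j₁ ≠ j₃ ∧ j₂ ≠ j₃ ∧ j₁ ∈ F ∧ j₂ ∈ F ∧ j₃ ∈ F ∧ (∀ j ∈ F, j = j₁ ∨ j = j₂ ∨ j = j₃) ∧
        dK G cp {Y | Y ∈ S \ {X} ∧ r (S \ {X}) Y = j₁} = 3 ∧
        dK G cp {Y | Y ∈ S \ {X} ∧ r (S \ {X}) Y = j₂} = 3 := by
      obtain ⟨a, b, c, hab, hac, hbc, rfl⟩ := Finset.card_eq_three.1 hF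
      have ha := h5 a (by simp)
      have hb := h5 b (by simp)
      have hc := h5 c (by simp)
      rw [Finset.sum_insert (by simp [hab, hac]), Finset.sum_pair hbc] at hsum
      by_cases h12 : dK G cp {Y | Y ∈ S \ {X} ∧ r (S \ {X}) Y = a} = 3
      · by_cases h13 : dK G cp {Y | Y ∈ S \ {X} ∧ r (S \ {X}) Y = b} = 3
        · refine ⟨a, b, c, hab, hac, hbc, by simp, by simp, by simp, ?_, h12, h13⟩
          intro j hj
          simpa using hj
        · refine ⟨a, c, b, hac, hab, hbc.symm, by simp, by simp, by simp, ?_, h12, by omega⟩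
          intro j hj
          simp only [Finset.mem_insert, Finset.mem_singleton] at hj
          tauto
      · refine ⟨b, c, a, hbc, hab.symm, hac.symm, by simp, by simp, by simp, ?_, by omega,
          by omega⟩
        intro j hj
        simp only [Finset.mem_insert, Finset.mem_singleton] at hj
        tauto
    obtain ⟨Y, hY, hYX, hYe⟩ := (h10 j₁ hm1).resolve_left (by omega)
    obtain ⟨Y', hY', hYX', hYe'⟩ := (h10 j₂ hm2).resolve_left (by omega)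
    rw [hYe] at hd1
    rw [hYe'] at hd2
    have hmY : Y ∈ {Y | Y ∈ S \ {X} ∧ r (S \ {X}) Y = j₁} := by rw [hYe]; rfl
    have hmY' : Y' ∈ {Y | Y ∈ S \ {X} ∧ r (S \ {X}) Y = j₂} := by rw [hYe']; rfl
    have hYY : Y ≠ Y' := by
      rintro rfl
      exact hj12 (hmY.2.symm.trans hmY'.2)
    have hrest : ∀ W, W ∈ S \ {X} → W = Y ∨ W = Y' ∨ r (S \ {X}) W = j₃ := by
      intro W hW
      have h12 : r (S \ {X}) W ∈ (F : Set (Set N)) := by
        rw [h1]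
        exact ⟨W, hW, rfl⟩
      rcases hFe _ h12 with h | h | h
      · left
        have h13 : W ∈ {Y | Y ∈ S \ {X} ∧ r (S \ {X}) Y = j₁} := ⟨hW, h⟩
        rw [hYe] at h13
        exact h13
      · right
        left
        have h13 : W ∈ {Y | Y ∈ S \ {X} ∧ r (S \ {X}) Y = j₂} := ⟨hW, h⟩
        rw [hYe'] at h13
        exact h13
      · exact Or.inr (Or.inr h)
    -- the edges from a node of degree three
    have hedges : ∀ Y Y', Y ∈ S \ {X} → Y' ∈ S \ {X} → Y ≠ Y' → dK G cp {Y} = 3 →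
        r (S \ {X}) Y ≠ j₃ → (∀ W, W ∈ S \ {X} → W = Y ∨ W = Y' ∨ r (S \ {X}) W = j₃) →
        (∃ u w, G.Adj u w ∧ cp u = Y ∧ cp w = Y') ∧
        ∃ u w, G.Adj u w ∧ cp u = Y ∧ cp w ∈ S \ {X} ∧ r (S \ {X}) (cp w) = j₃ := by
      intro Y Y' hY hY' hne hd hj hr'
      obtain ⟨h12, h13⟩ := hAdd V N G cp S Y hY.1
      have h14 := hext Y hY.1 hd
      have hsub : S \ {Y} ⊆ {X} ∪ ({Y'} ∪ {W | W ∈ S \ {X} ∧ r (S \ {X}) W = j₃}) := by
        rintro W ⟨hW, hWY⟩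
        by_cases hWX : W = X
        · exact Or.inl hWX
        · rcases hr' W ⟨hW, hWX⟩ with h | h | h
          · exact absurd h hWY
          · exact Or.inr (Or.inl h)
          · exact Or.inr (Or.inr ⟨⟨hW, hWX⟩, h⟩)
      have h15 := (eAB_mono (G := G) (cp := cp) (A := {Y}) hsub).trans eAB_union
      have h16 : eAB G cp {Y} ({Y'} ∪ {W | W ∈ S \ {X} ∧ r (S \ {X}) W = j₃}) ≤
        eAB G cp {Y} {Y'} + eAB G cp {Y} {W | W ∈ S \ {X} ∧ r (S \ {X}) W = j₃} := eAB_union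
      have h17 := eAB_one hr (X := Y) (Y := X) hY.2
      have h18 := eAB_one hr hne
      have h19 : eAB G cp {Y} {W | W ∈ S \ {X} ∧ r (S \ {X}) W = j₃} ≤ 1 := by
        unfold eAB
        rw [Set.ncard_le_one (Set.toFinite _)]
        rintro e ⟨h1, h2, h3, h4⟩ e' ⟨h1', h2', h3', h4'⟩
        obtain ⟨h5, h6⟩ := hr.slow (S \ {X}) Y e.1 e.2 e'.1 e'.2 h2 h2' h3 h3' (h4.trans h4'.symm)
          (Or.inr (by rw [h4]; exact hj)) h1 h1'
        exact Prod.ext h5 h6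
      refine ⟨?_, ?_⟩
      · exact eAB_pos (G := G) (cp := cp) (A := {Y}) (B := {Y'}) (by omega)
      · exact eAB_pos (G := G) (cp := cp) (A := {Y})
          (B := {W | W ∈ S \ {X} ∧ r (S \ {X}) W = j₃}) (by omega)
    obtain ⟨⟨u₁, w₁, ha₁, hu₁, hw₁⟩, u₂, w₂, ha₂, hu₂, hw₂, hw₂'⟩ := hedges Y Y' hmY.1 hmY'.1 hYY
      hd1 (by rw [hmY.2]; exact hj13) hrest
    obtain ⟨-, u₃, w₃, ha₃, hu₃, hw₃, hw₃'⟩ := hedges Y' Y hmY'.1 hmY.1 hYY.symm
      hd2 (by rw [hmY'.2]; exact hj23) (fun W hW => by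
        rcases hrest W hW with h | h | h
        · exact Or.inr (Or.inl h)
        · exact Or.inl h
        · exact Or.inr (Or.inr h))
    -- three different edges
    obtain ⟨ρ, hρ⟩ : ∃ ρ : V → Set N, ρ = fun v => r (S \ {X}) (cp v) := ⟨_, rfl⟩
    have hr1 : ρ u₁ = j₁ := by rw [hρ]; simp only [hu₁]; exact hmY.2
    have hr1' : ρ w₁ = j₂ := by rw [hρ]; simp only [hw₁]; exact hmY'.2
    have hr2 : ρ u₂ = j₁ := by rw [hρ]; simp only [hu₂]; exact hmY.2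
    have hr2' : ρ w₂ = j₃ := by rw [hρ]; exact hw₂'
    have hr3 : ρ u₃ = j₂ := by rw [hρ]; simp only [hu₃]; exact hmY'.2
    have hr3' : ρ w₃ = j₃ := by rw [hρ]; exact hw₃'
    have hne1 : s(u₁, w₁) ≠ s(u₂, w₂) := by
      intro h
      have h12 := congrArg (Sym2.map ρ) h
      rw [Sym2.map_mk, Sym2.map_mk, hr1, hr1', hr2, hr2'] at h12
      rcases Sym2.eq_iff.1 h12 with ⟨-, h⟩ | ⟨h, -⟩
      · exact hj23 h
      · exact hj13 h
    have hne2 : s(u₁, w₁) ≠ s(u₃, w₃) := by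
      intro h
      have h12 := congrArg (Sym2.map ρ) h
      rw [Sym2.map_mk, Sym2.map_mk, hr1, hr1', hr3, hr3'] at h12
      rcases Sym2.eq_iff.1 h12 with ⟨h, -⟩ | ⟨h, -⟩
      · exact hj12 h
      · exact hj13 h
    have hne3 : s(u₂, w₂) ≠ s(u₃, w₃) := by
      intro h
      have h12 := congrArg (Sym2.map ρ) h
      rw [Sym2.map_mk, Sym2.map_mk, hr2, hr2', hr3, hr3'] at h12
      rcases Sym2.eq_iff.1 h12 with ⟨h, -⟩ | ⟨h, -⟩
      · exact hj12 h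
      · exact hj13 h
    have hthree : 3 ≤ ef G cp (S \ {X}) (r (S \ {X})) := by
      unfold ef
      have hcard : ({s(u₁, w₁), s(u₂, w₂), s(u₃, w₃)} : Finset (Sym2 V)).card = 3 :=
        Finset.card_eq_three.2 ⟨_, _, _, hne1, hne2, hne3, rfl⟩
      rw [← hcard, ← Set.ncard_coe_finset]
      refine Set.ncard_le_ncard ?_ (Set.toFinite _)
      intro e he
      have hcre : ∀ u w, G.Adj u w → cp u ∈ S \ {X} → cp w ∈ S \ {X} → ρ u ≠ ρ w →
          s(u, w) ∈ {z : Sym2 V | ∃ u w, z = s(u, w) ∧ Cre G cp (S \ {X}) u w ∧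
            r (S \ {X}) (cp u) ≠ r (S \ {X}) (cp w)} := by
        intro u w h12 h13 h14 h15
        rw [hρ] at h15
        exact ⟨u, w, rfl, ⟨h12, h13, h14, fun h => h15 (congrArg (r (S \ {X})) h)⟩, h15⟩
      simp only [Finset.coe_insert, Finset.coe_singleton, Set.mem_insert_iff,
        Set.mem_singleton_iff] at he
      rcases he with rfl | rfl | rfl
      · exact hcre _ _ ha₁ (hu₁ ▸ hmY.1) (hw₁ ▸ hmY'.1) (by rw [hr1, hr1']; exact hj12)
      · exact hcre _ _ ha₂ (hu₂ ▸ hmY.1) hw₂ (by rw [hr2, hr2']; exact hj13)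
      · exact hcre _ _ ha₃ (hu₃ ▸ hmY'.1) hw₃ (by rw [hr3, hr3']; exact hj23)
    omega

end Pool.Agent.MPf1f412
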