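import Pool.Agent.Lib.MP_f1f412_co.SpecB

/-!
# MP_f1f412_co (C34), `S_F3B`: two edges with a common end are never the only edges between two parts
-/

set_option autoImplicit false

namespace Pool.Agent.MPf1f412

theorem F3B : S_F3B := by
  intro V _ G hH A z b b' hz hb hb' hbb hzb hzb' hall
  by_contra hne
  obtain ⟨x, hx, hxz⟩ : ∃ x ∈ A, x ≠ z := by
    by_contra h
    push Not at h
    exact hne (Set.eq_singleton_iff_unique_mem.2 ⟨hz, h⟩)
  obtain ⟨b₂, hb₂, hb₂z⟩ : ∃ b₂, G.Adj b b₂ ∧ b₂ ≠ z := by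
    obtain ⟨s, t, hst, hs, ht⟩ := hH.deg b
    by_cases h : s = z
    · exact ⟨t, ht, fun h' => hst (h.trans h'.symm)⟩
    · exact ⟨s, hs, h⟩
  have hb₂b' : b₂ ≠ b' := by
    rintro rfl
    exact hH.tri z b b₂ ⟨hzb, hb₂, hzb'.symm⟩
  have hb₂A : b₂ ∉ A := fun h => hb₂z (hall b₂ b hb₂.symm h hb).1
  have hS : ({z, b, b'} : Set V).ncard < 4 := by
    have h1 := Set.ncard_insert_le z ({b, b'} : Set V)
    have h2 := Set.ncard_insert_le b ({b'} : Set V)
    have h3 := Set.ncard_singleton b'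
    omega
  have hcon := hH.con {z, b, b'} (Set.toFinite _) hS
  have hxS : x ∈ ({z, b, b'} : Set V)ᶜ := by
    rintro (h | h | h)
    · exact hxz h
    · exact hb (h ▸ hx)
    · exact hb' (h ▸ hx)
  have hbS : b₂ ∈ ({z, b, b'} : Set V)ᶜ := by
    rintro (h | h | h)
    · exact hb₂z h
    · exact hb₂.ne h.symm
    · exact hb₂b' h
  have key : ∀ u w : (({z, b, b'} : Set V)ᶜ : Set V),
      ((square G).induce ({z, b, b'} : Set V)ᶜ).Adj u w → (u : V) ∈ A → (w : V) ∈ A := by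
    rintro ⟨u, hu⟩ ⟨w, hw⟩ h huA
    by_contra hwA
    have huz : u ≠ z := fun h' => hu (Or.inl h')
    have h' : (square G).Adj u w := h
    have huA' : u ∈ A := huA
    have hwA' : w ∉ A := hwA
    rcases h'.2 with h1 | ⟨t, h1, h2⟩
    · exact huz (hall u w h1 huA' hwA').1
    · by_cases ht : t ∈ A
      · exact hw (Or.inr (hall t w h2 ht hwA').2)
      · exact huz (hall u t h1 huA' ht).1
  have walk : ∀ (u w : (({z, b, b'} : Set V)ᶜ : Set V)),
      ((square G).induce ({z, b, b'} : Set V)ᶜ).Walk u w → (u : V) ∈ A → (w : V) ∈ A := by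
    intro u w p
    induction p with
    | nil => exact fun h => h
    | cons h _ ih => exact fun hu => ih (key _ _ h hu)
  obtain ⟨p⟩ := hcon.preconnected ⟨x, hxS⟩ ⟨b₂, hbS⟩
  exact hb₂A (walk _ _ p hx)

end Pool.Agent.MPf1f412
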