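import Pool.Agent.Lib.MP_f1f412_co.SpecB
import Pool.Agent.Lib.MP_f1f412_co.Spec1
import Pool.Agent.Lib.MP_f1f412_co.Basic

/-!
# MP_f1f412_co (C34), B21: the 5-cycle `z b y y' b'` is impossible
-/

set_option autoImplicit false

namespace Pool.Agent.MPf1f412

open Matrix

namespace bFiveAux

private theorem dimL {V K : Type} [Finite K] {H : SimpleGraph V} {c : V → K} {p : V → R3}
    {S : Set K} {Z X1 X2 : K} (hZ : Z ∈ S) (h1 : X1 ∈ S) (h2 : X2 ∈ S)
    (hd : dmo H c p S ≤ 7) :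
    ∃ v : Tw × Tw, ∀ m ∈ Mot H c p S, ∃ r : ℝ, m Z - m X1 = r • v.1 ∧ m Z - m X2 = r • v.2 := by
  classical
  let κ : Mot H c p S →ₗ[ℝ] Tw × Tw :=
    ((LinearMap.proj (R := ℝ) (φ := fun _ : K => Tw) Z - LinearMap.proj X1).prod
      (LinearMap.proj (R := ℝ) (φ := fun _ : K => Tw) Z - LinearMap.proj X2)) ∘ₗ
      (Mot H c p S).subtype
  let cst : Tw →ₗ[ℝ] (K → Tw) := LinearMap.pi (fun X => if X ∈ S then LinearMap.id else 0)
  have hcst : ∀ n X, cst n X = if X ∈ S then n else 0 := by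
    intro n X
    simp only [cst, LinearMap.pi_apply]
    split_ifs <;> rfl
  have hmem : ∀ n, cst n ∈ Mot H c p S := by
    intro n
    refine ⟨(isMot_const n).congr (fun X hX => ?_), fun X hX => ?_⟩
    · rw [hcst, if_pos hX]
    · rw [hcst, if_neg hX]
  let ι : Tw →ₗ[ℝ] Mot H c p S := cst.codRestrict _ hmem
  have hk : ∀ n, ι n ∈ LinearMap.ker κ := by
    intro n
    rw [LinearMap.mem_ker]
    show (cst n Z - cst n X1, cst n Z - cst n X2) = 0
    rw [hcst, hcst, hcst, if_pos hZ, if_pos h1, if_pos h2, sub_self]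
    rfl
  let ι' : Tw →ₗ[ℝ] LinearMap.ker κ := ι.codRestrict _ hk
  have hinj : Function.Injective ι' := by
    intro n n' h
    have h3 : cst n Z = cst n' Z := congrArg (fun x : LinearMap.ker κ => x.1.1 Z) h
    rwa [hcst, hcst, if_pos hZ, if_pos hZ] at h3
  have h6 : 6 ≤ Module.finrank ℝ (LinearMap.ker κ) := by
    have h7 := LinearMap.finrank_le_finrank_of_injective hinj
    have h8 : Module.finrank ℝ Tw = 6 := by simp
    omega
  have h9 := LinearMap.finrank_range_add_finrank_ker κ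
  have h10 : Module.finrank ℝ (LinearMap.range κ) ≤ 1 := by
    have : Module.finrank ℝ (Mot H c p S) ≤ 7 := hd
    omega
  rw [finrank_le_one_iff] at h10
  obtain ⟨v, hv⟩ := h10
  refine ⟨v.1, fun m hm => ?_⟩
  obtain ⟨r, hr⟩ := hv ⟨κ ⟨m, hm⟩, ⟨m, hm⟩, rfl⟩
  have h11 := congrArg Subtype.val hr
  refine ⟨r, ?_, ?_⟩
  · exact (congrArg Prod.fst h11).symm
  · exact (congrArg Prod.snd h11).symm

/-- for an orthogonal matrix `A` and a vector on which `Aᵀ A₀ d = d` -/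
private theorem orth_eq {A A₀ : Matrix (Fin 3) (Fin 3) ℝ} (h : Aᵀ * A = 1) (h₀ : A₀ᵀ * A₀ = 1)
    {d : R3} (hd : (A₀ᵀ - Aᵀ) *ᵥ (A₀ *ᵥ d) = 0) : A₀ *ᵥ d = A *ᵥ d := by
  have h1 : A * Aᵀ = 1 := mul_eq_one_comm.1 h
  rw [sub_mulVec, mulVec_mulVec, h₀, one_mulVec, sub_eq_zero] at hd
  have h2 := congrArg (fun x => A *ᵥ x) hd
  simp only [mulVec_mulVec] at h2
  rw [← Matrix.mul_assoc, h1, Matrix.one_mul] at h2
  exact h2.symm

private theorem orth_eq' {A A₀ : Matrix (Fin 3) (Fin 3) ℝ} (h : Aᵀ * A = 1) (h₀ : A₀ᵀ * A₀ = 1)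
    {d : R3} (hd : A₀ *ᵥ d = A *ᵥ d) : (A₀ᵀ - Aᵀ) *ᵥ (A₀ *ᵥ d) = 0 := by
  rw [sub_mulVec, mulVec_mulVec, h₀, one_mulVec, hd, mulVec_mulVec, h, one_mulVec, sub_self]

private theorem mat_ne {M N : Matrix (Fin 3) (Fin 3) ℝ} (h : M ≠ N) :
    ∃ x : R3, (M - N) *ᵥ x ≠ 0 := by
  by_contra hn
  push Not at hn
  apply h
  rw [← sub_eq_zero]
  funext i j
  have h1 := congrFun (hn (Pi.single j 1)) i
  rw [mulVec_single_one] at h1
  exact h1

/-- pins: the differences of two pins are moved by the linear part -/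
private theorem pin_sub {V K : Type} {G : SimpleGraph V} {p q : V → R3} {c : V → K}
    {g : K → Iso3} (hP : Pl G p q c g) {X : K} {u v : V} (hu : Pin G c X u) (hv : Pin G c X v) :
    q v - q u = (g X).A *ᵥ (p v - p u) := by
  rw [hP X u hu, hP X v hv, Iso3.ap, Iso3.ap, mulVec_sub]
  abel

end bFiveAux

open bFiveAux

theorem bFive : S_Cnt9 → S_D0r → S_Five := by
  intro hCnt hD V K _ _ G c p q g e z b b' y y' hzb hzb' hbb hby hyy hyb' cbb czb cyb cy'b czy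
    czy' cyy' h1 h2 hcr
  classical
  -- the merged class map
  obtain ⟨c₁, hc₁⟩ : ∃ c₁ : V → K, c₁ = fun v => if c v = c y' then c b else c v := ⟨_, rfl⟩
  have hc₁a : ∀ v, c v = c y' → c₁ v = c b := by
    intro v hv
    rw [hc₁]
    exact if_pos hv
  have hc₁b : ∀ v, c v ≠ c y' → c₁ v = c v := by
    intro v hv
    rw [hc₁]
    exact if_neg hv
  have hcnt := hCnt V K G c p q g e z b b' y y' hzb hzb' hbb hby hyy hyb' cbb czb cyb cy'b czy
    czy' cyy' h1 h2 c₁ hc₁a hc₁b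
  have htri : NoTri (G.deleteEdges {s(b, z), s(b, y)}) := by
    intro u v w huvw
    exact e.hyp.tri u v w ⟨(SimpleGraph.deleteEdges_le _) huvw.1,
      (SimpleGraph.deleteEdges_le _) huvw.2.1, (SimpleGraph.deleteEdges_le _) huvw.2.2⟩
  have hd := (hD V K (G.deleteEdges {s(b, z), s(b, y)}) c₁ p {X | X ≠ c y'} 1 (Set.toFinite _) e.gn
    htri (fun J f => by simpa using hcnt J f)).1
  have hZ0 : c b ∈ {X | X ≠ c y'} := Ne.symm cy'b
  have hZ1 : c z ∈ {X | X ≠ c y'} := czy'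
  have hB' : c y ∈ {X | X ≠ c y'} := cyy'
  obtain ⟨v, hv⟩ := dimL hZ0 hZ1 hB' hd
  -- different vertices
  have nzb : z ≠ b := hzb.ne
  have nzb' : z ≠ b' := hzb'.ne
  have nby : b ≠ y := hby.ne
  have nzy : z ≠ y := fun h => czy (by rw [h])
  have nb'y : b' ≠ y := fun h => cyb (by rw [cbb, h])
  have nb'y' : b' ≠ y' := hyb'.ne'
  have nyy' : y ≠ y' := hyy.ne
  have nby' : b ≠ y' := fun h => cy'b (by rw [← h])
  -- pins
  have pZ0b : Pin G c (c b) b := ⟨b, rfl, Or.inl rfl⟩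
  have pZ1b : Pin G c (c z) b := ⟨z, rfl, Or.inr hzb⟩
  have pBb : Pin G c (c y) b := ⟨y, rfl, Or.inr hby.symm⟩
  have pZ0z : Pin G c (c b) z := ⟨b, rfl, Or.inr hzb.symm⟩
  have pZ1z : Pin G c (c z) z := ⟨z, rfl, Or.inl rfl⟩
  have pZ0b' : Pin G c (c b) b' := ⟨b', cbb.symm, Or.inl rfl⟩
  have pZ1b' : Pin G c (c z) b' := ⟨z, rfl, Or.inr hzb'⟩
  have pZ0y : Pin G c (c b) y := ⟨b, rfl, Or.inr hby⟩
  have pBy : Pin G c (c y) y := ⟨y, rfl, Or.inl rfl⟩
  have pCy : Pin G c (c y') y := ⟨y', rfl, Or.inr hyy.symm⟩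
  have pZ0y' : Pin G c (c b) y' := ⟨b', cbb.symm, Or.inr hyb'.symm⟩
  have pCy' : Pin G c (c y') y' := ⟨y', rfl, Or.inl rfl⟩
  have pCb' : Pin G c (c y') b' := ⟨y', rfl, Or.inr hyb'⟩
  -- step (1)
  have step1 : ∀ η₀ : R3, ∃ r : ℝ,
      ((g (c b)).B - (g (c z)).B) *ᵥ η₀ = r • ev v.1 (p b) ∧
      ((g (c b)).B - (g (c y)).B) *ᵥ η₀ = r • ev v.2 (p b) := by
    intro η₀
    obtain ⟨m, hm⟩ := e.T (fun u => if u = b then η₀ else 0)
    have hm0 : ∀ X Y u, u ≠ b → Pin G c X u → Pin G c Y u → ev (m X - m Y) (p u) = 0 := by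
      intro X Y u hu hX hY
      rw [hm X Y u hX hY, if_neg hu, mulVec_zero]
    have hCB : m (c b) = m (c y') := by
      rw [← sub_eq_zero]
      refine t2 (e.gn.gp3 nb'y' nb'y nyy'.symm) (hm0 _ _ b' hbb.symm pZ0b' pCb')
        (hm0 _ _ y' nby'.symm pZ0y' pCy') ?_
      have h3 := hm0 (c b) (c y) y nby.symm pZ0y pBy
      have h4 := hm0 (c y) (c y') y nby.symm pBy pCy
      have h5 : m (c b) - m (c y') = (m (c b) - m (c y)) + (m (c y) - m (c y')) := by abel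
      rw [h5, ev_add, h3, h4, add_zero]
    obtain ⟨m', hm'⟩ : ∃ m' : K → Tw, m' = fun X => if X = c y' then 0 else m X := ⟨_, rfl⟩
    have hm'a : m' (c y') = 0 := by
      rw [hm']
      exact if_pos rfl
    have hm'b : ∀ X, X ≠ c y' → m' X = m X := by
      intro X hX
      rw [hm']
      exact if_neg hX
    have hmc : ∀ u, m' (c₁ u) = m (c u) := by
      intro u
      by_cases hu : c u = c y'
      · rw [hc₁a u hu, hm'b _ (Ne.symm cy'b), hCB, hu]
      · rw [hc₁b u hu, hm'b _ hu]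
    have hmot : m' ∈ Mot (G.deleteEdges {s(b, z), s(b, y)}) c₁ p {X | X ≠ c y'} := by
      refine ⟨?_, ?_⟩
      · rw [isMot_iff_ev e.gn]
        intro u w huw
        have hadj := huw.1
        rw [SimpleGraph.deleteEdges_adj] at hadj
        have hcc : c u ≠ c w := by
          intro h
          apply huw.2.2.2
          rw [hc₁]
          simp only [h]
        have hub : u ≠ b := by
          intro h
          subst h
          rcases hcr w hadj.1 (Ne.symm hcc) with h3 | h3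
          · exact hadj.2 (Or.inl (by rw [h3]))
          · exact hadj.2 (Or.inr (by rw [h3]; rfl))
        rw [hmc, hmc, ← sub_eq_zero, ← ev_sub]
        exact hm0 _ _ u hub ⟨u, rfl, Or.inl rfl⟩ ⟨w, rfl, Or.inr hadj.1.symm⟩
      · intro X hX
        have hX' : X = c y' := not_not.1 hX
        rw [hX']
        exact hm'a
    obtain ⟨r, hr1, hr2⟩ := hv m' hmot
    rw [hm'b _ (Ne.symm cy'b), hm'b _ czy'] at hr1
    rw [hm'b _ (Ne.symm cy'b), hm'b _ cyy'] at hr2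
    refine ⟨r, ?_, ?_⟩
    · have h3 := hm (c b) (c z) b pZ0b pZ1b
      rw [if_pos rfl, hr1, ev_smul] at h3
      exact h3.symm
    · have h3 := hm (c b) (c y) b pZ0b pBb
      rw [if_pos rfl, hr2, ev_smul] at h3
      exact h3.symm
  -- `M₁ x = 0` implies `M₂ x = 0`
  have step2 : ∀ x : R3, ((g (c b)).B - (g (c z)).B) *ᵥ x = 0 →
      ((g (c b)).B - (g (c y)).B) *ᵥ x = 0 := by
    intro x hx
    obtain ⟨x₃, hx₃⟩ := mat_ne (e.T0 (c b) (c z) b (Ne.symm czb) pZ0b pZ1b)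
    obtain ⟨r₃, hr₃, _⟩ := step1 x₃
    obtain ⟨r, hr1, hr2⟩ := step1 x
    have hne : ev v.1 (p b) ≠ 0 := by
      intro h
      apply hx₃
      rw [hr₃, h, smul_zero]
    rw [hr1] at hx
    rcases smul_eq_zero.1 hx with h | h
    · rw [hr2, h, zero_smul]
    · exact absurd h hne
  have hB : ∀ X : K, (g X).B = (g X).Aᵀ := fun X => rfl
  simp only [hB] at step2
  -- the linear parts agree on three differences
  have d1 : (g (c b)).A *ᵥ (p z - p b) = (g (c y)).A *ᵥ (p z - p b) := by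
    refine orth_eq (g (c y)).orth (g (c b)).orth (step2 _ (orth_eq' (g (c z)).orth
      (g (c b)).orth ?_))
    rw [← pin_sub e.pl pZ0b pZ0z, ← pin_sub e.pl pZ1b pZ1z]
  have d2 : (g (c b)).A *ᵥ (p b' - p b) = (g (c y)).A *ᵥ (p b' - p b) := by
    refine orth_eq (g (c y)).orth (g (c b)).orth (step2 _ (orth_eq' (g (c z)).orth
      (g (c b)).orth ?_))
    rw [← pin_sub e.pl pZ0b pZ0b', ← pin_sub e.pl pZ1b pZ1b']
  have d3 : (g (c b)).A *ᵥ (p y - p b) = (g (c y)).A *ᵥ (p y - p b) := by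
    rw [← pin_sub e.pl pZ0b pZ0y, ← pin_sub e.pl pBb pBy]
  have hA : (g (c b)).A = (g (c y)).A := by
    funext i
    refine sub_eq_zero.1 (e.gn.dot3 nzb.symm hbb nby nzb' nzy nb'y ?_ ?_ ?_)
    · rw [sub_dotProduct, sub_eq_zero]
      exact congrFun d1 i
    · rw [sub_dotProduct, sub_eq_zero]
      exact congrFun d2 i
    · rw [sub_dotProduct, sub_eq_zero]
      exact congrFun d3 i
  apply e.T0 (c b) (c y) b (Ne.symm cyb) pZ0b pBb
  rw [hB, hB, hA]

end Pool.Agent.MPf1f412
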