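import Pool.Agent.Lib.MP_f1f412_co.SpecB
import Pool.Agent.Lib.MP_f1f412_co.Basic

/-!
# MP_f1f412_co (C34), B8: four common pins determine the isometry (helper86)
-/

set_option autoImplicit false

namespace Pool.Agent.MPf1f412

open Matrix

theorem bFour : S_FourPins := by
  intro V K G c p q g hp hpl X h a ha hpin hq u hu
  have h0 : ∀ i, (g X).A *ᵥ p (a i) + (g X).b = h.A *ᵥ p (a i) + h.b := by
    intro i
    have h1 := hpl X (a i) (hpin i)
    rw [hq i] at h1
    exact h1.symm
  have h1 : ∀ i, ((g X).A - h.A) *ᵥ (p (a i) - p (a 0)) = 0 := by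
    intro i
    rw [Matrix.mulVec_sub, Matrix.sub_mulVec, Matrix.sub_mulVec]
    have e1 := h0 i
    have e2 := h0 0
    have e3 : (g X).A *ᵥ p (a i) - h.A *ᵥ p (a i) = h.b - (g X).b := by
      rw [sub_eq_sub_iff_add_eq_add, e1]
      abel
    have e4 : (g X).A *ᵥ p (a 0) - h.A *ᵥ p (a 0) = h.b - (g X).b := by
      rw [sub_eq_sub_iff_add_eq_add, e2]
      abel
    rw [e3, e4, sub_self]
  have hA : (g X).A - h.A = 0 := by
    have hne : ∀ i j : Fin 4, i ≠ j → a i ≠ a j := fun i j hij he => hij (ha he)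
    have hrow : ∀ r, ((g X).A - h.A) r = 0 := by
      intro r
      apply hp.dot3 (hne 0 1 (by decide)) (hne 0 2 (by decide)) (hne 0 3 (by decide))
        (hne 1 2 (by decide)) (hne 1 3 (by decide)) (hne 2 3 (by decide))
      · exact congrFun (h1 1) r
      · exact congrFun (h1 2) r
      · exact congrFun (h1 3) r
    funext r
    exact hrow r
  have hA' : (g X).A = h.A := sub_eq_zero.1 hA
  have hb : (g X).b = h.b := by
    have e1 := h0 0
    rw [hA'] at e1
    exact add_left_cancel e1
  rw [hpl X u hu]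
  change (g X).A *ᵥ p u + (g X).b = h.A *ᵥ p u + h.b
  rw [hA', hb]

end Pool.Agent.MPf1f412
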