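import Pool.Agent.Lib.MP_f1f412_co.SpecB
import Pool.Agent.Lib.MP_f1f412_co.Basic

/-!
# MP_f1f412_co (C34), B19: a cubic node with two leaving edges at the same vertex (helper86)
-/

set_option autoImplicit false

namespace Pool.Agent.MPf1f412

theorem bLegV : S_LegV := by
  intro V K N G c p q g π henv B v s t hdeg hv hs ht hvs hvt hst
  rcases henv.deg3 B hdeg with h | ⟨Z0, Z1, z, b, b', a, y, y', y₁, h⟩ | ⟨U, X, z, b, a, y, h⟩
  · exact h
  · exfalso
    have hba : b ≠ a := by
      intro he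
      apply h.dbl.ne
      rw [← h.dbl.cb, he, h.ca]
    have hba' : b' ≠ a := by
      intro he
      apply h.dbl.ne
      rw [← h.dbl.cb', he, h.ca]
    have hbb := h.dbl.bb
    rcases h.all v s hvs hv hs with ⟨e1, e2⟩ | ⟨e1, e2⟩ | ⟨e1, e2⟩ <;>
      rcases h.all v t hvt hv ht with ⟨f1, f2⟩ | ⟨f1, f2⟩ | ⟨f1, f2⟩
    · exact hst (e2.trans f2.symm)
    · exact hbb (e1.symm.trans f1)
    · exact hba (e1.symm.trans f1)
    · exact hbb (f1.symm.trans e1)
    · exact hst (e2.trans f2.symm)
    · exact hba' (e1.symm.trans f1)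
    · exact hba (f1.symm.trans e1)
    · exact hba' (f1.symm.trans e1)
    · exact hst (e2.trans f2.symm)
  · exfalso
    obtain ⟨i, e1, e2⟩ := h.all v s hvs hv hs
    obtain ⟨j, f1, f2⟩ := h.all v t hvt hv ht
    have hij : i = j := by
      apply h.injX
      rw [← h.ca i, ← h.ca j, ← e1, ← f1]
    subst hij
    exact hst (e2.trans f2.symm)

end Pool.Agent.MPf1f412
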