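import Pool.Agent.Lib.MP_f1f412_co.SpecB
import Pool.Agent.Lib.MP_f1f412_co.Basic

/-!
# MP_f1f412_co (C34), B10: the merge bound (helper86)
-/

set_option autoImplicit false

namespace Pool.Agent.MPf1f412

theorem bMb : S_Mb := by
  classical
  intro V K J _ _ G c p q g henv f u w u' w' huw huw' hne hu hw hαβ
  set α := f (c u) with hα
  set β := f (c w) with hβ
  let f' : K → J := fun X => if f X = β then α else f X
  have hf'1 : ∀ X, f X = β → f' X = α := fun X h => if_pos h
  have hf'2 : ∀ X, f X ≠ β → f' X = f X := fun X h => if_neg h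
  let E0 : Set (Sym2 V) := {z | ∃ a b, z = s(a, b) ∧ G.Adj a b ∧ f (c a) = α ∧ f (c b) = β}
  -- the count
  have hfinV : Finite (Sym2 V) := inferInstance
  have h1 : ef G c Set.univ f' + E0.ncard ≤ ef G c Set.univ f := by
    unfold ef
    have hdisj : Disjoint {z : Sym2 V | ∃ u w, z = s(u, w) ∧ Cre G c Set.univ u w ∧
        f' (c u) ≠ f' (c w)} E0 := by
      rw [Set.disjoint_left]
      rintro z ⟨a, b, rfl, -, hab⟩ ⟨a', b', he, -, ha', hb'⟩
      apply hab
      have e1 : f' (c a') = α := by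
        rw [hf'2 _ (by rw [ha']; exact hαβ), ha']
      have e2 : f' (c b') = α := hf'1 _ hb'
      rcases Sym2.eq_iff.1 he with ⟨h3, h4⟩ | ⟨h3, h4⟩
      · rw [h3, h4, e1, e2]
      · rw [h3, h4, e1, e2]
    rw [← Set.ncard_union_eq hdisj (Set.toFinite _) (Set.toFinite _)]
    apply Set.ncard_le_ncard _ (Set.toFinite _)
    rintro z (⟨a, b, rfl, hab, hne'⟩ | ⟨a, b, rfl, hab, ha, hb⟩)
    · refine ⟨a, b, rfl, hab, fun he => hne' ?_⟩
      by_cases h3 : f (c a) = β
      · rw [hf'1 _ h3, hf'1 _ (he ▸ h3)]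
      · rw [hf'2 _ h3, hf'2 _ (he ▸ h3), he]
    · have h3 : f (c a) ≠ f (c b) := by
        rw [ha, hb]
        exact hαβ
      exact ⟨a, b, rfl, ⟨hab, Set.mem_univ _, Set.mem_univ _, fun he => h3 (by rw [he])⟩, h3⟩
  have h2 : (f '' Set.univ).ncard ≤ (f' '' Set.univ).ncard + 1 := by
    have h3 : f '' Set.univ ⊆ insert β (f' '' Set.univ) := by
      rintro _ ⟨X, -, rfl⟩
      by_cases h : f X = β
      · exact Or.inl h
      · exact Or.inr ⟨X, Set.mem_univ X, hf'2 X h⟩
    exact (Set.ncard_le_ncard h3 (Set.toFinite _)).trans (Set.ncard_insert_le _ _)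
  have h3 : sf G c Set.univ f' + 5 * (E0.ncard : ℤ) - 6 ≤ sf G c Set.univ f := by
    unfold sf
    have e1 : ((ef G c Set.univ f' : ℕ) : ℤ) + (E0.ncard : ℤ) ≤ (ef G c Set.univ f : ℤ) := by
      exact_mod_cast h1
    have e2 : ((f '' Set.univ).ncard : ℤ) ≤ ((f' '' Set.univ).ncard : ℤ) + 1 := by
      exact_mod_cast h2
    linarith
  have hm1 : s(u, w) ∈ E0 := ⟨u, w, rfl, huw, rfl, rfl⟩
  have hm2 : s(u', w') ∈ E0 := ⟨u', w', rfl, huw', hu.symm, hw.symm⟩
  have hsym : ∀ a b a' b', f (c a) = α → f (c b') = β → s(a, b) = s(a', b') →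
      a = a' ∧ b = b' := by
    intro a b a' b' h4 h5 he
    rcases Sym2.eq_iff.1 he with h6 | ⟨h6, h7⟩
    · exact h6
    · exfalso
      rw [h6, h5] at h4
      exact hαβ h4.symm
  have hne2 : s(u, w) ≠ s(u', w') := by
    intro he
    obtain ⟨e1, e2⟩ := hsym u w u' w' rfl hw.symm he
    exact hne (Prod.ext e1 e2)
  have he0 : 2 ≤ E0.ncard := by
    have h4 : ({s(u, w), s(u', w')} : Set (Sym2 V)) ⊆ E0 := by
      rintro z (rfl | rfl)
      · exact hm1
      · exact hm2
    rw [← Set.ncard_pair hne2]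
    exact Set.ncard_le_ncard h4 (Set.toFinite _)
  by_cases hc : ∃ X Y, f' X ≠ f' Y
  · left
    have h4 := henv.cntK J f' hc
    have h5 : (2 : ℤ) ≤ (E0.ncard : ℤ) := by exact_mod_cast he0
    linarith
  · push Not at hc
    have h4 : 0 ≤ sf G c Set.univ f' := by
      have h5 : (f' '' Set.univ).ncard = 1 := by
        rw [Set.ncard_eq_one]
        refine ⟨f' (c u), ?_⟩
        ext y
        constructor
        · rintro ⟨Z, -, rfl⟩
          exact hc Z (c u)
        · intro hy
          exact ⟨c u, Set.mem_univ _, hy.symm⟩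
      unfold sf
      rw [h5]
      push_cast
      have : (0 : ℤ) ≤ (ef G c Set.univ f' : ℤ) := Int.natCast_nonneg _
      linarith
    by_cases h5 : 3 ≤ E0.ncard
    · left
      have h6 : (3 : ℤ) ≤ (E0.ncard : ℤ) := by exact_mod_cast h5
      linarith
    · right
      refine ⟨fun X => ?_, fun u₁ w₁ h6 h7 h8 => ?_⟩
      · by_cases h6 : f X = β
        · exact Or.inr h6
        · left
          rw [← hf'2 X h6, hc X (c u), hf'2 (c u) hαβ]
      · by_contra hno
        push Not at hno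
        apply h5
        have h9 : s(u₁, w₁) ∈ E0 := ⟨u₁, w₁, rfl, h6, h7, h8⟩
        have n1 : s(u₁, w₁) ≠ s(u, w) := by
          intro he
          obtain ⟨e1, e2⟩ := hsym u₁ w₁ u w h7 rfl he
          exact hno.1 e1 e2
        have n2 : s(u₁, w₁) ≠ s(u', w') := by
          intro he
          obtain ⟨e1, e2⟩ := hsym u₁ w₁ u' w' h7 hw.symm he
          exact hno.2 e1 e2
        have h10 : ({s(u₁, w₁), s(u, w), s(u', w')} : Set (Sym2 V)).ncard = 3 :=
          Set.ncard_eq_three.2 ⟨_, _, _, n1, n2, hne2, rfl⟩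
        rw [← h10]
        apply Set.ncard_le_ncard _ (Set.toFinite _)
        rintro z (rfl | rfl | rfl)
        · exact h9
        · exact hm1
        · exact hm2

end Pool.Agent.MPf1f412
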