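import Pool.Agent.Lib.MP_f1f412_co.SpecB

/-!
# MP_f1f412_co (C34), B22: there is no cubic triangle of nodes
-/

set_option autoImplicit false

namespace Pool.Agent.MPf1f412

namespace bNoTriAux

variable {V K N : Type}

theorem ctri_rot {G : SimpleGraph V} {cp : V → N} {A B C : N} (h : CTri G cp A B C) :
    CTri G cp B C A :=
  ⟨h.bc, h.ca, h.ab, h.ebc, h.eca, h.eab, h.dB, h.dC, h.dA⟩

theorem tyI_swap {G : SimpleGraph V} {c : V → K} {A : Set K} {Z0 Z1 : K}
    {z b b' a y y' y₁ : V} (h : TyI G c A Z0 Z1 z b b' a y y' y₁) :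
    TyI G c A Z0 Z1 z b' b a y' y y₁ where
  set := h.set
  dbl := ⟨h.dbl.ne, h.dbl.bb.symm, h.dbl.cz, h.dbl.cb', h.dbl.cb, h.dbl.ab', h.dbl.ab⟩
  inn := fun u w h1 h2 h3 => by
    obtain ⟨h4, h5⟩ := h.inn u w h1 h2 h3
    exact ⟨h4, h5.symm⟩
  ca := h.ca
  adj := h.adj'
  adj' := h.adj
  adj₁ := h.adj₁
  cy := h.cy'
  cy' := h.cy
  cy₁ := h.cy₁
  all := fun u w h1 h2 h3 => by
    rcases h.all u w h1 h2 h3 with h4 | h4 | h4
    · exact Or.inr (Or.inl h4)
    · exact Or.inl h4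
    · exact Or.inr (Or.inr h4)

/-- the main case: the legs at `b`, `b'` go to `B`, `C` -/
theorem fin (hTE : S_TriEdge) (h3a : S_Tri3a) (hLV : S_LegV) (hF : S_Five) [Fintype V] [Finite K]
    {G : SimpleGraph V} {c : V → K} {p q : V → R3} {g : K → Iso3} {π : K → N}
    (E : NEnv G c p q g π) {A B C : N} (T : CTri G (π ∘ c) A B C) {Z0 Z1 : K}
    {z b b' a y y' y₁ : V} (h : TyI G c {Y | π Y = A} Z0 Z1 z b b' a y y' y₁)
    (hy : π (c y) = B) (hy' : π (c y') = C) : False := by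
  have hZ0 : π Z0 = A := by
    have h1 : Z0 ∈ ({Y | π Y = A} : Set K) := by
      rw [h.set]
      exact Or.inl rfl
    exact h1
  have hZ1 : π Z1 = A := by
    have h1 : Z1 ∈ ({Y | π Y = A} : Set K) := by
      rw [h.set]
      exact Or.inr rfl
    exact h1
  have hb : π (c b) = A := by rw [h.dbl.cb]; exact hZ0
  have hb' : π (c b') = A := by rw [h.dbl.cb']; exact hZ0
  have hz : π (c z) = A := by rw [h.dbl.cz]; exact hZ1
  obtain ⟨w, w', hww, hw, hw'⟩ := T.ebc
  obtain ⟨e1, e2⟩ := h3a V K N G c p q g π E A B C T.ab T.bc T.ca w w' hww hw hw' Z0 Z1 z b b' a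
    y y' y₁ h hy hy'
  subst e1
  subst e2
  have hbw' : b ≠ w' := by
    rintro rfl
    exact T.ca (hy'.symm.trans hb)
  have hsing : ∃ X, ∀ Y, π Y = B ↔ Y = X :=
    hLV V K N G c p q g π E B w b w' T.dB hy (by rw [hb]; exact T.ab)
      (by rw [hy']; exact T.bc.symm) h.adj.symm hww hbw'
  obtain ⟨X, hX⟩ := hsing
  have hcwX : c w = X := (hX _).1 hy
  obtain ⟨u₁, w₁, u₂, w₂, u₃, w₃, -, -, a3, -, -, c3, -, -, d1, d2, d3, -⟩ :=
    hTE V K N G c p q g π E B C A (ctri_rot T)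
  have hba : b ≠ a := by
    rintro rfl
    exact h.dbl.ne (h.dbl.cb.symm.trans h.ca)
  refine hF V K G c p q g E.env z b b' w w' h.dbl.ab h.dbl.ab' h.dbl.bb h.adj hww h.adj'.symm
    (h.dbl.cb.trans h.dbl.cb'.symm) ?_ ?_ ?_ ?_ ?_ ?_ ?_ ?_ ?_
  · rw [h.dbl.cz, h.dbl.cb]
    exact h.dbl.ne.symm
  · intro hh
    exact T.ab (hb.symm.trans (hh ▸ hy))
  · intro hh
    exact T.ca ((hh ▸ hy' : π (c b) = C).symm.trans hb)
  · intro hh
    exact T.ab (hz.symm.trans (hh ▸ hy))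
  · intro hh
    exact T.ca ((hh ▸ hy' : π (c z) = C).symm.trans hz)
  · intro hh
    exact T.bc ((hh ▸ hy : π (c w') = B).symm.trans hy')
  · by_cases haz : a = z
    · right
      refine ⟨y₁, haz ▸ h.adj₁, ?_, ?_⟩
      · rintro rfl
        exact h.cy₁ hb
      · rintro rfl
        exact h.cy₁ hb'
    · left
      exact ⟨a, haz, h.ca.trans h.dbl.cz.symm⟩
  · by_cases hu : u₃ = w
    · right
      refine ⟨w₃, hu ▸ a3, ?_, ?_⟩
      · rintro rfl
        exact d3 hb
      · rintro rfl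
        exact d2 hy'
    · left
      exact ⟨u₃, hu, ((hX _).1 c3).trans hcwX.symm⟩
  · intro x hbx hcx
    by_cases hx : π (c x) = A
    · left
      have h1 : c x ∈ ({Z0, Z1} : Set K) := by
        rw [← h.set]
        exact hx
      rcases h1 with h1 | h1
      · exact absurd (h1.trans h.dbl.cb.symm) hcx
      · exact (h.inn b x hbx h.dbl.cb h1).1
    · right
      rcases h.all b x hbx hb hx with h1 | h1 | h1
      · exact h1.2
      · exact absurd h1.1 h.dbl.bb
      · exact absurd h1.1 hba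

theorem tyI_false (hTE : S_TriEdge) (h3i : S_Tri3i) (h3a : S_Tri3a) (hLV : S_LegV) (hF : S_Five)
    [Fintype V] [Finite K] {G : SimpleGraph V} {c : V → K} {p q : V → R3} {g : K → Iso3}
    {π : K → N} (E : NEnv G c p q g π) {A B C : N} (T : CTri G (π ∘ c) A B C) {Z0 Z1 : K}
    {z b b' a y y' y₁ : V} (h : TyI G c {Y | π Y = A} Z0 Z1 z b b' a y y' y₁) : False := by
  have hZ0 : π Z0 = A := by
    have h1 : Z0 ∈ ({Y | π Y = A} : Set K) := by
      rw [h.set]
      exact Or.inl rfl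
    exact h1
  have hZ1 : π Z1 = A := by
    have h1 : Z1 ∈ ({Y | π Y = A} : Set K) := by
      rw [h.set]
      exact Or.inr rfl
    exact h1
  have hb : π (c b) = A := by rw [h.dbl.cb]; exact hZ0
  have hb' : π (c b') = A := by rw [h.dbl.cb']; exact hZ0
  have ha : π (c a) = A := by rw [h.ca]; exact hZ1
  have hba : b ≠ a := by
    rintro rfl
    exact h.dbl.ne (h.dbl.cb.symm.trans h.ca)
  have hba' : b' ≠ a := by
    rintro rfl
    exact h.dbl.ne (h.dbl.cb'.symm.trans h.ca)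
  have hbb := h.dbl.bb
  obtain ⟨u₁, w₁, u₂, w₂, u₃, w₃, -, -, -, -, -, -, k1, k2, -, -, -, hall⟩ :=
    hTE V K N G c p q g π E A B C T
  have l1 := hall b y h.adj hb h.cy
  have l2 := hall b' y' h.adj' hb' h.cy'
  have l3 := hall a y₁ h.adj₁ ha h.cy₁
  have hebc : ∃ u w, G.Adj u w ∧ π (c u) = B ∧ π (c w) = C := T.ebc
  have hecb : ∃ u w, G.Adj u w ∧ π (c u) = C ∧ π (c w) = B := by
    obtain ⟨u, w, e1, e2, e3⟩ := hebc
    exact ⟨w, u, e1.symm, e3, e2⟩
  rcases l1 with ⟨p1, q1⟩ | ⟨p1, q1⟩ | ⟨p1, q1⟩ <;>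
    rcases l2 with ⟨p2, q2⟩ | ⟨p2, q2⟩ | ⟨p2, q2⟩ <;>
    first
      | exact hbb (p1.trans p2.symm)
      | (rcases l3 with ⟨p3, q3⟩ | ⟨p3, q3⟩ | ⟨p3, q3⟩ <;>
          first
            | exact hba (p1.trans p3.symm)
            | exact hba' (p2.trans p3.symm)
            | (rw [← q1] at k1; rw [← q2] at k2; exact fin hTE h3a hLV hF E T h k1 k2)
            | (rw [← q2] at k1; rw [← q1] at k2
               exact fin hTE h3a hLV hF E T (tyI_swap h) k1 k2)
            | (rw [← q1] at k1; rw [← q3] at k2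
               exact h3i V K N G c p q g π E A B C T.ab T.bc T.ca hebc Z0 Z1 z b' b a y' y y₁
                (tyI_swap h) k1 k2)
            | (rw [← q3] at k1; rw [← q1] at k2
               exact h3i V K N G c p q g π E A C B T.ca.symm T.bc.symm T.ab.symm hecb Z0 Z1 z b' b
                a y' y y₁ (tyI_swap h) k2 k1)
            | (rw [← q2] at k1; rw [← q3] at k2
               exact h3i V K N G c p q g π E A B C T.ab T.bc T.ca hebc Z0 Z1 z b b' a y y' y₁
                h k1 k2)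
            | (rw [← q3] at k1; rw [← q2] at k2
               exact h3i V K N G c p q g π E A C B T.ca.symm T.bc.symm T.ab.symm hecb Z0 Z1 z b b'
                a y y' y₁ h k2 k1))

theorem notSingle (hTE : S_TriEdge) (h2 : S_Tri2) (h3i : S_Tri3i) (h3a : S_Tri3a) (hLV : S_LegV)
    (hF : S_Five) [Fintype V] [Finite K] {G : SimpleGraph V} {c : V → K} {p q : V → R3}
    {g : K → Iso3} {π : K → N} (E : NEnv G c p q g π) {A B C : N} (T : CTri G (π ∘ c) A B C) :
    ∃ X, ∀ Y, π Y = A ↔ Y = X := by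
  rcases E.deg3 A T.dA with h | ⟨Z0, Z1, z, b, b', a, y, y', y₁, h⟩ | ⟨U, X, z, b, a, y, h⟩
  · exact h
  · exact absurd (tyI_false hTE h3i h3a hLV hF E T h) id
  · exact absurd (h2 V K N G c p q g π E A B C T U X z b a y h) id

end bNoTriAux

open bNoTriAux in
theorem bNoTri : S_TriEdge → S_Tri1 → S_Tri2 → S_Tri3i → S_Tri3a → S_LegV → S_Five → S_NoTri3 := by
  intro hTE h1 h2 h3i h3a hLV hF V K N _ _ G c p q g π E A B C T
  exact h1 V K N G c p q g π E A B C T (notSingle hTE h2 h3i h3a hLV hF E T)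
    (notSingle hTE h2 h3i h3a hLV hF E (ctri_rot T))
    (notSingle hTE h2 h3i h3a hLV hF E (ctri_rot (ctri_rot T)))

end Pool.Agent.MPf1f412
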