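import Pool.Agent.Lib.MP_f1f412_co.SpecB
import Pool.Agent.Lib.MP_f1f412_co.Basic

/-!
# MP_f1f412_co (C34), BParts: the sum of dK over the parts of a partition
-/

set_option autoImplicit false

namespace Pool.Agent.MPf1f412

private theorem bParts_nc {α : Type} [Fintype α] (P : α → Prop) [DecidablePred P] :
    {a | P a}.ncard = (Finset.univ.filter P).card := by
  rw [← Set.ncard_coe_finset]
  congr 1
  ext a
  simp

open Classical in
/-- the ordered pairs are twice the edges -/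
private theorem bParts_two {V N J : Type} [Fintype V] (G : SimpleGraph V) (cp : V → N)
    (S : Set N) (f : N → J) :
    {e : V × V | G.Adj e.1 e.2 ∧ cp e.1 ∈ S ∧ cp e.2 ∈ S ∧ f (cp e.1) ≠ f (cp e.2)}.ncard =
      2 * ef G cp S f := by
  unfold ef
  rw [bParts_nc, bParts_nc]
  have hm : Set.MapsTo (fun e : V × V => s(e.1, e.2))
      ((Finset.univ.filter (fun e : V × V => G.Adj e.1 e.2 ∧ cp e.1 ∈ S ∧ cp e.2 ∈ S ∧
        f (cp e.1) ≠ f (cp e.2)) : Finset (V × V)) : Set (V × V))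
      ((Finset.univ.filter (fun z : Sym2 V => ∃ u w, z = s(u, w) ∧ Cre G cp S u w ∧
        f (cp u) ≠ f (cp w)) : Finset (Sym2 V)) : Set (Sym2 V)) := by
    intro e he
    simp only [Finset.coe_filter, Finset.mem_univ, true_and, Set.mem_ofPred_eq] at he ⊢
    obtain ⟨h1, h2, h3, h4⟩ := he
    exact ⟨e.1, e.2, rfl, ⟨h1, h2, h3, fun h => h4 (by rw [h])⟩, h4⟩
  rw [Finset.card_eq_sum_card_fiberwise hm]
  rw [Finset.sum_const_nat (m := 2), mul_comm]
  intro z hz
  simp only [Finset.mem_filter, Finset.mem_univ, true_and] at hz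
  obtain ⟨u, w, rfl, ⟨h1, h2, h3, h4⟩, h5⟩ := hz
  have : (Finset.univ.filter (fun e : V × V => G.Adj e.1 e.2 ∧ cp e.1 ∈ S ∧ cp e.2 ∈ S ∧
        f (cp e.1) ≠ f (cp e.2))).filter (fun e => s(e.1, e.2) = s(u, w)) =
        {(u, w), (w, u)} := by
    ext ⟨a, b⟩
    simp only [Finset.mem_filter, Finset.mem_univ, true_and, Finset.mem_insert,
      Finset.mem_singleton, Prod.mk.injEq, Sym2.eq_iff]
    constructor
    · rintro ⟨_, h⟩
      exact h
    · rintro (⟨rfl, rfl⟩ | ⟨rfl, rfl⟩)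
      · exact ⟨⟨h1, h2, h3, h5⟩, Or.inl ⟨rfl, rfl⟩⟩
      · exact ⟨⟨h1.symm, h3, h2, Ne.symm h5⟩, Or.inr ⟨rfl, rfl⟩⟩
  rw [this]
  refine Finset.card_pair ?_
  intro h
  exact h1.ne (Prod.mk.inj h).1

open Classical in
theorem bParts : S_Parts := by
  intro V N J _ _ G cp S f F hF
  have : Fintype V := Fintype.ofFinite V
  rw [← bParts_two]
  have h1 : ∑ j ∈ F, dK G cp {Y | Y ∈ S ∧ f Y = j} =
      {e : V × V | G.Adj e.1 e.2 ∧ cp e.1 ∈ S ∧ (cp e.2 ∉ S ∨ f (cp e.1) ≠ f (cp e.2))}.ncard := by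
    rw [bParts_nc]
    have hm : Set.MapsTo (fun e : V × V => f (cp e.1))
        ((Finset.univ.filter (fun e : V × V => G.Adj e.1 e.2 ∧ cp e.1 ∈ S ∧
          (cp e.2 ∉ S ∨ f (cp e.1) ≠ f (cp e.2))) : Finset (V × V)) : Set (V × V))
        (F : Set J) := by
      intro e he
      simp only [Finset.coe_filter, Finset.mem_univ, true_and, Set.mem_ofPred_eq] at he
      rw [hF]
      exact ⟨cp e.1, he.2.1, rfl⟩
    rw [Finset.card_eq_sum_card_fiberwise hm]
    refine Finset.sum_congr rfl fun j _ => ?_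
    unfold dK
    rw [bParts_nc]
    congr 1
    ext e
    simp only [Set.mem_ofPred_eq, Finset.mem_filter, Finset.mem_univ, true_and]
    constructor
    · rintro ⟨h1, ⟨h2, h3⟩, h4⟩
      refine ⟨⟨h1, h2, ?_⟩, h3⟩
      by_cases h : cp e.2 ∈ S
      · right
        intro h5
        exact h4 ⟨h, by rw [← h5, h3]⟩
      · exact Or.inl h
    · rintro ⟨⟨h1, h2, h3⟩, h4⟩
      refine ⟨h1, ⟨h2, h4⟩, ?_⟩
      rintro ⟨h5, h6⟩
      rcases h3 with h3 | h3
      · exact h3 h5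
      · exact h3 (by rw [h4, h6])
  rw [h1]
  unfold dK
  rw [← Set.ncard_union_eq]
  · congr 1
    ext e
    simp only [Set.mem_ofPred_eq, Set.mem_union]
    constructor
    · rintro ⟨h1, h2, h3⟩
      by_cases h : cp e.2 ∈ S
      · rcases h3 with h3 | h3
        · exact absurd h h3
        · exact Or.inl ⟨h1, h2, h, h3⟩
      · exact Or.inr ⟨h1, h2, h⟩
    · rintro (⟨h1, h2, h3, h4⟩ | ⟨h1, h2, h3⟩)
      · exact ⟨h1, h2, Or.inr h4⟩
      · exact ⟨h1, h2, Or.inl h3⟩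
  · rw [Set.disjoint_left]
    rintro e ⟨_, _, h, _⟩ ⟨_, _, h'⟩
    exact h' h

end Pool.Agent.MPf1f412
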