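import Pool.Agent.Lib.MP_f1f412_co.SpecB
import Pool.Agent.Lib.MP_f1f412_co.Spec1
import Pool.Agent.Lib.MP_f1f412_co.Basic

/-!
# MP_f1f412_co (C34), B14: a ring of four bodies is rigid (helper86)
-/

set_option autoImplicit false

namespace Pool.Agent.MPf1f412

open Matrix

namespace bRingAux

theorem cover4 : ∀ i d : Fin 4, d = i ∨ d = i + 1 ∨ d = i + 1 + 1 ∨ d = i + 1 + 1 + 1 := by decide

theorem ne2 : ∀ i j : Fin 4, i = j + 1 → i + 1 = j → False := by decide

open Classical in
/-- the number of the values on a cycle of length four -/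
theorem cyc {J : Type} (F : Fin 4 → J) :
    6 * (((Set.range F).ncard : ℤ) - 1) ≤
      5 * (((Finset.univ.filter fun i : Fin 4 => F i ≠ F (i + 1)).card : ℕ) : ℤ) := by
  set D := Finset.univ.filter fun i : Fin 4 => F i ≠ F (i + 1) with hD
  have hmem : ∀ i, i ∉ D → F (i + 1) = F i := by
    intro i hi
    by_contra h
    exact hi (Finset.mem_filter.2 ⟨Finset.mem_univ i, fun h' => h h'.symm⟩)
  have hcard : D.card ≤ 4 := by
    have := Finset.card_le_univ D
    simpa using this
  by_cases hne : D.Nonempty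
  · have h1 : Set.range F ⊆ (D.image F : Finset J) := by
      rintro _ ⟨i, rfl⟩
      by_contra hno
      have h2 : ∀ k, F k = F i → k ∉ D := fun k hk hkD =>
        hno (Finset.mem_coe.2 (Finset.mem_image.2 ⟨k, hkD, hk⟩))
      have h3 : F (i + 1) = F i := hmem i (h2 i rfl)
      have h4 : F (i + 1 + 1) = F i := (hmem _ (h2 _ h3)).trans h3
      have h5 : F (i + 1 + 1 + 1) = F i := (hmem _ (h2 _ h4)).trans h4
      obtain ⟨d, hd⟩ := hne
      rcases cover4 i d with h | h | h | h
      · exact h2 d (by rw [h]) hd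
      · exact h2 d (by rw [h, h3]) hd
      · exact h2 d (by rw [h, h4]) hd
      · exact h2 d (by rw [h, h5]) hd
    have h6 : (Set.range F).ncard ≤ D.card := by
      refine (Set.ncard_le_ncard h1 (Finset.finite_toSet _)).trans ?_
      rw [Set.ncard_coe_finset]
      exact Finset.card_image_le
    have h7 : ((Set.range F).ncard : ℤ) ≤ (D.card : ℤ) := by exact_mod_cast h6
    have h8 : (D.card : ℤ) ≤ 4 := by exact_mod_cast hcard
    linarith
  · rw [Finset.not_nonempty_iff_eq_empty] at hne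
    have h1 : ∀ i, F (i + 1) = F i := fun i => hmem i (by rw [hne]; exact Finset.notMem_empty i)
    have h2 : (Set.range F).ncard ≤ 1 := by
      have h3 : Set.range F ⊆ {F 0} := by
        rintro _ ⟨i, rfl⟩
        rw [Set.mem_singleton_iff]
        rcases cover4 0 i with h | h | h | h
        · rw [h]
        · rw [h, h1]
        · rw [h, h1, h1]
        · rw [h, h1, h1, h1]
      refine (Set.ncard_le_ncard h3 (Set.finite_singleton _)).trans ?_
      rw [Set.ncard_singleton]
    have h4 : ((Set.range F).ncard : ℤ) ≤ 1 := by exact_mod_cast h2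
    have h5 : (0 : ℤ) ≤ (D.card : ℤ) := Int.natCast_nonneg _
    linarith

end bRingAux

open bRingAux in
theorem bRing (hD0r : S_D0r) : S_Ring := by
  classical
  intro V _ G p hp hG cc u w m hadj hcu hcw hm
  let G' : SimpleGraph V := SimpleGraph.fromEdgeSet {z | ∃ i, z = s(u i, w i)}
  have hG' : ∀ a b, G'.Adj a b → ∃ i, s(a, b) = s(u i, w i) := by
    intro a b hab
    exact ((SimpleGraph.fromEdgeSet_adj _).1 hab).1
  have hadj' : ∀ i, G'.Adj (u i) (w i) := fun i =>
    (SimpleGraph.fromEdgeSet_adj _).2 ⟨⟨i, rfl⟩, (hadj i).ne⟩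
  have hle : ∀ a b, G'.Adj a b → G.Adj a b := by
    intro a b hab
    obtain ⟨i, hi⟩ := hG' a b hab
    rcases Sym2.eq_iff.1 hi with ⟨h1, h2⟩ | ⟨h1, h2⟩
    · rw [h1, h2]; exact hadj i
    · rw [h1, h2]; exact (hadj i).symm
  have hNT : NoTri G' := fun a b c h => hG a b c ⟨hle _ _ h.1, hle _ _ h.2.1, hle _ _ h.2.2⟩
  let S : Set (Fin 5) := Set.range (Fin.castSucc : Fin 4 → Fin 5)
  have hinj : Function.Injective (Fin.castSucc : Fin 4 → Fin 5) := Fin.castSucc_injective 4
  have hdist : ∀ i : Fin 4, i ≠ i + 1 := by decide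
  have hcount : ∀ (J : Type) (f : Fin 5 → J), -((0 : ℕ) : ℤ) ≤ sf G' cc S f := by
    intro J f
    have h1 := cyc fun i : Fin 4 => f i.castSucc
    have h2 : f '' S = Set.range fun i : Fin 4 => f i.castSucc := by
      rw [← Set.range_comp]
      rfl
    have h3 : (Finset.univ.filter fun i : Fin 4 => f i.castSucc ≠ f (i + 1).castSucc).card ≤
        ef G' cc S f := by
      have h4 : Set.InjOn (fun i : Fin 4 => s(u i, w i))
          (Finset.univ.filter fun i : Fin 4 => f i.castSucc ≠ f (i + 1).castSucc : Finset (Fin 4)) := by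
        intro i _ j _ hij
        rcases Sym2.eq_iff.1 hij with ⟨h5, -⟩ | ⟨h5, h6⟩
        · have := congrArg cc h5
          rw [hcu, hcu] at this
          exact hinj this
        · have e1 := congrArg cc h5
          have e2 := congrArg cc h6
          rw [hcu, hcw] at e1
          rw [hcw, hcu] at e2
          exact (ne2 i j (hinj e1) (hinj e2)).elim
      rw [← Finset.card_image_of_injOn h4, ← Set.ncard_coe_finset]
      unfold ef
      apply Set.ncard_le_ncard _ (Set.toFinite _)
      intro z hz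
      rw [Finset.mem_coe, Finset.mem_image] at hz
      obtain ⟨i, hi, rfl⟩ := hz
      rw [Finset.mem_filter] at hi
      refine ⟨u i, w i, rfl, ⟨hadj' i, ⟨i, (hcu i).symm⟩, ⟨i + 1, (hcw i).symm⟩, ?_⟩, ?_⟩
      · rw [hcu, hcw]
        exact fun h => hdist i (hinj h)
      · rw [hcu, hcw]
        exact hi.2
    unfold sf
    rw [h2]
    have h5 : (((Finset.univ.filter fun i : Fin 4 => f i.castSucc ≠ f (i + 1).castSucc).card : ℕ) : ℤ)
        ≤ (ef G' cc S f : ℤ) := by exact_mod_cast h3
    push_cast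
    linarith
  have hrig := (hD0r V (Fin 5) G' cc p S 0 (Set.toFinite _) hp hNT hcount).2 rfl
  let m' : Fin 5 → Tw := fun X => if h : X.val < 4 then m ⟨X.val, h⟩ else 0
  have hm' : ∀ i : Fin 4, m' i.castSucc = m i := fun i => dif_pos i.isLt
  have hmot : IsMot G' cc p S m' := by
    intro a b hab
    obtain ⟨i, hi⟩ := hG' a b hab.1
    obtain ⟨t, ht⟩ := hm i
    rcases Sym2.eq_iff.1 hi with ⟨h1, h2⟩ | ⟨h1, h2⟩
    · rw [h1, h2, hcu, hcw, hm', hm']
      exact ⟨t, ht⟩
    · rw [h1, h2, hcu, hcw, hm', hm']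
      refine ⟨t, ?_⟩
      rw [Ln_swap, smul_neg, ← ht]
      abel
  intro i
  have h1 := hrig m' hmot i.castSucc ⟨i, rfl⟩ (Fin.castSucc 0) ⟨0, rfl⟩
  rwa [hm', hm'] at h1

end Pool.Agent.MPf1f412
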