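import Pool.Agent.Lib.MP_f1f412_co.SpecB
import Pool.Agent.Lib.MP_f1f412_co.Basic

/-!
# MP_f1f412_co (C34), BStar: the basic inequality of section 10
-/

set_option autoImplicit false

namespace Pool.Agent.MPf1f412

theorem bStar : S_Add → S_Parts → S_Tle → S_Star10 := by
  intro hAdd hParts hTle V N _ _ G cp r hr S hS hD hdeg hmin X hX
  obtain ⟨ha, hb⟩ := hAdd V N G cp S X hX
  have hS' : (S \ {X}).ncard + 1 = S.ncard := Set.ncard_sdiff_singleton_add_one hX
  have hne : ∀ T ⊆ S \ {X}, T ≠ S := by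
    rintro T hT rfl
    exact (hT hX).2 rfl
  have h4 : 4 ≤ dK G cp (S \ {X}) :=
    hmin _ Set.sdiff_subset (hne _ subset_rfl) (by omega)
  have h3 := hdeg X hX
  have hF : (((Set.toFinite (r (S \ {X}) '' (S \ {X}))).toFinset : Finset (Set N)) :
      Set (Set N)) = r (S \ {X}) '' (S \ {X}) := Set.Finite.coe_toFinset _
  have hcard : ((Set.toFinite (r (S \ {X}) '' (S \ {X}))).toFinset).card =
      (r (S \ {X}) '' (S \ {X})).ncard := by
    rw [← Set.ncard_coe_finset, hF]
  have ht := hTle V N G cp r hr S X hX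
  refine ⟨(Set.toFinite (r (S \ {X}) '' (S \ {X}))).toFinset, hF, by omega, by omega,
    by rw [hcard]; exact ht, ?_, hParts V N _ G cp (S \ {X}) (r (S \ {X})) _ hF, ?_⟩
  · intro j hj
    have hj' : j ∈ r (S \ {X}) '' (S \ {X}) := by
      rw [← hF]
      exact hj
    obtain ⟨Y, hY, rfl⟩ := hj'
    set P : Set N := {Z | Z ∈ S \ {X} ∧ r (S \ {X}) Z = r (S \ {X}) Y} with hP
    have hPsub : P ⊆ S \ {X} := fun Z hZ => hZ.1
    have hYP : Y ∈ P := ⟨hY, rfl⟩
    by_cases h2 : 2 ≤ P.ncard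
    · have := hmin P (hPsub.trans Set.sdiff_subset) (hne P hPsub) h2
      omega
    · have hpos : 0 < P.ncard := (Set.ncard_pos (Set.toFinite P)).2 ⟨Y, hYP⟩
      obtain ⟨Z, hZ⟩ := Set.ncard_eq_one.1 (by omega : P.ncard = 1)
      rw [hZ]
      refine hdeg Z ?_
      have : Z ∈ P := by
        rw [hZ]
        exact rfl
      exact (hPsub this).1
  · rw [hcard]
    exact hr.few (S \ {X}) (by omega)

end Pool.Agent.MPf1f412
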