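import Pool.Agent.Lib.MP_f1f412_co.SpecB

/-!
# MP_f1f412_co (C34), B3: the edges from a node to the components
-/

set_option autoImplicit false

namespace Pool.Agent.MPf1f412

theorem bTle : S_Tle := by
  intro V N _ _ G cp r h S X _
  unfold eAB
  refine Set.ncard_le_ncard_of_injOn (fun e : V × V => r (S \ {X}) (cp e.2)) ?_ ?_
    (Set.toFinite _)
  · rintro ⟨u, w⟩ ⟨-, -, hw⟩
    exact ⟨cp w, hw, rfl⟩
  · rintro ⟨u, w⟩ ⟨ha, hu, hw⟩ ⟨u', w'⟩ ⟨ha', hu', hw'⟩ he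
    have hX : X ∉ S \ {X} := fun hx => hx.2 rfl
    obtain ⟨rfl, rfl⟩ := h.slow (S \ {X}) X u w u' w' hu hu' hw hw' he (Or.inl hX) ha ha'
    rfl

end Pool.Agent.MPf1f412
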