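import Pool.Agent.Lib.MP_f1f412_co.SpecB
import Pool.Agent.Lib.MP_f1f412_co.Basic

/-!
# MP_f1f412_co (C34), BTri1: a cubic triangle of single classes is impossible
-/

set_option autoImplicit false

namespace Pool.Agent.MPf1f412

namespace bTri1Aux

private theorem rot {V N : Type} {G : SimpleGraph V} {cp : V → N} {A B C : N}
    (h : CTri G cp A B C) : CTri G cp B C A :=
  ⟨h.bc, h.ca, h.ab, h.ebc, h.eca, h.eab, h.dB, h.dC, h.dA⟩

private theorem swap {V N : Type} {G : SimpleGraph V} {cp : V → N} {A B C : N}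
    (h : CTri G cp A B C) : CTri G cp B A C := by
  refine ⟨h.ab.symm, h.ca.symm, h.bc.symm, ?_, ?_, ?_, h.dB, h.dA, h.dC⟩
  · obtain ⟨u, w, h1, h2, h3⟩ := h.eab
    exact ⟨w, u, h1.symm, h3, h2⟩
  · obtain ⟨u, w, h1, h2, h3⟩ := h.eca
    exact ⟨w, u, h1.symm, h3, h2⟩
  · obtain ⟨u, w, h1, h2, h3⟩ := h.ebc
    exact ⟨w, u, h1.symm, h3, h2⟩

/-- the nodes are single classes -/
private def Sg {K N : Type} (π : K → N) (A : N) : Prop := ∃ X, ∀ Y, π Y = A ↔ Y = X

private theorem Sg.eq {K N : Type} {π : K → N} {A : N} (h : Sg π A) {X Y : K} (hX : π X = A)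
    (hY : π Y = A) : X = Y := by
  obtain ⟨Z, hZ⟩ := h
  rw [(hZ X).1 hX, (hZ Y).1 hY]

private theorem half (h1 : S_TriEdge) (h3 : S_TriB) {V K N : Type} [Fintype V] [Finite K]
    {G : SimpleGraph V} {c : V → K} {p q : V → R3} {g : K → Iso3} {π : K → N}
    (hn : NEnv G c p q g π) {A B C : N} (ht : CTri G (π ∘ c) A B C) (hA : Sg π A)
    (hC : Sg π C) {a b d d' : V} (e1 : G.Adj d' a) (e2 : G.Adj a b)
    (e3 : G.Adj b d) (ka : π (c a) = A) (kb : π (c b) = B) (kd : π (c d) = C)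
    (kd' : π (c d') = C) (hdd : d ≠ d') (hl : ∀ w, G.Adj d' w → c w ≠ c d' → w = a) : False := by
  have nab : c a ≠ c b := fun h => ht.ab (by rw [← ka, ← kb, h])
  have nbd : c b ≠ c d := fun h => ht.bc (by rw [← kb, ← kd, h])
  have nda : c d ≠ c a := fun h => ht.ca (by rw [← kd, ← ka, h])
  refine h3 V K G c p q g hn.env a b d d' e1 e2 e3 (hC.eq kd kd') hdd nab nbd nda hl ?_
  obtain ⟨u₁, w₁, u₂, w₂, u₃, w₃, _, _, h33, _, _, k3, _, _, l3, l3', l3'', _⟩ :=
    h1 V K N G c p q g π hn A B C ht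
  by_cases hu : u₃ = a
  · right
    refine ⟨w₃, by rw [← hu]; exact h33, ?_, ?_⟩
    · rintro rfl
      exact l3' kb
    · rintro rfl
      exact l3'' kd'
  · exact Or.inl ⟨u₃, hu, hA.eq k3 ka⟩

private theorem core (h1 : S_TriEdge) (h3 : S_TriB) {V K N : Type} [Fintype V] [Finite K]
    {G : SimpleGraph V} {c : V → K} {p q : V → R3} {g : K → Iso3} {π : K → N}
    (hn : NEnv G c p q g π) {A B C : N} (ht : CTri G (π ∘ c) A B C) (hA : Sg π A) (hB : Sg π B)
    (hC : Sg π C) {a b d d' : V} (e1 : G.Adj d' a) (e2 : G.Adj a b)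
    (e3 : G.Adj b d) (ka : π (c a) = A) (kb : π (c b) = B) (kd : π (c d) = C)
    (kd' : π (c d') = C) (hdd : d ≠ d') : False := by
  obtain ⟨u₁, w₁, u₂, w₂, u₃, w₃, h11, h22, h33, k1, k2, k3, l1, l2, l3, l3', l3'', hall⟩ :=
    h1 V K N G c p q g π hn C A B (rot (rot ht))
  have hall' : ∀ u w, G.Adj u w → π (c u) = C → c w ≠ c u →
      (u = u₁ ∧ w = w₁) ∨ (u = u₂ ∧ w = w₂) ∨ (u = u₃ ∧ w = w₃) := by
    intro u w huw hu hw
    refine hall u w huw hu fun h => hw (hC.eq h hu)
  -- the edge `d' a`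
  have f1 : d' = u₁ ∧ a = w₁ := by
    rcases hall d' a e1 kd' (by rw [ka]; exact ht.ca.symm) with h | ⟨_, h⟩ | ⟨_, h⟩
    · exact h
    · exact absurd (by rw [← ka, h, l2]) ht.ab
    · exact absurd (by rw [← h, ka]) l3'
  have f2 : d = u₂ ∧ b = w₂ := by
    rcases hall d b e3.symm kd (by rw [kb]; exact ht.bc) with ⟨_, h⟩ | h | ⟨_, h⟩
    · exact absurd (by rw [← kb, h, l1] : B = A) ht.ab.symm
    · exact h
    · exact absurd (by rw [← h, kb]) l3''
  by_cases hu : u₃ = d'
  · -- `d b` is the only crossing edge at `d`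
    refine half h1 h3 hn (swap ht) hB hC (a := b) (b := a) (d := d') (d' := d) e3.symm e2.symm
      e1.symm kb ka kd' kd (Ne.symm hdd) ?_
    intro w hw hcw
    rcases hall' d w hw kd hcw with ⟨h, _⟩ | ⟨_, h⟩ | ⟨h, _⟩
    · exact absurd (h.trans f1.1.symm) hdd
    · rw [h, f2.2]
    · exact absurd (h.trans hu) hdd
  · refine half h1 h3 hn ht hA hC e1 e2 e3 ka kb kd kd' hdd ?_
    intro w hw hcw
    rcases hall' d' w hw kd' hcw with ⟨_, h⟩ | ⟨h, _⟩ | ⟨h, _⟩
    · rw [h, f1.2]
    · exact absurd (h.trans f2.1.symm) (Ne.symm hdd)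
    · exact absurd h.symm hu

end bTri1Aux

open bTri1Aux in
theorem bTri1 : S_TriEdge → S_TriA → S_TriB → S_Tri1 := by
  intro h1 h2 h3 V K N _ _ G c p q g π hn A B C ht hA hB hC
  have hA : Sg π A := hA
  have hB : Sg π B := hB
  have hC : Sg π C := hC
  obtain ⟨a, b, eab, ka, kb⟩ := ht.eab
  obtain ⟨b', d, ebd, kb', kd⟩ := ht.ebc
  obtain ⟨d', a', eda, kd', ka'⟩ := ht.eca
  have ka : π (c a) = A := ka
  have kb : π (c b) = B := kb
  have kb' : π (c b') = B := kb'
  have kd : π (c d) = C := kd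
  have kd' : π (c d') = C := kd'
  have ka' : π (c a') = A := ka'
  have caa : c a = c a' := hA.eq ka ka'
  have cbb : c b = c b' := hB.eq kb kb'
  have cdd : c d = c d' := hC.eq kd kd'
  have nab : c a ≠ c b := fun h => ht.ab (by rw [← ka, ← kb, h])
  have nbd : c b ≠ c d := fun h => ht.bc (by rw [← kb, ← kd, h])
  have nda : c d ≠ c a := fun h => ht.ca (by rw [← kd, ← ka, h])
  have g1 : b = b' ∨ d = d' := by
    by_contra h
    push Not at h
    exact h2 V K G c p q g hn.env a a' b b' d d' eab ebd eda caa cbb cdd nab nbd nda h.1 h.2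
  have g2 : d = d' ∨ a = a' := by
    by_contra h
    push Not at h
    exact h2 V K G c p q g hn.env b' b d d' a' a ebd eda eab cbb.symm cdd caa.symm
      (by rw [← cbb]; exact nbd) (by rw [← caa]; exact nda) (by rw [← caa, ← cbb]; exact nab)
      h.1 (Ne.symm h.2)
  have g3 : a = a' ∨ b = b' := by
    by_contra h
    push Not at h
    exact h2 V K G c p q g hn.env d' d a' a b b' eda eab ebd cdd.symm caa.symm cbb
      (by rw [← cdd, ← caa]; exact nda) (by rw [← caa]; exact nab)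
      (by rw [← cdd]; exact nbd) (Ne.symm h.1) h.2
  by_cases q1 : a = a'
  · by_cases q2 : b = b'
    · by_cases q3 : d = d'
      · subst q1 q2 q3
        exact hn.env.hyp.tri a b d ⟨eab, ebd, eda⟩
      · subst q1 q2
        exact core h1 h3 hn ht hA hB hC eda eab ebd ka kb kd kd' q3
    · have q3 : d = d' := by
        rcases g1 with h | h
        · exact absurd h q2
        · exact h
      subst q1 q3
      exact core h1 h3 hn (rot (rot ht)) hC hA hB (a := d) (b := a) (d := b) (d' := b') ebd eda eab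
        kd ka kb kb' q2
  · have q3 : d = d' := by
      rcases g2 with h | h
      · exact h
      · exact absurd h q1
    have q2 : b = b' := by
      rcases g3 with h | h
      · exact absurd h q1
      · exact h
    subst q2 q3
    exact core h1 h3 hn (rot ht) hB hC hA (a := b) (b := d) (d := a') (d' := a) eab ebd eda
      kb kd ka' ka (Ne.symm q1)

end Pool.Agent.MPf1f412
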