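import Pool.Agent.Lib.MP_f1f412_co.SpecB
import Pool.Agent.Lib.MP_f1f412_co.Basic

/-!
# MP_f1f412_co (C34), B16: a node of type II in a cubic triangle is impossible
-/

set_option autoImplicit false

namespace Pool.Agent.MPf1f412

open Matrix

namespace bTri2Aux

/-- the third index -/
theorem third (i j : Fin 3) : ∃ k : Fin 3, k ≠ i ∧ k ≠ j := by
  revert i j
  decide

end bTri2Aux

open bTri2Aux in
theorem bTri2 : S_TriEdge → S_Ring → S_LseN → S_Tri2 := by
  classical
  intro hTE hR hL V K N _ _ G c p q g π E A B C T U X z b a y h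
  obtain ⟨u₁, w₁, u₂, w₂, u₃, w₃, ad1, ad2, -, k1, k2, -, l1, l2, -, -, -, -⟩ :=
    hTE V K N G c p q g π E A B C T
  have hAB : A ≠ B := T.ab
  have hBC : B ≠ C := T.bc
  have hCA : C ≠ A := T.ca
  have hU : π U = A := (h.set U).2 (Or.inl rfl)
  have hX : ∀ i, π (X i) = A := fun i => (h.set (X i)).2 (Or.inr ⟨i, rfl⟩)
  obtain ⟨i, rfl, rfl⟩ := h.all u₁ w₁ ad1 k1 (by
    intro hh
    exact hAB (Eq.trans (Eq.symm hh) l1))
  obtain ⟨j, rfl, rfl⟩ := h.all u₂ w₂ ad2 k2 (by
    intro hh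
    exact hCA (Eq.trans (Eq.symm l2) hh))
  have hij : i ≠ j := by
    rintro rfl
    exact hBC (l1.symm.trans l2)
  obtain ⟨k, hki, hkj⟩ := third i j
  obtain ⟨w, w', hww, hw, hw'⟩ := T.ebc
  have hw : π (c w) = B := hw
  have hw' : π (c w') = C := hw'
  obtain ⟨m, hm, hne⟩ := E.env.tr (b j) U (X i) (h.neX i).symm ⟨b j, h.cb j, Or.inl rfl⟩
    ⟨z i, h.cz i, Or.inr (h.ab i j hij)⟩
  obtain ⟨hc, he, -⟩ := hL V K N G c p q g π E (b j) m hm
  have hbj : π (c (b j)) = A := by rw [h.cb]; exact hU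
  -- vertices different from `b j`
  have nz : ∀ l, z l ≠ b j := fun l hh => h.neX l (by rw [← h.cz l, hh, h.cb])
  have na : ∀ l, a l ≠ b j := fun l hh => h.neX l (by rw [← h.ca l, hh, h.cb])
  have nb : ∀ l, l ≠ j → b l ≠ b j := fun l hl hh => hl (h.injb hh)
  have ny : ∀ l, y l ≠ b j := fun l hh => h.cy l (by rw [hh]; exact hbj)
  have nw : w ≠ b j := fun hh => hAB (by rw [← hbj, ← hh]; exact hw)
  have nw' : w' ≠ b j := fun hh => hCA (by rw [← hbj, ← hh]; exact hw'.symm)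
  -- (1)
  have nzb : ∀ l l', z l ≠ b l' := fun l l' hh => h.neX l (by rw [← h.cz l, hh, h.cb])
  have hUj : m (X j) - m U = 0 := by
    obtain ⟨s, hs⟩ := he (z j) (b i) (h.ab j i hij.symm) (nz j) (nb i hij)
    obtain ⟨t, ht⟩ := he (z j) (b k) (h.ab j k hkj.symm) (nz j) (nb k hkj)
    rw [h.cz, h.cb] at hs ht
    refine t2 (x := p (z j)) (y := p (b i)) (z := p (b k))
      (E.env.gn.gp3 (nzb j i) (nzb j k) (fun hh => hki (h.injb hh).symm)) ?_ ?_ ?_
    · rw [hs, ev_smul, ev_Ln_left, smul_zero]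
    · rw [hs, ev_smul, ev_Ln_right, smul_zero]
    · rw [ht, ev_smul, ev_Ln_right, smul_zero]
  have hUj' : m (X j) = m U := sub_eq_zero.1 hUj
  -- (2)
  have hmB : ∀ Y Y', π Y = B → π Y' = B → m Y = m Y' := fun Y Y' h1 h2 =>
    hc Y Y' (h1.trans h2.symm) (by rw [h1, hbj]; exact hAB.symm)
  have hmC : ∀ Y Y', π Y = C → π Y' = C → m Y = m Y' := fun Y Y' h1 h2 =>
    hc Y Y' (h1.trans h2.symm) (by rw [h1, hbj]; exact hCA)
  -- (3)
  let cc : V → Fin 5 := fun v => if c v = U ∨ c v = X j then 0 else if c v = X i then 1 else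
    if π (c v) = B then 2 else if π (c v) = C then 3 else 4
  have cc0 : ∀ v, c v = U ∨ c v = X j → cc v = 0 := fun v hv => by
    simp only [cc]
    rw [if_pos hv]
  have cc1 : ∀ v, c v = X i → cc v = 1 := fun v hv => by
    simp only [cc]
    rw [if_neg, if_pos hv]
    rintro (h1 | h1)
    · exact h.neX i (hv.symm.trans h1)
    · exact hij (h.injX (hv.symm.trans h1))
  have cc2 : ∀ v, π (c v) = B → cc v = 2 := fun v hv => by
    simp only [cc]
    rw [if_neg, if_neg, if_pos hv]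
    · intro h1
      rw [h1, hX] at hv
      exact hAB hv
    · rintro (h1 | h1)
      · rw [h1, hU] at hv
        exact hAB hv
      · rw [h1, hX] at hv
        exact hAB hv
  have cc3 : ∀ v, π (c v) = C → cc v = 3 := fun v hv => by
    simp only [cc]
    rw [if_neg, if_neg, if_neg, if_pos hv]
    · intro h1
      exact hBC (h1.symm.trans hv)
    · intro h1
      rw [h1, hX] at hv
      exact hCA hv.symm
    · rintro (h1 | h1)
      · rw [h1, hU] at hv
        exact hCA hv.symm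
      · rw [h1, hX] at hv
        exact hCA hv.symm
  have hring := hR V G p E.env.gn ?_ cc ![b k, a i, w, y j] ![z i, y i, w', a j]
    ![m U, m (X i), m (c w), m (c w')] ?_ ?_ ?_ ?_ 1
  · apply hne
    have h1 : m (X i) = m U := hring
    rw [h1, sub_self, ev_zero]
  · exact E.env.hyp.tri
  · intro l
    fin_cases l
    · exact (h.ab i k hki.symm).symm
    · exact h.adj i
    · exact hww
    · exact (h.adj j).symm
  · intro l
    fin_cases l
    · exact cc0 _ (Or.inl (h.cb k))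
    · exact cc1 _ (h.ca i)
    · exact cc2 _ hw
    · exact cc3 _ l2
  · intro l
    fin_cases l
    · exact cc1 _ (h.cz i)
    · exact cc2 _ l1
    · exact cc3 _ hw'
    · exact cc0 _ (Or.inr (h.ca j))
  · intro l
    fin_cases l
    · obtain ⟨t, ht⟩ := he (b k) (z i) (h.ab i k hki.symm).symm (nb k hkj) (nz i)
      refine ⟨t, ?_⟩
      rw [h.cb, h.cz] at ht
      exact ht
    · obtain ⟨t, ht⟩ := he (a i) (y i) (h.adj i) (na i) (ny i)
      refine ⟨t, ?_⟩
      rw [h.ca, hmB _ _ l1 hw] at ht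
      exact ht
    · exact he w w' hww nw nw'
    · obtain ⟨t, ht⟩ := he (y j) (a j) (h.adj j).symm (ny j) (na j)
      refine ⟨t, ?_⟩
      rw [h.ca, hmC _ _ l2 hw', hUj'] at ht
      exact ht

end Pool.Agent.MPf1f412
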