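import Pool.Agent.Lib.MP_f1f412_co.SpecB
import Pool.Agent.Lib.MP_f1f412_co.Basic

/-!
# MP_f1f412_co (C34), B18: type I, the edge from `B` to `C` (helper86)
-/

set_option autoImplicit false

namespace Pool.Agent.MPf1f412

open Matrix

namespace bTri3aAux

theorem half (hL : S_LseN) {V K N : Type} [Fintype V] [Finite K] {G : SimpleGraph V} {c : V → K}
    {p q : V → R3} {g : K → Iso3} {π : K → N} (henv : NEnv G c p q g π) {A B C : N}
    (hAB : A ≠ B) (hBC : B ≠ C) (hCA : C ≠ A) {w w' b b' y y' : V} (hww : G.Adj w w')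
    (hw : π (c w) = B) (hw' : π (c w') = C) (hbb : b ≠ b') (hcb : c b = c b')
    (hb : π (c b) = A) (hby : G.Adj b y) (hby' : G.Adj b' y') (hy : π (c y) = B)
    (hy' : π (c y') = C) : w = y := by
  by_contra hwy
  have hb' : π (c b') = A := hcb ▸ hb
  have hcne : c b ≠ c y := by
    intro he
    apply hAB
    rw [← hb, he, hy]
  obtain ⟨m, hm, hne⟩ := henv.env.tr b (c b) (c y) hcne ⟨b, rfl, Or.inl rfl⟩
    ⟨y, rfl, Or.inr hby.symm⟩
  obtain ⟨l1, l2, l3⟩ := hL V K N G c p q g π henv b m hm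
  -- vertices in different nodes are different
  have hv : ∀ {x x' : V}, π (c x) ≠ π (c x') → x ≠ x' := by
    intro x x' h he
    exact h (by rw [he])
  have y'b : y' ≠ b := hv (by rw [hy', hb]; exact hCA)
  have wb : w ≠ b := hv (by rw [hw, hb]; exact hAB.symm)
  have w'b : w' ≠ b := hv (by rw [hw', hb]; exact hCA)
  have b'y : b' ≠ y := hv (by rw [hb', hy]; exact hAB)
  have b'w : b' ≠ w := hv (by rw [hb', hw]; exact hAB)
  have y'y : y' ≠ y := hv (by rw [hy', hy]; exact hBC.symm)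
  have y'w : y' ≠ w := hv (by rw [hy', hw]; exact hBC.symm)
  have w'y : w' ≠ y := hv (by rw [hw', hy]; exact hBC.symm)
  obtain ⟨s, hs⟩ := l2 b' y' hby' (Ne.symm hbb) y'b
  obtain ⟨t, ht⟩ := l2 w w' hww wb w'b
  have e1 : m (c w) = m (c y) := l1 _ _ (by rw [hw, hy]) (by rw [hw, hb]; exact hAB.symm)
  have e2 : m (c w') = m (c y') := l1 _ _ (by rw [hw', hy']) (by rw [hw', hb]; exact hCA)
  rw [e1, e2] at ht
  rw [← hcb] at hs
  have e3 : m (c b) - m (c y) = s • Ln (p b') (p y') - t • Ln (p w) (p w') := by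
    rw [← hs, ← ht]
    abel
  have e4 := l3 y hby
  rw [e3, ev_sub, ev_smul, ev_smul, ev_Ln, ev_Ln, sub_eq_zero] at e4
  have hp := henv.env.gn
  have hs0 : s = 0 := by
    have h1 := congrArg (fun v => v ⬝ᵥ (p w - p y)) e4
    simp only [smul_dotProduct, smul_eq_mul] at h1
    have h2 : cr (p w' - p w) (p y - p w) ⬝ᵥ (p w - p y) = 0 := by
      simp only [dot_eq, cr_zero, cr_one, cr_two, Pi.sub_apply]
      ring
    have h3 : cr (p y' - p b') (p y - p b') ⬝ᵥ (p w - p y) =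
        cr (p y' - p b') (p y - p b') ⬝ᵥ (p w - p b') := by
      simp only [dot_eq, cr_zero, cr_one, cr_two, Pi.sub_apply]
      ring
    rw [h2, mul_zero, h3] at h1
    rcases mul_eq_zero.1 h1 with h4 | h4
    · exact h4
    · exact absurd h4 (hp.gp4 hby'.ne b'y b'w y'y y'w (Ne.symm hwy))
  rw [hs0, zero_smul] at e4
  have ht0 : t = 0 := by
    rcases smul_eq_zero.1 e4.symm with h4 | h4
    · exact h4
    · exact absurd h4 (hp.gp3 hww.ne hwy w'y)
  apply hne
  rw [e3, hs0, ht0, zero_smul, zero_smul, sub_zero, ev_zero]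

end bTri3aAux

open bTri3aAux in
theorem bTri3a (hL : S_LseN) : S_Tri3a := by
  intro V K N _ _ G c p q g π henv A B C hAB hBC hCA w w' hww hw hw' Z0 Z1 z b b' a y y' y₁ hT hy hy'
  have hcb : c b = c b' := hT.dbl.cb.trans hT.dbl.cb'.symm
  have hb : π (c b) = A := by
    have h1 : c b ∈ {Y | π Y = A} := by
      rw [hT.set, hT.dbl.cb]
      exact Or.inl rfl
    exact h1
  have hb' : π (c b') = A := hcb ▸ hb
  refine ⟨?_, ?_⟩
  · exact half hL henv hAB hBC hCA hww hw hw' hT.dbl.bb hcb hb hT.adj hT.adj' hy hy'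
  · exact half hL henv (Ne.symm hCA) (Ne.symm hBC) (Ne.symm hAB) hww.symm hw' hw
      (Ne.symm hT.dbl.bb) hcb.symm hb' hT.adj' hT.adj hy' hy

end Pool.Agent.MPf1f412
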