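import Pool.Agent.Lib.MP_f1f412_co.SpecB
import Pool.Agent.Lib.MP_f1f412_co.Basic

/-!
# MP_f1f412_co (C34): type I, the leg at `b` leaves the triangle
-/

set_option autoImplicit false

namespace Pool.Agent.MPf1f412

open Matrix

theorem bTri3i (hRing : S_Ring) (hLseN : S_LseN) : S_Tri3i := by
  classical
  intro V K N _ _ G c p q g π E A B C hAB hBC hCA hww Z0 Z1 z b b' a y y' y₁ I hy' hy₁
  obtain ⟨w, w', hww1, hw, hw'⟩ := hww
  have dbl := I.dbl
  have hset : ∀ X, π X = A ↔ X = Z0 ∨ X = Z1 := by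
    intro X
    have := I.set
    constructor
    · intro h
      have h1 : X ∈ ({Y | π Y = A} : Set K) := h
      rw [this] at h1
      exact h1
    · intro h
      have h1 : X ∈ ({Z0, Z1} : Set K) := h
      rw [← this] at h1
      exact h1
  have hZ0 : π Z0 = A := (hset Z0).2 (Or.inl rfl)
  have hZ1 : π Z1 = A := (hset Z1).2 (Or.inr rfl)
  obtain ⟨m, hm, hne⟩ := E.env.tr b Z0 Z1 dbl.ne ⟨b, dbl.cb, Or.inl rfl⟩
    ⟨z, dbl.cz, Or.inr dbl.ab⟩
  obtain ⟨h1, h2, -⟩ := hLseN V K N G c p q g π E b m hm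
  have hb : π (c b) = A := by rw [dbl.cb, hZ0]
  -- the vertices are different from `b`
  have nb : ∀ v, π (c v) ≠ A → v ≠ b := by
    rintro v hv rfl
    exact hv hb
  have nB : ∀ v, π (c v) = B → v ≠ b := fun v hv => nb v (by rw [hv]; exact hAB.symm)
  have nC : ∀ v, π (c v) = C → v ≠ b := fun v hv => nb v (by rw [hv]; exact hCA)
  have nZ : ∀ v, c v = Z1 → v ≠ b := by
    rintro v hv rfl
    exact dbl.ne (dbl.cb.symm.trans hv)
  -- the bodies
  let cc : V → Fin 5 := fun v => if c v = Z0 then 0 else if π (c v) = B then 1 else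
    if π (c v) = C then 2 else if c v = Z1 then 3 else 4
  have c0 : ∀ v, c v = Z0 → cc v = 0 := fun v hv => if_pos hv
  have c1 : ∀ v, π (c v) = B → cc v = 1 := by
    intro v hv
    have h : c v ≠ Z0 := by
      intro h
      rw [h, hZ0] at hv
      exact hAB hv
    show (if c v = Z0 then 0 else if π (c v) = B then 1 else _) = _
    rw [if_neg h, if_pos hv]
  have c2 : ∀ v, π (c v) = C → cc v = 2 := by
    intro v hv
    have h : c v ≠ Z0 := by
      intro h
      rw [h, hZ0] at hv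
      exact hCA hv.symm
    have h' : π (c v) ≠ B := by
      rw [hv]
      exact hBC.symm
    show (if c v = Z0 then 0 else if π (c v) = B then 1 else if π (c v) = C then 2 else _) = _
    rw [if_neg h, if_neg h', if_pos hv]
  have c3 : ∀ v, c v = Z1 → cc v = 3 := by
    intro v hv
    have h : c v ≠ Z0 := by
      rw [hv]
      exact dbl.ne.symm
    have h' : π (c v) ≠ B := by
      rw [hv, hZ1]
      exact hAB
    have h'' : π (c v) ≠ C := by
      rw [hv, hZ1]
      exact hCA.symm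
    show (if c v = Z0 then 0 else if π (c v) = B then 1 else if π (c v) = C then 2 else
      if c v = Z1 then 3 else _) = _
    rw [if_neg h, if_neg h', if_neg h'', if_pos hv]
  have key := hRing V G p E.env.gn E.env.hyp.tri cc ![b', w, y₁, z] ![y', w', a, b']
    ![m Z0, m (c y'), m (c y₁), m Z1] ?_ ?_ ?_ ?_ 3
  · have key' : m Z1 = m Z0 := key
    apply hne
    rw [key', sub_self, ev_zero]
  · intro i
    fin_cases i
    · exact I.adj'
    · exact hww1
    · exact I.adj₁.symm
    · exact dbl.ab'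
  · intro i
    fin_cases i
    · exact c0 b' dbl.cb'
    · exact c1 w hw
    · exact c2 y₁ hy₁
    · exact c3 z dbl.cz
  · intro i
    fin_cases i
    · exact c1 y' hy'
    · exact c2 w' hw'
    · exact c3 a I.ca
    · exact c0 b' dbl.cb'
  · intro i
    fin_cases i
    · obtain ⟨t, ht⟩ := h2 b' y' I.adj' dbl.bb.symm (nB y' hy')
      rw [dbl.cb'] at ht
      exact ⟨t, ht⟩
    · obtain ⟨t, ht⟩ := h2 w w' hww1 (nB w hw) (nC w' hw')
      rw [h1 (c w) (c y') (by rw [hw, hy']) (by rw [hw, hb]; exact hAB.symm),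
        h1 (c w') (c y₁) (by rw [hw', hy₁]) (by rw [hw', hb]; exact hCA)] at ht
      exact ⟨t, ht⟩
    · obtain ⟨t, ht⟩ := h2 y₁ a I.adj₁.symm (nC y₁ hy₁) (nZ a I.ca)
      rw [I.ca] at ht
      exact ⟨t, ht⟩
    · obtain ⟨t, ht⟩ := h2 z b' dbl.ab' (nZ z dbl.cz) dbl.bb.symm
      rw [dbl.cz, dbl.cb'] at ht
      exact ⟨t, ht⟩

end Pool.Agent.MPf1f412
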