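import Pool.Agent.Lib.MP_f1f412_co.SpecB
import Pool.Agent.Lib.MP_f1f412_co.Spec1
import Pool.Agent.Lib.MP_f1f412_co.Basic

/-!
# MP_f1f412_co (C34), B12: the path `d' - a - b - d`
-/

set_option autoImplicit false

namespace Pool.Agent.MPf1f412

open Matrix

namespace bTriBAux

theorem sf_nonneg {V K J : Type} [Finite K] {G : SimpleGraph V} {c : V → K} {p q : V → R3}
    {g : K → Iso3} (E : Env G c p q g) (f : K → J) : 0 ≤ sf G c Set.univ f := by
  by_cases h : ∃ X Y, f X ≠ f Y
  · exact le_trans zero_le_one (E.cntK J f h)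
  · push Not at h
    have h1 : (f '' Set.univ).ncard ≤ 1 := by
      rw [Set.ncard_le_one (Set.toFinite _)]
      rintro _ ⟨x, -, rfl⟩ _ ⟨y, -, rfl⟩
      exact h x y
    have h2 : ((f '' Set.univ).ncard : ℤ) ≤ 1 := by exact_mod_cast h1
    have h3 : (0 : ℤ) ≤ (ef G c Set.univ f : ℤ) := Nat.cast_nonneg _
    unfold sf
    linarith

end bTriBAux

open bTriBAux in
/-- **B12.** -/
theorem bTriB : S_Mb → S_F3B → S_D0r → S_TriB := by
  intro hMb hF3 hD0 V K _ _ G c p q g E a b d d' hda hab hbd hdd hne hAB hBC hCA hcr hA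
  classical
  have self : ∀ v X, c v = X → Pin G c X v := fun v X h => ⟨v, h, Or.inl rfl⟩
  have nb : ∀ v u X, c v = X → G.Adj v u → Pin G c X u := fun v u X h h' => ⟨v, h, Or.inr h'⟩
  have ne : ∀ x y : V, c x ≠ c y → x ≠ y := fun x y hxy h => hxy (by rw [h])
  obtain ⟨m, hm, hmz⟩ := E.tr d' (c d) (c a) hCA (self d' _ hdd.symm) (nb a d' _ rfl hda.symm)
  -- `m C = m B`
  have hCB : m (c d) = m (c b) := by
    have h1 : ev (m (c d) - m (c b)) (p a) = 0 :=
      hm a (ne _ _ (by rw [← hdd]; exact hCA.symm)) _ _ (nb d' a _ hdd.symm hda)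
        (nb b a _ rfl hab.symm)
    have h2 : ev (m (c d) - m (c b)) (p b) = 0 :=
      hm b (ne _ _ (by rw [← hdd]; exact hBC)) _ _ (nb d b _ rfl hbd.symm) (self b _ rfl)
    have h3 : ev (m (c d) - m (c b)) (p d) = 0 :=
      hm d hne _ _ (self d _ rfl) (nb b d _ rfl hbd)
    exact sub_eq_zero.1 (t2 (E.gn.gp3 (ne _ _ hAB) (ne _ _ hCA.symm) (ne _ _ hBC)) h1 h2 h3)
  set G' : SimpleGraph V := G.deleteEdges {s(d', a)} with hG'
  set c₁ : V → K := fun v => if c v = c d then c b else c v with hc₁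
  set S : Set K := {X | X ≠ c d} with hS
  have hG'G : G' ≤ G := SimpleGraph.deleteEdges_le _
  have hadj : ∀ u w, G'.Adj u w ↔ G.Adj u w ∧ s(u, w) ≠ s(d', a) := by
    intro u w
    rw [hG', SimpleGraph.deleteEdges_adj, Set.mem_singleton_iff]
  have hc1S : ∀ v, c₁ v ∈ S := by
    intro v
    simp only [hc₁, hS, Set.mem_ofPred_eq]
    split_ifs with h
    · exact hBC
    · exact h
  have hc1m : ∀ v, m (c₁ v) = m (c v) := by
    intro v
    simp only [hc₁]
    split_ifs with h
    · rw [h, hCB]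
    · rfl
  have hc1ne : ∀ u w, c₁ u ≠ c₁ w → c u ≠ c w := by
    intro u w h h'
    apply h
    simp only [hc₁, h']
  -- `m` is a motion
  have hmot : IsMot G' c₁ p S m := by
    intro u w huw
    have hadj' := (hadj u w).1 huw.1
    have hcne := hc1ne u w huw.2.2.2
    rw [hc1m, hc1m]
    have hu : u ≠ d' := by
      rintro rfl
      exact hadj'.2 (by rw [hcr w hadj'.1 hcne.symm])
    have hw : w ≠ d' := by
      rintro rfl
      exact hadj'.2 (by rw [hcr u hadj'.1.symm hcne, Sym2.eq_swap])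
    exact t1 (E.gn.inj hadj'.1.ne) (hm u hu _ _ (self u _ rfl) (nb w u _ rfl hadj'.1.symm))
      (hm w hw _ _ (nb u w _ rfl hadj'.1) (self w _ rfl))
  -- the count
  have hcount : ∀ (J : Type) (f : K → J), -((0 : ℕ) : ℤ) ≤ sf G' c₁ S f := by
    intro J f
    set f₁ : K → J := fun X => if X = c d then f (c b) else f X with hf₁
    have himg : f '' S = f₁ '' Set.univ := by
      ext j
      constructor
      · rintro ⟨X, hX, rfl⟩
        exact ⟨X, trivial, by simp only [hf₁]; rw [if_neg hX]⟩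
      · rintro ⟨X, -, rfl⟩
        by_cases h : X = c d
        · exact ⟨c b, hBC, by simp only [hf₁]; rw [if_pos h]⟩
        · exact ⟨X, h, by simp only [hf₁]; rw [if_neg h]⟩
    have hfc : ∀ v, f (c₁ v) = f₁ (c v) := by
      intro v
      simp only [hc₁, hf₁]
      split_ifs <;> rfl
    have hf1b : f₁ (c b) = f (c b) := by
      simp only [hf₁]; rw [if_neg hBC]
    have hf1d : f₁ (c d') = f (c b) := by
      simp only [hf₁]; rw [if_pos hdd.symm]
    set T₁ : Set (Sym2 V) := {z | ∃ u w, z = s(u, w) ∧ Cre G' c₁ S u w ∧ f (c₁ u) ≠ f (c₁ w)}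
      with hT₁
    set T₂ : Set (Sym2 V) := {z | ∃ u w, z = s(u, w) ∧ Cre G c Set.univ u w ∧
      f₁ (c u) ≠ f₁ (c w)} with hT₂
    have hT : T₁ = T₂ \ {s(d', a)} := by
      ext z
      constructor
      · rintro ⟨u, w, rfl, hcre, hf⟩
        have h1 := (hadj u w).1 hcre.1
        refine ⟨⟨u, w, rfl, ⟨h1.1, trivial, trivial, hc1ne _ _ hcre.2.2.2⟩, ?_⟩, ?_⟩
        · rwa [hfc, hfc] at hf
        · rw [Set.mem_singleton_iff]; exact h1.2
      · rintro ⟨⟨u, w, rfl, hcre, hf⟩, hz⟩
        rw [Set.mem_singleton_iff] at hz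
        rw [← hfc, ← hfc] at hf
        exact ⟨u, w, rfl, ⟨(hadj u w).2 ⟨hcre.1, hz⟩, hc1S _, hc1S _, fun h => hf (by rw [h])⟩,
          hf⟩
    have hsf' : sf G' c₁ S f = 5 * (T₁.ncard : ℤ) - 6 * (((f₁ '' Set.univ).ncard : ℤ) - 1) := by
      rw [← himg]; rfl
    have hsf : sf G c Set.univ f₁ =
      5 * (T₂.ncard : ℤ) - 6 * (((f₁ '' Set.univ).ncard : ℤ) - 1) := rfl
    have h0 := sf_nonneg E f₁
    by_cases hfAB : f₁ (c a) = f₁ (c b)
    · have hTT : T₁ = T₂ := by
        rw [hT]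
        refine Set.sdiff_singleton_eq_self ?_
        rintro ⟨u, w, hz, -, hf⟩
        rcases Sym2.eq_iff.1 hz with ⟨h1, h2⟩ | ⟨h1, h2⟩
        · apply hf
          rw [← h1, ← h2, hf1d, hfAB, hf1b]
        · apply hf
          rw [← h1, ← h2, hf1d, hfAB, hf1b]
      rw [hsf', hTT, ← hsf]
      simpa using h0
    · have h1 : T₂.ncard ≤ T₁.ncard + 1 := by
        rw [hT]
        have := Set.ncard_le_ncard_sdiff_add_ncard T₂ {s(d', a)} (Set.toFinite _)
        rwa [Set.ncard_singleton] at this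
      have h1' : (T₂.ncard : ℤ) ≤ (T₁.ncard : ℤ) + 1 := by exact_mod_cast h1
      have h5 : 5 ≤ sf G c Set.univ f₁ := by
        rcases hMb V K J G c p q g E f₁ a b a d' hab hda.symm
          (fun h => ne b d' (by rw [← hdd]; exact hBC) (Prod.mk.inj h).2) rfl
          (by rw [hf1b, hf1d]) hfAB with h | ⟨h2, h3⟩
        · exact h
        · exfalso
          have h4 := hF3 V G E.hyp {v | f₁ (c v) = f₁ (c a)} a b d' rfl
            (fun h => hfAB (Eq.symm h))
            (fun h => hfAB (by rw [hf1b, ← hf1d]; exact Eq.symm h))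
            (ne b d' (by rw [← hdd]; exact hBC)) hab hda.symm
            (by
              intro u w huw hu hw
              have h6 : f₁ (c w) = f₁ (c b) := (h2 (c w)).resolve_left hw
              rcases h3 u w huw hu h6 with ⟨h7, h8⟩ | ⟨h7, h8⟩
              · exact ⟨h7, Or.inl h8⟩
              · exact ⟨h7, Or.inr h8⟩)
          rcases hA with ⟨v, hv, hcv⟩ | ⟨x, hx, hxb, hxd⟩
          · have h6 : v ∈ ({v | f₁ (c v) = f₁ (c a)} : Set V) := by
              show f₁ (c v) = f₁ (c a)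
              rw [hcv]
            rw [h4] at h6
            exact hv h6
          · by_cases h6 : f₁ (c x) = f₁ (c a)
            · have h7 : x ∈ ({v | f₁ (c v) = f₁ (c a)} : Set V) := h6
              rw [h4] at h7
              exact hx.ne (Set.mem_singleton_iff.1 h7).symm
            · have h7 : f₁ (c x) = f₁ (c b) := (h2 (c x)).resolve_left h6
              rcases h3 a x hx rfl h7 with ⟨-, h8⟩ | ⟨-, h8⟩
              · exact hxb h8
              · exact hxd h8
      rw [hsf']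
      rw [hsf] at h5
      push_cast
      linarith
  have htri : NoTri G' := fun x y z h => E.hyp.tri x y z ⟨hG'G h.1, hG'G h.2.1, hG'G h.2.2⟩
  have hrig := (hD0 V K G' c₁ p S 0 (Set.toFinite _) E.gn htri hcount).2 rfl
  have h1 := hrig m hmot (c a) hCA.symm (c b) hBC
  apply hmz
  rw [hCB, h1, sub_self, ev_zero]

end Pool.Agent.MPf1f412
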