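import Pool.Agent.Lib.MP_f1f412_co.SpecB
import Pool.Agent.Lib.MP_f1f412_co.Basic

/-! C34, module BTriEdge (SpecB): the three edges leaving a cubic node of a triangle -/

set_option autoImplicit false

namespace Pool.Agent.MPf1f412

open Matrix

theorem bTriEdge : S_TriEdge := by
  intro V K N _ G c p q g π hN A B C hT
  classical
  obtain ⟨u₁, w₁, h1, hu1, hw1⟩ := hT.eab
  obtain ⟨w₂, u₂, h2, hw2, hu2⟩ := hT.eca
  simp only [Function.comp_apply] at hu1 hw1 hw2 hu2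
  have hslow : ∀ D : N, A ≠ D → ∀ u y u' y', π (c u) = A → π (c u') = A → π (c y) = D →
      π (c y') = D → G.Adj u y → G.Adj u' y' → u = u' ∧ y = y' := by
    intro D hD u y u' y' a1 a2 a3 a4 a5 a6
    refine hN.slowN {D} A ?_ hD u y u' y' a1 a2 a3 a4 a5 a6
    rintro m - X rfl Y rfl
    rfl
  set E : Set (V × V) := {e | G.Adj e.1 e.2 ∧ (π ∘ c) e.1 ∈ ({A} : Set N) ∧
    (π ∘ c) e.2 ∉ ({A} : Set N)} with hE
  have hc : E.ncard = 3 := hT.dA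
  have m1 : (u₁, w₁) ∈ E := ⟨h1, hu1, fun h => hT.ab ((show π (c w₁) = A from h).symm.trans hw1)⟩
  have m2 : (u₂, w₂) ∈ E := ⟨h2.symm, hu2, fun h => hT.ca (hw2.symm.trans (show π (c w₂) = A from h))⟩
  have hne : (u₂, w₂) ≠ (u₁, w₁) := by
    intro h
    have : w₂ = w₁ := (Prod.mk.inj h).2
    rw [this] at hw2
    exact hT.bc (hw1.symm.trans hw2)
  have hc1 : (E \ {(u₁, w₁)}).ncard = 2 := by
    rw [Set.ncard_sdiff_singleton_of_mem m1, hc]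
  have hc2 : ((E \ {(u₁, w₁)}) \ {(u₂, w₂)}).ncard = 1 := by
    rw [Set.ncard_sdiff_singleton_of_mem (show (u₂, w₂) ∈ E \ {(u₁, w₁)} from ⟨m2, hne⟩), hc1]
  obtain ⟨⟨u₃, w₃⟩, he⟩ := Set.ncard_eq_one.mp hc2
  have m3 : (u₃, w₃) ∈ (E \ {(u₁, w₁)}) \ {(u₂, w₂)} := by
    rw [he]
    exact Set.mem_singleton _
  have h3 : G.Adj u₃ w₃ := m3.1.1.1
  have hu3 : π (c u₃) = A := m3.1.1.2.1
  have hw3 : π (c w₃) ≠ A := m3.1.1.2.2
  refine ⟨u₁, w₁, u₂, w₂, u₃, w₃, h1, h2.symm, h3, hu1, hu2, hu3, hw1, hw2, hw3, ?_, ?_, ?_⟩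
  · intro hB
    obtain ⟨e1, e2⟩ := hslow B hT.ab u₃ w₃ u₁ w₁ hu3 hu1 hB hw1 h3 h1
    exact m3.1.2 (Prod.ext e1 e2)
  · intro hC
    obtain ⟨e1, e2⟩ := hslow C hT.ca.symm u₃ w₃ u₂ w₂ hu3 hu2 hC hw2 h3 h2.symm
    exact m3.2 (Prod.ext e1 e2)
  · intro u w huw hu hw
    have hm : (u, w) ∈ E := ⟨huw, hu, hw⟩
    by_cases c1 : (u, w) = (u₁, w₁)
    · exact Or.inl ⟨(Prod.mk.inj c1).1, (Prod.mk.inj c1).2⟩
    by_cases c2 : (u, w) = (u₂, w₂)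
    · exact Or.inr (Or.inl ⟨(Prod.mk.inj c2).1, (Prod.mk.inj c2).2⟩)
    have : (u, w) ∈ (E \ {(u₁, w₁)}) \ {(u₂, w₂)} := ⟨⟨hm, c1⟩, c2⟩
    rw [he] at this
    have h := Prod.mk.inj (Set.mem_singleton_iff.mp this)
    exact Or.inr (Or.inr ⟨h.1, h.2⟩)

end Pool.Agent.MPf1f412
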