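import Pool.Agent.Lib.MP_f1f412_co.Spec8
import Pool.Agent.Lib.MP_f1f412_co.Basic

/-!
# MP_f1f412_co (C34), section 8: the count without two classes
-/

set_option autoImplicit false

namespace Pool.Agent.MPf1f412

theorem e8Cnt8 : S_Cnt8 := by
  classical
  intro V K _ _ G c X₁ X₂ x₁ x₁' x₂ x₂' y₁ y₂ h H J f
  let f' : K → Option (Option J) := fun X =>
    if X = X₁ then none else if X = X₂ then some none else some (some (f X))
  have fX1 : f' X₁ = none := by simp [f']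
  have fX2 : f' X₂ = some none := by simp [f', h.ne.symm]
  have fS : ∀ X, X ∈ Rest X₁ X₂ → f' X = some (some (f X)) := by
    intro X hX
    simp only [f', if_neg hX.1, if_neg hX.2]
  have fn1 : ∀ X, X ≠ X₁ → f' X ≠ none := by
    intro X hX
    simp only [f', if_neg hX]
    split_ifs <;> simp
  have fn2 : ∀ X, X ≠ X₂ → f' X ≠ some none := by
    intro X hX
    simp only [f', if_neg hX]
    split_ifs <;> simp
  have h1 := H (Option (Option J)) f' ⟨X₁, X₂, by rw [fX1, fX2]; simp⟩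
  -- the edges
  have hE : {z : Sym2 V | ∃ u w, z = s(u, w) ∧ Cre G c Set.univ u w ∧ f' (c u) ≠ f' (c w)} =
      {z : Sym2 V | ∃ u w, z = s(u, w) ∧ Cre G c (Rest X₁ X₂) u w ∧ f (c u) ≠ f (c w)} ∪
        {s(x₁, y₁), s(x₁', x₂'), s(x₂, y₂)} := by
    ext z
    constructor
    · rintro ⟨u, w, rfl, ⟨ha, -, -, hne⟩, hf⟩
      by_cases hu1 : c u = X₁
      · right
        rcases h.o1 u w hu1 ha (fun e => hne (hu1.trans e.symm)) with ⟨rfl, rfl⟩ | ⟨rfl, rfl⟩
        · exact Or.inl rfl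
        · exact Or.inr (Or.inl rfl)
      by_cases hu2 : c u = X₂
      · right
        rcases h.o2 u w hu2 ha (fun e => hne (hu2.trans e.symm)) with ⟨rfl, rfl⟩ | ⟨rfl, rfl⟩
        · exact Or.inr (Or.inr rfl)
        · exact Or.inr (Or.inl Sym2.eq_swap)
      by_cases hw1 : c w = X₁
      · right
        rcases h.o1 w u hw1 ha.symm (fun e => hne (e.trans hw1.symm)) with ⟨rfl, rfl⟩ | ⟨rfl, rfl⟩
        · exact Or.inl Sym2.eq_swap
        · exact Or.inr (Or.inl Sym2.eq_swap)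
      by_cases hw2 : c w = X₂
      · right
        rcases h.o2 w u hw2 ha.symm (fun e => hne (e.trans hw2.symm)) with ⟨rfl, rfl⟩ | ⟨rfl, rfl⟩
        · exact Or.inr (Or.inr Sym2.eq_swap)
        · exact Or.inr (Or.inl rfl)
      left
      refine ⟨u, w, rfl, ⟨ha, ⟨hu1, hu2⟩, ⟨hw1, hw2⟩, hne⟩, fun e => hf ?_⟩
      rw [fS _ ⟨hu1, hu2⟩, fS _ ⟨hw1, hw2⟩, e]
    · rintro (⟨u, w, rfl, ⟨ha, hu, hw, hne⟩, hf⟩ | hz)
      · refine ⟨u, w, rfl, ⟨ha, trivial, trivial, hne⟩, ?_⟩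
        rw [fS _ hu, fS _ hw]
        simpa using hf
      · rcases hz with rfl | rfl | rfl
        · refine ⟨x₁, y₁, rfl, ⟨h.e1, trivial, trivial, ?_⟩, ?_⟩
          · rw [h.c1]
            exact h.n11.symm
          · rw [h.c1, fX1]
            exact (fn1 _ h.n11).symm
        · refine ⟨x₁', x₂', rfl, ⟨h.e0, trivial, trivial, ?_⟩, ?_⟩
          · rw [h.c1', h.c2']
            exact h.ne
          · rw [h.c1', h.c2', fX1, fX2]
            simp
        · refine ⟨x₂, y₂, rfl, ⟨h.e2, trivial, trivial, ?_⟩, ?_⟩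
          · rw [h.c2]
            exact h.n22.symm
          · rw [h.c2, fX2]
            exact (fn2 _ h.n22).symm
  have hdis : Disjoint
      {z : Sym2 V | ∃ u w, z = s(u, w) ∧ Cre G c (Rest X₁ X₂) u w ∧ f (c u) ≠ f (c w)}
        {s(x₁, y₁), s(x₁', x₂'), s(x₂, y₂)} := by
    rw [Set.disjoint_left]
    rintro z ⟨u, w, rfl, ⟨ha, hu, hw, hne⟩, hf⟩ hz
    have key : ∀ a b : V, s(u, w) = s(a, b) → (c a = X₁ ∨ c a = X₂) → False := by
      intro a b e hab
      rcases Sym2.eq_iff.1 e with ⟨rfl, rfl⟩ | ⟨rfl, rfl⟩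
      · rcases hab with hab | hab
        · exact hu.1 hab
        · exact hu.2 hab
      · rcases hab with hab | hab
        · exact hw.1 hab
        · exact hw.2 hab
    rcases hz with hz | hz | hz
    · exact key _ _ hz (Or.inl h.c1)
    · exact key _ _ hz (Or.inl h.c1')
    · exact key _ _ hz (Or.inr h.c2)
  have d1 : s(x₁, y₁) ≠ s(x₁', x₂') := by
    intro e
    rcases Sym2.eq_iff.1 e with ⟨-, e2⟩ | ⟨-, e2⟩
    · exact h.n12 (e2 ▸ h.c2')
    · exact h.n11 (e2 ▸ h.c1')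
  have d2 : s(x₁, y₁) ≠ s(x₂, y₂) := by
    intro e
    rcases Sym2.eq_iff.1 e with ⟨e1, -⟩ | ⟨e1, -⟩
    · exact h.ne (h.c1.symm.trans (e1 ▸ h.c2))
    · exact h.n21 (e1 ▸ h.c1)
  have d3 : s(x₁', x₂') ≠ s(x₂, y₂) := by
    intro e
    rcases Sym2.eq_iff.1 e with ⟨-, e2⟩ | ⟨e1, -⟩
    · exact h.n22 (e2 ▸ h.c2')
    · exact h.n21 (e1 ▸ h.c1')
  have h3 : ({s(x₁, y₁), s(x₁', x₂'), s(x₂, y₂)} : Set (Sym2 V)).ncard = 3 := by
    rw [Set.ncard_eq_toFinset_card']
    simp [d1, d2, d3]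
  have hef : ef G c Set.univ f' = ef G c (Rest X₁ X₂) f + 3 := by
    unfold ef
    rw [hE, Set.ncard_union_eq hdis (Set.toFinite _) (Set.toFinite _), h3]
  -- the image
  have him : f' '' Set.univ = insert none (insert (some none)
      ((fun j : J => (some (some j) : Option (Option J))) '' (f '' Rest X₁ X₂))) := by
    ext z
    constructor
    · rintro ⟨X, -, rfl⟩
      by_cases hX1 : X = X₁
      · left
        rw [hX1, fX1]
      by_cases hX2 : X = X₂
      · right; left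
        rw [hX2, fX2]
      right; right
      exact ⟨f X, ⟨X, ⟨hX1, hX2⟩, rfl⟩, (fS X ⟨hX1, hX2⟩).symm⟩
    · rintro (rfl | rfl | ⟨_, ⟨X, hX, rfl⟩, rfl⟩)
      · exact ⟨X₁, trivial, fX1⟩
      · exact ⟨X₂, trivial, fX2⟩
      · exact ⟨X, trivial, fS X hX⟩
  have hcard : (f' '' Set.univ).ncard = (f '' Rest X₁ X₂).ncard + 2 := by
    have hfin : (f '' Rest X₁ X₂).Finite := (Set.toFinite _).image _
    rw [him, Set.ncard_insert_of_notMem _ ((hfin.image _).insert _),
      Set.ncard_insert_of_notMem _ (hfin.image _), Set.ncard_image_of_injective]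
    · intro a b hab
      simpa using hab
    · rintro ⟨j, -, hj⟩
      simp at hj
    · rintro (hh | ⟨j, -, hj⟩)
      · simp at hh
      · simp at hj
  unfold sf at h1 ⊢
  rw [hef, hcard] at h1
  push_cast at h1
  linarith

end Pool.Agent.MPf1f412
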