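import Pool.Agent.Lib.MP_f1f412_co.Spec8
import Pool.Agent.Lib.MP_f1f412_co.Basic

/-!
# MP_f1f412_co (C34): differences inside a star (S_DPd)
-/

set_option autoImplicit false

namespace Pool.Agent.MPf1f412

open Matrix

theorem e8DPd (h1 : S_DZP) : S_DPd := by
  intro V K _ G c p S Y₁ Y₂ y hS hp hG hY1 hY2 hne hy hT
  by_cases hm : ∃ m, IsMot G c p S m ∧ m (c y) ≠ m Y₂
  · subst hy
    obtain ⟨w, -, -, h2⟩ := h1 V K G c p S hS hp hG y Y₂ hY1 hY2
      (fun m hm => hT _ ⟨m, hm, rfl⟩) hm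
    have h3 : Sp G c p S (c y) Y₂ ≤ Submodule.span ℝ {Ln (p y) (p w)} := by
      rintro t ⟨m, hm, rfl⟩
      obtain ⟨r, hr⟩ := h2 m hm
      rw [hr]
      exact Submodule.smul_mem _ _ (Submodule.mem_span_singleton_self _)
    exact (Submodule.finrank_mono h3).trans (finrank_span_le_card _ |>.trans (by simp))
  · have h3 : Sp G c p S Y₁ Y₂ = ⊥ := by
      rw [Submodule.eq_bot_iff]
      rintro t ⟨m, hm2, rfl⟩
      by_contra h4
      apply hm
      refine ⟨m, hm2, fun h5 => h4 ?_⟩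
      rw [hy] at h5
      rw [h5, sub_self]
    rw [h3, finrank_bot]
    exact Nat.zero_le 1

end Pool.Agent.MPf1f412
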