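import Pool.Agent.Lib.MP_f1f412_co.Spec8
import Pool.Agent.Lib.MP_f1f412_co.Basic

/-!
# MP_f1f412_co (C34): derivative of the Klein product with a line (S_E)
-/

set_option autoImplicit false

namespace Pool.Agent.MPf1f412

open Matrix

theorem e8E : S_E := by
  intro V p D x y t hxy hS
  have hy : D3 D (p y) = 0 := hS y (by simpa using hxy.symm)
  rw [D_kl, DT_Ln_left D hy, t5]
  ring

end Pool.Agent.MPf1f412
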