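import Pool.Agent.Lib.MP_f1f412_co.Spec8
import Pool.Agent.Lib.MP_f1f412_co.Basic

/-!
# MP_f1f412_co (C34): a stable subspace orthogonal to a line vanishes at the end (S_EV)
-/

set_option autoImplicit false

namespace Pool.Agent.MPf1f412

open Matrix

theorem e8EV (h1 : S_E) : S_EV := by
  intro V p T x y hp hxy hT hL t ht
  refine eq_zero_of_dot fun δ => ?_
  obtain ⟨D, hD, hδ⟩ := hp.exists_single x δ
  have h2 := h1 V p D x y t hxy hD
  rw [hL t ht, map_zero, hL _ (hT D hD t ht), hδ] at h2
  rw [dotProduct_comm]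
  linarith

end Pool.Agent.MPf1f412
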