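import Pool.Agent.Lib.MP_f1f412_co.Spec8
import Pool.Agent.Lib.MP_f1f412_co.Basic

/-!
# MP_f1f412_co (C34), section 8, LinE: the preimage of a line under a matrix
-/

set_option autoImplicit false

namespace Pool.Agent.MPf1f412

open Matrix

theorem e8LinE : S_LinE := by
  intro M n e h
  let N : Submodule ℝ R3 := Submodule.span ℝ {n}
  let F : R3 →ₗ[ℝ] (R3 ⧸ N) := N.mkQ ∘ₗ M.mulVecLin
  refine ⟨LinearMap.ker F, ?_, ?_⟩
  · have h1 : LinearMap.range F ≤ Submodule.span ℝ {N.mkQ e} := by
      rintro _ ⟨η, rfl⟩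
      obtain ⟨β, r, hβ⟩ := h η
      have e1 : F η = r • N.mkQ e := by
        show N.mkQ (M *ᵥ η) = _
        rw [hβ, map_add, map_smul, map_smul]
        have e2 : N.mkQ n = 0 := by
          rw [Submodule.mkQ_apply, Submodule.Quotient.mk_eq_zero]
          exact Submodule.mem_span_singleton_self n
        rw [e2, smul_zero, zero_add]
      rw [e1]
      exact Submodule.smul_mem _ _ (Submodule.mem_span_singleton_self _)
    have h2 : Module.finrank ℝ (LinearMap.range F) ≤ 1 := by
      refine (Submodule.finrank_mono h1).trans ?_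
      have h3 := finrank_span_le_card (R := ℝ) ({N.mkQ e} : Set (R3 ⧸ N))
      simpa using h3
    have h4 := LinearMap.finrank_range_add_finrank_ker F
    rw [Module.finrank_fin_fun] at h4
    omega
  · intro η hη
    have h5 : N.mkQ (M *ᵥ η) = 0 := hη
    rw [Submodule.mkQ_apply, Submodule.Quotient.mk_eq_zero] at h5
    obtain ⟨β, hβ⟩ := Submodule.mem_span_singleton.1 h5
    exact ⟨β, hβ.symm⟩

end Pool.Agent.MPf1f412
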