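import Pool.Agent.Lib.MP_f1f412_co.Spec8

/-!
# MP_f1f412_co (C34): 8.22 ND, two classes of degree two are not adjacent (assembly)
-/

set_option autoImplicit false

namespace Pool.Agent.MPf1f412

open Matrix

theorem e8ND (h1 : S_Cnt8) (h2 : S_D0r) (h3 : S_SpDim) (h4 : S_Sp0) (h5 : S_DPd) (h6 : S_bb)
    (h7 : S_ab) (h8 : S_aa) : S_ND := by
  intro V K _ G c p q g htri hgn hsurj hpl hmin htr hcnt X₁ X₂ x₁ x₁' x₂ x₂' y₁ y₂ had
  have hK : Finite K := Finite.of_surjective c hsurj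
  have hV : Fintype V := Fintype.ofFinite V
  have hY₁ : c y₁ ∈ Rest X₁ X₂ := ⟨had.n11, had.n12⟩
  have hY₂ : c y₂ ∈ Rest X₁ X₂ := ⟨had.n21, had.n22⟩
  have hnd : Nd G c p q g X₁ X₂ x₁ x₁' x₂ x₂' y₁ y₂ := ⟨htri, hgn, hsurj, hpl, hmin, htr, had⟩
  have hswap : Sp G c p (Rest X₁ X₂) (c y₂) (c y₁) = Sp G c p (Rest X₁ X₂) (c y₁) (c y₂) :=
    (h4 V K G c p (Rest X₁ X₂) (c y₂) (c y₁)).1
  have hrest : Rest X₂ X₁ = Rest X₁ X₂ := by
    ext Z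
    exact and_comm
  have hdim : Module.finrank ℝ (Sp G c p (Rest X₁ X₂) (c y₁) (c y₂)) ≤ 2 := by
    have h9 := (h2 V K G c p (Rest X₁ X₂) 2 (Set.toFinite _) hgn htri
      (fun J f => h1 V K G c X₁ X₂ x₁ x₁' x₂ x₂' y₁ y₂ had hcnt J f)).1
    have h10 := h3 V K G c p (Rest X₁ X₂) (c y₁) (c y₂) hY₁ hY₂
    omega
  have hne : Module.finrank ℝ (Sp G c p (Rest X₁ X₂) (c y₁) (c y₂)) = 2 → c y₁ ≠ c y₂ := by
    intro h heq
    have h9 := (h4 V K G c p (Rest X₁ X₂) (c y₁) (c y₁)).2.1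
    rw [← heq, h9, finrank_bot] at h
    omega
  have hd1 : Module.finrank ℝ (Sp G c p (Rest X₁ X₂) (c y₁) (c y₂)) = 2 →
      ∃ t ∈ Sp G c p (Rest X₁ X₂) (c y₁) (c y₂), ev t (p y₁) ≠ 0 := by
    intro h
    by_contra hno
    push Not at hno
    have h9 := h5 V K G c p (Rest X₁ X₂) (c y₁) (c y₂) y₁ (Set.toFinite _) hgn htri hY₁ hY₂
      (hne h) rfl hno
    omega
  have hd2 : Module.finrank ℝ (Sp G c p (Rest X₁ X₂) (c y₁) (c y₂)) = 2 →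
      ∃ t ∈ Sp G c p (Rest X₁ X₂) (c y₁) (c y₂), ev t (p y₂) ≠ 0 := by
    intro h
    by_contra hno
    push Not at hno
    rw [← hswap] at hno
    have h9 := h5 V K G c p (Rest X₁ X₂) (c y₂) (c y₁) y₂ (Set.toFinite _) hgn htri hY₂ hY₁
      (hne h).symm rfl hno
    rw [hswap] at h9
    omega
  by_cases hx : x₁ = x₁'
  · by_cases hx' : x₂ = x₂'
    · subst hx
      subst hx'
      exact h6 V K G c p q g X₁ X₂ x₁ x₂ y₁ y₂ hnd hdim
    · subst hx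
      have hnd' := hnd.symm
      refine h7 V K G c p q g X₂ X₁ x₂ x₂' x₁ y₂ y₁ hnd' hx' ?_ ?_
      · rw [hrest, hswap]
        exact hdim
      · rw [hrest, hswap]
        exact hd2
  · by_cases hx' : x₂ = x₂'
    · subst hx'
      exact h7 V K G c p q g X₁ X₂ x₁ x₁' x₂ y₁ y₂ hnd hx hdim hd1
    · exact h8 V K G c p q g X₁ X₂ x₁ x₁' x₂ x₂' y₁ y₂ hnd hx hx' hdim hd1 hd2

end Pool.Agent.MPf1f412
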