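import Pool.Agent.Lib.MP_f1f412_co.Spec8

/-!
# MP_f1f412_co (C34), Spec 8, `NDK` and `NDN`
-/

set_option autoImplicit false

namespace Pool.Agent.MPf1f412

private theorem D2.swap {V K : Type} {G : SimpleGraph V} {c : V → K} {X : K} {x y x' y' : V}
    (h : D2 G c X x y x' y') : D2 G c X x' y' x y :=
  ⟨h.cx', h.cx, h.cy', h.cy, h.cyy.symm, h.adj', h.adj, fun u w hu hw a => (h.all u w hu hw a).symm,
    fun e => ⟨fun v hv => ((h.one e.symm).1 v hv).trans e.symm, fun t ht =>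
      ((h.one e.symm).2 t (by rw [← e]; exact ht)).symm⟩⟩

private theorem main {V K : Type} {G : SimpleGraph V} {c : V → K}
    (hND : ∀ X₁ X₂ x₁ x₁' x₂ x₂' y₁ y₂, ¬ Adj2 G c X₁ X₂ x₁ x₁' x₂ x₂' y₁ y₂)
    {X₁ X₂ : K} {x y x' y' u v u' v' : V} (h1 : D2 G c X₁ x y x' y') (h2 : D2 G c X₂ u v u' v')
    (hne : X₁ ≠ X₂) {a b : V} (e1 : a = x' ∧ b = y') (e2 : b = u' ∧ a = v') : False := by
  obtain ⟨rfl, rfl⟩ := e1
  obtain ⟨rfl, rfl⟩ := e2
  refine hND X₁ X₂ x a u b y v ⟨hne, h1.cx, h1.cx', h2.cx, h2.cx', h1.adj, h1.adj', h2.adj, h1.cy,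
    ?_, ?_, h2.cy, fun s t hs hst ht => h1.all s t hs ht hst,
    fun s t hs hst ht => h2.all s t hs ht hst, fun e s hs => (h1.one e).1 s hs,
    fun e s hs => (h2.one e).1 s hs⟩
  · rw [← h2.cx']
    exact h1.cyy
  · rw [← h1.cx']
    exact h2.cyy

theorem e8NDK (h : S_ND) : S_NDK := by
  intro V K _ G c p q g he X₁ X₂ x y x' y' u v u' v' h1 h2 hne a b hab ha hb
  have hND := h V K G c p q g he.hyp.tri he.gn he.surj he.pl he.mp he.T he.cntK
  have k1 := h1.all a b ha (by rw [hb]; exact hne.symm) hab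
  have k2 := h2.all b a hb (by rw [ha]; exact hne) hab.symm
  rcases k1 with k1 | k1 <;> rcases k2 with k2 | k2
  · exact main hND h1.swap h2.swap hne k1 k2
  · exact main hND h1.swap h2 hne k1 k2
  · exact main hND h1 h2.swap hne k1 k2
  · exact main hND h1 h2 hne k1 k2

theorem e8NDN (h : S_NDK) : S_NDN := by
  intro V K N _ G c p q g π hN u w huw hne hu hw
  obtain ⟨X, x, y, x', y', hX, h1⟩ := hN.deg2 _ hu
  obtain ⟨Y, s, t, s', t', hY, h2⟩ := hN.deg2 _ hw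
  have e1 : c u = X := (hX _).1 rfl
  have e2 : c w = Y := (hY _).1 rfl
  exact h V K G c p q g hN.env X Y x y x' y' s t s' t' h1 h2
    (fun e => hne (by simp only [Function.comp_apply, e1, e2, e])) u w huw e1 e2

end Pool.Agent.MPf1f412
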