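import Pool.Agent.Lib.MP_f1f412_co.Spec8
import Pool.Agent.Lib.MP_f1f412_co.Basic

/-!
# MP_f1f412_co (C34), section 8, Perp: orthogonal complements for the Klein form
-/

set_option autoImplicit false

namespace Pool.Agent.MPf1f412

private theorem pp_eq (T : Submodule ℝ Tw) : pp T = klB.orthogonal T := by
  ext t
  rw [LinearMap.BilinForm.mem_orthogonal_iff]
  rfl

private theorem fin_tw : Module.finrank ℝ Tw = 6 := by
  rw [Module.finrank_prod, Module.finrank_fin_fun]

private theorem perpA (T : Submodule ℝ Tw) :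
    Module.finrank ℝ (pp T) + Module.finrank ℝ T = 6 := by
  rw [pp_eq, LinearMap.BilinForm.finrank_orthogonal klB_nondegenerate, fin_tw]
  have := Submodule.finrank_le T
  rw [fin_tw] at this
  omega

private theorem perpB (T : Submodule ℝ Tw) : pp (pp T) = T := by
  symm
  apply Submodule.eq_of_le_of_finrank_eq
  · intro t ht s hs
    rw [kl_symm]
    exact hs t ht
  · have h1 := perpA T
    have h2 := perpA (pp T)
    omega

theorem e8Perp : S_Perp := by
  refine ⟨perpA, perpB, ?_, ?_, ?_, ?_⟩
  · intro D T hT t ht s hs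
    have h1 : D (kl s t) = 0 := by rw [ht s hs, map_zero]
    rw [D_kl, ht _ (hT s hs), zero_add] at h1
    exact h1
  · intro D T T' hT hT' t ht
    obtain ⟨a, ha, b, hb, rfl⟩ := Submodule.mem_sup.1 ht
    rw [DT_add]
    exact Submodule.add_mem_sup (hT a ha) (hT' b hb)
  · intro D T T' hT hT' t ht
    exact ⟨hT t ht.1, hT' t ht.2⟩
  · intro V p D u w hu hw t ht
    obtain ⟨a, rfl⟩ := Submodule.mem_span_singleton.1 ht
    rw [DT_smul, DT_Ln_zero D hu hw, smul_zero, add_zero]
    exact Submodule.smul_mem _ _ (Submodule.mem_span_singleton_self _)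

end Pool.Agent.MPf1f412
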