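import Pool.Agent.Lib.MP_f1f412_co.Spec8
import Pool.Agent.Lib.MP_f1f412_co.Basic

/-!
# MP_f1f412_co (C34), 8.6 R1: the rotation/reflection lemma
-/

set_option autoImplicit false

namespace Pool.Agent.MPf1f412

open Matrix

private theorem e8R1_dot {A : Matrix (Fin 3) (Fin 3) ℝ} (hA : Aᵀ * A = 1) (x y : R3) :
    (A *ᵥ x) ⬝ᵥ (A *ᵥ y) = x ⬝ᵥ y := by
  rw [Matrix.dotProduct_mulVec, ← Matrix.mulVec_transpose, Matrix.mulVec_mulVec, hA,
    Matrix.one_mulVec]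

private theorem e8R1_nn {n : R3} (hn : n ≠ 0) : n ⬝ᵥ n ≠ 0 := fun h => hn (dot_self_eq_zero h)

/-- the reflection -/
private theorem e8R1_Rn (n x : R3) : Rn n *ᵥ x = x - (2 / (n ⬝ᵥ n) * (n ⬝ᵥ x)) • n := by
  unfold Rn
  rw [Matrix.sub_mulVec, Matrix.one_mulVec, Matrix.smul_mulVec]
  congr 1
  apply r3_ext <;>
    simp [Matrix.mulVec, dotProduct, Fin.sum_univ_three, vecMulVec_apply] <;> ring

private theorem e8R1_symm (n : R3) : (Rn n)ᵀ = Rn n := by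
  unfold Rn
  rw [Matrix.transpose_sub, Matrix.transpose_one, Matrix.transpose_smul]
  congr 2
  ext i j
  rw [Matrix.transpose_apply, vecMulVec_apply, vecMulVec_apply, mul_comm]

private theorem e8R1_ext {M N : Matrix (Fin 3) (Fin 3) ℝ} (h : ∀ x : R3, M *ᵥ x = N *ᵥ x) :
    M = N := by
  ext i j
  have h1 := congrFun (h (Pi.single j 1)) i
  simpa using h1

private theorem e8R1_invol {n : R3} (hn : n ≠ 0) (x : R3) : Rn n *ᵥ (Rn n *ᵥ x) = x := by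
  have h := e8R1_nn hn
  rw [e8R1_Rn n (Rn n *ᵥ x), e8R1_Rn n x, dotProduct_sub, dotProduct_smul, smul_eq_mul]
  have h2 : 2 / (n ⬝ᵥ n) * (n ⬝ᵥ x - 2 / (n ⬝ᵥ n) * (n ⬝ᵥ x) * (n ⬝ᵥ n)) =
      - (2 / (n ⬝ᵥ n) * (n ⬝ᵥ x)) := by
    field_simp
    ring
  rw [h2, neg_smul]
  abel

private theorem e8R1_sq {n : R3} (hn : n ≠ 0) : Rn n * Rn n = 1 := by
  refine e8R1_ext fun x => ?_
  rw [← Matrix.mulVec_mulVec, e8R1_invol hn, Matrix.one_mulVec]

/-- the two cases -/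
private theorem e8R1_two {C : Matrix (Fin 3) (Fin 3) ℝ} {n : R3} (hC : Cᵀ * C = 1) (hn : n ≠ 0)
    (F : Submodule ℝ R3) (hF : ∀ x ∈ F, ∃ r : ℝ, Cᵀ *ᵥ x - x = r • n) :
    (∀ x ∈ F, Cᵀ *ᵥ x = x) ∨ ∀ x ∈ F, Cᵀ *ᵥ x = Rn n *ᵥ x := by
  have hC' : C * Cᵀ = 1 := mul_eq_one_comm.1 hC
  have hC2 : (Cᵀ)ᵀ * Cᵀ = 1 := by rw [Matrix.transpose_transpose]; exact hC'
  have hnn := e8R1_nn hn
  -- the two linear forms
  have key : ∀ x ∈ F, (Cᵀ *ᵥ x - x) ⬝ᵥ n = 0 ∨ 2 * (n ⬝ᵥ x) + (Cᵀ *ᵥ x - x) ⬝ᵥ n = 0 := by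
    intro x hx
    obtain ⟨r, hr⟩ := hF x hx
    have h1 := e8R1_dot hC2 x x
    have h2 : Cᵀ *ᵥ x = x + r • n := by rw [← hr]; abel
    rw [h2, add_dotProduct, dotProduct_add, dotProduct_add, smul_dotProduct, smul_dotProduct,
      dotProduct_smul, dotProduct_smul, dotProduct_comm x n] at h1
    simp only [smul_eq_mul] at h1
    rw [hr, smul_dotProduct, smul_eq_mul]
    have h3 : r * (2 * (n ⬝ᵥ x) + r * (n ⬝ᵥ n)) = 0 := by linarith
    rcases mul_eq_zero.1 h3 with h4 | h4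
    · left
      rw [h4, zero_mul]
    · exact Or.inr h4
  have hcases : (∀ x ∈ F, (Cᵀ *ᵥ x - x) ⬝ᵥ n = 0) ∨
      ∀ x ∈ F, 2 * (n ⬝ᵥ x) + (Cᵀ *ᵥ x - x) ⬝ᵥ n = 0 := by
    by_contra hcon
    push Not at hcon
    obtain ⟨⟨x, hx, hx'⟩, y, hy, hy'⟩ := hcon
    have h1 := (key x hx).resolve_left hx'
    have h2 := (key y hy).resolve_right hy'
    have h3 : (Cᵀ *ᵥ (x + y) - (x + y)) ⬝ᵥ n = (Cᵀ *ᵥ x - x) ⬝ᵥ n + (Cᵀ *ᵥ y - y) ⬝ᵥ n := by
      rw [← add_dotProduct, Matrix.mulVec_add]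
      congr 1
      abel
    rcases key (x + y) (F.add_mem hx hy) with h4 | h4
    · rw [h3, h2, add_zero] at h4
      exact hx' h4
    · rw [h3, dotProduct_add] at h4
      apply hy'
      linarith
  rcases hcases with h | h
  · left
    intro x hx
    obtain ⟨r, hr⟩ := hF x hx
    have h1 := h x hx
    rw [hr, smul_dotProduct, smul_eq_mul] at h1
    have h2 : r = 0 := (mul_eq_zero.1 h1).resolve_right hnn
    rw [h2, zero_smul] at hr
    exact sub_eq_zero.1 hr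
  · right
    intro x hx
    obtain ⟨r, hr⟩ := hF x hx
    have h1 := h x hx
    rw [hr, smul_dotProduct, smul_eq_mul] at h1
    have h2 : r = - (2 / (n ⬝ᵥ n) * (n ⬝ᵥ x)) := by
      field_simp
      linarith
    have h4 : Cᵀ *ᵥ x = x + r • n := by rw [← hr]; abel
    rw [h4, e8R1_Rn, h2, neg_smul, sub_eq_add_neg]

/-- two independent vectors -/
private theorem e8R1_pair (F : Submodule ℝ R3) (hF : 2 ≤ Module.finrank ℝ F) :
    ∃ a ∈ F, ∃ b ∈ F, cr a b ≠ 0 := by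
  by_contra hcon
  push Not at hcon
  have h0 : ∃ a ∈ F, a ≠ 0 := by
    by_contra h
    push Not at h
    have h1 : F = ⊥ := by
      rw [Submodule.eq_bot_iff]
      exact h
    rw [h1, finrank_bot] at hF
    omega
  obtain ⟨a, ha, ha0⟩ := h0
  have h1 : Module.finrank ℝ F ≤ 1 := by
    refine finrank_le_one (⟨a, ha⟩ : F) fun w => ?_
    obtain ⟨t, ht⟩ := par_of_cr ha0 (hcon a ha w.1 w.2)
    exact ⟨t, Subtype.ext ht.symm⟩
  omega

private theorem e8R1_basis (a b x : R3) : (cr a b ⬝ᵥ cr a b) • x =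
    (x ⬝ᵥ cr a b) • cr a b + ((x ⬝ᵥ a) * (b ⬝ᵥ b) - (x ⬝ᵥ b) * (a ⬝ᵥ b)) • a +
      ((x ⬝ᵥ b) * (a ⬝ᵥ a) - (x ⬝ᵥ a) * (a ⬝ᵥ b)) • b := by
  apply r3_ext <;>
    simp only [Pi.smul_apply, Pi.add_apply, smul_eq_mul, dot_eq, cr_zero, cr_one, cr_two] <;> ring

/-- orthogonal matrices with two fixed vectors -/
private theorem e8R1_fix {C : Matrix (Fin 3) (Fin 3) ℝ} (hC : Cᵀ * C = 1) {F : Submodule ℝ R3}
    (hF : 2 ≤ Module.finrank ℝ F) (h : ∀ x ∈ F, C *ᵥ x = x) :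
    C = 1 ∨ ∃ ν : R3, ν ≠ 0 ∧ C = Rn ν := by
  obtain ⟨a, ha, b, hb, hab⟩ := e8R1_pair F hF
  set ν : R3 := cr a b with hν
  have hνν := e8R1_nn hab
  have hνa : ν ⬝ᵥ a = 0 := by rw [dotProduct_comm]; exact dot_cr_self a b
  have hνb : ν ⬝ᵥ b = 0 := by rw [dotProduct_comm]; exact dot_cr_self' a b
  have h1 : (C *ᵥ ν) ⬝ᵥ a = 0 := by
    have := e8R1_dot hC ν a
    rw [h a ha, hνa] at this
    exact this
  have h2 : (C *ᵥ ν) ⬝ᵥ b = 0 := by
    have := e8R1_dot hC ν b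
    rw [h b hb, hνb] at this
    exact this
  obtain ⟨κ, hκ⟩ : ∃ κ : ℝ, C *ᵥ ν = κ • ν := by
    refine par_of_cr hab ?_
    rw [cr_anti, hν, cr_cr, ← hν, h2, h1, zero_smul, zero_smul, sub_zero, neg_zero]
  have h3 := e8R1_dot hC ν ν
  rw [hκ, smul_dotProduct, dotProduct_smul, smul_eq_mul, smul_eq_mul] at h3
  have h4 : (κ - 1) * (κ + 1) = 0 := by
    have h5 : (κ * κ - 1) * (ν ⬝ᵥ ν) = 0 := by linarith
    rcases mul_eq_zero.1 h5 with h6 | h6
    · linarith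
    · exact absurd h6 hνν
  have hext : ∀ N : Matrix (Fin 3) (Fin 3) ℝ, N *ᵥ a = a → N *ᵥ b = b → N *ᵥ ν = κ • ν →
      C = N := by
    intro N hNa hNb hNν
    refine e8R1_ext fun x => ?_
    have h5 := congrArg (fun y => C *ᵥ y) (e8R1_basis a b x)
    have h6 := congrArg (fun y => N *ᵥ y) (e8R1_basis a b x)
    simp only [Matrix.mulVec_add, Matrix.mulVec_smul] at h5 h6
    rw [← hν] at h5 h6
    rw [h a ha, h b hb, hκ] at h5
    rw [hNa, hNb, hNν] at h6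
    have h7 : (ν ⬝ᵥ ν) • (C *ᵥ x) = (ν ⬝ᵥ ν) • (N *ᵥ x) := by rw [h5, h6]
    exact smul_right_injective _ hνν h7
  rcases mul_eq_zero.1 h4 with h5 | h5
  · left
    have h6 : κ = 1 := by linarith
    refine hext 1 (Matrix.one_mulVec _) (Matrix.one_mulVec _) ?_
    rw [Matrix.one_mulVec, h6, one_smul]
  · right
    have h6 : κ = -1 := by linarith
    refine ⟨ν, hab, hext _ ?_ ?_ ?_⟩
    · rw [e8R1_Rn, hνa, mul_zero, zero_smul, sub_zero]
    · rw [e8R1_Rn, hνb, mul_zero, zero_smul, sub_zero]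
    · rw [e8R1_Rn, div_mul_cancel₀ _ hνν, h6, neg_one_smul, two_smul]
      abel

theorem e8R1 : S_R1 := by
  intro C n hC hn
  have hC' : C * Cᵀ = 1 := mul_eq_one_comm.1 hC
  refine ⟨fun F hF hx => ?_, fun hx => ?_⟩
  · rcases e8R1_two hC hn F hx with h | h
    · refine ⟨C, Or.inl rfl, e8R1_fix hC hF fun x hxF => ?_⟩
      have h1 := congrArg (fun y => C *ᵥ y) (h x hxF)
      simp only [Matrix.mulVec_mulVec, hC', Matrix.one_mulVec] at h1
      exact h1.symm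
    · refine ⟨C * Rn n, Or.inr rfl, e8R1_fix ?_ hF fun x hxF => ?_⟩
      · rw [Matrix.transpose_mul, e8R1_symm]
        calc Rn n * Cᵀ * (C * Rn n) = Rn n * (Cᵀ * C) * Rn n := by
              simp only [Matrix.mul_assoc]
          _ = 1 := by rw [hC, Matrix.mul_one, e8R1_sq hn]
      · have h1 := h x hxF
        have h2 := congrArg (fun y => C *ᵥ y) h1
        simp only [Matrix.mulVec_mulVec, hC', Matrix.one_mulVec] at h2
        exact h2.symm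
  · rcases e8R1_two hC hn ⊤ (fun x _ => hx x) with h | h
    · left
      have h1 : Cᵀ = 1 := e8R1_ext fun x => by
        rw [h x Submodule.mem_top, Matrix.one_mulVec]
      rw [← Matrix.transpose_transpose C, h1, Matrix.transpose_one]
    · right
      have h1 : Cᵀ = Rn n := e8R1_ext fun x => h x Submodule.mem_top
      rw [← Matrix.transpose_transpose C, h1, e8R1_symm]

end Pool.Agent.MPf1f412
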