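import Pool.Agent.Lib.MP_f1f412_co.Spec8
import Pool.Agent.Lib.MP_f1f412_co.Basic

/-!
# MP_f1f412_co (C34), section 8, R2: the reflected isometry
-/

set_option autoImplicit false

namespace Pool.Agent.MPf1f412

open Matrix

private theorem Rn_sq {n : R3} (hn : n ≠ 0) : Rn n * Rn n = 1 := by
  have hnn : n ⬝ᵥ n ≠ 0 := fun h => hn (dot_self_eq_zero h)
  unfold Rn
  rw [sub_mul, one_mul, mul_sub, mul_one, smul_mul_smul_comm, vecMulVec_mul_vecMulVec,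
    vecMulVec_smul, smul_smul]
  have e : 2 / (n ⬝ᵥ n) * (2 / (n ⬝ᵥ n)) * (n ⬝ᵥ n) = 2 / (n ⬝ᵥ n) + 2 / (n ⬝ᵥ n) := by
    field_simp
    ring
  rw [e, add_smul]
  abel

private theorem Rn_symm (n : R3) : (Rn n)ᵀ = Rn n := by
  unfold Rn
  rw [transpose_sub, transpose_one, transpose_smul, transpose_vecMulVec]

private theorem Rn_fix {n y : R3} (h : n ⬝ᵥ y = 0) : Rn n *ᵥ y = y := by
  unfold Rn
  rw [sub_mulVec, one_mulVec, smul_mulVec, vecMulVec_mulVec, h]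
  simp

theorem e8R2 : S_R2 := by
  intro g w a b hn
  set n := cr (b - w) (a - w) with hndef
  have ho : (g.A * Rn n)ᵀ * (g.A * Rn n) = 1 := by
    rw [transpose_mul, Matrix.mul_assoc, ← Matrix.mul_assoc g.Aᵀ, g.orth, one_mul, Rn_symm,
      Rn_sq hn]
  let g' : Iso3 := ⟨g.A * Rn n, g.A *ᵥ w + g.b - (g.A * Rn n) *ᵥ w, ho⟩
  have key : ∀ x : R3, n ⬝ᵥ (x - w) = 0 → g'.ap x = g.ap x := by
    intro x hx
    show (g.A * Rn n) *ᵥ x + (g.A *ᵥ w + g.b - (g.A * Rn n) *ᵥ w) = g.A *ᵥ x + g.b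
    have e1 : (g.A * Rn n) *ᵥ x - (g.A * Rn n) *ᵥ w = g.A *ᵥ x - g.A *ᵥ w := by
      rw [← mulVec_sub, ← mulVec_sub, ← mulVec_mulVec, Rn_fix hx]
    have e2 : (g.A * Rn n) *ᵥ x + (g.A *ᵥ w + g.b - (g.A * Rn n) *ᵥ w) =
        ((g.A * Rn n) *ᵥ x - (g.A * Rn n) *ᵥ w) + g.A *ᵥ w + g.b := by abel
    rw [e2, e1]
    abel
  refine ⟨g', rfl, key w ?_, key a ?_, key b ?_⟩
  · rw [sub_self, dotProduct_zero]
  · rw [dotProduct_comm, hndef, dot_cr_self']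
  · rw [dotProduct_comm, hndef, dot_cr_self]

end Pool.Agent.MPf1f412
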