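import Pool.Agent.Lib.MP_f1f412_co.Spec8

/-!
# MP_f1f412_co (C34): 8.2 SpDim, the dimension of the space of differences
-/

set_option autoImplicit false

namespace Pool.Agent.MPf1f412

open Matrix

theorem e8SpDim : S_SpDim := by
  intro V K _ G c p S X Y hX hY
  have hfin : Module.Finite ℝ (K → Tw) := Module.Finite.pi
  have h6 : Module.finrank ℝ Tw = 6 := by
    rw [Module.finrank_prod, Module.finrank_fin_fun]
  let L : (Mot G c p S) →ₗ[ℝ] Tw :=
    ((LinearMap.proj X : (K → Tw) →ₗ[ℝ] Tw) - LinearMap.proj Y) ∘ₗ (Mot G c p S).subtype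
  have hL : ∀ m : Mot G c p S, L m = m.1 X - m.1 Y := fun m => rfl
  -- the range
  have hrange : Sp G c p S X Y ≤ LinearMap.range L := by
    rintro t ⟨m, hm, rfl⟩
    refine ⟨⟨S.indicator m, ?_, ?_⟩, ?_⟩
    · intro u w h
      obtain ⟨t, ht⟩ := hm u w h
      refine ⟨t, ?_⟩
      rw [Set.indicator_of_mem h.2.1, Set.indicator_of_mem h.2.2.1]
      exact ht
    · intro Z hZ
      exact Set.indicator_of_notMem hZ _
    · rw [hL]
      show S.indicator m X - S.indicator m Y = _
      rw [Set.indicator_of_mem hX, Set.indicator_of_mem hY]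
  -- the kernel
  have hmem : ∀ n : Tw, S.indicator (fun _ => n) ∈ Mot G c p S := by
    intro n
    refine ⟨?_, ?_⟩
    · intro u w h
      refine ⟨0, ?_⟩
      rw [Set.indicator_of_mem h.2.1, Set.indicator_of_mem h.2.2.1]
      simp
    · intro Z hZ
      exact Set.indicator_of_notMem hZ _
  let ι : Tw →ₗ[ℝ] (LinearMap.ker L) :=
    { toFun := fun n => ⟨⟨S.indicator (fun _ => n), hmem n⟩, by
        rw [LinearMap.mem_ker, hL]
        show S.indicator (fun _ => n) X - S.indicator (fun _ => n) Y = 0
        rw [Set.indicator_of_mem hX, Set.indicator_of_mem hY, sub_self]⟩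
      map_add' := by
        intro a b
        apply Subtype.ext
        apply Subtype.ext
        show S.indicator (fun _ => a + b) = S.indicator (fun _ => a) + S.indicator (fun _ => b)
        exact Set.indicator_add S (fun _ => a) (fun _ => b)
      map_smul' := by
        intro r a
        apply Subtype.ext
        apply Subtype.ext
        show S.indicator (fun _ => r • a) = r • S.indicator (fun _ => a)
        exact Set.indicator_const_smul S r (fun _ => a) }
  have hι : Function.Injective ι := by
    intro a b hab
    have h5 : S.indicator (fun _ => a) X = S.indicator (fun _ => b) X := by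
      have h7 : ((ι a).1.1 : K → Tw) = (ι b).1.1 := by rw [hab]
      exact congrFun h7 X
    rw [Set.indicator_of_mem hX, Set.indicator_of_mem hX] at h5
    exact h5
  have h7 := LinearMap.finrank_le_finrank_of_injective hι
  have h8 := LinearMap.finrank_range_add_finrank_ker L
  have h9 := Submodule.finrank_mono hrange
  have h10 : dmo G c p S = Module.finrank ℝ (Mot G c p S) := rfl
  omega

end Pool.Agent.MPf1f412
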