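import Pool.Agent.Lib.MP_f1f412_co.Spec8
import Pool.Agent.Lib.MP_f1f412_co.Basic

set_option autoImplicit false

namespace Pool.Agent.MPf1f412

open Matrix

private theorem e8TwoIso_dsq (g : Iso3) (x y : R3) : dsq (g.ap x) (g.ap y) = dsq x y := by
  have h1 : g.ap x - g.ap y = g.A *ᵥ (x - y) := by
    unfold Iso3.ap
    rw [Matrix.mulVec_sub]
    abel
  unfold dsq
  rw [h1, Matrix.dotProduct_mulVec, ← Matrix.mulVec_transpose, Matrix.mulVec_mulVec, g.orth,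
    Matrix.one_mulVec]

private theorem e8TwoIso_Rn (n x : R3) :
    Rn n *ᵥ x = x - (2 / (n ⬝ᵥ n) * (n ⬝ᵥ x)) • n := by
  unfold Rn
  rw [Matrix.sub_mulVec, Matrix.one_mulVec, Matrix.smul_mulVec, mul_smul]
  congr 2
  ext i
  simp [Matrix.mulVec, dotProduct, Matrix.vecMulVec_apply, Fin.sum_univ_three]
  ring

theorem e8TwoIso : S_TwoIso := by
  intro g₁ g₂ v w y hv hd hC
  have ho : g₁.A * g₁.Aᵀ = 1 := mul_eq_one_comm.1 g₁.orth
  have hA : g₂.A = g₁.A * (g₁.Aᵀ * g₂.A) := by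
    rw [← Matrix.mul_assoc, ho, Matrix.one_mul]
  obtain ⟨C, hCd⟩ : ∃ C, C = g₁.Aᵀ * g₂.A := ⟨_, rfl⟩
  rw [← hCd] at hC hA
  -- `g₂ x = g₁ (v + C (x - v))`
  have hx : ∀ x, g₂.ap x = g₁.ap (v + C *ᵥ (x - v)) := by
    intro x
    have e1 : g₂.ap x = g₂.A *ᵥ (x - v) + g₂.ap v := by
      unfold Iso3.ap
      rw [Matrix.mulVec_sub]
      abel
    have e2 : g₁.ap (v + C *ᵥ (x - v)) = g₁.A *ᵥ (C *ᵥ (x - v)) + g₁.ap v := by
      unfold Iso3.ap
      rw [Matrix.mulVec_add]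
      abel
    rw [e1, e2, hv, Matrix.mulVec_mulVec, ← hA]
  rcases hC with hC | ⟨ν, hν, hC⟩
  · left
    rw [hC, Matrix.mul_one] at hA
    have hb : g₁.b = g₂.b := by
      unfold Iso3.ap at hv
      rw [hA] at hv
      exact add_left_cancel hv
    cases g₁
    cases g₂
    simp only at hA hb
    subst hA
    subst hb
    rfl
  · right
    have hN : ν ⬝ᵥ ν ≠ 0 := fun h => hν (dot_self_eq_zero h)
    obtain ⟨κ, hκ⟩ : ∃ κ, κ = 2 / (ν ⬝ᵥ ν) * (ν ⬝ᵥ (w - v)) := ⟨_, rfl⟩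
    have hκN : κ * (ν ⬝ᵥ ν) = 2 * (ν ⬝ᵥ (w - v)) := by
      rw [hκ]
      field_simp
    have hw : g₂.ap w = g₁.ap (w - κ • ν) := by
      rw [hx, hC, e8TwoIso_Rn, ← hκ]
      congr 1
      abel
    rw [hw, e8TwoIso_dsq] at hd
    have hkey : κ * (ν ⬝ᵥ (y - v)) = 0 := by
      unfold dsq at hd
      rw [dot_eq, dot_eq] at hd
      rw [dot_eq, dot_eq] at hκN
      rw [dot_eq]
      simp only [Pi.sub_apply, Pi.smul_apply, smul_eq_mul] at hd hκN ⊢
      linear_combination hd / 2 - κ / 2 * hκN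
    rcases mul_eq_zero.1 hkey with h | h
    · left
      rw [hw, h, zero_smul, sub_zero]
    · right
      rw [hx, hC, e8TwoIso_Rn, h, mul_zero, zero_smul, sub_zero]
      congr 1
      abel

end Pool.Agent.MPf1f412
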