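import Pool.Agent.Lib.MP_f1f412_co.Spec8
import Pool.Agent.Lib.MP_f1f412_co.Basic

/-!
# MP_f1f412_co (C34), 8.20: case (aa)
-/

set_option autoImplicit false

namespace Pool.Agent.MPf1f412

open Matrix

theorem e8aa (h1 : S_aaL) (h2 : S_Sp0) (h3 : S_T0) : S_aa := by
  classical
  intro V K _ G c p q g X₁ X₂ x₁ x₁' x₂ x₂' y₁ y₂ hN hx1 hx2 hdim hd1 hd2
  have hA := hN.ad
  set S : Set K := Rest X₁ X₂ with hS
  have nS1 : ∀ u, c u = X₁ → c u ∉ S := fun u hu h => h.1 hu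
  have nS2 : ∀ u, c u = X₂ → c u ∉ S := fun u hu h => h.2 hu
  have n12 : ∀ u w, c u = X₁ → c w = X₂ → u ≠ w := by
    rintro u w hu hw rfl
    exact hA.ne (hu.symm.trans hw)
  have ny1 : ∀ u, c u = X₁ → y₁ ≠ u := by
    rintro u hu rfl
    exact hA.n11 hu
  have ny1' : ∀ u, c u = X₂ → y₁ ≠ u := by
    rintro u hu rfl
    exact hA.n12 hu
  have ny2 : ∀ u, c u = X₁ → y₂ ≠ u := by
    rintro u hu rfl
    exact hA.n21 hu
  have ny2' : ∀ u, c u = X₂ → y₂ ≠ u := by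
    rintro u hu rfl
    exact hA.n22 hu
  have hAA : AA p (Sp G c p S (c y₁) (c y₂)) x₁ x₁' x₂ x₂' y₁ y₂ := by
    refine ⟨hN.gn, ?_, ?_, ?_, ?_, hdim, ?_, hd1, hd2⟩
    · simp only [List.nodup_cons, List.mem_cons, List.not_mem_nil, or_false, not_or,
        not_false_eq_true, List.nodup_nil, and_true]
      exact ⟨⟨hx1, n12 _ _ hA.c1 hA.c2, n12 _ _ hA.c1 hA.c2'⟩,
        ⟨n12 _ _ hA.c1' hA.c2, n12 _ _ hA.c1' hA.c2'⟩, hx2⟩
    · simp only [List.mem_cons, List.not_mem_nil, or_false, not_or]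
      exact ⟨ny1 _ hA.c1, ny1 _ hA.c1', ny1' _ hA.c2, ny1' _ hA.c2'⟩
    · simp only [List.mem_cons, List.not_mem_nil, or_false, not_or]
      exact ⟨ny2 _ hA.c1, ny2 _ hA.c1', ny2' _ hA.c2, ny2' _ hA.c2'⟩
    · intro D hD
      refine (h2 V K G c p S (c y₁) (c y₂)).2.2 D _ hD ?_
      intro u hu w hcre
      rcases hu with rfl | rfl | rfl | rfl
      · exact nS1 _ hA.c1 hcre.2.1
      · exact nS1 _ hA.c1' hcre.2.1
      · exact nS2 _ hA.c2 hcre.2.1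
      · exact nS2 _ hA.c2' hcre.2.1
    · rintro rfl
      exact (h2 V K G c p S (c y₁) (c y₁)).2.1
  have pin1 : ∀ v, Pin G c (c v) v := fun v => ⟨v, rfl, Or.inl rfl⟩
  have pin2 : ∀ u v, G.Adj v u → Pin G c (c v) u := fun u v h => ⟨v, rfl, Or.inr h⟩
  have px11 : Pin G c X₁ x₁' := ⟨x₁', hA.c1', Or.inl rfl⟩
  have px12 : Pin G c X₂ x₁' := ⟨x₂', hA.c2', Or.inr hA.e0.symm⟩
  have px21 : Pin G c X₁ x₂' := ⟨x₁', hA.c1', Or.inr hA.e0⟩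
  have px22 : Pin G c X₂ x₂' := ⟨x₂', hA.c2', Or.inl rfl⟩
  refine h1 V p _ x₁ x₁' x₂ x₂' y₁ y₂ ((g X₁).B - (g X₂).B) hAA
    (sub_ne_zero.2 (h3 V K G p q c g hN.surj hN.pl hN.mn X₁ X₂ x₁' hA.ne px11 px12)) ?_
  intro η₁ η₂
  obtain ⟨m, hm⟩ := hN.tr (fun u => if u = x₁' then η₁ else if u = x₂' then η₂ else 0)
  have hm0 : ∀ X Y u, u ≠ x₁' → u ≠ x₂' → Pin G c X u → Pin G c Y u →
      ev (m X - m Y) (p u) = 0 := by
    intro X Y u hu hu' hX hY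
    rw [hm X Y u hX hY, if_neg hu, if_neg hu', mulVec_zero]
  have hedge : ∀ u w, G.Adj u w → u ≠ x₁' → u ≠ x₂' → w ≠ x₁' → w ≠ x₂' →
      ∃ t : ℝ, m (c u) - m (c w) = t • Ln (p u) (p w) := by
    intro u w huw hu hu' hw hw'
    exact t1 (hN.gn.inj huw.ne) (hm0 _ _ u hu hu' (pin1 u) (pin2 u w huw.symm))
      (hm0 _ _ w hw hw' (pin2 w u huw) (pin1 w))
  have hmot : IsMot G c p S m := by
    rintro u w ⟨huw, hu, hw, -⟩
    refine hedge u w huw ?_ ?_ ?_ ?_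
    · rintro rfl
      exact nS1 _ hA.c1' hu
    · rintro rfl
      exact nS2 _ hA.c2' hu
    · rintro rfl
      exact nS1 _ hA.c1' hw
    · rintro rfl
      exact nS2 _ hA.c2' hw
  obtain ⟨a, ha⟩ := hedge x₁ y₁ hA.e1 hx1 (n12 _ _ hA.c1 hA.c2') (ny1 _ hA.c1') (ny1' _ hA.c2')
  obtain ⟨b, hb⟩ := hedge x₂ y₂ hA.e2 (n12 _ _ hA.c1' hA.c2).symm hx2 (ny2 _ hA.c1')
    (ny2' _ hA.c2')
  rw [hA.c1] at ha
  rw [hA.c2] at hb
  refine ⟨m X₁ - m X₂, ?_, ?_, ?_⟩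
  · have e1 : m X₁ - m X₂ = (m (c y₁) - m (c y₂)) +
        (a • Ln (p x₁) (p y₁) + (-b) • Ln (p x₂) (p y₂)) := by
      rw [neg_smul, ← ha, ← hb]
      abel
    rw [e1]
    refine Submodule.add_mem_sup ⟨m, hmot, rfl⟩ ?_
    refine Submodule.add_mem _ (Submodule.smul_mem _ _ (Submodule.subset_span ?_))
      (Submodule.smul_mem _ _ (Submodule.subset_span ?_))
    · exact Or.inl rfl
    · exact Or.inr rfl
  · rw [hm X₁ X₂ x₁' px11 px12, if_pos rfl]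
  · rw [hm X₁ X₂ x₂' px21 px22, if_neg (n12 _ _ hA.c1' hA.c2').symm, if_pos rfl]

end Pool.Agent.MPf1f412
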