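import Pool.Agent.Lib.MP_f1f412_co.Spec8
import Pool.Agent.Lib.MP_f1f412_co.Basic

/-!
# MP_f1f412_co (C34), section 8, aa1: case (aa), dimension four
-/

set_option autoImplicit false

namespace Pool.Agent.MPf1f412

open Matrix

private theorem fin_span1 (a : Tw) : Module.finrank ℝ (Submodule.span ℝ {a}) ≤ 1 := by
  have h := finrank_span_le_card (R := ℝ) ({a} : Set Tw)
  simpa using h

theorem e8aa1 (h1 : S_Cover) (h2 : S_Perp) : S_aa1 := by
  intro V p T x₁ x₁' x₂ x₂' y₁ y₂ hA t ht ht0 hev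
  obtain ⟨_, _, _, hsup, _, hsp⟩ := h2
  have hnd := hA.nd
  have hy1 := hA.y1
  have hy2 := hA.y2
  simp only [List.nodup_cons, List.mem_cons, List.not_mem_nil, or_false, not_or,
    List.nodup_nil, and_true, not_false_eq_true] at hnd hy1 hy2
  obtain ⟨⟨n1, n2, n3⟩, ⟨n4, n5⟩, n6⟩ := hnd
  obtain ⟨a1, a2, a3, a4⟩ := hy1
  obtain ⟨b1, b2, b3, b4⟩ := hy2
  have hTT : TT p T x₁ x₂ y₁ y₂ = T ⊔ (Submodule.span ℝ {Ln (p x₁) (p y₁)} ⊔
      Submodule.span ℝ {Ln (p x₂) (p y₂)}) := by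
    unfold TT
    rw [Submodule.span_insert]
  have hst : ∀ D, Spt p D {x₂'} → DSt D (TT p T x₁ x₂ y₁ y₂) := by
    intro D hD
    have h0 : ∀ u, u ≠ x₂' → D3 D (p u) = 0 := fun u hu => hD u (by simpa using hu)
    rw [hTT]
    refine hsup D _ _ (hA.st D fun u hu => h0 u fun h => hu (by simp [h])) ?_
    exact hsup D _ _ (hsp V p D _ _ (h0 _ n3) (h0 _ a4)) (hsp V p D _ _ (h0 _ n6) (h0 _ b4))
  obtain ⟨hc1, hc2⟩ := h1 V p x₂' (TT p T x₁ x₂ y₁ y₂) hA.gn hst t ht ht0 hev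
  have hle : Module.finrank ℝ (TT p T x₁ x₂ y₁ y₂) ≤ Module.finrank ℝ T + 2 := by
    rw [hTT]
    have e1 := Submodule.finrank_add_le_finrank_add_finrank T
      (Submodule.span ℝ {Ln (p x₁) (p y₁)} ⊔ Submodule.span ℝ {Ln (p x₂) (p y₂)})
    have e2 := Submodule.finrank_add_le_finrank_add_finrank
      (Submodule.span ℝ {Ln (p x₁) (p y₁)}) (Submodule.span ℝ {Ln (p x₂) (p y₂)})
    have e3 := fin_span1 (Ln (p x₁) (p y₁))
    have e4 := fin_span1 (Ln (p x₂) (p y₂))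
    omega
  have hy : y₁ ≠ y₂ := by
    intro he
    have h3 := hA.bot he
    have h4 : Module.finrank ℝ T = 0 := by rw [h3, finrank_bot]
    omega
  have hne3 : Module.finrank ℝ (TT p T x₁ x₂ y₁ y₂) ≠ 3 := by
    intro h3
    have m1 : Ln (p x₁) (p y₁) ∈ TT p T x₁ x₂ y₁ y₂ :=
      Submodule.mem_sup_right (Submodule.subset_span (by simp))
    have m2 : Ln (p x₂) (p y₂) ∈ TT p T x₁ x₂ y₁ y₂ :=
      Submodule.mem_sup_right (Submodule.subset_span (by simp))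
    have h5 := hc2 h3 _ m1 _ m2
    rw [t3, ev_Ln] at h5
    apply hA.gn.gp4 (a := x₁) (b := y₁) (c := x₂) (d := y₂) (Ne.symm a1) n2 (Ne.symm b1) a3 hy
      (Ne.symm b3)
    rw [dotProduct_comm]
    have e : p y₂ - p x₁ = (p y₂ - p x₂) + (p x₂ - p x₁) := by abel
    rw [e, add_dotProduct, h5, dot_cr_self', add_zero]
  have hd := hA.dim
  exact ⟨by omega, by omega, hy⟩

end Pool.Agent.MPf1f412
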