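import Pool.Agent.Lib.MP_f1f412_co.Spec8
import Pool.Agent.Lib.MP_f1f412_co.Basic

set_option autoImplicit false

namespace Pool.Agent.MPf1f412

open Matrix

/-- a vector orthogonal to `x` and `d` is a multiple of `x × d` -/
private theorem e8aa4_par (x d e : R3) (h : cr x d ≠ 0) (h1 : x ⬝ᵥ e = 0) (h2 : d ⬝ᵥ e = 0) :
    ∃ t : ℝ, e = t • cr x d := by
  apply par_of_cr h
  rw [cr_anti, cr_cr, dotProduct_comm e d, h2, dotProduct_comm e x, h1, zero_smul, zero_smul,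
    sub_zero, neg_zero]

theorem e8aa4 : S_aa4 := by
  intro a b ν T₁ T₂ l hab hν h1 h2 h3 h4 h5 h6 h7
  have e1 : cr T₁.1 (a - b) = ν := by
    rw [← h1, ev_diff T₁ a b, h2, zero_add]
  have e2 : cr T₂.1 (b - a) = ν := by
    rw [← h4, ev_diff T₂ b a, h3, zero_add]
  have f1 : T₁.1 ⬝ᵥ ev l b = 0 := by
    rw [← t4 h2 l]
    exact h5
  have f2 : T₂.1 ⬝ᵥ ev l a = 0 := by
    rw [← t4 h3 l]
    exact h6
  have g1 : (b - a) ⬝ᵥ ev l a = 0 := by
    rw [← t3]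
    exact h7
  have g2 : (b - a) ⬝ᵥ ev l b = 0 := by
    rw [← t3']
    exact h7
  have g3 : (a - b) ⬝ᵥ ev l b = 0 := by
    have : a - b = -(b - a) := by abel
    rw [this, neg_dotProduct, g2, neg_zero]
  obtain ⟨α, hα⟩ := e8aa4_par T₁.1 (a - b) (ev l b) (by rw [e1]; exact hν) f1 g3
  obtain ⟨β, hβ⟩ := e8aa4_par T₂.1 (b - a) (ev l a) (by rw [e2]; exact hν) f2 g1
  rw [e1] at hα
  rw [e2] at hβ
  have hd : cr l.1 (a - b) = (β - α) • ν := by
    have h8 := ev_diff l a b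
    rw [hα, hβ] at h8
    rw [sub_smul, h8]
    abel
  have hdν : (a - b) ⬝ᵥ ν = 0 := by
    rw [← e1]
    exact dot_cr_self' _ _
  have hων : l.1 ⬝ᵥ ν = 0 := by
    by_cases hβα : β - α = 0
    · rw [hβα, zero_smul] at hd
      have hne : a - b ≠ 0 := sub_ne_zero.2 hab
      obtain ⟨r, hr⟩ := par_of_cr hne (y := l.1) (by rw [cr_anti, hd, neg_zero])
      rw [hr, smul_dotProduct, hdν, smul_zero]
    · have h8 : l.1 ⬝ᵥ cr l.1 (a - b) = 0 := dot_cr_self _ _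
      rw [hd, dotProduct_smul, smul_eq_mul] at h8
      rcases mul_eq_zero.1 h8 with h9 | h9
      · exact absurd h9 hβα
      · exact h9
  have h8 : l.1 ⬝ᵥ ev l a = l.1 ⬝ᵥ l.2 := by
    unfold ev
    rw [dotProduct_add, dot_cr_self, zero_add]
  have h9 : l.1 ⬝ᵥ l.2 = 0 := by
    rw [← h8, hβ, dotProduct_smul, hων, smul_zero]
  unfold kl
  rw [h9, add_zero]

end Pool.Agent.MPf1f412
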