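import Pool.Agent.Lib.MP_f1f412_co.Spec8
import Pool.Agent.Lib.MP_f1f412_co.Basic

/-!
# MP_f1f412_co (C34), module E8aa5: case (aa), the complement is totally isotropic
-/

set_option autoImplicit false

namespace Pool.Agent.MPf1f412

open Matrix

private theorem aa5_exists {U : Submodule ℝ Tw} (hU : Module.finrank ℝ U = 2) (φ : Tw →ₗ[ℝ] ℝ) :
    ∃ l ∈ U, l ≠ 0 ∧ φ l = 0 := by
  by_contra h
  have inj : Function.Injective (φ.domRestrict U) := by
    rw [← LinearMap.ker_eq_bot, LinearMap.ker_eq_bot']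
    rintro ⟨l, hl⟩ h0
    by_contra hne
    refine h ⟨l, hl, fun h' => hne ?_, h0⟩
    exact Subtype.ext h'
  have h1 := LinearMap.finrank_le_finrank_of_injective inj
  rw [Module.finrank_self, hU] at h1
  omega

private theorem aa5_span {U : Submodule ℝ Tw} (hU : Module.finrank ℝ U = 2) {l l' : Tw}
    (hl : l ∈ U) (hl' : l' ∈ U) (h0 : l ≠ 0) (h : ∀ r : ℝ, l' ≠ r • l) :
    ∀ u ∈ U, ∃ a b : ℝ, u = a • l + b • l' := by
  have hli : LinearIndependent ℝ ![l, l'] :=
    (LinearIndependent.pair_iff' h0).mpr fun a ha => h a ha.symm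
  have hle : Submodule.span ℝ (Set.range ![l, l']) ≤ U := by
    rw [Submodule.span_le]
    rintro x ⟨i, rfl⟩
    fin_cases i
    · exact hl
    · exact hl'
  have hfr : Module.finrank ℝ (Submodule.span ℝ (Set.range ![l, l'])) = 2 := by
    rw [finrank_span_eq_card hli, Fintype.card_fin]
  have heq := Submodule.eq_of_le_of_finrank_eq hle (hfr.trans hU.symm)
  intro u hu
  rw [← heq, Matrix.range_cons, Matrix.range_cons, Matrix.range_empty, Set.union_empty,
    Set.singleton_union, Submodule.mem_span_pair] at hu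
  obtain ⟨a, b, hab⟩ := hu
  exact ⟨a, b, hab.symm⟩

private theorem aa5_st {V : Type} {p : V → R3} {T : Submodule ℝ Tw} {x₁ x₁' x₂ x₂' y₁ y₂ : V}
    (h2 : S_Perp) (h : AA p T x₁ x₁' x₂ x₂' y₁ y₂) (D : Derivation ℚ ℝ ℝ)
    (hD : Spt p D {x₁, x₁', x₂, x₂'}) (h1 : D3 D (p x₁) = 0) (h3 : D3 D (p x₂) = 0) :
    DSt D (pp (TT p T x₁ x₂ y₁ y₂)) := by
  have hy1 : D3 D (p y₁) = 0 := by
    refine hD y₁ fun hm => h.y1 ?_
    simpa using hm
  have hy2 : D3 D (p y₂) = 0 := by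
    refine hD y₂ fun hm => h.y2 ?_
    simpa using hm
  refine h2.2.2.1 D _ ?_
  unfold TT
  rw [Submodule.span_insert]
  exact h2.2.2.2.1 D _ _ (h.st D hD) (h2.2.2.2.1 D _ _ (h2.2.2.2.2.2 V p D x₁ y₁ h1 hy1)
    (h2.2.2.2.2.2 V p D x₂ y₂ h3 hy2))

theorem e8aa5 (h1 : S_Cover) (h2 : S_Perp) (h3 : S_E) : S_aa5 := by
  intro V p T x₁ x₁' x₂ x₂' y₁ y₂ h hdim hyp
  have hnd := h.nd
  simp only [List.nodup_cons, List.mem_cons, List.not_mem_nil, or_false, not_or, List.nodup_nil,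
    and_true, not_false_eq_true] at hnd
  obtain ⟨⟨n1, n2, n3⟩, ⟨n4, n5⟩, n6⟩ := hnd
  set U := pp (TT p T x₁ x₂ y₁ y₂) with hUdef
  have hU : Module.finrank ℝ U = 2 := by
    have := h2.1 (TT p T x₁ x₂ y₁ y₂)
    rw [hdim, ← hUdef] at this
    omega
  have hst1 : ∀ D, Spt p D {x₁'} → DSt D U := by
    intro D hD
    refine aa5_st h2 h D (fun u hu => hD u fun hu' => hu ?_) (hD x₁ ?_) (hD x₂ ?_)
    · rw [Set.mem_singleton_iff] at hu'
      rw [hu']
      simp
    · rw [Set.mem_singleton_iff]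
      exact n1
    · rw [Set.mem_singleton_iff]
      exact fun h => n4 h.symm
  have hst2 : ∀ D, Spt p D {x₂'} → DSt D U := by
    intro D hD
    refine aa5_st h2 h D (fun u hu => hD u fun hu' => hu ?_) (hD x₁ ?_) (hD x₂ ?_)
    · rw [Set.mem_singleton_iff] at hu'
      rw [hu']
      simp
    · rw [Set.mem_singleton_iff]
      exact n3
    · rw [Set.mem_singleton_iff]
      exact n6
  obtain ⟨l, hlU, hl0, hlL⟩ := aa5_exists hU (klB.flip (Ln (p x₁') (p x₂')))
  have hlL' : kl l (Ln (p x₁') (p x₂')) = 0 := hlL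
  have hll : kl l l = 0 := hyp l hlU hlL'
  by_cases hc : ∃ D, Spt p D {x₁'} ∧ ∀ r : ℝ, DT D l ≠ r • l
  · obtain ⟨D, hD, hr⟩ := hc
    have hDl : DT D l ∈ U := hst1 D hD l hlU
    have hspan := aa5_span hU hlU hDl hl0 hr
    have hlD : kl (DT D l) l = 0 := by
      have h4 := D_kl D l l
      rw [hll, map_zero, kl_symm l (DT D l)] at h4
      linarith
    have hlperp : l ∈ pp U := by
      intro s hs
      obtain ⟨a, b, rfl⟩ := hspan s hs
      rw [kl_add_left, kl_smul_left, kl_smul_left, hll, hlD, mul_zero, mul_zero, add_zero]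
    have hDperp : DT D l ∈ pp U := h2.2.2.1 D U (hst1 D hD) l hlperp
    intro u hu u' hu'
    obtain ⟨a, b, rfl⟩ := hspan u' hu'
    rw [kl_add_right, kl_smul_right, kl_smul_right, hlperp u hu, hDperp u hu, mul_zero, mul_zero,
      add_zero]
  · exfalso
    have hr : ∀ D, Spt p D {x₁'} → ∃ r : ℝ, DT D l = r • l := by
      intro D hD
      by_contra hcon
      exact hc ⟨D, hD, fun r hr => hcon ⟨r, hr⟩⟩
    have hev : ev l (p x₂') = 0 := by
      refine eq_zero_of_dot fun δ => ?_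
      obtain ⟨D, hD, hδ⟩ := h.gn.exists_single x₁' δ
      obtain ⟨r, hr⟩ := hr D hD
      have h4 := h3 V p D x₁' x₂' l n5 hD
      rw [hlL', map_zero, hr, kl_smul_left, hlL', mul_zero, zero_sub, hδ] at h4
      rw [dotProduct_comm]
      linarith
    have := (h1 V p x₂' U h.gn hst2 l hlU hl0 hev).1
    omega

end Pool.Agent.MPf1f412
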