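import Pool.Agent.Lib.MP_f1f412_co.Spec8
import Pool.Agent.Lib.MP_f1f412_co.Basic

/-!
# MP_f1f412_co (C34), module E8aa6: case (aa), the complement vanishes at `y₁`
-/

set_option autoImplicit false

namespace Pool.Agent.MPf1f412

open Matrix

private theorem aa6_le (T : Submodule ℝ Tw) {L : Tw} (hL : L ≠ 0) :
    Module.finrank ℝ ↥(T ⊔ Submodule.span ℝ {L}) ≤ Module.finrank ℝ T + 1 := by
  have h := Submodule.finrank_add_le_finrank_add_finrank T (Submodule.span ℝ {L})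
  rwa [finrank_span_singleton hL] at h

theorem e8aa6 (h1 : S_Perp) (h2 : S_E) (h3 : S_EV) : S_aa6 := by
  intro V p T x₁ x₁' x₂ x₂' y₁ y₂ h hdim hyp l₀ hl₀
  by_contra hne
  have hnd := h.nd
  simp only [List.nodup_cons, List.mem_cons, List.not_mem_nil, or_false, not_or, List.nodup_nil,
    and_true, not_false_eq_true] at hnd
  obtain ⟨⟨n1, n2, n3⟩, ⟨n4, n5⟩, n6⟩ := hnd
  have hy1 := h.y1
  have hy2 := h.y2
  simp only [List.mem_cons, List.not_mem_nil, or_false, not_or] at hy1 hy2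
  set L₁ := Ln (p x₁) (p y₁) with hL₁
  set L₂ := Ln (p x₂) (p y₂) with hL₂
  have hL₁0 : L₁ ≠ 0 := Ln_ne_zero (h.gn.inj (Ne.symm hy1.1))
  have hL₂0 : L₂ ≠ 0 := Ln_ne_zero (h.gn.inj (Ne.symm hy2.2.2.1))
  set T₂ : Submodule ℝ Tw := T ⊔ Submodule.span ℝ {L₂} with hT₂
  have hTT : TT p T x₁ x₂ y₁ y₂ = T₂ ⊔ Submodule.span ℝ {L₁} := by
    unfold TT
    rw [Submodule.span_insert, hT₂, sup_assoc, sup_comm (Submodule.span ℝ {L₁})]
  have hle1 := aa6_le T hL₂0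
  have hle2 := aa6_le T₂ hL₁0
  rw [← hT₂] at hle1
  rw [← hTT, hdim] at hle2
  have hT2 := h.dim
  have hfT : Module.finrank ℝ T = 2 := by omega
  have hfT₂ : Module.finrank ℝ T₂ = 3 := by omega
  set U := pp (TT p T x₁ x₂ y₁ y₂) with hU
  set W := pp T₂ with hW
  have hfW : Module.finrank ℝ W = 3 := by
    have := h1.1 T₂
    rw [hfT₂, ← hW] at this
    omega
  have hUW : ∀ u ∈ U, u ∈ W := by
    intro u hu s hs
    refine hu s ?_
    rw [hTT]
    exact Submodule.mem_sup_left hs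
  have hmemU : ∀ w ∈ W, kl w L₁ = 0 → w ∈ U := by
    intro w hw h0 s hs
    rw [hTT] at hs
    obtain ⟨a, ha, b, hb, rfl⟩ := Submodule.mem_sup.mp hs
    obtain ⟨r, rfl⟩ := Submodule.mem_span_singleton.mp hb
    rw [kl_add_left, hw a ha, kl_smul_left, kl_symm, h0, mul_zero, add_zero]
  have hUL : ∀ u ∈ U, kl u L₁ = 0 := by
    intro u hu
    rw [kl_symm]
    refine hu L₁ ?_
    rw [hTT]
    exact Submodule.mem_sup_right (Submodule.mem_span_singleton_self _)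
  have hst : ∀ D, Spt p D {x₁} → DSt D W := by
    intro D hD
    refine h1.2.2.1 D _ (h1.2.2.2.1 D _ _ (h.st D fun u hu => hD u fun hu' => hu ?_)
      (h1.2.2.2.2.2 V p D x₂ y₂ (hD x₂ ?_) (hD y₂ ?_)))
    · rw [Set.mem_singleton_iff] at hu'
      rw [hu']
      simp
    · rw [Set.mem_singleton_iff]
      exact fun h => n2 h.symm
    · rw [Set.mem_singleton_iff]
      exact hy2.1
  set δ := ev l₀ (p y₁) with hδ
  obtain ⟨D, hD, hDδ⟩ := h.gn.exists_single x₁ δ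
  have hE : ∀ l ∈ U, kl (DT D l) L₁ = δ ⬝ᵥ ev l (p y₁) := by
    intro l hl
    have h4 := h2 V p D x₁ y₁ l (Ne.symm hy1.1) hD
    rw [← hL₁, hUL l hl, map_zero, hDδ] at h4
    linarith
  have hdd : δ ⬝ᵥ δ ≠ 0 := fun h0 => hne (dot_self_eq_zero h0)
  have hdec : ∀ v ∈ W, kl v L₁ ≠ 0 → ∀ w ∈ W, ∃ u ∈ U, ∃ r : ℝ, w = u + r • v := by
    intro v hv hv0 w hw
    refine ⟨w - (kl w L₁ / kl v L₁) • v, hmemU _ (W.sub_mem hw (W.smul_mem _ hv)) ?_,
      kl w L₁ / kl v L₁, by abel⟩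
    rw [kl_sub_left, kl_smul_left]
    field_simp
    ring
  have hA : ∀ l ∈ U, δ ⬝ᵥ ev l (p y₁) ≠ 0 → ∀ w ∈ W, kl l w = 0 := by
    intro l hl hl0 w hw
    have hDl : DT D l ∈ W := hst D hD l (hUW l hl)
    obtain ⟨u, hu, r, rfl⟩ := hdec (DT D l) hDl (by rw [hE l hl]; exact hl0) w hw
    have hlD : kl l (DT D l) = 0 := by
      have h4 := D_kl D l l
      rw [hyp l hl l hl, map_zero, kl_symm (DT D l) l] at h4
      linarith
    rw [kl_add_right, hyp l hl u hu, kl_smul_right, hlD, mul_zero, add_zero]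
  have hB : ∀ l ∈ U, ∀ w ∈ W, kl l w = 0 := by
    intro l hl w hw
    by_cases h0 : δ ⬝ᵥ ev l (p y₁) = 0
    · have h5 := hA (l + l₀) (U.add_mem hl hl₀) (by
        rw [ev_add, dotProduct_add, h0, zero_add]
        exact hdd) w hw
      have h6 := hA l₀ hl₀ hdd w hw
      rw [kl_add_left, h6, add_zero] at h5
      exact h5
    · exact hA l hl h0 w hw
  have hl₁ : DT D l₀ ∈ W := hst D hD l₀ (hUW l₀ hl₀)
  have hl₁L : kl (DT D l₀) L₁ ≠ 0 := by
    rw [hE l₀ hl₀]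
    exact hdd
  have hl₁l₁ : kl (DT D l₀) (DT D l₀) = 0 := by
    have h7 : l₀ ∈ pp W := by
      intro w hw
      rw [kl_symm]
      exact hB l₀ hl₀ w hw
    exact h1.2.2.1 D W (hst D hD) l₀ h7 _ hl₁
  have hWW : ∀ w ∈ W, ∀ w' ∈ W, kl w w' = 0 := by
    intro w hw w' hw'
    obtain ⟨u, hu, r, rfl⟩ := hdec _ hl₁ hl₁L w hw
    rw [kl_add_left, hB u hu w' hw', kl_smul_left, zero_add]
    obtain ⟨u', hu', r', rfl⟩ := hdec _ hl₁ hl₁L w' hw'
    rw [kl_add_right, kl_smul_right, hl₁l₁, kl_symm, hB u' hu' _ hl₁]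
    ring
  have hWT : W ≤ T₂ := by
    intro w hw
    rw [← h1.2.1 T₂]
    intro s hs
    exact hWW s hs w hw
  have hWT' : W = T₂ := Submodule.eq_of_le_of_finrank_eq hWT (hfW.trans hfT₂.symm)
  have hTL : ∀ t ∈ T, kl t L₂ = 0 := by
    intro t ht
    have h8 : t ∈ W := by
      rw [hWT']
      exact Submodule.mem_sup_left ht
    rw [kl_symm]
    exact h8 L₂ (Submodule.mem_sup_right (Submodule.mem_span_singleton_self _))
  obtain ⟨t, ht, ht0⟩ := h.d2 hfT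
  refine ht0 (h3 V p T x₂ y₂ h.gn (Ne.symm hy2.2.2.1) (fun D hD => h.st D fun u hu => hD u fun hu' =>
    hu ?_) hTL t ht)
  rw [Set.mem_singleton_iff] at hu'
  rw [hu']
  simp

end Pool.Agent.MPf1f412
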