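import Pool.Agent.Lib.MP_f1f412_co.Spec8
import Pool.Agent.Lib.MP_f1f412_co.Basic

/-!
# MP_f1f412_co (C34), section 8, aaL: case (aa), assembly of the linear algebra
-/

set_option autoImplicit false

namespace Pool.Agent.MPf1f412

open Matrix

private theorem AA.swap {V : Type} {p : V → R3} {T : Submodule ℝ Tw} {x₁ x₁' x₂ x₂' y₁ y₂ : V}
    (h : AA p T x₁ x₁' x₂ x₂' y₁ y₂) : AA p T x₂ x₂' x₁ x₁' y₂ y₁ := by
  have hnd := h.nd
  have hy1 := h.y1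
  have hy2 := h.y2
  simp only [List.nodup_cons, List.mem_cons, List.not_mem_nil, or_false, not_or,
    List.nodup_nil, and_true, not_false_eq_true] at hnd hy1 hy2
  obtain ⟨⟨n1, n2, n3⟩, ⟨n4, n5⟩, n6⟩ := hnd
  obtain ⟨a1, a2, a3, a4⟩ := hy1
  obtain ⟨b1, b2, b3, b4⟩ := hy2
  refine ⟨h.gn, ?_, ?_, ?_, ?_, h.dim, fun e => h.bot e.symm, h.d2, h.d1⟩
  · simp only [List.nodup_cons, List.mem_cons, List.not_mem_nil, or_false, not_or,
      List.nodup_nil, and_true, not_false_eq_true]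
    exact ⟨⟨n6, Ne.symm n2, Ne.symm n4⟩, ⟨Ne.symm n3, Ne.symm n5⟩, n1⟩
  · simp only [List.mem_cons, List.not_mem_nil, or_false, not_or]
    exact ⟨b3, b4, b1, b2⟩
  · simp only [List.mem_cons, List.not_mem_nil, or_false, not_or]
    exact ⟨a3, a4, a1, a2⟩
  · intro D hD
    refine h.st D fun u hu => hD u fun hu' => hu ?_
    rcases hu' with rfl | rfl | rfl | rfl
    · simp
    · simp
    · simp
    · simp

theorem e8aaL (h1 : S_aa1) (h2 : S_aa4) (h3 : S_aa5) (h4 : S_aa6) (h5 : S_Perp) : S_aaL := by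
  intro V p T x₁ x₁' x₂ x₂' y₁ y₂ M hA hM hη
  obtain ⟨η, hη0⟩ : ∃ η : R3, M *ᵥ η ≠ 0 := by
    by_contra hcon
    push Not at hcon
    apply hM
    ext i j
    have e := congrFun (hcon (Pi.single j 1)) i
    rw [mulVec_single_one] at e
    exact e
  obtain ⟨T₁, hT₁, e1, e2⟩ := hη η 0
  obtain ⟨T₂, hT₂, e3, e4⟩ := hη 0 η
  rw [mulVec_zero] at e2 e3
  have hT₁0 : T₁ ≠ 0 := by
    rintro rfl
    rw [ev_zero] at e1
    exact hη0 e1.symm
  obtain ⟨hd4, _, hy⟩ := h1 V p T x₁ x₁' x₂ x₂' y₁ y₂ hA T₁ hT₁ hT₁0 e2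
  have hnd := hA.nd
  simp only [List.nodup_cons, List.mem_cons, List.not_mem_nil, or_false, not_or,
    List.nodup_nil, and_true, not_false_eq_true] at hnd
  obtain ⟨⟨_, _, _⟩, ⟨_, n5⟩, _⟩ := hnd
  have hq : ∀ l ∈ pp (TT p T x₁ x₂ y₁ y₂), kl l (Ln (p x₁') (p x₂')) = 0 → kl l l = 0 := by
    intro l hl hll
    exact h2 (p x₁') (p x₂') (M *ᵥ η) T₁ T₂ l (hA.gn.inj n5) hη0 e1 e2 e3 e4 (hl T₁ hT₁)
      (hl T₂ hT₂) hll
  have h6 := h3 V p T x₁ x₁' x₂ x₂' y₁ y₂ hA hd4 hq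
  have h7 := h4 V p T x₁ x₁' x₂ x₂' y₁ y₂ hA hd4 h6
  have hTT : TT p T x₂ x₁ y₂ y₁ = TT p T x₁ x₂ y₁ y₂ := by
    unfold TT
    rw [Set.pair_comm]
  have h8 : ∀ l ∈ pp (TT p T x₁ x₂ y₁ y₂), ev l (p y₂) = 0 := by
    have := h4 V p T x₂ x₂' x₁ x₁' y₂ y₁ hA.swap (by rw [hTT]; exact hd4) (by rw [hTT]; exact h6)
    rw [hTT] at this
    exact this
  have h9 : pp (TT p T x₁ x₂ y₁ y₂) ≤ Submodule.span ℝ {Ln (p y₁) (p y₂)} := by
    intro l hl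
    obtain ⟨t, rfl⟩ := t1 (hA.gn.inj hy) (h7 l hl) (h8 l hl)
    exact Submodule.smul_mem _ _ (Submodule.mem_span_singleton_self _)
  have h10 := Submodule.finrank_mono h9
  have h11 := finrank_span_le_card (R := ℝ) ({Ln (p y₁) (p y₂)} : Set Tw)
  rw [Set.toFinset_card, Fintype.card_unique] at h11
  have h12 := h5.1 (TT p T x₁ x₂ y₁ y₂)
  omega

end Pool.Agent.MPf1f412
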