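import Pool.Agent.Lib.MP_f1f412_co.Spec8
import Pool.Agent.Lib.MP_f1f412_co.Basic

/-!
# MP_f1f412_co (C34), section 8, case (ab)
-/

set_option autoImplicit false

namespace Pool.Agent.MPf1f412

open Matrix

private theorem Rn_sq {n : R3} (hn : n ≠ 0) : Rn n * Rn n = 1 := by
  have hnn : n ⬝ᵥ n ≠ 0 := fun h => hn (dot_self_eq_zero h)
  unfold Rn
  rw [sub_mul, one_mul, mul_sub, mul_one, smul_mul_smul_comm, vecMulVec_mul_vecMulVec,
    vecMulVec_smul, smul_smul]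
  have e : 2 / (n ⬝ᵥ n) * (2 / (n ⬝ᵥ n)) * (n ⬝ᵥ n) = 2 / (n ⬝ᵥ n) + 2 / (n ⬝ᵥ n) := by
    field_simp
    ring
  rw [e, add_smul]
  abel

private theorem Aeq {A B : Matrix (Fin 3) (Fin 3) ℝ} (hA : Aᵀ * A = 1) (h : Aᵀ * B = 1) :
    B = A := by
  have h1 : A * Aᵀ = 1 := mul_eq_one_comm.1 hA
  calc B = (A * Aᵀ) * B := by rw [h1, one_mul]
    _ = A * (Aᵀ * B) := by rw [Matrix.mul_assoc]
    _ = A := by rw [h, mul_one]

/-- isometries with the same linear part which agree at a point -/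
private theorem ap_eq {g₁ g₂ : Iso3} (hA : g₁.Aᵀ * g₂.A = 1) {v : R3}
    (hv : g₁.ap v = g₂.ap v) (x : R3) : g₁.ap x = g₂.ap x := by
  have h1 : g₂.A = g₁.A := Aeq g₁.orth hA
  have h2 : g₁.b = g₂.b := by
    unfold Iso3.ap at hv
    rw [h1] at hv
    exact add_left_cancel hv
  unfold Iso3.ap
  rw [h1, h2]

theorem e8ab (h1 : S_ab1) (h2 : S_Sp0) (h3 : S_R1) (h4 : S_R2) : S_ab := by
  classical
  intro V K _ G c p q g X₁ X₂ x₁ x₁' w y₁ y₂ hN hne hd hd1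
  obtain ⟨tri, gn, surj, pl, mn, tr, ad⟩ := hN
  obtain ⟨_, _, hst⟩ := h2 V K G c p (Rest X₁ X₂) (c y₁) (c y₂)
  have hX1 : X₁ ∈ Set.range c := ⟨x₁, ad.c1⟩
  have hX2 : X₂ ∈ Set.range c := ⟨w, ad.c2⟩
  -- pins
  have pin_self : ∀ u, Pin G c (c u) u := fun u => ⟨u, rfl, Or.inl rfl⟩
  have pin_adj : ∀ u v, G.Adj u v → Pin G c (c u) v := fun u v h => ⟨u, rfl, Or.inr h⟩
  have pinX2 : ∀ u, Pin G c X₂ u → u = w ∨ u = x₁' ∨ u = y₂ := by
    rintro u ⟨v, hv, h⟩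
    have hvw : v = w := ad.s2 rfl v hv
    subst hvw
    rcases h with h | h
    · exact Or.inl h
    · by_cases hu : c u = X₂
      · exact Or.inl (ad.s2 rfl u hu)
      · rcases ad.o2 v u hv h hu with h' | h'
        · exact Or.inr (Or.inr h'.2)
        · exact Or.inr (Or.inl h'.2)
  -- distinct vertices
  have wx1 : w ≠ x₁ := fun h => ad.ne (by rw [← ad.c1, ← ad.c2, h])
  have wx1' : w ≠ x₁' := fun h => ad.ne (by rw [← ad.c1', ← ad.c2, h])
  have wy1 : w ≠ y₁ := fun h => ad.n12 (by rw [← ad.c2, h])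
  have wy2 : w ≠ y₂ := ad.e2.ne
  have y1x1' : y₁ ≠ x₁' := fun h => ad.n11 (by rw [h, ad.c1'])
  have y2x1' : y₂ ≠ x₁' := fun h => ad.n21 (by rw [h, ad.c1'])
  -- the normal vector
  have hn : cr (p y₂ - p w) (p x₁' - p w) ≠ 0 := gn.gp3 wy2 wx1' y2x1'
  -- the transfer
  have key : ∀ η₀ : R3, ∃ r : ℝ,
      ((g X₁).B - (g X₂).B) *ᵥ η₀ = r • cr (p y₂ - p w) (p x₁' - p w) := by
    intro η₀
    obtain ⟨m, hm⟩ := tr (fun u => if u = x₁' then η₀ else 0)
    have hm0 : ∀ X Y u, u ≠ x₁' → Pin G c X u → Pin G c Y u → ev (m X - m Y) (p u) = 0 := by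
      intro X Y u hu hX hY
      rw [hm X Y u hX hY, if_neg hu, mulVec_zero]
    have hedge : ∀ u v, G.Adj u v → u ≠ x₁' → v ≠ x₁' →
        ∃ t : ℝ, m (c u) - m (c v) = t • Ln (p u) (p v) := by
      intro u v huv hu hv
      exact t1 (gn.inj huv.ne) (hm0 _ _ u hu (pin_self u) (pin_adj v u huv.symm))
        (hm0 _ _ v hv (pin_adj u v huv) (pin_self v))
    have hmot : IsMot G c p (Rest X₁ X₂) m := by
      intro u v huv
      exact hedge u v huv.1 (fun h => huv.2.1.1 (by rw [h, ad.c1']))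
        (fun h => huv.2.2.1.1 (by rw [h, ad.c1']))
    obtain ⟨a, ha⟩ := hedge x₁ y₁ ad.e1 hne y1x1'
    obtain ⟨β, hβ⟩ := hedge w y₂ ad.e2 wx1' y2x1'
    rw [ad.c1] at ha
    rw [ad.c2] at hβ
    have hw : ev (m X₁ - m X₂) (p w) = 0 := by
      apply hm0 _ _ w wx1'
      · have := pin_adj x₁' w ad.e0
        rwa [ad.c1'] at this
      · have := pin_self w
        rwa [ad.c2] at this
    have ht : m X₁ - m (c y₂) = 0 := by
      apply h1 V p (Sp G c p (Rest X₁ X₂) (c y₁) (c y₂)) x₁ y₁ w gn ad.e1.ne wx1 wy1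
        (fun D hD => hst D {w} hD ?_) (fun D hD => hst D {x₁} hD ?_) hd hd1
      · have e : m X₁ - m (c y₂) = (m (c y₁) - m (c y₂)) + a • Ln (p x₁) (p y₁) := by
          rw [← ha]
          abel
        rw [e]
        exact Submodule.add_mem_sup ⟨m, hmot, rfl⟩
          (Submodule.smul_mem _ _ (Submodule.mem_span_singleton_self _))
      · have e : m X₁ - m (c y₂) = (m X₁ - m X₂) + (m X₂ - m (c y₂)) := by abel
        rw [e, ev_add, hw, hβ, ev_smul, ev_Ln_left, smul_zero, add_zero]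
      · rintro u hu v huv
        have hu' : u = w := hu
        subst hu'
        exact huv.2.1.2 ad.c2
      · rintro u hu v huv
        have hu' : u = x₁ := hu
        subst hu'
        exact huv.2.1.1 ad.c1
    have e2 : m X₁ - m X₂ = (-β) • Ln (p w) (p y₂) := by
      have e : m X₁ - m X₂ = (m X₁ - m (c y₂)) - (m X₂ - m (c y₂)) := by abel
      rw [e, ht, hβ, zero_sub, neg_smul]
    refine ⟨-β, ?_⟩
    have e3 := hm X₁ X₂ x₁' (by
      have := pin_self x₁'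
      rwa [ad.c1'] at this) (by
      have := pin_adj w x₁' ad.e0.symm
      rwa [ad.c2] at this)
    rw [if_pos rfl, e2, ev_smul, ev_Ln] at e3
    exact e3.symm
  -- the linear parts
  have hC : ((g X₁).Aᵀ * (g X₂).A)ᵀ * ((g X₁).Aᵀ * (g X₂).A) = 1 := by
    have hA1 : (g X₁).A * (g X₁).Aᵀ = 1 := mul_eq_one_comm.1 (g X₁).orth
    rw [transpose_mul, transpose_transpose, Matrix.mul_assoc, ← Matrix.mul_assoc (g X₁).A,
      hA1, one_mul, (g X₂).orth]
  have hR := (h3 ((g X₁).Aᵀ * (g X₂).A) _ hC hn).2 (by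
    intro x
    obtain ⟨r, hr⟩ := key ((g X₁).A *ᵥ x)
    refine ⟨-r, ?_⟩
    rw [neg_smul, ← hr, sub_mulVec, mulVec_mulVec, mulVec_mulVec, transpose_mul,
      transpose_transpose]
    unfold Iso3.B
    rw [(g X₁).orth, one_mulVec]
    abel)
  have pin1 : Pin G c X₁ x₁' := by
    have := pin_self x₁'
    rwa [ad.c1'] at this
  have pin2 : Pin G c X₂ x₁' := by
    have := pin_adj w x₁' ad.e0.symm
    rwa [ad.c2] at this
  have hagree : (g X₁).ap (p x₁') = (g X₂).ap (p x₁') := by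
    rw [← pl X₁ x₁' pin1, ← pl X₂ x₁' pin2]
  apply mn X₁ hX1 X₂ hX2 ad.ne
  refine ⟨g X₁, pl X₁, ?_⟩
  rcases hR with hR | hR
  · intro u hu
    rw [pl X₂ u hu, ap_eq hR hagree]
  · obtain ⟨g₂, hgA, hg1, hg2, hg3⟩ := h4 (g X₂) (p w) (p x₁') (p y₂) hn
    have hA : (g X₁).Aᵀ * g₂.A = 1 := by
      rw [hgA, ← Matrix.mul_assoc, hR, Rn_sq hn]
    have hag : (g X₁).ap (p x₁') = g₂.ap (p x₁') := by rw [hagree, hg2]
    intro u hu
    rw [pl X₂ u hu, ap_eq hA hag]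
    rcases pinX2 u hu with rfl | rfl | rfl
    · exact hg1.symm
    · exact hg2.symm
    · exact hg3.symm

end Pool.Agent.MPf1f412
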