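import Pool.Agent.Lib.MP_f1f412_co.Spec8
import Pool.Agent.Lib.MP_f1f412_co.Basic

set_option autoImplicit false

namespace Pool.Agent.MPf1f412

open Matrix

theorem e8ab1 (h1 : S_Cover) (h2 : S_Perp) (h3 : S_EV) : S_ab1 := by
  intro V p T x y w hG hxy hwx hwy hw hx hT hT2 t ht htw
  by_contra ht0
  obtain ⟨-, -, -, q4, -, q6⟩ := h2
  have hst : ∀ D, Spt p D {w} → DSt D (T ⊔ Submodule.span ℝ {Ln (p x) (p y)}) := by
    intro D hD
    refine q4 D T _ (hw D hD) (q6 V p D x y ?_ ?_)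
    · exact hD x (fun h => hwx (Set.mem_singleton_iff.1 h).symm)
    · exact hD y (fun h => hwy (Set.mem_singleton_iff.1 h).symm)
  obtain ⟨c1, c2⟩ := h1 V p w _ hG hst t ht ht0 htw
  have hsp : Module.finrank ℝ (Submodule.span ℝ {Ln (p x) (p y)} : Submodule ℝ Tw) ≤ 1 := by
    have h4 := finrank_span_le_card (R := ℝ) ({Ln (p x) (p y)} : Set Tw)
    simpa using h4
  have hadd := Submodule.finrank_add_le_finrank_add_finrank T
    (Submodule.span ℝ {Ln (p x) (p y)} : Submodule ℝ Tw)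
  have hT2' : Module.finrank ℝ T = 2 := by omega
  have hkl := c2 (by omega)
  obtain ⟨s, hs, hsy⟩ := hT2 hT2'
  apply hsy
  refine h3 V p T x y hG hxy hx (fun r hr => ?_) s hs
  exact hkl r (Submodule.mem_sup_left hr) _
    (Submodule.mem_sup_right (Submodule.mem_span_singleton_self _))

end Pool.Agent.MPf1f412
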