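import Pool.Agent.Lib.MP_f1f412_co.Spec8
import Pool.Agent.Lib.MP_f1f412_co.Basic

/-!
# MP_f1f412_co (C34), 8.11 bbS: case (bb), the main step
-/

set_option autoImplicit false

namespace Pool.Agent.MPf1f412

open Matrix

private theorem e8bbS_dsq (g : Iso3) (x y : R3) : dsq (g.ap x) (g.ap y) = dsq x y := by
  unfold dsq Iso3.ap
  rw [add_sub_add_right_eq_sub, ← Matrix.mulVec_sub, Matrix.dotProduct_mulVec,
    ← Matrix.mulVec_transpose, Matrix.mulVec_mulVec, g.orth, Matrix.one_mulVec]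

theorem e8bbS (h1 : S_LinE) (h2 : S_R1) (h3 : S_R2) (h4 : S_TwoIso) : S_bbS := by
  intro V K _ G c p q g X₁ X₂ v w y₁ y₂ s₀ hN hs₀
  classical
  obtain ⟨htri, hgn, hsurj, hpl, hmn, htr, had⟩ := hN
  obtain ⟨hne, hc1, -, hc2, -, he1, he0, he2, hn11, hn12, hn21, hn22, ho1, ho2, hs1, hs2⟩ := had
  have hX1 : ∀ u, c u = X₁ → u = v := hs1 rfl
  have hX2 : ∀ u, c u = X₂ → u = w := hs2 rfl
  -- the vertices are different
  have hvw : v ≠ w := he0.ne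
  have hvy1 : v ≠ y₁ := he1.ne
  have hwy2 : w ≠ y₂ := he2.ne
  have hvy2 : v ≠ y₂ := fun h => hn21 (by rw [← h]; exact hc1)
  have hwy1 : w ≠ y₁ := fun h => hn12 (by rw [← h]; exact hc2)
  -- pins
  have hp1 : ∀ u, Pin G c X₁ u → u = v ∨ u = y₁ ∨ u = w := by
    rintro u ⟨v', hv', hu⟩
    have hv : v' = v := hX1 v' hv'
    subst hv
    rcases hu with hu | hu
    · exact Or.inl hu
    · have hcu : c u ≠ X₁ := fun h => hu.ne (hX1 u h).symm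
      rcases ho1 v' u hv' hu hcu with ⟨-, h⟩ | ⟨-, h⟩
      · exact Or.inr (Or.inl h)
      · exact Or.inr (Or.inr h)
  have hp2 : ∀ u, Pin G c X₂ u → u = w ∨ u = y₂ ∨ u = v := by
    rintro u ⟨v', hv', hu⟩
    have hv : v' = w := hX2 v' hv'
    subst hv
    rcases hu with hu | hu
    · exact Or.inl hu
    · have hcu : c u ≠ X₂ := fun h => hu.ne (hX2 u h).symm
      rcases ho2 v' u hv' hu hcu with ⟨-, h⟩ | ⟨-, h⟩
      · exact Or.inr (Or.inl h)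
      · exact Or.inr (Or.inr h)
  have hpin : ∀ u, Pin G c (c u) u := fun u => ⟨u, rfl, Or.inl rfl⟩
  have hpinA : ∀ u u', G.Adj u u' → Pin G c (c u) u' := fun u u' h => ⟨u, rfl, Or.inr h⟩
  have pX1v : Pin G c X₁ v := ⟨v, hc1, Or.inl rfl⟩
  have pX1y : Pin G c X₁ y₁ := ⟨v, hc1, Or.inr he1⟩
  have pX1w : Pin G c X₁ w := ⟨v, hc1, Or.inr he0⟩
  have pX2w : Pin G c X₂ w := ⟨w, hc2, Or.inl rfl⟩
  have pX2v : Pin G c X₂ v := ⟨w, hc2, Or.inr he0.symm⟩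
  have pX2y : Pin G c X₂ y₂ := ⟨w, hc2, Or.inr he2⟩
  have pY1y : Pin G c (c y₁) y₁ := hpin y₁
  have pY1v : Pin G c (c y₁) v := hpinA y₁ v he1.symm
  have pY2y : Pin G c (c y₂) y₂ := hpin y₂
  have pY2w : Pin G c (c y₂) w := hpinA y₂ w he2.symm
  -- the normal vector
  set n : R3 := ev (Ln (p w) (p y₂)) (p v) with hn
  have hn0 : n ≠ 0 := by
    rw [hn, ev_Ln]
    exact hgn.gp3 hwy2 hvw.symm hvy2.symm
  -- (2)
  have hM : ∀ η : R3, ∃ β r : ℝ, ((g X₂).B - (g (c y₁)).B) *ᵥ η = β • n + r • ev s₀ (p v) := by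
    intro η₀
    obtain ⟨m, hm⟩ := htr (fun u => if u = v then η₀ else 0)
    have hm0 : ∀ X Y u, u ≠ v → Pin G c X u → Pin G c Y u → ev (m X - m Y) (p u) = 0 := by
      intro X Y u huv hX hY
      rw [hm X Y u hX hY]
      simp only [if_neg huv, Matrix.mulVec_zero]
    have hedge : ∀ a b, G.Adj a b → a ≠ v → b ≠ v →
        ∃ t : ℝ, m (c a) - m (c b) = t • Ln (p a) (p b) := by
      intro a b hab hav hbv
      exact t1 (hgn.inj hab.ne) (hm0 _ _ a hav (hpin a) (hpinA b a hab.symm))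
        (hm0 _ _ b hbv (hpinA a b hab) (hpin b))
    have hmot : IsMot G c p (Rest X₁ X₂) m := by
      intro a b hcre
      refine hedge a b hcre.1 ?_ ?_
      · rintro rfl
        exact hcre.2.1.1 hc1
      · rintro rfl
        exact hcre.2.2.1.1 hc1
    have hsS : m (c y₁) - m (c y₂) ∈ Sp G c p (Rest X₁ X₂) (c y₁) (c y₂) := ⟨m, hmot, rfl⟩
    obtain ⟨β, hβ⟩ := hedge w y₂ he2 hvw.symm hvy2.symm
    rw [hc2] at hβ
    have e1 : kl (m X₁ - m (c y₁)) (Ln (p y₁) (p w)) = 0 := by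
      rw [t3, hm0 _ _ y₁ hvy1.symm pX1y pY1y, dotProduct_zero]
    have e2 : kl (m X₁ - m X₂) (Ln (p y₁) (p w)) = 0 := by
      rw [t3', hm0 _ _ w hvw.symm pX1w pX2w, dotProduct_zero]
    have e3 : kl (Ln (p w) (p y₂)) (Ln (p y₁) (p w)) = 0 := by
      rw [t3', ev_Ln_left, dotProduct_zero]
    have e4 : m (c y₁) - m (c y₂) = β • Ln (p w) (p y₂) - ((m X₁ - m (c y₁)) - (m X₁ - m X₂)) := by
      rw [← hβ]
      abel
    have e5 : kl (m (c y₁) - m (c y₂)) (Ln (p y₁) (p w)) = 0 := by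
      rw [e4, kl_sub_left, kl_sub_left, kl_smul_left, e1, e2, e3]
      ring
    obtain ⟨r, hr⟩ := hs₀ _ hsS e5
    refine ⟨β, -r, ?_⟩
    have e6 := hm X₂ (c y₁) v pX2v pY1v
    simp only [if_true] at e6
    rw [← e6]
    have e7 : m X₂ - m (c y₁) = β • Ln (p w) (p y₂) - r • s₀ := by
      rw [← hβ, ← hr]
      abel
    rw [e7, ev_sub, ev_smul, ev_smul, ← hn, neg_smul, sub_eq_add_neg]
  -- (3)
  obtain ⟨E, hE, hEn⟩ := h1 _ _ _ hM
  set A₁ := (g (c y₁)).A with hA1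
  set A₂ := (g X₂).A with hA2
  have o1 : A₁ᵀ * A₁ = 1 := (g (c y₁)).orth
  have o2 : A₂ᵀ * A₂ = 1 := (g X₂).orth
  have o1' : A₁ * A₁ᵀ = 1 := mul_eq_one_comm.1 o1
  set C := A₁ᵀ * A₂ with hC
  have hCo : Cᵀ * C = 1 := by
    rw [hC, Matrix.transpose_mul, Matrix.transpose_transpose]
    calc A₂ᵀ * A₁ * (A₁ᵀ * A₂) = A₂ᵀ * (A₁ * A₁ᵀ) * A₂ := by simp only [Matrix.mul_assoc]
      _ = 1 := by rw [o1', Matrix.mul_one, o2]
  have hinj : Function.Injective (Matrix.mulVecLin A₁ᵀ) := by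
    intro x y hxy
    simp only [Matrix.mulVecLin_apply] at hxy
    have h5 := congrArg (fun z => A₁ *ᵥ z) hxy
    simp only [Matrix.mulVec_mulVec, o1', Matrix.one_mulVec] at h5
    exact h5
  have hF2 : 2 ≤ Module.finrank ℝ (E.map (Matrix.mulVecLin A₁ᵀ)) := by
    rw [← (Submodule.equivMapOfInjective _ hinj E).finrank_eq]
    exact hE
  obtain ⟨C', hC', hC'2⟩ := (h2 C n hCo hn0).1 (E.map (Matrix.mulVecLin A₁ᵀ)) hF2 (by
    rintro x ⟨η, hη, rfl⟩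
    obtain ⟨β, hβ⟩ := hEn η hη
    refine ⟨β, ?_⟩
    rw [← hβ, Matrix.mulVecLin_apply, hC, Matrix.transpose_mul, Matrix.transpose_transpose,
      Matrix.mulVec_mulVec, Matrix.mul_assoc, o1', Matrix.mul_one, Matrix.sub_mulVec]
    rfl)
  -- the isometry of X₂
  obtain ⟨g₂, hg2A, hg2w, hg2v, hg2y⟩ : ∃ g₂ : Iso3, A₁ᵀ * g₂.A = C' ∧ g₂.ap (p w) = q w ∧
      g₂.ap (p v) = q v ∧ g₂.ap (p y₂) = q y₂ := by
    rcases hC' with h5 | h5
    · exact ⟨g X₂, by rw [h5], (hpl X₂ w pX2w).symm, (hpl X₂ v pX2v).symm, (hpl X₂ y₂ pX2y).symm⟩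
    · have h6 : cr (p y₂ - p w) (p v - p w) ≠ 0 := hgn.gp3 hwy2 hvw.symm hvy2.symm
      obtain ⟨g', ha, hb, hc, hd⟩ := h3 (g X₂) (p w) (p v) (p y₂) h6
      refine ⟨g', ?_, ?_, ?_, ?_⟩
      · rw [ha, h5, hn, ev_Ln, hC, Matrix.mul_assoc]
      · rw [hb, hpl X₂ w pX2w]
      · rw [hc, hpl X₂ v pX2v]
      · rw [hd, hpl X₂ y₂ pX2y]
  -- (4)
  have r1 : X₁ ∈ Set.range c := ⟨v, hc1⟩
  have r2 : X₂ ∈ Set.range c := ⟨w, hc2⟩
  have r3 : c y₁ ∈ Set.range c := ⟨y₁, rfl⟩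
  rcases h4 (g (c y₁)) g₂ (p v) (p w) (p y₁) (by rw [← hpl _ v pY1v, hg2v]) (by
      rw [hg2w, ← hpl _ y₁ pY1y, hpl X₁ y₁ pX1y, hpl X₁ w pX1w, e8bbS_dsq]) (by
      rw [← hA1, hg2A]; exact hC'2) with h5 | h5 | h5
  · refine hmn X₂ r2 (c y₁) r3 (fun h => hn12 h.symm) ⟨g (c y₁), fun u hu => ?_, hpl (c y₁)⟩
    rw [h5]
    rcases hp2 u hu with rfl | rfl | rfl
    · exact hg2w.symm
    · exact hg2y.symm
    · exact hg2v.symm
  · refine hmn X₁ r1 (c y₁) r3 (fun h => hn11 h.symm) ⟨g (c y₁), fun u hu => ?_, hpl (c y₁)⟩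
    rcases hp1 u hu with rfl | rfl | rfl
    · exact hpl _ _ pY1v
    · exact hpl _ _ pY1y
    · rw [← h5, hg2w]
  · refine hmn X₁ r1 X₂ r2 hne ⟨g₂, fun u hu => ?_, fun u hu => ?_⟩
    · rcases hp1 u hu with rfl | rfl | rfl
      · exact hg2v.symm
      · rw [h5]
        exact hpl _ _ pY1y
      · exact hg2w.symm
    · rcases hp2 u hu with rfl | rfl | rfl
      · exact hg2w.symm
      · exact hg2y.symm
      · exact hg2v.symm

end Pool.Agent.MPf1f412
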