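import Pool.Agent.Lib.MP_f1f412_co.Asm1
import Pool.Agent.Lib.MP_f1f412_co.E8Cnt8
import Pool.Agent.Lib.MP_f1f412_co.E8DPd
import Pool.Agent.Lib.MP_f1f412_co.E8E
import Pool.Agent.Lib.MP_f1f412_co.E8EV
import Pool.Agent.Lib.MP_f1f412_co.E8LinE
import Pool.Agent.Lib.MP_f1f412_co.E8ND
import Pool.Agent.Lib.MP_f1f412_co.E8NDK
import Pool.Agent.Lib.MP_f1f412_co.E8Perp
import Pool.Agent.Lib.MP_f1f412_co.E8R1
import Pool.Agent.Lib.MP_f1f412_co.E8R2
import Pool.Agent.Lib.MP_f1f412_co.E8Sp0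
import Pool.Agent.Lib.MP_f1f412_co.E8SpDim
import Pool.Agent.Lib.MP_f1f412_co.E8TwoIso
import Pool.Agent.Lib.MP_f1f412_co.E8aa
import Pool.Agent.Lib.MP_f1f412_co.E8aa1
import Pool.Agent.Lib.MP_f1f412_co.E8aa4
import Pool.Agent.Lib.MP_f1f412_co.E8aa5
import Pool.Agent.Lib.MP_f1f412_co.E8aa6
import Pool.Agent.Lib.MP_f1f412_co.E8aaL
import Pool.Agent.Lib.MP_f1f412_co.E8ab
import Pool.Agent.Lib.MP_f1f412_co.E8ab1
import Pool.Agent.Lib.MP_f1f412_co.E8bb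
import Pool.Agent.Lib.MP_f1f412_co.E8bbS
import Pool.Agent.Lib.MP_f1f412_co.BAdd
import Pool.Agent.Lib.MP_f1f412_co.BCaseB
import Pool.Agent.Lib.MP_f1f412_co.BCnt9
import Pool.Agent.Lib.MP_f1f412_co.BCompP
import Pool.Agent.Lib.MP_f1f412_co.BCub
import Pool.Agent.Lib.MP_f1f412_co.BF3
import Pool.Agent.Lib.MP_f1f412_co.BFive
import Pool.Agent.Lib.MP_f1f412_co.BFour
import Pool.Agent.Lib.MP_f1f412_co.BLegV
import Pool.Agent.Lib.MP_f1f412_co.BLseN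
import Pool.Agent.Lib.MP_f1f412_co.BMb
import Pool.Agent.Lib.MP_f1f412_co.BNoTri
import Pool.Agent.Lib.MP_f1f412_co.BParts
import Pool.Agent.Lib.MP_f1f412_co.BRing
import Pool.Agent.Lib.MP_f1f412_co.BStar
import Pool.Agent.Lib.MP_f1f412_co.BTle
import Pool.Agent.Lib.MP_f1f412_co.BTri1
import Pool.Agent.Lib.MP_f1f412_co.BTri2
import Pool.Agent.Lib.MP_f1f412_co.BTri3a
import Pool.Agent.Lib.MP_f1f412_co.BTri3i
import Pool.Agent.Lib.MP_f1f412_co.BTriA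
import Pool.Agent.Lib.MP_f1f412_co.BTriB
import Pool.Agent.Lib.MP_f1f412_co.BTriEdge

/-!
# MP_f1f412_co (C34): assembly, part 2 (sections 8, 10, 11)
-/

set_option autoImplicit false

namespace Pool.Agent.MPf1f412

/-! ### section 8 -/

theorem aEV : S_EV := e8EV e8E

theorem aSp0 : S_Sp0 := e8Sp0 stab

theorem aDPd : S_DPd := e8DPd aDZP

theorem abbS : S_bbS := e8bbS e8LinE e8R1 e8R2 e8TwoIso

theorem abb : S_bb := e8bb abbS aSp0 aEV

theorem aab1 : S_ab1 := e8ab1 cover e8Perp aEV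

theorem aab : S_ab := e8ab aab1 aSp0 e8R1 e8R2

theorem aaa1 : S_aa1 := e8aa1 cover e8Perp

theorem aaa5 : S_aa5 := e8aa5 cover e8Perp e8E

theorem aaa6 : S_aa6 := e8aa6 e8Perp e8E aEV

theorem aaaL : S_aaL := e8aaL aaa1 e8aa4 aaa5 aaa6 e8Perp

theorem aaa : S_aa := e8aa aaaL aSp0 pT0

theorem aND : S_ND := e8ND e8Cnt8 aD0r e8SpDim aSp0 aDPd abb aab aaa

theorem aNDK : S_NDK := e8NDK aND

theorem aNDN : S_NDN := e8NDN aNDK

/-! ### sections 10 and 11 -/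

theorem aStar10 : S_Star10 := bStar Add bParts bTle

theorem aCub : S_Cub := bCub Add aStar10

theorem aCompPN : S_CompPN := bCompP aD0f aCompRig mrg

theorem aTriA : S_TriA := bTriA pExt bFour

theorem aTriB : S_TriB := bTriB bMb F3B aD0r

theorem aTri1 : S_Tri1 := bTri1 bTriEdge aTriA aTriB

theorem aRing : S_Ring := bRing aD0r

theorem aTri2 : S_Tri2 := bTri2 bTriEdge aRing bLseN

theorem aTri3i : S_Tri3i := bTri3i aRing bLseN

theorem aTri3a : S_Tri3a := bTri3a bLseN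

theorem aCnt9 : S_Cnt9 := bCnt9 bMb F3B

theorem aFive : S_Five := bFive aCnt9 aD0r

theorem aNoTri3 : S_NoTri3 := bNoTri bTriEdge aTri1 aTri2 aTri3i aTri3a bLegV aFive

theorem aCaseB : S_CaseB := bCaseB aCub aCompPN aNoTri3

end Pool.Agent.MPf1f412
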