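import Pool.Agent.Lib.MP_f1f412_co.Defs3

/-!
# MP_f1f412_co (C34), definitions 4: minimal sets of nodes, no adjacent nodes of degree two

`cn : V → N` is the node map `π ∘ c`; `dK G cn Z` is the number of edges leaving the set `Z` of nodes.
-/

set_option autoImplicit false

namespace Pool.Agent.MPf1f412

section

variable {V N : Type}

/-- `Z` is a minimal set of at least two nodes with at most `k` edges leaving it -/
structure MinZ (G : SimpleGraph V) (cn : V → N) (k : ℕ) (Z : Set N) : Prop where
  two : ∃ A ∈ Z, ∃ B ∈ Z, A ≠ B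
  le : dK G cn Z ≤ k
  min : ∀ T : Set N, T ⊆ Z → T ≠ Z → (∃ A ∈ T, ∃ B ∈ T, A ≠ B) → k < dK G cn T

/-- (ND) no two nodes of degree two are adjacent -/
def NDN (G : SimpleGraph V) (cn : V → N) : Prop :=
  ∀ u w, G.Adj u w → cn u ≠ cn w → dK G cn {cn u} = 2 → dK G cn {cn w} = 2 → False

end

end Pool.Agent.MPf1f412
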