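import Pool.Agent.Lib.MP_f1f412_co.Spec1

/-!
# MP_f1f412_co (C34), Spec Q: D0+ (TEXT1.md, section 3)

Every `S_...` is a statement to be proved in its own file (`Q<Name>.lean`); the docstring contains
the complete proof.  `L(u, w)` is `Ln (p u) (p w)`; a crossing edge of `G[S]` is `Cre G c S u w`;
we write `v` for the point `p v` where no confusion is possible.  The toolkit is in `Basic.lean`.
-/

set_option autoImplicit false

namespace Pool.Agent.MPf1f412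

open Matrix

section V

variable {V K : Type}

/-- `lam` carries the load `l` at the class `Y₁` and `-l` at the class `Y₂` -/
structure Ldd [Fintype V] (G : SimpleGraph V) (c : V → K) (p : V → R3) (S : Set K) (Y₁ Y₂ : K)
    (l : Tw) (lam : V → V → Tw) : Prop where
  pre : Pre G c p S lam
  vw : ∀ m' : K → Tw, ∑ u, kl (∑ w, lam u w) (m' (c u)) = kl l (m' Y₁ - m' Y₂)
  out1 : out c lam Y₁ = l
  out2 : out c lam Y₂ = -l
  out0 : ∀ X, X ≠ Y₁ → X ≠ Y₂ → out c lam X = 0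

/-- the support graph of `lam` -/
def sg (lam : V → V → Tw) : SimpleGraph V where
  Adj u w := u ≠ w ∧ lam u w ≠ 0 ∧ lam w u ≠ 0
  symm := ⟨fun _ _ h => ⟨h.1.symm, h.2.2, h.2.1⟩⟩
  loopless := ⟨fun _ h => h.1 rfl⟩

/-- the support classes of `lam` -/
def sc (c : V → K) (lam : V → V → Tw) : Set K := {X | ∃ u w, c u = X ∧ lam u w ≠ 0}

end V

/-- **QLin.** Linear duality.

Proof. Let `g : W → (I → Tw)`, `g x = (f i x)_i`, and `N = {y : I → Tw | ∀ i, y i ∈ ℝ ∙ L i}`; `φ` vanishes on `g⁻¹ N`.  So `φ` vanishes on `ker g` and `φ = ψ₀ ∘ g` on the range of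
`g`, `ψ₀` vanishes on `range g ⊓ N`; extend `ψ₀` to `range g ⊔ N` by `0` on `N` and then to a linear functional `ψ` on `I → Tw` (`LinearMap.exists_extend`; or: `φ` is in the span of the
finitely many functionals `x ↦ kl b (f i x)`, `b` in a basis of `{b | kl b (L i) = 0}`, by `mem_span_of_iInf_ker_le_ker`: if `kl b y = 0` for all `b` with
`kl b (L i) = 0` then `y ∈ ℝ ∙ L i`, as `kl` is nondegenerate).  `ψ y = ∑ i, kl (lam i) (y i)` (every functional on `Tw` is `kl b`), and `ψ = 0` on `N` gives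
`kl (lam i) (L i) = 0`. -/
def S_QLin : Prop := ∀ (I W : Type) [Fintype I] [AddCommGroup W] [Module ℝ W]
  (f : I → W →ₗ[ℝ] Tw) (L : I → Tw) (φ : W →ₗ[ℝ] ℝ),
  (∀ x, (∀ i, ∃ t : ℝ, f i x = t • L i) → φ x = 0) →
  ∃ lam : I → Tw, (∀ i, kl (lam i) (L i) = 0) ∧ ∀ x, φ x = ∑ i, kl (lam i) (f i x)

/-- **QDual** (from `QLin`).  The load.

Proof. `QLin` for `I = V × V`, `W = K → Tw`, `f (u,w) m = m (c u) - m (c w)` for crossing `u w` and `0` otherwise, `L (u,w) = L(u,w)`, `φ m = kl l (m Y₁ - m Y₂)`: the hypothesis says that `φ`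
vanishes on the motions.  We get `ν (u,w)` with `kl (ν (u,w)) L(u,w) = 0` and `φ m = ∑_{Cre u w} kl (ν (u,w)) (m (c u) - m (c w))` for all `m`.  Put `lam u w = ν (u,w) - ν (w,u)` for crossing
`u w` and `0` otherwise.  Antisymmetric; `kl (ν (w,u)) L(u,w) = - kl (ν (w,u)) L(w,u) = 0`, so orthogonal to the hinges.  `∑_u ∑_w kl (lam u w) (m (c u)) =
∑_{Cre u w} kl (ν (u,w)) (m (c u)) - ∑_{Cre u w} kl (ν (w,u)) (m (c u)) = ∑_{Cre u w} kl (ν (u,w)) (m (c u) - m (c w)) = φ m` (exchange the names `u, w` in the second sum): this is `vw`.  For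
`m = x` at `X` and `0` elsewhere the left side is `kl (out c lam X) x` and the right side `kl l x`, `- kl l x`, `0` for `X = Y₁`, `X = Y₂`, other `X`; `kl` is nondegenerate. -/
def S_QDual : Prop := ∀ (V K : Type) [Fintype V] (G : SimpleGraph V) (c : V → K) (p : V → R3)
  (S : Set K) (Y₁ Y₂ : K) (l : Tw), Y₁ ≠ Y₂ →
  (∀ m, IsMot G c p S m → kl l (m Y₁ - m Y₂) = 0) → ∃ lam, Ldd G c p S Y₁ Y₂ l lam

/-- **QCo.** Coefficients.

Proof. Choose `t u w` with `m (c u) - m (c w) = t u w • L(u,w)` for the crossing edges (`0` for the other pairs) and put `C u w = (t u w + t w u) / 2`: as `L(w,u) = - L(u,w)`,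
`t w u • L(u,w) = - (m (c w) - m (c u))`. -/
def S_QCo : Prop := ∀ (V K : Type) (G : SimpleGraph V) (c : V → K) (p : V → R3) (S : Set K)
  (m : K → Tw), IsMot G c p S m → ∃ C : V → V → ℝ, IsCo G c p S m C

/-- **QOm.** Avoiding finitely many lines.

Proof. `ω = (1, t, t²)`: for `a ≠ 0`, `cr ω a = 0` says that `a` is a multiple of `ω` (`a = a 0 • ω`, and `a 0 ≠ 0`), so `t = a 1 / a 0`: every `a` excludes at most one `t`; `ℝ` is infinite. -/
def S_QOm : Prop := ∀ F : Set R3, F.Finite → ∃ ω : R3, ω ≠ 0 ∧ ∀ a ∈ F, a ≠ 0 → cr ω a ≠ 0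

/-- **QStar** (from `Vw`, `Eq`).  (star) for the loaded `lam`.

Proof. Let `s = m Y₁ - m Y₂`, `s = (s₁, cr (p y₁) s₁)` as `ev s y₁ = 0`.  Let `δ ∈ R3`, `D` supported on `{v}` with `D3 D (p v) = δ` (`Gn`).  `Vw`, `Eq` (first part) and `vw` for
`m' X = DT D (m X)`: `- δ · ∑_w C(v,w) ev(lam v w, w) = kl l (DT D s)`, `l = (ω, y₁ × ω)`.  For all `a ∈ R3`: `kl (a, y₁ × a) s = 0` (T4).  Apply `D` to `kl l s = 0`:
`0 = kl l (D s) + kl (0, (D y₁) × ω) s + kl (D ω, y₁ × D ω) s = kl l (D s) + s₁ · ((D y₁) × ω)`.  If `v ≠ y₁` then `D y₁ = 0`, so `kl l (D s) = 0`, and `δ · ∑ = 0` for all `δ`.  If `v = y₁`: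
`kl l (D s) = - s₁ · (δ × ω) = - δ · (ω × s₁)`, so `δ · ∑ = δ · (ω × s₁)` for all `δ`. -/
def S_QStar : Prop := ∀ (V K : Type) [Fintype V] (G : SimpleGraph V) (c : V → K) (p : V → R3)
  (S : Set K) (m : K → Tw) (C : V → V → ℝ) (lam : V → V → Tw) (Y₁ Y₂ : K) (y₁ : V) (ω : R3), Gn p →
  IsCo G c p S m C → Ldd G c p S Y₁ Y₂ (ω, cr (p y₁) ω) lam → ev (m Y₁ - m Y₂) (p y₁) = 0 →
  (∀ v, v ≠ y₁ → ∑ w, C v w • ev (lam v w) (p w) = 0) ∧
  ∑ w, C y₁ w • ev (lam y₁ w) (p w) = cr ω (m Y₁ - m Y₂).1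

/-- **QY2.** Support degree one at `Y₂`.

Proof. `out c lam Y₂ = lam u w` (the only nonzero term), so `lam u w = - (ω, y₁ × ω)`.  `u ≠ y₁` as `c u = Y₂ ≠ c y₁`.  (star) at `u`: the only nonzero `lam u w'` is `lam u w`, so
`C u w • ev (lam u w) w = 0`, `C u w ≠ 0`, `ev (ω, y₁ × ω) w = ω × (w - y₁) = 0`, so `w = y₁`. -/
def S_QY2 : Prop := ∀ (V K : Type) [Fintype V] (c : V → K) (p : V → R3)
  (C : V → V → ℝ) (lam : V → V → Tw) (Y₂ : K) (y₁ : V) (ω : R3), c y₁ ≠ Y₂ →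
  (∀ w, w ≠ y₁ → cr ω (p w - p y₁) ≠ 0) → (∀ u w, lam u w ≠ 0 → C u w ≠ 0) →
  (∀ v, v ≠ y₁ → ∑ w, C v w • ev (lam v w) (p w) = 0) → out c lam Y₂ = -(ω, cr (p y₁) ω) →
  ∀ u w, c u = Y₂ → lam u w ≠ 0 →
  (∀ u' w', c u' = Y₂ → lam u' w' ≠ 0 → u' = u ∧ w' = w) → w = y₁

/-- **QY1.** Support degree one at `Y₁`.

Proof. `out c lam Y₁ = lam u w`, so `lam u w = (ω, y₁ × ω)`.  If `u ≠ y₁` then as in `QY2` (star) at `u` gives `w = y₁`; but `c w ≠ c u = Y₁ = c y₁` (`u w` is crossing).  So `u = y₁`, and (star) at `y₁`: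
`C y₁ w • (ω × (w - y₁)) = ω × s₁`, `s = m Y₁ - m Y₂ = (s₁, y₁ × s₁)` (`ev s y₁ = 0`).  By the choice of `ω`: `s₁ = C y₁ w • (w - y₁)`, so `s = C y₁ w • L(y₁,w)`
(`y₁ × (w - y₁) = y₁ × w`) `= m Y₁ - m (c w)`: `m (c w) = m Y₂`, `c w, Y₂ ∈ S`, so `c w = Y₂`. -/
def S_QY1 : Prop := ∀ (V K : Type) [Fintype V] (G : SimpleGraph V) (c : V → K) (p : V → R3)
  (S : Set K) (m : K → Tw) (C : V → V → ℝ) (lam : V → V → Tw) (Y₂ : K) (y₁ : V) (ω : R3),
  IsCo G c p S m C → Set.InjOn m S → Y₂ ∈ S → Pre G c p S lam →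
  (∀ w, w ≠ y₁ → cr ω (p w - p y₁) ≠ 0) →
  (∀ w, (m (c y₁) - m Y₂).1 - C y₁ w • (p w - p y₁) ≠ 0 →
    cr ω ((m (c y₁) - m Y₂).1 - C y₁ w • (p w - p y₁)) ≠ 0) →
  (∀ u w, lam u w ≠ 0 → C u w ≠ 0) → ev (m (c y₁) - m Y₂) (p y₁) = 0 →
  (∀ v, v ≠ y₁ → ∑ w, C v w • ev (lam v w) (p w) = 0) →
  ∑ w, C y₁ w • ev (lam y₁ w) (p w) = cr ω (m (c y₁) - m Y₂).1 →
  out c lam (c y₁) = (ω, cr (p y₁) ω) →
  ∀ u w, c u = c y₁ → lam u w ≠ 0 →
  (∀ u' w', c u' = c y₁ → lam u' w' ≠ 0 → u' = u ∧ w' = w) → u = y₁ ∧ c w = Y₂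

/-- **QSup.** The support structure.

Proof. `lam u w ≠ 0` iff `(sg lam).Adj u w` (`lam w u = - lam u w`; `u ≠ w` as `c u ≠ c w`), and then `u w` is a crossing edge of `G[S]`, so `c u, c w ∈ sc c lam ⊆ S`; a motion of `(G, c)` on
`S` is a motion of `(sg lam, c)` on `sc c lam`, which gives `FF`.  The crossing edges of `sg lam` on `sc c lam` are the `s(u, w)` with `lam u w ≠ 0`: every one of them belongs to exactly two ordered pairs
(`(u,w)` and `(w,u)`), which gives the last formula (`ec` is the number of the elements of `Sym2 V`; all edges have `id (c u) ≠ id (c w)`). -/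
def S_QSup : Prop := ∀ (V K : Type) [Fintype V] (G : SimpleGraph V) (c : V → K) (p : V → R3)
  (S : Set K) (lam : V → V → Tw), NoTri G → FF G c p S → Pre G c p S lam →
  sc c lam ⊆ S ∧ NoTri (sg lam) ∧ FF (sg lam) c p (sc c lam) ∧
  2 * ec (sg lam) c (sc c lam) = {z : V × V | lam z.1 z.2 ≠ 0}.ncard

/-- **QSix.** The constant motions.

Proof. `Mot G c p T` is finite dimensional (functions vanishing outside of the finite set `T`), and `Tw → Mot G c p T`, `x ↦` (`x` on `T`, `0` outside) is linear and injective (`T ≠ ∅`); `finrank Tw = 6`. -/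
def S_QSix : Prop := ∀ (V K : Type) (G : SimpleGraph V) (c : V → K) (p : V → R3) (T : Set K),
  T.Finite → T.Nonempty → 6 ≤ dmo G c p T

/-- **QMain** (from `LemN`, `Cnt`, `NoDbl`, `DIM`, `D0`, `QSup`, `QSix`).  The count.

Proof. `P` = the set of the pairs `(u,w)` with `lam u w ≠ 0`, symmetric; `T = sc c lam ⊆ S` finite and nonempty; `|image of c ∘ fst on P| = |T|`.  All `C u w ≠ 0` for `(u,w) ∈ P`: `m (c u) ≠ m (c w)` (`InjOn`) .
Degrees: a class `X ∈ T`, `X ≠ Y₁, Y₂` has degree at least `2`: if `(u,w)` were its only pair then `0 = out c lam X = lam u w`.  For `Y₁, Y₂` this is a hypothesis.  If `(u,w) ∈ P` with `c u, c w ∉ {Y₁, Y₂}`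
both have degree exactly `2` then `LemN` for `X₁ = c u`, `X₂ = c w`, `(x₁, x₂) = (u, w)`, `(x₁', y)` the other pair at `X₁`, `(x₂', y')` the other pair at `X₂` gives a contradiction (its hypothesis on parallel
edges is `NoDbl`, equilibrium is `out0`, (star) holds at the vertices of `X₁` and `X₂` as `c y₁ = Y₁`).  `Cnt` with `Ex = {Y₁, Y₂}`: `12 |T| ≤ 5 |P| + 8`, `|P| = 2 e`, `e = ec (sg lam) c T` (`QSup`).
By `D0` (for `sg lam` and `T`; `QSup`) there is no stress `≠ 0` of `(sg lam, c)` on `T`, so `DIM`: `dmo + 5 e = 6 |T|`, and `dmo ≥ 6` (`QSix`): `12 |T| ≥ 12 + 10 e`.  Contradiction. -/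
def S_QMain : Prop := ∀ (V K : Type) [Fintype V] (G : SimpleGraph V) (c : V → K) (p : V → R3)
  (S : Set K) (m : K → Tw) (C : V → V → ℝ) (lam : V → V → Tw) (Y₂ : K) (y₁ : V),
  S.Finite → Gn p → NoTri G → FF G c p S → IsCo G c p S m C → Set.InjOn m S → Pre G c p S lam →
  (∀ X, X ≠ c y₁ → X ≠ Y₂ → out c lam X = 0) →
  (∀ v, v ≠ y₁ → ∑ w, C v w • ev (lam v w) (p w) = 0) →
  (∃ u w u' w', c u = c y₁ ∧ c u' = c y₁ ∧ lam u w ≠ 0 ∧ lam u' w' ≠ 0 ∧ (u, w) ≠ (u', w')) →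
  (∃ u w u' w', c u = Y₂ ∧ c u' = Y₂ ∧ lam u w ≠ 0 ∧ lam u' w' ≠ 0 ∧ (u, w) ≠ (u', w')) → False

/-- **QFF** (from `GenM`, `QCo`, `QOm`, `QDual`, `QStar`, `QY1`, `QY2`, `QMain`).  D0+ for fully flexible structures.

Proof. `m` a motion, injective on `S` (`GenM`), `C` its coefficients (`QCo`), `s = m Y₁ - m Y₂` (`Y₁ = c y₁`).  `QOm` for the finite set of all `w - y₁` and all `s₁ - C y₁ w • (w - y₁)`, `w ∈ V`
(`p` is injective by general position).  `l = (ω, y₁ × ω)`: `kl l t = ω · ev t y₁ = 0` (T4) for all `t = m' Y₁ - m' Y₂`, `m'` a motion: `QDual` gives `lam`, `QStar` the identities.  `C u w ≠ 0` where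
`lam u w ≠ 0` (`m (c u) ≠ m (c w)`).  As `l ≠ 0` (`ω ≠ 0`), `out c lam Y₁ ≠ 0` and `out c lam Y₂ ≠ 0`, so there are pairs `(u,w)` with `lam u w ≠ 0` and `c u = Y₁`, and such with `c u = Y₂`.  If there is
exactly one pair with `c u = Y₂`: `QY2` gives `lam u y₁ ≠ 0`, so `G.Adj u y₁` and `c u = Y₂`: take `w = u`.  If there is exactly one pair with `c u = Y₁`: `QY1` gives `u = y₁`, `c w = Y₂`, and `G.Adj y₁ w`.  Otherwise
`QMain` gives a contradiction. -/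
def S_QFF : Prop := ∀ (V K : Type) [Fintype V] (G : SimpleGraph V) (c : V → K) (p : V → R3)
  (S : Set K), S.Finite → Gn p → NoTri G → FF G c p S → ∀ (y₁ : V) (Y₂ : K), c y₁ ∈ S → Y₂ ∈ S →
  c y₁ ≠ Y₂ → (∀ m, IsMot G c p S m → ev (m (c y₁) - m Y₂) (p y₁) = 0) →
  ∃ w, G.Adj y₁ w ∧ c w = Y₂

/-- **D0+** (from `QFF`, `Mrg`).

Proof. `c' = cmp ∘ c`, `S' = cmp '' S`: fully flexible (`Mrg`).  `Y₁ = c y₁`, `cmp Y₁ ≠ cmp Y₂` as there is a motion `m` with `m Y₁ ≠ m Y₂` (`Mrg` (1)).  If `m'` is a motion of `(G, c')` on `S'`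
then `m' ∘ cmp` is a motion of `(G, c)` on `S` (for a crossing edge `u w` of `G[S]` with `cmp (c u) = cmp (c w)` the difference is `0 • L`), so `ev (m' (c' y₁) - m' (cmp Y₂)) y₁ = 0`.  `QFF`: there is `w`
with `G.Adj y₁ w` and `cmp (c w) = cmp Y₂ ∈ S'`, so `c w ∈ S` (`Mrg` (2)) and `m (c w) = m Y₂` for all motions (`Mrg` (1)), that is `c w ∈ cmp Y₂`.  `c y₁ ≠ c w` (otherwise `m Y₁ = m Y₂` for all motions), so
`y₁ w` is a crossing edge and `m Y₁ - m Y₂ = m (c y₁) - m (c w) = t • L(y₁,w)`. -/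
def S_DZP : Prop := ∀ (V K : Type) [Fintype V] (G : SimpleGraph V) (c : V → K) (p : V → R3)
  (S : Set K), S.Finite → Gn p → NoTri G → ∀ (y₁ : V) (Y₂ : K), c y₁ ∈ S → Y₂ ∈ S →
  (∀ m, IsMot G c p S m → ev (m (c y₁) - m Y₂) (p y₁) = 0) →
  (∃ m, IsMot G c p S m ∧ m (c y₁) ≠ m Y₂) →
  ∃ w, G.Adj y₁ w ∧ c w ∈ cmp G c p S Y₂ ∧
    ∀ m, IsMot G c p S m → ∃ t : ℝ, m (c y₁) - m Y₂ = t • Ln (p y₁) (p w)

end Pool.Agent.MPf1f412
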