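import Pool.Agent.Lib.MP_f1f412_co.Spec1
import Pool.Agent.Lib.MP_f1f412_co.SpecQ
import Pool.Agent.Lib.MP_f1f412_co.Defs4

/-!
# MP_f1f412_co (C34), Spec 8: two nodes of degree 2 are not adjacent (TEXT3.md, section 8)

Every `S_...` is a statement to be proved in its own file; the docstring contains the complete proof.
We write `v` for `p v` and `L(u,w)` for `Ln (p u) (p w)`.
-/

set_option autoImplicit false

namespace Pool.Agent.MPf1f412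

open Matrix

/-! ## definitions -/

/-- the differences `m X - m Y` of the motions on `S` -/
def Sp {V K : Type} (G : SimpleGraph V) (c : V → K) (p : V → R3) (S : Set K) (X Y : K) :
    Submodule ℝ Tw where
  carrier := {t | ∃ m, IsMot G c p S m ∧ t = m X - m Y}
  add_mem' := by
    rintro _ _ ⟨m, hm, rfl⟩ ⟨m', hm', rfl⟩
    refine ⟨m + m', fun u w h => ?_, ?_⟩
    · obtain ⟨s, hs⟩ := hm u w h
      obtain ⟨t, ht⟩ := hm' u w h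
      refine ⟨s + t, ?_⟩
      rw [Pi.add_apply, Pi.add_apply, add_smul, ← hs, ← ht]
      abel
    · rw [Pi.add_apply, Pi.add_apply]
      abel
  zero_mem' := ⟨0, fun u w h => ⟨0, by simp⟩, by simp⟩
  smul_mem' := by
    rintro r _ ⟨m, hm, rfl⟩
    refine ⟨r • m, fun u w h => ?_, ?_⟩
    · obtain ⟨s, hs⟩ := hm u w h
      refine ⟨r * s, ?_⟩
      rw [Pi.smul_apply, Pi.smul_apply, ← smul_sub, hs, smul_smul]
    · rw [Pi.smul_apply, Pi.smul_apply, smul_sub]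

/-- the orthogonal complement for the Klein form -/
def pp (T : Submodule ℝ Tw) : Submodule ℝ Tw where
  carrier := {t | ∀ s ∈ T, kl s t = 0}
  add_mem' := by
    intro a b ha hb s hs
    have h1 := ha s hs
    have h2 := hb s hs
    simp only [kl, Prod.fst_add, Prod.snd_add, dotProduct_add, add_dotProduct] at h1 h2 ⊢
    linarith
  zero_mem' := by
    intro s _
    simp [kl]
  smul_mem' := by
    intro r a ha s hs
    have h1 := ha s hs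
    simp only [kl, Prod.smul_fst, Prod.smul_snd, dotProduct_smul, smul_dotProduct,
      smul_eq_mul] at h1 ⊢
    rw [← mul_add, h1, mul_zero]

/-- the matrix of the reflection `x ↦ x - 2 (x · n) / (n · n) n` -/
noncomputable def Rn (n : R3) : Matrix (Fin 3) (Fin 3) ℝ :=
  1 - (2 / (n ⬝ᵥ n)) • vecMulVec n n

/-- all classes except `X₁` and `X₂` -/
def Rest {K : Type} (X₁ X₂ : K) : Set K := {X | X ≠ X₁ ∧ X ≠ X₂}

/-- two adjacent classes `X₁`, `X₂` with two crossing edges each: `x₁ y₁`, `x₁' x₂'` at `X₁` and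
`x₂ y₂`, `x₂' x₁'` at `X₂`; if the two edges at a class have the same end in the class, the class has
only this vertex -/
structure Adj2 {V K : Type} (G : SimpleGraph V) (c : V → K) (X₁ X₂ : K)
    (x₁ x₁' x₂ x₂' y₁ y₂ : V) : Prop where
  ne : X₁ ≠ X₂
  c1 : c x₁ = X₁
  c1' : c x₁' = X₁
  c2 : c x₂ = X₂
  c2' : c x₂' = X₂
  e1 : G.Adj x₁ y₁
  e0 : G.Adj x₁' x₂'
  e2 : G.Adj x₂ y₂
  n11 : c y₁ ≠ X₁
  n12 : c y₁ ≠ X₂
  n21 : c y₂ ≠ X₁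
  n22 : c y₂ ≠ X₂
  o1 : ∀ u w, c u = X₁ → G.Adj u w → c w ≠ X₁ → (u = x₁ ∧ w = y₁) ∨ (u = x₁' ∧ w = x₂')
  o2 : ∀ u w, c u = X₂ → G.Adj u w → c w ≠ X₂ → (u = x₂ ∧ w = y₂) ∨ (u = x₂' ∧ w = x₁')
  s1 : x₁ = x₁' → ∀ u, c u = X₁ → u = x₁
  s2 : x₂ = x₂' → ∀ u, c u = X₂ → u = x₂

/-- the transfer property: the conclusion of (T) (`S_T`) -/
def Trf {V K : Type} (G : SimpleGraph V) (c : V → K) (p : V → R3) (g : K → Iso3) : Prop :=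
  ∀ η : V → R3, ∃ m : K → Tw, ∀ X Y u, Pin G c X u → Pin G c Y u →
    ev (m X - m Y) (p u) = ((g X).B - (g Y).B) *ᵥ η u

/-- the situation of section 8 -/
structure Nd {V K : Type} (G : SimpleGraph V) (c : V → K) (p q : V → R3) (g : K → Iso3) (X₁ X₂ : K)
    (x₁ x₁' x₂ x₂' y₁ y₂ : V) : Prop where
  tri : NoTri G
  gn : Gn p
  surj : Function.Surjective c
  pl : Pl G p q c g
  mn : MinPl G p q c
  tr : Trf G c p g
  ad : Adj2 G c X₁ X₂ x₁ x₁' x₂ x₂' y₁ y₂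

theorem Adj2.symm {V K : Type} {G : SimpleGraph V} {c : V → K} {X₁ X₂ : K}
    {x₁ x₁' x₂ x₂' y₁ y₂ : V} (h : Adj2 G c X₁ X₂ x₁ x₁' x₂ x₂' y₁ y₂) :
    Adj2 G c X₂ X₁ x₂ x₂' x₁ x₁' y₂ y₁ :=
  ⟨h.ne.symm, h.c2, h.c2', h.c1, h.c1', h.e2, h.e0.symm, h.e1, h.n22, h.n21, h.n12, h.n11, h.o2,
    h.o1, h.s2, h.s1⟩

theorem Nd.symm {V K : Type} {G : SimpleGraph V} {c : V → K} {p q : V → R3} {g : K → Iso3}
    {X₁ X₂ : K} {x₁ x₁' x₂ x₂' y₁ y₂ : V} (h : Nd G c p q g X₁ X₂ x₁ x₁' x₂ x₂' y₁ y₂) :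
    Nd G c p q g X₂ X₁ x₂ x₂' x₁ x₁' y₂ y₁ :=
  ⟨h.tri, h.gn, h.surj, h.pl, h.mn, h.tr, h.ad.symm⟩

/-- the linear algebra situation of case (aa); `T` is `Sp` -/
structure AA {V : Type} (p : V → R3) (T : Submodule ℝ Tw) (x₁ x₁' x₂ x₂' y₁ y₂ : V) : Prop where
  gn : Gn p
  nd : [x₁, x₁', x₂, x₂'].Nodup
  y1 : y₁ ∉ [x₁, x₁', x₂, x₂']
  y2 : y₂ ∉ [x₁, x₁', x₂, x₂']
  st : ∀ D, Spt p D {x₁, x₁', x₂, x₂'} → DSt D T
  dim : Module.finrank ℝ T ≤ 2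
  bot : y₁ = y₂ → T = ⊥
  d1 : Module.finrank ℝ T = 2 → ∃ t ∈ T, ev t (p y₁) ≠ 0
  d2 : Module.finrank ℝ T = 2 → ∃ t ∈ T, ev t (p y₂) ≠ 0

/-- `T + ℝ L(x₁,y₁) + ℝ L(x₂,y₂)` -/
def TT {V : Type} (p : V → R3) (T : Submodule ℝ Tw) (x₁ x₂ y₁ y₂ : V) : Submodule ℝ Tw :=
  T ⊔ Submodule.span ℝ {Ln (p x₁) (p y₁), Ln (p x₂) (p y₂)}

/-! ## general tools -/

/-- **8.1 Sp0** (40 lines; uses `S_Stab`).

Proof. (a) `- (m X - m Y) = m Y - m X`; `-m` is a motion.  (b) clear.  (c) Let `t = m X - m Y`; `DT D t = DT D (m X) - DT D (m Y)` and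
`X ↦ DT D (m X)` is a motion by `S_Stab`. -/
def S_Sp0 : Prop := ∀ (V K : Type) (G : SimpleGraph V) (c : V → K) (p : V → R3) (S : Set K)
  (X Y : K), Sp G c p S X Y = Sp G c p S Y X ∧ Sp G c p S X X = ⊥ ∧
    ∀ (D : Derivation ℚ ℝ ℝ) (A : Set V), Spt p D A → (∀ u ∈ A, ∀ w, ¬ Cre G c S u w) →
      DSt D (Sp G c p S X Y)

/-- **8.2 SpDim** (60 lines).

Proof. The linear map `Mot G c p S → Tw`, `m ↦ m X - m Y`, has range `Sp`: a predicate motion `m` is replaced by the function equal to `m` on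
`S` and `0` outside (in `Mot`; the values at `X, Y ∈ S` are not changed).  Its kernel contains for every twist `n` the function equal to `n` on `S` and `0`
outside; `n ↦` this function is injective (`X ∈ S`), so the kernel has dimension at least `6 = finrank ℝ Tw`.  Rank-nullity. -/
def S_SpDim : Prop := ∀ (V K : Type) [Finite K] (G : SimpleGraph V) (c : V → K) (p : V → R3)
  (S : Set K) (X Y : K), X ∈ S → Y ∈ S →
  Module.finrank ℝ (Sp G c p S X Y) + 6 ≤ dmo G c p S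

/-- **8.3 E** (30 lines).

Proof. `D (kl t L) = kl (DT D t) L + kl t (DT D L)` (Leibniz) and for `D` supported on `{x}`, `δ = D p_x`, `D p_y = 0`:
`DT D L(x,y) = (-δ, δ × y)`, `kl t (-δ, δ × y) = - δ · ev t y` (T5). -/
def S_E : Prop := ∀ (V : Type) (p : V → R3) (D : Derivation ℚ ℝ ℝ) (x y : V) (t : Tw), x ≠ y →
  Spt p D {x} → D (kl t (Ln (p x) (p y))) =
    kl (DT D t) (Ln (p x) (p y)) - D3 D (p x) ⬝ᵥ ev t (p y)

/-- **8.4 EV** (25 lines; uses `S_E`).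

Proof. Let `t ∈ T`, `δ ∈ R3`, `D` supported on `{x}` with `D p_x = δ` (`Gn`).  `kl t L(x,y) = 0`, and `kl (DT D t) L(x,y) = 0` as `DT D t ∈ T`.  (E) gives
`δ · ev t y = 0` for all `δ`. -/
def S_EV : Prop := ∀ (V : Type) (p : V → R3) (T : Submodule ℝ Tw) (x y : V), Gn p → x ≠ y →
  (∀ D, Spt p D {x} → DSt D T) → (∀ t ∈ T, kl t (Ln (p x) (p y)) = 0) → ∀ t ∈ T, ev t (p y) = 0

/-- **8.5 Perp** (80 lines).

Proof. `kl` is a symmetric nondegenerate bilinear form on `Tw` (`kl (0, e_i) m = m.1 i`, `kl (e_i, 0) m = m.2 i`); `pp T` is the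
orthogonal complement (`LinearMap.BilinForm.finrank_orthogonal` or the dual space).  (b) from (a) and `T ≤ pp (pp T)` by dimension.
(c) `t ∈ pp T`, `s ∈ T`: `0 = D (kl s t) = kl (DT D s) t + kl s (DT D t)` and `DT D s ∈ T`.  (d) Leibniz: `DT D (a + b) = DT D a + DT D b`.
(e) `DT D (r L) = (D r) L + r DT D L`, and `DT D L(u,w) = 0` if `D p_u = D p_w = 0`.  For two lines use (d), (e) and `Submodule.span_insert`. -/
def S_Perp : Prop := (∀ T : Submodule ℝ Tw, Module.finrank ℝ (pp T) + Module.finrank ℝ T = 6) ∧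
  (∀ T : Submodule ℝ Tw, pp (pp T) = T) ∧
  (∀ (D : Derivation ℚ ℝ ℝ) (T : Submodule ℝ Tw), DSt D T → DSt D (pp T)) ∧
  (∀ (D : Derivation ℚ ℝ ℝ) (T T' : Submodule ℝ Tw), DSt D T → DSt D T' → DSt D (T ⊔ T')) ∧
  (∀ (D : Derivation ℚ ℝ ℝ) (T T' : Submodule ℝ Tw), DSt D T → DSt D T' → DSt D (T ⊓ T')) ∧
  ∀ (V : Type) (p : V → R3) (D : Derivation ℚ ℝ ℝ) (u w : V), D3 D (p u) = 0 → D3 D (p w) = 0 →
    DSt D (Submodule.span ℝ {Ln (p u) (p w)})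

/-- **8.6 R1** (150 lines) rotation/reflection lemma.

Proof. For `x ∈ F` the number `r = φ(x)` is unique (`n ≠ 0`), `φ(x) = ((Cᵀ x - x) · n) / (n · n)`, linear.  `|Cᵀ x| = |x|` (also `C * Cᵀ = 1`):
`φ(x) (2 x·n + φ(x) n·n) = 0` on `F`: a product of two linear forms on `F`, so one of them is zero on `F` (`F` is not the union of two proper subspaces).
If `φ = 0`: `Cᵀ x = x`, so `C x = x` on `F`; put `C' = C`.  If `φ(x) = - 2 x·n / n·n`: `Cᵀ x = Rn n x` on `F`, `Rn n` is symmetric with square `1`, so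
`(C * Rn n)ᵀ x = x` on `F`; put `C' = C * Rn n` (orthogonal), `C' x = x` on `F`.
In both cases `C'` is orthogonal and fixes `F` pointwise.  If `finrank F = 3` then `C' = 1`.  Otherwise `finrank F = 2`; let `ν ≠ 0` be orthogonal to `F`.  `C' ν` is orthogonal to
`C' x = x` for `x ∈ F`, so `C' ν = κ ν`, `κ² = 1`.  `κ = 1`: `C' = 1`.  `κ = -1`: `C' = Rn ν` (they agree on `F` and at `ν`).
Second part: `F = ⊤`: `φ = 0` gives `Cᵀ = 1`, otherwise `Cᵀ = Rn n`, `C = Rn n`. -/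
def S_R1 : Prop := ∀ (C : Matrix (Fin 3) (Fin 3) ℝ) (n : R3), Cᵀ * C = 1 → n ≠ 0 →
  (∀ F : Submodule ℝ R3, 2 ≤ Module.finrank ℝ F → (∀ x ∈ F, ∃ r : ℝ, Cᵀ *ᵥ x - x = r • n) →
    ∃ C' : Matrix (Fin 3) (Fin 3) ℝ, (C' = C ∨ C' = C * Rn n) ∧
      (C' = 1 ∨ ∃ ν : R3, ν ≠ 0 ∧ C' = Rn ν)) ∧
  ((∀ x, ∃ r : ℝ, Cᵀ *ᵥ x - x = r • n) → C = 1 ∨ C = Rn n)

/-- **8.7 R2** (50 lines).

Proof. `n · n ≠ 0`, so `(Rn n)ᵀ * Rn n = 1`, and `Rn n` fixes the vectors orthogonal to `n`, in particular `a - w` and `b - w`.  `g'.A = g.A * Rn n`,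
`g'.b = g.A *ᵥ p w + g.b - g'.A *ᵥ p w`, so `g'.ap x = g.A *ᵥ (Rn n *ᵥ (x - p w)) + g.ap (p w)`. -/
def S_R2 : Prop := ∀ (g : Iso3) (w a b : R3), cr (b - w) (a - w) ≠ 0 →
  ∃ g' : Iso3, g'.A = g.A * Rn (cr (b - w) (a - w)) ∧ g'.ap w = g.ap w ∧ g'.ap a = g.ap a ∧
    g'.ap b = g.ap b

/-- **8.8 TwoIso** (80 lines) two isometries with a common point whose linear parts differ by a reflection.

Proof. `C = g₁.Aᵀ * g₂.A`, `h(x) = v + C (x - v)`; then `g₂.ap x = g₁.ap (h x)` (`g₁.A * g₁.Aᵀ = 1` and `g₁ v = g₂ v`).  If `C = 1` then `g₁.A = g₂.A`, and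
`g₁.b = g₂.b` (value at `v`).  Let `C = Rn ν`.  `g₁` preserves distances: `dsq y (h w) = dsq (g₁ y) (g₂ w) = dsq y w`.  `h(w) = w - κ ν`, `κ = 2 (w-v)·ν / ν·ν`:
`dsq y (h w) = dsq y w + 2 κ (y-w)·ν + κ² ν·ν`, and `κ ν·ν = 2 (w-v)·ν`, so `κ ((y-w)·ν + (w-v)·ν) = κ (y-v)·ν = 0`.  `κ = 0`: `h w = w`, `g₂ w = g₁ w`.
`(y-v)·ν = 0`: `h y = y`, `g₂ y = g₁ y`. -/
def S_TwoIso : Prop := ∀ (g₁ g₂ : Iso3) (v w y : R3), g₁.ap v = g₂.ap v →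
  dsq (g₁.ap y) (g₂.ap w) = dsq y w →
  (g₁.Aᵀ * g₂.A = 1 ∨ ∃ ν : R3, ν ≠ 0 ∧ g₁.Aᵀ * g₂.A = Rn ν) →
  g₁ = g₂ ∨ g₂.ap w = g₁.ap w ∨ g₂.ap y = g₁.ap y

/-- **8.9 LinE** (30 lines).

Proof. `E = comap M (span {n})`.  The map `R3 → R3 ⧸ span {n}`, `η ↦ [M η]`, has range in the span of `[e]`, of dimension at most one, and kernel `E`;
rank-nullity. -/
def S_LinE : Prop := ∀ (M : Matrix (Fin 3) (Fin 3) ℝ) (n e : R3),
  (∀ η : R3, ∃ β r : ℝ, M *ᵥ η = β • n + r • e) →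
  ∃ E : Submodule ℝ R3, 2 ≤ Module.finrank ℝ E ∧ ∀ η ∈ E, ∃ β : ℝ, M *ᵥ η = β • n

/-- **8.10 DPd** (30 lines; uses `S_DZP` of SpecQ): a subspace of differences contained in a star has dimension at most one.

Proof. If `Sp = ⊥` clear.  Otherwise there is a motion `m` with `m Y₁ ≠ m Y₂`, and `S_DZP` (`y₁ = y`) gives `w` with `Sp ≤ span {L(y,w)}`. -/
def S_DPd : Prop := ∀ (V K : Type) [Fintype V] (G : SimpleGraph V) (c : V → K) (p : V → R3)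
  (S : Set K) (Y₁ Y₂ : K) (y : V), S.Finite → Gn p → NoTri G → Y₁ ∈ S → Y₂ ∈ S → Y₁ ≠ Y₂ →
  c y = Y₁ → (∀ t ∈ Sp G c p S Y₁ Y₂, ev t (p y) = 0) →
  Module.finrank ℝ (Sp G c p S Y₁ Y₂) ≤ 1

/-! ## case (bb) -/

/-- **8.11 bbS** (170 lines; uses `S_LinE`, `S_R1`, `S_R2`, `S_TwoIso`).

Proof. Notation: `v = x₁ = x₁'`, `w = x₂ = x₂'`, `Y₁ = c y₁`, `Y₂ = c y₂`, `S = Rest X₁ X₂`.  The class `X₁` is `{v}` and the neighbours of `v` are `y₁`, `w` (`o1`; all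
edges at `v` are crossing), the class `X₂` is `{w}` with the neighbours `y₂`, `v`.  `v, w, y₁, y₂` are different (`y₁ ≠ y₂`: no triangle `v, w, y₁`).  Pins of `X₁`: `v, w, y₁`; pins
of `X₂`: `w, v, y₂`.  (1) `Y₁ ≠ Y₂`: otherwise `v, w, y₁` are pins of `Y₁` (`v ~ y₁`, `w ~ y₂`), so `g Y₁` works for `X₁` and `Y₁`: contradiction to `mn`.
(2) Let `η₀ ∈ R3` and `m` from `tr` for `η = η₀` at `v`, `0` elsewhere.  Edges not containing `v`: both ends `u` are pins of both classes, so `ev (m (c u) - m (c u')) ` vanishes at both ends and it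
is a multiple of `L` (T1); so `m` is a motion on `S`, `s := m Y₁ - m Y₂ ∈ Sp`, and `m X₂ - m Y₂ = β L(w,y₂)`.  At the other pins: `ev (m X₁ - m Y₁) y₁ = 0`, `ev (m X₁ - m X₂) w = 0`.  (T3):
`kl (m X₁ - m Y₁) L(y₁,w) = (w-y₁) · ev (m X₁ - m Y₁) y₁ = 0` and `kl (m X₁ - m X₂) L(y₁,w) = (w-y₁) · ev (m X₁ - m X₂) w = 0`, so
`kl (m X₂ - m Y₁) L(y₁,w) = 0`, `m X₂ - m Y₁ = β L(w,y₂) - s`, and `kl L(w,y₂) L(y₁,w) = (w-y₁) · ev L(w,y₂) w = 0`.  So `kl s L(y₁,w) = 0`, by hypothesis `s = r s₀`.  `v` is a pin of `X₂`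
and of `Y₁`: `β n - r ev s₀ v = ev (m X₂ - m Y₁) v = M η₀`, where `M = (g X₂).B - (g Y₁).B`, `n = ev L(w,y₂) v = (y₂-w) × (v-w) ≠ 0`.
(3) `S_LinE` with `e = ev s₀ v`: `E`.  `C := A₁ᵀ A₂`, `A₁ = (g Y₁).A`, `A₂ = (g X₂).A`; `M = (Cᵀ - 1) A₁ᵀ` (`A₁ A₁ᵀ = 1`); `F := E` mapped by `A₁ᵀ` (same dimension): `Cᵀ x - x ∈ ℝ n` for `x ∈ F`.
`S_R1` (first part): `C'`.  If `C' = C` put `g₂ = g X₂`; if `C' = C * Rn n` let `g₂` be the isometry of `S_R2` for `g X₂` and the points `w`, `v`, `y₂`.  In both cases `g₂` works for the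
pins `w, v, y₂` of `X₂`, `A₁ᵀ * g₂.A = C'`, and `C' = 1` or `C' = Rn ν`.
(4) `S_TwoIso` for `g₁ = g Y₁`, `g₂` and the points `v, w, y₁`: `g₁ v = q v = g₂ v`; `g₁ y₁ = q y₁`, `g₂ w = q w`, and `dsq (q y₁) (q w) = dsq y₁ w` because both are pins of `X₁` (`g X₁` is an isometry).
`g₁ = g₂`: it works for `Y₁` and `X₂`.  `g₂ w = g₁ w`: `g₁` works for `Y₁` and for the pins `v, w, y₁` of `X₁`.  `g₂ y₁ = g₁ y₁`: `g₂` works for `X₂` and for the pins of `X₁`.  Each is a contradiction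
to `mn` (`X₂ ≠ Y₁`, `X₁ ≠ Y₁`, `X₁ ≠ X₂`; all classes are in the range of `c`). -/
def S_bbS : Prop := ∀ (V K : Type) [Finite V] (G : SimpleGraph V) (c : V → K) (p q : V → R3)
  (g : K → Iso3) (X₁ X₂ : K) (v w y₁ y₂ : V) (s₀ : Tw), Nd G c p q g X₁ X₂ v v w w y₁ y₂ →
  (∀ s ∈ Sp G c p (Rest X₁ X₂) (c y₁) (c y₂), kl s (Ln (p y₁) (p w)) = 0 → ∃ r : ℝ, s = r • s₀) →
  False

/-- **8.12 bb** (90 lines; uses `S_bbS`, `S_Sp0`, `S_EV`).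

Proof. `T := Sp (Rest X₁ X₂) (c y₁) (c y₂)`, `D`-stable for `D` supported on `{v}` and on `{w}` (`S_Sp0`: no crossing edge of `G[S]` at `v`, `w`, as their classes are not in `S`).
`y₁ ≠ y₂` (no triangle).  (1) If some `t ∈ T` has `kl t L(y₁,w) ≠ 0` then the subspace of the `s ∈ T` with `kl s L(y₁,w) = 0` has dimension at most one
(it is a proper subspace of `T`, `finrank T ≤ 2`), so it is spanned by some `s₀`: `S_bbS`.  (2) If some `t ∈ T` has `kl t L(y₂,v) ≠ 0`: the same with the indices exchanged (`Nd.symm`;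
`Sp Y₂ Y₁ = Sp Y₁ Y₂`, `Rest X₂ X₁ = Rest X₁ X₂`).  (3) Otherwise `kl t L(w,y₁) = 0` for all `t ∈ T` (`L(w,y₁) = - L(y₁,w)`), so `S_EV` (with `x = w`, `y = y₁`) gives `ev t y₁ = 0`; in the same way
`ev t y₂ = 0` (`x = v`, `y = y₂`).  So `t = r L(y₁,y₂)` (T1): `S_bbS` with `s₀ = L(y₁,y₂)`. -/
def S_bb : Prop := ∀ (V K : Type) [Finite V] (G : SimpleGraph V) (c : V → K) (p q : V → R3)
  (g : K → Iso3) (X₁ X₂ : K) (v w y₁ y₂ : V), Nd G c p q g X₁ X₂ v v w w y₁ y₂ →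
  Module.finrank ℝ (Sp G c p (Rest X₁ X₂) (c y₁) (c y₂)) ≤ 2 → False

/-! ## case (ab) -/

/-- **8.13 ab1** (80 lines; uses `S_Cover`, `S_Perp`, `S_EV`).

Proof. `T' := T ⊔ span {L(x,y)}` is `D`-stable for `D` supported on `{w}` (`S_Perp`, `w ≠ x, y`).  Let `t ∈ T'`, `ev t w = 0`, `t ≠ 0`.  `S_Cover`: `finrank T' ≥ 3`; `finrank T' ≤ 2 + 1`, so
`finrank T' = 3`, `finrank T = 2`, and `kl = 0` on `T'`.  In particular `kl s L(x,y) = 0` for `s ∈ T`; `S_EV` (`D` supported on `{x}`): `ev s y = 0` for all `s ∈ T`: contradiction. -/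
def S_ab1 : Prop := ∀ (V : Type) (p : V → R3) (T : Submodule ℝ Tw) (x y w : V), Gn p → x ≠ y →
  w ≠ x → w ≠ y → (∀ D, Spt p D {w} → DSt D T) → (∀ D, Spt p D {x} → DSt D T) →
  Module.finrank ℝ T ≤ 2 → (Module.finrank ℝ T = 2 → ∃ t ∈ T, ev t (p y) ≠ 0) →
  ∀ t ∈ T ⊔ Submodule.span ℝ {Ln (p x) (p y)}, ev t (p w) = 0 → t = 0

/-- **8.14 ab** (150 lines; uses `S_ab1`, `S_Sp0`, `S_R1`, `S_R2`).

Proof. `w = x₂ = x₂'`, `Y₁ = c y₁`, `Y₂ = c y₂`, `S = Rest X₁ X₂`, `T = Sp S Y₁ Y₂`.  The class `X₂` is `{w}`, its pins are `w`, `x₁'`, `y₂` (`o2`, `s2`); `x₁' ≠ y₂` (different classes).  Let `η₀ ∈ R3`, `m` from `tr` for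
`η = η₀` at `x₁'`, `0` elsewhere.  Edges not containing `x₁'` satisfy the hinge condition (as in 8.11 (2)): `m` is a motion on `S`, `s := m Y₁ - m Y₂ ∈ T`, `m X₁ - m Y₁ = a L(x₁,y₁)` (`x₁ ≠ x₁'`),
`m X₂ - m Y₂ = β L(w,y₂)`; and `ev (m X₁ - m X₂) w = 0` (`w` is a pin of both).  `t := m X₁ - m Y₂ = a L(x₁,y₁) + s ∈ T ⊔ span {L(x₁,y₁)}`, `ev t w = ev (m X₁ - m X₂) w + β ev L(w,y₂) w = 0`.
`S_ab1` (`x = x₁`, `y = y₁`; `w ≠ x₁, y₁` have different classes; stability by `S_Sp0`): `t = 0`.  So `m X₁ - m X₂ = - β L(w,y₂)`, and at the pin `x₁'` of both classes: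
`- β n = ((g X₁).B - (g X₂).B) η₀`, `n = ev L(w,y₂) x₁' = (y₂-w) × (x₁'-w) ≠ 0`.
This holds for all `η₀`.  `C := A₁ᵀ A₂`, `A₁ = (g X₁).A`, `A₂ = (g X₂).A`: `(Cᵀ - 1) A₁ᵀ η₀ ∈ ℝ n` for all `η₀`, so `Cᵀ x - x ∈ ℝ n` for all `x`; `S_R1` (second part): `C = 1` or `C = Rn n`.
If `C = 1`: `A₂ = A₁`, and `g X₁`, `g X₂` agree at `x₁'`: they are equal, contradiction to `mn`.  If `C = Rn n`: let `g₂` be the isometry of `S_R2` for `g X₂` and `w`, `x₁'`, `y₂` (`n = cr (y₂-w) (x₁'-w)`): it works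
for the pins of `X₂`, `A₁ᵀ g₂.A = Rn n * Rn n = 1`, and it agrees with `g X₁` at `x₁'`: `g₂ = g X₁`, contradiction to `mn`. -/
def S_ab : Prop := ∀ (V K : Type) [Finite V] (G : SimpleGraph V) (c : V → K) (p q : V → R3)
  (g : K → Iso3) (X₁ X₂ : K) (x₁ x₁' w y₁ y₂ : V), Nd G c p q g X₁ X₂ x₁ x₁' w w y₁ y₂ → x₁ ≠ x₁' →
  Module.finrank ℝ (Sp G c p (Rest X₁ X₂) (c y₁) (c y₂)) ≤ 2 →
  (Module.finrank ℝ (Sp G c p (Rest X₁ X₂) (c y₁) (c y₂)) = 2 →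
    ∃ t ∈ Sp G c p (Rest X₁ X₂) (c y₁) (c y₂), ev t (p y₁) ≠ 0) → False

/-! ## case (aa) -/

/-- **8.15 aa1** (90 lines; uses `S_Cover`, `S_Perp`).

Proof. `TT` is `D`-stable for `D` supported on `{x₂'}` (`x₂'` is different from `x₁, y₁, x₂, y₂`).  `S_Cover`: `finrank TT ≥ 3`.  `finrank TT ≤ finrank T + 2`.  If `finrank TT = 3` then `kl = 0` on `TT`, so
`0 = kl L(x₁,y₁) L(x₂,y₂) = (y₂-x₂) · ((y₁-x₁) × (x₂-x₁))` (T3), a determinant of the differences of the four points `x₁, y₁, x₂, y₂`; if `y₁ ≠ y₂` they are different and this contradicts general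
position; if `y₁ = y₂` then `T = ⊥` and `finrank TT ≤ 2`, contradiction.  So `finrank TT ≥ 4`, hence `finrank T = 2`, `finrank TT = 4`, `T ≠ ⊥`, `y₁ ≠ y₂`. -/
def S_aa1 : Prop := ∀ (V : Type) (p : V → R3) (T : Submodule ℝ Tw) (x₁ x₁' x₂ x₂' y₁ y₂ : V),
  AA p T x₁ x₁' x₂ x₂' y₁ y₂ → ∀ t ∈ TT p T x₁ x₂ y₁ y₂, t ≠ 0 → ev t (p x₂') = 0 →
  Module.finrank ℝ (TT p T x₁ x₂ y₁ y₂) = 4 ∧ Module.finrank ℝ T = 2 ∧ y₁ ≠ y₂

/-- **8.16 aa4** (70 lines) pure linear algebra.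

Proof. `d := a - b ≠ 0`, `T₁ = (ω₁, b × ω₁)` (`ev T₁ b = 0`), `ev T₁ a = ω₁ × d = ν`, so `d · ν = 0`.  (T4): `ω₁ · ev l b = kl T₁ l = 0`.  (T3): `d · ev l b = 0`, `d · ev l a = 0` (`kl l L(a,b) = 0`).
`d × ν = d × (ω₁ × d) = |d|² ω₁ - (d·ω₁) d`, so `(d × ν) · ev l b = 0`.  `ev l b` is orthogonal to `d` and `d × ν`, and `d, ν, d × ν` are orthogonal and not zero: `ev l b = α ν`.  In the same way (with
`T₂`, `ev T₂ a = 0`, `ev T₂ b = ν`, `ω₂ × (b - a) = ν`) `ev l a = β ν`.  `l = (ω,τ)`: `ω × d = ev l a - ev l b = (β - α) ν`.  If `β ≠ α`: `ω · ν = 0` (`ω · (ω × d) = 0`).  If `β = α`: `ω = r d`, `ω · ν = 0`.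
`kl l l = 2 ω·τ = 2 ω · ev l a = 2 β ω·ν = 0`. -/
def S_aa4 : Prop := ∀ (a b ν : R3) (T₁ T₂ l : Tw), a ≠ b → ν ≠ 0 → ev T₁ a = ν → ev T₁ b = 0 →
  ev T₂ a = 0 → ev T₂ b = ν → kl T₁ l = 0 → kl T₂ l = 0 → kl l (Ln a b) = 0 → kl l l = 0

/-- **8.17 aa5** (110 lines; uses `S_Cover`, `S_Perp`, `S_E`).

Proof. `U := pp TT`, `finrank U = 2`, `D`-stable for `D` supported on a subset of `{x₁', x₂'}` (`x₁', x₂'` are different from `x₁, y₁, x₂, y₂`).  `L := L(x₁',x₂')`.  Since `finrank U = 2` there is `l ∈ U`, `l ≠ 0`, with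
`kl l L = 0`; by hypothesis `kl l l = 0`.  For `D` supported on `{x₁'}`: `0 = D (kl l l) = 2 kl l (Dl)`.
(1) Suppose that for some `D` supported on `{x₁'}` the twist `Dl` is not in `ℝ l`.  Then `U = span {l, Dl}`, so `kl l u = 0` for all `u ∈ U`: `l ∈ Rad := U ⊓ pp U`.  `Rad` is stable under this `D` (`S_Perp`), so `Dl ∈ Rad`, `Rad = U`: `kl = 0` on `U`.
(2) Otherwise `Dl ∈ ℝ l` for all `D` supported on `{x₁'}`; for `δ ∈ R3` choose `D` with `D p_(x₁') = δ`: by (E) (`x = x₁'`, `y = x₂'`) `0 = D (kl l L) = kl (Dl) L - δ · ev l x₂' = - δ · ev l x₂'`.  So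
`ev l x₂' = 0`, `l ∈ U`, `l ≠ 0`: `S_Cover` (`v = x₂'`, `T = U`): `finrank U ≥ 3`, contradiction. -/
def S_aa5 : Prop := ∀ (V : Type) (p : V → R3) (T : Submodule ℝ Tw) (x₁ x₁' x₂ x₂' y₁ y₂ : V),
  AA p T x₁ x₁' x₂ x₂' y₁ y₂ → Module.finrank ℝ (TT p T x₁ x₂ y₁ y₂) = 4 →
  (∀ l ∈ pp (TT p T x₁ x₂ y₁ y₂), kl l (Ln (p x₁') (p x₂')) = 0 → kl l l = 0) →
  ∀ l ∈ pp (TT p T x₁ x₂ y₁ y₂), ∀ l' ∈ pp (TT p T x₁ x₂ y₁ y₂), kl l l' = 0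

/-- **8.18 aa6** (150 lines; uses `S_Perp`, `S_E`, `S_EV`).

Proof. `L₁ = L(x₁,y₁)`, `L₂ = L(x₂,y₂)`, `U := pp TT`, `finrank U = 2`.  Suppose `ev l₀ y₁ ≠ 0` for some `l₀ ∈ U`.  `W := pp (T ⊔ span {L₂})`; since `finrank TT = 4`, `finrank T ≤ 2`:
`finrank (T ⊔ span {L₂}) = 3`, `finrank T = 2`, `finrank W = 3`.  `W` is `D`-stable for `D` supported on `{x₁}`; `U = {l ∈ W | kl l L₁ = 0}`.  Let `δ = ev l₀ y₁`, `D` supported on `{x₁}` with `D p_(x₁) = δ`.  For `l ∈ U` by (E): `kl (Dl) L₁ =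
δ · ev l y₁`.  If this is not `0` then `Dl ∈ W`, `Dl ∉ U`, so `W = U + ℝ Dl`; `kl l U = 0` and `kl l (Dl) = 0` (from `kl l l = 0`, apply `D`); so `kl l W = 0`.  The `l ∈ U` with `δ · ev l y₁ ≠ 0` span `U` (for
`l ∈ U` with value `0`: `l = (l + l₀) - l₀`): `kl U W = 0`.  Put `l₁ = D l₀ ∈ W`, `W = U + ℝ l₁`.
If `kl l₁ l₁ ≠ 0`: `Rad := W ⊓ pp W = U` (contains `U`; if `u + r l₁ ∈ Rad` then `r kl l₁ l₁ = 0`), `Rad` is `D`-stable, so `D l₀ = l₁ ∈ U`: contradiction.  So `kl l₁ l₁ = 0`, `kl = 0` on `W`,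
`W ≤ pp W = T ⊔ span {L₂}`, both of dimension `3`: equal.  So `kl s L₂ = 0` for `s ∈ T` (both are in `W`).  `S_EV` (`x = x₂`, `y = y₂`): `ev s y₂ = 0` for all `s ∈ T`, and `finrank T = 2`: contradiction to `AA.d2`. -/
def S_aa6 : Prop := ∀ (V : Type) (p : V → R3) (T : Submodule ℝ Tw) (x₁ x₁' x₂ x₂' y₁ y₂ : V),
  AA p T x₁ x₁' x₂ x₂' y₁ y₂ → Module.finrank ℝ (TT p T x₁ x₂ y₁ y₂) = 4 →
  (∀ l ∈ pp (TT p T x₁ x₂ y₁ y₂), ∀ l' ∈ pp (TT p T x₁ x₂ y₁ y₂), kl l l' = 0) →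
  ∀ l ∈ pp (TT p T x₁ x₂ y₁ y₂), ev l (p y₁) = 0

/-- **8.19 aaL** (80 lines; uses `S_aa1`, `S_aa4`, `S_aa5`, `S_aa6`, `S_Perp`).

Proof. `M ≠ 0`: choose `η` with `ν := M η ≠ 0`.  `T₁` from `(η, 0)`, `T₂` from `(0, η)`.  `T₁ ≠ 0`, `ev T₁ x₂' = 0`: `S_aa1`: `finrank TT = 4`, `y₁ ≠ y₂`.  For `l ∈ pp TT` with `kl l L(x₁',x₂') = 0`: `S_aa4` with `a = x₁'`, `b = x₂'`: `kl l l = 0`.
`S_aa5`: `kl = 0` on `pp TT`.  `S_aa6`: `ev l y₁ = 0` for all `l ∈ pp TT`, and with the indices exchanged (`AA` is symmetric, `TT` is the same subspace) `ev l y₂ = 0`.  So `pp TT ≤ span {L(y₁,y₂)}` (T1), but `finrank (pp TT) = 2`. -/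
def S_aaL : Prop := ∀ (V : Type) (p : V → R3) (T : Submodule ℝ Tw) (x₁ x₁' x₂ x₂' y₁ y₂ : V)
  (M : Matrix (Fin 3) (Fin 3) ℝ), AA p T x₁ x₁' x₂ x₂' y₁ y₂ → M ≠ 0 →
  (∀ η₁ η₂ : R3, ∃ t ∈ TT p T x₁ x₂ y₁ y₂, ev t (p x₁') = M *ᵥ η₁ ∧ ev t (p x₂') = M *ᵥ η₂) →
  False

/-- **8.20 aa** (100 lines; uses `S_aaL`, `S_Sp0`, `S_T0`).

Proof. `Y₁ = c y₁`, `Y₂ = c y₂`, `S = Rest X₁ X₂`, `T = Sp S Y₁ Y₂`, `M = (g X₁).B - (g X₂).B ≠ 0` (`S_T0`: `x₁'` is a pin of `X₁` and of `X₂`).  `AA`: the vertices `x₁ ≠ x₁'` are in `X₁`, `x₂ ≠ x₂'` in `X₂`, `y₁, y₂` in other classes; stability: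
`S_Sp0` with `A = {x₁,x₁',x₂,x₂'}`; `bot`: `Y₁ = Y₂` if `y₁ = y₂`.  For `η₁, η₂` let `m` be from `tr` for `η = η₁` at `x₁'`, `η₂` at `x₂'`, `0` elsewhere.  Edges not containing `x₁'`, `x₂'`: hinge condition (both ends are pins of both
classes, (T1)).  So `m` is a motion on `S`, `s = m Y₁ - m Y₂ ∈ T`, `m X₁ - m Y₁ = a L(x₁,y₁)`, `m X₂ - m Y₂ = b L(x₂,y₂)`, `t := m X₁ - m X₂ = a L(x₁,y₁) + s - b L(x₂,y₂) ∈ TT`; `x₁'`, `x₂'` are pins of `X₁` and `X₂`: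
`ev t x₁' = M η₁`, `ev t x₂' = M η₂`. -/
def S_aa : Prop := ∀ (V K : Type) [Finite V] (G : SimpleGraph V) (c : V → K) (p q : V → R3)
  (g : K → Iso3) (X₁ X₂ : K) (x₁ x₁' x₂ x₂' y₁ y₂ : V),
  Nd G c p q g X₁ X₂ x₁ x₁' x₂ x₂' y₁ y₂ → x₁ ≠ x₁' → x₂ ≠ x₂' →
  Module.finrank ℝ (Sp G c p (Rest X₁ X₂) (c y₁) (c y₂)) ≤ 2 →
  (Module.finrank ℝ (Sp G c p (Rest X₁ X₂) (c y₁) (c y₂)) = 2 →
    ∃ t ∈ Sp G c p (Rest X₁ X₂) (c y₁) (c y₂), ev t (p y₁) ≠ 0) →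
  (Module.finrank ℝ (Sp G c p (Rest X₁ X₂) (c y₁) (c y₂)) = 2 →
    ∃ t ∈ Sp G c p (Rest X₁ X₂) (c y₁) (c y₂), ev t (p y₂) ≠ 0) → False

/-! ## the count and the result -/

/-- **8.21 Cnt8** (110 lines).

Proof. For `f : K → J` let `f' : K → Option (Option J)`, `f' X₁ = none`, `f' X₂ = some none`, `f' Z = some (some (f Z))` for `Z ∈ S = Rest X₁ X₂`; not constant.  Let `Z` be the set of the `z : Sym2 V` counted in `ef G c univ f'`.  Such an edge has either both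
ends in classes of `S`, then it is counted in `ef G c S f` (and conversely), or an end in `X₁` or `X₂`: these are exactly `s(x₁,y₁)`, `s(x₁',x₂')`, `s(x₂,y₂)` (`o1`, `o2`), three different elements.  So
`ef G c univ f' = ef G c S f + 3`.  `(f' '' univ).ncard = (f '' S).ncard + 2`.  `1 ≤ sf G c univ f' = sf G c S f + 15 - 12`. -/
def S_Cnt8 : Prop := ∀ (V K : Type) [Finite V] [Finite K] (G : SimpleGraph V) (c : V → K)
  (X₁ X₂ : K) (x₁ x₁' x₂ x₂' y₁ y₂ : V), Adj2 G c X₁ X₂ x₁ x₁' x₂ x₂' y₁ y₂ →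
  (∀ (J : Type) (f : K → J), (∃ X Y, f X ≠ f Y) → 1 ≤ sf G c Set.univ f) →
  ∀ (J : Type) (f : K → J), -2 ≤ sf G c (Rest X₁ X₂) f

/-- **8.22 ND** (70 lines; uses `S_Cnt8`, `S_D0r`, `S_SpDim`, `S_Sp0`, `S_DPd`, `S_bb`, `S_ab`, `S_aa`).

Proof. `K` is finite (`c` is surjective).  `S = Rest X₁ X₂`.  `S_Cnt8` and `S_D0r` (`k = 2`): `dmo G c p S ≤ 8`; `S_SpDim`: `finrank (Sp S Y₁ Y₂) ≤ 2` (`Y₁ = c y₁`, `Y₂ = c y₂ ∈ S`).  `S_DPd` for `(Y₁, Y₂, y₁)` and (with `Sp Y₂ Y₁ = Sp Y₁ Y₂`)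
for `(Y₂, Y₁, y₂)`: if `finrank Sp = 2` then `Y₁ ≠ Y₂` (`Sp X X = ⊥`) and `Sp` is in neither star.  Cases: `x₁ = x₁'`, `x₂ = x₂'`: `S_bb`; `x₁ ≠ x₁'`, `x₂ = x₂'`: `S_ab`; `x₁ = x₁'`, `x₂ ≠ x₂'`: `S_ab` for `Nd.symm` (`Rest X₂ X₁ = Rest X₁ X₂`);
`x₁ ≠ x₁'`, `x₂ ≠ x₂'`: `S_aa`. -/
def S_ND : Prop := ∀ (V K : Type) [Finite V] (G : SimpleGraph V) (c : V → K) (p q : V → R3)
  (g : K → Iso3), NoTri G → Gn p → Function.Surjective c → Pl G p q c g → MinPl G p q c →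
  Trf G c p g → (∀ (J : Type) (f : K → J), (∃ X Y, f X ≠ f Y) → 1 ≤ sf G c Set.univ f) →
  ∀ X₁ X₂ x₁ x₁' x₂ x₂' y₁ y₂, ¬ Adj2 G c X₁ X₂ x₁ x₁' x₂ x₂' y₁ y₂

/-- **8.23 NDK** (60 lines; uses `S_ND`).

Proof. The edge `a b` is crossing for both classes; by `D2.all` it is one of the two edges of each of them.  `D2` is symmetric under the exchange of the two edges, so we may assume `a = x'`, `b = y'` and
`b = u'`, `a = v'`.  Then `Adj2 G c X₁ X₂ x x' u u' y v` (`n12`, `n21` from `D2.cyy`), and `S_ND` for the fields of `Env`. -/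
def S_NDK : Prop := ∀ (V K : Type) [Finite V] (G : SimpleGraph V) (c : V → K) (p q : V → R3)
  (g : K → Iso3), Env G c p q g → ∀ X₁ X₂ x y x' y' u v u' v', D2 G c X₁ x y x' y' →
  D2 G c X₂ u v u' v' → X₁ ≠ X₂ → ∀ a b, G.Adj a b → c a = X₁ → c b = X₂ → False

/-- **8.24 NDN** (30 lines; uses `S_NDK`).

Proof. `NEnv.deg2` for the two nodes. -/
def S_NDN : Prop := ∀ (V K N : Type) [Finite V] (G : SimpleGraph V) (c : V → K) (p q : V → R3)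
  (g : K → Iso3) (π : K → N), NEnv G c p q g π → NDN G (π ∘ c)

end Pool.Agent.MPf1f412
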