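import Pool.Agent.Lib.MP_f1f412_co.Defs3

/-!
# MP_f1f412_co (C34), Spec B: sections 10 and 11 of TEXT3 (Case B: the cubic triangle)

Every `S_...` is a statement to be proved in its own file; the docstring contains the complete proof.
Sets of nodes are `S : Set N`, the structure of the nodes is `(G, π ∘ c)`; in the counting lemmas
`cp : V → N` is any map.
-/

set_option autoImplicit false

namespace Pool.Agent.MPf1f412

open Matrix

section

variable {V K N : Type}

/-- the number of edges from the set `A` to the set `B` of nodes -/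
noncomputable def eAB (G : SimpleGraph V) (cp : V → N) (A B : Set N) : ℕ :=
  {e : V × V | G.Adj e.1 e.2 ∧ cp e.1 ∈ A ∧ cp e.2 ∈ B}.ncard

/-- `A, B, C` is a cubic triangle of nodes -/
structure CTri (G : SimpleGraph V) (cp : V → N) (A B C : N) : Prop where
  ab : A ≠ B
  bc : B ≠ C
  ca : C ≠ A
  eab : ∃ u w, G.Adj u w ∧ cp u = A ∧ cp w = B
  ebc : ∃ u w, G.Adj u w ∧ cp u = B ∧ cp w = C
  eca : ∃ u w, G.Adj u w ∧ cp u = C ∧ cp w = A
  dA : dK G cp {A} = 3
  dB : dK G cp {B} = 3
  dC : dK G cp {C} = 3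

/-- the component property used in section 10: `r S` is the component map of the set `S` of nodes -/
structure CompP (G : SimpleGraph V) (cp : V → N) (r : Set N → N → Set N) : Prop where
  /-- at most one edge between two nodes -/
  one : ∀ u y u' y', cp u ≠ cp y → cp u = cp u' → cp y = cp y' → G.Adj u y → G.Adj u' y' →
    u = u' ∧ y = y'
  /-- a node `A` which is not in a given component of `S` sends at most one edge to it -/
  slow : ∀ (S : Set N) (A : N) (u y u' y' : V), cp u = A → cp u' = A → cp y ∈ S →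
    cp y' ∈ S → r S (cp y) = r S (cp y') → (A ∉ S ∨ r S A ≠ r S (cp y)) → G.Adj u y →
    G.Adj u' y' → u = u' ∧ y = y'
  /-- if there are at least two components then there are few edges between them -/
  few : ∀ S : Set N, 2 ≤ (r S '' S).ncard →
    5 * ef G cp S (r S) + 7 ≤ 6 * (r S '' S).ncard

/-! ## section 10: the cubic triangle -/

/-- **B1.** (60 lines) Additivity of `dK`.

Proof.  (a) The edges leaving `{X}` are split by the node of the other end: in `S` or not in `S`.  The set of `dK {X}` is the disjoint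
union of the sets of `eAB {X} (S \ {X})` and `eAB {X} Sᶜ`.
(b) The edges leaving `S \ {X}`: they go to `X` (in bijection with `eAB {X} (S \ {X})` by exchanging the two components) or to `Sᶜ`.
The edges leaving `S` start in `X` (`eAB {X} Sᶜ`) or in `S \ {X}`.  So `dK (S \ {X}) + eAB {X} Sᶜ = dK S + eAB {X} (S \ {X})`. -/
def S_Add : Prop := ∀ (V N : Type) [Finite V] (G : SimpleGraph V) (cp : V → N) (S : Set N),
  ∀ X ∈ S, dK G cp {X} = eAB G cp {X} (S \ {X}) + eAB G cp {X} Sᶜ ∧
    dK G cp (S \ {X}) + eAB G cp {X} Sᶜ = dK G cp S + eAB G cp {X} (S \ {X})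

/-- **B2.** (100 lines) The sum over the parts of a partition `f` of `S`.

Proof.  The edges (ordered pairs `e` with `e.1` in the part `{Y ∈ S | f Y = j}` and `e.2` not in it) for all `j` together: an ordered pair `e`
with `cp e.1 ∈ S` and (`cp e.2 ∉ S` or `f (cp e.1) ≠ f (cp e.2)`) occurs for exactly one `j`, namely `f (cp e.1)`.  The pairs with `cp e.2 ∉ S` are those
of `dK S`; the pairs with both ends in `S` and different values of `f` are the two orientations of the edges counted by `ef G cp S f`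
(`f (cp u) ≠ f (cp w)` implies `cp u ≠ cp w`): `2 * ef`.  (For the count of the orientations use
`SimpleGraph` darts or: the map `e ↦ s(e.1, e.2)` from this set onto the set of `ef` is two to one.) -/
def S_Parts : Prop := ∀ (V N J : Type) [Finite V] [Finite N] (G : SimpleGraph V) (cp : V → N)
  (S : Set N) (f : N → J) (F : Finset J), (F : Set J) = f '' S →
  ∑ j ∈ F, dK G cp {Y | Y ∈ S ∧ f Y = j} = 2 * ef G cp S f + dK G cp S

/-- **B3.** (80 lines) The edges from a node to the components.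

Proof.  Let `t = eAB {X} (S \ {X})`, `S' = S \ {X}`.  The map which sends a pair `e` (with `cp e.1 = X`, `cp e.2 ∈ S'`) to `r S' (cp e.2)` is
injective by `slow` (`X ∉ S'`), with values in `r S' '' S'`. -/
def S_Tle : Prop := ∀ (V N : Type) [Finite V] [Finite N] (G : SimpleGraph V) (cp : V → N)
  (r : Set N → N → Set N), CompP G cp r → ∀ (S : Set N), ∀ X ∈ S,
  eAB G cp {X} (S \ {X}) ≤ (r (S \ {X}) '' (S \ {X})).ncard

/-- **B4.** (120 lines; uses `S_Add`, `S_Parts`, `S_Tle`) The basic inequality (*).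

Here `S` is minimal: every set `T ⊆ S` with at least two nodes, `T ≠ S`, has `d(T) ≥ 4`.  `D = d(S) ≤ 3`, `X ∈ S`, `S' = S \ {X}`,
`m` = number of components of `S'`, `ext = eAB {X} Sᶜ`, `t = eAB {X} S'`.
Proof.  `S'` has at least two elements: `4 ≤ d(S') = D - ext + t` (`S_Add`), so `t ≥ 1 + ext`; if `t = 1` then `ext = 0` (and `D = 3`) and `d({X}) = 1`, impossible.
So `t ≥ 2`, `m ≥ t` (`S_Tle`).  `few`: `5 e' + 7 ≤ 6 m`, `e' = ef G cp S' (r S')`.  `S_Parts` for `S'`, `f = r S'`:
`∑ d(Y_j) = 2 e' + d(S')`.  Every part `Y_j` is nonempty; `d(Y_j) ≥ 3` (single node) or `≥ 4` (at least two nodes; it is a proper subset of `S`).  Let `μ_j = d(Y_j) - 3`.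
`3 m + ∑ μ_j = 2 e' + d(S')`; times 5: `3 m + 5 ∑ μ_j + 14 ≤ 5 d(S')`. -/
def S_Star10 : Prop := ∀ (V N : Type) [Finite V] [Finite N] (G : SimpleGraph V) (cp : V → N)
  (r : Set N → N → Set N), CompP G cp r → ∀ (S : Set N), 3 ≤ S.ncard → dK G cp S ≤ 3 →
  (∀ Y ∈ S, 3 ≤ dK G cp {Y}) → (∀ T ⊆ S, T ≠ S → 2 ≤ T.ncard → 4 ≤ dK G cp T) →
  ∀ X ∈ S, ∃ (F : Finset (Set N)), (F : Set (Set N)) = r (S \ {X}) '' (S \ {X}) ∧
    2 ≤ eAB G cp {X} (S \ {X}) ∧ 1 + eAB G cp {X} Sᶜ ≤ eAB G cp {X} (S \ {X}) ∧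
    eAB G cp {X} (S \ {X}) ≤ F.card ∧
    (∀ j ∈ F, 3 ≤ dK G cp {Y | Y ∈ S \ {X} ∧ r (S \ {X}) Y = j}) ∧
    ∑ j ∈ F, dK G cp {Y | Y ∈ S \ {X} ∧ r (S \ {X}) Y = j} =
      2 * ef G cp (S \ {X}) (r (S \ {X})) + dK G cp (S \ {X}) ∧
    5 * ef G cp (S \ {X}) (r (S \ {X})) + 7 ≤ 6 * F.card

/-- **B5.** (150 lines; uses `S_Add`, `S_Star10`) The cubic triangle.

Proof.  Let `S ⊆ Z` be a set with `2 ≤ |S|`, `d(S) ≤ 3` and `|S|` minimal (`Z` is such a set).  So every `T ⊆ S`, `T ≠ S`, `2 ≤ |T|` has `d(T) ≥ 4`.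
`|S| ≠ 2`: for `S = {X, Y}` `d(S) + 2 eAB {X} {Y} = d({X}) + d({Y}) ≥ 6` and `eAB {X} {Y} ≤ 1` (`one`): `d(S) ≥ 4`.  (Use `S_Add` twice.)  So `|S| ≥ 3` and `S_Star10` applies to all `X ∈ S`.
Write `m = F.card`, `d_j = dK (Y_j)`, `μ = ∑ (d_j - 3)`, `D = dK S`, `t, ext` as above, `d(S') = D - ext + t`: (*) `3 m + 5 μ + 14 ≤ 5 (D - ext + t)`.
(1) Some node of `S` has degree 3.  Otherwise all `d_j ≥ 4` (single nodes: degree `≥ 4`; at least two nodes: `≥ 4` by minimality), `μ ≥ m`, `8 m + 14 ≤ 5 (D + t) ≤ 5 (3 + m)`: `3 m ≤ 1`, but `m ≥ 2`.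
(2) Let `X ∈ S` have `d({X}) = 3 = t + ext`; `t ≥ 1 + ext` gives `ext ≤ 1`.  (*) is `3 m + 5 μ + 10 ext ≤ 5 D + 1`.
(3) If `ext = 1`: `t = 2`, `m ≥ 2`, `6 + 5 μ + 10 ≤ 5 D + 1`: `D = 3`, `3 m + 5 μ ≤ 6`: `m = 2`, `μ = 0`: the two parts `Y_1, Y_2` of `S'` have `d = 3`, so each is a single node (at least two nodes would give `≥ 4`):
`S' = {Y, Y'}`, `d({Y}) = d({Y'}) = 3`, and `2 e' = 6 - d(S') = 6 - (3 - 1 + 2) = 2`: `e' = 1`: `Y` and `Y'` are joined.  `X` sends `t = 2` edges to `S'`, at most one to each of `Y, Y'` (`one`), so it is joined to both.  Done: `A = X`, `B = Y`, `C = Y'`.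
(4) Otherwise `ext = 0` for every `X ∈ S` with `d({X}) = 3`.  Fix one: `t = 3`, `m ≥ 3`, (*) `3 m + 5 μ ≤ 5 D + 1`: `9 ≤ 5 D + 1`, `D ≥ 2`.
If `μ = 0`: all parts of `S'` have `d = 3`, hence are single nodes of degree 3, so all nodes of `S` have degree 3 and `ext = 0`, no edge leaves `S`: `D = 0`, contradiction.  So `μ ≥ 1`, `9 + 5 ≤ 5 D + 1`: `D = 3`, `3 m + 5 μ ≤ 16`: `μ = 1`, `m = 3`
(`μ ≥ 2` would give `19`).  So two of the three parts are single nodes `Y, Y'` of degree 3 and the third part `W` has `d(W) = 4`.  `2 e' = 9 + 1 - d(S') = 10 - 6 = 4`: `e' = 2`.  `Y` has `ext = 0`, so its three edges go to `X`, `Y'` and `W`, at most one to each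
(`slow` for the set `S'` and the part `W`, `A = Y`): exactly one to each.  In the same way for `Y'`.  So there are an edge `Y Y'`, an edge from `Y` to `W` and an edge from `Y'` to `W`: `e' ≥ 3`.  Contradiction. -/
def S_Cub : Prop := ∀ (V N : Type) [Finite V] [Finite N] (G : SimpleGraph V) (cp : V → N)
  (r : Set N → N → Set N), CompP G cp r → ∀ Z : Set N, 2 ≤ Z.ncard → dK G cp Z ≤ 3 →
  (∀ Y ∈ Z, 3 ≤ dK G cp {Y}) → ∃ A B C, A ∈ Z ∧ B ∈ Z ∧ C ∈ Z ∧ CTri G cp A B C

/-- **B6.** (100 lines; uses `S_D0f`, `S_CompRig`, `S_Mrg` of Spec1) The components of sets of nodes.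

Proof.  `r S = cmp G (π ∘ c) p S`.  (one) `slowN` for `S = {cp y}` (every structure on a set with one class is rigid: `Rig` is trivial).
(slow) Let `T = cmp G (π ∘ c) p S (cp y)`; it is the set of all `Y ∈ S` with `r S Y = r S (cp y)` (if `cmp Y = cmp X` and `Y ∈ S` then `Y ∈ cmp Y = cmp X`), it contains `cp y` and `cp y'`, it is rigid (`S_CompRig` for the class map `π ∘ c`), and
`A ∉ T` (if `A ∈ S` and `A ∈ T` then `r S A = r S (cp y)`: members of `cmp X` have the same `cmp`, see `S_Mrg` (1)).  `slowN` for `T`.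
(few) `S_D0f` for `(G, π ∘ c)`: `dmo + 5 ef = 6 m`, and `dmo ≥ 7`: the space `Mot G (π ∘ c) p S` contains the constants on `S` (dimension 6, `S` is nonempty) and, as there are two different components,
a motion with different values on two classes of `S`. -/
def S_CompPN : Prop := ∀ (V K N : Type) [Fintype V] [Finite K] [Finite N] (G : SimpleGraph V)
  (c : V → K) (p q : V → R3) (g : K → Iso3) (π : K → N), NEnv G c p q g π →
  CompP G (π ∘ c) (fun S => cmp G (π ∘ c) p S)

/-! ## section 11: the cubic triangle is impossible -/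

/-- **B7.** (60 lines) The three edges leaving a cubic node of a triangle.

Proof.  The three sets of the edges leaving `{A}` which go to `B`, to `C`, and elsewhere are disjoint, the first two have exactly one element (at most one by `NEnv.slowN` for the
sets `{B}`, `{C}`), the total number is three. -/
def S_TriEdge : Prop := ∀ (V K N : Type) [Finite V] (G : SimpleGraph V) (c : V → K)
  (p q : V → R3) (g : K → Iso3) (π : K → N), NEnv G c p q g π → ∀ A B C : N,
  CTri G (π ∘ c) A B C → ∃ u₁ w₁ u₂ w₂ u₃ w₃, G.Adj u₁ w₁ ∧ G.Adj u₂ w₂ ∧ G.Adj u₃ w₃ ∧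
    π (c u₁) = A ∧ π (c u₂) = A ∧ π (c u₃) = A ∧ π (c w₁) = B ∧ π (c w₂) = C ∧
    π (c w₃) ≠ A ∧ π (c w₃) ≠ B ∧ π (c w₃) ≠ C ∧
    ∀ u w, G.Adj u w → π (c u) = A → π (c w) ≠ A →
      (u = u₁ ∧ w = w₁) ∨ (u = u₂ ∧ w = w₂) ∨ (u = u₃ ∧ w = w₃)

/-- **B8.** (60 lines) Four common pins.

Proof.  `g X` and `g Y` agree at four affinely independent points `p a_i` (`q (a i) = h.ap (p (a i))` for the pins of `X`, by hypothesis for the isometry `h`), so `(g X).A = h.A`, `(g X).b = h.b` as in `S_F4`.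
So `q u = h.ap (p u)` for all pins `u` of `X`. -/
def S_FourPins : Prop := ∀ (V K : Type) (G : SimpleGraph V) (c : V → K) (p q : V → R3)
  (g : K → Iso3), Gn p → Pl G p q c g → ∀ (X : K) (h : Iso3) (a : Fin 4 → V),
  Function.Injective a → (∀ i, Pin G c X (a i)) → (∀ i, q (a i) = h.ap (p (a i))) →
  ∀ u, Pin G c X u → q u = h.ap (p u)

/-- **B9.** (100 lines; uses `S_Ext`, `S_FourPins`) (T1 i) Three classes, closed by three edges, at most one coincidence.

Here `a b`, `b' c₀`, `c₀' a'` are edges, `a, a' ∈ A`, `b, b' ∈ B`, `c₀, c₀' ∈ C`, `b ≠ b'`, `c₀ ≠ c₀'`.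
Proof.  Let `N = {a, a', b, b', c₀, c₀'}`.  Any two elements of `N` are pins of a common class (or equal): pins of `A`: `a, a', b, c₀'`; pins of `B`: `b, b', a, c₀`; pins of `C`: `c₀, c₀', b', a'`; the pairs are
`aa' A, ab A, ab' B, ac₀ B, ac₀' A, a'b A, a'b' C, a'c₀ C, a'c₀' A, bb' B, bc₀ B, bc₀' A, b'c₀ C, b'c₀' C, c₀c₀' C`.  So all distances are preserved (an isometry preserves `dsq`), and `S_Ext` gives an isometry `h` with `q u = h.ap (p u)` on `N`.
`B` has the four different pins `b, b', a, c₀`, `C` the four different pins `c₀, c₀', b', a'`: `S_FourPins` for both: `h` works for the pins of `B` and of `C`: contradiction to `MinPl`. -/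
def S_TriA : Prop := ∀ (V K : Type) [Finite V] (G : SimpleGraph V) (c : V → K) (p q : V → R3)
  (g : K → Iso3), Env G c p q g → ∀ (a a' b b' d d' : V), G.Adj a b → G.Adj b' d →
  G.Adj d' a' → c a = c a' → c b = c b' → c d = c d' → c a ≠ c b → c b ≠ c d → c d ≠ c a →
  b ≠ b' → d ≠ d' → False

/-- **B10.** (80 lines) (SB) The merge bound.

Here `f : K → J` takes different values `α ≠ β`, and `(u, w) ≠ (u', w')` are two edges from the part of `α` to the part of `β`.
Proof.  Let `f'` be `f` with the value `β` replaced by `α`.  The crossing edges with different `f`-values are those with different `f'`-values and the `e₀` edges between the two parts, the number of values drops by one: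
`sf f = sf f' + 5 e₀ - 6`.  If `f'` is not constant then `sf f' ≥ 1` (`cntK`) and `e₀ ≥ 2`: `sf f ≥ 5`.  If `f'` is constant then `sf f' = 0`, and all values of `f` are `α` or `β`; if `e₀ ≥ 3` then `sf f ≥ 9`; if `e₀ = 2` then the two given edges are the only ones. -/
def S_Mb : Prop := ∀ (V K J : Type) [Finite V] [Finite K] (G : SimpleGraph V) (c : V → K)
  (p q : V → R3) (g : K → Iso3), Env G c p q g → ∀ (f : K → J) (u w u' w' : V),
  G.Adj u w → G.Adj u' w' → (u, w) ≠ (u', w') → f (c u) = f (c u') → f (c w) = f (c w') →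
  f (c u) ≠ f (c w) →
  5 ≤ sf G c Set.univ f ∨ ((∀ X, f X = f (c u) ∨ f X = f (c w)) ∧
    ∀ u₁ w₁, G.Adj u₁ w₁ → f (c u₁) = f (c u) → f (c w₁) = f (c w) →
      (u₁ = u ∧ w₁ = w) ∨ (u₁ = u' ∧ w₁ = w'))

/-- **B11.** (100 lines; uses (F3)) Two edges with a common end cannot be the only edges between the two parts of `V`.

(F3) in the form: let `A` be a set of vertices, `z ∈ A`, `b ≠ b'` neighbours of `z` not in `A`, and suppose that `z b`, `z b'` are the only edges from `A` to the complement.  Then `A = {z}`.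
Proof of (F3).  Suppose that there is `x ∈ A`, `x ≠ z`.  `b` has a neighbour `b₂ ≠ z` (`Hyp.deg`), `b₂ ≠ b'` (no triangle `z b b'`), `b₂ ∉ A` (otherwise the edge `b₂ b` leaves `A` from `b₂ ≠ z`).  In `square G` minus `{z, b, b'}` there is no edge from `A \ {z}` to the complement of `A ∪ {b, b'}`:
let `x₁ ∈ A \ {z}`, `y₁ ∉ A ∪ {b, b'}`; `x₁ y₁` is not an edge; if `x₁ t`, `t y₁` are edges: `t ∈ A` implies that `t y₁` leaves `A`, `y₁ ∈ {b, b'}`; `t ∉ A` implies that `x₁ t` leaves `A`, `x₁ = z`.  So `x` and `b₂` are not connected: contradiction to `KConnected 4 (square G)` for `{z, b, b'}`.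
(A walk in the induced graph from `x` to `b₂`: the property of being in `A` is preserved along the edges.) -/
def S_F3B : Prop := ∀ (V : Type) [Finite V] (G : SimpleGraph V), Hyp G → ∀ (A : Set V)
  (z b b' : V), z ∈ A → b ∉ A → b' ∉ A → b ≠ b' → G.Adj z b → G.Adj z b' →
  (∀ u w, G.Adj u w → u ∈ A → w ∉ A → u = z ∧ (w = b ∨ w = b')) → A = {z}

/-- **B12.** (120 lines; uses `S_Mb`, `S_F3B`, `S_D0r`) (T1 ii) The path `d' - a - b - d`.

Here `d' a`, `a b`, `b d` are edges, `d, d' ∈ C`, `d ≠ d'`, `d'` has no crossing edge except `d' a`, and the class of `a` is not a vertex of degree two: (`hA`) there is another vertex in the class of `a`, or a neighbour of `a` different from `b`, `d'`.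
Proof.  `A = c a`, `B = c b`, `C = c d`.  `Env.tr` for `z = d'`, `X = C`, `Y = A` (`d'` is a pin of both): `m` with `Lse G c p d' m`, `ev (m C - m A) (p d') ≠ 0`.  `Lse` at `u = a` (pin of `A`, `B`, `C`) and `u = b` (pin of `A`, `B`, `C`), `u = d` (pin of `B`, `C`):
`ev (m C - m B)` vanishes at `a`, `b`, `d`, three different points in general position: `m C = m B` (`t2`).  Let `G'` be `G` without the edge `d' a`, `c₁ v = B` if `c v = C` and `c₁ v = c v` otherwise.  `m` is a motion of `(G', c₁)` on `univ`: let `u w` be an edge of `G'` with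
`c₁ u ≠ c₁ w`: then `c u ≠ c w`; if `u ≠ d'` and `w ≠ d'`: `Lse` at `u` and at `w` gives the hinge condition for `m (c u) - m (c w) = m (c₁ u) - m (c₁ w)`; if `u = d'`: the only crossing edge at `d'` is `d' a`, removed.
Claim: `0 ≤ sf G' c₁ univ f` for all `f : K → J`.  Let `f₁ = f ∘ (C ↦ B)`, so `f ∘ c₁ = f₁ ∘ c`, `f₁ C = f₁ B`.  If `f₁ A = f₁ B` then `ef G' c₁ univ f = ef G c univ f₁`; otherwise `ef G' c₁ univ f = ef G c univ f₁ - 1`.  The number of values of `f` on `univ`: note that `f '' univ` may contain the value `f C` which is not a value of `f₁`;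
therefore use the set `S = {X | X ≠ C}` of classes instead of `univ` (`c₁` takes its values in `S`): `f '' S = f₁ '' univ`.  So `sf G' c₁ S f = sf G c univ f₁ - 5 [f₁ A ≠ f₁ B]`.  If `f₁` is constant it is `0`; if `f₁ A = f₁ B` it is `≥ 0` by `cntK`.  If `f₁ A ≠ f₁ B`: the edges `a b`, `a d'` go from the part
of `A` to the part of `B`: `S_Mb`: `sf G c univ f₁ ≥ 5`, or `f₁` has exactly two values and `a b`, `a d'` are the only edges between the two parts: `S_F3B` for the set `{v | f₁ (c v) = f₁ A}`: it is `{a}`: contradiction to `hA` (a vertex in the class of `a` is in this set; a neighbour of `a` different from `b, d'` is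
not in the other part, so it is in this set).
So by `S_D0r` (`k = 0`, set `S`) `m` is constant on `S`, `m A = m B = m C`: contradiction to `ev (m C - m A) (p d') ≠ 0`. -/
def S_TriB : Prop := ∀ (V K : Type) [Fintype V] [Finite K] (G : SimpleGraph V) (c : V → K)
  (p q : V → R3) (g : K → Iso3), Env G c p q g → ∀ (a b d d' : V), G.Adj d' a → G.Adj a b →
  G.Adj b d → c d = c d' → d ≠ d' → c a ≠ c b → c b ≠ c d → c d ≠ c a →
  (∀ w, G.Adj d' w → c w ≠ c d' → w = a) →
  ((∃ v, v ≠ a ∧ c v = c a) ∨ ∃ x, G.Adj a x ∧ x ≠ b ∧ x ≠ d') → False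

/-- **B13.** (120 lines; uses `S_TriEdge`, `S_TriA`, `S_TriB`) (T1) A cubic triangle of single classes is impossible.

Proof.  Let `A', B', C'` be the classes of the three nodes (so `π X = A ↔ X = A'` etc.).  Take the edges `a b` (`A`-`B`), `b' d` (`B`-`C`), `d' a'` (`C`-`A`).  `a = a'`, `b = b'`, `d = d'` do not all hold (no triangle).  If at most one of the equations holds, `S_TriA` (after renaming cyclically: it wants `b ≠ b'` and `d ≠ d'`;
the hypotheses are invariant under the cyclic renaming `(a a' b b' d d') → (b' b d d' a' a)` up to symmetry of `Adj`) gives a contradiction.  So exactly two hold; after cyclic renaming `a = a'`, `b = b'`, `d ≠ d'`: a path `d' - a - b - d`.  By `S_TriEdge` for the node `C` (roles: `C; A, B`) the edges leaving `C` are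
`d' a`, `d b` and a third one `u₃ w₃`.  If `u₃ ≠ d'` then `d' a` is the only crossing edge at `d'` and `S_TriB` for `(a, b, d, d')` applies: `hA`: node `A` has three leaving edges, `a b`, `a d'` and a third one `x y` with `x` in the class of `a`: if `x ≠ a` the first alternative holds, if `x = a` then `y ≠ b, d'` and the second one holds.
If `u₃ = d'` then `u₃ ≠ d`, and `d b` is the only crossing edge at `d`: `S_TriB` for `(b, a, d', d)`. -/
def S_Tri1 : Prop := ∀ (V K N : Type) [Fintype V] [Finite K] (G : SimpleGraph V) (c : V → K)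
  (p q : V → R3) (g : K → Iso3) (π : K → N), NEnv G c p q g π → ∀ A B C : N,
  CTri G (π ∘ c) A B C → (∃ X, ∀ Y, π Y = A ↔ Y = X) → (∃ X, ∀ Y, π Y = B ↔ Y = X) →
  (∃ X, ∀ Y, π Y = C ↔ Y = X) → False

/-- **B14.** (100 lines; uses `S_D0r`) A ring of four bodies is rigid.

The bodies are `i : Fin 4`, body `i` contains the vertices `v` with `cc v = i` (other vertices: `cc v = 4`), the hinges are `u i - w i` with `u i` in body `i`, `w i` in body `i + 1`.
Proof.  Let `G'` be the graph with the four edges `u i, w i` (a subgraph of `G`, so without triangles), class map `cc : V → Fin 5`, `S` = the four bodies.  For `f : Fin 5 → J` let `k` be the number of values on `S`.  If `k ≥ 2` at least `k` of the four edges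
(the 4-cycle of the bodies) have different values at their ends: `sf ≥ 5 k - 6 (k - 1) = 6 - k ≥ 2`.  (A finite check: `f` on `S` gives one of the 15 partitions of a 4-element set; or: if `f i ≠ f (i + 1)` for exactly `j` indices `i` then the number of values is at most `j` if `j ≥ 2`, and `j = 0` or `j ≥ 2`.)
If `k = 1`: `sf = 0`.  `S_D0r` with `k = 0`: the motion `m'` with `m' i = m i` is constant. -/
def S_Ring : Prop := ∀ (V : Type) [Fintype V] (G : SimpleGraph V) (p : V → R3), Gn p → NoTri G →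
  ∀ (cc : V → Fin 5) (u w : Fin 4 → V) (m : Fin 4 → Tw),
  (∀ i, G.Adj (u i) (w i)) → (∀ i, cc (u i) = i.castSucc) → (∀ i, cc (w i) = (i + 1).castSucc) →
  (∀ i, ∃ t : ℝ, m i - m (i + 1) = t • Ln (p (u i)) (p (w i))) → ∀ i, m i = m 0

/-- **B15.** (60 lines) Lse motions are constant on nodes.

Proof.  Let `Lse G c p z m`, `z` not in the node `A` (`π (c z) ≠ A`).  Then `m` restricted to `{X | π X = A}` is a motion (both ends of an edge in this set are different from `z` and pins of both classes: `isMot_iff_ev`), so `NEnv.motN` for `S = {A}` gives `m X = m Y` for `π X = π Y = A`.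
Second part: for an edge `u w` with `u ≠ z`, `w ≠ z`: `m (c u) - m (c w)` is a multiple of `Ln (p u) (p w)` (`t1`), and for an edge `z w`: `ev (m (c z) - m (c w)) (p w) = 0`. -/
def S_LseN : Prop := ∀ (V K N : Type) [Finite V] (G : SimpleGraph V) (c : V → K)
  (p q : V → R3) (g : K → Iso3) (π : K → N), NEnv G c p q g π → ∀ (z : V) (m : K → Tw),
  Lse G c p z m → (∀ X Y, π X = π Y → π X ≠ π (c z) → m X = m Y) ∧
    (∀ u w, G.Adj u w → u ≠ z → w ≠ z → ∃ t : ℝ, m (c u) - m (c w) = t • Ln (p u) (p w)) ∧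
    ∀ w, G.Adj z w → ev (m (c z) - m (c w)) (p w) = 0

/-- **B16.** (130 lines; uses `S_TriEdge`, `S_Ring`, `S_LseN`) (T2) A node of type II in a cubic triangle is impossible.

Proof.  Let `A` be of type II: `U, X, z, b, a, y`.  By `S_TriEdge` one of the legs, `a i - y i`, goes to `B`, another one, `a j - y j`, to `C`; let `k` be the third index, `w w'` the edge from `B` to `C`.  `b j` is adjacent to `z i` (and `z k`), so it is a pin of `U` and of `X i`.
`Env.tr` for `b j`, the classes `U`, `X i`: `m` with `Lse`, `ev (m U - m (X i)) (p (b j)) ≠ 0`.  (1) `m U = m (X j)`: the edges `z j - b i`, `z j - b k` do not contain `b j`, so `m (X j) - m U` is a multiple of `Ln (z j) (b i)` and of `Ln (z j) (b k)`: it vanishes at three points in general position.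
(2) `m` is constant on `B` and on `C` (`S_LseN`), with values `m_B`, `m_C`.  (3) The ring: body 0 = the classes `U`, `X j`; body 1 = `X i`; body 2 = node `B`; body 3 = node `C`; hinges `b k - z i` (`z i` is adjacent to `b k`), `a i - y i`, `w - w'`, `y j - a j`; none of these vertices is `b j`
(`b k ≠ b j`; the others are not in `U`).  `m` satisfies the hinge conditions (`S_LseN`), so `S_Ring` gives `m U = m (X i)`: contradiction. -/
def S_Tri2 : Prop := ∀ (V K N : Type) [Fintype V] [Finite K] (G : SimpleGraph V) (c : V → K)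
  (p q : V → R3) (g : K → Iso3) (π : K → N), NEnv G c p q g π → ∀ A B C : N,
  CTri G (π ∘ c) A B C → ∀ (U : K) (X : Fin 3 → K) (z b a y : Fin 3 → V),
  TyII G c {Y | π Y = A} U X z b a y → False

/-- **B17.** (120 lines; uses `S_Ring`, `S_LseN`) (T3 i) Type I, the leg at `b` leaves the triangle.

Here the leg `b' y'` goes to the node `B` and the leg `a y₁` to the node `C` (`B`, `C` in any order: the statement is symmetric because `B` and `C` are arbitrary).
Proof.  `b` is a pin of `Z0` (`c b = Z0`) and of `Z1` (adjacent to `z ∈ Z1`).  `Env.tr` for `b`, `Z0`, `Z1`: `m`.  `m` is constant on `B` and `C`.  Ring: body 0 = `Z0`, body 1 = node `B`, body 2 = node `C`, body 3 = `Z1`; hinges `b' - y'`, `w - w'` (the edge from `B` to `C`), `y₁ - a`,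
`z - b'`; all these vertices are different from `b`.  So `m Z0 = m Z1`: contradiction. -/
def S_Tri3i : Prop := ∀ (V K N : Type) [Fintype V] [Finite K] (G : SimpleGraph V) (c : V → K)
  (p q : V → R3) (g : K → Iso3) (π : K → N), NEnv G c p q g π → ∀ A B C : N,
  A ≠ B → B ≠ C → C ≠ A → (∃ u w, G.Adj u w ∧ π (c u) = B ∧ π (c w) = C) →
  ∀ (Z0 Z1 : K) (z b b' a y y' y₁ : V), TyI G c {Y | π Y = A} Z0 Z1 z b b' a y y' y₁ →
  π (c y') = B → π (c y₁) = C → False

/-- **B18.** (80 lines; uses `S_LseN`) (T3 ii, first half) Type I, the legs at `b`, `b'` go to `B`, `C`: then the edge from `B` to `C` is `y y'`.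

Proof of `w = y` for the edge `w w'` from `B` to `C` (`w` in `B`).  Suppose `w ≠ y`.  `b` is a pin of `Z0` and of `c y`.  `Env.tr` for `b`, `Z0`, `c y`: `m` with `Lse`, `ev (m Z0 - m (c y)) (p b) ≠ 0`.  `m` has constant values `m_B`, `m_C` on the nodes `B`, `C` (`S_LseN`).
`m Z0 - m_C = s • Ln b' y'`, `m_B - m_C = t • Ln w w'`, `ev (m Z0 - m_B) y = 0`: `s • cr (y' - b') (y - b') = t • cr (w' - w) (y - w)`.  Dot product with `w - y`: the right side is `0`, and `cr (y' - b') (y - b') ⬝ᵥ (w - y) ≠ 0` because `b', y', y, w` are different vertices (general position; `b'` in `A`, `y'` in `C`, `y ≠ w` in `B`):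
`s = 0`.  Then `t • cr (w' - w) (y - w) = 0` with `w, w', y` different: `t = 0`.  So `m Z0 = m_C = m_B = m (c y)`: contradiction.  `w' = y'` is the same statement with `b, b'` and `B, C` exchanged (`TyI` is symmetric in `(b, y), (b', y')`). -/
def S_Tri3a : Prop := ∀ (V K N : Type) [Fintype V] [Finite K] (G : SimpleGraph V) (c : V → K)
  (p q : V → R3) (g : K → Iso3) (π : K → N), NEnv G c p q g π → ∀ A B C : N,
  A ≠ B → B ≠ C → C ≠ A → ∀ w w', G.Adj w w' → π (c w) = B → π (c w') = C →
  ∀ (Z0 Z1 : K) (z b b' a y y' y₁ : V), TyI G c {Y | π Y = A} Z0 Z1 z b b' a y y' y₁ →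
  π (c y) = B → π (c y') = C → w = y ∧ w' = y'

/-- **B19.** (50 lines) A cubic node with two leaving edges at the same vertex is a single class.

Proof.  `NEnv.deg3`.  Type I: by `all` the two different leaving edges `(v, s)`, `(v, t)` are two of `(b, y), (b', y'), (a, y₁)`, whose first components are different (`b ≠ b'`, `c a = Z1 ≠ Z0 = c b = c b'`): contradiction.  Type II: they are `(a i, y i)`, `(a j, y j)` with `i ≠ j`, and `c (a i) = X i ≠ X j = c (a j)`. -/
def S_LegV : Prop := ∀ (V K N : Type) (G : SimpleGraph V) (c : V → K)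
  (p q : V → R3) (g : K → Iso3) (π : K → N), NEnv G c p q g π → ∀ (B : N) (v s t : V),
  dK G (π ∘ c) {B} = 3 → π (c v) = B → π (c s) ≠ B → π (c t) ≠ B → G.Adj v s → G.Adj v t →
  s ≠ t → ∃ X, ∀ Y, π Y = B ↔ Y = X

/-- **B20.** (150 lines; uses `S_Mb`, `S_F3B`) (T3 ii) The count for the structure in which the edges `b z`, `b y` are removed and `Z0`, `C'` are merged.

Here `Z0, Z1, B', C'` are four different classes, `z ∈ Z1` is adjacent to `b, b' ∈ Z0`, `y ∈ B'` is adjacent to `b` and to `y' ∈ C'`, `y'` is adjacent to `b'`; neither `Z1` nor `B'` is a vertex of degree two (`h1`, `h2`).  `S` = the classes different from `C'`, `c₁ = c` with `C'` replaced by `Z0`, `G'` = `G` without the edges `b z`, `b y`.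
Proof.  For `f : K → J` let `f₁ = f ∘ (C' ↦ Z0)`; `f '' S = f₁ '' univ`, `sf G' c₁ S f = sf G c univ f₁ - 5 [f₁ Z1 ≠ f₁ Z0] - 5 [f₁ B' ≠ f₁ Z0]`.  We show that it is `≥ -1`.  Let `α = f₁ Z0 = f₁ C'`.
- `f₁ Z1 = α = f₁ B'`: it is `sf G c univ f₁ ≥ 0` (`cntK` or constant).
- `f₁ Z1 ≠ α = f₁ B'`: the edges `z b`, `z b'` go from the part of `Z1` to the part of `Z0`.  `S_Mb`: `sf ≥ 5`: fine; otherwise they are the only edges between the two parts and there are only two values: `S_F3B` for `{v | f₁ (c v) = f₁ Z1}`: it is `{z}`: contradiction to `h1`.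
- `f₁ B' ≠ α = f₁ Z1`: the edges `y b`, `y y'`: the same with `h2`.
- both `≠ α`, `f₁ Z1 = f₁ B'`: there are at least four edges between the part of `Z1` and the part of `Z0`; with `f₂` = `f₁` with the two values identified: `sf f₁ = sf f₂ + 5 e₀ - 6 ≥ 0 + 20 - 6 = 14`.
- both `≠ α`, `f₁ Z1 ≠ f₁ B'`: let `f₂` be `f₁` with the three values identified, `e₀ ≥ 4` the number of edges between the three parts: `sf f₁ = sf f₂ + 5 e₀ - 12`.  If `f₂` is not constant: `≥ 1 + 8 = 9`.  If `f₂` is constant and `e₀ ≥ 5`: `≥ 13`.  If `f₂` is constant and `e₀ = 4`: `z b`, `z b'` are the only edges leaving the part of `Z1`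
  (the other two, `y b`, `y y'`, do not touch it): `S_F3B`: contradiction to `h1`.  So `sf f₁ ≥ 9`, and `9 - 10 = -1`. -/
def S_Cnt9 : Prop := ∀ (V K : Type) [Finite V] [Finite K] (G : SimpleGraph V) (c : V → K)
  (p q : V → R3) (g : K → Iso3), Env G c p q g → ∀ (z b b' y y' : V), G.Adj z b → G.Adj z b' →
  b ≠ b' → G.Adj b y → G.Adj y y' → G.Adj y' b' → c b = c b' → c z ≠ c b → c y ≠ c b →
  c y' ≠ c b → c z ≠ c y → c z ≠ c y' → c y ≠ c y' →
  ((∃ v, v ≠ z ∧ c v = c z) ∨ ∃ x, G.Adj z x ∧ x ≠ b ∧ x ≠ b') →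
  ((∃ v, v ≠ y ∧ c v = c y) ∨ ∃ x, G.Adj y x ∧ x ≠ b ∧ x ≠ y') →
  ∀ (c₁ : V → K), (∀ v, c v = c y' → c₁ v = c b) → (∀ v, c v ≠ c y' → c₁ v = c v) →
  ∀ (J : Type) (f : K → J),
    -1 ≤ sf (G.deleteEdges {s(b, z), s(b, y)}) c₁ {X | X ≠ c y'} f

/-- **B21.** (200 lines; uses `S_Cnt9`, `S_D0r`, `S_FourPins`) (T3 ii, second half) The 5-cycle `z b y y' b'`.

Hypotheses as in `S_Cnt9`, and: the only crossing edges at `b` are `b z` and `b y`.
Proof.  `Z0 = c b`, `Z1 = c z`, `B' = c y`, `C' = c y'`.  Let `W = Mot G' c₁ p S` (`S = {X | X ≠ C'}`), `dmo ≤ 7` by `S_D0r` (`k = 1`).  The linear map `κ : W → Tw × Tw`, `m ↦ (m Z0 - m Z1, m Z0 - m B')` kills the motions which are constant on `S` (dimension 6), so its range `T` has dimension at most `1`.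
(1) Let `η₀ ∈ R3`.  `Env.T` for the field `η` with `η b = η₀`, `η u = 0` otherwise: `m`.  For `u ≠ b` and pins: `ev (m X - m Y) (p u) = 0`.  `m Z0 - m C' = s • Ln b' y'` (edge `b' y'`), and `ev (m Z0 - m B') y = 0`, `m B' - m C' = t • Ln y y'`, so `ev (m Z0 - m C') y = 0`: `s • cr (y' - b') (y - b') = 0`: `s = 0`, `m Z0 = m C'`.
So the function `m'` which is `m` on `S` and `0` outside is in `W`: for a crossing edge `u w` of `G'` for `c₁`: `u, w ≠ b` (at `b` only `b z`, `b y` are crossing for `c`, and they are removed), so `m (c u) - m (c w)` is a multiple of `Ln u w`, and `m (c₁ u) = m (c u)`.  Hence `(m Z0 - m Z1, m Z0 - m B') ∈ T`, and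
`ev (m Z0 - m Z1) (p b) = ((g Z0).B - (g Z1).B) *ᵥ η₀`, `ev (m Z0 - m B') (p b) = ((g Z0).B - (g B').B) *ᵥ η₀` (`b` is a pin of `Z0`, `Z1`, `B'`).
(2) So the linear map `Λ : R3 → R3 × R3`, `η₀ ↦ (M₁ *ᵥ η₀, M₂ *ᵥ η₀)`, `M₁ = (g Z0).B - (g Z1).B`, `M₂ = (g Z0).B - (g B').B`, has rank at most one (its range is in the image of `T` under `(t₁, t₂) ↦ (ev t₁ (p b), ev t₂ (p b))`), `finrank (ker Λ) ≥ 2`.
(3) `g Z0`, `g Z1` agree at the common pins `z, b, b'`: with `A₀ = (g Z0).A`, `A₁ = (g Z1).A`: `A₀ *ᵥ x = A₁ *ᵥ x` for `x ∈ H = span {p z - p b, p b' - p b}`, so `M₁ *ᵥ (A₀ *ᵥ x) = A₀ᵀ A₀ x - A₁ᵀ A₁ x = 0`: `A₀ H ⊆ ker M₁`, dimension 2.  `M₁ ≠ 0` (`Env.T0`), so `ker M₁ = A₀ H`, and `ker Λ ⊆ ker M₁` has dimension `≥ 2`: `ker Λ = A₀ H`.  So `M₂ *ᵥ (A₀ *ᵥ x) = 0` for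
`x ∈ H`: `x = A_Bᵀ A₀ x` with `A_B = (g B').A`, that is `A_B x = A₀ x` for `x ∈ H`.  `b` and `y` are pins of `Z0` and of `B'`: `A₀ (p y - p b) = q y - q b = A_B (p y - p b)`.  `p z - p b, p b' - p b, p y - p b` are linearly independent (general position), so `A₀ = A_B`, `M₂ = 0`: contradiction to `Env.T0` for `Z0, B', b`. -/
def S_Five : Prop := ∀ (V K : Type) [Fintype V] [Finite K] (G : SimpleGraph V) (c : V → K)
  (p q : V → R3) (g : K → Iso3), Env G c p q g → ∀ (z b b' y y' : V), G.Adj z b → G.Adj z b' →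
  b ≠ b' → G.Adj b y → G.Adj y y' → G.Adj y' b' → c b = c b' → c z ≠ c b → c y ≠ c b →
  c y' ≠ c b → c z ≠ c y → c z ≠ c y' → c y ≠ c y' →
  ((∃ v, v ≠ z ∧ c v = c z) ∨ ∃ x, G.Adj z x ∧ x ≠ b ∧ x ≠ b') →
  ((∃ v, v ≠ y ∧ c v = c y) ∨ ∃ x, G.Adj y x ∧ x ≠ b ∧ x ≠ y') →
  (∀ w, G.Adj b w → c w ≠ c b → w = z ∨ w = y) → False

/-- **B22.** (150 lines; uses `S_TriEdge`, `S_Tri1`, `S_Tri2`, `S_Tri3i`, `S_Tri3a`, `S_LegV`, `S_Five`) No cubic triangle.

Proof.  By `NEnv.deg3` each of the three nodes is a single class, or of type I, or of type II.  If all three are single: `S_Tri1`.  Otherwise, by symmetry (`CTri` is symmetric under permutations: `CTri A B C → CTri B C A`, `→ CTri B A C`), the node `A` is of type I or II.  Type II: `S_Tri2`.  Type I: `Z0, Z1, z, b, b', a, y, y', y₁`.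
By `S_TriEdge` exactly one of the three legs goes to `B`, exactly one to `C`, one elsewhere.  If the leg at `b` goes elsewhere: `S_Tri3i` (with `B`, `C` in the right order).  If the leg at `b'` goes elsewhere: the same for the type I structure with `b, b'` exchanged.  If the leg `a y₁` goes elsewhere: after exchanging
`b, b'` if necessary `π (c y) = B`, `π (c y') = C`.  `S_Tri3a` for the edge `w w'` from `B` to `C`: `w = y`, `w' = y'`, so `y` and `y'` are adjacent.  The node `B` has the two leaving edges `(y, b)`, `(y, y')` at the same vertex, so it is a single class (`S_LegV`).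
`S_Five` for `z, b, b', y, y'`: the classes `Z1, Z0, c y, c y'` are different; `h1`: `a` is in the class of `z`: if `a ≠ z` the first alternative, if `a = z` then `x = y₁`; `h2`: the third leaving edge `(v, x)` of `B` has `c v = c y` (single class): if `v ≠ y` the first alternative, otherwise `x ≠ b, y'` is a neighbour of `y`;
the crossing edges at `b`: an edge `b w` with `c w ≠ Z0`: if `c w` is in the node `A` then `c w = Z1` and `w = z` (`inn`); otherwise `(b, w)` is a leg at `b`: by `all` `w = y` (`b ≠ b'`, `b ≠ a` as `c a = Z1`). -/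
def S_NoTri3 : Prop := ∀ (V K N : Type) [Fintype V] [Finite K] (G : SimpleGraph V) (c : V → K)
  (p q : V → R3) (g : K → Iso3) (π : K → N), NEnv G c p q g π → ∀ A B C : N,
  ¬ CTri G (π ∘ c) A B C

/-- **B23.** (60 lines; uses `S_Cub`, `S_CompPN`, `S_NoTri3`) Case B.

Proof.  `S_CompPN` gives `CompP`, `S_Cub` a cubic triangle, `S_NoTri3` the contradiction. -/
def S_CaseB : Prop := ∀ (V K N : Type) [Fintype V] [Finite K] [Finite N] (G : SimpleGraph V)
  (c : V → K) (p q : V → R3) (g : K → Iso3) (π : K → N), NEnv G c p q g π → ∀ Z : Set N,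
  2 ≤ Z.ncard → dK G (π ∘ c) Z ≤ 2 → (∀ Y ∈ Z, 3 ≤ dK G (π ∘ c) {Y}) → False

end

end Pool.Agent.MPf1f412
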