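import Pool.Agent.Lib.MP_f1f412_co.Defs3
import Pool.Agent.Lib.MP_f1f412_co.Spec1

/-!
# MP_f1f412_co (C34), Spec M: the environment, merging lemmas, clusters (TEXT2)

Every `S_...` is a statement to be proved in its own file; the docstring contains the complete
proof.  Toolkit: `Basic.lean` (`t1`, `t2`, `Gn.inj`, `Gn.gp3`, `Gn.gp4`, `Gn.gp4'`, `Gn.dot3`, `ev_Ln`, `ev_sub`, ...).
A class is an element of `K`; `z` is a pin of the class `X` if `Pin G c X z`; for an edge `u w` both `u` and
`w` are pins of `c u` and of `c w`.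
-/

set_option autoImplicit false

namespace Pool.Agent.MPf1f412

open Matrix

/-! ## the environment -/

/-- **Env.** (80 lines; uses `S_D0r`, `S_T`, `S_T0`, `S_CntK`, `S_F4`) The environment exists.

Proof.  `K` is finite (`c` is surjective).  `cntK`: `S_CntK`.  `rig`: `S_D0r` for `S = univ`, `k = 0` (`0 ≤ sf G c univ f`: if `f` is not constant by
`cntK`; if `f` is constant the image has one element and `sf ≥ 0`).  `T`: `S_T`.  `T0`: `S_T0`.  `tr`: by `T0` there is a vector `e` with
`((g X).B - (g Y).B) *ᵥ e ≠ 0` (a matrix `M ≠ 0` has a column `M *ᵥ Pi.single j 1 ≠ 0`); take `m` from `T` for the field `η` with `η z = e` and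
`η u = 0` for `u ≠ z`.  `f4a`, `f4b`, `f4c`: `S_F4`. -/
def S_Env : Prop := ∀ (V K : Type) [Finite V] [Nonempty V] (G : SimpleGraph V) (c : V → K)
  (p q : V → R3) (g : K → Iso3), Hyp G → Gn p → Function.Surjective c → Pl G p q c g →
  MinPl G p q c → (∃ X Y : K, X ≠ Y) → Env G c p q g

/-! ## sets of vertices with few leaving edges -/

/-- **F1.** (50 lines) At least two edges leave a proper nonempty set of classes.

Proof.  `cnt` for `f : V → Prop`, `f v = (c v ∈ S)`: `cls f = 2`, and `crn G f = dK G c S` (the map `(u, w) ↦ s(u, w)` from the set of the ordered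
pairs in `dK` to the set in `crn` is a bijection).  `12 ≤ 5 dK + 5`. -/
def S_F1 : Prop := ∀ (V K : Type) [Finite V] (G : SimpleGraph V) (c : V → K) (S : Set K), Hyp G →
  (∃ v, c v ∈ S) → (∃ v, c v ∉ S) → 2 ≤ dK G c S

/-- **F3.** (80 lines) A set `A` of vertices which is left by exactly two edges `w a`, `w b` with the same end `w` in `A`.

Proof.  Suppose `A ≠ {w}`, so there is `x₀ ∈ A`, `x₀ ≠ w`.  The vertex `a` has a neighbour `a' ≠ w` (`deg`).  `a' ≠ b` (no triangle `w a b`), `a' ≠ a`, and `a' ∉ A`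
(otherwise the edge `a' a` leaves `A`, so `a' = w`).  `G² - {w, a, b}` has no edge between `A \ {w}` and `R = Aᶜ \ {a, b} ∋ a'`: let `x ∈ A \ {w}`, `y ∈ R`.  `x y` is not an
edge of `G` (`x ≠ w`).  If `x - t - y` is a path of `G`: `t ∈ A` implies that `t y` leaves `A`, so `y ∈ {a, b}`; `t ∉ A` implies that `x t` leaves `A`, so `x = w`:
contradictions.  The set `{w, a, b}` has three elements and its complement is the disjoint union of `A \ {w} ∋ x₀` and `R ∋ a'`: the connectedness of
`(square G).induce {w, a, b}ᶜ` is contradicted (the vertices reachable from `x₀` stay in `A`: induction over `Reachable`/walks).  So `A = {w}`; a neighbour `t` of `w` is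
not in `A`, so `t ∈ {a, b}`. -/
def S_F3 : Prop := ∀ (V : Type) [Finite V] (G : SimpleGraph V) (A : Set V) (w a b : V), Hyp G →
  w ∈ A → a ∉ A → b ∉ A → a ≠ b → G.Adj w a → G.Adj w b →
  (∀ u v, u ∈ A → v ∉ A → G.Adj u v → u = w ∧ (v = a ∨ v = b)) →
  A = {w} ∧ ∀ t, G.Adj w t → t = a ∨ t = b

/-! ## merging lemmas -/

/-- **M1.** (40 lines) A vertex outside of a rigid set is joined to at most one class of it.

Proof.  Suppose `c w₁ ≠ c w₂`; `z` is a pin of both.  `tr` gives `m` with `Lse G c p z m` and `ev (m (c w₁) - m (c w₂)) (p z) ≠ 0`.  `m` is a motion on `S`: let `u w` be a crossing edge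
of `G[S]`; `u, w ≠ z` since `c z ∉ S`; both are pins of `c u` and `c w`, so `ev (m (c u) - m (c w))` vanishes at `p u` and `p w` (`t1`).  So `m (c w₁) = m (c w₂)`: contradiction. -/
def S_M1 : Prop := ∀ (V K : Type) (G : SimpleGraph V) (c : V → K) (p q : V → R3)
  (g : K → Iso3) (S : Set K), Env G c p q g → Rig G c p S → ∀ z w₁ w₂, G.Adj z w₁ →
  G.Adj z w₂ → c z ∉ S → c w₁ ∈ S → c w₂ ∈ S → c w₁ = c w₂

/-- **M3.** (50 lines) Two disjoint edges between a class and a rigid set.

Proof.  Suppose `z₁ ≠ z₂` and `w₁ ≠ w₂`; `X = c z₁ = c z₂`.  `tr` for `z₁` and the classes `X ≠ c w₁` (`z₁` is a pin of both): `m`.  As in M1 `m` is constant on `S`.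
`ev (m X - m (c w₁))` vanishes at `z₂` and `w₂` (pins of `X` and `c w₂`, different from `z₁`, and `m (c w₂) = m (c w₁)`) and at `w₁` (pin of `X` and `c w₁`, `w₁ ≠ z₁`).  `z₂, w₂, w₁` are three
different vertices (`w₁ ≠ z₂`: classes), so `m X = m (c w₁)` (`t2`, `gp3`): contradiction. -/
def S_M3 : Prop := ∀ (V K : Type) (G : SimpleGraph V) (c : V → K) (p q : V → R3)
  (g : K → Iso3) (S : Set K), Env G c p q g → Rig G c p S → ∀ z₁ w₁ z₂ w₂, G.Adj z₁ w₁ →
  G.Adj z₂ w₂ → c z₁ = c z₂ → c z₁ ∉ S → c w₁ ∈ S → c w₂ ∈ S → z₁ = z₂ ∨ w₁ = w₂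

/-- **SL1.** (60 lines; uses `S_M1`, `S_M3`) Two different edges between a class and a rigid set form a double edge, and there is no third one.

Proof.  By M3 `z₁ = z₂` or `w₁ = w₂`.  If `z₁ = z₂` then `w₁ ≠ w₂` and `c w₁ = c w₂` by M1: a double edge with the centre `z₁` in `c z₁` and the partners `w₁, w₂`.
If `w₁ = w₂` then `z₁ ≠ z₂`: a double edge with the centre `w₁` and the partners `z₁, z₂` in `c z₁`.
Third edge `z₃ w₃`, different from both.  Case `z₁ = z₂`, `w₁ ≠ w₂`: if `z₃ ≠ z₁` then M3 (for 3 and 1, for 3 and 2) gives `w₃ = w₁` and `w₃ = w₂`, contradiction; so `z₃ = z₁`, `w₃ ≠ w₁, w₂`, all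
`w_i` are in one class (M1): contradiction to `f4b`.  Case `w₁ = w₂`, `z₁ ≠ z₂`: if `w₃ ≠ w₁` then `z₃ = z₁` and `z₃ = z₂` (M3), contradiction; so `w₃ = w₁` and `z₁, z₂, z₃` are different neighbours of `w₁` in
one class: contradiction to `f4b`. -/
def S_SL1 : Prop := ∀ (V K : Type) (G : SimpleGraph V) (c : V → K) (p q : V → R3)
  (g : K → Iso3) (S : Set K), Env G c p q g → Rig G c p S → ∀ z₁ w₁ z₂ w₂, G.Adj z₁ w₁ →
  G.Adj z₂ w₂ → c z₁ = c z₂ → c z₁ ∉ S → c w₁ ∈ S → c w₂ ∈ S → (z₁ ≠ z₂ ∨ w₁ ≠ w₂) →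
  c w₁ = c w₂ ∧ DE G c (c z₁) (c w₁) ∧ ∀ z₃ w₃, G.Adj z₃ w₃ → c z₃ = c z₁ → c w₃ ∈ S →
    (z₃ = z₁ ∧ w₃ = w₁) ∨ (z₃ = z₂ ∧ w₃ = w₂)

/-- the number of the edges between the `f`-parts with the values `a` and `b` (in `S`) -/
noncomputable def eb {V K J : Type} (G : SimpleGraph V) (c : V → K) (S : Set K) (f : K → J)
    (a b : J) : ℕ :=
  {z : Sym2 V | ∃ u w, z = s(u, w) ∧ G.Adj u w ∧ c u ∈ S ∧ c w ∈ S ∧ f (c u) = a ∧
    f (c w) = b}.ncard

open Classical in
/-- **Mg.** (80 lines) Merging two parts of a partition of the set `S` of classes.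

Proof.  Let `f' Z = f X` if `f Z = f Y` and `f' Z = f Z` otherwise.  The edges with `f (c u) ≠ f (c w)` are the disjoint union of those with `f' (c u) ≠ f' (c w)` and those between the two parts
(`ef = ef' + eb`; `Set.ncard_union_eq`).  `f' '' S = (f '' S) \ {f Y}`, and `f Y ∈ f '' S`: one value less. -/
def S_Mg : Prop := ∀ (V K J : Type) [Finite V] (G : SimpleGraph V) (c : V → K) (S : Set K)
  (f : K → J) (X Y : K), S.Finite → X ∈ S → Y ∈ S → f X ≠ f Y →
  sf G c S f = sf G c S (fun Z => if f Z = f Y then f X else f Z) +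
    5 * (eb G c S f (f X) (f Y) : ℤ) - 6

/-- **SB.** (40 lines; uses `S_Mg`) Consequence of Mg and `s ≥ 1`.

Proof.  `s(f) = s(f') + 5 e₀ - 6` (Mg for `S = univ`), `s(f') ≥ 0` (if `f'` is constant then `sf = 5 ef ≥ 0`), and if there is a third value then `f'` is not constant (`f' Z = f Z ≠ f X = f' X`), `s(f') ≥ 1`. -/
def S_SB : Prop := ∀ (V K J : Type) [Finite V] (G : SimpleGraph V) (c : V → K) (p q : V → R3)
  (g : K → Iso3) (f : K → J) (X Y : K), Env G c p q g → f X ≠ f Y →
  5 * (eb G c Set.univ f (f X) (f Y) : ℤ) ≤ sf G c Set.univ f + 6 ∧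
  ((∃ Z, f Z ≠ f X ∧ f Z ≠ f Y) →
    5 * (eb G c Set.univ f (f X) (f Y) : ℤ) ≤ sf G c Set.univ f + 5)

/-- **DD.** (60 lines; uses `S_SB`, `S_F3`) Two edges `z b`, `z b'` with a common centre.  If the two values `f X ≠ f Y`, `Y = c z`, `X = c b = c b'`, then `s(f) ≥ 5`.

Proof.  `e₀ = eb f (f X) (f Y) ≥ 2` (`z b`, `z b'` are two different elements).  By SB: if there is a third value then `s ≥ 5`; if `e₀ ≥ 3` then `s ≥ 9`.  Otherwise there are only the values `f X`, `f Y` and
`e₀ = 2`: the set `A = {v | f (c v) = f Y}` contains `z`, and the edges leaving `A` are exactly `z b` and `z b'` (every edge leaving `A` is between the two parts).  F3: `A = {z}` and all neighbours of `z` are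
`b, b'`.  Then `Y = {z}` as well: contradiction to `f4c`. -/
def S_DD : Prop := ∀ (V K J : Type) [Finite V] (G : SimpleGraph V) (c : V → K) (p q : V → R3)
  (g : K → Iso3) (f : K → J) (X Y : K) (z b b' : V), Env G c p q g → Dbl G c X Y z b b' →
  f X ≠ f Y → 5 ≤ sf G c Set.univ f

/-- **alpha.** (80 lines; uses `S_D0r`, `S_DD`) A partner of a double edge has another crossing edge.

Proof.  Suppose that every neighbour `w` of `b` with `c w ≠ X` is `z`.  Let `G' = G.deleteEdges {s(z, b)}`.  For every `f : K → J`: `sf G' c univ f = sf G c univ f` if `f X = f Y`, and `sf G c univ f - 5` if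
`f X ≠ f Y` (exactly the edge `z b` is missing); so `sf G' c univ f ≥ 0` (DD; for `f X = f Y` by `cntK`, or `f` constant).  `S_D0r` (`k = 0`): all motions of `(G', c)` are constant.
`tr` for `b` and the classes `X ≠ Y` (`b` is a pin of both): `m`.  `m` is a motion of `(G', c)` on `univ`: for a crossing edge `u w` of `G'` neither `u` nor `w` is `b` (if `u = b` then `w ≠ z`, so `c w = X = c u` by
assumption), so `ev (m (c u) - m (c w))` vanishes at both ends.  So `m X = m Y`: contradiction. -/
def S_Alpha : Prop := ∀ (V K : Type) [Finite V] (G : SimpleGraph V) (c : V → K)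
  (p q : V → R3) (g : K → Iso3) (X Y : K) (z b b' : V), Env G c p q g → Dbl G c X Y z b b' →
  ∃ w, G.Adj b w ∧ w ≠ z ∧ c w ≠ X

/-! ## clusters -/

/-- the set `Y` of classes is connected by double edges (inside `Y`) -/
def DCon {V K : Type} (G : SimpleGraph V) (c : V → K) (Y : Set K) : Prop :=
  ∀ A ∈ Y, ∀ B ∈ Y, Relation.ReflTransGen (fun A B => A ∈ Y ∧ B ∈ Y ∧ DE G c A B) A B

/-- `Y` is a cluster: nonempty, connected by double edges, and closed -/
def Clu {V K : Type} (G : SimpleGraph V) (c : V → K) (Y : Set K) : Prop :=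
  Y.Nonempty ∧ DCon G c Y ∧ ∀ A ∈ Y, ∀ B, DE G c A B → B ∈ Y

/-- **DEs.** (40 lines) Facts on double edges.

Proof.  (1) Symmetric by definition.  (2) `z, b, b'` are pins of `X` and of `Y` and pairwise different.  (3) Let `u w` be an edge with `c u = X`, `c w = Y`.  If `w ≠ z` then `f4a` for the edges `u w` and `b z` (and `b' z`)
says `u = b` and `u = b'` (two edges between `X` and `Y` with different ends in `Y` have the same end in `X`): contradiction.  So `w = z`; if `u ≠ b, b'` then `z` has three different neighbours in `X`: contradiction to `f4b`.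
(4) `Dbl G c Y X z' a a'` would give the edges `z' a`, `z' a'` with `z' ∈ X`, `a ≠ a' ∈ Y`; by (3) `a = z = a'`: contradiction.  (5) By (3): `z = z'` and `{b, b'} = {a, a'}`. -/
def S_DEs : Prop := ∀ (V K : Type) (G : SimpleGraph V) (c : V → K) (p q : V → R3)
  (g : K → Iso3), Env G c p q g →
  (∀ X Y, DE G c X Y → DE G c Y X) ∧
  ∀ X Y z b b', Dbl G c X Y z b b' →
    (z ≠ b ∧ z ≠ b' ∧ ∀ t, (t = z ∨ t = b ∨ t = b') → Pin G c X t ∧ Pin G c Y t) ∧
    (∀ u w, G.Adj u w → c u = X → c w = Y → w = z ∧ (u = b ∨ u = b')) ∧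
    (∀ z' a a', ¬ Dbl G c Y X z' a a') ∧
    ∀ z' a a', Dbl G c X Y z' a a' → z' = z ∧ ((a = b ∧ a' = b') ∨ (a = b' ∧ a' = b))

/-- **C1.** (40 lines) A set of classes connected by double edges is rigid.

Proof.  Let `m` be a motion on `Y`.  If `A, B ∈ Y` are joined by a double edge (centre `z`, partners `b, b'`) then `m A - m B` is a multiple of `Ln z b` and of `Ln z b'`, so `ev (m A - m B)` vanishes at `z, b, b'`, three
different points: `m A = m B` (`t2`, `gp3`).  Induction over `ReflTransGen`. -/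
def S_C1 : Prop := ∀ (V K : Type) (G : SimpleGraph V) (c : V → K) (p : V → R3) (Y : Set K),
  Gn p → DCon G c Y → Rig G c p Y

/-- **C2.** (120 lines; uses `S_SL1`, `S_DEs`, `S_C1`) The edges inside a set connected by double edges.

Proof.  Claim: for `1 ≤ n ≤ |Y|` there is `Y' ⊆ Y` with `n` elements, `DCon G c Y'`, which has the two properties.  `n = 1`: one class (no crossing edges).  Step: let `Y' ≠ Y`; since `Y` is connected by double edges there is
`X ∈ Y \ Y'` with `DE G c X B`, `B ∈ Y'` (induction over a chain from an element of `Y'` to an element of `Y \ Y'`).  `Y'' = insert X Y'` is connected.  `Y'` is rigid (C1), so by SL1 (the double edge gives two different edges between `X` and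
`Y'`) there are exactly two edges between `X` and `Y'`, and both go to the class `B` with `DE G c X B`.  So `ec G c Y'' = ec G c Y' + 2`, and the new crossing edges join `X` and `B`. -/
def S_C2 : Prop := ∀ (V K : Type) [Finite V] (G : SimpleGraph V) (c : V → K) (p q : V → R3)
  (g : K → Iso3) (Y : Set K), Env G c p q g → DCon G c Y → Y.Nonempty →
  ec G c Y + 2 = 2 * Y.ncard ∧ ∀ u w, Cre G c Y u w → DE G c (c u) (c w)

/-- the number of double edges at `X` in which `X` contains the partners -/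
noncomputable def iN {V K : Type} (G : SimpleGraph V) (c : V → K) (X : K) : ℕ :=
  {Y | ∃ z b b', Dbl G c X Y z b b'}.ncard

/-- the number of double edges at `X` in which `X` contains the centre -/
noncomputable def oN {V K : Type} (G : SimpleGraph V) (c : V → K) (X : K) : ℕ :=
  {Y | ∃ z b b', Dbl G c Y X z b b'}.ncard

/-- the number of legs of the class `X` of the cluster `Y`: edges from `X` to classes outside of `Y` -/
noncomputable def lN {V K : Type} (G : SimpleGraph V) (c : V → K) (Y : Set K) (X : K) : ℕ :=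
  {e : V × V | G.Adj e.1 e.2 ∧ c e.1 = X ∧ c e.2 ∉ Y}.ncard

/-- **n1.** (90 lines; uses `S_Alpha`, `S_DEs`, `S_C2`) Vertices in exactly one partner pair.

Proof.  Let `B` be a set of vertices `b` of `X` such that `b` is a partner in a double edge of `X`, and all double edges of `X` in which `b` is a partner have the same other class.  For `b ∈ B` (partner in the double edge with the class `Y₁`
and the centre `z`) alpha gives a neighbour `w ≠ z` of `b` with `c w ≠ X`.  If `c w ∉ Y` then `(b, w)` is a leg.  If `c w ∈ Y` then by C2 there is a double edge between `X` and `c w`.  If `X` is its partner side then by DEs (3) `w` is its centre and `b` one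
of its partners, so `c w = Y₁` and `w = z` (DEs (5)): contradiction.  So `X` is its centre side and by DEs (3) (for the edge `w b`) `b` is its centre.  So we get a map from `B` to the disjoint union of the legs of `X` and of the classes in the
set of `oN`; it is injective (a leg `(b, w)` determines `b`, a double edge determines its centre, DEs (5)). -/
def S_N1 : Prop := ∀ (V K : Type) [Finite V] (G : SimpleGraph V) (c : V → K) (p q : V → R3)
  (g : K → Iso3) (Y : Set K) (X : K) (B : Set V), Env G c p q g → Clu G c Y → X ∈ Y →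
  (∀ b ∈ B, (∃ Y₁ z b', Dbl G c X Y₁ z b b') ∧
    ∀ Y₁ z b' Y₂ z' b'', Dbl G c X Y₁ z b b' → Dbl G c X Y₂ z' b b'' → Y₁ = Y₂) →
  B.ncard ≤ lN G c Y X + oN G c X

/-- **C3.** (150 lines; uses `S_F3`, `S_DEs`, `S_N1`) Legs of a class in a cluster with at least two classes.

Proof.  Let `i = iN`, `o = oN`, `l = lN`.  `i + o ≥ 1` (`X` has a double edge: there is another class in `Y`, take the first step of a chain).  Two double edges of `X` with `X` the partner side and different other classes have different centres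
and their partner pairs are different sets (a common pair `{b, b'}` gives the four-cycle `z b z' b'`).
`i = 0`, `o = 1`: `l ≥ 1`: if `l = 0` then all edges leaving `X` go to classes of `Y`, by C2-type argument (DEs and the definition of the cluster: an edge from `X` to a class `B ∈ Y`, `B ≠ X`, belongs to a double edge by `S_C2`) to the only class with a double
edge, so they are `z b`, `z b'` with `z ∈ X` (DEs (3)); F3 for `A = {v | c v = X}`: `A = {z}` and `z` has only the neighbours `b, b'`: contradiction to `f4c`.  So `i + 2 o + l ≥ 3`, equality iff `l = 1`.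
`i = 0`, `o ≥ 2`: `i + 2 o + l ≥ 4`.
`i = 1`: `B` = the two partners of the only pair: `2 ≤ l + o`, so `i + 2 o + l ≥ 3 + o`: at least `3`, equality only if `o = 0`, `l = 2`.
`i = 2`: two different pairs, so at least two vertices are in exactly one of them: `2 ≤ l + o`, `i + 2 o + l ≥ 4`.
`i = 3`: `≥ 3`, equality only if `o = l = 0`.  `i ≥ 4`: `≥ 4`. -/
def S_C3 : Prop := ∀ (V K : Type) [Finite V] (G : SimpleGraph V) (c : V → K) (p q : V → R3)
  (g : K → Iso3) (Y : Set K) (X : K), Env G c p q g → Clu G c Y → Y.Nontrivial → X ∈ Y →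
  3 ≤ iN G c X + 2 * oN G c X + lN G c Y X ∧
  (iN G c X + 2 * oN G c X + lN G c Y X = 3 →
    (iN G c X = 0 ∧ oN G c X = 1 ∧ lN G c Y X = 1) ∨
    (iN G c X = 1 ∧ oN G c X = 0 ∧ lN G c Y X = 2) ∨
    (iN G c X = 3 ∧ oN G c X = 0 ∧ lN G c Y X = 0))

/-- **C4a.** (120 lines; uses `S_DEs`, `S_C2`, `S_C3`) At least three edges leave a cluster with at least two classes.

Proof.  `k = |Y| ≥ 2`.  Let `W` be the set of the pairs `(X, X')` of classes of `Y` with `∃ z b b', Dbl G c X X' z b b'`.  `∑_{X ∈ Y} iN X = |W| = ∑_{X ∈ Y} oN X` (fibres of the two projections; both classes are in `Y` as `Y` is closed).  The crossing edges inside `Y` are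
`2 |W|` (each pair of `W` has exactly the two edges `z b`, `z b'` by DEs (3); every crossing edge belongs to a pair, C2; only one of `(X, X')`, `(X', X)` is in `W`, DEs (4)), so `2 |W| + 2 = 2 k` by C2: `|W| = k - 1`.
`∑_{X ∈ Y} lN X = dK G c Y`.  By C3 `3 k ≤ ∑ (i + 2 o + l) = 3 (k - 1) + dK G c Y`, so `dK ≥ 3`; if `dK = 3` then equality holds for every class. -/
def S_C4a : Prop := ∀ (V K : Type) [Finite V] (G : SimpleGraph V) (c : V → K) (p q : V → R3)
  (g : K → Iso3) (Y : Set K), Env G c p q g → Clu G c Y → Y.Nontrivial →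
  3 ≤ dK G c Y ∧ (dK G c Y = 3 → ∀ X ∈ Y, iN G c X + 2 * oN G c X + lN G c Y X = 3)

/-- **C4b.** (150 lines; uses `S_Alpha`, `S_DEs`, `S_C2`) The clusters with a class of type `(1, 0, 2)`: type I.

Proof.  Let `U ∈ Y` with `i = 1`, `o = 0`, `l = 2`, let `Dbl G c U Z z b b'` be its double edge.  `Z` has `o ≥ 1`, so `(i, o, l)(Z) = (0, 1, 1)`.  The only class with a double edge to `U` is `Z`, the only class with a double edge to `Z` is `U`: `Y = {U, Z}` (chains
starting at `U` stay in `{U, Z}`).  alpha for `b`: a neighbour `y ≠ z` of `b` with `c y ≠ U`; `c y ≠ Z` (DEs (3)), so `(b, y)` is a leg.  In the same way `(b', y')` (`Dbl` is symmetric in `b, b'`).  `b ≠ b'` and `l(U) = 2`: these are all legs at `U`.  `l(Z) = 1`: exactly one leg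
`(a, y₁)` at `Z`. -/
def S_C4b : Prop := ∀ (V K : Type) [Finite V] (G : SimpleGraph V) (c : V → K) (p q : V → R3)
  (g : K → Iso3) (Y : Set K) (U : K), Env G c p q g → Clu G c Y →
  (∀ X ∈ Y, (iN G c X = 0 ∧ oN G c X = 1 ∧ lN G c Y X = 1) ∨
    (iN G c X = 1 ∧ oN G c X = 0 ∧ lN G c Y X = 2) ∨
    (iN G c X = 3 ∧ oN G c X = 0 ∧ lN G c Y X = 0)) → U ∈ Y → iN G c U = 1 →
  ∃ Z0 Z1 z b b' a y y' y₁, TyI G c Y Z0 Z1 z b b' a y y' y₁

/-- **C4c.** (200 lines; uses `S_Alpha`, `S_DEs`, `S_C2`) The clusters with a class of type `(3, 0, 0)`: type II.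

Proof.  Let `U ∈ Y` with `i = 3`, `o = l = 0`; `X 0, X 1, X 2` the three classes with `Dbl G c U (X i) (z i) (b i) (b' i)` (the set of `iN` has three elements).  Each `X i` has `o ≥ 1`, so it is of type `(0, 1, 1)`, and its only double edge is the one with `U`.  So
`Y = {U, X 0, X 1, X 2}` (chains starting at `U`).  Let `P i = {b i, b' i}` be the partner pairs.  They are pairwise different (a common pair gives a four-cycle).  Every element `x` of `P i` is in another `P j`: alpha gives a neighbour `w ≠ z i` of `x` with `c w ≠ U`; `l(U) = 0`, so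
`c w ∈ Y`, `c w = X j`; `j ≠ i` (DEs (3)), and DEs (3) says that `x` is in `P j`.  Let `P 0 = {x, x'}`.  `x` and `x'` are not both in the same `P j`, `j = 1, 2`; so (exchange `x, x'`) `x ∈ P 1`, `x' ∈ P 2`.  `P 1 = {x, t}`, `t ≠ x'`, so `t ∉ P 0`, `t ∈ P 2`, `P 2 = {x', t}`.  Put
`b 2 = x`, `b 1 = x'`, `b 0 = t`: `z i` is adjacent to `b j` for all `j ≠ i`.  `inn`: C2 and DEs (3).  Exactly one leg `(a i, y i)` at each `X i` (`l = 1`), no leg at `U`. -/
def S_C4c : Prop := ∀ (V K : Type) [Finite V] (G : SimpleGraph V) (c : V → K) (p q : V → R3)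
  (g : K → Iso3) (Y : Set K) (U : K), Env G c p q g → Clu G c Y →
  (∀ X ∈ Y, (iN G c X = 0 ∧ oN G c X = 1 ∧ lN G c Y X = 1) ∨
    (iN G c X = 1 ∧ oN G c X = 0 ∧ lN G c Y X = 2) ∨
    (iN G c X = 3 ∧ oN G c X = 0 ∧ lN G c Y X = 0)) → U ∈ Y → iN G c U = 3 →
  ∃ U X z b a y, TyII G c Y U X z b a y

/-- **C5.** (150 lines; uses `S_SL1`, `S_DEs`, `S_C1`) At most one edge between a cluster with at least two classes and a rigid set.

Proof.  Let `u₁ y₁`, `u₂ y₂` be two different edges, `c u_i ∈ Y`, `c y_i ∈ S`.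
(a) `c u₁ ≠ c u₂`: otherwise SL1 for `S` gives `DE (c u₁) (c y₁)`, so `c y₁ ∈ Y`: contradiction to the disjointness.  (b) `c y₁ ≠ c y₂`: otherwise SL1 for the rigid set `Y` (C1) and the class `c y₁` (edges `y₁ u₁`, `y₂ u₂`) gives `c u₁ = c u₂`.
(c) Put `X₀ = c u₁` and `R = {B | ReflTransGen (fun A B => A ≠ X₀ ∧ B ≠ X₀ ∧ DE G c A B) (c u₂) B}`.  There is `X₁ ∈ R` with `DE G c X₁ X₀`: along a chain of double edges from `c u₂` to `X₀` every element is in `R` until the first step to `X₀` (induction).  `R` is connected by double edges (inside `R`,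
use the symmetry of `DE`), does not contain `X₀`, and `R ⊆ Y`.
(d) `tr` for `u₁` and the classes `X₀ ≠ c y₁`: `m`.  For edges inside `S` and inside `R` no end is `u₁` (its class is `X₀`), so `m` is a motion on `S` and on `R`, hence constant on `S` (value `mS`) and on `R` (C1): `m X₁ = m (c u₂)`.
`ev (m (c u₂) - mS)` vanishes at `u₂`, `y₂` (both `≠ u₁`): `= β Ln u₂ y₂`.  `ev (m X₀ - mS)` vanishes at `y₁`.  Let `z, b, b'` be the centre and the partners of the double edge `X₁ X₀`; two of them, `a ≠ a'`, are different from `u₁`; they are pins of `X₀` and `X₁`, so `m X₀ - m X₁ = α Ln a a'`.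
So `α ev (Ln a a') y₁ + β ev (Ln u₂ y₂) y₁ = 0`.  Dot product with `y₂ - y₁`: `ev (Ln u₂ y₂) y₁ = (y₂ - u₂) × (y₁ - u₂)` is orthogonal to it, and `ev (Ln a a') y₁ ⬝ᵥ (y₂ - y₁) = ((a' - a) × (y₁ - a)) ⬝ᵥ (y₂ - a) ≠ 0` (`gp4`; `a, a'` have classes in `Y`, `y₁, y₂` in `S`, `y₁ ≠ y₂` by (b)): `α = 0`.
Then `β = 0` (`gp3` for `u₂, y₂, y₁`).  So `m X₀ = mS = m (c y₁)`: contradiction. -/
def S_C5 : Prop := ∀ (V K : Type) (G : SimpleGraph V) (c : V → K) (p q : V → R3)
  (g : K → Iso3) (Y S : Set K), Env G c p q g → Clu G c Y → Y.Nontrivial → Rig G c p S →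
  Disjoint Y S → ∀ u₁ y₁ u₂ y₂, G.Adj u₁ y₁ → G.Adj u₂ y₂ → c u₁ ∈ Y → c u₂ ∈ Y →
  c y₁ ∈ S → c y₂ ∈ S → u₁ = u₂ ∧ y₁ = y₂

/-- **Slow.** (30 lines; uses `S_SL1`, `S_C5`) At most one edge between a cluster and a rigid set.

Proof.  If the cluster has at least two classes: C5.  Otherwise it is `{X}`; two different edges give by SL1 a double edge between `X` and a class of `S`, which is then in the cluster: contradiction. -/
def S_Slow : Prop := ∀ (V K : Type) (G : SimpleGraph V) (c : V → K) (p q : V → R3)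
  (g : K → Iso3) (Y S : Set K), Env G c p q g → Clu G c Y → Rig G c p S →
  Disjoint Y S → ∀ u₁ y₁ u₂ y₂, G.Adj u₁ y₁ → G.Adj u₂ y₂ → c u₁ ∈ Y → c u₂ ∈ Y →
  c y₁ ∈ S → c y₂ ∈ S → u₁ = u₂ ∧ y₁ = y₂

/-- **NT.** (80 lines; uses `S_F3`, `S_C3`, `S_C4a`, `S_C4b`, `S_C4c`, `S_Slow`, `S_C1`) Clusters with two or three leaving edges.

Proof.  (1) `dK G c Y = 2`: by C4a `Y = {X}`.  The two leaving edges are `(x, y)`, `(x', y')`.  They go to different classes: otherwise the rigid set `{c y}` and the cluster `{X}` contradict Slow (a set with one element is rigid).  If `x = x'`: F3 for `A = {v | c v = X}`.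
(2) `dK G c Y = 3`: if `Y` is not nontrivial then `Y = {X}`.  Otherwise C4a, C3: every class is of one of the three types.  There is a class `U` with `iN G c U ≥ 1` (take a double edge inside `Y`), so it is of type `(1, 0, 2)` or `(3, 0, 0)`: C4b, C4c. -/
def S_NT : Prop := ∀ (V K : Type) [Finite V] (G : SimpleGraph V) (c : V → K) (p q : V → R3)
  (g : K → Iso3) (Y : Set K), Env G c p q g → Clu G c Y →
  (dK G c Y = 2 → ∃ X x y x' y', Y = {X} ∧ D2 G c X x y x' y') ∧
  (dK G c Y = 3 → (∃ X, Y = {X}) ∨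
    (∃ Z0 Z1 z b b' a y y' y₁, TyI G c Y Z0 Z1 z b b' a y y' y₁) ∨
    ∃ U X z b a y, TyII G c Y U X z b a y)

/-- **NE.** (150 lines; uses `S_F1`, `S_DEs`, `S_C1`, `S_C4a`, `S_Slow`, `S_NT`) The environment with nodes.

Proof.  `N` = the quotient of `K` by the equivalence relation `ReflTransGen (DE G c)` (symmetric by DEs).  For `A : N` the set `Y = {X | π X = A}` is a cluster (a chain of double edges stays in `Y`); `dK G (π ∘ c) {A} = dK G c Y`, more generally `dK G (π ∘ c) S = dK G c (π ⁻¹' S)` (definition).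
`twoN`: if there is only one node then `univ` is a cluster with at least two classes (`two`) and `dK G c univ = 0`: contradiction to C4a.  `motN`: `{X | π X = A}` is connected by double edges, `m` is a motion on it (`IsMot.mono`), C1.
`cntN`: `sf G (π ∘ c) univ f = sf G c univ (f ∘ π)` (the same set of edges, `π` surjective) and `cntK`.  `slow`: Slow for the cluster `{X | π X = A}`.
`slowN`: `Rig G (π ∘ c) p S` implies `Rig G c p (π ⁻¹' S)`: a motion `m` of `(G, c)` on `π ⁻¹' S` is constant on the nodes (`motN`), so `m = m' ∘ π` on `π ⁻¹' S` with `m' : N → Tw` (choose representatives), and `m'` is a motion of `(G, π ∘ c)` on `S`; it is constant.  Then `slow`.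
`deg`: F1 for `π ∘ c` (`π`, `c` surjective).  `deg2`, `deg3`: NT. -/
def S_NE : Prop := ∀ (V K : Type) [Finite V] (G : SimpleGraph V) (c : V → K) (p q : V → R3)
  (g : K → Iso3), Env G c p q g → ∃ (N : Type) (π : K → N), NEnv G c p q g π

end Pool.Agent.MPf1f412
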