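import Pool.Agent.Lib.MP_f1f412_co.ZMin
import Pool.Agent.Lib.MP_f1f412_co.SpecM
import Pool.Agent.Lib.MP_f1f412_co.SpecB
import Pool.Agent.Lib.MP_f1f412_co.Spec8

/-!
# MP_f1f412_co (C34), final assembly of the sufficiency
-/

set_option autoImplicit false

namespace Pool.Agent.MPf1f412

open Matrix

/-- **Assembly of the sufficiency**; `h6` is the result of section 9. -/
theorem zSuff_of (h1 : S_MinEx) (h2 : S_One) (h3 : S_Env) (h4 : S_NE) (h5 : S_NDN)
    (h6 : ∀ (V K N : Type) [Fintype V] [Finite K] [Finite N] (G : SimpleGraph V) (c : V → K)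
      (p q : V → R3) (g : K → Iso3) (π : K → N), NEnv G c p q g π → NDN G (π ∘ c) →
      ∀ Z : Set N, MinZ G (π ∘ c) 2 Z → ∀ X ∈ Z, dK G (π ∘ c) {X} = 2 → False)
    (h7 : S_CaseB) : S_Suff := by
  classical
  intro V _ G p q hH hp hE u w
  have : Nonempty V := ⟨u⟩
  have : Fintype V := Fintype.ofFinite V
  obtain ⟨K, c, g, hc, hpl, hmin⟩ := h1 V G p q hE
  by_cases hone : ∀ X Y : K, X = Y
  · exact h2 V K G p q c g hpl hone u w
  · exfalso
    have htwo : ∃ X Y : K, X ≠ Y := by
      by_contra hcon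
      exact hone fun X Y => by
        by_contra hne
        exact hcon ⟨X, Y, hne⟩
    have henv := h3 V K G c p q g hH hp hc hpl hmin htwo
    obtain ⟨N, π, hN⟩ := h4 V K G c p q g henv
    have : Finite K := Finite.of_surjective c hc
    have : Finite N := Finite.of_surjective π hN.psurj
    have hnd := h5 V K N G c p q g π hN
    obtain ⟨A, B, hAB⟩ := hN.twoN
    have huniv : dK G (π ∘ c) Set.univ ≤ 2 := by
      have : {e : V × V | G.Adj e.1 e.2 ∧ (π ∘ c) e.1 ∈ (Set.univ : Set N) ∧
          (π ∘ c) e.2 ∉ (Set.univ : Set N)} = ∅ := by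
        ext e
        simp
      unfold dK
      rw [this, Set.ncard_empty]
      omega
    obtain ⟨Z, -, hZ⟩ := exists_minZ G (π ∘ c) 2 Set.univ ⟨A, trivial, B, trivial, hAB⟩ huniv
    by_cases hA : ∃ X ∈ Z, dK G (π ∘ c) {X} = 2
    · obtain ⟨X, hX, hX2⟩ := hA
      exact h6 V K N G c p q g π hN hnd Z hZ X hX hX2
    · refine h7 V K N G c p q g π hN Z ?_ hZ.le fun X hX => ?_
      · obtain ⟨A', hA', B', hB', hne⟩ := hZ.two
        have := (Set.one_lt_ncard (Set.toFinite Z)).mpr ⟨A', hA', B', hB', hne⟩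
        omega
      · have hne : ({X} : Set N) ≠ Set.univ := by
          intro he
          have h1 : A ∈ ({X} : Set N) := by rw [he]; trivial
          have h2 : B ∈ ({X} : Set N) := by rw [he]; trivial
          rw [Set.mem_singleton_iff] at h1 h2
          exact hAB (h1.trans h2.symm)
        have h2 := hN.deg {X} (Set.singleton_nonempty X) hne
        have h3 : dK G (π ∘ c) {X} ≠ 2 := fun h' => hA ⟨X, hX, h'⟩
        omega

end Pool.Agent.MPf1f412
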