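import Pool.Agent.Lib.MP_f1f412_co.Asm2
import Pool.Agent.Lib.MP_f1f412_co.ZSuff
import Pool.Agent.Lib.MP_f1f412_co.A94
import Pool.Agent.Lib.MP_f1f412_co.ACaseA
import Pool.Agent.Lib.MP_f1f412_co.ADmo
import Pool.Agent.Lib.MP_f1f412_co.AI2
import Pool.Agent.Lib.MP_f1f412_co.AI3
import Pool.Agent.Lib.MP_f1f412_co.ALeave
import Pool.Agent.Lib.MP_f1f412_co.AMg
import Pool.Agent.Lib.MP_f1f412_co.ANode
import Pool.Agent.Lib.MP_f1f412_co.AOpt
import Pool.Agent.Lib.MP_f1f412_co.ARel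
import Pool.Agent.Lib.MP_f1f412_co.ARest
import Pool.Agent.Lib.MP_f1f412_co.ATya
import Pool.Agent.Lib.MP_f1f412_co.ATyb
import Pool.Agent.Lib.MP_f1f412_co.AZeta

/-!
# MP_f1f412_co (C34): assembly, part 3 (section 9 and the sufficiency)
-/

set_option autoImplicit false

namespace Pool.Agent.MPf1f412

theorem zLeave : S_ALeave := aLeave Add

theorem zI3 : S_AI3 := aI3 bParts

theorem z94 : S_A94 := a94 zLeave aI2 zI3 aMg aRest

theorem zDmo : S_ADmo := aDmo z94 aOpt aD0f aD0r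

theorem zZeta : S_AZeta := aZeta zLeave zDmo aCompRig mrg e8SpDim stab

theorem zTyb : S_ATyb := aTyb e8R1 e8TwoIso

theorem zTya : S_ATya := aTya aRel aNode aDZP

theorem zCaseA : S_CaseA := aCaseA zZeta zTya zTyb aNode

/-- **Sufficiency.** -/
theorem aSuff : S_Suff := zSuff_of aMinEx pOne aEnv aNE aNDN zCaseA aCaseB

end Pool.Agent.MPf1f412
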