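import Pool.Agent.Lib.MP_f1f412_co.SpecN
import Pool.Agent.Lib.MP_f1f412_co.Basic

/-!
# MP_f1f412_co (C34), N10: velocities of the pins
-/

set_option autoImplicit false

namespace Pool.Agent.MPf1f412

open Matrix

theorem nBGm : S_BGm := by
  intro V K G c p v S m hp hd hS hv hne
  refine ⟨?_, ?_⟩
  · intro Y hY u w hu hw
    rw [hv Y hY u hu, hv Y hY w hw, ev_diff (m Y) (p u) (p w), add_sub_cancel_left]
    exact dot_cr_self' _ _
  · rintro ⟨n, hn⟩
    have key : ∀ Y ∈ S, m Y = n := by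
      intro Y hY
      obtain ⟨x, hx⟩ := hS hY
      obtain ⟨a, b, hab, hxa, hxb⟩ := hd x
      have hz : ∀ u, Pin G c Y u → ev (m Y - n) (p u) = 0 := fun u hu => by
        rw [ev_sub, ← hv Y hY u hu, hn u ⟨Y, hY, hu⟩, sub_self]
      have h1 := t2 (hp.gp3 hxa.ne hxb.ne hab) (hz x ⟨x, hx, Or.inl rfl⟩)
        (hz a ⟨x, hx, Or.inr hxa⟩) (hz b ⟨x, hx, Or.inr hxb⟩)
      exact sub_eq_zero.1 h1
    obtain ⟨X, hX, Y, hY, hXY⟩ := hne
    exact hXY ((key X hX).trans (key Y hY).symm)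

end Pool.Agent.MPf1f412
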