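import Pool.Agent.Lib.MP_f1f412_co.SpecN
import Pool.Agent.Lib.MP_f1f412_co.Basic

/-!
# MP_f1f412_co (C34), necessity, C6: the hexagon
-/

set_option autoImplicit false

namespace Pool.Agent.MPf1f412

theorem nC6 : S_C6 := by
  classical
  intro V _ G tri quad deg hd hcard
  have : Fintype V := Fintype.ofFinite V
  have hcard' : Fintype.card V = 6 := by rw [← Nat.card_eq_fintype_card, hcard]
  obtain ⟨v₀⟩ : Nonempty V := by
    rw [← Fintype.card_pos_iff, hcard']
    norm_num
  obtain ⟨v₁, v₅, n15, a01, a05⟩ := deg v₀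
  -- another neighbour
  have other : ∀ v x, G.Adj v x → ∃ y, G.Adj v y ∧ y ≠ x := by
    intro v x hx
    obtain ⟨a, b, hab, ha, hb⟩ := deg v
    by_cases h : a = x
    · exact ⟨b, hb, fun h' => hab (h.trans h'.symm)⟩
    · exact ⟨a, ha, h⟩
  obtain ⟨v₂, a12, n20⟩ := other v₁ v₀ a01.symm
  obtain ⟨v₄, a54, n40⟩ := other v₅ v₀ a05.symm
  have n01 : v₀ ≠ v₁ := a01.ne
  have n05 : v₀ ≠ v₅ := a05.ne
  have n12 : v₁ ≠ v₂ := a12.ne
  have n54 : v₅ ≠ v₄ := a54.ne
  have n25 : v₂ ≠ v₅ := by
    rintro rfl
    exact tri v₀ v₁ v₂ ⟨a01, a12, a05.symm⟩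
  have n41 : v₄ ≠ v₁ := by
    rintro rfl
    exact tri v₀ v₅ v₄ ⟨a05, a54, a01.symm⟩
  have n24 : v₂ ≠ v₄ := by
    rintro rfl
    exact quad v₀ v₁ v₂ v₅ n20.symm n15 ⟨a01, a12, a54.symm, a05.symm⟩
  -- the sixth vertex
  obtain ⟨v₃, hv₃⟩ : ∃ v₃, v₃ ∉ ({v₀, v₁, v₂, v₄, v₅} : Finset V) := by
    by_contra hcon
    push Not at hcon
    have h1 : (Finset.univ : Finset V) ⊆ {v₀, v₁, v₂, v₄, v₅} := fun x _ => hcon x
    have h2 := Finset.card_le_card h1
    rw [Finset.card_univ, hcard'] at h2
    have h3 : ({v₀, v₁, v₂, v₄, v₅} : Finset V).card ≤ 5 := Finset.card_le_five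
    omega
  simp only [Finset.mem_insert, Finset.mem_singleton, not_or] at hv₃
  obtain ⟨n30, n31, n32, n34, n35⟩ := hv₃
  let φ : Fin 6 → V := ![v₀, v₁, v₂, v₃, v₄, v₅]
  have inj : Function.Injective φ := by
    intro i j hij
    fin_cases i <;> fin_cases j <;> first
      | rfl
      | (exfalso
         first
           | exact n01 hij | exact n01 hij.symm | exact n20 hij | exact n20 hij.symm
           | exact n30 hij | exact n30 hij.symm | exact n40 hij | exact n40 hij.symm
           | exact n05 hij | exact n05 hij.symm | exact n12 hij | exact n12 hij.symm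
           | exact n31 hij | exact n31 hij.symm | exact n41 hij | exact n41 hij.symm
           | exact n15 hij | exact n15 hij.symm | exact n32 hij | exact n32 hij.symm
           | exact n24 hij | exact n24 hij.symm | exact n25 hij | exact n25 hij.symm
           | exact n34 hij | exact n34 hij.symm | exact n35 hij | exact n35 hij.symm
           | exact n54 hij | exact n54 hij.symm)
  have bij : Function.Bijective φ :=
    (Fintype.bijective_iff_injective_and_card φ).2 ⟨inj, by rw [Fintype.card_fin, hcard']⟩
  have all : ∀ x, x = v₀ ∨ x = v₁ ∨ x = v₂ ∨ x = v₃ ∨ x = v₄ ∨ x = v₅ := by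
    intro x
    obtain ⟨i, rfl⟩ := bij.2 x
    fin_cases i
    · exact Or.inl rfl
    · exact Or.inr (Or.inl rfl)
    · exact Or.inr (Or.inr (Or.inl rfl))
    · exact Or.inr (Or.inr (Or.inr (Or.inl rfl)))
    · exact Or.inr (Or.inr (Or.inr (Or.inr (Or.inl rfl))))
    · exact Or.inr (Or.inr (Or.inr (Or.inr (Or.inr rfl))))
  -- a vertex with two known neighbours has no third one
  have three : ∀ v a b d, G.Adj v a → G.Adj v b → a ≠ b → G.Adj v d → d = a ∨ d = b := by
    intro v a b d ha hb hab hdd
    rcases hd v a b d ha hb hdd with h | h | h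
    · exact absurd h hab
    · exact Or.inl h.symm
    · exact Or.inr h.symm
  have a23 : G.Adj v₂ v₃ := by
    obtain ⟨x, hx, hx1⟩ := other v₂ v₁ a12.symm
    rcases all x with rfl | rfl | rfl | rfl | rfl | rfl
    · rcases three _ _ _ v₂ a01 a05 n15 hx.symm with h | h
      · exact absurd h n12.symm
      · exact absurd h n25
    · exact absurd rfl hx1
    · exact absurd rfl hx.ne
    · exact hx
    · -- five-cycle, the sixth vertex has no neighbour
      exfalso
      obtain ⟨a, b, _, ha, _⟩ := deg v₃
      rcases all a with rfl | rfl | rfl | rfl | rfl | rfl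
      · rcases three _ _ _ v₃ a01 a05 n15 ha.symm with h | h
        · exact n31 h
        · exact n35 h
      · rcases three _ _ _ v₃ a01.symm a12 n20.symm ha.symm with h | h
        · exact n30 h
        · exact n32 h
      · rcases three _ _ _ v₃ a12.symm hx n41.symm ha.symm with h | h
        · exact n31 h
        · exact n34 h
      · exact ha.ne rfl
      · rcases three _ _ _ v₃ a54.symm hx.symm n25.symm ha.symm with h | h
        · exact n35 h
        · exact n32 h
      · rcases three _ _ _ v₃ a05.symm a54 n40.symm ha.symm with h | h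
        · exact n30 h
        · exact n34 h
    · rcases three _ _ _ v₂ a05.symm a54 n40.symm hx.symm with h | h
      · exact absurd h n20
      · exact absurd h n24
  have a43 : G.Adj v₄ v₃ := by
    obtain ⟨x, hx, hx1⟩ := other v₄ v₅ a54.symm
    rcases all x with rfl | rfl | rfl | rfl | rfl | rfl
    · rcases three _ _ _ v₄ a01 a05 n15 hx.symm with h | h
      · exact absurd h n41
      · exact absurd h n54.symm
    · rcases three _ _ _ v₄ a01.symm a12 n20.symm hx.symm with h | h
      · exact absurd h n40
      · exact absurd h n24.symm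
    · rcases three _ _ _ v₄ a12.symm a23 (Ne.symm n31) hx.symm with h | h
      · exact absurd h n41
      · exact absurd h (Ne.symm n34)
    · exact hx
    · exact absurd rfl hx.ne
    · exact absurd rfl hx1
  have h6 : ∀ i, G.Adj (φ i) (φ (i + 1)) := by
    intro i
    fin_cases i
    · exact a01
    · exact a12
    · exact a23
    · exact a43.symm
    · exact a54.symm
    · exact a05.symm
  refine ⟨φ, bij, fun i j => ⟨fun h => ?_, fun h => ?_⟩⟩
  · have h7 : G.Adj (φ i) (φ (i - 1)) := by
      have := h6 (i - 1)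
      rw [sub_add_cancel] at this
      exact this.symm
    rcases hd _ _ _ _ (h6 i) h7 h with e | e | e
    · exfalso
      have e' := inj e
      have e6 : ∀ k : Fin 6, k + 1 ≠ k - 1 := by decide
      exact e6 i e'
    · exact Or.inl (inj e).symm
    · right
      rw [← inj e, sub_add_cancel]
  · rcases h with rfl | rfl
    · exact h6 i
    · exact (h6 j).symm

end Pool.Agent.MPf1f412
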