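import Pool.Agent.Lib.MP_f1f412_co.SpecN
import Pool.Agent.Lib.MP_f1f412_co.Basic

/-!
# MP_f1f412_co (C34), module NCon4: global rigidity implies four-connectivity
-/

set_option autoImplicit false

namespace Pool.Agent.MPf1f412

open Matrix

private theorem ncon4_dsq (e ν : R3) (t : ℝ) :
    (e - t • ν) ⬝ᵥ (e - t • ν) = e ⬝ᵥ e - 2 * t * (e ⬝ᵥ ν) + t ^ 2 * (ν ⬝ᵥ ν) := by
  simp only [dot_eq, Pi.sub_apply, Pi.smul_apply, smul_eq_mul]
  ring

private theorem ncon4_comm (x y : R3) : dsq x y = dsq y x := by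
  simp only [dsq, dot_eq, Pi.sub_apply]
  ring

/-- the reflection -/
private noncomputable def rfl4 (o ν x : R3) : R3 := x - (2 * ((x - o) ⬝ᵥ ν) / (ν ⬝ᵥ ν)) • ν

private theorem rfl4_fix {o ν x : R3} (h : (x - o) ⬝ᵥ ν = 0) : rfl4 o ν x = x := by
  unfold rfl4
  rw [h, mul_zero, zero_div, zero_smul, sub_zero]

private theorem rfl4_dsq {o ν : R3} (hν : ν ⬝ᵥ ν ≠ 0) (x y : R3) :
    dsq (rfl4 o ν x) (rfl4 o ν y) = dsq x y := by
  have h1 : rfl4 o ν x - rfl4 o ν y = (x - y) - (2 * ((x - y) ⬝ᵥ ν) / (ν ⬝ᵥ ν)) • ν := by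
    have h2 : (x - y) ⬝ᵥ ν = (x - o) ⬝ᵥ ν - (y - o) ⬝ᵥ ν := by
      rw [← sub_dotProduct, sub_sub_sub_cancel_right]
    rw [h2]
    unfold rfl4
    funext i
    simp only [Pi.sub_apply, Pi.smul_apply, smul_eq_mul]
    ring
  unfold dsq
  rw [h1, ncon4_dsq]
  field_simp
  ring

private theorem rfl4_dsq' {o ν : R3} (hν : ν ⬝ᵥ ν ≠ 0) (x y : R3) :
    dsq x (rfl4 o ν y) = dsq x y + 4 * ((x - o) ⬝ᵥ ν) * ((y - o) ⬝ᵥ ν) / (ν ⬝ᵥ ν) := by
  have h1 : x - rfl4 o ν y = (x - y) - (-(2 * ((y - o) ⬝ᵥ ν) / (ν ⬝ᵥ ν))) • ν := by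
    unfold rfl4
    funext i
    simp only [Pi.sub_apply, Pi.smul_apply, smul_eq_mul]
    ring
  have h2 : (x - y) ⬝ᵥ ν = (x - o) ⬝ᵥ ν - (y - o) ⬝ᵥ ν := by
    rw [← sub_dotProduct, sub_sub_sub_cancel_right]
  unfold dsq
  rw [h1, ncon4_dsq, h2]
  field_simp
  ring

theorem nCon4 (h1 : S_Gn) : S_Con4 := by
  classical
  intro V _ H p h5 hai hgr B hBf hB
  have hp := h1 V p hai
  have : Fintype V := Fintype.ofFinite V
  have hcardu : (Set.univ : Set V).ncard = Nat.card V := Set.ncard_univ V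
  by_contra hcon
  have hne : (Bᶜ).Nonempty := by
    rw [Set.nonempty_compl]
    intro he
    rw [he, hcardu] at hB
    omega
  have hnp : ¬ (H.induce Bᶜ).Preconnected := by
    intro hpre
    have : Nonempty ↥(Bᶜ) := hne.to_subtype
    exact hcon ⟨hpre⟩
  have hex : ∃ a b : ↥(Bᶜ), ¬ (H.induce Bᶜ).Reachable b a := by
    by_contra h
    refine hnp fun b a => ?_
    by_contra h'
    exact h ⟨a, b, h'⟩
  obtain ⟨⟨a, ha⟩, ⟨b, hb⟩, hab⟩ := hex
  have hab' : a ≠ b := by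
    rintro rfl
    exact hab (SimpleGraph.Reachable.refl _)
  set R : Set V := {u | ∃ h : u ∈ Bᶜ, (H.induce Bᶜ).Reachable ⟨b, hb⟩ ⟨u, h⟩} with hR
  have hbR : b ∈ R := ⟨hb, SimpleGraph.Reachable.refl _⟩
  have haR : a ∉ R := fun ⟨_, h⟩ => hab h
  -- three points
  have hsub : B ⊆ ({a, b} : Set V)ᶜ := by
    intro x hx hx'
    rcases hx' with rfl | hx'
    · exact ha hx
    · rw [Set.mem_singleton_iff] at hx'
      rw [hx'] at hx
      exact hb hx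
  have hc2 : ({a, b} : Set V)ᶜ.ncard = Nat.card V - 2 := by
    rw [Set.ncard_compl, Set.ncard_pair hab']
  obtain ⟨B', hBB', hB'ab, hB'3⟩ := Set.exists_subsuperset_card_eq hsub (show B.ncard ≤ 3 by omega)
    (show 3 ≤ ({a, b} : Set V)ᶜ.ncard by rw [hc2]; omega)
  obtain ⟨s₁, s₂, s₃, h12, h13, h23, hBs⟩ := Set.ncard_eq_three.mp hB'3
  have hs : ∀ i ∈ B', i ≠ a ∧ i ≠ b := by
    intro i hi
    have := hB'ab hi
    simpa only [Set.mem_compl_iff, Set.mem_insert_iff, Set.mem_singleton_iff, not_or] using this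
  have hs1 := hs s₁ (by rw [hBs]; simp)
  have hs2 := hs s₂ (by rw [hBs]; simp)
  have hs3 := hs s₃ (by rw [hBs]; simp)
  set ν := cr (p s₂ - p s₁) (p s₃ - p s₁) with hν
  have hν0 : ν ≠ 0 := hp.gp3 h12 h13 h23
  have hνν : ν ⬝ᵥ ν ≠ 0 := fun h => hν0 (dot_self_eq_zero h)
  have hfix : ∀ w ∈ B, rfl4 (p s₁) ν (p w) = p w := by
    intro w hw
    refine rfl4_fix ?_
    have hw' := hBB' hw
    rw [hBs] at hw'
    rcases hw' with rfl | rfl | hw'
    · rw [sub_self, zero_dotProduct]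
    · exact dot_cr_self _ _
    · rw [Set.mem_singleton_iff] at hw'
      rw [hw']
      exact dot_cr_self' _ _
  have hcross : ∀ u w, H.Adj u w → u ∈ R → w ∉ R → w ∈ B := by
    intro u w huw hu hw
    by_contra hwB
    obtain ⟨huB, hru⟩ := hu
    refine hw ⟨hwB, hru.trans (SimpleGraph.Adj.reachable ?_)⟩
    exact huw
  have hEqv : Eqv H p (fun u => if u ∈ R then rfl4 (p s₁) ν (p u) else p u) := by
    intro u w huw
    by_cases hu : u ∈ R <;> by_cases hw : w ∈ R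
    · simp only [if_pos hu, if_pos hw]
      exact rfl4_dsq hνν _ _
    · simp only [if_pos hu, if_neg hw]
      have h6 := hfix w (hcross u w huw hu hw)
      calc dsq (rfl4 (p s₁) ν (p u)) (p w) = dsq (rfl4 (p s₁) ν (p u)) (rfl4 (p s₁) ν (p w)) := by
            rw [h6]
        _ = _ := rfl4_dsq hνν _ _
    · simp only [if_neg hu, if_pos hw]
      have h6 := hfix u (hcross w u huw.symm hw hu)
      calc dsq (p u) (rfl4 (p s₁) ν (p w)) = dsq (rfl4 (p s₁) ν (p u)) (rfl4 (p s₁) ν (p w)) := by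
            rw [h6]
        _ = _ := rfl4_dsq hνν _ _
    · simp only [if_neg hu, if_neg hw]
  have h7 := hgr _ hEqv a b
  simp only [if_neg haR, if_pos hbR] at h7
  rw [rfl4_dsq' hνν] at h7
  have h8 : (p a - p s₁) ⬝ᵥ ν ≠ 0 := by
    rw [dotProduct_comm]
    exact hp.gp4 h12 h13 hs1.1 h23 hs2.1 hs3.1
  have h9 : (p b - p s₁) ⬝ᵥ ν ≠ 0 := by
    rw [dotProduct_comm]
    exact hp.gp4 h12 h13 hs1.2 h23 hs2.2 hs3.2
  have h10 : 4 * ((p a - p s₁) ⬝ᵥ ν) * ((p b - p s₁) ⬝ᵥ ν) / (ν ⬝ᵥ ν) ≠ 0 := by positivity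
  apply h10
  linarith

end Pool.Agent.MPf1f412
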