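import Pool.Agent.Lib.MP_f1f412_co.SpecN

/-!
# MP_f1f412_co (C34): derivations and algebraic numbers
-/

set_option autoImplicit false

namespace Pool.Agent.MPf1f412

open Polynomial

theorem nDerK (h1 : S_Der) : S_DerK := by
  refine ⟨?_, ?_, ?_⟩
  · intro D A hA x hx
    induction hx using IntermediateField.adjoin_induction with
    | mem x hx => exact hA x hx
    | algebraMap x => exact D.map_algebraMap x
    | add x y _ _ hx hy => rw [map_add, hx, hy, add_zero]
    | inv x _ hx => rw [Derivation.leibniz_inv, hx, smul_zero]
    | mul x y _ _ hx hy => rw [Derivation.leibniz, hx, hy, smul_zero, smul_zero, add_zero]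
  · intro K _ _ _ D hD x hx
    let D' : Derivation K ℝ ℝ := Derivation.mk'
      { toFun := D
        map_add' := fun a b => map_add D a b
        map_smul' := fun a b => by
          rw [Algebra.smul_def, Derivation.leibniz, hD, smul_zero, add_zero, RingHom.id_apply,
            smul_eq_mul, Algebra.smul_def] }
      (fun a b => D.leibniz a b)
    have hD' : ∀ y, D' y = D y := fun y => rfl
    have h2 := D'.map_aeval (minpoly K x) x
    rw [minpoly.aeval, map_zero, smul_eq_mul] at h2
    have hx' : IsIntegral K x := hx.isIntegral
    have h3 := (minpoly.irreducible hx').separable.aeval_derivative_ne_zero (minpoly.aeval K x)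
    rcases mul_eq_zero.1 h2.symm with h4 | h4
    · exact absurd h4 h3
    · exact h4
  · intro K _ _ _ x hx
    obtain ⟨D, hD⟩ := h1 K ℝ Unit (fun _ => x) (algebraicIndependent_unique_type_iff.2 hx)
      (fun _ => 1)
    refine ⟨D.restrictScalars ℚ, fun y => D.map_algebraMap y, ?_⟩
    show D x ≠ 0
    rw [hD ()]
    exact one_ne_zero

end Pool.Agent.MPf1f412
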