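import Pool.Agent.Lib.MP_f1f412_co.SpecN

/-!
# MP_f1f412_co (C34): second real embedding, or all embeddings extend
-/

set_option autoImplicit false

namespace Pool.Agent.MPf1f412

open Polynomial

theorem nDich (h1 : S_OddRoot) : S_Dich := by
  intro K E _ _ _ _ _ σ₀
  have hsep : Algebra.IsSeparable K E := inferInstance
  let pb := Field.powerBasisOfFiniteOfSeparable K E
  have hint : IsIntegral K pb.gen := pb.isIntegral_gen
  -- (*)
  have star : ∀ (τ : K →+* ℝ) (r : ℝ), ((minpoly K pb.gen).map τ).IsRoot r →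
      ∃ σ : E →+* ℝ, (∀ x : K, σ (algebraMap K E x) = τ x) ∧ σ pb.gen = r := by
    intro τ r hr
    let _ := τ.toAlgebra
    have hr' : aeval r (minpoly K pb.gen) = 0 := by
      rw [aeval_def, ← eval_map]
      exact hr
    refine ⟨(pb.lift r hr').toRingHom, fun x => ?_, pb.lift_gen r hr'⟩
    exact (pb.lift r hr').commutes x
  rcases Nat.even_or_odd (minpoly K pb.gen).natDegree with hev | hodd
  · left
    let τ : K →+* ℝ := σ₀.comp (algebraMap K E)
    let g := (minpoly K pb.gen).map τ
    have hg : g.IsRoot (σ₀ pb.gen) := by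
      show eval (σ₀ pb.gen) ((minpoly K pb.gen).map τ) = 0
      rw [eval_map, ← hom_eval₂]
      have := minpoly.aeval K pb.gen
      rw [aeval_def] at this
      rw [this, map_zero]
    have hg0 : g ≠ 0 := (Polynomial.map_ne_zero (minpoly.ne_zero hint))
    have hgdeg : g.natDegree = (minpoly K pb.gen).natDegree := natDegree_map τ
    obtain ⟨h, hh⟩ := dvd_iff_isRoot.2 hg
    have hh0 : h ≠ 0 := by
      rintro rfl
      rw [mul_zero] at hh
      exact hg0 hh
    have hdeg : g.natDegree = 1 + h.natDegree := by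
      rw [hh, natDegree_mul (X_sub_C_ne_zero _) hh0, natDegree_X_sub_C]
    have hodd : Odd h.natDegree := by
      rw [← hgdeg, hdeg] at hev
      rcases Nat.even_or_odd h.natDegree with h' | h'
      · exfalso
        rw [add_comm, Nat.even_add_one] at hev
        exact hev h'
      · exact h'
    obtain ⟨r, hr⟩ := h1 h hodd
    have hne : r ≠ σ₀ pb.gen := by
      rintro rfl
      obtain ⟨h', hh'⟩ := dvd_iff_isRoot.2 hr
      have hsf : Squarefree g :=
        (((minpoly.irreducible hint).separable).map (f := τ)).squarefree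
      have hu := hsf (X - C (σ₀ pb.gen)) ⟨h', by rw [hh, hh', mul_assoc]⟩
      exact (Polynomial.not_isUnit_X_sub_C _) hu
    have hrg : g.IsRoot r := by
      show eval r g = 0
      rw [hh, eval_mul]
      have : eval r h = 0 := hr
      rw [this, mul_zero]
    obtain ⟨σ, hσ, hσr⟩ := star τ r hrg
    refine ⟨σ, ?_, hσ⟩
    rintro rfl
    exact hne hσr.symm
  · right
    intro τ
    obtain ⟨r, hr⟩ := h1 ((minpoly K pb.gen).map τ) (by rw [natDegree_map]; exact hodd)
    obtain ⟨σ, hσ, -⟩ := star τ r hr
    exact ⟨σ, hσ⟩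

end Pool.Agent.MPf1f412
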