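import Pool.Agent.Lib.MP_f1f412_co.SpecN
import Pool.Agent.Lib.MP_f1f412_co.Basic

/-!
# MP_f1f412_co (C34), N9: a motion which is not constant and satisfies linear conditions
-/

set_option autoImplicit false

namespace Pool.Agent.MPf1f412

open Matrix

theorem nEx7 : S_Ex7 := by
  intro V K G c p S j L hne hd
  have hfin : Module.Finite ℝ (Mot G c p S) :=
    Module.finite_of_finrank_pos (by unfold dmo at hd; omega)
  let f : Mot G c p S →ₗ[ℝ] (Fin j → ℝ) := L ∘ₗ (Mot G c p S).subtype
  have h1 := LinearMap.finrank_range_add_finrank_ker f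
  have h2 : Module.finrank ℝ (LinearMap.range f) ≤ j := by
    have := Submodule.finrank_le (LinearMap.range f)
    rwa [Module.finrank_fin_fun] at this
  by_contra hcon
  push Not at hcon
  obtain ⟨X₀, hX₀⟩ := hne
  let g : LinearMap.ker f →ₗ[ℝ] Tw :=
    (LinearMap.proj X₀ : (K → Tw) →ₗ[ℝ] Tw) ∘ₗ (Mot G c p S).subtype ∘ₗ (LinearMap.ker f).subtype
  have hinj : Function.Injective g := by
    rw [injective_iff_map_eq_zero]
    rintro ⟨⟨m, hm, hm0⟩, hk⟩ hg
    have hk' : L m = 0 := hk
    have hg' : m X₀ = 0 := hg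
    refine Subtype.ext (Subtype.ext (funext fun X => ?_))
    change m X = 0
    by_cases hX : X ∈ S
    · rw [hcon m hm hk' X hX X₀ hX₀, hg']
    · exact hm0 X hX
  have h3 := LinearMap.finrank_le_finrank_of_injective hinj
  have h4 : Module.finrank ℝ Tw = 6 := by
    rw [Module.finrank_prod, Module.finrank_fin_fun]
  unfold dmo at hd
  omega

end Pool.Agent.MPf1f412
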