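import Pool.Agent.Lib.MP_f1f412_co.SpecN
import Pool.Agent.Lib.MP_f1f412_co.Basic

/-!
# MP_f1f412_co (C34), N7: Hendrickson's theorem
-/

set_option autoImplicit false

namespace Pool.Agent.MPf1f412

open Matrix

namespace nHLAux

theorem dot_ev (n : Tw) (x y : R3) : (x - y) ⬝ᵥ (ev n x - ev n y) = 0 := by
  rw [ev_diff n x y, add_sub_cancel_left]
  exact dot_cr_self' _ _

theorem D_dsq (D : Derivation ℚ ℝ ℝ) (x y : R3) :
    D (dsq x y) = 2 * ((x - y) ⬝ᵥ (D3 D x - D3 D y)) := by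
  unfold dsq
  rw [D_dot, D3_sub, dotProduct_comm (D3 D x - D3 D y) (x - y)]
  ring

theorem dot_of_dsq {x y z z' : R3} (h : dsq x z = dsq y z) (h' : dsq x z' = dsq y z') :
    (x - y) ⬝ᵥ (z' - z) = 0 := by
  simp only [dsq, dot_eq, Pi.sub_apply] at h h' ⊢
  linear_combination (h - h') / 2

end nHLAux

open nHLAux in
theorem nHL (h1 : S_Real) (h2 : S_DerK) (h3 : S_KN) : S_HL := by
  intro V _ p v H a y₁ y₂ hp ha hadj hv hne hmain
  have h01 : a 0 ≠ a 1 := fun h => absurd (ha h) (by decide)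
  have h02 : a 0 ≠ a 2 := fun h => absurd (ha h) (by decide)
  have h03 : a 0 ≠ a 3 := fun h => absurd (ha h) (by decide)
  have h12 : a 1 ≠ a 2 := fun h => absurd (ha h) (by decide)
  have h13 : a 1 ≠ a 3 := fun h => absurd (ha h) (by decide)
  have h23 : a 2 ≠ a 3 := fun h => absurd (ha h) (by decide)
  -- (1)
  obtain ⟨n, hn⟩ := h3 V p v (Set.range a) hp
    ⟨a 0, ⟨0, rfl⟩, a 1, ⟨1, rfl⟩, a 2, ⟨2, rfl⟩, h01, h02, h12⟩ (by
      rintro u ⟨i, rfl⟩ w ⟨j, rfl⟩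
      by_cases hij : i = j
      · rw [hij, sub_self, zero_dotProduct]
      · exact hv _ _ (hadj i j hij))
  obtain ⟨D, hD⟩ := hp (fun u => v u - ev n (p u))
  have hkey : ∀ u w, (p u - p w) ⬝ᵥ (D3 D (p u) - D3 D (p w)) = (p u - p w) ⬝ᵥ (v u - v w) := by
    intro u w
    have h4 := dot_ev n (p u) (p w)
    rw [hD, hD]
    have h5 : v u - ev n (p u) - (v w - ev n (p w)) = (v u - v w) - (ev n (p u) - ev n (p w)) := by
      abel
    rw [h5, dotProduct_sub, h4, sub_zero]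
  -- (2)
  set A : Set ℝ := {x | (∃ i j, x = p (a i) j) ∨ ∃ u w, H.Adj u w ∧ x = dsq (p u) (p w)} with hA
  have hDA : ∀ x ∈ A, D x = 0 := by
    rintro x (⟨i, j, rfl⟩ | ⟨u, w, huw, rfl⟩)
    · have h4 : D3 D (p (a i)) = 0 := by
        rw [hD, hn _ ⟨i, rfl⟩, sub_self]
      exact congrFun h4 j
    · rw [D_dsq, hkey, hv u w huw, mul_zero]
  have hDK := h2.1 D A hDA
  have hT : Transcendental (IntermediateField.adjoin ℚ A) (dsq (p y₁) (p y₂)) := by
    intro hal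
    have h4 := h2.2.1 (IntermediateField.adjoin ℚ A) D (fun y => hDK _ y.2) _ hal
    rw [D_dsq, hkey] at h4
    rcases mul_eq_zero.mp h4 with h5 | h5
    · norm_num at h5
    · exact hne h5
  -- (3)
  have hcoord : ∀ u i, IsAlgebraic (IntermediateField.adjoin (IntermediateField.adjoin ℚ A)
      ({dsq (p y₁) (p y₂)} : Set ℝ)) (p u i) := by
    intro u i
    by_contra hna
    obtain ⟨D', hD'L, hD'⟩ := h2.2.2 (IntermediateField.adjoin (IntermediateField.adjoin ℚ A)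
      ({dsq (p y₁) (p y₂)} : Set ℝ)) _ hna
    have hA' : ∀ x ∈ A, D' x = 0 := by
      intro x hx
      have h4 : x ∈ IntermediateField.adjoin ℚ A := IntermediateField.subset_adjoin ℚ A hx
      exact hD'L (algebraMap (IntermediateField.adjoin ℚ A) _ ⟨x, h4⟩)
    have hT' : D' (dsq (p y₁) (p y₂)) = 0 :=
      hD'L ⟨_, IntermediateField.subset_adjoin _ _ rfl⟩
    obtain ⟨n', hn'⟩ := hmain (fun w => D3 D' (p w)) (by
      intro u w huw
      have h4 := hA' _ (Or.inr ⟨u, w, huw, rfl⟩)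
      rw [D_dsq] at h4
      rcases mul_eq_zero.mp h4 with h5 | h5
      · norm_num at h5
      · exact h5) (by
      rw [D_dsq] at hT'
      rcases mul_eq_zero.mp hT' with h5 | h5
      · norm_num at h5
      · exact h5)
    have h4 : ∀ i, ev n' (p (a i)) = 0 := by
      intro i
      rw [← hn']
      funext j
      exact hA' _ (Or.inl ⟨i, j, rfl⟩)
    have h5 : n' = 0 := t2 (hp.gp3 h01 h02 h12) (h4 0) (h4 1) (h4 2)
    have h6 := hn' u
    rw [h5, ev_zero] at h6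
    exact hD' (congrFun h6 i)
  -- (4)
  obtain ⟨q, hqp, hqy, hqA, hqd⟩ := h1 V p A y₁ y₂ hT hcoord
  have hEqv : Eqv H p q := fun u w huw => hqd u w (Or.inr ⟨u, w, huw, rfl⟩)
  refine ⟨q, hEqv, hqy, ?_⟩
  by_contra hcon
  push Not at hcon
  apply hqp
  funext u
  have hqa : ∀ i, q (a i) = p (a i) := fun i => hqA _ (fun j => Or.inl ⟨i, j, rfl⟩)
  have h4 : ∀ i, dsq (q u) (p (a i)) = dsq (p u) (p (a i)) := by
    intro i
    rw [← hcon u (a i), hqa]
  rw [← sub_eq_zero]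
  exact hp.dot3 h01 h02 h03 h12 h13 h23 (dot_of_dsq (h4 0) (h4 1)) (dot_of_dsq (h4 0) (h4 2))
    (dot_of_dsq (h4 0) (h4 3))

end Pool.Agent.MPf1f412
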