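import Pool.Agent.Lib.MP_f1f412_co.SpecN
import Pool.Agent.Lib.MP_f1f412_co.Basic

/-!
# MP_f1f412_co (C34), N6: complete graphs are rigid (helper50)
-/

set_option autoImplicit false

namespace Pool.Agent.MPf1f412

open Matrix

namespace nKNAux

variable {V : Type} {p : V → R3} {N : Set V}

/-- the bar conditions on `N` -/
def Bar (p v : V → R3) (N : Set V) : Prop :=
  ∀ u ∈ N, ∀ w ∈ N, (p u - p w) ⬝ᵥ (v u - v w) = 0

theorem Bar.sub {v : V → R3} (h : Bar p v N) (n : Tw) : Bar p (fun u => v u - ev n (p u)) N := by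
  intro u hu w hw
  have h1 := h u hu w hw
  have h2 : v u - ev n (p u) - (v w - ev n (p w)) = (v u - v w) - cr n.1 (p u - p w) := by
    rw [ev_diff n (p u) (p w)]
    abel
  show (p u - p w) ⬝ᵥ (v u - ev n (p u) - (v w - ev n (p w))) = 0
  rw [h2, dotProduct_sub, h1, dot_cr_self', sub_zero]

theorem lift {v : V → R3} (n : Tw) (h : ∃ m : Tw, ∀ u ∈ N, v u - ev n (p u) = ev m (p u)) :
    ∃ m : Tw, ∀ u ∈ N, v u = ev m (p u) := by
  obtain ⟨m, hm⟩ := h
  refine ⟨m + n, fun u hu => ?_⟩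
  rw [ev_add, ← hm u hu]
  abel

theorem ev_pt (ω a x : R3) : ev (ω, - cr ω a) x = cr ω (x - a) := by
  rw [cr_sub_right]
  show cr ω x + - cr ω a = _
  abel

theorem kn4 (hp : Gn p) {v : V → R3} (h : Bar p v N) {a b d : V} (ha : a ∈ N) (hb : b ∈ N)
    (hd : d ∈ N) (hab : a ≠ b) (had : a ≠ d) (hbd : b ≠ d) (va : v a = 0) (vb : v b = 0)
    (vd : v d = 0) : ∀ u ∈ N, v u = 0 := by
  intro u hu
  by_cases hua : u = a
  · rw [hua, va]
  by_cases hub : u = b
  · rw [hub, vb]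
  by_cases hud : u = d
  · rw [hud, vd]
  have key : ∀ w ∈ N, v w = 0 → v u ⬝ᵥ (p w - p u) = 0 := by
    intro w hw vw
    have h1 := h w hw u hu
    rw [vw, zero_sub, dotProduct_neg, neg_eq_zero, dotProduct_comm] at h1
    exact h1
  exact hp.dot3 hua hub hud hab had hbd (key a ha va) (key b hb vb) (key d hd vd)

theorem kn3 (hp : Gn p) {v : V → R3} (h : Bar p v N) {a b d : V} (ha : a ∈ N) (hb : b ∈ N)
    (hd : d ∈ N) (hab : a ≠ b) (had : a ≠ d) (hbd : b ≠ d) (va : v a = 0) (vb : v b = 0) :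
    ∃ m : Tw, ∀ u ∈ N, v u = ev m (p u) := by
  have h1 : v d ⬝ᵥ (p d - p a) = 0 := by
    have := h d hd a ha
    rwa [va, sub_zero, dotProduct_comm] at this
  have h2 : v d ⬝ᵥ (p d - p b) = 0 := by
    have := h d hd b hb
    rwa [vb, sub_zero, dotProduct_comm] at this
  have h3 : v d ⬝ᵥ (p b - p a) = 0 := by
    have e : p b - p a = (p d - p a) - (p d - p b) := by abel
    rw [e, dotProduct_sub, h1, h2, sub_zero]
  have h4 : cr (cr (p b - p a) (p d - p a)) (v d) = 0 := by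
    rw [cr_anti, cr_cr, h1, h3, zero_smul, zero_smul, sub_zero, neg_zero]
  obtain ⟨t, ht⟩ := par_of_cr (hp.gp3 hab had hbd) h4
  refine lift (t • (p b - p a), - cr (t • (p b - p a)) (p a)) ⟨0, fun u hu => ?_⟩
  rw [ev_zero]
  refine kn4 hp (h.sub _) ha hb hd hab had hbd ?_ ?_ ?_ u hu
  · show v a - ev _ (p a) = 0
    rw [ev_pt, sub_self, cr_zero_right, va, sub_zero]
  · show v b - ev _ (p b) = 0
    rw [ev_pt, cr_smul_left, cr_self, smul_zero, vb, sub_zero]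
  · show v d - ev _ (p d) = 0
    rw [ev_pt, cr_smul_left, ← ht, sub_self]

theorem kn2 (hp : Gn p) {v : V → R3} (h : Bar p v N) {a b d : V} (ha : a ∈ N) (hb : b ∈ N)
    (hd : d ∈ N) (hab : a ≠ b) (had : a ≠ d) (hbd : b ≠ d) (va : v a = 0) :
    ∃ m : Tw, ∀ u ∈ N, v u = ev m (p u) := by
  set e := p b - p a with he
  have he0 : e ≠ 0 := fun h0 => hp.inj hab (sub_eq_zero.1 h0).symm
  have hee : e ⬝ᵥ e ≠ 0 := fun h0 => he0 (dot_self_eq_zero h0)
  have h1 : e ⬝ᵥ v b = 0 := by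
    have := h b hb a ha
    rwa [va, sub_zero] at this
  set ω : R3 := (e ⬝ᵥ e)⁻¹ • cr e (v b) with hω
  have h2 : cr ω e = v b := by
    rw [hω, cr_smul_left, cr_anti e, cr_cr, h1, zero_smul, zero_sub, neg_neg, smul_smul,
      inv_mul_cancel₀ hee, one_smul]
  refine lift (ω, - cr ω (p a)) (kn3 hp (h.sub _) ha hb hd hab had hbd ?_ ?_)
  · show v a - ev _ (p a) = 0
    rw [ev_pt, sub_self, cr_zero_right, va, sub_zero]
  · show v b - ev _ (p b) = 0
    rw [ev_pt, ← he, h2, sub_self]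

theorem kn1 (hp : Gn p) {v : V → R3} (h : Bar p v N) {a b d : V} (ha : a ∈ N) (hb : b ∈ N)
    (hd : d ∈ N) (hab : a ≠ b) (had : a ≠ d) (hbd : b ≠ d) :
    ∃ m : Tw, ∀ u ∈ N, v u = ev m (p u) := by
  refine lift (0, v a) (kn2 hp (h.sub _) ha hb hd hab had hbd ?_)
  show v a - (cr 0 (p a) + v a) = 0
  rw [cr_zero_left, zero_add, sub_self]

end nKNAux

theorem nKN : S_KN := by
  intro V p v N hp ⟨a, ha, b, hb, d, hd, hab, had, hbd⟩ h
  exact nKNAux.kn1 hp h ha hb hd hab had hbd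

end Pool.Agent.MPf1f412
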