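import Pool.Agent.Lib.MP_f1f412_co.SpecN
import Pool.Agent.Lib.MP_f1f412_co.Basic

/-!
# MP_f1f412_co (C34), N23: the hexagon
-/

set_option autoImplicit false

namespace Pool.Agent.MPf1f412

theorem nN6 (h1 : S_Oct) : S_N6 := by
  intro V G p φ hp hφ hG
  let e : Fin 6 ≃ V := Equiv.ofBijective φ hφ
  have he : ∀ i, e i = φ i := fun i => rfl
  have hgp : Gn (p ∘ φ) := by
    intro v
    obtain ⟨D, hD⟩ := hp (fun u => v (e.symm u))
    refine ⟨D, fun i => ?_⟩
    have := hD (φ i)
    rw [← he i, Equiv.symm_apply_apply] at this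
    exact this
  obtain ⟨q₀, hq, i₀, j₀, hne⟩ := h1 (p ∘ φ) hgp
  refine ⟨fun u => q₀ (e.symm u), ?_, φ i₀, φ j₀, ?_⟩
  · intro u w huw
    obtain ⟨i, rfl⟩ := e.surjective u
    obtain ⟨j, rfl⟩ := e.surjective w
    simp only [Equiv.symm_apply_apply]
    have hij : i ≠ j := fun h => huw.1 (by rw [h])
    have h3 : j ≠ i + 3 := by
      rcases huw.2 with h | ⟨t, ha, hb⟩
      · rw [he, he, hG] at h
        clear huw hij
        revert h
        revert i j
        decide
      · obtain ⟨t, rfl⟩ := e.surjective t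
        rw [he, he, hG] at ha hb
        clear huw hij
        revert ha hb
        revert i j t
        decide
    exact hq i j hij h3
  · have e1 : e.symm (φ i₀) = i₀ := by rw [← he, Equiv.symm_apply_apply]
    have e2 : e.symm (φ j₀) = j₀ := by rw [← he, Equiv.symm_apply_apply]
    simp only [e1, e2]
    exact hne

end Pool.Agent.MPf1f412
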