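import Pool.Agent.Lib.MP_f1f412_co.SpecN
import Pool.Agent.Lib.MP_f1f412_co.Basic

/-!
# MP_f1f412_co (C34), module NNA: a partition with few crossing edges
-/

set_option autoImplicit false

namespace Pool.Agent.MPf1f412

open Matrix

theorem nNA (h1 : S_Low) (h2 : S_Ex7) (h3 : S_BGm) (h4 : S_NStar) : S_NA := by
  classical
  intro V K _ G c p a Y₀ hp hdeg ha hpin hcnt
  have : Fintype V := Fintype.ofFinite V
  set S : Set K := Set.range c with hS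
  have hSf : S.Finite := Set.toFinite _
  have hSne : S.Nonempty := ⟨c (a 0), a 0, rfl⟩
  have hlow := h1 V K K G c p S id hSf hp
  rw [Set.image_id] at hlow
  have hcls : S.ncard = cls c := rfl
  have hcrn : ef G c S id = crn G c := by
    unfold ef crn
    congr 1
    ext z
    constructor
    · rintro ⟨u, w, rfl, hc, hne⟩
      exact ⟨hc.1, u, w, rfl, hne⟩
    · rintro ⟨hz, u, w, rfl, hne⟩
      exact ⟨u, w, rfl, ⟨hz, ⟨u, rfl⟩, ⟨w, rfl⟩, hne⟩, hne⟩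
  rw [hcls, hcrn] at hlow
  obtain ⟨m, hm, -, X, hX, Y, hY, hXY⟩ := h2 V K G c p S 0 0 hSne (by omega)
  have hv : ∀ Y ∈ S, ∀ u, Pin G c Y u → ev (m (c u)) (p u) = ev (m Y) (p u) := by
    rintro Y hY u ⟨x, rfl, rfl | hx⟩
    · rfl
    · exact hm.ev_eq hx.symm ⟨u, rfl⟩ ⟨x, rfl⟩
  obtain ⟨hb1, hb2⟩ := h3 V K G c p (fun u => ev (m (c u)) (p u)) S m hp hdeg subset_rfl hv
    ⟨X, hX, Y, hY, hXY⟩
  have hnr : ¬ BRig (BG G c S) p := by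
    intro hr
    obtain ⟨n, hn⟩ := hr (fun u => ev (m (c u)) (p u)) (fun u w huw => by
      obtain ⟨-, Y, hY, hu, hw⟩ := huw
      exact hb1 Y hY u w hu hw)
    exact hb2 ⟨n, fun u _ => hn u⟩
  have hY₀ : Y₀ ∈ S := by
    obtain ⟨v, hv, -⟩ := hpin 0
    exact ⟨v, hv⟩
  obtain ⟨q, hq1, -, hq2⟩ := h4 V p (BG G c S) a (a 0) (a 0) hp ha
    (fun i j hij => ⟨fun h => hij (ha h), Y₀, hY₀, hpin i, hpin j⟩) hnr
  refine ⟨q, fun u w huw => hq1 u w ?_, hq2⟩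
  obtain ⟨hne, huw | ⟨t, hut, htw⟩⟩ := huw
  · exact ⟨hne, c u, ⟨u, rfl⟩, ⟨u, rfl, Or.inl rfl⟩, ⟨u, rfl, Or.inr huw⟩⟩
  · exact ⟨hne, c t, ⟨t, rfl⟩, ⟨t, rfl, Or.inr hut.symm⟩, ⟨t, rfl, Or.inr htw⟩⟩

end Pool.Agent.MPf1f412
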