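import Pool.Agent.Lib.MP_f1f412_co.SpecN
import Pool.Agent.Lib.MP_f1f412_co.Basic

set_option autoImplicit false

namespace Pool.Agent.MPf1f412

namespace nNBigAux

/-- at most as many edges as vertices -/
theorem edges {V : Type} [Finite V] (G : SimpleGraph V)
    (hd : ∀ v a b d, G.Adj v a → G.Adj v b → G.Adj v d → a = b ∨ a = d ∨ b = d) :
    G.edgeSet.ncard ≤ Nat.card V := by
  classical
  haveI : Fintype V := Fintype.ofFinite V
  have h1 := G.sum_degrees_eq_twice_card_edges
  have h2 : ∑ v, G.degree v ≤ Fintype.card V * 2 := by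
    rw [← smul_eq_mul]
    refine Finset.sum_le_card_nsmul Finset.univ _ 2 (fun v _ => ?_)
    by_contra hlt
    have h3 : 2 < (G.neighborFinset v).card := by
      rw [SimpleGraph.card_neighborFinset_eq_degree]
      omega
    rw [Finset.two_lt_card] at h3
    obtain ⟨a, ha, b, hb, d, hd', hab, had, hbd⟩ := h3
    rw [SimpleGraph.mem_neighborFinset] at ha hb hd'
    rcases hd v a b d ha hb hd' with h | h | h
    · exact hab h
    · exact had h
    · exact hbd h
  have h3 : G.edgeSet.ncard = G.edgeFinset.card := by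
    rw [← SimpleGraph.coe_edgeFinset, Set.ncard_coe_finset]
  rw [h3, Nat.card_eq_fintype_card]
  omega

end nNBigAux

open nNBigAux in
theorem nNBig (h1 : S_NB) : S_NBig := by
  classical
  intro V _ G p hG hT hD hd h7
  haveI : Nonempty V := by
    by_contra h
    rw [not_nonempty_iff] at h
    have := Nat.card_of_isEmpty (α := V)
    omega
  obtain ⟨u⟩ := ‹Nonempty V›
  obtain ⟨w, u', hwu', huw, huu'⟩ := hD u
  obtain ⟨w', hw'u, hww'⟩ : ∃ w', w' ≠ u ∧ G.Adj w w' := by
    obtain ⟨a, b, hab, ha, hb⟩ := hD w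
    by_cases h : a = u
    · exact ⟨b, fun h' => hab (h.trans h'.symm), hb⟩
    · exact ⟨a, h, ha⟩
  have hu'w' : u' ≠ w' := by
    intro h
    rw [h] at huu'
    exact hT u w w' ⟨huw, hww', huu'.symm⟩
  obtain ⟨c, hc⟩ : ∃ c : V → V, ∀ x, c x = if x = w then u else x :=
    ⟨fun x => if x = w then u else x, fun x => rfl⟩
  have hcw : c w = u := by rw [hc, if_pos rfl]
  have hcn : ∀ x, x ≠ w → c x = x := fun x hx => by rw [hc, if_neg hx]
  have hcu : c u = u := hcn u huw.ne
  obtain ⟨v, hv⟩ : ∃ v, v ∉ ({u, w} : Set V) := by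
    by_contra hcon
    push Not at hcon
    have h2 : (Set.univ : Set V) ⊆ {u, w} := fun x _ => hcon x
    have h3 := Set.ncard_le_ncard h2 (Set.toFinite _)
    rw [Set.ncard_univ] at h3
    rw [Set.ncard_pair huw.ne] at h3
    omega
  have hvu : v ≠ u := fun h => hv (Or.inl h)
  have hvw : v ≠ w := fun h => hv (Or.inr h)
  have hcv : c v = v := hcn v hvw
  obtain ⟨y₁, y₂, hy, hvy₁, hvy₂⟩ := hD v
  have hrange : Set.range c = {w}ᶜ := by
    ext x
    constructor
    · rintro ⟨y, rfl⟩ h
      have h' : c y = w := h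
      by_cases hyw : y = w
      · rw [hyw, hcw] at h'
        exact huw.ne h'
      · rw [hcn y hyw] at h'
        exact hyw h'
    · intro hx
      exact ⟨x, hcn x hx⟩
  have hcls : cls c + 1 = Nat.card V := by
    unfold cls
    rw [hrange]
    have := Set.ncard_add_ncard_compl ({w} : Set V)
    rw [Set.ncard_singleton] at this
    omega
  have hcrn : crn G c + 1 ≤ Nat.card V := by
    have h2 : {z | z ∈ G.edgeSet ∧ Crs c z} ⊆ G.edgeSet \ {s(u, w)} := by
      rintro z ⟨hz, x, y, rfl, hxy⟩
      refine ⟨hz, fun h => ?_⟩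
      have h' : s(x, y) = s(u, w) := h
      rw [Sym2.eq_iff] at h'
      rcases h' with ⟨rfl, rfl⟩ | ⟨rfl, rfl⟩
      · exact hxy (hcu.trans hcw.symm)
      · exact hxy (hcw.trans hcu.symm)
    have h3 := Set.ncard_le_ncard h2 (Set.toFinite _)
    have h4 : (G.edgeSet \ {s(u, w)}).ncard + 1 = G.edgeSet.ncard :=
      Set.ncard_sdiff_singleton_add_one ((SimpleGraph.mem_edgeSet G).2 huw) (Set.toFinite _)
    have h5 := edges G hd
    unfold crn
    omega
  refine h1 V V G c p ![u', u, w, w'] u v y₁ y₂ hG hD ?_ ?_ ?_ ?_ ?_ ?_ ?_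
  · intro i j hij
    fin_cases i <;> fin_cases j <;> simp at hij <;> first
      | rfl
      | exact absurd hij huu'.ne'
      | exact absurd hij huu'.ne
      | exact absurd hij hwu'.symm
      | exact absurd hij hwu'
      | exact absurd hij hu'w'
      | exact absurd hij hu'w'.symm
      | exact absurd hij huw.ne
      | exact absurd hij huw.ne'
      | exact absurd hij hw'u
      | exact absurd hij hw'u.symm
      | exact absurd hij hww'.ne
      | exact absurd hij hww'.ne'
  · intro i
    fin_cases i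
    · exact ⟨u, hcu, Or.inr huu'⟩
    · exact ⟨u, hcu, Or.inl rfl⟩
    · exact ⟨w, hcw, Or.inl rfl⟩
    · exact ⟨w, hcw, Or.inr hww'⟩
  · rw [hcv]
    exact hvu.symm
  · intro x hx
    rw [hcv] at hx
    by_cases hxw : x = w
    · rw [hxw, hcw] at hx
      exact absurd hx.symm hvu
    · rw [hcn x hxw] at hx
      exact hx
  · intro x
    constructor
    · intro hx
      rcases hd v x y₁ y₂ hx hvy₁ hvy₂ with h | h | h
      · exact Or.inl h
      · exact Or.inr h
      · exact absurd h hy
    · rintro (h | h)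
      · rw [h]
        exact hvy₁
      · rw [h]
        exact hvy₂
  · intro h
    by_cases h2 : y₁ = w
    · by_cases h3 : y₂ = w
      · exact hy (h2.trans h3.symm)
      · rw [h2, hcw, hcn y₂ h3] at h
        rw [h2] at hvy₁
        rw [← h] at hvy₂
        exact hT v u w ⟨hvy₂, huw, hvy₁.symm⟩
    · by_cases h3 : y₂ = w
      · rw [h3, hcw, hcn y₁ h2] at h
        rw [h3] at hvy₂
        rw [h] at hvy₁
        exact hT v u w ⟨hvy₁, huw, hvy₂.symm⟩
      · rw [hcn y₁ h2, hcn y₂ h3] at h
        exact hy h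
  · omega

end Pool.Agent.MPf1f412
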