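import Pool.Agent.Lib.MP_f1f412_co.SpecN
import Pool.Agent.Lib.MP_f1f412_co.Basic

/-!
# MP_f1f412_co (C34), N14: a class with two disjoint crossing edges, the motion
-/

set_option autoImplicit false

namespace Pool.Agent.MPf1f412

open Matrix

namespace nNC1Aux

variable {V K : Type}

/-- the three linear conditions -/
noncomputable def L (c : V → K) (p : V → R3) (x₁ y₁ x₂ y₂ : V) : (K → Tw) →ₗ[ℝ] (Fin 3 → ℝ) where
  toFun m := ![(p x₁ - p x₂) ⬝ᵥ (ev (m (c y₁)) (p x₁) - ev (m (c y₂)) (p x₂)),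
    (p x₁ - p y₂) ⬝ᵥ (ev (m (c y₁)) (p x₁) - ev (m (c y₂)) (p y₂)),
    (p x₂ - p y₁) ⬝ᵥ (ev (m (c y₂)) (p x₂) - ev (m (c y₁)) (p y₁))]
  map_add' m n := by
    funext i
    fin_cases i <;> simp [ev_add, dot_eq] <;> ring
  map_smul' a m := by
    funext i
    fin_cases i <;> simp [ev_smul, dot_eq] <;> ring

end nNC1Aux

open nNC1Aux in
theorem nNC1 (h1 : S_NCt) (h2 : S_Ex7) (h3 : S_BGm) : S_NC1 := by
  classical
  intro V K _ G c p X x₁ y₁ x₂ y₂ hp hd hX hx12 ht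
  have hdim := h1 V K G c p X x₁ y₁ x₂ y₂ hp hX ht
  set S : Set K := Set.range c \ {X} with hS
  have hy₁S : c y₁ ∈ S := ⟨⟨y₁, rfl⟩, hX.cy₁⟩
  obtain ⟨m, hm, hL, hne⟩ := h2 V K G c p S 3 (L c p x₁ y₁ x₂ y₂) ⟨c y₁, hy₁S⟩ hdim
  let w : V → R3 := fun u => if u = x₁ then ev (m (c y₁)) (p x₁) else
    if u = x₂ then ev (m (c y₂)) (p x₂) else ev (m (c u)) (p u)
  have hwx₁ : w x₁ = ev (m (c y₁)) (p x₁) := if_pos rfl
  have hwx₂ : w x₂ = ev (m (c y₂)) (p x₂) := by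
    change (if x₂ = x₁ then _ else _) = _
    rw [if_neg (Ne.symm hx12), if_pos rfl]
  have hw : ∀ u, c u ≠ X → w u = ev (m (c u)) (p u) := by
    intro u hu
    change (if u = x₁ then _ else _) = _
    have hu1 : u ≠ x₁ := by
      rintro rfl
      exact hu hX.cx₁
    have hu2 : u ≠ x₂ := by
      rintro rfl
      exact hu hX.cx₂
    rw [if_neg hu1, if_neg hu2]
  have key : ∀ Y ∈ S, ∀ u, Pin G c Y u → w u = ev (m Y) (p u) := by
    rintro Y hY u ⟨x, rfl, hux⟩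
    have hYX : c x ≠ X := fun h => hY.2 h
    by_cases hcu : c u = X
    · have hadj : G.Adj x u := by
        rcases hux with rfl | h
        · exact absurd hcu hYX
        · exact h
      rcases hX.all u x hadj.symm hcu hYX with ⟨rfl, rfl⟩ | ⟨rfl, rfl⟩
      · exact hwx₁
      · exact hwx₂
    · rw [hw u hcu]
      rcases hux with rfl | h
      · rfl
      · exact hm.ev_eq h.symm ⟨⟨u, rfl⟩, hcu⟩ hY
  obtain ⟨hA, hB⟩ := h3 V K G c p w S m hp hd Set.sdiff_subset key hne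
  refine ⟨w, hA, ?_, ?_, ?_, hB⟩
  · have := congrFun hL 0
    rw [hwx₁, hwx₂]
    exact this
  · have := congrFun hL 1
    rw [hwx₁, hw y₂ hX.cy₂]
    exact this
  · have := congrFun hL 2
    rw [hwx₂, hw y₁ hX.cy₁]
    exact this

end Pool.Agent.MPf1f412
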