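import Pool.Agent.Lib.MP_f1f412_co.SpecN
import Pool.Agent.Lib.MP_f1f412_co.Basic

/-!
# MP_f1f412_co (C34), N15: a tight partition and a class with two disjoint crossing edges
-/

set_option autoImplicit false

namespace Pool.Agent.MPf1f412

open Matrix

namespace nNC2Aux

theorem dsq_comm (x y : R3) : dsq x y = dsq y x := by
  simp only [dsq, dot_eq, Pi.sub_apply]
  ring

theorem dsq_self (x : R3) : dsq x x = 0 := by
  simp only [dsq, dot_eq, Pi.sub_apply]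
  ring

/-- isometries preserve the squared distances -/
theorem dsq_ap (g : Iso3) (x y : R3) : dsq (g.ap x) (g.ap y) = dsq x y := by
  unfold dsq Iso3.ap
  have h1 : g.A *ᵥ x + g.b - (g.A *ᵥ y + g.b) = g.A *ᵥ (x - y) := by
    rw [Matrix.mulVec_sub]
    abel
  rw [h1, Matrix.dotProduct_mulVec, ← Matrix.mulVec_transpose, Matrix.mulVec_mulVec, g.orth,
    Matrix.one_mulVec]

theorem Gn_sub {V : Type} {p : V → R3} (hp : Gn p) (W : Set V) : Gn (fun u : W => p u) := by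
  classical
  intro v
  obtain ⟨D, hD⟩ := hp (fun u => if h : u ∈ W then v ⟨u, h⟩ else 0)
  refine ⟨D, fun u => ?_⟩
  rw [hD]
  exact dif_pos u.2

end nNC2Aux

open nNC2Aux in
theorem nNC2 (h1 : S_NC1) (h2 : S_NStar) (h3 : S_Ext) : S_NC2 := by
  classical
  intro V K _ G c p a Y₀ X x₁ y₁ x₂ y₂ hp hdeg ha hpin hY₀ hT hx12 hti
  obtain ⟨w, hw, hw1, hw2, hw3, hntw⟩ := h1 V K G c p X x₁ y₁ x₂ y₂ hp hdeg hT hx12 hti
  set S : Set K := Set.range c \ {X} with hS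
  have hmemS : ∀ u, c u ≠ X → c u ∈ S := fun u hu => ⟨⟨u, rfl⟩, hu⟩
  set W : Set V := {u | ∃ Y ∈ S, Pin G c Y u} with hW
  have hWc : ∀ u, c u ≠ X → u ∈ W := fun u hu => ⟨c u, hmemS u hu, u, rfl, Or.inl rfl⟩
  have hWX : ∀ u ∈ W, c u = X → u = x₁ ∨ u = x₂ := by
    rintro u ⟨Y, hY, x, rfl, hx⟩ hu
    have hcx : c x ≠ X := hY.2
    rcases hx with hx | hx
    · exact absurd (by rw [← hx]; exact hu) hcx
    · exact (hT.all u x hx.symm hu hcx).imp And.left And.left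
  have hy₁ : y₁ ∈ W := hWc y₁ hT.cy₁
  have hy₂ : y₂ ∈ W := hWc y₂ hT.cy₂
  have hpx₁ : Pin G c (c y₁) x₁ := ⟨y₁, rfl, Or.inr hT.adj₁.symm⟩
  have hpx₂ : Pin G c (c y₂) x₂ := ⟨y₂, rfl, Or.inr hT.adj₂.symm⟩
  have hpy₁ : Pin G c (c y₁) y₁ := ⟨y₁, rfl, Or.inl rfl⟩
  have hpy₂ : Pin G c (c y₂) y₂ := ⟨y₂, rfl, Or.inl rfl⟩
  have hx₁ : x₁ ∈ W := ⟨c y₁, hmemS _ hT.cy₁, hpx₁⟩
  have hx₂ : x₂ ∈ W := ⟨c y₂, hmemS _ hT.cy₂, hpx₂⟩
  have hne12 : x₁ ≠ y₂ := fun h => hT.cy₂ (by rw [← h]; exact hT.cx₁)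
  have hne21 : x₂ ≠ y₁ := fun h => hT.cy₁ (by rw [← h]; exact hT.cx₂)
  -- the graph
  set H₀ : SimpleGraph V := BG G c S ⊔
    SimpleGraph.fromEdgeSet {s(x₁, x₂), s(x₁, y₂), s(x₂, y₁)} with hH₀
  have hBG : ∀ Y ∈ S, ∀ u z, u ≠ z → Pin G c Y u → Pin G c Y z → H₀.Adj u z :=
    fun Y hY u z huz hu hz => Or.inl ⟨huz, Y, hY, hu, hz⟩
  have hmot : ∀ u z, H₀.Adj u z → (p u - p z) ⬝ᵥ (w u - w z) = 0 := by
    have hsym : ∀ u z, (p u - p z) ⬝ᵥ (w u - w z) = 0 → (p z - p u) ⬝ᵥ (w z - w u) = 0 := by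
      intro u z h
      rw [← neg_sub (p u), ← neg_sub (w u), neg_dotProduct_neg]
      exact h
    rintro u z (⟨-, Y, hY, hu, hz⟩ | h)
    · exact hw Y hY u z hu hz
    · rw [SimpleGraph.fromEdgeSet_adj] at h
      obtain ⟨h | h | h, -⟩ := h
      · rcases Sym2.eq_iff.mp h with ⟨rfl, rfl⟩ | ⟨rfl, rfl⟩
        · exact hw1
        · exact hsym _ _ hw1
      · rcases Sym2.eq_iff.mp h with ⟨rfl, rfl⟩ | ⟨rfl, rfl⟩
        · exact hw2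
        · exact hsym _ _ hw2
      · rcases Sym2.eq_iff.mp h with ⟨rfl, rfl⟩ | ⟨rfl, rfl⟩
        · exact hw3
        · exact hsym _ _ hw3
  have hnr : ¬ BRig (H₀.comap (Subtype.val : W → V)) (fun u : W => p u) := by
    intro hr
    obtain ⟨n, hn⟩ := hr (fun u => w u) (fun u z huz => hmot _ _ huz)
    exact hntw ⟨n, fun u hu => hn ⟨u, hu⟩⟩
  have hY₀S : Y₀ ∈ S := by
    obtain ⟨x, hx, -⟩ := hpin 0
    exact ⟨⟨x, hx⟩, hY₀⟩
  obtain ⟨q', hq', hqy', ⟨u₀, z₀, hne⟩⟩ := h2 W (fun u : W => p u)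
    (H₀.comap (Subtype.val : W → V)) (fun i => ⟨a i, Y₀, hY₀S, hpin i⟩) ⟨y₁, hy₁⟩ ⟨y₂, hy₂⟩
    (Gn_sub hp W) (fun i j hij => ha (congrArg Subtype.val hij))
    (fun i j hij => hBG Y₀ hY₀S _ _ (fun h => hij (ha h)) (hpin i) (hpin j)) hnr
  obtain ⟨q₀, hq₀⟩ : ∃ q₀ : V → R3, ∀ u : W, q₀ u = q' u :=
    ⟨fun u => if h : u ∈ W then q' ⟨u, h⟩ else 0, fun u => dif_pos u.2⟩
  have hqa : ∀ u ∈ W, ∀ z ∈ W, H₀.Adj u z → dsq (q₀ u) (q₀ z) = dsq (p u) (p z) := by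
    intro u hu z hz huz
    rw [hq₀ ⟨u, hu⟩, hq₀ ⟨z, hz⟩]
    exact hq' ⟨u, hu⟩ ⟨z, hz⟩ huz
  have hqy : dsq (q₀ y₁) (q₀ y₂) = dsq (p y₁) (p y₂) := by
    rw [hq₀ ⟨y₁, hy₁⟩, hq₀ ⟨y₂, hy₂⟩]
    exact hqy'
  have hqne : dsq (q₀ u₀) (q₀ z₀) ≠ dsq (p u₀) (p z₀) := by
    rw [hq₀, hq₀]
    exact hne
  -- the isometry
  have a12 : dsq (q₀ x₁) (q₀ x₂) = dsq (p x₁) (p x₂) :=
    hqa _ hx₁ _ hx₂ (Or.inr (by
      rw [SimpleGraph.fromEdgeSet_adj]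
      exact ⟨Or.inl rfl, hx12⟩))
  have a1y2 : dsq (q₀ x₁) (q₀ y₂) = dsq (p x₁) (p y₂) :=
    hqa _ hx₁ _ hy₂ (Or.inr (by
      rw [SimpleGraph.fromEdgeSet_adj]
      exact ⟨Or.inr (Or.inl rfl), hne12⟩))
  have a2y1 : dsq (q₀ x₂) (q₀ y₁) = dsq (p x₂) (p y₁) :=
    hqa _ hx₂ _ hy₁ (Or.inr (by
      rw [SimpleGraph.fromEdgeSet_adj]
      exact ⟨Or.inr (Or.inr rfl), hne21⟩))
  have a1y1 : dsq (q₀ x₁) (q₀ y₁) = dsq (p x₁) (p y₁) :=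
    hqa _ hx₁ _ hy₁ (hBG _ (hmemS _ hT.cy₁) _ _ hT.adj₁.ne hpx₁ hpy₁)
  have a2y2 : dsq (q₀ x₂) (q₀ y₂) = dsq (p x₂) (p y₂) :=
    hqa _ hx₂ _ hy₂ (hBG _ (hmemS _ hT.cy₂) _ _ hT.adj₂.ne hpx₂ hpy₂)
  have sym : ∀ u z, dsq (q₀ u) (q₀ z) = dsq (p u) (p z) → dsq (q₀ z) (q₀ u) = dsq (p z) (p u) :=
    fun u z h => by rw [dsq_comm, h, dsq_comm]
  have rf : ∀ u, dsq (q₀ u) (q₀ u) = dsq (p u) (p u) := fun u => by rw [dsq_self, dsq_self]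
  obtain ⟨g, hg⟩ := h3 V {x₁, x₂, y₁, y₂} p q₀ (by
    rintro u (rfl | rfl | rfl | rfl) z (rfl | rfl | rfl | rfl)
    · exact rf _
    · exact a12
    · exact a1y1
    · exact a1y2
    · exact sym _ _ a12
    · exact rf _
    · exact a2y1
    · exact a2y2
    · exact sym _ _ a1y1
    · exact sym _ _ a2y1
    · exact rf _
    · exact hqy
    · exact sym _ _ a1y2
    · exact sym _ _ a2y2
    · exact sym _ _ hqy
    · exact rf _)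
  -- the realization
  set q : V → R3 := fun u => if c u = X then g.ap (p u) else q₀ u with hq
  have hqX : ∀ u, c u = X → q u = g.ap (p u) := fun u hu => if_pos hu
  have hqn : ∀ u, c u ≠ X → q u = q₀ u := fun u hu => if_neg hu
  have hqW : ∀ u ∈ W, q u = q₀ u := by
    intro u hu
    by_cases hcu : c u = X
    · rw [hqX u hcu]
      rcases hWX u hu hcu with rfl | rfl
      · exact (hg _ (Or.inl rfl)).symm
      · exact (hg _ (Or.inr (Or.inl rfl))).symm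
    · exact hqn u hcu
  have hqP : ∀ u, Pin G c X u → q u = g.ap (p u) := by
    rintro u ⟨x, hx, hux⟩
    by_cases hcu : c u = X
    · exact hqX u hcu
    · rcases hux with hux | hux
      · exact absurd (by rw [hux]; exact hx) hcu
      · rw [hqn u hcu]
        rcases hT.all x u hux hx hcu with ⟨-, rfl⟩ | ⟨-, rfl⟩
        · exact hg _ (Or.inr (Or.inr (Or.inl rfl)))
        · exact hg _ (Or.inr (Or.inr (Or.inr rfl)))
  have hmain : ∀ t u z, u ≠ z → Pin G c (c t) u → Pin G c (c t) z →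
      dsq (q u) (q z) = dsq (p u) (p z) := by
    intro t u z huz hu hz
    by_cases ht : c t = X
    · rw [ht] at hu hz
      rw [hqP u hu, hqP z hz, dsq_ap]
    · have hu' : u ∈ W := ⟨c t, hmemS t ht, hu⟩
      have hz' : z ∈ W := ⟨c t, hmemS t ht, hz⟩
      rw [hqW u hu', hqW z hz']
      exact hqa u hu' z hz' (hBG _ (hmemS t ht) u z huz hu hz)
  refine ⟨q, ?_, u₀, z₀, ?_⟩
  · rintro u z ⟨huz, huz' | ⟨t, hut, htz⟩⟩
    · exact hmain u u z huz ⟨u, rfl, Or.inl rfl⟩ ⟨u, rfl, Or.inr huz'⟩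
    · exact hmain t u z huz ⟨t, rfl, Or.inr hut.symm⟩ ⟨t, rfl, Or.inr htz⟩
  · rw [hqW _ u₀.2, hqW _ z₀.2]
    exact hqne

end Pool.Agent.MPf1f412
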