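import Pool.Agent.Lib.MP_f1f412_co.SpecN
import Pool.Agent.Lib.MP_f1f412_co.Basic

/-!
# MP_f1f412_co (C34), N12: the dimension without a class
-/

set_option autoImplicit false

namespace Pool.Agent.MPf1f412

open Matrix

theorem nNCt (h1 : S_Low) : S_NCt := by
  classical
  intro V K _ G c p X x₁ y₁ x₂ y₂ hp hX ht
  haveI : Fintype V := Fintype.ofFinite V
  have hfin : (Set.range c \ {X}).Finite := (Set.finite_range c).subset Set.sdiff_subset
  have h2 := h1 V K K G c p (Set.range c \ {X}) id hfin hp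
  rw [Set.image_id] at h2
  have h3 : (Set.range c \ {X}).ncard + 1 = cls c :=
    Set.ncard_sdiff_singleton_add_one ⟨x₁, hX.cx₁⟩ (Set.finite_range c)
  have h4 : ef G c (Set.range c \ {X}) id + 2 ≤ crn G c := by
    unfold ef crn
    set E : Set (Sym2 V) := {z : Sym2 V | ∃ u w, z = s(u, w) ∧
      Cre G c (Set.range c \ {X}) u w ∧ (id (c u) : K) ≠ id (c w)} with hE
    have ha : s(x₂, y₂) ∉ E := by
      rintro ⟨u, w, he, ⟨-, hu, hw, -⟩, -⟩
      rcases Sym2.eq_iff.1 he with ⟨rfl, -⟩ | ⟨rfl, -⟩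
      · exact hu.2 hX.cx₂
      · exact hw.2 hX.cx₂
    have hb : s(x₁, y₁) ∉ insert s(x₂, y₂) E := by
      rintro (he | ⟨u, w, he, ⟨-, hu, hw, -⟩, -⟩)
      · rcases Sym2.eq_iff.1 he with ⟨-, h⟩ | ⟨h, -⟩
        · exact hX.cyy (congrArg c h)
        · exact hX.cy₂ ((congrArg c h).symm.trans hX.cx₁)
      · rcases Sym2.eq_iff.1 he with ⟨rfl, -⟩ | ⟨rfl, -⟩
        · exact hu.2 hX.cx₁
        · exact hw.2 hX.cx₁
    have hc : insert s(x₁, y₁) (insert s(x₂, y₂) E) ⊆ {z | z ∈ G.edgeSet ∧ Crs c z} := by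
      rintro z (rfl | rfl | ⟨u, w, rfl, ⟨huw, -, -, hne⟩, -⟩)
      · exact ⟨hX.adj₁, x₁, y₁, rfl, fun h => hX.cy₁ (h.symm.trans hX.cx₁)⟩
      · exact ⟨hX.adj₂, x₂, y₂, rfl, fun h => hX.cy₂ (h.symm.trans hX.cx₂)⟩
      · exact ⟨huw, u, w, rfl, hne⟩
    have hd := Set.ncard_le_ncard hc (Set.toFinite _)
    rw [Set.ncard_insert_of_notMem hb (Set.toFinite _),
      Set.ncard_insert_of_notMem ha (Set.toFinite _)] at hd
    omega
  omega

end Pool.Agent.MPf1f412
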