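import Pool.Agent.Lib.MP_f1f412_co.SpecN
import Pool.Agent.Lib.MP_f1f412_co.Basic

/-!
# MP_f1f412_co (C34), necessity, NCut: a class attached at one vertex
-/

set_option autoImplicit false

namespace Pool.Agent.MPf1f412

theorem nNCut : S_NCut := by
  intro V K _ G c v y₁ y₂ hcon hout ⟨z, hz, hz1, hz2⟩ u hu
  by_contra huv
  let B : Set V := {w | w = v ∨ ((w = y₁ ∨ w = y₂) ∧ c w ≠ c v)}
  have hB : B ⊆ {v, y₁, y₂} := by
    rintro w (rfl | ⟨rfl | rfl, _⟩) <;> simp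
  have hcard : B.ncard < 4 := by
    have h1 := Set.ncard_le_ncard hB (Set.toFinite _)
    have h2 : ({v, y₁, y₂} : Set V).ncard ≤ 3 := by
      refine (Set.ncard_insert_le _ _).trans ?_
      have h3 := Set.ncard_insert_le y₁ ({y₂} : Set V)
      rw [Set.ncard_singleton] at h3
      omega
    omega
  have hc := hcon B (Set.toFinite _) hcard
  have huB : u ∈ Bᶜ := by
    rintro (h | ⟨_, h⟩)
    · exact huv h
    · exact h hu
  have hzB : z ∈ Bᶜ := by
    rintro (h | ⟨h | h, _⟩)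
    · exact hz (by rw [h])
    · exact hz1 h
    · exact hz2 h
  obtain ⟨W⟩ := hc.preconnected ⟨u, huB⟩ ⟨z, hzB⟩
  obtain ⟨d, _, hd1, hd2⟩ := W.exists_boundary_dart {x | c x.1 = c v} hu hz
  have hadj : (square G).Adj d.fst.1 d.snd.1 := d.adj
  have hd1' : c d.fst.1 = c v := hd1
  have hd2' : c d.snd.1 ≠ c v := hd2
  have ha : d.fst.1 ∉ B := d.fst.2
  have hb : d.snd.1 ∉ B := d.snd.2
  rcases hadj.2 with h | ⟨t, h1, h2⟩
  · exact ha (Or.inl (hout _ _ h hd1' hd2').1)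
  · by_cases ht : c t = c v
    · exact hb (Or.inr ⟨(hout _ _ h2 ht hd2').2, hd2'⟩)
    · exact ha (Or.inl (hout _ _ h1 hd1' ht).1)

end Pool.Agent.MPf1f412
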