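import Pool.Agent.Lib.MP_f1f412_co.SpecN

/-!
# MP_f1f412_co (C34), N16: a class of degree two (helper50)
-/

set_option autoImplicit false

namespace Pool.Agent.MPf1f412

namespace nNDegAux

variable {V K : Type}

theorem two_le [Finite V] {G : SimpleGraph V} {c : V → K}
    (hsp : ∀ (J : Type) (h : V → J), 6 * cls h ≤ 5 * crn G h + 6) (h2 : 2 ≤ cls c) {X : K}
    (hX : X ∈ Set.range c) : 2 ≤ dK G c {X} := by
  classical
  set h : V → Prop := fun v => c v = X with hh
  obtain ⟨v, hv⟩ := hX
  have hw : ∃ w, c w ≠ X := by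
    by_contra hcon
    push Not at hcon
    have h3 : Set.range c ⊆ {X} := by
      rintro _ ⟨w, rfl⟩
      exact hcon w
    have h4 := Set.ncard_le_ncard h3 (Set.toFinite _)
    rw [Set.ncard_singleton] at h4
    unfold cls at h2
    omega
  obtain ⟨w, hw⟩ := hw
  have hcls : 2 ≤ cls h := by
    have h3 : ({True, False} : Set Prop) ⊆ Set.range h := by
      rintro q (rfl | rfl)
      · exact ⟨v, eq_true hv⟩
      · exact ⟨w, eq_false hw⟩
    have h4 := Set.ncard_le_ncard h3 (Set.toFinite _)
    rwa [Set.ncard_pair (by simp)] at h4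
  have hcrn : crn G h ≤ dK G c {X} := by
    have h3 : {z | z ∈ G.edgeSet ∧ Crs h z} ⊆ (fun e : V × V => s(e.1, e.2)) ''
        {e : V × V | G.Adj e.1 e.2 ∧ c e.1 ∈ ({X} : Set K) ∧ c e.2 ∉ ({X} : Set K)} := by
      rintro z ⟨hz, a, b, rfl, hab⟩
      have hadj : G.Adj a b := hz
      by_cases ha : c a = X
      · by_cases hb : c b = X
        · exfalso
          apply hab
          show (c a = X) = (c b = X)
          rw [eq_true ha, eq_true hb]
        · exact ⟨(a, b), ⟨hadj, ha, hb⟩, rfl⟩
      · by_cases hb : c b = X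
        · exact ⟨(b, a), ⟨hadj.symm, hb, ha⟩, Sym2.eq_swap⟩
        · exfalso
          apply hab
          show (c a = X) = (c b = X)
          rw [eq_false ha, eq_false hb]
    exact (Set.ncard_le_ncard h3 (Set.toFinite _)).trans (Set.ncard_image_le (Set.toFinite _))
  have h5 := hsp Prop h
  omega

theorem sum_eq [Finite V] [Fintype K] (h1 : S_Parts) (G : SimpleGraph V) (c : V → K) :
    ∑ j : K, dK G c {j} = 2 * crn G c := by
  have h2 := h1 V K K G c Set.univ id Finset.univ (by simp)
  have h3 : dK G c Set.univ = 0 := by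
    unfold dK
    rw [Set.ncard_eq_zero (Set.toFinite _)]
    ext e
    simp
  have h4 : ef G c Set.univ id = crn G c := by
    unfold ef crn
    refine congrArg Set.ncard (Set.ext fun z => ?_)
    constructor
    · rintro ⟨u, w, rfl, ⟨h5, _⟩, h6⟩
      exact ⟨h5, u, w, rfl, h6⟩
    · rintro ⟨h5, u, w, rfl, h6⟩
      exact ⟨u, w, rfl, ⟨h5, trivial, trivial, h6⟩, h6⟩
  rw [h3, h4, add_zero] at h2
  rw [← h2]
  refine Finset.sum_congr rfl fun j _ => ?_
  refine congrArg (dK G c) (Set.ext fun Y => ?_)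
  constructor
  · intro hY
    exact ⟨trivial, hY⟩
  · intro hY
    exact hY.2

end nNDegAux

theorem nNDeg (h1 : S_Parts) : S_NDeg := by
  classical
  intro V K _ _ G c hsp h2 htight Y₀
  have h3 := hsp K c
  refine ⟨by omega, ?_⟩
  by_contra hcon
  push Not at hcon
  letI : Fintype K := Fintype.ofFinite K
  have hsum := nNDegAux.sum_eq h1 G c
  set R : Finset K := Finset.univ.filter (fun X => X ∈ Set.range c) with hR
  have hRc : R.card = cls c := by
    unfold cls
    rw [← Set.ncard_coe_finset]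
    refine congrArg Set.ncard (Set.ext fun X => ?_)
    rw [hR]
    simp
  have hle : ∑ j ∈ R, dK G c {j} ≤ ∑ j : K, dK G c {j} :=
    Finset.sum_le_sum_of_subset (Finset.subset_univ R)
  have hthree : ∑ j ∈ R, 3 ≤ ∑ j ∈ R, (dK G c {j} + if j = Y₀ then 1 else 0) := by
    refine Finset.sum_le_sum fun j hj => ?_
    have hj' : j ∈ Set.range c := (Finset.mem_filter.1 hj).2
    have h4 := nNDegAux.two_le hsp h2 hj'
    by_cases hjY : j = Y₀
    · rw [if_pos hjY]
      omega
    · have h5 := hcon j hj' hjY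
      rw [if_neg hjY]
      omega
  rw [Finset.sum_const, smul_eq_mul, Finset.sum_add_distrib, hRc] at hthree
  have hite : ∑ j ∈ R, (if j = Y₀ then 1 else 0) ≤ 1 := by
    rw [Finset.sum_ite_eq' R Y₀ (fun _ => 1)]
    split_ifs <;> omega
  omega

end Pool.Agent.MPf1f412
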