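import Pool.Agent.Lib.MP_f1f412_co.SpecN
import Pool.Agent.Lib.MP_f1f412_co.Basic

set_option autoImplicit false

namespace Pool.Agent.MPf1f412

theorem nNLe (h1 : S_Parts) : S_NLe := by
  classical
  intro V K _ _ G c hd
  haveI : Fintype K := Fintype.ofFinite K
  obtain ⟨F, hF⟩ : ∃ F : Finset K, (F : Set K) = Set.range c :=
    ⟨(Set.range c).toFinset, Set.coe_toFinset _⟩
  have h2 := h1 V K K G c (Set.range c) id F (by rw [hF, Set.image_id])
  have h3 : dK G c (Set.range c) = 0 := by
    unfold dK
    rw [Set.ncard_eq_zero (Set.toFinite _)]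
    ext e
    constructor
    · rintro ⟨-, -, h⟩
      exact absurd ⟨e.2, rfl⟩ h
    · intro h
      exact absurd h (Set.notMem_empty e)
  have h4 : 2 * F.card ≤ ∑ j ∈ F, dK G c {Y | Y ∈ Set.range c ∧ id Y = j} := by
    rw [mul_comm, ← smul_eq_mul]
    refine Finset.card_nsmul_le_sum F _ 2 (fun j hj => ?_)
    have hj' : j ∈ Set.range c := by
      rw [← hF]
      exact hj
    have h5 : {Y | Y ∈ Set.range c ∧ id Y = j} = {j} := by
      ext Y
      constructor
      · rintro ⟨-, h⟩
        exact h
      · intro h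
        have h' : Y = j := h
        exact ⟨h' ▸ hj', h'⟩
    rw [h5]
    exact hd j hj'
  have h5 : F.card = cls c := by
    unfold cls
    rw [← hF, Set.ncard_coe_finset]
  have h6 : ef G c (Set.range c) id ≤ crn G c := by
    unfold ef crn
    refine Set.ncard_le_ncard ?_ (Set.toFinite _)
    rintro _ ⟨u, w, rfl, hc, hne⟩
    exact ⟨hc.1, u, w, rfl, hne⟩
  omega

end Pool.Agent.MPf1f412
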