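import Pool.Agent.Lib.MP_f1f412_co.SpecN

/-!
# MP_f1f412_co (C34), N17: merging two classes (helper50)
-/

set_option autoImplicit false

namespace Pool.Agent.MPf1f412

theorem nNPair : S_NPair := by
  classical
  intro V K _ G c X hsp htight hd
  obtain ⟨e₁, e₂, hne, hset⟩ := Set.ncard_eq_two.1 hd
  obtain ⟨x₁, y₁⟩ := e₁
  obtain ⟨x₂, y₂⟩ := e₂
  have m1 : G.Adj x₁ y₁ ∧ c x₁ ∈ ({X} : Set K) ∧ c y₁ ∉ ({X} : Set K) := by
    have : (x₁, y₁) ∈ {e : V × V | G.Adj e.1 e.2 ∧ c e.1 ∈ ({X} : Set K) ∧ c e.2 ∉ ({X} : Set K)} := by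
      rw [hset]; exact Or.inl rfl
    exact this
  have m2 : G.Adj x₂ y₂ ∧ c x₂ ∈ ({X} : Set K) ∧ c y₂ ∉ ({X} : Set K) := by
    have : (x₂, y₂) ∈ {e : V × V | G.Adj e.1 e.2 ∧ c e.1 ∈ ({X} : Set K) ∧ c e.2 ∉ ({X} : Set K)} := by
      rw [hset]; exact Or.inr rfl
    exact this
  simp only [Set.mem_singleton_iff] at m1 m2
  obtain ⟨a1, cx1, cy1⟩ := m1
  obtain ⟨a2, cx2, cy2⟩ := m2
  refine ⟨x₁, y₁, x₂, y₂, ⟨cx1, cx2, cy1, cy2, ?_, a1, a2, ?_⟩⟩
  · intro hyy
    set h : V → K := fun v => if c v = X then c y₁ else c v with hh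
    have hx1 : h x₁ = c y₁ := if_pos cx1
    have hx2 : h x₂ = c y₁ := if_pos cx2
    have hy1 : h y₁ = c y₁ := if_neg cy1
    have hy2 : h y₂ = c y₁ := by
      show (if c y₂ = X then c y₁ else c y₂) = c y₁
      rw [if_neg cy2, hyy]
    have hcls : cls c ≤ cls h + 1 := by
      have h1 : Set.range c \ {X} ⊆ Set.range h := by
        rintro _ ⟨⟨v, rfl⟩, hv⟩
        exact ⟨v, if_neg hv⟩
      have h2 := Set.ncard_le_ncard h1 (Set.toFinite _)
      have h3 : (Set.range c).ncard ≤ (Set.range c \ {X}).ncard + 1 := by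
        have h4 : Set.range c ⊆ insert X (Set.range c \ {X}) := by
          intro z hz
          by_cases hzX : z = X
          · exact Or.inl hzX
          · exact Or.inr ⟨hz, hzX⟩
        exact (Set.ncard_le_ncard h4 (Set.toFinite _)).trans (Set.ncard_insert_le _ _)
      unfold cls
      omega
    have hcrn : crn G h + 2 ≤ crn G c := by
      have hne' : s(x₁, y₁) ≠ s(x₂, y₂) := by
        intro he
        rcases Sym2.eq_iff.1 he with ⟨e1, e2⟩ | ⟨e1, e2⟩
        · exact hne (by rw [e1, e2])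
        · rw [e1] at cx1
          exact cy2 cx1
      have hdis : Disjoint {z | z ∈ G.edgeSet ∧ Crs h z} ({s(x₁, y₁), s(x₂, y₂)} : Set (Sym2 V)) := by
        rw [Set.disjoint_left]
        rintro z ⟨_, u, v, rfl, huv⟩ hz
        apply huv
        rcases hz with hz | hz
        · rcases Sym2.eq_iff.1 hz with ⟨e1, e2⟩ | ⟨e1, e2⟩
          · rw [e1, e2, hx1, hy1]
          · rw [e1, e2, hx1, hy1]
        · rcases Sym2.eq_iff.1 hz with ⟨e1, e2⟩ | ⟨e1, e2⟩
          · rw [e1, e2, hx2, hy2]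
          · rw [e1, e2, hx2, hy2]
      have hsub : {z | z ∈ G.edgeSet ∧ Crs h z} ∪ ({s(x₁, y₁), s(x₂, y₂)} : Set (Sym2 V)) ⊆
          {z | z ∈ G.edgeSet ∧ Crs c z} := by
        rintro z (⟨hz, u, v, rfl, huv⟩ | rfl | rfl)
        · refine ⟨hz, u, v, rfl, fun he => huv ?_⟩
          show (if c u = X then c y₁ else c u) = (if c v = X then c y₁ else c v)
          rw [he]
        · exact ⟨a1, x₁, y₁, rfl, by rw [cx1]; exact Ne.symm cy1⟩
        · exact ⟨a2, x₂, y₂, rfl, by rw [cx2]; exact Ne.symm cy2⟩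
      have h1 := Set.ncard_le_ncard hsub (Set.toFinite _)
      rw [Set.ncard_union_eq hdis (Set.toFinite _) (Set.toFinite _), Set.ncard_pair hne'] at h1
      exact h1
    have h5 := hsp K h
    omega
  · intro u w huw cu cw
    have : (u, w) ∈ {e : V × V | G.Adj e.1 e.2 ∧ c e.1 ∈ ({X} : Set K) ∧ c e.2 ∉ ({X} : Set K)} :=
      ⟨huw, cu, cw⟩
    rw [hset] at this
    rcases this with h | h
    · exact Or.inl (Prod.mk.injEq _ _ _ _ ▸ h)
    · exact Or.inr (Prod.mk.injEq _ _ _ _ ▸ (h : (u, w) = (x₂, y₂)))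

end Pool.Agent.MPf1f412
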