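import Pool.Agent.Lib.MP_f1f412_co.SpecN
import Pool.Agent.Lib.MP_f1f412_co.Basic

/-!
# MP_f1f412_co (C34), module NNStar: maximal non-rigid graphs
-/

set_option autoImplicit false

namespace Pool.Agent.MPf1f412

open Matrix

theorem nNStar (h1 : S_HL) (h2 : S_KN) : S_NStar := by
  classical
  intro V _ p H a y₁ y₂ hp ha hadj hnr
  have hfin : {H' : SimpleGraph V | H ≤ H' ∧ ¬ BRig H' p}.Finite := Set.toFinite _
  obtain ⟨H₁, hH₁, hmax⟩ := hfin.exists_le_maximal (a := H) ⟨le_rfl, hnr⟩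
  have hH₁n : ¬ BRig H₁ p := hmax.prop.2
  have htop : BRig (⊤ : SimpleGraph V) p := by
    intro v hv
    obtain ⟨n, hn⟩ := h2 V p v Set.univ hp
      ⟨a 0, trivial, a 1, trivial, a 2, trivial, fun h => by
        have := ha h
        simp at this, fun h => by
        have := ha h
        simp at this, fun h => by
        have := ha h
        simp at this⟩
      (fun u _ w _ => by
        by_cases huw : u = w
        · rw [huw, sub_self, zero_dotProduct]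
        · exact hv u w huw)
    exact ⟨n, fun u => hn u trivial⟩
  have hne : H₁ ≠ ⊤ := fun h => hH₁n (h ▸ htop)
  have hz : ∃ z₁ z₂, z₁ ≠ z₂ ∧ ¬ H₁.Adj z₁ z₂ ∧ (y₁ = y₂ ∨ H₁.Adj y₁ y₂ ∨ (z₁ = y₁ ∧ z₂ = y₂)) := by
    by_cases hy : y₁ = y₂ ∨ H₁.Adj y₁ y₂
    · obtain ⟨z₁, z₂, hz, hzn⟩ := SimpleGraph.ne_top_iff_exists_not_adj.mp hne
      exact ⟨z₁, z₂, hz, hzn, by tauto⟩
    · rw [not_or] at hy
      exact ⟨y₁, y₂, hy.1, hy.2, Or.inr (Or.inr ⟨rfl, rfl⟩)⟩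
  obtain ⟨z₁, z₂, hzne, hzn, hy⟩ := hz
  have hb : ∀ v, BMot H₁ p v → (p z₁ - p z₂) ⬝ᵥ (v z₁ - v z₂) = 0 →
      BMot (H₁ ⊔ SimpleGraph.edge z₁ z₂) p v := by
    intro v hv h0 u w huw
    rw [SimpleGraph.sup_adj, SimpleGraph.edge_adj] at huw
    rcases huw with huw | ⟨⟨hu, hw⟩ | ⟨hu, hw⟩, -⟩
    · exact hv u w huw
    · rw [hu, hw]
      exact h0
    · rw [hu, hw, ← neg_sub (p z₁), ← neg_sub (v z₁), neg_dotProduct, dotProduct_neg, neg_neg]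
      exact h0
  have hrig : BRig (H₁ ⊔ SimpleGraph.edge z₁ z₂) p := by
    by_contra hcon
    have hle := hmax.le_of_ge (y := H₁ ⊔ SimpleGraph.edge z₁ z₂)
      ⟨hH₁.trans le_sup_left, hcon⟩ le_sup_left
    apply hzn
    apply hle
    rw [SimpleGraph.sup_adj, SimpleGraph.edge_adj]
    exact Or.inr ⟨Or.inl ⟨rfl, rfl⟩, hzne⟩
  have hv : ∃ v, BMot H₁ p v ∧ ¬ ∃ n : Tw, ∀ u, v u = ev n (p u) := by
    by_contra hcon
    exact hH₁n fun v hv => by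
      by_contra hn
      exact hcon ⟨v, hv, hn⟩
  obtain ⟨v, hvm, hvn⟩ := hv
  obtain ⟨q, hq1, hq2, hq3⟩ := h1 V p v H₁ a z₁ z₂ hp ha (fun i j hij => hH₁ (hadj i j hij)) hvm
    (fun h0 => hvn (hrig v (hb v hvm h0))) (fun v' hv' h0 => hrig v' (hb v' hv' h0))
  refine ⟨q, fun u w huw => hq1 u w (hH₁ huw), ?_, hq3⟩
  rcases hy with rfl | hy | ⟨rfl, rfl⟩
  · simp [dsq]
  · exact hq1 y₁ y₂ hy
  · exact hq2

end Pool.Agent.MPf1f412
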