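import Pool.Agent.Lib.MP_f1f412_co.SpecN
import Pool.Agent.Lib.MP_f1f412_co.Basic

set_option autoImplicit false

namespace Pool.Agent.MPf1f412

namespace nNTwoAux

/-- an edge along a walk where a property changes -/
theorem change {W : Type} (H : SimpleGraph W) (P : W → Prop) (x z : W) (w : H.Walk x z) :
    P x → ¬ P z → ∃ a b, H.Adj a b ∧ P a ∧ ¬ P b := by
  induction w with
  | nil => exact fun h h' => absurd h h'
  | @cons u v _ huv _ ih =>
    intro hu hz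
    by_cases hv : P v
    · exact ih hv hz
    · exact ⟨u, v, huv, hu, hv⟩

theorem cross {V K : Type} (G : SimpleGraph V) (c : V → K) (X : K) (B : Set V)
    (hB : ((square G).induce Bᶜ).Connected) (x z : V) (hx : x ∉ B) (hz : z ∉ B) (hxX : c x = X)
    (hzX : c z ≠ X) : ∃ a b, a ∉ B ∧ b ∉ B ∧ (square G).Adj a b ∧ c a = X ∧ c b ≠ X := by
  obtain ⟨w⟩ := hB.preconnected ⟨x, hx⟩ ⟨z, hz⟩
  obtain ⟨a, b, h1, h2, h3⟩ := change _ (fun y : ((Bᶜ : Set V) : Type) => c y.1 = X) _ _ w hxX hzX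
  exact ⟨a.1, b.1, a.2, b.2, h1, h2, h3⟩

end nNTwoAux

open nNTwoAux in
theorem nNTwo : S_NTwo := by
  intro V K _ G c X hK hD hX hv
  obtain ⟨x, hx⟩ := hX
  obtain ⟨z, hz⟩ := hv
  by_contra hlt
  have hle : dK G c {X} ≤ 1 := by omega
  unfold dK at hle
  rw [Set.ncard_le_one (Set.toFinite _)] at hle
  -- at most one leaving edge
  have huniq : ∀ u w u' w', G.Adj u w → c u = X → c w ≠ X → G.Adj u' w' → c u' = X → c w' ≠ X →
      u = u' ∧ w = w' := by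
    intro u w u' w' h1 h2 h3 h4 h5 h6
    have h7 := hle (u, w) ⟨h1, h2, h3⟩ (u', w') ⟨h4, h5, h6⟩
    exact ⟨congrArg Prod.fst h7, congrArg Prod.snd h7⟩
  -- there is a leaving edge
  have hex : ∃ u w, G.Adj u w ∧ c u = X ∧ c w ≠ X := by
    obtain ⟨a, b, -, -, hab, ha, hb⟩ := cross G c X ∅
      (hK ∅ Set.finite_empty (by rw [Set.ncard_empty]; norm_num)) x z (Set.notMem_empty _)
      (Set.notMem_empty _) hx hz
    rcases hab.2 with h | ⟨t, h1, h2⟩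
    · exact ⟨a, b, h, ha, hb⟩
    · by_cases ht : c t = X
      · exact ⟨t, b, h2, ht, hb⟩
      · exact ⟨a, t, h1, ha, ht⟩
  obtain ⟨x₀, y₀, h0, hx₀, hy₀⟩ := hex
  obtain ⟨x', hx'y, hx'⟩ : ∃ x', x' ≠ y₀ ∧ G.Adj x₀ x' := by
    obtain ⟨a, b, hab, ha, hb⟩ := hD x₀
    by_cases h : a = y₀
    · exact ⟨b, fun h' => hab (h.trans h'.symm), hb⟩
    · exact ⟨a, h, ha⟩
  obtain ⟨y', hy'x, hy'⟩ : ∃ y', y' ≠ x₀ ∧ G.Adj y₀ y' := by
    obtain ⟨a, b, hab, ha, hb⟩ := hD y₀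
    by_cases h : a = x₀
    · exact ⟨b, fun h' => hab (h.trans h'.symm), hb⟩
    · exact ⟨a, h, ha⟩
  have hcx' : c x' = X := by
    by_contra h
    exact hx'y (huniq x₀ x' x₀ y₀ hx' hx₀ h h0 hx₀ hy₀).2
  have hcy' : c y' ≠ X := by
    intro h
    exact hy'x (huniq y' y₀ x₀ y₀ hy'.symm h hy₀ h0 hx₀ hy₀).1
  have hnx : x' ∉ ({x₀, y₀} : Set V) := by
    rintro (h | h)
    · exact hx'.ne h.symm
    · exact hx'y h
  have hny : y' ∉ ({x₀, y₀} : Set V) := by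
    rintro (h | h)
    · exact hy'x h
    · exact hy'.ne (Set.mem_singleton_iff.1 h).symm
  have hcard : ({x₀, y₀} : Set V).ncard < 4 := by
    have := Set.ncard_insert_le x₀ ({y₀} : Set V)
    rw [Set.ncard_singleton] at this
    omega
  obtain ⟨a, b, ha, hb, hab, hca, hcb⟩ := cross G c X {x₀, y₀}
    (hK _ (Set.toFinite _) hcard) x' y' hnx hny hcx' hcy'
  have hax : a ≠ x₀ := fun h => ha (Or.inl h)
  have hby : b ≠ y₀ := fun h => hb (Or.inr h)
  rcases hab.2 with h | ⟨t, h1, h2⟩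
  · exact hax (huniq a b x₀ y₀ h hca hcb h0 hx₀ hy₀).1
  · by_cases ht : c t = X
    · exact hby (huniq t b x₀ y₀ h2 ht hcb h0 hx₀ hy₀).2
    · exact hax (huniq a t x₀ y₀ h1 hca ht h0 hx₀ hy₀).1

end Pool.Agent.MPf1f412
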