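import Pool.Agent.Lib.MP_f1f412_co.SpecN

/-!
# MP_f1f412_co (C34): a transcendental number `T` can be sent to `-T`
-/

set_option autoImplicit false

namespace Pool.Agent.MPf1f412

theorem nNegT : S_NegT := by
  intro K _ _ T hT
  have key : ∀ A : Set ℝ, A = Set.range (fun _ : Unit => T) →
      ∃ τ : IntermediateField.adjoin K A →ₐ[K] ℝ,
        ∀ x : IntermediateField.adjoin K A, (x : ℝ) = T → τ x = -T := by
    rintro _ rfl
    have hx : AlgebraicIndependent K (fun _ : Unit => T) :=
      algebraicIndependent_unique_type_iff.2 hT
    have hT' : Transcendental K (-T) := fun h => hT (by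
      have := h.neg
      rw [neg_neg] at this
      exact this)
    have hx' : AlgebraicIndependent K (fun _ : Unit => -T) :=
      algebraicIndependent_unique_type_iff.2 hT'
    refine ⟨(IntermediateField.val _).comp
      (hx'.aevalEquivField.toAlgHom.comp hx.aevalEquivField.symm.toAlgHom), ?_⟩
    intro x h
    have h1 : hx.aevalEquivField (algebraMap (MvPolynomial Unit K)
        (FractionRing (MvPolynomial Unit K)) (MvPolynomial.X ())) = x := by
      apply Subtype.ext
      rw [hx.aevalEquivField_algebraMap_apply_coe, MvPolynomial.aeval_X, h]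
    have h2 : hx.aevalEquivField.symm x = algebraMap (MvPolynomial Unit K)
        (FractionRing (MvPolynomial Unit K)) (MvPolynomial.X ()) := by
      rw [← h1, AlgEquiv.symm_apply_apply]
    show ((hx'.aevalEquivField (hx.aevalEquivField.symm x) : IntermediateField.adjoin K _) : ℝ) = _
    rw [h2, hx'.aevalEquivField_algebraMap_apply_coe, MvPolynomial.aeval_X]
  exact key {T} (by rw [Set.range_const])

end Pool.Agent.MPf1f412
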