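import Pool.Agent.Lib.MP_f1f412_co.Spec1
import Pool.Agent.Lib.MP_f1f412_co.Basic

/-!
# MP_f1f412_co (C34), Spec O: the generic octahedron is not globally rigid (`TEXT4.md`, section 16)

Vertices `Fin 6`, antipodal pairs `i, i + 3`.  The axis is `0 3`, the other vertices are `1, 2, 4, 5` with the
4-cycle of edges `1 2, 2 4, 4 5, 5 1`.  `L i j` are the squared lengths, `X` is the squared length of the axis.
All functions of `X` are polynomials.  Every `S_...` is a statement to be proved in its own file (module name in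
bold, `O` first); the docstring contains the complete proof; used statements are hypotheses.
-/

set_option autoImplicit false

namespace Pool.Agent.MPf1f412

open Matrix

/-- the final statement of this file -/
def S_Oct6 : Prop := ∀ p : Fin 6 → R3, Gn p → ∃ q : Fin 6 → R3,
  (∀ i j : Fin 6, i ≠ j → j ≠ i + 3 → dsq (q i) (q j) = dsq (p i) (p j)) ∧
  ∃ i j, dsq (q i) (q j) ≠ dsq (p i) (p j)

/-! ### definitions -/

/-- `X` times the squared distance of `w` from the axis, `a = |0w|²`, `b = |3w|²` -/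
noncomputable def Oa (X a b : ℝ) : ℝ := X * a - (X + a - b) ^ 2 / 4

/-- `X` times the scalar product of the components of `w, v` orthogonal to the axis -/
noncomputable def Ob (X a b a' b' d : ℝ) : ℝ :=
  X * (a + a' - d) / 2 - (X + a - b) * (X + a' - b') / 4

variable (L : Fin 6 → Fin 6 → ℝ) (X : ℝ)

noncomputable def OA (w : Fin 6) : ℝ := Oa X (L 0 w) (L 3 w)

noncomputable def OB (w v : Fin 6) : ℝ := Ob X (L 0 w) (L 3 w) (L 0 v) (L 3 v) (L w v)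

noncomputable def OT (w v : Fin 6) : ℝ := OA L X w * OA L X v - OB L X w v ^ 2

noncomputable def Oal : ℝ :=
  OA L X 5 * (OB L X 1 2 * OB L X 2 4) - OA L X 2 * (OB L X 4 5 * OB L X 5 1)

noncomputable def Obe : ℝ := OA L X 5 ^ 2 * (OT L X 1 2 * OT L X 2 4)

noncomputable def Oga : ℝ := OA L X 2 ^ 2 * (OT L X 4 5 * OT L X 5 1)

/-- the polynomial whose zeros `X` give realizations -/
noncomputable def OF : ℝ :=
  (Oal L X ^ 2 + Obe L X - Oga L X) ^ 2 - 4 * (Oal L X ^ 2 * Obe L X)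

/-! the derivatives with respect to `X` -/

noncomputable def OA' (w : Fin 6) : ℝ := L 0 w - (X + L 0 w - L 3 w) / 2

noncomputable def OB' (w v : Fin 6) : ℝ :=
  (L 0 w + L 0 v - L w v) / 2 - ((X + L 0 w - L 3 w) + (X + L 0 v - L 3 v)) / 4

noncomputable def OT' (w v : Fin 6) : ℝ :=
  OA' L X w * OA L X v + OA L X w * OA' L X v - 2 * (OB L X w v * OB' L X w v)

noncomputable def Oal' : ℝ :=
  OA' L X 5 * (OB L X 1 2 * OB L X 2 4) +
    OA L X 5 * (OB' L X 1 2 * OB L X 2 4 + OB L X 1 2 * OB' L X 2 4) -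
  (OA' L X 2 * (OB L X 4 5 * OB L X 5 1) +
    OA L X 2 * (OB' L X 4 5 * OB L X 5 1 + OB L X 4 5 * OB' L X 5 1))

noncomputable def Obe' : ℝ :=
  2 * (OA L X 5 * OA' L X 5) * (OT L X 1 2 * OT L X 2 4) +
    OA L X 5 ^ 2 * (OT' L X 1 2 * OT L X 2 4 + OT L X 1 2 * OT' L X 2 4)

noncomputable def Oga' : ℝ :=
  2 * (OA L X 2 * OA' L X 2) * (OT L X 4 5 * OT L X 5 1) +
    OA L X 2 ^ 2 * (OT' L X 4 5 * OT L X 5 1 + OT L X 4 5 * OT' L X 5 1)

noncomputable def OF' : ℝ :=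
  2 * (Oal L X ^ 2 + Obe L X - Oga L X) * (2 * (Oal L X * Oal' L X) + Obe' L X - Oga' L X) -
  4 * (2 * (Oal L X * Oal' L X) * Obe L X + Oal L X ^ 2 * Obe' L X)

/-- the derivative of `Oal` with respect to the length `L 4 5` -/
noncomputable def Oad : ℝ := X * OA L X 2 * OB L X 5 1 / 2

/-- the derivative of `Oga` with respect to the length `L 4 5` -/
noncomputable def Ogd : ℝ := X * OA L X 2 ^ 2 * OT L X 5 1 * OB L X 4 5

/-- all `OA`, `OT` in question are nonnegative -/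
def ONn : Prop :=
  0 ≤ OA L X 1 ∧ 0 ≤ OA L X 2 ∧ 0 ≤ OA L X 4 ∧ 0 ≤ OA L X 5 ∧
  0 ≤ OT L X 1 2 ∧ 0 ≤ OT L X 2 4 ∧ 0 ≤ OT L X 4 5 ∧ 0 ≤ OT L X 5 1

/-- a planar configuration for the four vertices `1, 2, 4, 5` -/
def OPlan (x y : Fin 6 → ℝ) : Prop :=
  x 1 ^ 2 + y 1 ^ 2 = OA L X 1 ∧ x 2 ^ 2 + y 2 ^ 2 = OA L X 2 ∧
  x 4 ^ 2 + y 4 ^ 2 = OA L X 4 ∧ x 5 ^ 2 + y 5 ^ 2 = OA L X 5 ∧
  x 1 * x 2 + y 1 * y 2 = OB L X 1 2 ∧ x 2 * x 4 + y 2 * y 4 = OB L X 2 4 ∧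
  x 4 * x 5 + y 4 * y 5 = OB L X 4 5 ∧ x 5 * x 1 + y 5 * y 1 = OB L X 5 1

/-- the squared lengths of a configuration -/
def OL (p : Fin 6 → R3) : Fin 6 → Fin 6 → ℝ := fun i j => dsq (p i) (p j)

/-- the determinant of `p 3 - p 0, p w - p 0, p v - p 0` -/
def Od (p : Fin 6 → R3) (w v : Fin 6) : ℝ := cr (p 3 - p 0) (p w - p 0) ⬝ᵥ (p v - p 0)

/-! ### identities -/

/-- **OId.** The polynomial identities of a configuration in `R3`, `X = |03|²`.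

Proof.  Put `e = p 3 - p 0`, `u = p w - p 0`, `v = p v - p 0`, `z = p z - p 0` (vectors with three coordinates each).  `X = e·e`,
`L 0 w = u·u`, `L 3 w = (u-e)·(u-e)`, `L w v = (u-v)·(u-v)`.  So `X + L 0 w - L 3 w = 2 u·e` and
`OA w = (e·e)(u·u) - (u·e)²`, `OB w v = (e·e)(u·v) - (u·e)(v·e)` (first prove these two formulas, with `dot_eq` and `ring`).
All four statements are then polynomial identities in the coordinates: `simp only [..., dot_eq, cr_zero, ...]; ring`.  (Generalize the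
coordinates of `e, u, v, z` to real variables before `ring`.) -/
def S_OId : Prop := ∀ (p : Fin 6 → R3) (w v z : Fin 6),
  OT (OL p) (OL p 0 3) w v = OL p 0 3 * Od p w v ^ 2 ∧
  OB (OL p) (OL p 0 3) w v * OB (OL p) (OL p 0 3) v z - OL p 0 3 * (Od p w v * Od p v z) =
    OA (OL p) (OL p 0 3) v * OB (OL p) (OL p 0 3) w z ∧
  Od p w v * OB (OL p) (OL p 0 3) v z + OB (OL p) (OL p 0 3) w v * Od p v z =
    OA (OL p) (OL p 0 3) v * Od p w z ∧
  OA (OL p) (OL p 0 3) w = cr (p 3 - p 0) (p w - p 0) ⬝ᵥ cr (p 3 - p 0) (p w - p 0)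

/-- **OPos** (from `OId`).  Positivity for a generic configuration.

Proof.  `OL p 0 3 = dsq (p 0) (p 3) > 0` as `p 0 ≠ p 3` (`Gn.inj`; a sum of three squares).  `OA w = |e × u|²` (fourth identity of `OId`) is positive as
`e × u ≠ 0` (`Gn.gp3` for `0, 3, w`).  `Od p w v ≠ 0` is `Gn.gp4` for `0, 3, w, v`. -/
def S_OPos : Prop := ∀ (p : Fin 6 → R3), Gn p → 0 < OL p 0 3 ∧
  (∀ w, w ≠ 0 → w ≠ 3 → 0 < OA (OL p) (OL p 0 3) w) ∧
  (∀ w v, w ≠ 0 → w ≠ 3 → v ≠ 0 → v ≠ 3 → w ≠ v → Od p w v ≠ 0)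

/-! ### planar configurations -/

/-- **OP2.** One more point in the plane.

Proof.  If `A > 0` put `x' = (x B + y s) / A`, `y' = (y B - x s) / A`: `x x' + y y' = B (x² + y²)/A = B`, `y x' - x y' = s`,
`x'² + y'² = (B² + s²)(x² + y²)/A² = A'`.  If `A = 0` then `x = y = 0` and `B² + s² = 0`, so `B = s = 0`: `x' = √A'`, `y' = 0`. -/
def S_OP2 : Prop := ∀ (A A' B s x y : ℝ), 0 ≤ A' → x ^ 2 + y ^ 2 = A → B ^ 2 + s ^ 2 = A * A' →
  ∃ x' y' : ℝ, x' ^ 2 + y' ^ 2 = A' ∧ x * x' + y * y' = B ∧ y * x' - x * y' = s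

/-- **OPl** (from `OP2`).  The 4-cycle in the plane, `A2, A5 > 0`.

Proof.  Write `z_w = (x_w, y_w)` as complex numbers, so `z z̄' = (x x' + y y') + i (y x' - x y')`.  Take `z2 = (√A2, 0)`,
`z1` with `z2 z̄1 = B12 - i s12` (`OP2` with `s = - s12`), that is `z1 z̄2 = B12 + i s12`, and `z4` with `z2 z̄4 = B24 + i s24` (`OP2` with `s = s24`).
Then `A2 z1 z̄4 = (z1 z̄2)(z2 z̄4) = (B12 + i s12)(B24 + i s24)`.  So `A2 (z1·z4) = B12 B24 - s12 s24` and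
`A2 c = s12 B24 + B12 s24` with `c = y1 x4 - x1 y4`; `(z1·z4)² + c² = A1 A4`.
Let `I = (s45 B51 + B45 s51) / A5`.  `(B45 B51 - s45 s51)² + (s45 B51 + B45 s51)² = (B45²+s45²)(B51²+s51²) = A4 A5 A5 A1`; by the hypothesis
`(B45 B51 - s45 s51)/A5 = (B12 B24 - s12 s24)/A2 = z1·z4`.  So `(z1·z4)² + I² = A1 A4`, `I² = c²`.  Put `ε = -1` if `I = c` and `ε = 1` if `I = - c`
(both is fine), `t45 = ε s45`, `t51 = ε s51`: the hypothesis is unchanged and now `(t45 B51 + B45 t51)/A5 = - c`.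
If `A4 > 0`: `OP2` for `z4` and `s = t45` gives `z5` with `z4 z̄5 = B45 + i t45`, `|z5|² = A5`.  Claim `z5·z1 = B51`:
`A4 (z5·z1) = Re ((z5 z̄4)(z4 z̄1)) = Re ((B45 - i t45) (z4 z̄1))`, `z4 z̄1 = (z1·z4) - i c`, and `A5 (z4 z̄1) = (B45 + i t45)(B51 + i t51)` by the choice of the signs, so
`A5 A4 (z5·z1) = (B45² + t45²) B51 = A4 A5 B51`.
If `A4 = 0`: `x4 = y4 = 0` and `B45² + s45² = 0`, so `B45 = 0`; take `z5` from `OP2` for `z1`, `B = B51`, `s = s51`: `z5·z1 = B51`, `|z5|² = A5`,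
`z4·z5 = 0 = B45`.  (For the real formulas: work with the eight real numbers and `linear_combination` / `nlinarith`; or with `ℂ` and `Complex.mul_re` etc.) -/
def S_OPl : Prop := ∀ (A1 A2 A4 A5 B12 B24 B45 B51 s12 s24 s45 s51 : ℝ),
  0 ≤ A1 → 0 < A2 → 0 ≤ A4 → 0 < A5 →
  B12 ^ 2 + s12 ^ 2 = A1 * A2 → B24 ^ 2 + s24 ^ 2 = A2 * A4 →
  B45 ^ 2 + s45 ^ 2 = A4 * A5 → B51 ^ 2 + s51 ^ 2 = A5 * A1 →
  A5 * (B12 * B24 - s12 * s24) = A2 * (B45 * B51 - s45 * s51) →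
  ∃ x y : Fin 6 → ℝ,
    x 1 ^ 2 + y 1 ^ 2 = A1 ∧ x 2 ^ 2 + y 2 ^ 2 = A2 ∧ x 4 ^ 2 + y 4 ^ 2 = A4 ∧
    x 5 ^ 2 + y 5 ^ 2 = A5 ∧ x 1 * x 2 + y 1 * y 2 = B12 ∧ x 2 * x 4 + y 2 * y 4 = B24 ∧
    x 4 * x 5 + y 4 * y 5 = B45 ∧ x 5 * x 1 + y 5 * y 1 = B51 ∧
    A2 * (x 1 * x 4 + y 1 * y 4) = B12 * B24 - s12 * s24

/-- **ORe** (from `OP2`, `OPl`).  A zero of `OF` with nonnegative `OA`, `OT` gives a planar configuration.

Proof.  Write `A_w = OA L X w`, `B`, `T` in the same way.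
Case `A_2 > 0` and `A_5 > 0`.  `t_ij = √T_ij` (`Real.sq_sqrt`), `b = A_5 t_12 t_24 ≥ 0`, `g = A_2 t_45 t_51`, `b² = Obe`, `g² = Oga`, `α = Oal`.
`0 = OF = (α² + b² - g²)² - 4 α² b² = ((α - b)² - g²) ((α + b)² - g²) = (α - b - g)(α - b + g)(α + b - g)(α + b + g)`.  So `α = σ b + τ g` with
`σ, τ ∈ {1, -1}`.  Apply `OPl` with `s12 = t_12`, `s24 = σ t_24`, `s45 = t_45`, `s51 = - τ t_51`: the last hypothesis is `A_5 B_12 B_24 - A_2 B_45 B_51 = σ b + τ g`.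
Case `A_2 = 0`.  `T_12 = - B_12² ≥ 0`, so `B_12 = 0`, in the same way `B_24 = 0`.  `z_2 = 0`, `z_5 = (√A_5, 0)`; `z_4` from `OP2` for `z_5` with `B = B_45`, `s = √T_45`;
`z_1` from `OP2` for `z_5` with `B = B_51`, `s = √T_51`.
Case `A_5 = 0`.  In the same way `B_45 = B_51 = 0`, `z_5 = 0`, `z_2 = (√A_2, 0)`, `z_1`, `z_4` from `OP2` for `z_2`. -/
def S_ORe : Prop := ∀ (L : Fin 6 → Fin 6 → ℝ) (X : ℝ), ONn L X → OF L X = 0 →
  ∃ x y, OPlan L X x y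

/-- **O3D.** From the plane to space.

Proof.  `s = √X > 0`, `s² = X`, `h_w = (X + L 0 w - L 3 w) / (2 s)`; `q 0 = 0`, `q 3 = (0, 0, s)`, `q w = (x w / s, y w / s, h_w)` for the other `w`.
`dsq (q 0) (q w) = (x w² + y w²)/X + h_w² = L 0 w` (definition of `OA`), `dsq (q 3) (q w) = L 0 w - 2 s h_w + X = L 3 w`, and for `w ≠ v` in `{1,2,4,5}`:
`X dsq (q w) (q v) = X (L 0 w + L 0 v) - 2 (x w x v + y w y v) - 2 X h_w h_v` with `2 X h_w h_v = (X + L 0 w - L 3 w)(X + L 0 v - L 3 v)/2`; if `x w x v + y w y v = OB w v` this is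
`X L w v` (definition of `OB`).  The last formula is the case `w = 1, v = 4`. -/
def S_O3D : Prop := ∀ (L : Fin 6 → Fin 6 → ℝ) (X : ℝ) (x y : Fin 6 → ℝ), 0 < X →
  OPlan L X x y → ∃ q : Fin 6 → R3, dsq (q 0) (q 3) = X ∧
    (∀ w, w ≠ 0 → w ≠ 3 → dsq (q 0) (q w) = L 0 w ∧ dsq (q 3) (q w) = L 3 w) ∧
    dsq (q 1) (q 2) = L 1 2 ∧ dsq (q 2) (q 4) = L 2 4 ∧ dsq (q 4) (q 5) = L 4 5 ∧
    dsq (q 5) (q 1) = L 5 1 ∧
    X * dsq (q 1) (q 4) = X * (L 0 1 + L 0 4) - 2 * (x 1 * x 4 + y 1 * y 4) -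
      (X + L 0 1 - L 3 1) * (X + L 0 4 - L 3 4) / 2

/-! ### real analysis -/

/-- **OBd.** `OF` is nonnegative where the minimum of the eight functions vanishes.

Proof.  All eight numbers are nonnegative and one of them is zero.  If `OA w = 0` then `OT w v = - OB w v ² ≥ 0` is zero for both neighbours `v` of `w` (and `OT v w` likewise).  So in
every case `OT 1 2 = 0` or `OT 2 4 = 0` or `OT 4 5 = 0` or `OT 5 1 = 0`, hence `Obe = 0` or `Oga = 0`.  `Obe = 0`: `OF = (Oal² - Oga)² ≥ 0`.  `Oga = 0`: `OF = (Oal² + Obe)² - 4 Oal² Obe = (Oal² - Obe)² ≥ 0`. -/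
def S_OBd : Prop := ∀ (L : Fin 6 → Fin 6 → ℝ) (X : ℝ), ONn L X →
  (OA L X 1 = 0 ∨ OA L X 2 = 0 ∨ OA L X 4 = 0 ∨ OA L X 5 = 0 ∨
   OT L X 1 2 = 0 ∨ OT L X 2 4 = 0 ∨ OT L X 4 5 = 0 ∨ OT L X 5 1 = 0) → 0 ≤ OF L X

/-- **OIv.** A lemma of real analysis.

Proof.  First a one-sided statement (R): if `m, F` are continuous, `Y < M`, `m Y > 0`, `m M < 0`, `F Y < 0` and `F ≥ 0` at all zeros of `m` in `[Y, M]`, then there is `X1 ∈ (Y, M]` with `0 ≤ m X1`, `F X1 = 0`.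
Let `r = sInf {X ∈ [Y, M] | m X ≤ 0}` (a closed nonempty set, so `m r ≤ 0`); `m > 0` on `[Y, r)`, `r > Y`, so `m r = 0` by continuity and `m ≥ 0` on `[Y, r]`; `F r ≥ 0`.  Intermediate value theorem
(`intermediate_value_Icc`) on `[Y, r]`.  (L): the mirror statement on an interval `[a, Y]` with `m a < 0` follows from (R) for `X ↦ m (-X)`, `X ↦ F (-X)`.
Now `F X0 = 0`, `F' ≠ 0`.  If `F' < 0`: there are points `Y > X0` arbitrarily near `X0` with `F Y < 0` (`HasDerivAt` : the slope `F Y / (Y - X0)` tends to `F'`), and `m Y > 0` by continuity, `Y < M`: (R) gives `X1 > Y > X0`.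
If `F' > 0`: there are points `Y < X0`, `Y > 0`, near `X0` with `F Y < 0`, `m Y > 0`: (L) on `[0, Y]` gives `X1 ∈ [0, Y)` with `m X1 ≥ 0`; `X1 ≠ 0` as `m 0 < 0`. -/
def S_OIv : Prop := ∀ (m F : ℝ → ℝ) (X0 M F' : ℝ), Continuous m → Continuous F → 0 < X0 → X0 < M →
  0 < m X0 → m 0 < 0 → m M < 0 → F X0 = 0 → HasDerivAt F F' X0 → F' ≠ 0 →
  (∀ X, m X = 0 → 0 ≤ F X) → ∃ X1, 0 < X1 ∧ X1 ≠ X0 ∧ 0 ≤ m X1 ∧ F X1 = 0

/-- **OZr** (from `OBd`, `OIv`).  Another zero of `OF`.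

Proof.  `m X` = the minimum of the eight functions of `ONn` (nested `min`; continuous, as all eight are polynomials in `X`: `unfold`, `fun_prop`/`continuity`).  `m X ≥ 0` iff `ONn L X`; `m X = 0` implies `ONn L X` and one of the eight is zero (`OBd`).
`m 0 < 0`: `OA L 0 1 = - (L 0 1 - L 3 1)²/4 < 0`.  `M = X0 + 2 (|L 0 1| + |L 3 1|) + 1`: `4 OA L M 1 = 4 M a - (M + a - b)² = - (M² - 2 M (a + b) + (a - b)²) < 0` as `M > 2 (a + b)`, `M > 0`
(`a = L 0 1`, `b = L 3 1`).  Apply `OIv`. -/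
def S_OZr : Prop := ∀ (L : Fin 6 → Fin 6 → ℝ) (X0 F' : ℝ), 0 < X0 → L 0 1 ≠ L 3 1 →
  (0 < OA L X0 1 ∧ 0 < OA L X0 2 ∧ 0 < OA L X0 4 ∧ 0 < OA L X0 5 ∧
   0 < OT L X0 1 2 ∧ 0 < OT L X0 2 4 ∧ 0 < OT L X0 4 5 ∧ 0 < OT L X0 5 1) →
  OF L X0 = 0 → HasDerivAt (OF L) F' X0 → F' ≠ 0 →
  ∃ X1, 0 < X1 ∧ X1 ≠ X0 ∧ ONn L X1 ∧ OF L X1 = 0

/-! ### infinitesimal rigidity and the derivation -/

/-- **OKN.** Three points: velocities which preserve the three distances are those of a twist.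

Proof.  `e = y - x`, `f = z - x`, `v' = v - u`, `w' = w - u`: `e·v' = 0`, `f·w' = 0`, `(e - f)·(v' - w') = 0`, so `e·w' + f·v' = 0`.  `N = e × f ≠ 0`, `r = N·N > 0`.
`ω = (w'·N / r) e - (v'·N / r) f + (v'·f / r) N`.  Then `ω × e = v'`: both sides have the same scalar product with `e` (zero), `f` and `N`, and `e, f, N` are linearly independent
(a vector orthogonal to `e, f, N` is zero: `h × N = (h·f) e - (h·e) f = 0` by `cr_cr`, so `h` is parallel to `N` (`par_of_cr`) and `h·N = 0`).  In the same way `ω × f = w'` (here `e·w' = - f·v'` is used).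
`n = (ω, u - ω × x)`: `ev n x = u`, `ev n y = u + ω × e = v`, `ev n z = w`. -/
def S_OKN : Prop := ∀ (x y z u v w : R3), cr (y - x) (z - x) ≠ 0 →
  (x - y) ⬝ᵥ (u - v) = 0 → (y - z) ⬝ᵥ (v - w) = 0 → (x - z) ⬝ᵥ (u - w) = 0 →
  ∃ n : Tw, ev n x = u ∧ ev n y = v ∧ ev n z = w

/-- the hexagon -/
def OHexG : SimpleGraph (Fin 6) where
  Adj i j := j = i + 1 ∨ i = j + 1
  symm := ⟨fun _ _ h => h.symm⟩
  loopless := ⟨fun i h => by revert h; revert i; decide⟩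

/-- **OHx.** The hexagon has no triangle and nonnegative counts.

Proof.  `NoTri`: `decide` (after `intro`, 216 cases).  Count: `ef OHexG id univ f` is the number of the edges `{i, i+1}` of the hexagon with `f i ≠ f (i+1)`; let `k` be the number of values of `f`.
If `k = 1` the count is `≥ 0` (`sf = 0` or more).  If `k ≥ 2` then at least `k` edges are crossing: for every value `t` of `f` there is an `i` with `f i = t`, `f (i+1) ≠ t` (otherwise `f` would be constant, walk around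
the hexagon), and for different `t` these edges `{i, i+1}` are different (`i` determines the edge `{i, i+1}` and `t = f i`).  So `sf ≥ 5 k - 6 (k - 1) = 6 - k ≥ 0` as `k ≤ 6` (`Fin 6` has six elements). -/
def S_OHx : Prop := NoTri OHexG ∧ ∀ (J : Type) (f : Fin 6 → J), 0 ≤ sf OHexG id Set.univ f

/-- **ORg** (from `OKN`, `OHx`, `D0r`).  Infinitesimal rigidity of the generic octahedron.

Proof.  For every `i` the three vertices `i - 1, i, i + 1` are different (in `Fin 6`) and pairwise not antipodal; `cr (...) ≠ 0` by `Gn.gp3`: `OKN` gives a twist `m i` with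
`ev (m i) (p j) = v j` for `j = i - 1, i, i + 1`.  `m` is a motion of the structure `(OHexG, id)` on `Set.univ` (`isMot_iff_ev`: for adjacent `u, w` both `m u` and `m w` have the value `v u` at `p u`).
`S_D0r` with `k = 0` (`OHx`; `S.Finite` is clear): `m` is constant, `m i = m 0`, so `v i = ev (m 0) (p i)`. -/
def S_ORg : Prop := ∀ (p v : Fin 6 → R3), Gn p →
  (∀ i j : Fin 6, i ≠ j → j ≠ i + 3 → (p i - p j) ⬝ᵥ (v i - v j) = 0) →
  ∃ n : Tw, ∀ i, v i = ev n (p i)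

/-- **ODe** (from `ORg`).  The derivation.

Proof.  The linear map `Φ : (Fin 6 → R3) → ℝ^12`, `v ↦ ((p i - p j)·(v i - v j))` over the twelve edges `i < j`, `j ≠ i + 3` (index type `{z : Fin 6 × Fin 6 // z.1 < z.2 ∧ z.2 ≠ z.1 + 3}` or an explicit
`Fin 12`).  Its kernel is contained in the image of `Tw → (Fin 6 → R3)`, `n ↦ (ev n (p i))` (`ORg`; the conditions for `i > j` follow by symmetry), so it has dimension `≤ 6`, and the rank of `Φ` is `≥ 18 - 6 = 12`: `Φ` is onto.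
Take `v` with value `1/2` at the edge `4 5` and `0` at the other ones, `D` with `D3 D (p i) = v i` (`Gn`).  `D (dsq (p i) (p j)) = 2 (p i - p j)·(v i - v j)` (`D_dot`, `D3_sub`). -/
def S_ODe : Prop := ∀ (p : Fin 6 → R3), Gn p → ∃ D : Derivation ℚ ℝ ℝ,
  D (OL p 4 5) = 1 ∧ ∀ i j : Fin 6, i ≠ j → j ≠ i + 3 → ¬ (i = 4 ∧ j = 5) → ¬ (i = 5 ∧ j = 4) →
    D (OL p i j) = 0

/-- **ODv.** The derivative of `OF` and the rule for derivations.

Proof.  Both parts by the product rule, in the steps `OA`, `OB`, `OT`, `Oal`, `Obe`, `Oga`, `OF` (one lemma each).  (1) `HasDerivAt (fun X => OA L X w) (OA' L X w) X` etc.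
(2) `D (OA L X w) = OA' L X w * D X` for `w = 1, 2, 4, 5`; `D (OB L X w v) = OB' L X w v * D X` for the pairs `12, 24, 51` and `D (OB L X 4 5) = OB' L X 4 5 * D X - X / 2`;
`D (OT L X 4 5) = OT' L X 4 5 * D X + X * OB L X 4 5`, `D (OT ..) = OT' .. * D X` for the other pairs; `D Oal = Oal' * D X + Oad`; `D Obe = Obe' * D X`; `D Oga = Oga' * D X + Ogd`; then `OF`.
(`Derivation.leibniz`, `Derivation.leibniz_pow`; for the constants: `D (a / 4) = D a / 4` since `a / 4 = (1/4 : ℚ) • a`.) -/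
def S_ODv : Prop := ∀ (L : Fin 6 → Fin 6 → ℝ) (X : ℝ),
  HasDerivAt (OF L) (OF' L X) X ∧
  ∀ D : Derivation ℚ ℝ ℝ, D (L 4 5) = 1 → D (L 1 2) = 0 → D (L 2 4) = 0 → D (L 5 1) = 0 →
    (∀ w, w ≠ 0 → w ≠ 3 → D (L 0 w) = 0 ∧ D (L 3 w) = 0) →
    D (OF L X) = OF' L X * D X +
      2 * (Oal L X ^ 2 + Obe L X - Oga L X) * (2 * (Oal L X * Oad L X) - Ogd L X) -
      8 * (Oal L X * Obe L X * Oad L X)

/-! ### the end -/

/-- **OZ0** (from `OId`).  The values at `X0 = |03|²`: with `X = OL p 0 3`, `b = A_5 X d12 d24`, `g = A_2 X d45 d51` (`d = Od p`).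

Proof.  `OId` (1): `OT w v = X d_wv²`, so `Obe = b²`, `Oga = g²`.  `OId` (2) for `(1,2,4)` and for `(4,5,1)` (and the symmetry `OB L X w v = OB L X v w` for `L` symmetric, `OL p` is symmetric, so `OB 1 4 = OB 4 1`):
`A_5 (B12 B24 - X d12 d24) = A_5 A_2 B14 = A_2 (B45 B51 - X d45 d51)`: `Oal = b - g`.  `OF = ((b-g)² + b² - g²)² - 4 (b-g)² b² = 0` by `ring`. -/
def S_OZ0 : Prop := ∀ (p : Fin 6 → R3) (X b g : ℝ), X = OL p 0 3 →
  b = OA (OL p) X 5 * (X * (Od p 1 2 * Od p 2 4)) →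
  g = OA (OL p) X 2 * (X * (Od p 4 5 * Od p 5 1)) →
  Obe (OL p) X = b ^ 2 ∧ Oga (OL p) X = g ^ 2 ∧ Oal (OL p) X = b - g ∧ OF (OL p) X = 0

/-- **ONz** (from `OId`, `OPos`, `OZ0`, `ODe`, `ODv`).  `OF' ≠ 0` at `X0` if `Oal ≠ 0`.

Proof.  `X = OL p 0 3`, `b, g` as in `OZ0`.  Suppose `OF' (OL p) X = 0`.  Take `D` from `ODe` and apply `ODv` (2) (`OL p` satisfies the hypotheses) to `OF (OL p) X = 0` (`D 0 = 0`):
`0 = 2 (α² + b² - g²)(2 α a' - g') - 8 α b² a'` with `α = b - g`, `a' = Oad`, `g' = Ogd`.  `α² + b² - g² = 2 b α`.  So `0 = 4 α b (2 (α - b) a' - g') = - 4 α b (2 g a' + g')`.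
`α ≠ 0`, `b ≠ 0` (`OPos`), so `2 g a' + g' = 0`; `2 g a' = g X A_2 B51`, `g' = X A_2² T51 B45`, `T51 = X d51²`, `g = A_2 X d45 d51`:
`2 g a' + g' = X² A_2² d51 (d45 B51 + B45 d51) = X² A_2² d51 A_5 d41` (`OId` (3) for `(4,5,1)`; `d51 = Od p 5 1`, `d41 = Od p 4 1`).  All factors are nonzero (`OPos`): contradiction. -/
def S_ONz : Prop := ∀ (p : Fin 6 → R3), Gn p → Oal (OL p) (OL p 0 3) ≠ 0 →
  OF' (OL p) (OL p 0 3) ≠ 0

/-- **OFl** (from `OId`, `OPos`, `OZ0`, `OPl`, `O3D`).  The case `Oal = 0` at `X0`: the reflected pattern.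

Proof.  `X = OL p 0 3 > 0`, `s = √X`, `d = Od p`, `b = g` in `OZ0`.  Apply `OPl` with `A_w = OA (OL p) X w`, `B = OB (OL p) X`, `s12 = - s d12`, `s24 = s d24`, `s45 = - s d45`, `s51 = s d51`
(`B² + s² = A A'` is `OId` (1)); the last hypothesis is `A_5 (B12 B24 + X d12 d24) = A_2 (B45 B51 + X d45 d51)`: this is `Oal + b - g = 0`.  The configuration is an `OPlan`; `O3D` gives `q` with the twelve lengths of `p` and
`X |q1 - q4|² = X (L01 + L04) - 2 z1·z4 - (..)(..)/2`, `A_2 z1·z4 = B12 B24 + X d12 d24`.  For `p` itself: `X |p1 - p4|² = X (L01 + L04) - 2 B14 - (..)(..)/2` (definition of `OB`), `A_2 B14 = B12 B24 - X d12 d24` (`OId` (2) for `(1,2,4)`).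
`A_2 > 0`, `X d12 d24 ≠ 0`: so `|q1 - q4|² ≠ |p1 - p4|²`.  For the twelve pairs `i, j` use `fin_cases` or `Fin` case distinction and `dsq` symmetric (`dsq x y = dsq y x`). -/
def S_OFl : Prop := ∀ (p : Fin 6 → R3), Gn p → Oal (OL p) (OL p 0 3) = 0 → ∃ q : Fin 6 → R3,
  (∀ i j : Fin 6, i ≠ j → j ≠ i + 3 → dsq (q i) (q j) = dsq (p i) (p j)) ∧
  ∃ i j, dsq (q i) (q j) ≠ dsq (p i) (p j)

/-- **OAll** (from `OId`, `OPos`, `OZ0`, `ONz`, `OFl`, `ODv`, `OZr`, `ORe`, `O3D`): `S_Oct6`.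

Proof.  If `Oal (OL p) X0 = 0` with `X0 = OL p 0 3`: `OFl`.  Otherwise `OF' (OL p) X0 ≠ 0` (`ONz`), `OF (OL p) X0 = 0` (`OZ0`), `HasDerivAt` (`ODv`), the eight numbers are positive at `X0` (`OPos`, `OId` (1)),
`OL p 0 1 ≠ OL p 3 1`: otherwise apply a derivation `D` supported on `{0}` with `D3 D (p 0) = p 0 - p 1` (`Gn.exists_single`): `D (dsq (p 0) (p 1)) = 2 |p 0 - p 1|² > 0`, `D (dsq (p 3) (p 1)) = 0`: contradiction.  `OZr` gives `X1 > 0`, `X1 ≠ X0`, `ONn`,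
`OF = 0`; `ORe`, `O3D` give `q` with the twelve lengths of `p` and `dsq (q 0) (q 3) = X1 ≠ X0 = dsq (p 0) (p 3)`. -/
def S_OAll : Prop := S_OId → S_OPos → S_OZ0 → S_ONz → S_OFl → S_ODv → S_OZr → S_ORe → S_O3D → S_Oct6

end Pool.Agent.MPf1f412
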