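import Pool.Agent.Lib.MP_f1f412_co.SpecN
import Pool.Agent.Lib.MP_f1f412_co.SpecO

/-!
# MP_f1f412_co (C34), module NOct: `S_Oct` of `SpecN` is `S_Oct6` of `SpecO`
-/

set_option autoImplicit false

namespace Pool.Agent.MPf1f412

theorem nOct (h : S_Oct6) : S_Oct := h

end Pool.Agent.MPf1f412
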