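import Pool.Agent.Lib.MP_f1f412_co.SpecN

/-!
# MP_f1f412_co (C34): a real polynomial of odd degree has a root
-/

set_option autoImplicit false

namespace Pool.Agent.MPf1f412

open Polynomial

theorem nOdd : S_OddRoot := by
  have key : ∀ f : ℝ[X], Odd f.natDegree → 0 < f.leadingCoeff → ∃ x : ℝ, f.IsRoot x := by
    intro f hf ha
    have hdeg : 0 < f.degree := natDegree_pos_iff_degree_pos.1 hf.pos
    have h1 := tendsto_atTop_of_leadingCoeff_nonneg f hdeg ha.le
    have hX : (-X : ℝ[X]).natDegree = 1 := by rw [natDegree_neg, natDegree_X]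
    have hg : (f.comp (-X)).natDegree = f.natDegree := by rw [natDegree_comp, hX, mul_one]
    have hlc : (f.comp (-X)).leadingCoeff = - f.leadingCoeff := by
      rw [leadingCoeff_comp (by rw [hX]; exact one_ne_zero), leadingCoeff_neg, leadingCoeff_X,
        hf.neg_one_pow, mul_neg, mul_one]
    have h2 := tendsto_atBot_of_leadingCoeff_nonpos (f.comp (-X))
      (natDegree_pos_iff_degree_pos.1 (by rw [hg]; exact hf.pos)) (by rw [hlc]; linarith)
    obtain ⟨a, ha'⟩ := (h2.eventually (Filter.eventually_le_atBot 0)).exists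
    obtain ⟨b, hb⟩ := (h1.eventually (Filter.eventually_ge_atTop 0)).exists
    have ha'' : eval (-a) f ≤ 0 := by
      rw [eval_comp, eval_neg, eval_X] at ha'
      exact ha'
    obtain ⟨x, hx⟩ := mem_range_of_exists_le_of_exists_ge f.continuous ⟨-a, ha''⟩ ⟨b, hb⟩
    exact ⟨x, hx⟩
  intro f hf
  have hf0 : f ≠ 0 := by
    rintro rfl
    rw [natDegree_zero] at hf
    exact absurd hf (by decide)
  rcases lt_or_gt_of_ne (leadingCoeff_ne_zero.2 hf0) with h | h
  · obtain ⟨x, hx⟩ := key (-f) (by rw [natDegree_neg]; exact hf) (by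
      rw [leadingCoeff_neg]
      linarith)
    refine ⟨x, ?_⟩
    have hx' : eval x (-f) = 0 := hx
    rw [eval_neg, neg_eq_zero] at hx'
    exact hx'
  · exact key f hf h

end Pool.Agent.MPf1f412
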