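import Pool.Agent.Lib.MP_f1f412_co.SpecN

/-!
# MP_f1f412_co: another real point with the same squared distances (`S_Real`)
-/

set_option autoImplicit false

namespace Pool.Agent.MPf1f412

open Matrix

namespace nRealAux

/-- the field generated by the coordinates -/
noncomputable abbrev EE (L : Type) [Field L] [Algebra L ℝ] {V : Type} (p : V → R3) :
    IntermediateField L ℝ :=
  IntermediateField.adjoin L (Set.range fun z : V × Fin 3 => p z.1 z.2)

/-- the coordinates as elements of this field -/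
noncomputable def PP (L : Type) [Field L] [Algebra L ℝ] {V : Type} (p : V → R3) (u : V)
    (i : Fin 3) : EE L p :=
  ⟨p u i, IntermediateField.subset_adjoin L _ ⟨(u, i), rfl⟩⟩

/-- the squared distances as elements of this field -/
noncomputable def SS (L : Type) [Field L] [Algebra L ℝ] {V : Type} (p : V → R3) (u w : V) :
    EE L p :=
  ∑ i, (PP L p u i - PP L p w i) * (PP L p u i - PP L p w i)

variable {L : Type} [Field L] [Algebra L ℝ] {V : Type}

theorem coe_SS (p : V → R3) (u w : V) : algebraMap (EE L p) ℝ (SS L p u w) = dsq (p u) (p w) := by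
  unfold SS dsq
  rw [map_sum]
  simp only [map_mul, map_sub, dotProduct, Pi.sub_apply]
  rfl

theorem dsq_map (p : V → R3) (σ : EE L p →+* ℝ) (u w : V) :
    dsq (fun i => σ (PP L p u i)) (fun i => σ (PP L p w i)) = σ (SS L p u w) := by
  unfold SS dsq
  rw [map_sum]
  simp only [map_mul, map_sub, dotProduct, Pi.sub_apply]

theorem coe_inj (p : V → R3) {x y : EE L p} (h : algebraMap (EE L p) ℝ x = algebraMap (EE L p) ℝ y) :
    x = y := (algebraMap (EE L p) ℝ).injective h

theorem tower (p : V → R3) (x : L) :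
    algebraMap (EE L p) ℝ (algebraMap L (EE L p) x) = algebraMap L ℝ x := rfl

/-- the statement for an arbitrary base field -/
theorem base [CharZero L] (h1 : S_Dich) [Finite V] (p : V → R3)
    (halg : ∀ u i, IsAlgebraic L (p u i)) :
    (∃ q : V → R3, q ≠ p ∧ (∀ u i, (∃ x : L, algebraMap L ℝ x = p u i) → q u i = p u i) ∧
      ∀ u w, (∃ x : L, algebraMap L ℝ x = dsq (p u) (p w)) →
        dsq (q u) (q w) = dsq (p u) (p w)) ∨
    ∀ τ : L →+* ℝ, ∃ q : V → R3, ∀ u w, ∀ x : L, algebraMap L ℝ x = dsq (p u) (p w) →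
      dsq (q u) (q w) = τ x := by
  have hfin : FiniteDimensional L (EE L p) := by
    refine IntermediateField.finiteDimensional_adjoin (fun x hx => ?_)
    obtain ⟨z, rfl⟩ := hx
    exact (halg z.1 z.2).isIntegral
  rcases h1 L (EE L p) (algebraMap (EE L p) ℝ) with ⟨σ, hne, heq⟩ | hall
  · left
    refine ⟨fun u i => σ (PP L p u i), fun hqp => hne ?_, fun u i hx => ?_, fun u w hx => ?_⟩
    · let σ₁ : EE L p →ₐ[L] ℝ := { σ with commutes' := fun x => heq x }
      have h2 : σ₁ = (EE L p).val := by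
        refine IntermediateField.algHom_ext_of_eq_adjoin L rfl (fun x hx => ?_)
        obtain ⟨z, hz⟩ := hx
        have h3 := congrFun (congrFun hqp z.1) z.2
        subst hz
        exact h3
      ext x
      exact DFunLike.congr_fun h2 x
    · obtain ⟨x, hx⟩ := hx
      have h2 : PP L p u i = algebraMap L (EE L p) x := by
        apply coe_inj p
        rw [tower, hx]
        rfl
      change σ (PP L p u i) = p u i
      rw [h2, heq, tower, hx]
    · obtain ⟨x, hx⟩ := hx
      have h2 : SS L p u w = algebraMap L (EE L p) x := by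
        apply coe_inj p
        rw [tower, hx, coe_SS]
      rw [dsq_map, h2, heq, tower, hx]
  · right
    intro τ
    obtain ⟨σ, hσ⟩ := hall τ
    refine ⟨fun u i => σ (PP L p u i), fun u w x hx => ?_⟩
    have h2 : SS L p u w = algebraMap L (EE L p) x := by
      apply coe_inj p
      rw [tower, hx, coe_SS]
    rw [dsq_map, h2, hσ]

theorem dsq_nonneg (x y : R3) : 0 ≤ dsq x y := by
  unfold dsq dotProduct
  exact Finset.sum_nonneg fun i _ => mul_self_nonneg _

end nRealAux

open nRealAux in
/-- **N4.** Another real point with the same squared distances. -/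
theorem nReal (h1 : S_Dich) (h2 : S_NegT) : S_Real := by
  intro V _ p A y₁ y₂ hT halg
  have hA : ∀ x ∈ A, ∃ y : IntermediateField.adjoin (IntermediateField.adjoin ℚ A)
      ({dsq (p y₁) (p y₂)} : Set ℝ), algebraMap (IntermediateField.adjoin
        (IntermediateField.adjoin ℚ A) ({dsq (p y₁) (p y₂)} : Set ℝ)) ℝ y = x := by
    intro x hx
    refine ⟨algebraMap (IntermediateField.adjoin ℚ A) _
      ⟨x, IntermediateField.subset_adjoin ℚ A hx⟩, ?_⟩
    rfl
  have hTm : dsq (p y₁) (p y₂) ∈ IntermediateField.adjoin (IntermediateField.adjoin ℚ A)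
      ({dsq (p y₁) (p y₂)} : Set ℝ) := IntermediateField.subset_adjoin _ _ rfl
  rcases base (L := IntermediateField.adjoin (IntermediateField.adjoin ℚ A)
      ({dsq (p y₁) (p y₂)} : Set ℝ)) h1 p halg with ⟨q, hqp, hq1, hq2⟩ | hall
  · refine ⟨q, hqp, hq2 y₁ y₂ ⟨⟨_, hTm⟩, rfl⟩, fun u hu => ?_, fun u w huw => hq2 u w (hA _ huw)⟩
    funext i
    exact hq1 u i (hA _ (hu i))
  · exfalso
    obtain ⟨τ, hτ⟩ := h2 (IntermediateField.adjoin ℚ A) (dsq (p y₁) (p y₂)) hT
    obtain ⟨q, hq⟩ := hall τ.toRingHom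
    have h3 := hq y₁ y₂ ⟨_, hTm⟩ rfl
    have h4 : τ.toRingHom ⟨_, hTm⟩ = - dsq (p y₁) (p y₂) := hτ ⟨_, hTm⟩ rfl
    rw [h4] at h3
    have h5 := dsq_nonneg (q y₁) (q y₂)
    have h6 := dsq_nonneg (p y₁) (p y₂)
    have h7 : dsq (p y₁) (p y₂) = 0 := by linarith
    rw [h7] at hT
    exact hT isAlgebraic_zero

end Pool.Agent.MPf1f412
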