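import Pool.Agent.Lib.MP_f1f412_co.SpecO

/-! C34, module O3D (SpecO): from the plane to space -/

set_option autoImplicit false

namespace Pool.Agent.MPf1f412

open Matrix

private theorem o3d_dsq (u w : R3) :
    dsq u w = (u 0 - w 0) ^ 2 + (u 1 - w 1) ^ 2 + (u 2 - w 2) ^ 2 := by
  unfold dsq
  rw [dot_eq]
  simp only [Pi.sub_apply]
  ring

/-- the point -/
private noncomputable def o3q (L : Fin 6 → Fin 6 → ℝ) (s : ℝ) (x y : Fin 6 → ℝ) (w : Fin 6) : R3 :=
  ![x w / s, y w / s, (s ^ 2 + L 0 w - L 3 w) / (2 * s)]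

private theorem o3d_pair (L : Fin 6 → Fin 6 → ℝ) (s : ℝ) (hs : 0 < s) (x y : Fin 6 → ℝ)
    (w v : Fin 6) (hw : x w ^ 2 + y w ^ 2 = OA L (s ^ 2) w)
    (hv : x v ^ 2 + y v ^ 2 = OA L (s ^ 2) v) :
    s ^ 2 * dsq (o3q L s x y w) (o3q L s x y v) = s ^ 2 * (L 0 w + L 0 v) -
      2 * (x w * x v + y w * y v) - (s ^ 2 + L 0 w - L 3 w) * (s ^ 2 + L 0 v - L 3 v) / 2 := by
  have hs' : s ≠ 0 := hs.ne'
  rw [o3d_dsq]
  unfold OA Oa at hw hv
  simp only [o3q, Matrix.cons_val_zero, Matrix.cons_val_one, Matrix.cons_val]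
  have e1 : s ^ 2 * ((x w / s - x v / s) ^ 2 + (y w / s - y v / s) ^ 2 +
      ((s ^ 2 + L 0 w - L 3 w) / (2 * s) - (s ^ 2 + L 0 v - L 3 v) / (2 * s)) ^ 2) =
      (x w - x v) ^ 2 + (y w - y v) ^ 2 +
        ((s ^ 2 + L 0 w - L 3 w) - (s ^ 2 + L 0 v - L 3 v)) ^ 2 / 4 := by
    field_simp
    ring
  rw [e1]
  linear_combination hw + hv

theorem o3D : S_O3D := by
  intro L X x y hX hP
  obtain ⟨s, hs, rfl⟩ : ∃ s : ℝ, 0 < s ∧ X = s ^ 2 :=
    ⟨Real.sqrt X, Real.sqrt_pos.2 hX, (Real.sq_sqrt hX.le).symm⟩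
  have hs' : s ≠ 0 := hs.ne'
  obtain ⟨h1, h2, h4, h5, h12, h24, h45, h51⟩ := hP
  have hOA : ∀ w : Fin 6, w ≠ 0 → w ≠ 3 → x w ^ 2 + y w ^ 2 = OA L (s ^ 2) w := by
    intro w w0 w3
    fin_cases w
    · exact absurd rfl w0
    · exact h1
    · exact h2
    · exact absurd rfl w3
    · exact h4
    · exact h5
  set q : Fin 6 → R3 := fun w => if w = 0 then 0 else if w = 3 then ![0, 0, s] else o3q L s x y w
    with hq
  have q0 : q 0 = 0 := if_pos rfl
  have q3 : q 3 = ![0, 0, s] := by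
    simp only [hq]
    rw [if_neg (by decide), if_pos trivial]
  have qw : ∀ w : Fin 6, w ≠ 0 → w ≠ 3 → q w = o3q L s x y w := by
    intro w w0 w3
    simp only [hq]
    rw [if_neg w0, if_neg w3]
  have key : ∀ w v : Fin 6, w ≠ 0 → w ≠ 3 → v ≠ 0 → v ≠ 3 →
      s ^ 2 * dsq (q w) (q v) = s ^ 2 * (L 0 w + L 0 v) -
      2 * (x w * x v + y w * y v) - (s ^ 2 + L 0 w - L 3 w) * (s ^ 2 + L 0 v - L 3 v) / 2 := by
    intro w v w0 w3 v0 v3
    rw [qw w w0 w3, qw v v0 v3]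
    exact o3d_pair L s hs x y w v (hOA w w0 w3) (hOA v v0 v3)
  have edge : ∀ w v : Fin 6, w ≠ 0 → w ≠ 3 → v ≠ 0 → v ≠ 3 →
      x w * x v + y w * y v = OB L (s ^ 2) w v → dsq (q w) (q v) = L w v := by
    intro w v w0 w3 v0 v3 hB
    have h := key w v w0 w3 v0 v3
    rw [hB] at h
    unfold OB Ob at h
    have h2 : s ^ 2 * (dsq (q w) (q v) - L w v) = 0 := by
      linear_combination h
    rcases mul_eq_zero.1 h2 with h3 | h3
    · exact absurd h3 (pow_ne_zero 2 hs')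
    · linarith
  refine ⟨q, ?_, ?_, edge 1 2 (by decide) (by decide) (by decide) (by decide) h12,
    edge 2 4 (by decide) (by decide) (by decide) (by decide) h24,
    edge 4 5 (by decide) (by decide) (by decide) (by decide) h45,
    edge 5 1 (by decide) (by decide) (by decide) (by decide) h51,
    key 1 4 (by decide) (by decide) (by decide) (by decide)⟩
  · rw [q0, q3, o3d_dsq]
    simp
  · intro w w0 w3
    have hA := hOA w w0 w3
    unfold OA Oa at hA
    have hx : x w ^ 2 = s ^ 2 * L 0 w - (s ^ 2 + L 0 w - L 3 w) ^ 2 / 4 - y w ^ 2 := by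
      linarith
    rw [q0, q3, qw w w0 w3, o3d_dsq, o3d_dsq]
    simp only [o3q, Matrix.cons_val_zero, Matrix.cons_val_one, Matrix.cons_val, Pi.zero_apply]
    constructor
    · field_simp
      linear_combination 4 * hx
    · field_simp
      linear_combination 4 * hx

end Pool.Agent.MPf1f412
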