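import Pool.Agent.Lib.MP_f1f412_co.SpecO

/-!
# MP_f1f412_co (C34), module OAll: the generic octahedron is not globally rigid (assembly)
-/

set_option autoImplicit false

namespace Pool.Agent.MPf1f412

open Matrix

namespace oAllAux

theorem dsq_symm (x y : R3) : dsq x y = dsq y x := by
  simp only [dsq, dot_eq, Pi.sub_apply]; ring

/-- the two ends of the axis have different distances from the vertex `1` -/
theorem ne31 (p : Fin 6 → R3) (hp : Gn p) : OL p 0 1 ≠ OL p 3 1 := by
  intro he
  obtain ⟨D, h1, h2⟩ := hp.exists_single 0 (p 0 - p 1)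
  have e1 : D3 D (p 1) = 0 := h1 1 (by decide)
  have e3 : D3 D (p 3) = 0 := h1 3 (by decide)
  have h3 : D (OL p 0 1) = D (OL p 3 1) := by rw [he]
  simp only [OL, dsq] at h3
  rw [D_dot, D_dot, D3_sub, D3_sub, h2, e1, e3, sub_zero, sub_zero, zero_dotProduct,
    dotProduct_zero, add_zero] at h3
  have h4 : (p 0 - p 1) ⬝ᵥ (p 0 - p 1) = 0 := by linarith
  have h5 := dot_self_eq_zero h4
  exact hp.inj (by decide : (0 : Fin 6) ≠ 1) (sub_eq_zero.1 h5)

/-- the twelve lengths -/
theorem pairs {p q : Fin 6 → R3}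
    (h : ∀ w : Fin 6, w ≠ 0 → w ≠ 3 → dsq (q 0) (q w) = OL p 0 w ∧ dsq (q 3) (q w) = OL p 3 w)
    (h12 : dsq (q 1) (q 2) = OL p 1 2) (h24 : dsq (q 2) (q 4) = OL p 2 4)
    (h45 : dsq (q 4) (q 5) = OL p 4 5) (h51 : dsq (q 5) (q 1) = OL p 5 1) :
    ∀ i j : Fin 6, i ≠ j → j ≠ i + 3 → dsq (q i) (q j) = dsq (p i) (p j) := by
  have a1 := h 1 (by decide) (by decide)
  have a2 := h 2 (by decide) (by decide)
  have a4 := h 4 (by decide) (by decide)
  have a5 := h 5 (by decide) (by decide)
  simp only [OL] at a1 a2 a4 a5 h12 h24 h45 h51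
  intro i j hij hj
  fin_cases i <;> fin_cases j <;>
    first
    | exact absurd rfl hij
    | exact absurd rfl hj
    | exact a1.1
    | exact a1.2
    | exact a2.1
    | exact a2.2
    | exact a4.1
    | exact a4.2
    | exact a5.1
    | exact a5.2
    | exact h12
    | exact h24
    | exact h45
    | exact h51
    | (rw [dsq_symm, dsq_symm (p _)]; first
        | exact a1.1
        | exact a1.2
        | exact a2.1
        | exact a2.2
        | exact a4.1
        | exact a4.2
        | exact a5.1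
        | exact a5.2
        | exact h12
        | exact h24
        | exact h45
        | exact h51)

end oAllAux

open oAllAux

theorem oAll : S_OAll := by
  intro hId hPos hZ0 hNz hFl hDv hZr hRe h3D p hp
  by_cases hal : Oal (OL p) (OL p 0 3) = 0
  · exact hFl p hp hal
  obtain ⟨hX, hA, hd⟩ := hPos p hp
  have hF' := hNz p hp hal
  have hF0 := (hZ0 p _ _ _ rfl rfl rfl).2.2.2
  have hder := (hDv (OL p) (OL p 0 3)).1
  have hT : ∀ w v : Fin 6, w ≠ 0 → w ≠ 3 → v ≠ 0 → v ≠ 3 → w ≠ v →
      0 < OT (OL p) (OL p 0 3) w v := by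
    intro w v a b c d e
    rw [(hId p w v 0).1]
    have := hd w v a b c d e
    positivity
  obtain ⟨X1, hX1, hne, hNn, hF1⟩ := hZr (OL p) (OL p 0 3) _ hX (ne31 p hp)
    ⟨hA 1 (by decide) (by decide), hA 2 (by decide) (by decide), hA 4 (by decide) (by decide),
      hA 5 (by decide) (by decide),
      hT 1 2 (by decide) (by decide) (by decide) (by decide) (by decide),
      hT 2 4 (by decide) (by decide) (by decide) (by decide) (by decide),
      hT 4 5 (by decide) (by decide) (by decide) (by decide) (by decide),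
      hT 5 1 (by decide) (by decide) (by decide) (by decide) (by decide)⟩
    hF0 hder hF'
  obtain ⟨x, y, hxy⟩ := hRe (OL p) X1 hNn hF1
  obtain ⟨q, h03, hw, h12, h24, h45, h51, -⟩ := h3D (OL p) X1 x y hX1 hxy
  refine ⟨q, pairs hw h12 h24 h45 h51, 0, 3, ?_⟩
  rw [h03]
  exact hne

end Pool.Agent.MPf1f412
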