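import Pool.Agent.Lib.MP_f1f412_co.SpecO

/-!
# MP_f1f412_co (C34): the sign of `OF` at boundary points (`S_OBd`)
-/

set_option autoImplicit false

namespace Pool.Agent.MPf1f412

open Matrix

namespace oBdAux

variable {L : Fin 6 → Fin 6 → ℝ} {X : ℝ}

theorem left {w v : Fin 6} (h : OA L X w = 0) (h0 : 0 ≤ OT L X w v) : OT L X w v = 0 := by
  have e : OT L X w v = OA L X w * OA L X v - OB L X w v ^ 2 := rfl
  rw [h, zero_mul] at e
  nlinarith [sq_nonneg (OB L X w v)]

theorem right {w v : Fin 6} (h : OA L X v = 0) (h0 : 0 ≤ OT L X w v) : OT L X w v = 0 := by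
  have e : OT L X w v = OA L X w * OA L X v - OB L X w v ^ 2 := rfl
  rw [h, mul_zero] at e
  nlinarith [sq_nonneg (OB L X w v)]

end oBdAux

open oBdAux in
theorem oBd : S_OBd := by
  rintro L X ⟨-, -, -, -, t12, t24, t45, t51⟩ h
  have key : Obe L X = 0 ∨ Oga L X = 0 := by
    have k12 : OT L X 1 2 = 0 → Obe L X = 0 := fun h => by simp [Obe, h]
    have k24 : OT L X 2 4 = 0 → Obe L X = 0 := fun h => by simp [Obe, h]
    have k45 : OT L X 4 5 = 0 → Oga L X = 0 := fun h => by simp [Oga, h]
    have k51 : OT L X 5 1 = 0 → Oga L X = 0 := fun h => by simp [Oga, h]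
    rcases h with h | h | h | h | h | h | h | h
    · exact Or.inl (k12 (left h t12))
    · exact Or.inl (k12 (right h t12))
    · exact Or.inl (k24 (right h t24))
    · exact Or.inr (k45 (right h t45))
    · exact Or.inl (k12 h)
    · exact Or.inl (k24 h)
    · exact Or.inr (k45 h)
    · exact Or.inr (k51 h)
  rcases key with h | h
  · have e : OF L X = (Oal L X ^ 2 - Oga L X) ^ 2 := by
      simp only [OF, h]; ring
    rw [e]
    exact sq_nonneg _
  · have e : OF L X = (Oal L X ^ 2 - Obe L X) ^ 2 := by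
      simp only [OF, h]; ring
    rw [e]
    exact sq_nonneg _

end Pool.Agent.MPf1f412
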