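import Pool.Agent.Lib.MP_f1f412_co.SpecO

/-!
# MP_f1f412_co (C34): a derivation which moves exactly one squared length of the octahedron
-/

set_option autoImplicit false

namespace Pool.Agent.MPf1f412

open Matrix

namespace oDeAux

/-- the twelve edges -/
abbrev Ed : Type := {z : Fin 6 × Fin 6 // z.1 < z.2 ∧ z.2 ≠ z.1 + 3}

theorem card_Ed : Fintype.card Ed = 12 := by decide

/-- the infinitesimal length changes -/
noncomputable def Phi (p : Fin 6 → R3) : (Fin 6 → R3) →ₗ[ℝ] (Ed → ℝ) where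
  toFun v := fun z => (p z.1.1 - p z.1.2) ⬝ᵥ (v z.1.1 - v z.1.2)
  map_add' v w := by
    funext z
    simp only [dot_eq, Pi.add_apply, Pi.sub_apply]
    ring
  map_smul' r v := by
    funext z
    simp only [dot_eq, Pi.smul_apply, Pi.sub_apply, smul_eq_mul, RingHom.id_apply]
    ring

theorem Phi_apply (p v : Fin 6 → R3) (z : Ed) :
    Phi p v z = (p z.1.1 - p z.1.2) ⬝ᵥ (v z.1.1 - v z.1.2) := rfl

theorem dot_swap (a b c d : R3) : (a - b) ⬝ᵥ (c - d) = (b - a) ⬝ᵥ (d - c) := by
  simp only [dot_eq, Pi.sub_apply]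
  ring

theorem surj (h1 : S_ORg) {p : Fin 6 → R3} (hp : Gn p) : Function.Surjective (Phi p) := by
  let Psi : Tw →ₗ[ℝ] (Fin 6 → R3) := LinearMap.pi fun i => evL (p i)
  have hker : LinearMap.ker (Phi p) ≤ LinearMap.range Psi := by
    intro v hv
    have hv' : ∀ z : Ed, (p z.1.1 - p z.1.2) ⬝ᵥ (v z.1.1 - v z.1.2) = 0 := fun z =>
      congrFun (LinearMap.mem_ker.1 hv) z
    obtain ⟨n, hn⟩ := h1 p v hp (by
      intro i j hij hij3
      rcases lt_or_gt_of_ne hij with h | h
      · exact hv' ⟨(i, j), h, hij3⟩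
      · have h3 : i ≠ j + 3 := by
          revert i j
          decide
        rw [dot_swap]
        exact hv' ⟨(j, i), h, h3⟩)
    exact ⟨n, funext fun i => (hn i).symm⟩
  have hTw : Module.finrank ℝ Tw = 6 := by
    show Module.finrank ℝ (R3 × R3) = 6
    rw [Module.finrank_prod, Module.finrank_fintype_fun_eq_card, Fintype.card_fin]
  have h18 : Module.finrank ℝ (Fin 6 → R3) = 18 := by
    rw [Module.finrank_pi_fintype, Finset.sum_const, Finset.card_univ, Fintype.card_fin,
      Module.finrank_fintype_fun_eq_card, Fintype.card_fin, smul_eq_mul]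
  have h12 : Module.finrank ℝ (Ed → ℝ) = 12 := by
    rw [Module.finrank_fintype_fun_eq_card, card_Ed]
  have a1 := Submodule.finrank_mono hker
  have a2 := LinearMap.finrank_range_le Psi
  have a3 := LinearMap.finrank_range_add_finrank_ker (Phi p)
  have a4 := Submodule.finrank_le (LinearMap.range (Phi p))
  rw [← LinearMap.range_eq_top]
  apply Submodule.eq_top_of_finrank_eq
  omega

end oDeAux

open oDeAux

theorem oDe (h1 : S_ORg) : S_ODe := by
  classical
  intro p hp
  obtain ⟨v, hv⟩ := surj h1 hp (Pi.single ⟨(4, 5), by decide⟩ (1 / 2))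
  obtain ⟨D, hD⟩ := hp v
  have hDL : ∀ i j, D (OL p i j) = 2 * ((p i - p j) ⬝ᵥ (v i - v j)) := by
    intro i j
    show D ((p i - p j) ⬝ᵥ (p i - p j)) = _
    rw [D_dot, D3_sub, hD, hD, dotProduct_comm (v i - v j)]
    ring
  refine ⟨D, ?_, ?_⟩
  · have h := congrFun hv ⟨(4, 5), by decide⟩
    rw [Pi.single_eq_same, Phi_apply] at h
    rw [hDL]
    have h' : (p 4 - p 5) ⬝ᵥ (v 4 - v 5) = 1 / 2 := h
    rw [h']
    norm_num
  · intro i j hij hij3 h45 h54
    rw [hDL]
    rcases lt_or_gt_of_ne hij with h | h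
    · have h' := congrFun hv ⟨(i, j), h, hij3⟩
      rw [Pi.single_eq_of_ne, Phi_apply] at h'
      · have h'' : (p i - p j) ⬝ᵥ (v i - v j) = 0 := h'
        rw [h'', mul_zero]
      · intro he
        have he' : (i, j) = ((4, 5) : Fin 6 × Fin 6) := congrArg Subtype.val he
        exact h45 ⟨congrArg Prod.fst he', congrArg Prod.snd he'⟩
    · have h3 : i ≠ j + 3 := by
        clear hv hD hDL h45 h54
        revert i j
        decide
      have h' := congrFun hv ⟨(j, i), h, h3⟩
      rw [Pi.single_eq_of_ne, Phi_apply] at h'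
      · have h'' : (p j - p i) ⬝ᵥ (v j - v i) = 0 := h'
        rw [dot_swap, h'', mul_zero]
      · intro he
        have he' : (j, i) = ((4, 5) : Fin 6 × Fin 6) := congrArg Subtype.val he
        exact h54 ⟨congrArg Prod.snd he', congrArg Prod.fst he'⟩

end Pool.Agent.MPf1f412
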