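import Pool.Agent.Lib.MP_f1f412_co.SpecO

/-! C34, module ODv (SpecO): the derivative of `OF` -/

set_option autoImplicit false

namespace Pool.Agent.MPf1f412

open Matrix

section real

variable (L : Fin 6 → Fin 6 → ℝ) (X : ℝ)

private theorem odv_sq {f : ℝ → ℝ} {f' x : ℝ} (h : HasDerivAt f f' x) :
    HasDerivAt (fun y => f y ^ 2) (2 * (f x * f')) x := by
  have h1 : HasDerivAt (fun y => f y * f y) (f' * f x + f x * f') x := h.mul h
  have h2 : (fun y => f y ^ 2) = fun y => f y * f y := by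
    funext y
    ring
  rw [h2]
  exact h1.congr_deriv (by ring)

private theorem odv_lin (a b : ℝ) : HasDerivAt (fun y : ℝ => y + a - b) 1 X :=
  ((hasDerivAt_id X).add_const a).sub_const b

private theorem odv_A (w : Fin 6) : HasDerivAt (fun y => OA L y w) (OA' L X w) X := by
  have h1 : HasDerivAt (fun y : ℝ => y * L 0 w) (1 * L 0 w) X := (hasDerivAt_id X).mul_const _
  have h2 := (odv_sq (odv_lin X (L 0 w) (L 3 w))).div_const 4
  have h3 : HasDerivAt (fun y : ℝ => y * L 0 w - (y + L 0 w - L 3 w) ^ 2 / 4)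
      (1 * L 0 w - 2 * ((X + L 0 w - L 3 w) * 1) / 4) X := h1.sub h2
  exact h3.congr_deriv (by unfold OA'; ring)

private theorem odv_B (w v : Fin 6) : HasDerivAt (fun y => OB L y w v) (OB' L X w v) X := by
  have h1 : HasDerivAt (fun y : ℝ => y * (L 0 w + L 0 v - L w v))
      (1 * (L 0 w + L 0 v - L w v)) X := (hasDerivAt_id X).mul_const _
  have h2 : HasDerivAt (fun y : ℝ => (y + L 0 w - L 3 w) * (y + L 0 v - L 3 v))
      (1 * (X + L 0 v - L 3 v) + (X + L 0 w - L 3 w) * 1) X :=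
    (odv_lin X (L 0 w) (L 3 w)).mul (odv_lin X (L 0 v) (L 3 v))
  have h3 : HasDerivAt (fun y : ℝ => y * (L 0 w + L 0 v - L w v) / 2 -
      (y + L 0 w - L 3 w) * (y + L 0 v - L 3 v) / 4)
      (1 * (L 0 w + L 0 v - L w v) / 2 -
        (1 * (X + L 0 v - L 3 v) + (X + L 0 w - L 3 w) * 1) / 4) X :=
    (h1.div_const 2).sub (h2.div_const 4)
  exact h3.congr_deriv (by unfold OB'; ring)

private theorem odv_T (w v : Fin 6) : HasDerivAt (fun y => OT L y w v) (OT' L X w v) X := by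
  have h3 : HasDerivAt (fun y : ℝ => OA L y w * OA L y v - OB L y w v ^ 2)
      (OA' L X w * OA L X v + OA L X w * OA' L X v - 2 * (OB L X w v * OB' L X w v)) X :=
    ((odv_A L X w).mul (odv_A L X v)).sub (odv_sq (odv_B L X w v))
  exact h3

private theorem odv_al : HasDerivAt (fun y => Oal L y) (Oal' L X) X := by
  have h3 : HasDerivAt (fun y : ℝ => OA L y 5 * (OB L y 1 2 * OB L y 2 4) -
      OA L y 2 * (OB L y 4 5 * OB L y 5 1))
      (OA' L X 5 * (OB L X 1 2 * OB L X 2 4) +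
        OA L X 5 * (OB' L X 1 2 * OB L X 2 4 + OB L X 1 2 * OB' L X 2 4) -
      (OA' L X 2 * (OB L X 4 5 * OB L X 5 1) +
        OA L X 2 * (OB' L X 4 5 * OB L X 5 1 + OB L X 4 5 * OB' L X 5 1))) X :=
    ((odv_A L X 5).mul ((odv_B L X 1 2).mul (odv_B L X 2 4))).sub
      ((odv_A L X 2).mul ((odv_B L X 4 5).mul (odv_B L X 5 1)))
  exact h3

private theorem odv_be : HasDerivAt (fun y => Obe L y) (Obe' L X) X := by
  have h3 : HasDerivAt (fun y : ℝ => OA L y 5 ^ 2 * (OT L y 1 2 * OT L y 2 4))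
      (2 * (OA L X 5 * OA' L X 5) * (OT L X 1 2 * OT L X 2 4) +
        OA L X 5 ^ 2 * (OT' L X 1 2 * OT L X 2 4 + OT L X 1 2 * OT' L X 2 4)) X :=
    (odv_sq (odv_A L X 5)).mul ((odv_T L X 1 2).mul (odv_T L X 2 4))
  exact h3

private theorem odv_ga : HasDerivAt (fun y => Oga L y) (Oga' L X) X := by
  have h3 : HasDerivAt (fun y : ℝ => OA L y 2 ^ 2 * (OT L y 4 5 * OT L y 5 1))
      (2 * (OA L X 2 * OA' L X 2) * (OT L X 4 5 * OT L X 5 1) +
        OA L X 2 ^ 2 * (OT' L X 4 5 * OT L X 5 1 + OT L X 4 5 * OT' L X 5 1)) X :=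
    (odv_sq (odv_A L X 2)).mul ((odv_T L X 4 5).mul (odv_T L X 5 1))
  exact h3

private theorem odv_F : HasDerivAt (OF L) (OF' L X) X := by
  have h1 : HasDerivAt (fun y : ℝ => Oal L y ^ 2 + Obe L y - Oga L y)
      (2 * (Oal L X * Oal' L X) + Obe' L X - Oga' L X) X :=
    ((odv_sq (odv_al L X)).add (odv_be L X)).sub (odv_ga L X)
  have h2 : HasDerivAt (fun y : ℝ => Oal L y ^ 2 * Obe L y)
      (2 * (Oal L X * Oal' L X) * Obe L X + Oal L X ^ 2 * Obe' L X) X :=
    (odv_sq (odv_al L X)).mul (odv_be L X)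
  have h3 : HasDerivAt (fun y : ℝ => (Oal L y ^ 2 + Obe L y - Oga L y) ^ 2 -
      4 * (Oal L y ^ 2 * Obe L y))
      (2 * ((Oal L X ^ 2 + Obe L X - Oga L X) * (2 * (Oal L X * Oal' L X) + Obe' L X - Oga' L X)) -
        4 * (2 * (Oal L X * Oal' L X) * Obe L X + Oal L X ^ 2 * Obe' L X)) X :=
    (odv_sq h1).sub (h2.const_mul 4)
  exact h3.congr_deriv (by unfold OF'; ring)

end real

section der

variable (D : Derivation ℚ ℝ ℝ)

private theorem odv_mul (x y : ℝ) : D (x * y) = x * D y + y * D x := by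
  rw [Derivation.leibniz, smul_eq_mul, smul_eq_mul]

private theorem odv_pow (x : ℝ) : D (x ^ 2) = 2 * (x * D x) := by
  rw [pow_two, odv_mul]
  ring

private theorem odv_q (r : ℚ) (x : ℝ) : D ((r : ℝ) * x) = (r : ℝ) * D x := by
  rw [← Rat.smul_def, D.map_smul, Rat.smul_def]

private theorem odv_two (x : ℝ) : D (x / 2) = D x / 2 := by
  have h : x / 2 = ((1 / 2 : ℚ) : ℝ) * x := by
    push_cast
    ring
  rw [h, odv_q]
  push_cast
  ring

private theorem odv_four (x : ℝ) : D (x / 4) = D x / 4 := by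
  have h : x / 4 = ((1 / 4 : ℚ) : ℝ) * x := by
    push_cast
    ring
  rw [h, odv_q]
  push_cast
  ring

private theorem odv_four' (x : ℝ) : D (4 * x) = 4 * D x := by
  have h : (4 : ℝ) * x = ((4 : ℚ) : ℝ) * x := by
    push_cast
    ring
  rw [h, odv_q]
  push_cast
  ring

variable (L : Fin 6 → Fin 6 → ℝ) (X : ℝ)

private theorem odv_DA {w : Fin 6} (h : D (L 0 w) = 0 ∧ D (L 3 w) = 0) :
    D (OA L X w) = OA' L X w * D X := by
  unfold OA OA' Oa
  rw [map_sub, odv_mul, odv_four, odv_pow, map_sub, map_add, h.1, h.2]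
  ring

private theorem odv_DB {w v : Fin 6} (h : D (L 0 w) = 0 ∧ D (L 3 w) = 0)
    (h' : D (L 0 v) = 0 ∧ D (L 3 v) = 0) :
    D (OB L X w v) = OB' L X w v * D X - X * D (L w v) / 2 := by
  unfold OB OB' Ob
  rw [map_sub, odv_two, odv_four, odv_mul, odv_mul, map_sub, map_add, map_sub, map_add, map_sub,
    map_add, h.1, h.2, h'.1, h'.2]
  ring

private theorem odv_DT {w v : Fin 6} (h : D (L 0 w) = 0 ∧ D (L 3 w) = 0)
    (h' : D (L 0 v) = 0 ∧ D (L 3 v) = 0) :
    D (OT L X w v) = OT' L X w v * D X + X * OB L X w v * D (L w v) := by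
  unfold OT OT'
  rw [map_sub, odv_mul, odv_pow, odv_DA D L X h, odv_DA D L X h', odv_DB D L X h h']
  ring

end der

theorem oDv : S_ODv := by
  intro L X
  refine ⟨odv_F L X, ?_⟩
  intro D h45 h12 h24 h51 hw
  have w1 := hw 1 (by decide) (by decide)
  have w2 := hw 2 (by decide) (by decide)
  have w4 := hw 4 (by decide) (by decide)
  have w5 := hw 5 (by decide) (by decide)
  have A2 := odv_DA D L X w2
  have A5 := odv_DA D L X w5
  have B12 := odv_DB D L X w1 w2
  have B24 := odv_DB D L X w2 w4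
  have B45 := odv_DB D L X w4 w5
  have B51 := odv_DB D L X w5 w1
  have T12 := odv_DT D L X w1 w2
  have T24 := odv_DT D L X w2 w4
  have T45 := odv_DT D L X w4 w5
  have T51 := odv_DT D L X w5 w1
  rw [h12] at B12 T12
  rw [h24] at B24 T24
  rw [h45] at B45 T45
  rw [h51] at B51 T51
  have hal : D (Oal L X) = Oal' L X * D X + Oad L X := by
    unfold Oal Oal' Oad
    rw [map_sub, odv_mul, odv_mul, odv_mul, odv_mul, A5, A2, B12, B24, B45, B51]
    ring
  have hbe : D (Obe L X) = Obe' L X * D X := by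
    unfold Obe Obe'
    rw [odv_mul, odv_mul, odv_pow, A5, T12, T24]
    ring
  have hga : D (Oga L X) = Oga' L X * D X + Ogd L X := by
    unfold Oga Oga' Ogd
    rw [odv_mul, odv_mul, odv_pow, A2, T45, T51]
    ring
  unfold OF OF'
  rw [map_sub, odv_pow, map_sub, map_add, odv_pow, odv_four', odv_mul, odv_pow, hal, hbe, hga]
  ring

end Pool.Agent.MPf1f412
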