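import Pool.Agent.Lib.MP_f1f412_co.SpecO

/-!
# MP_f1f412_co (C34): the octahedron, the reflected pattern
-/

set_option autoImplicit false

namespace Pool.Agent.MPf1f412

open Matrix

namespace oFlAux

theorem dsq_comm (x y : R3) : dsq x y = dsq y x := by
  simp only [dsq, dot_eq, Pi.sub_apply]
  ring

theorem pairs : ∀ i j : Fin 6, i ≠ j → j ≠ i + 3 → (i = 0 ∧ j ≠ 0 ∧ j ≠ 3) ∨
    (j = 0 ∧ i ≠ 0 ∧ i ≠ 3) ∨ (i = 3 ∧ j ≠ 0 ∧ j ≠ 3) ∨ (j = 3 ∧ i ≠ 0 ∧ i ≠ 3) ∨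
    (i = 1 ∧ j = 2) ∨ (i = 2 ∧ j = 1) ∨ (i = 2 ∧ j = 4) ∨ (i = 4 ∧ j = 2) ∨
    (i = 4 ∧ j = 5) ∨ (i = 5 ∧ j = 4) ∨ (i = 5 ∧ j = 1) ∨ (i = 1 ∧ j = 5) := by decide

end oFlAux

open oFlAux

theorem oFl (h1 : S_OId) (h2 : S_OPos) (h3 : S_OZ0) (h4 : S_OPl) (h5 : S_O3D) : S_OFl := by
  intro p hp h0
  obtain ⟨hX, hA, hd⟩ := h2 p hp
  obtain ⟨-, -, hal, -⟩ := h3 p (OL p 0 3) _ _ rfl rfl rfl
  have e12 := (h1 p 1 2 4).1
  have e24 := (h1 p 2 4 5).1
  have e45 := (h1 p 4 5 1).1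
  have e51 := (h1 p 5 1 2).1
  have e124 := (h1 p 1 2 4).2.1
  set X := OL p 0 3 with hXdef
  set d := Od p with hddef
  have hs : Real.sqrt X * Real.sqrt X = X := Real.mul_self_sqrt hX.le
  set s := Real.sqrt X with hsdef
  have hA1 := hA 1 (by decide) (by decide)
  have hA2 := hA 2 (by decide) (by decide)
  have hA4 := hA 4 (by decide) (by decide)
  have hA5 := hA 5 (by decide) (by decide)
  have d12 := hd 1 2 (by decide) (by decide) (by decide) (by decide) (by decide)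
  have d24 := hd 2 4 (by decide) (by decide) (by decide) (by decide) (by decide)
  have hal0 : OA (OL p) X 5 * (OB (OL p) X 1 2 * OB (OL p) X 2 4) -
      OA (OL p) X 2 * (OB (OL p) X 4 5 * OB (OL p) X 5 1) = 0 := h0
  rw [h0] at hal
  unfold OT at e12 e24 e45 e51
  obtain ⟨x, y, x1, x2, x4, x5, x12, x24, x45, x51, x14⟩ := h4 (OA (OL p) X 1) (OA (OL p) X 2)
    (OA (OL p) X 4) (OA (OL p) X 5) (OB (OL p) X 1 2) (OB (OL p) X 2 4) (OB (OL p) X 4 5)
    (OB (OL p) X 5 1) (-(s * d 1 2)) (s * d 2 4) (-(s * d 4 5)) (s * d 5 1) hA1.le hA2 hA4.le hA5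
    (by linear_combination (-1) * e12 + d 1 2 ^ 2 * hs)
    (by linear_combination (-1) * e24 + d 2 4 ^ 2 * hs)
    (by linear_combination (-1) * e45 + d 4 5 ^ 2 * hs)
    (by linear_combination (-1) * e51 + d 5 1 ^ 2 * hs)
    (by linear_combination hal0 - hal + (OA (OL p) X 5 * d 1 2 * d 2 4 -
      OA (OL p) X 2 * d 4 5 * d 5 1) * hs)
  obtain ⟨q, q03, q1, q12, q24, q45, q51, q14⟩ := h5 (OL p) X x y hX
    ⟨x1, x2, x4, x5, x12, x24, x45, x51⟩
  refine ⟨q, ?_, 1, 4, ?_⟩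
  · intro i j hij hij3
    rcases pairs i j hij hij3 with h | h | h | h | h | h | h | h | h | h | h | h
    · rw [h.1]
      exact (q1 j h.2.1 h.2.2).1
    · rw [h.1, dsq_comm, dsq_comm (p i)]
      exact (q1 i h.2.1 h.2.2).1
    · rw [h.1]
      exact (q1 j h.2.1 h.2.2).2
    · rw [h.1, dsq_comm, dsq_comm (p i)]
      exact (q1 i h.2.1 h.2.2).2
    · rw [h.1, h.2]
      exact q12
    · rw [h.1, h.2, dsq_comm, dsq_comm (p 2)]
      exact q12
    · rw [h.1, h.2]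
      exact q24
    · rw [h.1, h.2, dsq_comm, dsq_comm (p 4)]
      exact q24
    · rw [h.1, h.2]
      exact q45
    · rw [h.1, h.2, dsq_comm, dsq_comm (p 5)]
      exact q45
    · rw [h.1, h.2]
      exact q51
    · rw [h.1, h.2, dsq_comm, dsq_comm (p 1)]
      exact q51
  · intro he
    have hL14 : OL p 1 4 = dsq (q 1) (q 4) := he.symm
    have hB14 : OB (OL p) X 1 4 = X * (OL p 0 1 + OL p 0 4 - OL p 1 4) / 2 -
        (X + OL p 0 1 - OL p 3 1) * (X + OL p 0 4 - OL p 3 4) / 4 := rfl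
    rw [hL14] at hB14
    have h6 : X * (d 1 2 * d 2 4) = 0 := by
      have h7 : x 1 * x 4 + y 1 * y 4 = OB (OL p) X 1 4 := by
        linear_combination (1 / 2) * q14 - hB14
      rw [h7] at x14
      linear_combination (-1 / 2) * e124 + (-1 / 2) * x14 + (1 / 2) * d 1 2 * d 2 4 * (-1) * hs
    rcases mul_eq_zero.1 h6 with h7 | h7
    · exact hX.ne' h7
    · rcases mul_eq_zero.1 h7 with h8 | h8
      · exact d12 h8
      · exact d24 h8

end Pool.Agent.MPf1f412
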