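import Pool.Agent.Lib.MP_f1f412_co.SpecO

/-! C34, module OHx (SpecO): the hexagon -/

set_option autoImplicit false

namespace Pool.Agent.MPf1f412

open Matrix

private theorem ohx_adj (i j : Fin 6) : OHexG.Adj i j ↔ j = i + 1 ∨ i = j + 1 := Iff.rfl

private theorem ohx_walk {J : Type} (f : Fin 6 → J) (i : Fin 6)
    (h : ∀ j, f j = f i → f (j + 1) = f i) (j : Fin 6) : f j = f i := by
  have key : ∀ n : ℕ, f ((fun a : Fin 6 => a + 1)^[n] i) = f i := by
    intro n
    induction n with
    | zero => rfl
    | succ n ih =>
      rw [Function.iterate_succ_apply']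
      exact h _ ih
  have h2 : ∀ i j : Fin 6, ∃ n < 6, (fun a : Fin 6 => a + 1)^[n] i = j := by decide
  obtain ⟨n, _, hn⟩ := h2 i j
  rw [← hn]
  exact key n

theorem oHx : S_OHx := by
  refine ⟨?_, ?_⟩
  · show ∀ a b c : Fin 6, ¬ ((b = a + 1 ∨ a = b + 1) ∧ (c = b + 1 ∨ b = c + 1) ∧
      (a = c + 1 ∨ c = a + 1))
    decide
  · intro J f
    classical
    set R : Set J := f '' Set.univ with hR
    set E : Set (Sym2 (Fin 6)) := {z : Sym2 (Fin 6) | ∃ u w, z = s(u, w) ∧
      Cre OHexG id Set.univ u w ∧ f (id u) ≠ f (id w)} with hE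
    have hsf : sf OHexG id Set.univ f = 5 * (E.ncard : ℤ) - 6 * ((R.ncard : ℤ) - 1) := rfl
    have hRfin : R.Finite := Set.toFinite _
    have hR6 : R.ncard ≤ 6 := by
      have h1 : R.ncard ≤ (Set.univ : Set (Fin 6)).ncard := Set.ncard_image_le (Set.toFinite _)
      rwa [Set.ncard_univ, Nat.card_eq_fintype_card, Fintype.card_fin] at h1
    rw [hsf]
    by_cases hk : R.ncard ≤ 1
    · have h1 : (R.ncard : ℤ) ≤ 1 := by exact_mod_cast hk
      have h2 : (0 : ℤ) ≤ (E.ncard : ℤ) := Int.natCast_nonneg _
      linarith
    · -- for every value a crossing edge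
      have hex : ∀ t ∈ R, ∃ i, f i = t ∧ f (i + 1) ≠ t := by
        rintro t ⟨i, _, rfl⟩
        by_contra hcon
        push Not at hcon
        apply hk
        have hc := ohx_walk f i hcon
        have hsub : R ⊆ {f i} := by
          rintro _ ⟨j, _, rfl⟩
          exact hc j
        have := Set.ncard_le_ncard hsub (Set.finite_singleton _)
        rwa [Set.ncard_singleton] at this
      choose! g hg1 hg2 using hex
      have hEfin : E.Finite := Set.toFinite _
      have hle : R.ncard ≤ E.ncard := by
        refine Set.ncard_le_ncard_of_injOn (fun t => s(g t, g t + 1)) ?_ ?_ hEfin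
        · intro t ht
          refine ⟨g t, g t + 1, rfl, ⟨Or.inl rfl, trivial, trivial, ?_⟩, ?_⟩
          · intro h
            have h' : g t = g t + 1 := h
            apply hg2 t ht
            rw [← h', hg1 t ht]
          · intro h
            have h' : f (g t) = f (g t + 1) := h
            exact hg2 t ht (h'.symm.trans (hg1 t ht))
        · intro t ht t' ht' h
          have h' : s(g t, g t + 1) = s(g t', g t' + 1) := h
          rw [Sym2.eq_iff] at h'
          have hgg : g t = g t' := by
            rcases h' with h' | ⟨h1, h2⟩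
            · exact h'.1
            · exfalso
              rw [h1] at h2
              revert h2
              generalize g t' = a
              revert a
              decide
          rw [← hg1 t ht, hgg, hg1 t' ht']
      have h1 : (R.ncard : ℤ) ≤ (E.ncard : ℤ) := by exact_mod_cast hle
      have h2 : (R.ncard : ℤ) ≤ 6 := by exact_mod_cast hR6
      linarith

end Pool.Agent.MPf1f412
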