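import Pool.Agent.Lib.MP_f1f412_co.SpecO

/-!
# MP_f1f412_co (C34), OId: the polynomial identities of four vectors
-/

set_option autoImplicit false

namespace Pool.Agent.MPf1f412

open Matrix

namespace oIdAux

theorem a_eq (x y u : R3) : Oa (dsq x y) (dsq x u) (dsq y u) =
    ((y - x) ⬝ᵥ (y - x)) * ((u - x) ⬝ᵥ (u - x)) - ((u - x) ⬝ᵥ (y - x)) ^ 2 := by
  have h : dsq x y + dsq x u - dsq y u = 2 * ((u - x) ⬝ᵥ (y - x)) := by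
    simp only [dsq, dot_eq, Pi.sub_apply]
    ring
  have h1 : dsq x y = (y - x) ⬝ᵥ (y - x) := by
    simp only [dsq, dot_eq, Pi.sub_apply]
    ring
  have h2 : dsq x u = (u - x) ⬝ᵥ (u - x) := by
    simp only [dsq, dot_eq, Pi.sub_apply]
    ring
  rw [Oa, h, h1, h2]
  ring

theorem b_eq (x y u v : R3) : Ob (dsq x y) (dsq x u) (dsq y u) (dsq x v) (dsq y v) (dsq u v) =
    ((y - x) ⬝ᵥ (y - x)) * ((u - x) ⬝ᵥ (v - x)) -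
      ((u - x) ⬝ᵥ (y - x)) * ((v - x) ⬝ᵥ (y - x)) := by
  have h : dsq x y + dsq x u - dsq y u = 2 * ((u - x) ⬝ᵥ (y - x)) := by
    simp only [dsq, dot_eq, Pi.sub_apply]
    ring
  have h' : dsq x y + dsq x v - dsq y v = 2 * ((v - x) ⬝ᵥ (y - x)) := by
    simp only [dsq, dot_eq, Pi.sub_apply]
    ring
  have h1 : dsq x y = (y - x) ⬝ᵥ (y - x) := by
    simp only [dsq, dot_eq, Pi.sub_apply]
    ring
  have h2 : dsq x u + dsq x v - dsq u v = 2 * ((u - x) ⬝ᵥ (v - x)) := by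
    simp only [dsq, dot_eq, Pi.sub_apply]
    ring
  rw [Ob, h, h', h1, h2]
  ring

/-- the product of two determinants -/
theorem gramDet (e u v w z : R3) : (cr e u ⬝ᵥ v) * (cr e w ⬝ᵥ z) =
    (e ⬝ᵥ e) * ((u ⬝ᵥ w) * (v ⬝ᵥ z) - (u ⬝ᵥ z) * (v ⬝ᵥ w)) -
    (e ⬝ᵥ w) * ((u ⬝ᵥ e) * (v ⬝ᵥ z) - (u ⬝ᵥ z) * (v ⬝ᵥ e)) +
    (e ⬝ᵥ z) * ((u ⬝ᵥ e) * (v ⬝ᵥ w) - (u ⬝ᵥ w) * (v ⬝ᵥ e)) := by
  simp only [dot_eq, cr_zero, cr_one, cr_two]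
  ring

theorem third (e u v z : R3) :
    (cr e u ⬝ᵥ v) * ((e ⬝ᵥ e) * (v ⬝ᵥ z) - (v ⬝ᵥ e) * (z ⬝ᵥ e)) +
      ((e ⬝ᵥ e) * (u ⬝ᵥ v) - (u ⬝ᵥ e) * (v ⬝ᵥ e)) * (cr e v ⬝ᵥ z) =
    ((e ⬝ᵥ e) * (v ⬝ᵥ v) - (v ⬝ᵥ e) ^ 2) * (cr e u ⬝ᵥ z) := by
  simp only [dot_eq, cr_zero, cr_one, cr_two]
  ring

theorem fourth (e u : R3) :
    (e ⬝ᵥ e) * (u ⬝ᵥ u) - (u ⬝ᵥ e) ^ 2 = cr e u ⬝ᵥ cr e u := by
  simp only [dot_eq, cr_zero, cr_one, cr_two]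
  ring

end oIdAux

open oIdAux in
theorem oId : S_OId := by
  intro p w v z
  have hX : OL p 0 3 = (p 3 - p 0) ⬝ᵥ (p 3 - p 0) := by
    simp only [OL, dsq, dot_eq, Pi.sub_apply]
    ring
  have hA : ∀ w, OA (OL p) (OL p 0 3) w = ((p 3 - p 0) ⬝ᵥ (p 3 - p 0)) *
      ((p w - p 0) ⬝ᵥ (p w - p 0)) - ((p w - p 0) ⬝ᵥ (p 3 - p 0)) ^ 2 :=
    fun w => a_eq (p 0) (p 3) (p w)
  have hB : ∀ w v, OB (OL p) (OL p 0 3) w v = ((p 3 - p 0) ⬝ᵥ (p 3 - p 0)) *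
      ((p w - p 0) ⬝ᵥ (p v - p 0)) - ((p w - p 0) ⬝ᵥ (p 3 - p 0)) *
      ((p v - p 0) ⬝ᵥ (p 3 - p 0)) :=
    fun w v => b_eq (p 0) (p 3) (p w) (p v)
  simp only [OT, hA, hB, Od]
  simp only [hX]
  generalize p 3 - p 0 = e
  generalize p w - p 0 = u
  generalize p v - p 0 = x
  generalize p z - p 0 = y
  refine ⟨?_, ?_, third e u x y, fourth e u⟩
  · rw [pow_two (cr e u ⬝ᵥ x), gramDet, dotProduct_comm u e, dotProduct_comm x e,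
      dotProduct_comm x u]
    ring
  · rw [gramDet, dotProduct_comm u e, dotProduct_comm x e, dotProduct_comm y e]
    ring

end Pool.Agent.MPf1f412
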