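import Pool.Agent.Lib.MP_f1f412_co.SpecO

/-!
# MP_f1f412_co (C34), OKN: velocities at three points which preserve the distances come from a twist
-/

set_option autoImplicit false

namespace Pool.Agent.MPf1f412

open Matrix

namespace oKNAux

theorem basis_id (e f a : R3) : (cr e f ⬝ᵥ cr e f) • a = (a ⬝ᵥ cr e f) • cr e f +
    (a ⬝ᵥ e) • ((f ⬝ᵥ f) • e - (e ⬝ᵥ f) • f) + (a ⬝ᵥ f) • ((e ⬝ᵥ e) • f - (e ⬝ᵥ f) • e) := by
  apply r3_ext <;> simp only [dot_eq, cr_zero, cr_one, cr_two, Pi.add_apply, Pi.sub_apply,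
    Pi.smul_apply, smul_eq_mul] <;> ring

theorem cr_e (e f : R3) (a b c : ℝ) : cr (a • e - b • f + c • cr e f) e =
    b • cr e f + c • ((e ⬝ᵥ e) • f - (e ⬝ᵥ f) • e) := by
  apply r3_ext <;> simp only [dot_eq, cr_zero, cr_one, cr_two, Pi.add_apply, Pi.sub_apply,
    Pi.smul_apply, smul_eq_mul] <;> ring

theorem cr_f (e f : R3) (a b c : ℝ) : cr (a • e - b • f + c • cr e f) f =
    a • cr e f - c • ((f ⬝ᵥ f) • e - (e ⬝ᵥ f) • f) := by
  apply r3_ext <;> simp only [dot_eq, cr_zero, cr_one, cr_two, Pi.add_apply, Pi.sub_apply,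
    Pi.smul_apply, smul_eq_mul] <;> ring

/-- the vector version -/
theorem vecForm (e f a b : R3) (h : cr e f ≠ 0) (h1 : a ⬝ᵥ e = 0) (h2 : b ⬝ᵥ f = 0)
    (h3 : b ⬝ᵥ e = - (a ⬝ᵥ f)) : ∃ ω : R3, cr ω e = a ∧ cr ω f = b := by
  have hr : cr e f ⬝ᵥ cr e f ≠ 0 := fun h' => h (dot_self_eq_zero h')
  refine ⟨(cr e f ⬝ᵥ cr e f)⁻¹ • ((b ⬝ᵥ cr e f) • e - (a ⬝ᵥ cr e f) • f +
    (a ⬝ᵥ f) • cr e f), ?_, ?_⟩
  · have h4 := basis_id e f a
    rw [h1, zero_smul, add_zero] at h4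
    rw [cr_smul_left, cr_e, ← h4, smul_smul, inv_mul_cancel₀ hr, one_smul]
  · have h4 := basis_id e f b
    rw [h2, zero_smul, add_zero, h3, neg_smul, ← sub_eq_add_neg] at h4
    rw [cr_smul_left, cr_f, ← h4, smul_smul, inv_mul_cancel₀ hr, one_smul]

end oKNAux

open oKNAux in
theorem oKN : S_OKN := by
  intro x y z u v w h h1 h2 h3
  obtain ⟨ω, e1, e2⟩ := vecForm (y - x) (z - x) (v - u) (w - u) h
    (by simp only [dot_eq, Pi.sub_apply] at h1 ⊢; linarith)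
    (by simp only [dot_eq, Pi.sub_apply] at h3 ⊢; linarith)
    (by simp only [dot_eq, Pi.sub_apply] at h1 h2 h3 ⊢; linarith)
  refine ⟨(ω, u - cr ω x), ?_, ?_, ?_⟩
  · change cr ω x + (u - cr ω x) = u
    abel
  · change cr ω y + (u - cr ω x) = v
    rw [cr_sub_right] at e1
    calc cr ω y + (u - cr ω x) = (cr ω y - cr ω x) + u := by abel
      _ = v := by rw [e1, sub_add_cancel]
  · change cr ω z + (u - cr ω x) = w
    rw [cr_sub_right] at e2
    calc cr ω z + (u - cr ω x) = (cr ω z - cr ω x) + u := by abel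
      _ = w := by rw [e2, sub_add_cancel]

end Pool.Agent.MPf1f412
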