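import Pool.Agent.Lib.MP_f1f412_co.SpecO

/-!
# MP_f1f412_co (C34), ONz: the derivative is not zero
-/

set_option autoImplicit false

namespace Pool.Agent.MPf1f412

open Matrix

theorem oNz (h1 : S_OId) (h2 : S_OPos) (h3 : S_OZ0) (h4 : S_ODe) (h5 : S_ODv) : S_ONz := by
  intro p hp hα hF
  obtain ⟨hX, hA, hd⟩ := h2 p hp
  obtain ⟨k1, k2, k3, k4⟩ := h3 p (OL p 0 3) _ _ rfl rfl rfl
  obtain ⟨D, hD, hD0⟩ := h4 p hp
  have k5 := (h5 (OL p) (OL p 0 3)).2 D hD
    (hD0 1 2 (by decide) (by decide) (by decide) (by decide))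
    (hD0 2 4 (by decide) (by decide) (by decide) (by decide))
    (hD0 5 1 (by decide) (by decide) (by decide) (by decide))
    (fun w hw0 hw3 => ⟨hD0 0 w (Ne.symm hw0) (by simpa using hw3) (by simp) (by simp),
      hD0 3 w (Ne.symm hw3) (by simpa using hw0) (by simp) (by simp)⟩)
  rw [k4, map_zero, hF, zero_mul, zero_add, k1, k2, k3] at k5
  have hT := (h1 p 5 1 0).1
  have hI := (h1 p 4 5 1).2.2.1
  have d12 := hd 1 2 (by decide) (by decide) (by decide) (by decide) (by decide)
  have d24 := hd 2 4 (by decide) (by decide) (by decide) (by decide) (by decide)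
  have d51 := hd 5 1 (by decide) (by decide) (by decide) (by decide) (by decide)
  have d41 := hd 4 1 (by decide) (by decide) (by decide) (by decide) (by decide)
  have A2 := hA 2 (by decide) (by decide)
  have A5 := hA 5 (by decide) (by decide)
  rw [k3] at hα
  rw [Oad, Ogd, hT] at k5
  generalize OL p 0 3 = X at *
  generalize Od p 1 2 = x12 at *
  generalize Od p 2 4 = x24 at *
  generalize Od p 4 5 = x45 at *
  generalize Od p 5 1 = x51 at *
  generalize Od p 4 1 = x41 at *
  generalize OA (OL p) X 2 = a2 at *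
  generalize OA (OL p) X 5 = a5 at *
  generalize OB (OL p) X 5 1 = b51 at *
  generalize OB (OL p) X 4 5 = b45 at *
  have hb : a5 * (X * (x12 * x24)) ≠ 0 := mul_ne_zero A5.ne' (mul_ne_zero hX.ne'
    (mul_ne_zero d12 d24))
  have key : (4 * (a5 * (X * (x12 * x24))) * (a5 * (X * (x12 * x24)) - a2 * (X * (x45 * x51)))) *
      (X ^ 2 * a2 ^ 2 * x51 * (a5 * x41)) = 0 := by
    rw [← hI]
    linear_combination k5
  have hne : X ^ 2 * a2 ^ 2 * x51 * (a5 * x41) ≠ 0 :=
    mul_ne_zero (mul_ne_zero (mul_ne_zero (pow_ne_zero _ hX.ne') (pow_ne_zero _ A2.ne')) d51)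
      (mul_ne_zero A5.ne' d41)
  rcases mul_eq_zero.1 key with h6 | h6
  · rcases mul_eq_zero.1 h6 with h7 | h7
    · rcases mul_eq_zero.1 h7 with h8 | h8
      · norm_num at h8
      · exact hb h8
    · exact hα h7
  · exact hne h6

end Pool.Agent.MPf1f412
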