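import Pool.Agent.Lib.MP_f1f412_co.SpecO

/-!
# MP_f1f412_co (C34): one more point in the plane (`S_OP2`)
-/

set_option autoImplicit false

namespace Pool.Agent.MPf1f412

open Matrix

theorem oP2 : S_OP2 := by
  intro A A' B s x y hA' hA h
  by_cases h0 : A = 0
  · rw [h0] at hA h
    have hx : x = 0 := by nlinarith [sq_nonneg x, sq_nonneg y]
    have hy : y = 0 := by nlinarith [sq_nonneg x, sq_nonneg y]
    have hB : B = 0 := by nlinarith [sq_nonneg B, sq_nonneg s]
    have hs : s = 0 := by nlinarith [sq_nonneg B, sq_nonneg s]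
    refine ⟨√A', 0, ?_, ?_, ?_⟩
    · rw [Real.sq_sqrt hA']; ring
    · rw [hx, hy, hB]; ring
    · rw [hx, hy, hs]; ring
  · refine ⟨(x * B + y * s) / A, (y * B - x * s) / A, ?_, ?_, ?_⟩
    · rw [div_pow, div_pow, ← add_div, div_eq_iff (pow_ne_zero 2 h0)]
      linear_combination (B ^ 2 + s ^ 2) * hA + A * h
    · rw [mul_div_assoc', mul_div_assoc', ← add_div, div_eq_iff h0]
      linear_combination B * hA
    · rw [mul_div_assoc', mul_div_assoc', ← sub_div, div_eq_iff h0]
      linear_combination s * hA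

end Pool.Agent.MPf1f412
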