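import Pool.Agent.Lib.MP_f1f412_co.SpecO

/-!
# MP_f1f412_co (C34): a planar 4-cycle with given scalar products (S_OPl)
-/

set_option autoImplicit false

namespace Pool.Agent.MPf1f412

open Matrix

namespace oPlAux

theorem fin (A1 A2 A4 A5 B12 B24 B45 B51 x1 y1 x2 y2 x4 y4 x5 y5 R : ℝ)
    (h1 : x1 ^ 2 + y1 ^ 2 = A1) (h2 : x2 ^ 2 + y2 ^ 2 = A2) (h4 : x4 ^ 2 + y4 ^ 2 = A4)
    (h5 : x5 ^ 2 + y5 ^ 2 = A5) (h12 : x1 * x2 + y1 * y2 = B12) (h24 : x2 * x4 + y2 * y4 = B24)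
    (h45 : x4 * x5 + y4 * y5 = B45) (h51 : x5 * x1 + y5 * y1 = B51)
    (hR : A2 * (x1 * x4 + y1 * y4) = R) :
    ∃ x y : Fin 6 → ℝ,
    x 1 ^ 2 + y 1 ^ 2 = A1 ∧ x 2 ^ 2 + y 2 ^ 2 = A2 ∧ x 4 ^ 2 + y 4 ^ 2 = A4 ∧
    x 5 ^ 2 + y 5 ^ 2 = A5 ∧ x 1 * x 2 + y 1 * y 2 = B12 ∧ x 2 * x 4 + y 2 * y 4 = B24 ∧
    x 4 * x 5 + y 4 * y 5 = B45 ∧ x 5 * x 1 + y 5 * y 1 = B51 ∧
    A2 * (x 1 * x 4 + y 1 * y 4) = R :=
  ⟨![0, x1, x2, 0, x4, x5], ![0, y1, y2, 0, y4, y5], h1, h2, h4, h5, h12, h24, h45, h51, hR⟩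

end oPlAux

open oPlAux

theorem oPl (h1 : S_OP2) : S_OPl := by
  intro A1 A2 A4 A5 B12 B24 B45 B51 s12 s24 s45 s51 hA1 hA2 hA4 hA5 e12 e24 e45 e51 hm
  have hr0 : Real.sqrt A2 ^ 2 = A2 := Real.sq_sqrt hA2.le
  have hr1 : 0 < Real.sqrt A2 := Real.sqrt_pos.mpr hA2
  generalize Real.sqrt A2 = r at hr0 hr1
  have hr : r ≠ 0 := hr1.ne'
  have hA2' : A2 ≠ 0 := hA2.ne'
  have hA5' : A5 ≠ 0 := hA5.ne'
  obtain ⟨x1, hx1⟩ : ∃ x1, r * x1 = B12 := ⟨B12 / r, by field_simp⟩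
  obtain ⟨y1, hy1⟩ : ∃ y1, r * y1 = s12 := ⟨s12 / r, by field_simp⟩
  obtain ⟨x4, hx4⟩ : ∃ x4, r * x4 = B24 := ⟨B24 / r, by field_simp⟩
  obtain ⟨y4, hy4⟩ : ∃ y4, r * y4 = -s24 := ⟨-s24 / r, by field_simp⟩
  have f1 : x1 ^ 2 + y1 ^ 2 = A1 := by
    apply mul_left_cancel₀ hA2'
    rw [← hr0]
    linear_combination (r * x1 + B12) * hx1 + (r * y1 + s12) * hy1 + e12 - A1 * hr0
  have f4 : x4 ^ 2 + y4 ^ 2 = A4 := by
    apply mul_left_cancel₀ hA2'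
    rw [← hr0]
    linear_combination (r * x4 + B24) * hx4 + (r * y4 - s24) * hy4 + e24 - A4 * hr0
  have hP : A2 * (x1 * x4 + y1 * y4) = B12 * B24 - s12 * s24 := by
    rw [← hr0]
    linear_combination (r * x4) * hx1 + B12 * hx4 + (r * y4) * hy1 + s12 * hy4
  have hc : A2 * (y1 * x4 - x1 * y4) = s12 * B24 + B12 * s24 := by
    rw [← hr0]
    linear_combination (r * x4) * hy1 + s12 * hx4 - (r * y4) * hx1 - B12 * hy4
  obtain ⟨P, hPd⟩ : ∃ P, P = x1 * x4 + y1 * y4 := ⟨_, rfl⟩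
  obtain ⟨c, hcd⟩ : ∃ c, c = y1 * x4 - x1 * y4 := ⟨_, rfl⟩
  rw [← hPd] at hP
  rw [← hcd] at hc
  have hPc : P ^ 2 + c ^ 2 = A1 * A4 := by
    rw [hPd, hcd, ← f1, ← f4]
    ring
  have hP5 : A5 * P = B45 * B51 - s45 * s51 := by
    apply mul_left_cancel₀ hA2'
    rw [← hm, ← hP]
    ring
  obtain ⟨I, hI⟩ : ∃ I, A5 * I = s45 * B51 + B45 * s51 :=
    ⟨(s45 * B51 + B45 * s51) / A5, by field_simp⟩
  have hIc : I ^ 2 = c ^ 2 := by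
    have h2 : A5 ^ 2 * (P ^ 2 + I ^ 2) = A5 ^ 2 * (A1 * A4) := by
      have h3 : A5 ^ 2 * (P ^ 2 + I ^ 2) = (A5 * P) ^ 2 + (A5 * I) ^ 2 := by ring
      rw [h3, hP5, hI]
      linear_combination (B51 ^ 2 + s51 ^ 2) * e45 + (A4 * A5) * e51
    have h4 := mul_left_cancel₀ (pow_ne_zero 2 hA5') h2
    linear_combination h4 - hPc
  obtain ⟨t45, t51, ht1, ht2, ht3⟩ : ∃ t45 t51, t45 ^ 2 = s45 ^ 2 ∧ t45 * t51 = s45 * s51 ∧
      t45 * B51 + B45 * t51 = - (A5 * c) := by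
    rcases sq_eq_sq_iff_eq_or_eq_neg.mp hIc with h | h
    · refine ⟨-s45, -s51, by ring, by ring, ?_⟩
      rw [← h, hI]
      ring
    · refine ⟨s45, s51, rfl, rfl, ?_⟩
      rw [← hI, h]
      ring
  rcases hA4.lt_or_eq with h4 | h4
  · have e45' : B45 ^ 2 + t45 ^ 2 = A4 * A5 := by rw [ht1]; exact e45
    obtain ⟨x5, y5, g1, g2, g3⟩ := h1 A4 A5 B45 t45 x4 y4 hA5.le f4 e45'
    refine fin A1 A2 A4 A5 B12 B24 B45 B51 x1 y1 r 0 x4 y4 x5 y5 _ f1 (by rw [← hr0]; ring) f4 g1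
      (by linear_combination hx1) (by linear_combination hx4) g2 ?_ (by rw [← hPd]; exact hP)
    have h6 : A4 * (x5 * x1 + y5 * y1) = B45 * P - t45 * c := by
      rw [hPd, hcd, ← f4, ← g2, ← g3]
      ring
    have h7 : A5 * A4 ≠ 0 := mul_ne_zero hA5' h4.ne'
    apply mul_left_cancel₀ h7
    have h8 : A5 * P = B45 * B51 - t45 * t51 := by rw [ht2]; exact hP5
    calc A5 * A4 * (x5 * x1 + y5 * y1) = A5 * (A4 * (x5 * x1 + y5 * y1)) := by ring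
      _ = A5 * (B45 * P - t45 * c) := by rw [h6]
      _ = B45 * (A5 * P) + t45 * (-(A5 * c)) := by ring
      _ = B45 * (B45 * B51 - t45 * t51) + t45 * (t45 * B51 + B45 * t51) := by rw [h8, ht3]
      _ = (B45 ^ 2 + t45 ^ 2) * B51 := by ring
      _ = A5 * A4 * B51 := by rw [e45']; ring
  · have hz : ∀ a b : ℝ, a ^ 2 + b ^ 2 = 0 → a = 0 ∧ b = 0 := by
      intro a b hab
      have h5 := (add_eq_zero_iff_of_nonneg (sq_nonneg a) (sq_nonneg b)).mp hab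
      exact ⟨pow_eq_zero_iff two_ne_zero |>.mp h5.1, pow_eq_zero_iff two_ne_zero |>.mp h5.2⟩
    obtain ⟨hx4', hy4'⟩ := hz x4 y4 (f4.trans h4.symm)
    obtain ⟨hB45, -⟩ := hz B45 s45 (by rw [e45, ← h4, zero_mul])
    obtain ⟨x5, y5, g1, g2, -⟩ := h1 A1 A5 B51 s51 x1 y1 hA5.le f1 (by rw [e51]; ring)
    refine fin A1 A2 A4 A5 B12 B24 B45 B51 x1 y1 r 0 x4 y4 x5 y5 _ f1 (by rw [← hr0]; ring) f4 g1
      (by linear_combination hx1) (by linear_combination hx4) (by rw [hx4', hy4', hB45]; ring)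
      (by linear_combination g2)
      (by rw [← hPd]; exact hP)

end Pool.Agent.MPf1f412
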