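import Pool.Agent.Lib.MP_f1f412_co.SpecO

/-!
# MP_f1f412_co (C34): positivity for a generic configuration (`S_OPos`)
-/

set_option autoImplicit false

namespace Pool.Agent.MPf1f412

open Matrix

namespace oPosAux

theorem pos {x : R3} (h : x ≠ 0) : 0 < x ⬝ᵥ x := by
  have h1 : 0 ≤ x ⬝ᵥ x := by
    rw [dot_eq]
    nlinarith [sq_nonneg (x 0), sq_nonneg (x 1), sq_nonneg (x 2)]
  exact lt_of_le_of_ne h1 fun h2 => h (dot_self_eq_zero h2.symm)

end oPosAux

open oPosAux in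
theorem oPos (hId : S_OId) : S_OPos := by
  intro p hp
  refine ⟨pos (sub_ne_zero.2 (hp.inj (by decide))), fun w h0 h3 => ?_,
    fun w v hw0 hw3 hv0 hv3 hwv => ?_⟩
  · rw [(hId p w w w).2.2.2]
    exact pos (hp.gp3 (by decide) (Ne.symm h0) (Ne.symm h3))
  · exact hp.gp4 (by decide) (Ne.symm hw0) (Ne.symm hv0) (Ne.symm hw3) (Ne.symm hv3) hwv

end Pool.Agent.MPf1f412
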