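import Pool.Agent.Lib.MP_f1f412_co.SpecO

/-!
# MP_f1f412_co (C34): zeros of OF give planar configurations (S_ORe)
-/

set_option autoImplicit false

namespace Pool.Agent.MPf1f412

open Matrix

namespace oReAux

theorem factor {α b g : ℝ} (h : (α ^ 2 + b ^ 2 - g ^ 2) ^ 2 - 4 * (α ^ 2 * b ^ 2) = 0) :
    ∃ σ τ : ℝ, σ ^ 2 = 1 ∧ τ ^ 2 = 1 ∧ α = σ * b + τ * g := by
  have h1 : (α - b - g) * (α - b + g) * ((α + b - g) * (α + b + g)) = 0 := by
    rw [← h]; ring
  rcases mul_eq_zero.mp h1 with h2 | h2 <;> rcases mul_eq_zero.mp h2 with h3 | h3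
  · exact ⟨1, 1, by norm_num, by norm_num, by linarith⟩
  · exact ⟨1, -1, by norm_num, by norm_num, by linarith⟩
  · exact ⟨-1, 1, by norm_num, by norm_num, by linarith⟩
  · exact ⟨-1, -1, by norm_num, by norm_num, by linarith⟩

theorem sq0 {b : ℝ} (h : 0 ≤ 0 - b ^ 2) : b = 0 := by
  have := sq_nonneg b
  exact pow_eq_zero_iff (two_ne_zero) |>.mp (le_antisymm (by linarith) this)

end oReAux

open oReAux

theorem oRe (h1 : S_OP2) (h2 : S_OPl) : S_ORe := by
  intro L X hN hF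
  obtain ⟨a1, a2, a4, a5, t12, t24, t45, t51⟩ := hN
  unfold OF Oal Obe Oga at hF
  have u12 : OT L X 1 2 = OA L X 1 * OA L X 2 - OB L X 1 2 ^ 2 := rfl
  have u24 : OT L X 2 4 = OA L X 2 * OA L X 4 - OB L X 2 4 ^ 2 := rfl
  have u45 : OT L X 4 5 = OA L X 4 * OA L X 5 - OB L X 4 5 ^ 2 := rfl
  have u51 : OT L X 5 1 = OA L X 5 * OA L X 1 - OB L X 5 1 ^ 2 := rfl
  unfold OPlan
  generalize OT L X 1 2 = T12 at *
  generalize OT L X 2 4 = T24 at *
  generalize OT L X 4 5 = T45 at *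
  generalize OT L X 5 1 = T51 at *
  generalize OB L X 1 2 = B12 at *
  generalize OB L X 2 4 = B24 at *
  generalize OB L X 4 5 = B45 at *
  generalize OB L X 5 1 = B51 at *
  generalize OA L X 1 = A1 at *
  generalize OA L X 2 = A2 at *
  generalize OA L X 4 = A4 at *
  generalize OA L X 5 = A5 at *
  rcases a2.lt_or_eq with p2 | p2
  · rcases a5.lt_or_eq with p5 | p5
    · have q12 := Real.sq_sqrt t12
      have q24 := Real.sq_sqrt t24
      have q45 := Real.sq_sqrt t45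
      have q51 := Real.sq_sqrt t51
      generalize Real.sqrt T12 = w12 at *
      generalize Real.sqrt T24 = w24 at *
      generalize Real.sqrt T45 = w45 at *
      generalize Real.sqrt T51 = w51 at *
      obtain ⟨σ, τ, hσ, hτ, hα⟩ := factor (α := A5 * (B12 * B24) - A2 * (B45 * B51))
        (b := A5 * (w12 * w24)) (g := A2 * (w45 * w51)) (by
          rw [← hF, ← q12, ← q24, ← q45, ← q51]
          ring)
      obtain ⟨x, y, k1, k2, k4, k5, k12, k24, k45, k51, -⟩ := h2 A1 A2 A4 A5 B12 B24 B45 B51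
        w12 (σ * w24) w45 (-(τ * w51)) a1 p2 a4 p5 (by rw [q12, u12]; ring)
        (by
          have : (σ * w24) ^ 2 = T24 := by rw [mul_pow, hσ, one_mul, q24]
          rw [this, u24]; ring)
        (by rw [q45, u45]; ring)
        (by
          have : (-(τ * w51)) ^ 2 = T51 := by rw [neg_sq, mul_pow, hτ, one_mul, q51]
          rw [this, u51]; ring)
        (by linear_combination hα)
      exact ⟨x, y, k1, k2, k4, k5, k12, k24, k45, k51⟩
    · subst p5
      have hB45 : B45 = 0 := sq0 (by rw [u45, mul_zero] at t45; exact t45)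
      have hB51 : B51 = 0 := sq0 (by rw [u51, zero_mul] at t51; exact t51)
      subst hB45 hB51
      have q2 := Real.sq_sqrt a2
      generalize Real.sqrt A2 = r at *
      obtain ⟨x1, y1, g1, g2, -⟩ := h1 A2 A1 B12 (Real.sqrt T12) r 0 a1 (by rw [← q2]; ring)
        (by rw [Real.sq_sqrt t12, u12]; ring)
      obtain ⟨x4, y4, g3, g4, -⟩ := h1 A2 A4 B24 (Real.sqrt T24) r 0 a4 (by rw [← q2]; ring)
        (by rw [Real.sq_sqrt t24, u24]; ring)
      refine ⟨![0, x1, r, 0, x4, 0], ![0, y1, 0, 0, y4, 0], g1, ?_, g3, ?_, ?_, g4, ?_, ?_⟩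
      · show r ^ 2 + 0 ^ 2 = A2
        rw [← q2]; ring
      · show (0 : ℝ) ^ 2 + 0 ^ 2 = 0
        norm_num
      · show x1 * r + y1 * 0 = B12
        linarith
      · show x4 * 0 + y4 * 0 = 0
        ring
      · show 0 * x1 + 0 * y1 = 0
        ring
  · subst p2
    have hB12 : B12 = 0 := sq0 (by rw [u12, mul_zero] at t12; exact t12)
    have hB24 : B24 = 0 := sq0 (by rw [u24, zero_mul] at t24; exact t24)
    subst hB12 hB24
    have q5 := Real.sq_sqrt a5
    generalize Real.sqrt A5 = r at *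
    obtain ⟨x4, y4, g1, g2, -⟩ := h1 A5 A4 B45 (Real.sqrt T45) r 0 a4 (by rw [← q5]; ring)
      (by rw [Real.sq_sqrt t45, u45]; ring)
    obtain ⟨x1, y1, g3, g4, -⟩ := h1 A5 A1 B51 (Real.sqrt T51) r 0 a1 (by rw [← q5]; ring)
      (by rw [Real.sq_sqrt t51, u51]; ring)
    refine ⟨![0, x1, 0, 0, x4, r], ![0, y1, 0, 0, y4, 0], g3, ?_, g1, ?_, ?_, ?_, ?_, g4⟩
    · show (0 : ℝ) ^ 2 + 0 ^ 2 = 0
      norm_num
    · show r ^ 2 + 0 ^ 2 = A5
      rw [← q5]; ring
    · show x1 * 0 + y1 * 0 = 0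
      ring
    · show 0 * x4 + 0 * y4 = 0
      ring
    · show x4 * r + y4 * 0 = B45
      linarith

end Pool.Agent.MPf1f412
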