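import Pool.Agent.Lib.MP_f1f412_co.SpecO

/-!
# MP_f1f412_co (C34): infinitesimal rigidity of the generic octahedron
-/

set_option autoImplicit false

namespace Pool.Agent.MPf1f412

open Matrix

theorem oRg (h1 : S_OKN) (h2 : S_OHx) (h3 : S_D0r) : S_ORg := by
  intro p v hp hv
  have hidx : ∀ i : Fin 6, i - 1 ≠ i ∧ i - 1 ≠ i + 1 ∧ i ≠ i + 1 ∧ i ≠ i - 1 + 3 ∧
      i + 1 ≠ i + 3 ∧ i + 1 ≠ i - 1 + 3 := by decide
  have hex : ∀ i : Fin 6, ∃ n : Tw, ev n (p (i - 1)) = v (i - 1) ∧ ev n (p i) = v i ∧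
      ev n (p (i + 1)) = v (i + 1) := by
    intro i
    obtain ⟨a1, a2, a3, a4, a5, a6⟩ := hidx i
    exact h1 _ _ _ _ _ _ (hp.gp3 a1 a2 a3) (hv _ _ a1 a4) (hv _ _ a3 a5) (hv _ _ a2 a6)
  choose m hm1 hm2 hm3 using hex
  have hmot : IsMot OHexG id p Set.univ m := by
    rw [isMot_iff_ev hp]
    intro u w huw
    rcases huw.1 with h | h
    · have h4 := hm1 w
      have h5 : w - 1 = u := by rw [h, add_sub_cancel_right]
      rw [h5] at h4
      exact (hm2 u).trans h4.symm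
    · have h4 := hm3 w
      rw [← h] at h4
      exact (hm2 u).trans h4.symm
  have hrig := (h3 (Fin 6) (Fin 6) OHexG id p Set.univ 0 (Set.toFinite _) hp h2.1 (fun J f => by
    have := h2.2 J f
    rw [Nat.cast_zero, neg_zero]
    exact this)).2 rfl
  refine ⟨m 0, fun i => ?_⟩
  rw [hrig m hmot 0 (Set.mem_univ _) i (Set.mem_univ _)]
  exact (hm2 i).symm

end Pool.Agent.MPf1f412
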