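import Pool.Agent.Lib.MP_f1f412_co.SpecO

set_option autoImplicit false

namespace Pool.Agent.MPf1f412

open Matrix

private theorem oZ0_dsq (x y : R3) : dsq x y = dsq y x := by
  unfold dsq
  rw [dot_eq, dot_eq]
  simp only [Pi.sub_apply]
  ring

private theorem oZ0_symm (p : Fin 6 → R3) (X : ℝ) (w v : Fin 6) :
    OB (OL p) X w v = OB (OL p) X v w := by
  have h : OL p w v = OL p v w := oZ0_dsq _ _
  unfold OB Ob
  rw [h]
  ring

theorem oZ0 (h1 : S_OId) : S_OZ0 := by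
  intro p X b g hX hb hg
  obtain ⟨a1, a2, -, -⟩ := h1 p 1 2 4
  obtain ⟨b1, -, -, -⟩ := h1 p 2 4 5
  obtain ⟨c1, c2, -, -⟩ := h1 p 4 5 1
  obtain ⟨d1, -, -, -⟩ := h1 p 5 1 2
  rw [← hX] at a1 a2 b1 c1 c2 d1
  have e1 : Obe (OL p) X = b ^ 2 := by
    unfold Obe
    rw [a1, b1, hb]
    ring
  have e2 : Oga (OL p) X = g ^ 2 := by
    unfold Oga
    rw [c1, d1, hg]
    ring
  have e3 : Oal (OL p) X = b - g := by
    unfold Oal
    rw [oZ0_symm p X 4 1] at c2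
    rw [hb, hg]
    linear_combination OA (OL p) X 5 * a2 - OA (OL p) X 2 * c2
  refine ⟨e1, e2, e3, ?_⟩
  unfold OF
  rw [e1, e2, e3]
  ring

end Pool.Agent.MPf1f412
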