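import Pool.Agent.Lib.MP_f1f412_co.SpecO

/-!
# MP_f1f412_co (C34): another zero of OF (S_OZr)
-/

set_option autoImplicit false

namespace Pool.Agent.MPf1f412

open Matrix

namespace oZrAux

variable (L : Fin 6 → Fin 6 → ℝ)

theorem cA (w : Fin 6) : Continuous fun X => OA L X w := by
  unfold OA Oa
  fun_prop

theorem cB (w v : Fin 6) : Continuous fun X => OB L X w v := by
  unfold OB Ob
  fun_prop

theorem cT (w v : Fin 6) : Continuous fun X => OT L X w v := by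
  unfold OT
  exact ((cA L w).mul (cA L v)).sub ((cB L w v).pow 2)

theorem cF : Continuous (OF L) := by
  have h1 : Continuous fun X => Oal L X := by
    unfold Oal
    exact ((cA L 5).mul ((cB L 1 2).mul (cB L 2 4))).sub
      ((cA L 2).mul ((cB L 4 5).mul (cB L 5 1)))
  have h2 : Continuous fun X => Obe L X := by
    unfold Obe
    exact ((cA L 5).pow 2).mul ((cT L 1 2).mul (cT L 2 4))
  have h3 : Continuous fun X => Oga L X := by
    unfold Oga
    exact ((cA L 2).pow 2).mul ((cT L 4 5).mul (cT L 5 1))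
  show Continuous fun X => OF L X
  unfold OF
  exact ((((h1.pow 2).add h2).sub h3).pow 2).sub (continuous_const.mul ((h1.pow 2).mul h2))

/-- the minimum of the eight functions -/
noncomputable def mn (X : ℝ) : ℝ :=
  min (OA L X 1) (min (OA L X 2) (min (OA L X 4) (min (OA L X 5)
    (min (OT L X 1 2) (min (OT L X 2 4) (min (OT L X 4 5) (OT L X 5 1)))))))

theorem cmn : Continuous (mn L) := by
  show Continuous fun X => mn L X
  unfold mn
  exact (cA L 1).min ((cA L 2).min ((cA L 4).min ((cA L 5).min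
    ((cT L 1 2).min ((cT L 2 4).min ((cT L 4 5).min (cT L 5 1)))))))

theorem le_mn {c X : ℝ} : c ≤ mn L X ↔ c ≤ OA L X 1 ∧ c ≤ OA L X 2 ∧ c ≤ OA L X 4 ∧ c ≤ OA L X 5 ∧
    c ≤ OT L X 1 2 ∧ c ≤ OT L X 2 4 ∧ c ≤ OT L X 4 5 ∧ c ≤ OT L X 5 1 := by
  unfold mn
  simp only [le_min_iff]

theorem lt_mn {c X : ℝ} : c < mn L X ↔ c < OA L X 1 ∧ c < OA L X 2 ∧ c < OA L X 4 ∧ c < OA L X 5 ∧
    c < OT L X 1 2 ∧ c < OT L X 2 4 ∧ c < OT L X 4 5 ∧ c < OT L X 5 1 := by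
  unfold mn
  simp only [lt_min_iff]

theorem mn_zero {X : ℝ} (h : mn L X = 0) :
    OA L X 1 = 0 ∨ OA L X 2 = 0 ∨ OA L X 4 = 0 ∨ OA L X 5 = 0 ∨
    OT L X 1 2 = 0 ∨ OT L X 2 4 = 0 ∨ OT L X 4 5 = 0 ∨ OT L X 5 1 = 0 := by
  by_contra hc
  simp only [not_or] at hc
  obtain ⟨c1, c2, c4, c5, d1, d2, d3, d4⟩ := hc
  obtain ⟨a1, a2, a4, a5, b1, b2, b3, b4⟩ := (le_mn L).mp h.ge
  have h1 : 0 < mn L X := (lt_mn L).mpr ⟨lt_of_le_of_ne a1 (Ne.symm c1),
    lt_of_le_of_ne a2 (Ne.symm c2), lt_of_le_of_ne a4 (Ne.symm c4), lt_of_le_of_ne a5 (Ne.symm c5),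
    lt_of_le_of_ne b1 (Ne.symm d1), lt_of_le_of_ne b2 (Ne.symm d2), lt_of_le_of_ne b3 (Ne.symm d3),
    lt_of_le_of_ne b4 (Ne.symm d4)⟩
  exact absurd h h1.ne'

theorem neg_big (a b X : ℝ) (hX : 0 < X) (h : 2 * (|a| + |b|) < X) : Oa X a b < 0 := by
  have h1 : a ≤ |a| := le_abs_self a
  have h2 : b ≤ |b| := le_abs_self b
  unfold Oa
  have h3 : 0 < X * (X - 2 * (a + b)) := mul_pos hX (by linarith)
  have h4 := sq_nonneg (a - b)
  have h5 : X * a - (X + a - b) ^ 2 / 4 = -(X * (X - 2 * (a + b)) + (a - b) ^ 2) / 4 := by ring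
  rw [h5]
  linarith

end oZrAux

open oZrAux

theorem oZr (h1 : S_OBd) (h2 : S_OIv) : S_OZr := by
  intro L X0 F' hX0 hne hpos hF hd hF'
  have hm0 : mn L 0 < 0 := by
    by_contra h
    rw [not_lt] at h
    have h3 := ((le_mn L).mp h).1
    have h4 : OA L 0 1 = -((L 0 1 - L 3 1) ^ 2) / 4 := by
      unfold OA Oa
      ring
    rw [h4] at h3
    have h5 : 0 < (L 0 1 - L 3 1) ^ 2 := by
      have := sub_ne_zero.mpr hne
      positivity
    linarith
  have ha := abs_nonneg (L 0 1)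
  have hb := abs_nonneg (L 3 1)
  have hmM : mn L (X0 + 2 * (|L 0 1| + |L 3 1|) + 1) < 0 := by
    by_contra h
    rw [not_lt] at h
    have h3 := ((le_mn L).mp h).1
    have h4 := neg_big (L 0 1) (L 3 1) (X0 + 2 * (|L 0 1| + |L 3 1|) + 1) (by linarith) (by linarith)
    exact absurd h3 (not_le.mpr h4)
  obtain ⟨X1, k1, k2, k3, k4⟩ := h2 (mn L) (OF L) X0 (X0 + 2 * (|L 0 1| + |L 3 1|) + 1) F' (cmn L)
    (cF L) hX0 (by linarith) ((lt_mn L).mpr hpos) hm0 hmM hF hd hF'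
    (fun X hX => h1 L X ((le_mn L).mp hX.ge) (mn_zero L hX))
  exact ⟨X1, k1, k2, (le_mn L).mp k3, k4⟩

end Pool.Agent.MPf1f412
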