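import Pool.Agent.Lib.MP_f1f412_co.Asm3
import Pool.Agent.Lib.MP_f1f412_co.NBGm
import Pool.Agent.Lib.MP_f1f412_co.NC6
import Pool.Agent.Lib.MP_f1f412_co.NCon4
import Pool.Agent.Lib.MP_f1f412_co.NDerK
import Pool.Agent.Lib.MP_f1f412_co.NDich
import Pool.Agent.Lib.MP_f1f412_co.NEx7
import Pool.Agent.Lib.MP_f1f412_co.NHL
import Pool.Agent.Lib.MP_f1f412_co.NKN
import Pool.Agent.Lib.MP_f1f412_co.NN6
import Pool.Agent.Lib.MP_f1f412_co.NNA
import Pool.Agent.Lib.MP_f1f412_co.NNB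
import Pool.Agent.Lib.MP_f1f412_co.NNBig
import Pool.Agent.Lib.MP_f1f412_co.NNC1
import Pool.Agent.Lib.MP_f1f412_co.NNC2
import Pool.Agent.Lib.MP_f1f412_co.NNCt
import Pool.Agent.Lib.MP_f1f412_co.NNCut
import Pool.Agent.Lib.MP_f1f412_co.NNDeg
import Pool.Agent.Lib.MP_f1f412_co.NNLe
import Pool.Agent.Lib.MP_f1f412_co.NNPair
import Pool.Agent.Lib.MP_f1f412_co.NNStar
import Pool.Agent.Lib.MP_f1f412_co.NNTwo
import Pool.Agent.Lib.MP_f1f412_co.NNegT
import Pool.Agent.Lib.MP_f1f412_co.NNec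
import Pool.Agent.Lib.MP_f1f412_co.NOct
import Pool.Agent.Lib.MP_f1f412_co.NOdd
import Pool.Agent.Lib.MP_f1f412_co.NReal
import Pool.Agent.Lib.MP_f1f412_co.OAll
import Pool.Agent.Lib.MP_f1f412_co.O3D
import Pool.Agent.Lib.MP_f1f412_co.OBd
import Pool.Agent.Lib.MP_f1f412_co.ODe
import Pool.Agent.Lib.MP_f1f412_co.ODv
import Pool.Agent.Lib.MP_f1f412_co.OFl
import Pool.Agent.Lib.MP_f1f412_co.OHx
import Pool.Agent.Lib.MP_f1f412_co.OId
import Pool.Agent.Lib.MP_f1f412_co.OIv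
import Pool.Agent.Lib.MP_f1f412_co.OKN
import Pool.Agent.Lib.MP_f1f412_co.ONz
import Pool.Agent.Lib.MP_f1f412_co.OP2
import Pool.Agent.Lib.MP_f1f412_co.OPl
import Pool.Agent.Lib.MP_f1f412_co.OPos
import Pool.Agent.Lib.MP_f1f412_co.ORe
import Pool.Agent.Lib.MP_f1f412_co.ORg
import Pool.Agent.Lib.MP_f1f412_co.OZ0
import Pool.Agent.Lib.MP_f1f412_co.OZr

/-!
# MP_f1f412_co (C34): assembly, part 4 (the octahedron, the necessity, the final theorem)
-/

set_option autoImplicit false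

namespace Pool.Agent.MPf1f412

/-! ### the octahedron -/

theorem zOPos : S_OPos := oPos oId

theorem zOZ0 : S_OZ0 := oZ0 oId

theorem zORg : S_ORg := oRg oKN oHx aD0r

theorem zODe : S_ODe := oDe zORg

theorem zONz : S_ONz := oNz oId zOPos zOZ0 zODe oDv

theorem zOPl : S_OPl := oPl oP2

theorem zOFl : S_OFl := oFl oId zOPos zOZ0 zOPl o3D

theorem zOZr : S_OZr := oZr oBd oIv

theorem zORe : S_ORe := oRe oP2 zOPl

theorem zOct6 : S_Oct6 := oAll oId zOPos zOZ0 zONz zOFl oDv zOZr zORe o3D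

theorem zOct : S_Oct := nOct zOct6

/-! ### the necessity -/

theorem zReal : S_Real := nReal (nDich nOdd) nNegT

theorem zHL : S_HL := nHL zReal (nDerK der) nKN

theorem zNStar : S_NStar := nNStar zHL nKN

theorem zNCt : S_NCt := nNCt low

theorem zNA : S_NA := nNA low nEx7 nBGm zNStar

theorem zNB : S_NB := nNB zNCt nEx7 nBGm zNStar

theorem zNC1 : S_NC1 := nNC1 zNCt nEx7 nBGm

theorem zNC2 : S_NC2 := nNC2 zNC1 zNStar pExt

theorem zCon4 : S_Con4 := nCon4 aGn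

/-- **Necessity.** -/
theorem zNec : S_Nec := nNec aGn zCon4 zNA zNB zNC2 (nNDeg bParts) nNPair nNCut nNTwo
  (nNLe bParts) (nNBig zNB) nC6 (nN6 zOct)

/-- **The final theorem.** -/
theorem zEnd : S_End := aEnd aSuff zCon4 zNec

end Pool.Agent.MPf1f412
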