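import Pool.Agent.Lib.MP_f1f412_co.SpecN
import Pool.Agent.Lib.MP_f1f412_co.Basic

/-!
# MP_f1f412_co (C34), N13: a tight partition with a class which is one vertex of degree two
-/

set_option autoImplicit false

namespace Pool.Agent.MPf1f412

open Matrix

namespace nNBAux

theorem dsq_comm (x y : R3) : dsq x y = dsq y x := by
  simp only [dsq, dot_eq, Pi.sub_apply]
  ring

end nNBAux

open nNBAux in
theorem nNB (h1 : S_NCt) (h2 : S_Ex7) (h3 : S_BGm) (h4 : S_NStar) : S_NB := by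
  classical
  intro V K _ G c p a Y₀ v y₁ y₂ hp hdeg ha hpin hY₀ hv hadj hcy hti
  have hvy₁ : G.Adj v y₁ := (hadj y₁).mpr (Or.inl rfl)
  have hvy₂ : G.Adj v y₂ := (hadj y₂).mpr (Or.inr rfl)
  have hcy₁ : c y₁ ≠ c v := fun h => hvy₁.ne (hv _ h).symm
  have hcy₂ : c y₂ ≠ c v := fun h => hvy₂.ne (hv _ h).symm
  have hTwo : TwoX G c (c v) v y₁ v y₂ := by
    refine ⟨rfl, rfl, hcy₁, hcy₂, hcy, hvy₁, hvy₂, ?_⟩
    intro u w huw hu _
    have h5 := hv u hu
    rw [h5] at huw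
    exact ((hadj w).mp huw).imp (fun h => ⟨h5, h⟩) (fun h => ⟨h5, h⟩)
  have h10 := h1 V K G c p (c v) v y₁ v y₂ hp hTwo hti
  set S : Set K := Set.range c \ {c v} with hS
  have hmemS : ∀ u, c u ≠ c v → c u ∈ S := fun u hu => ⟨⟨u, rfl⟩, hu⟩
  obtain ⟨m, hm, hLm, hmne⟩ := h2 V K G c p S 3
    ((evL (p v)).comp ((LinearMap.proj (c y₁) : (K → Tw) →ₗ[ℝ] Tw) - LinearMap.proj (c y₂)))
    ⟨_, hmemS _ hcy₁⟩ h10
  have hLm' : ev (m (c y₁)) (p v) = ev (m (c y₂)) (p v) := by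
    have h5 : ev (m (c y₁) - m (c y₂)) (p v) = 0 := hLm
    rw [ev_sub] at h5
    exact sub_eq_zero.mp h5
  set w : V → R3 := fun u => if u = v then ev (m (c y₁)) (p v) else ev (m (c u)) (p u) with hw
  have hwp : ∀ Y ∈ S, ∀ u, Pin G c Y u → w u = ev (m Y) (p u) := by
    rintro Y hY u ⟨x, rfl, hx⟩
    by_cases huv : u = v
    · have h5 : w u = ev (m (c y₁)) (p v) := if_pos huv
      rw [h5, huv]
      rcases hx with hx | hx
      · exact absurd (by rw [← hx, huv]; rfl) hY.2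
      · rw [huv] at hx
        rcases (hadj x).mp hx.symm with rfl | rfl
        · rfl
        · exact hLm'
    · have h5 : w u = ev (m (c u)) (p u) := if_neg huv
      rw [h5]
      rcases hx with hx | hx
      · rw [hx]
      · exact hm.ev_eq hx.symm (hmemS u (fun h => huv (hv u h))) hY
  obtain ⟨hbar, hntw⟩ := h3 V K G c p w S m hp hdeg Set.sdiff_subset hwp hmne
  have hnr : ¬ BRig (BG G c S) p := by
    intro hr
    obtain ⟨n, hn⟩ := hr w (fun u z huz => by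
      obtain ⟨-, Y, hY, h5, h6⟩ := huz
      exact hbar Y hY u z h5 h6)
    exact hntw ⟨n, fun u _ => hn u⟩
  have hY₀S : Y₀ ∈ S := by
    obtain ⟨x, hx, -⟩ := hpin 0
    exact ⟨⟨x, hx⟩, hY₀⟩
  obtain ⟨q, hq, hqy, hqn⟩ := h4 V p (BG G c S) a y₁ y₂ hp ha
    (fun i j hij => ⟨fun h => hij (ha h), Y₀, hY₀S, hpin i, hpin j⟩) hnr
  refine ⟨q, ?_, hqn⟩
  rintro u z ⟨huz, huz' | ⟨t, hut, htz⟩⟩
  · by_cases hu : c u = c v
    · have hz : c z ≠ c v := fun h => huz ((hv u hu).trans (hv z h).symm)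
      exact hq u z ⟨huz, c z, hmemS z hz, ⟨z, rfl, Or.inr huz'.symm⟩, ⟨z, rfl, Or.inl rfl⟩⟩
    · exact hq u z ⟨huz, c u, hmemS u hu, ⟨u, rfl, Or.inl rfl⟩, ⟨u, rfl, Or.inr huz'⟩⟩
  · by_cases ht : c t = c v
    · have htv := hv t ht
      rw [htv] at hut htz
      rcases (hadj u).mp hut.symm with rfl | rfl
      · rcases (hadj z).mp htz with rfl | rfl
        · exact absurd rfl huz
        · exact hqy
      · rcases (hadj z).mp htz with rfl | rfl
        · rw [dsq_comm (q u), dsq_comm (p u)]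
          exact hqy
        · exact absurd rfl huz
    · exact hq u z ⟨huz, c t, hmemS t ht, ⟨t, rfl, Or.inr hut.symm⟩, ⟨t, rfl, Or.inr htz⟩⟩

end Pool.Agent.MPf1f412
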