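import Pool.Agent.Lib.MP_f1f412_co.SpecO

/-!
# MP_f1f412_co (C34): a lemma of real analysis (S_OIv)
-/

set_option autoImplicit false

namespace Pool.Agent.MPf1f412

open Matrix

namespace oIvAux

/-- the one-sided statement -/
theorem right {m F : ℝ → ℝ} (hm : Continuous m) (hF : Continuous F) {Y M : ℝ} (hYM : Y < M)
    (hmY : 0 < m Y) (hmM : m M < 0) (hFY : F Y < 0)
    (hz : ∀ X ∈ Set.Icc Y M, m X = 0 → 0 ≤ F X) : ∃ X1, Y < X1 ∧ X1 ≤ M ∧ 0 ≤ m X1 ∧ F X1 = 0 := by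
  have hcl : IsClosed {X | X ∈ Set.Icc Y M ∧ m X ≤ 0} :=
    isClosed_Icc.inter (isClosed_le hm continuous_const)
  have hne : {X | X ∈ Set.Icc Y M ∧ m X ≤ 0}.Nonempty := ⟨M, ⟨hYM.le, le_rfl⟩, hmM.le⟩
  have hbd : BddBelow {X | X ∈ Set.Icc Y M ∧ m X ≤ 0} := ⟨Y, fun X hX => hX.1.1⟩
  obtain ⟨r, hr⟩ : ∃ r, r = sInf {X | X ∈ Set.Icc Y M ∧ m X ≤ 0} := ⟨_, rfl⟩
  have hrm : r ∈ {X | X ∈ Set.Icc Y M ∧ m X ≤ 0} := by
    rw [hr]
    exact hcl.csInf_mem hne hbd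
  have hpos : ∀ X ∈ Set.Ico Y r, 0 < m X := by
    intro X hX
    by_contra h
    have h1 : X ∈ {X | X ∈ Set.Icc Y M ∧ m X ≤ 0} := ⟨⟨hX.1, hX.2.le.trans hrm.1.2⟩, not_lt.mp h⟩
    have h2 : r ≤ X := by
      rw [hr]
      exact csInf_le hbd h1
    exact absurd hX.2 (not_lt.mpr h2)
  have hYr : Y < r := by
    rcases hrm.1.1.lt_or_eq with h | h
    · exact h
    · exfalso
      have := hrm.2
      rw [← h] at this
      linarith
  have hr0 : 0 ≤ m r := by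
    by_contra h
    rw [not_le] at h
    -- an intermediate zero
    have h1 : Set.Icc (m r) (m Y) ⊆ m '' Set.Icc Y r := intermediate_value_Icc' hYr.le hm.continuousOn
    have h2 : m r / 2 ∈ Set.Icc (m r) (m Y) := ⟨by linarith, by linarith⟩
    obtain ⟨z, hz1, hz2⟩ := h1 h2
    have h3 : z ∈ {X | X ∈ Set.Icc Y M ∧ m X ≤ 0} :=
      ⟨⟨hz1.1, hz1.2.trans hrm.1.2⟩, by rw [hz2]; linarith⟩
    have h4 : r ≤ z := by
      rw [hr]
      exact csInf_le hbd h3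
    have h5 : z = r := le_antisymm hz1.2 h4
    rw [h5] at hz2
    linarith
  have hr00 : m r = 0 := le_antisymm hrm.2 hr0
  have hFr : 0 ≤ F r := hz r hrm.1 hr00
  have h1 : Set.Icc (F Y) (F r) ⊆ F '' Set.Icc Y r := intermediate_value_Icc hYr.le hF.continuousOn
  obtain ⟨z, hz1, hz2⟩ := h1 ⟨hFY.le, hFr⟩
  refine ⟨z, ?_, hz1.2.trans hrm.1.2, ?_, hz2⟩
  · rcases hz1.1.lt_or_eq with h | h
    · exact h
    · exfalso
      rw [← h] at hz2
      linarith
  · rcases hz1.2.lt_or_eq with h | h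
    · exact (hpos z ⟨hz1.1, h⟩).le
    · rw [h, hr00]

/-- points near `X0` on the right -/
theorem near {m F : ℝ → ℝ} (hm : Continuous m) {X0 M F' : ℝ} (hM : X0 < M) (h0 : 0 < m X0)
    (hF0 : F X0 = 0) (hd : HasDerivAt F F' X0) (hF' : F' < 0) :
    ∃ Y, X0 < Y ∧ Y < M ∧ 0 < m Y ∧ F Y < 0 := by
  have h1 : ∀ᶠ Y in nhdsWithin X0 (Set.Ioi X0), slope F X0 Y < 0 := by
    have h2 := hasDerivAt_iff_tendsto_slope.mp hd
    have h3 : nhdsWithin X0 (Set.Ioi X0) ≤ nhdsWithin X0 {X0}ᶜ :=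
      nhdsWithin_mono _ (fun y hy => (ne_of_gt hy))
    exact (h2.mono_left h3).eventually (gt_mem_nhds hF')
  have h2 : ∀ᶠ Y in nhdsWithin X0 (Set.Ioi X0), 0 < m Y :=
    (hm.continuousAt.eventually (lt_mem_nhds h0)).filter_mono nhdsWithin_le_nhds
  have h3 : ∀ᶠ Y in nhdsWithin X0 (Set.Ioi X0), Y < M :=
    (gt_mem_nhds hM).filter_mono nhdsWithin_le_nhds
  have h4 : ∀ᶠ Y in nhdsWithin X0 (Set.Ioi X0), X0 < Y := eventually_mem_nhdsWithin
  obtain ⟨Y, hY1, hY2, hY3, hY4⟩ := (h1.and (h2.and (h3.and h4))).exists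
  refine ⟨Y, hY4, hY3, hY2, ?_⟩
  rw [slope_def_field, hF0, sub_zero] at hY1
  rcases div_neg_iff.mp hY1 with h | h
  · exact absurd h.2 (not_lt.mpr (by linarith))
  · exact h.1

end oIvAux

open oIvAux

theorem oIv : S_OIv := by
  intro m F X0 M F' hm hF hX0 hXM hm0 hmz hmM hF0 hd hne hz
  rcases lt_or_gt_of_ne hne with h | h
  · obtain ⟨Y, hY1, hY2, hY3, hY4⟩ := near hm hXM hm0 hF0 hd h
    obtain ⟨X1, h1, h2, h3, h4⟩ := right hm hF hY2 hY3 hmM hY4 (fun X _ => hz X)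
    exact ⟨X1, by linarith, by linarith [hY1, h1] |> fun (h5 : X0 < X1) => h5.ne', h3, h4⟩
  · -- mirror
    have hm' : Continuous fun X => m (-X) := hm.comp continuous_neg
    have hF'' : Continuous fun X => F (-X) := hF.comp continuous_neg
    have hd' : HasDerivAt (fun X => F (-X)) (-F') (-X0) := by
      have h1 : HasDerivAt F F' (- -X0) := by rw [neg_neg]; exact hd
      have h2 := HasDerivAt.comp (-X0) h1 (hasDerivAt_neg (-X0))
      have h3 : F' * -1 = -F' := by ring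
      rw [h3] at h2
      exact h2
    obtain ⟨Y, hY1, hY2, hY3, hY4⟩ := near (m := fun X => m (-X)) (F := fun X => F (-X)) hm'
      (X0 := -X0) (M := 0) (F' := -F') (by linarith) (by rw [neg_neg]; exact hm0)
      (by rw [neg_neg]; exact hF0) hd' (by linarith)
    obtain ⟨X1, h1, h2, h3, h4⟩ := right (m := fun X => m (-X)) (F := fun X => F (-X)) hm' hF''
      hY2 hY3 (by rw [neg_zero]; exact hmz) hY4 (fun X _ => hz (-X))
    refine ⟨-X1, ?_, ?_, h3, h4⟩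
    · rcases h2.lt_or_eq with h5 | h5
      · linarith
      · exfalso
        rw [h5, neg_zero] at h3
        linarith
    · intro h5
      linarith

end Pool.Agent.MPf1f412
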