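import Pool.Agent.Lib.MP_f1f412_co.Asm1
import Pool.Agent.Lib.MP_f1f412_co.BParts
import Pool.Agent.Lib.MP_f1f412_co.NBGm
import Pool.Agent.Lib.MP_f1f412_co.NC6
import Pool.Agent.Lib.MP_f1f412_co.NCon4
import Pool.Agent.Lib.MP_f1f412_co.NDerK
import Pool.Agent.Lib.MP_f1f412_co.NDich
import Pool.Agent.Lib.MP_f1f412_co.NEx7
import Pool.Agent.Lib.MP_f1f412_co.NHL
import Pool.Agent.Lib.MP_f1f412_co.NKN
import Pool.Agent.Lib.MP_f1f412_co.NN6
import Pool.Agent.Lib.MP_f1f412_co.NNA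
import Pool.Agent.Lib.MP_f1f412_co.NNB
import Pool.Agent.Lib.MP_f1f412_co.NNBig
import Pool.Agent.Lib.MP_f1f412_co.NNC1
import Pool.Agent.Lib.MP_f1f412_co.NNC2
import Pool.Agent.Lib.MP_f1f412_co.NNCt
import Pool.Agent.Lib.MP_f1f412_co.NNCut
import Pool.Agent.Lib.MP_f1f412_co.NNDeg
import Pool.Agent.Lib.MP_f1f412_co.NNLe
import Pool.Agent.Lib.MP_f1f412_co.NNPair
import Pool.Agent.Lib.MP_f1f412_co.NNStar
import Pool.Agent.Lib.MP_f1f412_co.NNTwo
import Pool.Agent.Lib.MP_f1f412_co.NNec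
import Pool.Agent.Lib.MP_f1f412_co.NNegT
import Pool.Agent.Lib.MP_f1f412_co.NOct
import Pool.Agent.Lib.MP_f1f412_co.NOdd
import Pool.Agent.Lib.MP_f1f412_co.NReal
import Pool.Agent.Lib.MP_f1f412_co.O3D
import Pool.Agent.Lib.MP_f1f412_co.OAll
import Pool.Agent.Lib.MP_f1f412_co.OBd
import Pool.Agent.Lib.MP_f1f412_co.ODe
import Pool.Agent.Lib.MP_f1f412_co.ODv
import Pool.Agent.Lib.MP_f1f412_co.OFl
import Pool.Agent.Lib.MP_f1f412_co.OHx
import Pool.Agent.Lib.MP_f1f412_co.OId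
import Pool.Agent.Lib.MP_f1f412_co.OIv
import Pool.Agent.Lib.MP_f1f412_co.OKN
import Pool.Agent.Lib.MP_f1f412_co.ONz
import Pool.Agent.Lib.MP_f1f412_co.OP2
import Pool.Agent.Lib.MP_f1f412_co.OPl
import Pool.Agent.Lib.MP_f1f412_co.OPos
import Pool.Agent.Lib.MP_f1f412_co.ORe
import Pool.Agent.Lib.MP_f1f412_co.ORg
import Pool.Agent.Lib.MP_f1f412_co.OZ0
import Pool.Agent.Lib.MP_f1f412_co.OZr

/-!
# MP_f1f412_co (C34): assembly of the necessity (four-connectivity, count, octahedron)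
-/

set_option autoImplicit false

namespace Pool.Agent.MPf1f412

/-! ### the octahedron -/

theorem aOPos : S_OPos := oPos oId

theorem aOPl : S_OPl := oPl oP2

theorem aORe : S_ORe := oRe oP2 aOPl

theorem aOZ0 : S_OZ0 := oZ0 oId

theorem aORg : S_ORg := oRg oKN oHx aD0r

theorem aODe : S_ODe := oDe aORg

theorem aONz : S_ONz := oNz oId aOPos aOZ0 aODe oDv

theorem aOFl : S_OFl := oFl oId aOPos aOZ0 aOPl o3D

theorem aOZr : S_OZr := oZr oBd oIv

theorem aOct6 : S_Oct6 := oAll oId aOPos aOZ0 aONz aOFl oDv aOZr aORe o3D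

theorem aOct : S_Oct := nOct aOct6

/-! ### necessity -/

theorem aCon4 : S_Con4 := nCon4 aGn

theorem aDich : S_Dich := nDich nOdd

theorem aReal : S_Real := nReal aDich nNegT

theorem aDerK : S_DerK := nDerK der

theorem aHL : S_HL := nHL aReal aDerK nKN

theorem aNStar : S_NStar := nNStar aHL nKN

theorem aNA : S_NA := nNA low nEx7 nBGm aNStar

theorem aNCt : S_NCt := nNCt low

theorem aNB : S_NB := nNB aNCt nEx7 nBGm aNStar

theorem aNC1 : S_NC1 := nNC1 aNCt nEx7 nBGm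

theorem aNC2 : S_NC2 := nNC2 aNC1 aNStar pExt

theorem aNDeg : S_NDeg := nNDeg bParts

theorem aNLe : S_NLe := nNLe bParts

theorem aNBig : S_NBig := nNBig aNB

theorem aN6 : S_N6 := nN6 aOct

theorem aNec : S_Nec := nNec aGn aCon4 aNA aNB aNC2 aNDeg nNPair nNCut nNTwo aNLe aNBig nC6 aN6

end Pool.Agent.MPf1f412
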