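import Pool.Agent.Lib.MP_f1f412_co.SpecB
import Pool.Agent.Lib.MP_f1f412_co.Basic

/-! C34, module BLseN (SpecB): `Lse` motions are constant on nodes -/

set_option autoImplicit false

namespace Pool.Agent.MPf1f412

open Matrix

theorem bLseN : S_LseN := by
  intro V K N _ G c p q g π hN z m hm
  have hpin : ∀ u, Pin G c (c u) u := fun u => ⟨u, rfl, Or.inl rfl⟩
  have hpin' : ∀ {u w}, G.Adj u w → Pin G c (c u) w := fun {u w} h => ⟨u, rfl, Or.inr h⟩
  have h2 : ∀ u w, G.Adj u w → u ≠ z → w ≠ z →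
      ∃ t : ℝ, m (c u) - m (c w) = t • Ln (p u) (p w) := by
    intro u w huw hu hw
    have e1 := hm u hu (c u) (c w) (hpin u) (hpin' huw.symm)
    have e2 := hm w hw (c u) (c w) (hpin' huw) (hpin w)
    exact t1 (hN.env.gn.inj huw.ne) e1 e2
  refine ⟨?_, h2, ?_⟩
  · intro X Y hXY hXz
    refine hN.motN {π X} m ?_ X Y rfl hXY
    intro u w h
    have hu : π (c u) = π X := h.2.1
    have hw : π (c w) = π X := h.2.2.1
    refine h2 u w h.1 ?_ ?_
    · rintro rfl
      exact hXz hu.symm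
    · rintro rfl
      exact hXz hw.symm
  · intro w hzw
    exact hm w hzw.ne' (c z) (c w) (hpin' hzw) (hpin w)

end Pool.Agent.MPf1f412
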