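import Pool.Agent.Lib.MP_f1f412_co.SpecB
import Pool.Agent.Lib.MP_f1f412_co.Basic

/-!
# MP_f1f412_co (C34), B9: three classes closed by three edges, at most one coincidence
-/

set_option autoImplicit false

namespace Pool.Agent.MPf1f412

open Matrix

namespace bTriAAux

theorem dsq_ap (g : Iso3) (x y : R3) : dsq (g.ap x) (g.ap y) = dsq x y := by
  have h1 : g.ap x - g.ap y = g.A *ᵥ (x - y) := by
    rw [Matrix.mulVec_sub]
    simp only [Iso3.ap]
    abel
  unfold dsq
  rw [h1, Matrix.dotProduct_mulVec, Matrix.vecMul_mulVec, g.orth, Matrix.vecMul_one]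

theorem four_inj {V : Type} {x₀ x₁ x₂ x₃ : V} (h01 : x₀ ≠ x₁) (h02 : x₀ ≠ x₂) (h03 : x₀ ≠ x₃)
    (h12 : x₁ ≠ x₂) (h13 : x₁ ≠ x₃) (h23 : x₂ ≠ x₃) :
    Function.Injective ![x₀, x₁, x₂, x₃] := by
  intro i j hij
  fin_cases i <;> fin_cases j <;> first | rfl | (exfalso; revert hij; simp_all [eq_comm])

end bTriAAux

open bTriAAux in
/-- **B9.** -/
theorem bTriA : S_Ext → S_FourPins → S_TriA := by
  intro hExt hFour V K _ G c p q g E a a' b b' d d' hab hbd hda haa hbb hdd hAB hBC hCA hb hd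
  -- pins
  have self : ∀ v X, c v = X → Pin G c X v := fun v X h => ⟨v, h, Or.inl rfl⟩
  have nb : ∀ v u X, c v = X → G.Adj v u → Pin G c X u := fun v u X h h' => ⟨v, h, Or.inr h'⟩
  have Aa : Pin G c (c a) a := self _ _ rfl
  have Aa' : Pin G c (c a) a' := self _ _ haa.symm
  have Ab : Pin G c (c a) b := nb a b _ rfl hab
  have Ad' : Pin G c (c a) d' := nb a' d' _ haa.symm hda.symm
  have Bb : Pin G c (c b) b := self _ _ rfl
  have Bb' : Pin G c (c b) b' := self _ _ hbb.symm
  have Ba : Pin G c (c b) a := nb b a _ rfl hab.symm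
  have Bd : Pin G c (c b) d := nb b' d _ hbb.symm hbd
  have Cd : Pin G c (c d) d := self _ _ rfl
  have Cd' : Pin G c (c d) d' := self _ _ hdd.symm
  have Cb' : Pin G c (c d) b' := nb d b' _ rfl hbd.symm
  have Ca' : Pin G c (c d) a' := nb d' a' _ hdd.symm hda
  have key : ∀ X u w, Pin G c X u → Pin G c X w → dsq (q u) (q w) = dsq (p u) (p w) := by
    intro X u w hu hw
    rw [E.pl X u hu, E.pl X w hw, dsq_ap]
  have hN : ∀ u ∈ ({a, a', b, b', d, d'} : Set V), ∀ w ∈ ({a, a', b, b', d, d'} : Set V),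
      dsq (q u) (q w) = dsq (p u) (p w) := by
    intro u hu w hw
    rcases hu with h | h | h | h | h | h <;> rcases hw with h' | h' | h' | h' | h' | h' <;>
      rw [h, h'] <;>
      first
        | exact key (c a) _ _ (by assumption) (by assumption)
        | exact key (c b) _ _ (by assumption) (by assumption)
        | exact key (c d) _ _ (by assumption) (by assumption)
  obtain ⟨h, hh⟩ := hExt V {a, a', b, b', d, d'} p q hN
  have ha := hh a (by simp)
  have ha' := hh a' (by simp)
  have hb1 := hh b (by simp)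
  have hb' := hh b' (by simp)
  have hd1 := hh d (by simp)
  have hd' := hh d' (by simp)
  have ne : ∀ x y : V, c x ≠ c y → x ≠ y := fun x y hxy h => hxy (by rw [h])
  have hB := hFour V K G c p q g E.gn E.pl (c b) h ![b, b', a, d]
    (four_inj hb (ne _ _ hAB.symm) (ne _ _ hBC) (ne _ _ (by rw [← hbb]; exact hAB.symm))
      (ne _ _ (by rw [← hbb]; exact hBC)) (ne _ _ hCA.symm))
    (by intro i; fin_cases i <;> assumption) (by intro i; fin_cases i <;> assumption)
  have hC := hFour V K G c p q g E.gn E.pl (c d) h ![d, d', b', a']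
    (four_inj hd (ne _ _ (by rw [← hbb]; exact hBC.symm)) (ne _ _ (by rw [← haa]; exact hCA))
      (ne _ _ (by rw [← hbb, ← hdd]; exact hBC.symm)) (ne _ _ (by rw [← haa, ← hdd]; exact hCA))
      (ne _ _ (by rw [← hbb, ← haa]; exact hAB.symm)))
    (by intro i; fin_cases i <;> assumption) (by intro i; fin_cases i <;> assumption)
  exact E.mp (c b) ⟨b, rfl⟩ (c d) ⟨d, rfl⟩ hBC ⟨h, hB, hC⟩

end Pool.Agent.MPf1f412
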