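import Pool.Agent.Lib.MP_f1f412_co.Spec1

/-!
# MP_f1f412_co (C34): a stable space of twists has dimension three (S_Cover)
-/

set_option autoImplicit false

namespace Pool.Agent.MPf1f412

open Matrix

namespace coverAux

theorem cr_eq (x y : R3) : cr x y = ![x 1 * y 2 - x 2 * y 1, x 2 * y 0 - x 0 * y 2,
    x 0 * y 1 - x 1 * y 0] := cross_apply x y

/-- the velocity at the point `x` as a linear map -/
def evL (x : R3) : Tw →ₗ[ℝ] R3 where
  toFun := fun m => ev m x
  map_add' := by
    intro a b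
    unfold ev cr
    simp only [Prod.fst_add, Prod.snd_add, map_add, LinearMap.add_apply]
    abel
  map_smul' := by
    intro t a
    unfold ev cr
    simp only [Prod.smul_fst, Prod.smul_snd, map_smul, LinearMap.smul_apply, RingHom.id_apply,
      smul_add]

theorem evL_apply (x : R3) (m : Tw) : evL x m = ev m x := rfl

theorem D3_ev (D : Derivation ℚ ℝ ℝ) (m : Tw) (x : R3) :
    D3 D (ev m x) = ev (DT D m) x + cr m.1 (D3 D x) := by
  have h : ∀ i, D (ev m x i) = (ev (DT D m) x + cr m.1 (D3 D x)) i := by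
    intro i
    fin_cases i
    · show D (ev m x 0) = (ev (DT D m) x + cr m.1 (D3 D x)) 0
      simp only [D3, DT, ev, cr_eq, Pi.add_apply, Matrix.cons_val_zero, Matrix.cons_val_one,
        Matrix.cons_val, map_add, map_sub, Derivation.leibniz, smul_eq_mul]
      ring
    · show D (ev m x 1) = (ev (DT D m) x + cr m.1 (D3 D x)) 1
      simp only [D3, DT, ev, cr_eq, Pi.add_apply, Matrix.cons_val_zero, Matrix.cons_val_one,
        Matrix.cons_val, map_add, map_sub, Derivation.leibniz, smul_eq_mul]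
      ring
    · show D (ev m x 2) = (ev (DT D m) x + cr m.1 (D3 D x)) 2
      simp only [D3, DT, ev, cr_eq, Pi.add_apply, Matrix.cons_val_zero, Matrix.cons_val_one,
        Matrix.cons_val, map_add, map_sub, Derivation.leibniz, smul_eq_mul]
      ring
  funext i
  exact h i

theorem D_kl (D : Derivation ℚ ℝ ℝ) (m m' : Tw) :
    D (kl m m') = kl (DT D m) m' + kl m (DT D m') := by
  simp only [kl, DT, D3, dotProduct, Fin.sum_univ_three, map_add, Derivation.leibniz, smul_eq_mul]
  ring

theorem kl_ev (m m' : Tw) (x : R3) : kl m m' = m.1 ⬝ᵥ ev m' x + m'.1 ⬝ᵥ ev m x := by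
  simp only [kl, ev, cr_eq, dotProduct, Fin.sum_univ_three, Pi.add_apply, Matrix.cons_val_zero,
    Matrix.cons_val_one, Matrix.cons_val]
  ring

theorem ker_cross {w d : R3} (hw : w ≠ 0) (h : cr w d = 0) : d ∈ Submodule.span ℝ {w} := by
  rw [cr_eq] at h
  have h0 : w 1 * d 2 - w 2 * d 1 = 0 := congrFun h 0
  have h1 : w 2 * d 0 - w 0 * d 2 = 0 := congrFun h 1
  have h2 : w 0 * d 1 - w 1 * d 0 = 0 := congrFun h 2
  have hpos : w 0 * w 0 + w 1 * w 1 + w 2 * w 2 ≠ 0 := by
    intro hc
    apply hw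
    have q0 := mul_self_nonneg (w 0)
    have q1 := mul_self_nonneg (w 1)
    have q2 := mul_self_nonneg (w 2)
    have a0 : w 0 = 0 := mul_self_eq_zero.mp (by linarith)
    have a1 : w 1 = 0 := mul_self_eq_zero.mp (by linarith)
    have a2 : w 2 = 0 := mul_self_eq_zero.mp (by linarith)
    funext i
    fin_cases i
    · exact a0
    · exact a1
    · exact a2
  rw [Submodule.mem_span_singleton]
  refine ⟨(w 0 * d 0 + w 1 * d 1 + w 2 * d 2) / (w 0 * w 0 + w 1 * w 1 + w 2 * w 2), ?_⟩
  funext i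
  rw [Pi.smul_apply, smul_eq_mul, div_mul_eq_mul_div, div_eq_iff hpos]
  fin_cases i
  · show (w 0 * d 0 + w 1 * d 1 + w 2 * d 2) * w 0 = d 0 * (w 0 * w 0 + w 1 * w 1 + w 2 * w 2)
    linear_combination (-w 2) * h1 + w 1 * h2
  · show (w 0 * d 0 + w 1 * d 1 + w 2 * d 2) * w 1 = d 1 * (w 0 * w 0 + w 1 * w 1 + w 2 * w 2)
    linear_combination w 2 * h0 - w 0 * h2
  · show (w 0 * d 0 + w 1 * d 1 + w 2 * d 2) * w 2 = d 2 * (w 0 * w 0 + w 1 * w 1 + w 2 * w 2)
    linear_combination (-w 1) * h0 + w 0 * h1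

theorem two_le_range {w : R3} (hw : w ≠ 0) :
    2 ≤ Module.finrank ℝ (LinearMap.range (crossProduct w)) := by
  have h1 := LinearMap.finrank_range_add_finrank_ker (crossProduct w)
  rw [Module.finrank_fin_fun] at h1
  have h2 : Module.finrank ℝ (LinearMap.ker (crossProduct w)) ≤ 1 := by
    have h3 : LinearMap.ker (crossProduct w) ≤ Submodule.span ℝ {w} := by
      intro d hd
      exact ker_cross hw hd
    exact (Submodule.finrank_mono h3).trans (finrank_span_singleton hw).le
  omega

/-- the first part -/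
theorem stable {V : Type} (p : V → R3) (v : V) (T : Submodule ℝ Tw) (hG : Gn p)
    (hT : ∀ D, Spt p D {v} → DSt D T) (t : Tw) (ht : t ∈ T) (ht0 : t ≠ 0)
    (hev : ev t (p v) = 0) :
    t.1 ≠ 0 ∧ LinearMap.range (crossProduct t.1) ≤ T.map (evL (p v)) ∧
      Module.finrank ℝ (T.map (evL (p v))) + 1 ≤ Module.finrank ℝ T := by
  classical
  have hw : t.1 ≠ 0 := by
    intro h
    apply ht0
    have h2 : t.2 = 0 := by
      have h3 := hev
      unfold ev cr at h3
      rw [h] at h3
      simpa using h3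
    exact Prod.ext h h2
  refine ⟨hw, ?_, ?_⟩
  · rintro _ ⟨d, rfl⟩
    obtain ⟨D, hD⟩ := hG (fun u => if u = v then d else 0)
    have hS : Spt p D {v} := by
      intro u hu
      rw [hD u, if_neg (by simpa using hu)]
    have h1 := hT D hS t ht
    have h2 := D3_ev D t (p v)
    rw [hev, hD v, if_pos rfl] at h2
    have h3 : D3 D 0 = 0 := by
      funext i
      show D ((0 : R3) i) = 0
      rw [Pi.zero_apply, map_zero]
    rw [h3] at h2
    refine ⟨-(DT D t), T.neg_mem h1, ?_⟩
    rw [map_neg, evL_apply]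
    exact neg_eq_of_add_eq_zero_right h2.symm
  · have h1 := LinearMap.finrank_range_add_finrank_ker ((evL (p v)).domRestrict T)
    rw [LinearMap.range_domRestrict] at h1
    have h2 : Module.finrank ℝ (LinearMap.ker ((evL (p v)).domRestrict T)) ≠ 0 := by
      intro h
      have h5 : LinearMap.ker ((evL (p v)).domRestrict T) = ⊥ := Submodule.finrank_eq_zero.mp h
      have h6 : (⟨t, ht⟩ : T) ∈ LinearMap.ker ((evL (p v)).domRestrict T) := hev
      rw [h5, Submodule.mem_bot] at h6
      exact ht0 (congrArg Subtype.val h6)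
    have h7 : Module.finrank ℝ (T.map (evL (p v))) +
        Module.finrank ℝ (LinearMap.ker ((evL (p v)).domRestrict T)) = Module.finrank ℝ T := h1
    omega

/-- the radical of the Klein form on `T` -/
def Rad (T : Submodule ℝ Tw) : Submodule ℝ Tw where
  carrier := {r | r ∈ T ∧ ∀ s ∈ T, kl r s = 0}
  add_mem' := by
    rintro a b ⟨ha, ha'⟩ ⟨hb, hb'⟩
    refine ⟨T.add_mem ha hb, fun s hs => ?_⟩
    have h1 := ha' s hs
    have h2 := hb' s hs
    unfold kl at h1 h2 ⊢
    simp only [Prod.fst_add, Prod.snd_add, dotProduct_add, add_dotProduct]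
    linarith
  zero_mem' := ⟨T.zero_mem, fun s _ => by unfold kl; simp⟩
  smul_mem' := by
    rintro c a ⟨ha, ha'⟩
    refine ⟨T.smul_mem c ha, fun s hs => ?_⟩
    have h1 := ha' s hs
    unfold kl at h1 ⊢
    simp only [Prod.smul_fst, Prod.smul_snd, dotProduct_smul, smul_dotProduct, smul_eq_mul]
    rw [← mul_add, h1, mul_zero]

theorem mem_Rad {T : Submodule ℝ Tw} {r : Tw} : r ∈ Rad T ↔ r ∈ T ∧ ∀ s ∈ T, kl r s = 0 := Iff.rfl

end coverAux

open coverAux

theorem cover : S_Cover := by
  intro V p v T hG hT t ht ht0 hev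
  obtain ⟨hw, h1, h2⟩ := stable p v T hG hT t ht ht0 hev
  have h3 := two_le_range hw
  have h4 : Module.finrank ℝ (LinearMap.range (crossProduct t.1)) ≤
      Module.finrank ℝ (T.map (evL (p v))) := Submodule.finrank_mono h1
  refine ⟨by omega, fun h5 r hr s hs => ?_⟩
  have h44 : Module.finrank ℝ (T.map (evL (p v))) ≤
      Module.finrank ℝ (LinearMap.range (crossProduct t.1)) := by omega
  have h6 : LinearMap.range (crossProduct t.1) = T.map (evL (p v)) :=
    Submodule.eq_of_le_of_finrank_le h1 h44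
  have htR : t ∈ Rad T := by
    refine ⟨ht, fun s hs => ?_⟩
    have h7 : evL (p v) s ∈ T.map (evL (p v)) := Submodule.mem_map_of_mem hs
    rw [← h6] at h7
    obtain ⟨d, hd⟩ := h7
    rw [evL_apply] at hd
    rw [kl_ev t s (p v), hev, dotProduct_zero, add_zero, ← hd]
    exact dot_self_cross t.1 d
  have hRst : ∀ D, Spt p D {v} → DSt D (Rad T) := by
    intro D hD r hr
    refine ⟨hT D hD r hr.1, fun s hs => ?_⟩
    have h8 := D_kl D r s
    rw [hr.2 s hs, map_zero, hr.2 (DT D s) (hT D hD s hs), add_zero] at h8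
    exact h8.symm
  obtain ⟨-, h9, h10⟩ := stable p v (Rad T) hG hRst t htR ht0 hev
  have h11 : Module.finrank ℝ (LinearMap.range (crossProduct t.1)) ≤
      Module.finrank ℝ ((Rad T).map (evL (p v))) := Submodule.finrank_mono h9
  have h12 : Rad T ≤ T := fun r hr => hr.1
  have h13 : Rad T = T := Submodule.eq_of_le_of_finrank_le h12 (by omega)
  rw [← h13] at hr
  exact hr.2 s hs

end Pool.Agent.MPf1f412
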