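import Pool.Agent.Lib.MP_f1f412_co.Spec1

/-!
# MP_f1f412_co (C34): D0, no stress in fully flexible structures
-/

set_option autoImplicit false
set_option linter.unusedSectionVars false

namespace Pool.Agent.MPf1f412

open Matrix

namespace d0Aux

theorem Ln_neg (u w : R3) : Ln w u = - Ln u w := by
  refine Prod.ext ?_ ?_
  · show u - w = -(w - u)
    abel
  · show cr w u = - cr u w
    simp only [cr]
    rw [cross_anticomm]

theorem gp2 {V : Type} {p : V → R3} (hp : Gn p) {a b : V} (hab : a ≠ b) : p b - p a ≠ 0 := by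
  classical
  intro h
  obtain ⟨D, hD⟩ := hp (fun u => if u = b then (fun _ => 1) else 0)
  have h0 := congrFun h 0
  have h1 : D ((p b - p a) 0) = 0 := by rw [h0]; exact D.map_zero
  have h2 := congrFun (hD b) 0
  have h3 := congrFun (hD a) 0
  rw [if_pos rfl] at h2
  rw [if_neg hab] at h3
  rw [Pi.sub_apply, map_sub] at h1
  have h4 : D (p b 0) = 1 := h2
  have h5 : D (p a 0) = 0 := h3
  rw [h4, h5] at h1
  norm_num at h1

theorem Ln_ne {V : Type} {p : V → R3} (hp : Gn p) {a b : V} (hab : a ≠ b) :
    Ln (p a) (p b) ≠ 0 := by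
  intro h
  exact gp2 hp hab (congrArg Prod.fst h)

section

variable {V K : Type} [Fintype V]

theorem out_eq [DecidableEq K] (c : V → K) (lam : V → V → Tw) (P : Finset (V × V))
    (hP : ∀ u w, (u, w) ∈ P ↔ lam u w ≠ 0) (X : K) :
    out c lam X = ∑ z ∈ P.filter (fun z => c z.1 = X), lam z.1 z.2 := by
  classical
  unfold out
  rw [Finset.sum_filter]
  have h : ∑ z ∈ P, (if c z.1 = X then lam z.1 z.2 else 0) =
      ∑ z : V × V, (if c z.1 = X then lam z.1 z.2 else 0) := by
    apply Finset.sum_subset (Finset.subset_univ _)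
    intro z _ hz
    have h0 : lam z.1 z.2 = 0 := by
      by_contra h
      exact hz ((hP z.1 z.2).2 h)
    rw [h0, ite_self]
  rw [h, Fintype.sum_prod_type]
  refine Finset.sum_congr rfl fun u _ => ?_
  by_cases h : c u = X
  · rw [Set.indicator_of_mem (show u ∈ {u | c u = X} from h)]
    exact Finset.sum_congr rfl fun w _ => (if_pos h).symm
  · rw [Set.indicator_of_notMem (show u ∉ {u | c u = X} from h)]
    symm
    exact Finset.sum_eq_zero fun w _ => if_neg h

/-- if all edges of `H` are crossing then the crossing edges are the edges -/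
theorem ec_eq (H : SimpleGraph V) (c : V → K) (S : Set K)
    (hH : ∀ u w, H.Adj u w → Cre H c S u w) : ec H c S = H.edgeSet.ncard := by
  unfold ec ef
  congr 1
  ext z
  constructor
  · rintro ⟨u, w, rfl, h, -⟩
    exact h.1
  · induction z using Sym2.ind with
    | _ u w =>
      intro h
      exact ⟨u, w, rfl, hH u w h, (hH u w h).2.2.2⟩

theorem card_P (H : SimpleGraph V) (P : Finset (V × V))
    (hP : ∀ u w, (u, w) ∈ P ↔ H.Adj u w) : P.card = 2 * H.edgeSet.ncard := by
  classical
  have h1 := SimpleGraph.dart_card_eq_twice_card_edges (G := H)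
  rw [← SimpleGraph.coe_edgeFinset, Set.ncard_coe_finset, ← h1, ← Fintype.card_coe]
  refine Fintype.card_congr ⟨fun z => ⟨z.1, (hP _ _).1 z.2⟩, fun d => ⟨d.1, (hP _ _).2 d.2⟩,
    fun z => rfl, fun d => rfl⟩

/-- the constant motions -/
theorem six_le (G : SimpleGraph V) (c : V → K) (p : V → R3) (S : Set K) (hS : S.Finite)
    (hne : S.Nonempty) : 6 ≤ dmo G c p S := by
  classical
  have : Fintype S := hS.fintype
  obtain ⟨X₀, hX₀⟩ := hne
  let r : Mot G c p S →ₗ[ℝ] (S → Tw) :=
    { toFun := fun m X => m.1 X.1
      map_add' := fun _ _ => rfl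
      map_smul' := fun _ _ => rfl }
  have hr : Function.Injective r := by
    intro m m' h
    apply Subtype.ext
    funext X
    by_cases hX : X ∈ S
    · exact congrFun h ⟨X, hX⟩
    · rw [m.2.2 X hX, m'.2.2 X hX]
  have hfin : Module.Finite ℝ (Mot G c p S) := Module.Finite.of_injective r hr
  let j : Tw →ₗ[ℝ] Mot G c p S :=
    { toFun := fun τ => ⟨fun X => if X ∈ S then τ else 0, by
        refine ⟨fun u w h => ⟨0, ?_⟩, fun X hX => if_neg hX⟩
        show (if c u ∈ S then τ else 0) - (if c w ∈ S then τ else 0) = _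
        rw [if_pos h.2.1, if_pos h.2.2.1, sub_self, zero_smul]⟩
      map_add' := fun τ τ' => by
        apply Subtype.ext
        funext X
        show (if X ∈ S then τ + τ' else 0) = (if X ∈ S then τ else 0) + (if X ∈ S then τ' else 0)
        by_cases hX : X ∈ S
        · rw [if_pos hX, if_pos hX, if_pos hX]
        · rw [if_neg hX, if_neg hX, if_neg hX, add_zero]
      map_smul' := fun a τ => by
        apply Subtype.ext
        funext X
        show (if X ∈ S then a • τ else 0) = a • (if X ∈ S then τ else 0)
        by_cases hX : X ∈ S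
        · rw [if_pos hX, if_pos hX]
        · rw [if_neg hX, if_neg hX, smul_zero] }
  have hj : Function.Injective j := by
    intro τ τ' h
    have h1 := congrFun (congrArg Subtype.val h) X₀
    have h2 : (if X₀ ∈ S then τ else 0) = (if X₀ ∈ S then τ' else 0) := h1
    rw [if_pos hX₀, if_pos hX₀] at h2
    exact h2
  have h := LinearMap.finrank_le_finrank_of_injective hj
  have h6 : Module.finrank ℝ Tw = 6 := by
    show Module.finrank ℝ (R3 × R3) = 6
    rw [Module.finrank_prod, Module.finrank_fintype_fun_eq_card, Fintype.card_fin]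
  rw [h6] at h
  exact h

end

end d0Aux

open d0Aux

theorem d0 (hStar : S_Star) (hGenM : S_GenM) (hNoDbl : S_NoDbl) (hLemN : S_LemN) (hCnt : S_Cnt)
    (hDIM : S_DIM) : S_D0 := by
  classical
  intro V K _ G c p S hS hp hT hFF lam hlam
  have key : ∀ n : ℕ, ∀ (G : SimpleGraph V) (S : Set K), G.edgeSet.ncard = n → S.Finite →
      NoTri G → FF G c p S → ∀ lam, IsStr G c p S lam → lam = 0 := by
    clear hlam lam hFF hT hS S G
    intro n
    induction n using Nat.strong_induction_on with
    | _ n ih =>
      intro G S hn hS hT hFF lam hlam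
      by_contra hne
      have hanti := hlam.1.anti
      have hsupp := hlam.1.supp
      have hsym : ∀ u w, lam u w ≠ 0 → lam w u ≠ 0 := by
        intro u w h h'
        apply h
        rw [hanti w u, h', neg_zero]
      -- the support graph
      let H : SimpleGraph V :=
        { Adj := fun u w => lam u w ≠ 0
          symm := ⟨fun u w h => hsym u w h⟩
          loopless := ⟨fun u h => (hsupp u u h).1.ne rfl⟩ }
      let S' : Set K := {X | ∃ u w, lam u w ≠ 0 ∧ c u = X}
      have hS'S : S' ⊆ S := by
        rintro X ⟨u, w, h, rfl⟩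
        exact (hsupp u w h).2.1
      have hS' : S'.Finite := hS.subset hS'S
      have hcre : ∀ u w, lam u w ≠ 0 → Cre H c S' u w := fun u w h =>
        ⟨h, ⟨u, w, h, rfl⟩, ⟨w, u, hsym u w h, rfl⟩, (hsupp u w h).2.2.2⟩
      have hmot : ∀ (H' : SimpleGraph V), (∀ u w, H'.Adj u w → lam u w ≠ 0) →
          ∀ m, IsMot G c p S m → IsMot H' c p S' m := by
        intro H' hH' m hm u w h
        exact hm u w (hsupp u w (hH' u w h.1))
      have hff : ∀ (H' : SimpleGraph V), (∀ u w, H'.Adj u w → lam u w ≠ 0) → FF H' c p S' := by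
        intro H' hH' X hX Y hY hXY
        obtain ⟨m, hm, hm'⟩ := hFF X (hS'S hX) Y (hS'S hY) hXY
        exact ⟨m, hmot H' hH' m hm, hm'⟩
      have hnt : ∀ (H' : SimpleGraph V), (∀ u w, H'.Adj u w → lam u w ≠ 0) → NoTri H' := by
        intro H' hH' a b d h
        exact hT a b d ⟨(hsupp _ _ (hH' _ _ h.1)).1, (hsupp _ _ (hH' _ _ h.2.1)).1,
          (hsupp _ _ (hH' _ _ h.2.2)).1⟩
      have hstr : IsStr H c p S' lam :=
        ⟨⟨hanti, hlam.1.orth, hcre⟩, fun X hX => hlam.2 X (hS'S hX)⟩
      obtain ⟨m, hm, hinj⟩ := hGenM V K H c p S' hS' (hff H fun _ _ h => h)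
      -- the coefficients
      have hex : ∀ u w, ∃ t : ℝ, lam u w ≠ 0 → m (c u) - m (c w) = t • Ln (p u) (p w) := by
        intro u w
        by_cases h : lam u w ≠ 0
        · obtain ⟨t, ht⟩ := hm u w (hcre u w h)
          exact ⟨t, fun _ => ht⟩
        · exact ⟨0, fun h' => absurd h' h⟩
      choose t ht using hex
      let C : V → V → ℝ := fun u w => if lam u w ≠ 0 then t u w else 0
      have hCpos : ∀ u w, lam u w ≠ 0 → C u w = t u w := fun u w h => if_pos h
      have hCneg : ∀ u w, ¬ lam u w ≠ 0 → C u w = 0 := fun u w h => if_neg h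
      have hCsym : ∀ u w, C u w = C w u := by
        intro u w
        by_cases h : lam u w ≠ 0
        · rw [hCpos u w h, hCpos w u (hsym u w h)]
          have h1 := ht u w h
          have h2 := ht w u (hsym u w h)
          rw [Ln_neg (p u) (p w), smul_neg] at h2
          have h3 : t w u • Ln (p u) (p w) = m (c u) - m (c w) := by
            rw [← neg_sub, h2, neg_neg]
          rw [h1] at h3
          have h4 : (t w u - t u w) • Ln (p u) (p w) = 0 := by
            rw [sub_smul, h3, sub_self]
          rcases smul_eq_zero.1 h4 with h5 | h5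
          · linarith
          · exact absurd h5 (Ln_ne hp (hsupp u w h).1.ne)
        · rw [hCneg u w h, hCneg w u (fun h' => h (hsym w u h'))]
      have hCo : IsCo H c p S' m C := by
        refine ⟨fun u w h => ?_, hCsym⟩
        rw [hCpos u w h.1]
        exact ht u w h.1
      have hC0 : ∀ u w, lam u w ≠ 0 → C u w ≠ 0 := by
        intro u w h h0
        have h1 := hCo.1 u w (hcre u w h)
        rw [h0, zero_smul, sub_eq_zero] at h1
        exact (hcre u w h).2.2.2 (hinj (hcre u w h).2.1 (hcre u w h).2.2.1 h1)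
      have hstar := hStar V K H c p S' m C lam hp hCo hstr
      have hnd := hNoDbl V K H c p S' m hp hm hinj
      -- the pairs
      let P : Finset (V × V) := Finset.univ.filter fun z => lam z.1 z.2 ≠ 0
      have hP : ∀ u w, (u, w) ∈ P ↔ lam u w ≠ 0 := by
        intro u w
        exact ⟨fun h => (Finset.mem_filter.1 h).2, fun h =>
          Finset.mem_filter.2 ⟨Finset.mem_univ _, h⟩⟩
      have hP2 : ∀ z ∈ P, 2 ≤ (P.filter fun z' => c z'.1 = c z.1).card := by
        intro z hz
        by_contra hlt
        have hzm : z ∈ P.filter fun z' => c z'.1 = c z.1 := Finset.mem_filter.2 ⟨hz, rfl⟩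
        have h1 : (P.filter fun z' => c z'.1 = c z.1).card = 1 := by
          have := Finset.card_pos.2 ⟨z, hzm⟩
          omega
        obtain ⟨z', hz'⟩ := Finset.card_eq_one.1 h1
        have h2 : z' = z := by
          rw [hz', Finset.mem_singleton] at hzm
          exact hzm.symm
        have hz0 : lam z.1 z.2 ≠ 0 := (hP z.1 z.2).1 hz
        have h3 := hstr.2 (c z.1) ⟨z.1, z.2, hz0, rfl⟩
        rw [out_eq c lam P hP, hz', Finset.sum_singleton, h2] at h3
        exact hz0 h3
      have hP3 : ∀ u w, (u, w) ∈ P → c u ∉ (∅ : Finset K) → c w ∉ (∅ : Finset K) →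
          3 ≤ (P.filter fun z' => c z'.1 = c u).card ∨
            3 ≤ (P.filter fun z' => c z'.1 = c w).card := by
        intro u w huw _ _
        by_contra hno
        rw [not_or] at hno
        have huw0 : lam u w ≠ 0 := (hP u w).1 huw
        have hwu : (w, u) ∈ P := (hP w u).2 (hsym u w huw0)
        have c1 : (P.filter fun z' => c z'.1 = c u).card = 2 := by
          have := hP2 (u, w) huw
          have := hno.1
          simp only at *
          omega
        have c2 : (P.filter fun z' => c z'.1 = c w).card = 2 := by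
          have := hP2 (w, u) hwu
          have := hno.2
          simp only at *
          omega
        -- the second element
        have second : ∀ a b, (a, b) ∈ P → (P.filter fun z' => c z'.1 = c a).card = 2 →
            ∃ a' b', c a' = c a ∧ (a', b') ≠ (a, b) ∧ lam a' b' ≠ 0 ∧
              ∀ x y, c x = c a → lam x y ≠ 0 → (x, y) = (a, b) ∨ (x, y) = (a', b') := by
          intro a b hab hc
          have hmem : (a, b) ∈ P.filter fun z' => c z'.1 = c a := Finset.mem_filter.2 ⟨hab, rfl⟩
          obtain ⟨z, hz1, hz2⟩ := Finset.exists_mem_ne (by rw [hc]; norm_num) (a, b)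
          have hset : P.filter (fun z' => c z'.1 = c a) = {(a, b), z} := by
            symm
            apply Finset.eq_of_subset_of_card_le
            · intro y hy
              rcases Finset.mem_insert.1 hy with rfl | hy
              · exact hmem
              · rw [Finset.mem_singleton.1 hy]
                exact hz1
            · rw [hc, Finset.card_pair hz2.symm]
          refine ⟨z.1, z.2, (Finset.mem_filter.1 hz1).2, hz2,
            (hP z.1 z.2).1 (Finset.mem_filter.1 hz1).1, ?_⟩
          intro x y hx hxy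
          have h1 : (x, y) ∈ P.filter fun z' => c z'.1 = c a :=
            Finset.mem_filter.2 ⟨(hP x y).2 hxy, hx⟩
          rw [hset] at h1
          rcases Finset.mem_insert.1 h1 with h2 | h2
          · exact Or.inl h2
          · exact Or.inr (Finset.mem_singleton.1 h2)
        obtain ⟨x₁', y₁, a1, a2, a3, a4⟩ := second u w huw c1
        obtain ⟨x₂', y₂, b1, b2, b3, b4⟩ := second w u hwu c2
        have hcu : c u ∈ S' := ⟨u, w, huw0, rfl⟩
        have hcw : c w ∈ S' := ⟨w, u, hsym u w huw0, rfl⟩
        exact hLemN V K G c p C lam (c u) (c w) u w x₁' x₂' y₁ y₂ hp hT hanti hlam.1.orth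
          (fun a b h => ⟨(hsupp a b h).1, (hsupp a b h).2.2.2⟩) hCsym hC0
          (fun a b a' b' h h' h1 h2 => hnd a b a' b' (hcre a b h) (hcre a' b' h') h1 h2)
          (fun v _ => hstar v) (hstr.2 _ hcu) (hstr.2 _ hcw) (hsupp u w huw0).2.2.2 rfl rfl a1 b1
          a2 b2 huw0 a3 b3 a4 b4
      have hcnt := hCnt V K c P ∅ (fun u w h => (hP w u).2 (hsym u w ((hP u w).1 h))) hP2 hP3
      have hPS : (P.image fun z => c z.1).card = S'.ncard := by
        rw [← Set.ncard_coe_finset]
        congr 1
        ext X
        constructor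
        · intro h
          obtain ⟨z, hz, hzX⟩ := Finset.mem_image.1 (Finset.mem_coe.1 h)
          exact ⟨z.1, z.2, (hP z.1 z.2).1 hz, hzX⟩
        · rintro ⟨u, w, h, rfl⟩
          exact Finset.mem_coe.2 (Finset.mem_image.2 ⟨(u, w), (hP u w).2 h, rfl⟩)
      rw [hPS, card_P H P hP, Finset.card_empty] at hcnt
      -- remove an edge
      have hex2 : ∃ u w, lam u w ≠ 0 := by
        by_contra hno
        push Not at hno
        apply hne
        funext u w
        exact hno u w
      obtain ⟨u₀, w₀, h₀⟩ := hex2
      let H1 : SimpleGraph V := H.deleteEdges {s(u₀, w₀)}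
      have hH1 : ∀ u w, H1.Adj u w → lam u w ≠ 0 := fun u w h =>
        ((SimpleGraph.deleteEdges_adj).1 h).1
      have hH1e : H1.edgeSet.ncard + 1 = H.edgeSet.ncard := by
        show (H.deleteEdges {s(u₀, w₀)}).edgeSet.ncard + 1 = _
        rw [SimpleGraph.edgeSet_deleteEdges]
        exact Set.ncard_sdiff_singleton_add_one (show s(u₀, w₀) ∈ H.edgeSet from h₀)
          (Set.toFinite _)
      have hHG : H.edgeSet ⊆ G.edgeSet := by
        intro z
        induction z using Sym2.ind with
        | _ u w =>
          intro h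
          exact (hsupp u w h).1
      have hHGc : H.edgeSet.ncard ≤ G.edgeSet.ncard := Set.ncard_le_ncard hHG (Set.toFinite _)
      have hno := ih H1.edgeSet.ncard (by omega) H1 S' rfl hS' (hnt H1 hH1) (hff H1 hH1)
      obtain ⟨T, hT1, hT2⟩ := hDIM V K H1 c p S' hS' hp
      have hTbot : T = ⊥ := by
        rw [eq_bot_iff]
        intro lam' h
        rw [Submodule.mem_bot]
        exact hno lam' ((hT1 lam').1 h)
      rw [hTbot, finrank_bot, ec_eq H1 c S' (fun u w h =>
        ⟨h, (hcre u w (hH1 u w h)).2⟩)] at hT2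
      have h6 := six_le H1 c p S' hS' ⟨c u₀, u₀, w₀, h₀, rfl⟩
      omega
  exact key _ G S rfl hS hT hFF lam hlam

end Pool.Agent.MPf1f412
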