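import Mathlib

/-!
# MP_f1f412_co (C34): squares of graphs of girth at least five, definitions

The first part repeats the definitions of `Results/MP_f1f412_co/PendantVertices.lean`.
-/

set_option autoImplicit false

namespace Pool.Agent.MPf1f412

/-- Euclidean 3-space. -/
abbrev E3 : Type := EuclideanSpace ℝ (Fin 3)

/-- The square of a simple graph: distinct vertices at distance at most two are joined. -/
def square {V : Type} (G : SimpleGraph V) : SimpleGraph V where
  Adj u v := u ≠ v ∧ (G.Adj u v ∨ ∃ w, G.Adj u w ∧ G.Adj w v)
  symm := ⟨by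
    rintro u v ⟨h, h'⟩
    refine ⟨h.symm, ?_⟩
    rcases h' with h' | ⟨w, h1, h2⟩
    · exact Or.inl h'.symm
    · exact Or.inr ⟨w, h2.symm, h1.symm⟩⟩
  loopless := ⟨fun u h => h.1 rfl⟩

/-- A configuration in 3-space is generic if its coordinates are algebraically independent
over the rationals. -/
def Generic {V : Type} (p : V → E3) : Prop :=
  AlgebraicIndependent ℚ (fun i : V × Fin 3 => p i.1 i.2)

/-- The framework `(H, p)` is globally rigid in 3-space. -/
def FrameworkGloballyRigid {V : Type} (H : SimpleGraph V) (p : V → E3) : Prop :=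
  ∀ q : V → E3, (∀ u v, H.Adj u v → dist (q u) (q v) = dist (p u) (p v)) →
    ∀ u v, dist (q u) (q v) = dist (p u) (p v)

/-- `H` is generically globally rigid in 3-space: generic configurations exist, and every
generic configuration gives a globally rigid framework. -/
def GloballyRigid {V : Type} (H : SimpleGraph V) : Prop :=
  (∃ p : V → E3, Generic p) ∧ ∀ p : V → E3, Generic p → FrameworkGloballyRigid H p

/-- `H` is `k`-connected: deleting fewer than `k` vertices leaves a connected graph. -/
def KConnected {V : Type} (k : ℕ) (H : SimpleGraph V) : Prop :=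
  ∀ S : Set V, S.Finite → S.ncard < k → (H.induce Sᶜ).Connected

/-- No cycle of length three or four. -/
def NoShortCycle {V : Type} (G : SimpleGraph V) : Prop :=
  (∀ a b c, ¬ (G.Adj a b ∧ G.Adj b c ∧ G.Adj c a)) ∧
  (∀ a b c d, a ≠ c → b ≠ d → ¬ (G.Adj a b ∧ G.Adj b c ∧ G.Adj c d ∧ G.Adj d a))

/-- For the multigraph with vertex type `V`, edge type `E` and end map `ends`, the edge set
`T` is the edge set of a spanning tree. -/
def IsSpanningTree {V E : Type} (ends : E → Sym2 V) (T : Set E) : Prop :=
  Set.InjOn ends T ∧ (SimpleGraph.fromEdgeSet (ends '' T)).IsTree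

/-- The multigraph is highly `k`-tree-connected: after deleting any single edge there are still
`k` edge-disjoint spanning trees. -/
def HighlyTreeConnected {V E : Type} (k : ℕ) (ends : E → Sym2 V) : Prop :=
  ∀ e : E, ∃ T : Fin k → Set E, (∀ i, IsSpanningTree ends (T i)) ∧
    (∀ i j, i ≠ j → Disjoint (T i) (T j)) ∧ ∀ i, e ∉ T i

/-- The end map of the multigraph `kG`: its edges are the pairs (edge of `G`, copy index). -/
def multiple {V : Type} (k : ℕ) (G : SimpleGraph V) : G.edgeSet × Fin k → Sym2 V :=
  fun e => (e.1 : Sym2 V)

/-! ### partitions and tree packing -/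

/-- the edge `z` crosses the partition given by the map `c`: its ends have different values -/
def Crs {V K : Type} (c : V → K) (z : Sym2 V) : Prop := ∃ u v, z = s(u, v) ∧ c u ≠ c v

/-- the number of edges of `G` which cross the partition given by `c` -/
noncomputable def crn {V K : Type} (G : SimpleGraph V) (c : V → K) : ℕ :=
  {z | z ∈ G.edgeSet ∧ Crs c z}.ncard

/-- the number of classes of `c` -/
noncomputable def cls {V K : Type} (c : V → K) : ℕ := (Set.range c).ncard

open Classical in
/-- the vector `δ_u + δ_v` of the edge `{u, v}` over the field with two elements -/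
noncomputable def vec {V : Type} : Sym2 V → (V → ZMod 2) :=
  Sym2.lift ⟨fun u v => Pi.single u 1 + Pi.single v 1, fun _ _ => add_comm _ _⟩

end Pool.Agent.MPf1f412
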