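import Pool.Agent.Lib.MP_f1f412_co.Defs

/-!
# MP_f1f412_co (C34), definitions 2: twists, hinge structures, motions, stresses, placements

The notation follows `TEXT1.md`.  Points are vectors `R3 = Fin 3 → ℝ`, `p : V → R3`.
-/

set_option autoImplicit false

namespace Pool.Agent.MPf1f412

open Matrix

/-- vectors in 3-space -/
abbrev R3 : Type := Fin 3 → ℝ

/-- twists `(ω, τ)` -/
abbrev Tw : Type := R3 × R3

/-- the cross product -/
def cr (x y : R3) : R3 := crossProduct x y

/-- the velocity `ω × x + τ` of the twist at the point `x` -/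
def ev (m : Tw) (x : R3) : R3 := cr m.1 x + m.2

/-- the Klein form `ω · τ' + ω' · τ` -/
def kl (m m' : Tw) : ℝ := m.1 ⬝ᵥ m'.2 + m'.1 ⬝ᵥ m.2

/-- the rotation about the line through `u` and `w` -/
def Ln (u w : R3) : Tw := (w - u, cr u w)

/-! ### derivations -/

/-- a derivation of `ℝ` applied to the coordinates of a vector -/
noncomputable def D3 (D : Derivation ℚ ℝ ℝ) (x : R3) : R3 := fun i => D (x i)

/-- a derivation of `ℝ` applied to the coordinates of a twist -/
noncomputable def DT (D : Derivation ℚ ℝ ℝ) (m : Tw) : Tw := (D3 D m.1, D3 D m.2)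

section V

variable {V K J : Type}

/-- the form of genericity which is used: there are derivations with arbitrary velocities `D p_u`.
(It follows from the algebraic independence of the coordinates, statement `S_Gn`.) -/
def Gn (p : V → R3) : Prop := ∀ v : V → R3, ∃ D : Derivation ℚ ℝ ℝ, ∀ u, D3 D (p u) = v u

/-- `D` is supported on `A` -/
def Spt (p : V → R3) (D : Derivation ℚ ℝ ℝ) (A : Set V) : Prop := ∀ u, u ∉ A → D3 D (p u) = 0

/-- the subspace `T` of the twists is stable under `D` -/
def DSt (D : Derivation ℚ ℝ ℝ) (T : Submodule ℝ Tw) : Prop := ∀ t ∈ T, DT D t ∈ T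

/-- no triangles -/
def NoTri (G : SimpleGraph V) : Prop := ∀ a b c, ¬ (G.Adj a b ∧ G.Adj b c ∧ G.Adj c a)

/-! ### hinge structures: a graph `G` (the hinges), the class map `c : V → K`, a set `S` of classes -/

/-- `u w` is a crossing edge of `G[S]` -/
def Cre (G : SimpleGraph V) (c : V → K) (S : Set K) (u w : V) : Prop :=
  G.Adj u w ∧ c u ∈ S ∧ c w ∈ S ∧ c u ≠ c w

/-- `m` is a motion of the structure `(G, c)` on `S` (only the values of `m` on `S` matter) -/
def IsMot (G : SimpleGraph V) (c : V → K) (p : V → R3) (S : Set K) (m : K → Tw) : Prop :=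
  ∀ u w, Cre G c S u w → ∃ t : ℝ, m (c u) - m (c w) = t • Ln (p u) (p w)

/-- `C` gives the coefficients of the motion `m` -/
def IsCo (G : SimpleGraph V) (c : V → K) (p : V → R3) (S : Set K) (m : K → Tw)
    (C : V → V → ℝ) : Prop :=
  (∀ u w, Cre G c S u w → m (c u) - m (c w) = C u w • Ln (p u) (p w)) ∧ ∀ u w, C u w = C w u

/-- the space of the motions on `S` (with value `0` outside of `S`) -/
def Mot (G : SimpleGraph V) (c : V → K) (p : V → R3) (S : Set K) : Submodule ℝ (K → Tw) where
  carrier := {m | IsMot G c p S m ∧ ∀ X, X ∉ S → m X = 0}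
  add_mem' := by
    rintro a b ⟨ha, ha'⟩ ⟨hb, hb'⟩
    refine ⟨fun u w h => ?_, fun X hX => by rw [Pi.add_apply, ha' X hX, hb' X hX, add_zero]⟩
    obtain ⟨s, hs⟩ := ha u w h
    obtain ⟨t, ht⟩ := hb u w h
    refine ⟨s + t, ?_⟩
    rw [Pi.add_apply, Pi.add_apply, add_smul, ← hs, ← ht]
    abel
  zero_mem' := ⟨fun u w h => ⟨0, by simp⟩, fun X hX => rfl⟩
  smul_mem' := by
    rintro r a ⟨ha, ha'⟩
    refine ⟨fun u w h => ?_, fun X hX => by rw [Pi.smul_apply, ha' X hX, smul_zero]⟩
    obtain ⟨s, hs⟩ := ha u w h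
    refine ⟨r * s, ?_⟩
    rw [Pi.smul_apply, Pi.smul_apply, ← smul_sub, hs, smul_smul]

/-- the dimension of the space of the motions on `S` -/
noncomputable def dmo (G : SimpleGraph V) (c : V → K) (p : V → R3) (S : Set K) : ℕ :=
  Module.finrank ℝ (Mot G c p S)

/-- all motions are constant on `S` -/
def Rig (G : SimpleGraph V) (c : V → K) (p : V → R3) (S : Set K) : Prop :=
  ∀ m, IsMot G c p S m → ∀ X ∈ S, ∀ Y ∈ S, m X = m Y

/-- fully flexible: different classes of `S` are separated by motions -/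
def FF (G : SimpleGraph V) (c : V → K) (p : V → R3) (S : Set K) : Prop :=
  ∀ X ∈ S, ∀ Y ∈ S, X ≠ Y → ∃ m, IsMot G c p S m ∧ m X ≠ m Y

/-- the sum of `lam` out of the class `X` -/
noncomputable def out [Fintype V] (c : V → K) (lam : V → V → Tw) (X : K) : Tw :=
  ∑ u, ({u | c u = X} : Set V).indicator (fun u => ∑ w, lam u w) u

/-- `lam` is antisymmetric, supported on the crossing edges of `G[S]`, and orthogonal to the hinges -/
structure Pre (G : SimpleGraph V) (c : V → K) (p : V → R3) (S : Set K) (lam : V → V → Tw) :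
    Prop where
  anti : ∀ u w, lam w u = - lam u w
  orth : ∀ u w, kl (lam u w) (Ln (p u) (p w)) = 0
  supp : ∀ u w, lam u w ≠ 0 → Cre G c S u w

/-- `lam` is a stress on `S` -/
def IsStr [Fintype V] (G : SimpleGraph V) (c : V → K) (p : V → R3) (S : Set K)
    (lam : V → V → Tw) : Prop :=
  Pre G c p S lam ∧ ∀ X ∈ S, out c lam X = 0

/-- the number of the crossing edges of `G[S]` whose ends have different values of `f` -/
noncomputable def ef (G : SimpleGraph V) (c : V → K) (S : Set K) (f : K → J) : ℕ :=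
  {z : Sym2 V | ∃ u w, z = s(u, w) ∧ Cre G c S u w ∧ f (c u) ≠ f (c w)}.ncard

/-- the number of the crossing edges of `G[S]` -/
noncomputable def ec (G : SimpleGraph V) (c : V → K) (S : Set K) : ℕ := ef G c S id

/-- `s_S(f) = 5 #{crossing edges with different values} - 6 (|f(S)| - 1)` -/
noncomputable def sf (G : SimpleGraph V) (c : V → K) (S : Set K) (f : K → J) : ℤ :=
  5 * (ef G c S f : ℤ) - 6 * (((f '' S).ncard : ℤ) - 1)

/-- the component of the class `X` in the structure on `S` -/
def cmp (G : SimpleGraph V) (c : V → K) (p : V → R3) (S : Set K) (X : K) : Set K :=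
  {Y | Y ∈ S ∧ ∀ m, IsMot G c p S m → m Y = m X}

end V

/-! ### isometries and placements -/

/-- the isometry `x ↦ A x + b` -/
structure Iso3 where
  A : Matrix (Fin 3) (Fin 3) ℝ
  b : R3
  orth : Aᵀ * A = 1

/-- the value of the isometry -/
def Iso3.ap (g : Iso3) (x : R3) : R3 := g.A *ᵥ x + g.b

/-- the transposed linear part `B_X = A_X⁻¹` -/
def Iso3.B (g : Iso3) : Matrix (Fin 3) (Fin 3) ℝ := g.Aᵀ

section V

variable {V K : Type}

/-- the square of the distance -/
def dsq (x y : R3) : ℝ := (x - y) ⬝ᵥ (x - y)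

/-- the frameworks `(H, p)` and `(H, q)` are equivalent -/
def Eqv (H : SimpleGraph V) (p q : V → R3) : Prop :=
  ∀ u w, H.Adj u w → dsq (q u) (q w) = dsq (p u) (p w)

/-- `u` is in the closed neighbourhood of a vertex of the class `X`: `u` is a pin of `X` -/
def Pin (G : SimpleGraph V) (c : V → K) (X : K) (u : V) : Prop :=
  ∃ v, c v = X ∧ (u = v ∨ G.Adj v u)

/-- `(c, g)` is a placement for `p, q` -/
def Pl (G : SimpleGraph V) (p q : V → R3) (c : V → K) (g : K → Iso3) : Prop :=
  ∀ X u, Pin G c X u → q u = (g X).ap (p u)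

/-- minimality of the placement in the form which is used: no two different classes are moved by the
same isometry -/
def MinPl (G : SimpleGraph V) (p q : V → R3) (c : V → K) : Prop :=
  ∀ X ∈ Set.range c, ∀ Y ∈ Set.range c, X ≠ Y →
    ¬ ∃ g : Iso3, (∀ u, Pin G c X u → q u = g.ap (p u)) ∧ ∀ u, Pin G c Y u → q u = g.ap (p u)

end V

end Pool.Agent.MPf1f412
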