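import Pool.Agent.Lib.MP_f1f412_co.SpecP

/-!
# MP_f1f412_co (C34), definitions 3: the environment, double edges, clusters (nodes)

`Env` contains the hypotheses (HYP) of TEXT2 together with the basic consequences (T), (T0), (F4).
`NEnv` contains in addition the map `π : K → N` from the classes to the nodes (clusters) and the results
of TEXT2 on nodes.  A set of nodes is a set `S : Set N`; its classes are `π ⁻¹' S`; the coarser structure
whose classes are the nodes is `(G, π ∘ c)`.
-/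

set_option autoImplicit false

namespace Pool.Agent.MPf1f412

open Matrix

section

variable {V K N : Type}

/-- `m` satisfies the hinge conditions at all vertices except `z` (it is given by the transfer lemma
for a field supported on `{z}`) -/
def Lse (G : SimpleGraph V) (c : V → K) (p : V → R3) (z : V) (m : K → Tw) : Prop :=
  ∀ u, u ≠ z → ∀ X Y, Pin G c X u → Pin G c Y u → ev (m X - m Y) (p u) = 0

/-- the environment of the sections 5 to 11: the hypotheses (HYP) and the basic consequences -/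
structure Env (G : SimpleGraph V) (c : V → K) (p q : V → R3) (g : K → Iso3) : Prop where
  hyp : Hyp G
  gn : Gn p
  surj : Function.Surjective c
  pl : Pl G p q c g
  mp : MinPl G p q c
  two : ∃ X Y : K, X ≠ Y
  /-- all motions are constant -/
  rig : Rig G c p Set.univ
  /-- `s(f) ≥ 1` for non-constant `f` -/
  cntK : ∀ (J : Type) (f : K → J), (∃ X Y, f X ≠ f Y) → 1 ≤ sf G c Set.univ f
  /-- the transfer lemma -/
  T : ∀ η : V → R3, ∃ m : K → Tw, ∀ X Y u, Pin G c X u → Pin G c Y u →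
    ev (m X - m Y) (p u) = ((g X).B - (g Y).B) *ᵥ η u
  T0 : ∀ X Y z, X ≠ Y → Pin G c X z → Pin G c Y z → (g X).B ≠ (g Y).B
  /-- the transfer lemma for fields supported on one vertex together with (T0) -/
  tr : ∀ z X Y, X ≠ Y → Pin G c X z → Pin G c Y z →
    ∃ m : K → Tw, Lse G c p z m ∧ ev (m X - m Y) (p z) ≠ 0
  f4a : ∀ u w u' w', G.Adj u w → G.Adj u' w' → c u = c u' → c w = c w' → c u ≠ c w → u ≠ u' →
    w = w'
  f4b : ∀ z a b d, G.Adj z a → G.Adj z b → G.Adj z d → c a = c b → c b = c d → c z ≠ c a →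
    a = b ∨ a = d ∨ b = d
  f4c : ∀ z b b', G.Adj z b → G.Adj z b' → b ≠ b' → c b = c b' → c z ≠ c b →
    (∃ v, v ≠ z ∧ c v = c z) ∨ ∃ x, G.Adj z x ∧ x ≠ b ∧ x ≠ b'

/-- a double edge between the classes `X` and `Y` with the centre `z` in `Y` and the partners
`b, b'` in `X` -/
structure Dbl (G : SimpleGraph V) (c : V → K) (X Y : K) (z b b' : V) : Prop where
  ne : X ≠ Y
  bb : b ≠ b'
  cz : c z = Y
  cb : c b = X
  cb' : c b' = X
  ab : G.Adj z b
  ab' : G.Adj z b'

/-- there is a double edge between `X` and `Y` -/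
def DE (G : SimpleGraph V) (c : V → K) (X Y : K) : Prop :=
  ∃ z b b', Dbl G c X Y z b b' ∨ Dbl G c Y X z b b'

/-- the number of edges leaving the set `S` of classes -/
noncomputable def dK (G : SimpleGraph V) (c : V → K) (S : Set K) : ℕ :=
  {e : V × V | G.Adj e.1 e.2 ∧ c e.1 ∈ S ∧ c e.2 ∉ S}.ncard

/-- the class `X` has exactly the two crossing edges `x y` and `x' y'` (`x, x'` in `X`), they go to different
classes; if `x = x'` then `X = {x}` and `x` has degree two -/
structure D2 (G : SimpleGraph V) (c : V → K) (X : K) (x y x' y' : V) : Prop where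
  cx : c x = X
  cx' : c x' = X
  cy : c y ≠ X
  cy' : c y' ≠ X
  cyy : c y ≠ c y'
  adj : G.Adj x y
  adj' : G.Adj x' y'
  all : ∀ u w, c u = X → c w ≠ X → G.Adj u w → (u = x ∧ w = y) ∨ (u = x' ∧ w = y')
  one : x = x' → (∀ v, c v = X → v = x) ∧ ∀ t, G.Adj x t → t = y ∨ t = y'

/-- type I: the set `A` of classes is `{Z0, Z1}`, joined by a double edge with the centre `z` in `Z1` and the
partners `b, b'` in `Z0`; the edges leaving `A` are `b y`, `b' y'`, `a y₁` (`a` in `Z1`) -/
structure TyI (G : SimpleGraph V) (c : V → K) (A : Set K) (Z0 Z1 : K) (z b b' a y y' y₁ : V) :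
    Prop where
  set : A = {Z0, Z1}
  dbl : Dbl G c Z0 Z1 z b b'
  inn : ∀ u w, G.Adj u w → c u = Z0 → c w = Z1 → w = z ∧ (u = b ∨ u = b')
  ca : c a = Z1
  adj : G.Adj b y
  adj' : G.Adj b' y'
  adj₁ : G.Adj a y₁
  cy : c y ∉ A
  cy' : c y' ∉ A
  cy₁ : c y₁ ∉ A
  all : ∀ u w, G.Adj u w → c u ∈ A → c w ∉ A →
    (u = b ∧ w = y) ∨ (u = b' ∧ w = y') ∨ (u = a ∧ w = y₁)

/-- type II: the set `A` of classes is `{U, X 0, X 1, X 2}`; `X i` contains the centre `z i` of a double edge
with `U`, its partners are the two `b j`, `j ≠ i`, in `U`; the edges leaving `A` are `a i, y i` with `a i` in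
`X i` -/
structure TyII (G : SimpleGraph V) (c : V → K) (A : Set K) (U : K) (X : Fin 3 → K)
    (z b a y : Fin 3 → V) : Prop where
  set : ∀ Y, Y ∈ A ↔ Y = U ∨ ∃ i, Y = X i
  injX : Function.Injective X
  neX : ∀ i, X i ≠ U
  injb : Function.Injective b
  cz : ∀ i, c (z i) = X i
  cb : ∀ j, c (b j) = U
  ab : ∀ i j, i ≠ j → G.Adj (z i) (b j)
  inn : ∀ u w, G.Adj u w → c u ∈ A → c w ∈ A → c u ≠ c w →
    ∃ i j, i ≠ j ∧ ((u = z i ∧ w = b j) ∨ (u = b j ∧ w = z i))
  ca : ∀ i, c (a i) = X i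
  adj : ∀ i, G.Adj (a i) (y i)
  cy : ∀ i, c (y i) ∉ A
  all : ∀ u w, G.Adj u w → c u ∈ A → c w ∉ A → ∃ i, u = a i ∧ w = y i

/-- the environment with nodes: `π` maps the classes to the nodes (the components of the graph `DE`) -/
structure NEnv (G : SimpleGraph V) (c : V → K) (p q : V → R3) (g : K → Iso3) (π : K → N) :
    Prop where
  env : Env G c p q g
  psurj : Function.Surjective π
  pde : ∀ X Y, π X = π Y ↔ Relation.ReflTransGen (DE G c) X Y
  /-- there are at least two nodes -/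
  twoN : ∃ A B : N, A ≠ B
  /-- (C6) motions are constant on the nodes -/
  motN : ∀ (S : Set N) (m : K → Tw), IsMot G c p (π ⁻¹' S) m → ∀ X Y, π X ∈ S → π X = π Y →
    m X = m Y
  /-- `s(f) ≥ 1` for non-constant maps on the nodes -/
  cntN : ∀ (J : Type) (f : N → J), (∃ A B, f A ≠ f B) → 1 ≤ sf G (π ∘ c) Set.univ f
  /-- (SLOW a), also for sets with one element: at most one edge between a node and a rigid set -/
  slow : ∀ (S : Set K) (A : N), Rig G c p S → (∀ X ∈ S, π X ≠ A) → ∀ u y u' y',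
    π (c u) = A → π (c u') = A → c y ∈ S → c y' ∈ S → G.Adj u y → G.Adj u' y' → u = u' ∧ y = y'
  /-- (SLOW) for sets of nodes, in the structure `(G, π ∘ c)` -/
  slowN : ∀ (S : Set N) (A : N), Rig G (π ∘ c) p S → A ∉ S → ∀ u y u' y',
    π (c u) = A → π (c u') = A → π (c y) ∈ S → π (c y') ∈ S → G.Adj u y → G.Adj u' y' →
    u = u' ∧ y = y'
  /-- every proper nonempty set of nodes has at least two edges leaving it -/
  deg : ∀ S : Set N, S.Nonempty → S ≠ Set.univ → 2 ≤ dK G (π ∘ c) S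
  /-- (NF) nodes of degree two -/
  deg2 : ∀ A : N, dK G (π ∘ c) {A} = 2 → ∃ X x y x' y', (∀ Y, π Y = A ↔ Y = X) ∧
    D2 G c X x y x' y'
  /-- (NF) nodes of degree three -/
  deg3 : ∀ A : N, dK G (π ∘ c) {A} = 3 → (∃ X, ∀ Y, π Y = A ↔ Y = X) ∨
    (∃ Z0 Z1 z b b' a y y' y₁, TyI G c {Y | π Y = A} Z0 Z1 z b b' a y y' y₁) ∨
    ∃ U X z b a y, TyII G c {Y | π Y = A} U X z b a y

end

end Pool.Agent.MPf1f412
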