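import Pool.Agent.Lib.MP_f1f412_co.SpecP

/-!
# MP_f1f412_co (C34), definitions 3: nodes (clusters) and their graph (TEXT2 section 7, TEXT3)

`cp : V → N` is the map vertex ↦ node, `cp = h ∘ c`.  `NG G cp` is the simple graph on the nodes.
-/

set_option autoImplicit false

namespace Pool.Agent.MPf1f412

open Matrix

section

variable {V K N J : Type}

/-- the number of edges of `G` with one end in `A` and the other one in `B` -/
noncomputable def bt (G : SimpleGraph V) (A B : Set V) : ℕ :=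
  {z : Sym2 V | ∃ u w, z = s(u, w) ∧ G.Adj u w ∧ u ∈ A ∧ w ∈ B}.ncard

/-- `d(A)`: the number of edges of `G` leaving the set `A` -/
noncomputable def dl (G : SimpleGraph V) (A : Set V) : ℕ := bt G A Aᶜ

/-- the graph on the nodes: two different nodes are joined if there is an edge between them -/
def NG (G : SimpleGraph V) (cp : V → N) : SimpleGraph N where
  Adj X Y := X ≠ Y ∧ ∃ u w, G.Adj u w ∧ cp u = X ∧ cp w = Y
  symm := ⟨by
    rintro X Y ⟨h, u, w, h1, h2, h3⟩
    exact ⟨h.symm, w, u, h1.symm, h3, h2⟩⟩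
  loopless := ⟨fun X h => h.1 rfl⟩

/-- the set of vertices of the class `X` -/
def VC (c : V → K) (X : K) : Set V := {v | c v = X}

/-- the node `n` is a single class `X` -/
def NSingle (h : K → N) (n : N) (X : K) : Prop := h X = n ∧ ∀ Y, h Y = n → Y = X

/-- the node `n` is a cluster of type I (with `d(n) = 3`): classes `Z0 ∋ b, b'`, `Z1 ∋ z, a`; inner
crossing edges `zb`, `zb'`; legs `b o`, `b' o'`, `a o''`. -/
structure TypeI (G : SimpleGraph V) (c : V → K) (h : K → N) (n : N) (Z0 Z1 : K)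
    (z b b' a o o' o'' : V) : Prop where
  ne : Z0 ≠ Z1
  cls : ∀ X, h X = n ↔ X = Z0 ∨ X = Z1
  cz : c z = Z1
  cb : c b = Z0
  cb' : c b' = Z0
  ca : c a = Z1
  bb : b ≠ b'
  e1 : G.Adj z b
  e2 : G.Adj z b'
  l1 : G.Adj b o
  l2 : G.Adj b' o'
  l3 : G.Adj a o''
  o1 : h (c o) ≠ n
  o2 : h (c o') ≠ n
  o3 : h (c o'') ≠ n
  inner : ∀ u w, G.Adj u w → c u = Z1 → c w = Z0 → u = z ∧ (w = b ∨ w = b')
  legs : ∀ u w, G.Adj u w → h (c u) = n → h (c w) ≠ n →
    (u = b ∧ w = o) ∨ (u = b' ∧ w = o') ∨ (u = a ∧ w = o'')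

/-- the node `n` is a cluster of type II (with `d(n) = 3`): classes `U ∋ b 0, b 1, b 2` and
`X i ∋ z i, a i` (`i : Fin 3`); `z i` is adjacent to `b j` for `j ≠ i`; legs `a i - o i`. -/
structure TypeII (G : SimpleGraph V) (c : V → K) (h : K → N) (n : N) (U : K) (X : Fin 3 → K)
    (z b a o : Fin 3 → V) : Prop where
  neU : ∀ i, X i ≠ U
  inj : Function.Injective X
  cls : ∀ Y, h Y = n ↔ Y = U ∨ ∃ i, Y = X i
  cz : ∀ i, c (z i) = X i
  cb : ∀ i, c (b i) = U
  ca : ∀ i, c (a i) = X i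
  binj : Function.Injective b
  e : ∀ i j, i ≠ j → G.Adj (z i) (b j)
  l : ∀ i, G.Adj (a i) (o i)
  o1 : ∀ i, h (c (o i)) ≠ n
  inner : ∀ u w i, G.Adj u w → c u = X i → c w = U → u = z i ∧ ∃ j, j ≠ i ∧ w = b j
  inner' : ∀ u w i j, G.Adj u w → c u = X i → c w = X j → i = j
  legs : ∀ u w, G.Adj u w → h (c u) = n → h (c w) ≠ n → ∃ i, u = a i ∧ w = o i

/-- **The node structure** (result of TEXT2): `cp = h ∘ c`.  A set `S` of classes is called rigid if
`Rig G c p S`. -/
structure Nod (G : SimpleGraph V) (c : V → K) (p : V → R3) (h : K → N) : Prop where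
  surj : Function.Surjective h
  two : ∃ n n' : N, n ≠ n'
  rig : ∀ n, Rig G c p {X | h X = n}
  slowA : ∀ (n : N) (S : Set K), Rig G c p S → (∀ X ∈ S, h X ≠ n) → (∃ X ∈ S, ∃ Y ∈ S, X ≠ Y) →
    bt G {v | h (c v) = n} {v | c v ∈ S} ≤ 1
  slowB : ∀ n n' : N, n ≠ n' → bt G {v | h (c v) = n} {v | h (c v) = n'} ≤ 1
  deg : ∀ n, 2 ≤ dl G {v | h (c v) = n}
  d2 : ∀ n, dl G {v | h (c v) = n} = 2 → ∃ X, NSingle h n X
  d3 : ∀ n, dl G {v | h (c v) = n} = 3 → (∃ X, NSingle h n X) ∨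
    (∃ Z0 Z1 z b b' a o o' o'', TypeI G c h n Z0 Z1 z b b' a o o' o'') ∨
    ∃ U X z b a o, TypeII G c h n U X z b a o

/-- the count for all non-constant maps on the nodes: `s(f) ≥ 1` -/
def CntN (Γ : SimpleGraph N) : Prop :=
  ∀ (J : Type) (f : N → J), (∃ X Y, f X ≠ f Y) → 1 ≤ sf Γ id Set.univ f

/-- (ND) no two nodes of degree two are adjacent -/
def ND (Γ : SimpleGraph N) : Prop := ∀ X Y, Γ.Adj X Y → dl Γ {X} = 2 → dl Γ {Y} ≠ 2

/-- the property (RC) of the graph of the nodes used in section 10: for every set `S` of nodes there is a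
map `r` (the rigid components) such that a node outside of `S` sends at most one edge to each component, and
the number of edges between different components is small -/
def RCP (Γ : SimpleGraph N) : Prop := ∀ S : Set N, ∃ r : N → Set N,
  (∀ X, X ∉ S → ∀ j, bt Γ {X} {Y | Y ∈ S ∧ r Y = j} ≤ 1) ∧
  (2 ≤ (r '' S).ncard → 5 * ef Γ id S r + 7 ≤ 6 * (r '' S).ncard)

end

end Pool.Agent.MPf1f412
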