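import Pool.Agent.Lib.MP_f1f412_co.Spec8
import Pool.Agent.Lib.MP_f1f412_co.Basic

/-!
# MP_f1f412_co (C34): differences of motions (S_Sp0)
-/

set_option autoImplicit false

namespace Pool.Agent.MPf1f412

open Matrix

private theorem sp_le {V K : Type} (G : SimpleGraph V) (c : V → K) (p : V → R3) (S : Set K)
    (X Y : K) : Sp G c p S X Y ≤ Sp G c p S Y X := by
  rintro t ⟨m, hm, rfl⟩
  refine ⟨(-1 : ℝ) • m, hm.smul (-1), ?_⟩
  rw [Pi.smul_apply, Pi.smul_apply, neg_one_smul, neg_one_smul]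
  abel

theorem e8Sp0 (h1 : S_Stab) : S_Sp0 := by
  intro V K G c p S X Y
  refine ⟨le_antisymm (sp_le G c p S X Y) (sp_le G c p S Y X), ?_, ?_⟩
  · rw [Submodule.eq_bot_iff]
    rintro t ⟨m, hm, rfl⟩
    exact sub_self _
  · rintro D A hS hA t ⟨m, hm, rfl⟩
    refine ⟨fun X => DT D (m X), h1 V K G c p S D A hS hA m hm, ?_⟩
    exact DT_sub D _ _

end Pool.Agent.MPf1f412
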