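import Pool.Agent.Lib.MP_f1f412_co.Spec8
import Pool.Agent.Lib.MP_f1f412_co.Basic

set_option autoImplicit false

namespace Pool.Agent.MPf1f412

open Matrix

/-- the elements of `T` orthogonal to `L` are multiples of one of them -/
private theorem e8bb_one (T : Submodule ℝ Tw) (hT : Module.finrank ℝ T ≤ 2) (L t : Tw)
    (ht : t ∈ T) (htL : kl t L ≠ 0) : ∃ s₀ : Tw, ∀ s ∈ T, kl s L = 0 → ∃ r : ℝ, s = r • s₀ := by
  obtain ⟨T₀, hT₀⟩ : ∃ T₀, T₀ = T ⊓ LinearMap.ker (klB L) := ⟨_, rfl⟩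
  have hmem : ∀ s, s ∈ T₀ ↔ s ∈ T ∧ kl s L = 0 := by
    intro s
    rw [hT₀, Submodule.mem_inf, LinearMap.mem_ker, klB_apply, kl_symm]
  have hlt : T₀ < T := by
    refine lt_of_le_of_ne (fun s hs => ((hmem s).1 hs).1) (fun h => ?_)
    rw [← h] at ht
    exact htL ((hmem t).1 ht).2
  have hfr := Submodule.finrank_lt_finrank_of_lt hlt
  have h1 : Module.finrank ℝ T₀ ≤ 1 := by omega
  rw [finrank_le_one_iff] at h1
  obtain ⟨v, hv⟩ := h1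
  refine ⟨v.1, fun s hs hsL => ?_⟩
  obtain ⟨r, hr⟩ := hv ⟨s, (hmem s).2 ⟨hs, hsL⟩⟩
  exact ⟨r, (congrArg Subtype.val hr).symm⟩

theorem e8bb (h1 : S_bbS) (h2 : S_Sp0) (h3 : S_EV) : S_bb := by
  intro V K _ G c p q g X₁ X₂ v w y₁ y₂ hN hT
  have hG := hN.gn
  have hA := hN.ad
  have hvw : G.Adj v w := hA.e0
  have hvy : G.Adj v y₁ := hA.e1
  have hwy : G.Adj w y₂ := hA.e2
  have hyy : y₁ ≠ y₂ := by
    intro h
    rw [← h] at hwy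
    exact hN.tri v w y₁ ⟨hvw, hwy, hvy.symm⟩
  have hstab : ∀ x, c x = X₁ ∨ c x = X₂ → ∀ D, Spt p D {x} →
      DSt D (Sp G c p (Rest X₁ X₂) (c y₁) (c y₂)) := by
    intro x hx D hD
    refine (h2 V K G c p (Rest X₁ X₂) (c y₁) (c y₂)).2.2 D {x} hD ?_
    intro u hu z hz
    rw [Set.mem_singleton_iff] at hu
    rw [hu] at hz
    have hS : c x ∈ Rest X₁ X₂ := hz.2.1
    rcases hx with hx | hx
    · exact hS.1 hx
    · exact hS.2 hx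
  have hRest : Rest X₂ X₁ = Rest X₁ X₂ := by
    ext X
    exact and_comm
  by_cases hc1 : ∃ t ∈ Sp G c p (Rest X₁ X₂) (c y₁) (c y₂), kl t (Ln (p y₁) (p w)) ≠ 0
  · obtain ⟨t, ht, htL⟩ := hc1
    obtain ⟨s₀, hs₀⟩ := e8bb_one _ hT _ t ht htL
    exact h1 V K G c p q g X₁ X₂ v w y₁ y₂ s₀ hN hs₀
  by_cases hc2 : ∃ t ∈ Sp G c p (Rest X₁ X₂) (c y₁) (c y₂), kl t (Ln (p y₂) (p v)) ≠ 0
  · obtain ⟨t, ht, htL⟩ := hc2
    obtain ⟨s₀, hs₀⟩ := e8bb_one _ hT _ t ht htL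
    refine h1 V K G c p q g X₂ X₁ w v y₂ y₁ s₀ hN.symm ?_
    rw [hRest, (h2 V K G c p (Rest X₁ X₂) (c y₂) (c y₁)).1]
    exact hs₀
  push Not at hc1 hc2
  have k1 : ∀ t ∈ Sp G c p (Rest X₁ X₂) (c y₁) (c y₂), ev t (p y₁) = 0 := by
    refine h3 V p _ w y₁ hG ?_ (hstab w (Or.inr hA.c2)) ?_
    · intro h
      apply hA.n12
      rw [← h]
      exact hA.c2
    · intro t ht
      rw [Ln_swap, kl_neg_right, hc1 t ht, neg_zero]
  have k2 : ∀ t ∈ Sp G c p (Rest X₁ X₂) (c y₁) (c y₂), ev t (p y₂) = 0 := by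
    refine h3 V p _ v y₂ hG ?_ (hstab v (Or.inl hA.c1)) ?_
    · intro h
      apply hA.n21
      rw [← h]
      exact hA.c1
    · intro t ht
      rw [Ln_swap, kl_neg_right, hc2 t ht, neg_zero]
  exact h1 V K G c p q g X₁ X₂ v w y₁ y₂ (Ln (p y₁) (p y₂)) hN
    (fun s hs _ => t1 (hG.inj hyy) (k1 s hs) (k2 s hs))

end Pool.Agent.MPf1f412
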