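import Pool.Agent.Lib.MP_f1f412_co.SpecF

set_option autoImplicit false

namespace Pool.Agent.MPf1f412

namespace fCoreAux

theorem notMem {V : Type} (G : SimpleGraph V) (l u : V) (h : Leaf G l u) : l ∉ core G := by
  rintro ⟨U, hU, hl⟩
  obtain ⟨a, -, b, -, hab, ha, hb⟩ := hU l hl
  exact hab (((h a).1 ha).trans ((h b).1 hb).symm)

theorem mem_iff {V : Type} (G : SimpleGraph V) (l u : V) (h : Leaf G l u) (x : {x // x ≠ l}) :
    x ∈ core (del G l) ↔ x.1 ∈ core G := by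
  constructor
  · rintro ⟨U, hU, hx⟩
    refine ⟨Subtype.val '' U, ?_, ⟨x, hx, rfl⟩⟩
    rintro _ ⟨v, hv, rfl⟩
    obtain ⟨a, ha, b, hb, hab, h1, h2⟩ := hU v hv
    exact ⟨a.1, ⟨a, ha, rfl⟩, b.1, ⟨b, hb, rfl⟩, fun h => hab (Subtype.ext h), h1, h2⟩
  · rintro ⟨U, hU, hx⟩
    have hl : ∀ y ∈ U, y ≠ l := by
      intro y hy hyl
      apply notMem G l u h
      rw [← hyl]
      exact ⟨U, hU, hy⟩
    refine ⟨Subtype.val ⁻¹' U, ?_, hx⟩
    intro v hv
    obtain ⟨a, ha, b, hb, hab, h1, h2⟩ := hU v.1 hv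
    exact ⟨⟨a, hl a ha⟩, ha, ⟨b, hl b hb⟩, hb, fun h => hab (congrArg Subtype.val h), h1, h2⟩

end fCoreAux

open fCoreAux in
theorem fCore : S_FCore := by
  intro V G
  refine ⟨?_, ?_⟩
  · intro l u h
    refine ⟨⟨⟨fun x => ⟨x.1.1, (mem_iff G l u h x.1).1 x.2⟩,
      fun y => ⟨⟨y.1, fun hy => notMem G l u h (hy ▸ y.2)⟩, (mem_iff G l u h _).2 y.2⟩,
      fun x => rfl, fun y => rfl⟩, ?_⟩⟩
    intro a b
    exact Iff.rfl
  · intro h
    have hc : core G = Set.univ := by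
      apply Set.eq_univ_of_univ_subset
      intro x _
      refine ⟨Set.univ, ?_, Set.mem_univ x⟩
      intro v _
      obtain ⟨a, b, hab, h1, h2⟩ := h v
      exact ⟨a, Set.mem_univ a, b, Set.mem_univ b, hab, h1, h2⟩
    rw [hc]
    exact ⟨SimpleGraph.induceUnivIso G⟩

end Pool.Agent.MPf1f412
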