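import Pool.Agent.Lib.MP_f1f412_co.SpecM
import Pool.Agent.Lib.MP_f1f412_co.Basic

/-!
# MP_f1f412_co (C34): C3, legs of a class in a cluster
-/

set_option autoImplicit false

namespace Pool.Agent.MPf1f412

open Matrix

private theorem dbl_swap {V K : Type} {G : SimpleGraph V} {c : V → K} {X Y : K} {z b b' : V}
    (h : Dbl G c X Y z b b') : Dbl G c X Y z b' b :=
  ⟨h.ne, h.bb.symm, h.cz, h.cb', h.cb, h.ab', h.ab⟩

theorem mC3 (h1 : S_F3) (h2 : S_DEs) (h3 : S_C2) (h4 : S_N1) : S_C3 := by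
  intro V K _ G c p q g Y X henv hY hnt hX
  have hK : Finite K := Finite.of_surjective c henv.surj
  obtain ⟨hsymm, hdes⟩ := h2 V K G c p q g henv
  have hC2 := (h3 V K G c p q g Y henv hY.2.1 hY.1).2
  -- a double edge at `X`
  have hIO : 1 ≤ iN G c X + oN G c X := by
    obtain ⟨X', hX', hne⟩ := hnt.exists_ne X
    have hch := hY.2.1 X hX X' hX'
    rcases Relation.ReflTransGen.cases_head hch with h | ⟨B, ⟨_, _, z, b, b', hD⟩, _⟩
    · exact absurd h.symm hne
    · rcases hD with hD | hD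
      · have h5 : 0 < iN G c X := (Set.ncard_pos (Set.toFinite _)).mpr ⟨B, z, b, b', hD⟩
        omega
      · have h5 : 0 < oN G c X := (Set.ncard_pos (Set.toFinite _)).mpr ⟨B, z, b, b', hD⟩
        omega
  -- partners of a double edge
  have hpart : ∀ Y₁ z b b', Dbl G c X Y₁ z b b' → ∀ z' x x', Dbl G c X Y₁ z' x x' →
      x = b ∨ x = b' := by
    intro Y₁ z b b' hD z' x x' hD'
    rcases ((hdes X Y₁ z b b' hD).2.2.2 z' x x' hD').2 with h | h
    · exact Or.inl h.1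
    · exact Or.inr h.1
  have key1 : iN G c X = 1 → 2 ≤ lN G c Y X + oN G c X := by
    intro hi
    obtain ⟨Y₁, hY₁⟩ := Set.ncard_eq_one.mp hi
    have hmem : Y₁ ∈ {Y | ∃ z b b', Dbl G c X Y z b b'} := by
      rw [hY₁]
      rfl
    obtain ⟨z, b, b', hD⟩ := hmem
    have huniq : ∀ Y₂ z b b', Dbl G c X Y₂ z b b' → Y₂ = Y₁ := by
      intro Y₂ z b b' hD
      have h5 : Y₂ ∈ {Y | ∃ z b b', Dbl G c X Y z b b'} := ⟨z, b, b', hD⟩
      rw [hY₁] at h5
      exact h5
    have h5 := h4 V K G c p q g Y X {b, b'} henv hY hX ?_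
    · rw [Set.ncard_pair hD.bb] at h5
      exact h5
    · intro x hx
      refine ⟨?_, fun Y₁ z b' Y₂ z' b'' h6 h7 => (huniq _ _ _ _ h6).trans (huniq _ _ _ _ h7).symm⟩
      rcases hx with rfl | rfl
      · exact ⟨Y₁, z, b', hD⟩
      · exact ⟨Y₁, z, b, dbl_swap hD⟩
  have key2 : iN G c X = 2 → 2 ≤ lN G c Y X + oN G c X := by
    intro hi
    obtain ⟨Y₁, Y₂, hne, hY₁₂⟩ := Set.ncard_eq_two.mp hi
    have hmem : Y₁ ∈ {Y | ∃ z b b', Dbl G c X Y z b b'} := by
      rw [hY₁₂]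
      exact Or.inl rfl
    have hmem' : Y₂ ∈ {Y | ∃ z b b', Dbl G c X Y z b b'} := by
      rw [hY₁₂]
      exact Or.inr rfl
    obtain ⟨z, b, b', hD⟩ := hmem
    obtain ⟨z', d, d', hD'⟩ := hmem'
    have huniq : ∀ Y₃ z b b', Dbl G c X Y₃ z b b' → Y₃ = Y₁ ∨ Y₃ = Y₂ := by
      intro Y₃ z b b' hD
      have h5 : Y₃ ∈ {Y | ∃ z b b', Dbl G c X Y z b b'} := ⟨z, b, b', hD⟩
      rw [hY₁₂] at h5
      exact h5
    have hzz : z ≠ z' := by
      intro h
      apply hne
      rw [← hD.cz, ← hD'.cz, h]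
    have hquad : ¬ ((b = d ∧ b' = d') ∨ (b = d' ∧ b' = d)) := by
      rintro (⟨rfl, rfl⟩ | ⟨rfl, rfl⟩)
      · exact henv.hyp.quad z b z' b' hzz hD.bb ⟨hD.ab, hD'.ab.symm, hD'.ab', hD.ab'.symm⟩
      · exact henv.hyp.quad z b z' b' hzz hD.bb ⟨hD.ab, hD'.ab'.symm, hD'.ab, hD.ab'.symm⟩
    -- a partner for `Y₁` only
    obtain ⟨e, e', he, hed, hed'⟩ : ∃ e e', Dbl G c X Y₁ z e e' ∧ e ≠ d ∧ e ≠ d' := by
      by_cases h5 : b = d ∨ b = d'
      · refine ⟨b', b, dbl_swap hD, ?_, ?_⟩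
        · rintro rfl
          rcases h5 with h5 | h5
          · exact hD.bb h5
          · exact hquad (Or.inr ⟨h5, rfl⟩)
        · rintro rfl
          rcases h5 with h5 | h5
          · exact hquad (Or.inl ⟨h5, rfl⟩)
          · exact hD.bb h5
      · push Not at h5
        exact ⟨b, b', hD, h5.1, h5.2⟩
    obtain ⟨f, f', hf, hfb, hfb'⟩ : ∃ f f', Dbl G c X Y₂ z' f f' ∧ f ≠ b ∧ f ≠ b' := by
      by_cases h5 : d = b ∨ d = b'
      · refine ⟨d', d, dbl_swap hD', ?_, ?_⟩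
        · rintro rfl
          rcases h5 with h5 | h5
          · exact hD'.bb h5
          · exact hquad (Or.inr ⟨rfl, h5.symm⟩)
        · rintro rfl
          rcases h5 with h5 | h5
          · exact hquad (Or.inl ⟨h5.symm, rfl⟩)
          · exact hD'.bb h5
      · push Not at h5
        exact ⟨d, d', hD', h5.1, h5.2⟩
    have heb : e = b ∨ e = b' := hpart _ _ _ _ hD _ _ _ he
    have hef : e ≠ f := by
      rintro rfl
      rcases heb with h | h
      · exact hfb h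
      · exact hfb' h
    have h5 := h4 V K G c p q g Y X {e, f} henv hY hX ?_
    · rw [Set.ncard_pair hef] at h5
      exact h5
    · have hE : ∀ Y₃ z₃ b₃, Dbl G c X Y₃ z₃ e b₃ → Y₃ = Y₁ := by
        intro Y₃ z₃ b₃ h6
        rcases huniq _ _ _ _ h6 with h7 | h7
        · exact h7
        · exfalso
          rw [h7] at h6
          rcases hpart _ _ _ _ hD' _ _ _ h6 with h8 | h8
          · exact hed h8
          · exact hed' h8
      have hF : ∀ Y₃ z₃ b₃, Dbl G c X Y₃ z₃ f b₃ → Y₃ = Y₂ := by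
        intro Y₃ z₃ b₃ h6
        rcases huniq _ _ _ _ h6 with h7 | h7
        · exfalso
          rw [h7] at h6
          rcases hpart _ _ _ _ hD _ _ _ h6 with h8 | h8
          · exact hfb h8
          · exact hfb' h8
        · exact h7
      intro x hx
      rcases hx with hx | hx
      · rw [hx]
        exact ⟨⟨Y₁, z, e', he⟩, fun Y₁ z b' Y₂ z' b'' h6 h7 =>
          (hE _ _ _ h6).trans (hE _ _ _ h7).symm⟩
      · have hx' : x = f := hx
        rw [hx']
        exact ⟨⟨Y₂, z', f', hf⟩, fun Y₁ z b' Y₂ z' b'' h6 h7 =>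
          (hF _ _ _ h6).trans (hF _ _ _ h7).symm⟩
  have key0 : iN G c X = 0 → oN G c X = 1 → 1 ≤ lN G c Y X := by
    intro hi ho
    by_contra hl
    have hl0 : {e : V × V | G.Adj e.1 e.2 ∧ c e.1 = X ∧ c e.2 ∉ Y} = ∅ := by
      rw [← Set.ncard_eq_zero (Set.toFinite _)]
      have h5 : lN G c Y X = {e : V × V | G.Adj e.1 e.2 ∧ c e.1 = X ∧ c e.2 ∉ Y}.ncard := rfl
      omega
    have hI : {Y | ∃ z b b', Dbl G c X Y z b b'} = ∅ := by
      rw [← Set.ncard_eq_zero (Set.toFinite _)]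
      exact hi
    obtain ⟨Z, hZ⟩ := Set.ncard_eq_one.mp ho
    have hmem : Z ∈ {Y | ∃ z b b', Dbl G c Y X z b b'} := by
      rw [hZ]
      rfl
    obtain ⟨z, b, b', hD⟩ := hmem
    have hleave : ∀ u v, u ∈ {v | c v = X} → v ∉ {v | c v = X} → G.Adj u v →
        u = z ∧ (v = b ∨ v = b') := by
      intro u v hu hv hadj
      have hu' : c u = X := hu
      have hv' : c v ≠ X := hv
      have hvY : c v ∈ Y := by
        by_contra h5
        have h6 : (u, v) ∈ {e : V × V | G.Adj e.1 e.2 ∧ c e.1 = X ∧ c e.2 ∉ Y} :=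
          ⟨hadj, hu', h5⟩
        rw [hl0] at h6
        exact h6
      have h5 : DE G c (c u) (c v) := hC2 u v ⟨hadj, by rw [hu']; exact hX, hvY, by
        rw [hu']; exact hv'.symm⟩
      rw [hu'] at h5
      obtain ⟨z₁, b₁, b₁', h6 | h6⟩ := h5
      · exfalso
        have h7 : c v ∈ {Y | ∃ z b b', Dbl G c X Y z b b'} := ⟨z₁, b₁, b₁', h6⟩
        rw [hI] at h7
        exact h7
      · have h7 : c v ∈ {Y | ∃ z b b', Dbl G c Y X z b b'} := ⟨z₁, b₁, b₁', h6⟩
        rw [hZ] at h7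
        have h8 : c v = Z := h7
        have h9 := (hdes Z X z b b' hD).2.1 v u hadj.symm h8 hu'
        exact h9
    have hbX : c b ≠ X := by
      rw [hD.cb]
      exact hD.ne
    have hbX' : c b' ≠ X := by
      rw [hD.cb']
      exact hD.ne
    obtain ⟨hA, hdeg⟩ := h1 V G {v | c v = X} z b b' henv.hyp hD.cz hbX hbX' hD.bb hD.ab hD.ab'
      hleave
    rcases henv.f4c z b b' hD.ab hD.ab' hD.bb (hD.cb.trans hD.cb'.symm)
      (by rw [hD.cz, hD.cb]; exact hD.ne.symm) with ⟨v, hv, hcv⟩ | ⟨x, hx, hxb, hxb'⟩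
    · have h5 : v ∈ {v | c v = X} := hcv.trans hD.cz
      rw [hA] at h5
      exact hv h5
    · rcases hdeg x hx with h5 | h5
      · exact hxb h5
      · exact hxb' h5
  have hcases : iN G c X = 0 ∨ iN G c X = 1 ∨ iN G c X = 2 ∨ 3 ≤ iN G c X := by omega
  rcases hcases with h | h | h | h
  · have ho : oN G c X = 1 ∨ 2 ≤ oN G c X := by omega
    rcases ho with ho | ho
    · have h5 := key0 h ho
      refine ⟨by omega, fun h6 => Or.inl ⟨h, ho, by omega⟩⟩
    · refine ⟨by omega, fun h6 => ?_⟩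
      exfalso
      omega
  · have h5 := key1 h
    refine ⟨by omega, fun h6 => Or.inr (Or.inl ⟨h, by omega, by omega⟩)⟩
  · have h5 := key2 h
    refine ⟨by omega, fun h6 => ?_⟩
    exfalso
    omega
  · refine ⟨by omega, fun h6 => Or.inr (Or.inr ⟨by omega, by omega, by omega⟩)⟩

end Pool.Agent.MPf1f412
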