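import Pool.Agent.Lib.MP_f1f412_co.SpecM
import Pool.Agent.Lib.MP_f1f412_co.Basic

set_option autoImplicit false

namespace Pool.Agent.MPf1f412

theorem mM3 : S_M3 := by
  intro V K G c p q g S hE hR z₁ w₁ z₂ w₂ h1 h2 hz hzS hw1 hw2
  by_contra hcon
  rw [not_or] at hcon
  obtain ⟨hz12, hw12⟩ := hcon
  have hne : c z₁ ≠ c w₁ := fun h => hzS (h ▸ hw1)
  obtain ⟨m, hm, hm2⟩ := hE.tr z₁ (c z₁) (c w₁) hne ⟨z₁, rfl, Or.inl rfl⟩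
    ⟨w₁, rfl, Or.inr h1.symm⟩
  have hmot : IsMot G c p S m := by
    rw [isMot_iff_ev hE.gn]
    intro u w huw
    have hu : u ≠ z₁ := fun h => hzS (h ▸ huw.2.1)
    have h3 := hm u hu (c u) (c w) ⟨u, rfl, Or.inl rfl⟩ ⟨w, rfl, Or.inr huw.1.symm⟩
    rw [ev_sub, sub_eq_zero] at h3
    exact h3
  have hmw : m (c w₁) = m (c w₂) := hR m hmot _ hw1 _ hw2
  have n1 : w₁ ≠ z₁ := fun h => hzS (h ▸ hw1)
  have n2 : w₂ ≠ z₁ := fun h => hzS (h ▸ hw2)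
  have n3 : z₂ ≠ w₂ := fun h => hzS (by rw [hz, h]; exact hw2)
  have n4 : z₂ ≠ w₁ := fun h => hzS (by rw [hz, h]; exact hw1)
  have e1 : ev (m (c z₁) - m (c w₁)) (p z₂) = 0 := by
    rw [hmw]
    exact hm z₂ (Ne.symm hz12) (c z₁) (c w₂) ⟨z₂, hz.symm, Or.inl rfl⟩ ⟨w₂, rfl, Or.inr h2.symm⟩
  have e2 : ev (m (c z₁) - m (c w₁)) (p w₂) = 0 := by
    rw [hmw]
    exact hm w₂ n2 (c z₁) (c w₂) ⟨z₂, hz.symm, Or.inr h2⟩ ⟨w₂, rfl, Or.inl rfl⟩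
  have e3 : ev (m (c z₁) - m (c w₁)) (p w₁) = 0 :=
    hm w₁ n1 (c z₁) (c w₁) ⟨z₁, rfl, Or.inr h1⟩ ⟨w₁, rfl, Or.inl rfl⟩
  have h0 := t2 (hE.gn.gp3 n3 n4 (Ne.symm hw12)) e1 e2 e3
  apply hm2
  rw [h0, ev_zero]

end Pool.Agent.MPf1f412
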