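import Pool.Agent.Lib.MP_f1f412_co.SpecN
import Pool.Agent.Lib.MP_f1f412_co.Basic

/-!
# MP_f1f412_co (C34): necessity, assembly
-/

set_option autoImplicit false

namespace Pool.Agent.MPf1f412

open Matrix

namespace nNecAux

theorem cls_le {V K : Type} [Finite V] (c : V → K) : cls c ≤ Nat.card V := by
  unfold cls
  rw [← Set.image_univ, ← Set.ncard_univ V]
  exact Set.ncard_image_le Set.finite_univ

theorem cls_rf {V K : Type} (f : V → K) : cls (Set.rangeFactorization f) = cls f := by
  unfold cls
  have h1 : Set.range (Set.rangeFactorization f) = Set.univ := Set.rangeFactorization_surjective.range_eq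
  rw [h1, Set.ncard_univ]
  rfl

theorem crn_rf {V K : Type} (G : SimpleGraph V) (f : V → K) :
    crn G (Set.rangeFactorization f) = crn G f := by
  unfold crn
  congr 1
  ext z
  simp only [Set.mem_ofPred_eq, Crs, ne_eq, Set.rangeFactorization, Subtype.mk.injEq]

theorem not_ngr {V : Type} {H : SimpleGraph V} {p : V → R3}
    (h : ∀ q, Eqv H p q → ∀ u w, dsq (q u) (q w) = dsq (p u) (p w)) : ¬ NGR H p := by
  rintro ⟨q, h1, u, w, h2⟩
  exact h2 (h q h1 u w)

/-- four pins of the class of a vertex with three neighbours -/
theorem four_pins {V K : Type} (G : SimpleGraph V) (c : V → K) {v a b d : V} (ha : G.Adj v a)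
    (hb : G.Adj v b) (hd : G.Adj v d) (hab : a ≠ b) (had : a ≠ d) (hbd : b ≠ d) :
    Function.Injective ![v, a, b, d] ∧ ∀ i, Pin G c (c v) (![v, a, b, d] i) := by
  constructor
  · intro i j hij
    fin_cases i <;> fin_cases j <;>
      simp_all [ha.ne, hb.ne, hd.ne, ha.ne', hb.ne', hd.ne', hab.symm, had.symm, hbd.symm]
  · intro i
    refine ⟨v, rfl, ?_⟩
    fin_cases i
    · exact Or.inl rfl
    · exact Or.inr ha
    · exact Or.inr hb
    · exact Or.inr hd

end nNecAux

open nNecAux in
theorem nNec (h1 : S_Gn) (h2 : S_Con4) (h3 : S_NA) (h4 : S_NB) (h5 : S_NC2) (h6 : S_NDeg)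
    (h7 : S_NPair) (h8 : S_NCut) (h9 : S_NTwo) (h10 : S_NLe) (h11 : S_NBig) (h12 : S_C6)
    (h13 : S_N6) : S_Nec := by
  classical
  intro V _ G p htri hquad hdeg hcard hp hgr J f hf
  have hG : Gn p := h1 V p hp
  have hcon : KConnected 4 (square G) := h2 V (square G) p hcard hp hgr
  have hngr : ¬ NGR (square G) p := not_ngr hgr
  by_contra hlt
  have htight : 5 * crn G f + 6 ≤ 6 * cls f := by omega
  by_cases h3v : ∃ v a b d, G.Adj v a ∧ G.Adj v b ∧ G.Adj v d ∧ a ≠ b ∧ a ≠ d ∧ b ≠ d
  · obtain ⟨v₀, a, b, d, ha, hb, hd, hab, had, hbd⟩ := h3v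
    have hall : ∀ (J : Type) (h : V → J), 6 * cls h ≤ 5 * crn G h + 6 := by
      intro J h
      by_contra hn
      obtain ⟨hi, hpin⟩ := four_pins G h ha hb hd hab had hbd
      exact hngr (h3 V J G h p _ (h v₀) hG hdeg hi hpin (by omega))
    have hfin : Finite (Set.range f) := (Set.finite_range f).to_subtype
    set c : V → Set.range f := Set.rangeFactorization f with hc
    have hcls : cls c = cls f := cls_rf f
    have hcrn : crn G c = crn G f := crn_rf G f
    have ht : 5 * crn G c + 6 ≤ 6 * cls c := by rw [hcls, hcrn]; exact htight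
    obtain ⟨h6c, X, hX, hXY, hdX⟩ := h6 V (Set.range f) G c hall (by rw [hcls]; exact hf) ht (c v₀)
    obtain ⟨x₁, y₁, x₂, y₂, hT⟩ := h7 V (Set.range f) G c X hall ht hdX
    obtain ⟨hi, hpin⟩ := four_pins G c ha hb hd hab had hbd
    by_cases hx : x₁ = x₂
    · subst hx
      have hcx : c x₁ = X := hT.cx₁
      have hone : ∀ u, c u = c x₁ → u = x₁ := by
        refine h8 V (Set.range f) G c x₁ y₁ y₂ hcon ?_ ?_
        · intro u w huw hu hw
          rw [hcx] at hu hw
          rcases hT.all u w huw hu hw with ⟨h, h'⟩ | ⟨h, h'⟩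
          · exact ⟨h, Or.inl h'⟩
          · exact ⟨h, Or.inr h'⟩
        · by_contra hn
          push Not at hn
          have hsub : Set.range c ⊆ ({c x₁, c y₁, c y₂} : Set (Set.range f)) := by
            rintro _ ⟨z, rfl⟩
            by_cases hz : c z = c x₁
            · exact Or.inl hz
            · by_cases hz1 : z = y₁
              · right; left; rw [hz1]
              · right; right
                rw [hn z hz hz1]
                exact rfl
          have hle : cls c ≤ 3 := by
            unfold cls
            refine (Set.ncard_le_ncard hsub (Set.toFinite _)).trans ?_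
            refine (Set.ncard_insert_le _ _).trans ?_
            have := Set.ncard_insert_le (c y₁) ({c y₂} : Set (Set.range f))
            rw [Set.ncard_singleton] at this
            omega
          omega
      refine hngr (h4 V (Set.range f) G c p _ (c v₀) x₁ y₁ y₂ hG hdeg hi hpin ?_ hone ?_ hT.cyy ht)
      · rw [hcx]; exact fun h => hXY h.symm
      · intro u
        constructor
        · intro hu
          have hcu : c u ≠ X := by
            intro h
            exact hu.ne (hone u (by rw [h, hcx])).symm
          rcases hT.all x₁ u hu hcx hcu with ⟨_, h'⟩ | ⟨_, h'⟩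
          · exact Or.inl h'
          · exact Or.inr h'
        · rintro (rfl | rfl)
          · exact hT.adj₁
          · exact hT.adj₂
    · exact hngr (h5 V (Set.range f) G c p _ (c v₀) X x₁ y₁ x₂ y₂ hG hdeg hi hpin
        (fun h => hXY h.symm) hT hx ht)
  · have hle2 : ∀ v a b d, G.Adj v a → G.Adj v b → G.Adj v d → a = b ∨ a = d ∨ b = d := by
      intro v a b d ha hb hd
      by_contra hn
      push Not at hn
      exact h3v ⟨v, a, b, d, ha, hb, hd, hn.1, hn.2.1, hn.2.2⟩
    have hfin : Finite (Set.range f) := (Set.finite_range f).to_subtype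
    set c : V → Set.range f := Set.rangeFactorization f with hc
    have hcls : cls c = cls f := cls_rf f
    have hcrn : crn G c = crn G f := crn_rf G f
    have hk : cls c ≤ crn G c := by
      refine h10 V (Set.range f) G c ?_
      intro X hX
      refine h9 V (Set.range f) G c X hcon hdeg hX ?_
      by_contra hn
      push Not at hn
      have hsub : Set.range c ⊆ {X} := by
        rintro _ ⟨z, rfl⟩
        exact hn z
      have : cls c ≤ 1 := by
        unfold cls
        refine (Set.ncard_le_ncard hsub (Set.finite_singleton X)).trans ?_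
        rw [Set.ncard_singleton]
      omega
    have hn6 : 6 ≤ Nat.card V := by
      have := cls_le f
      omega
    rcases Nat.lt_or_ge 6 (Nat.card V) with h | h
    · exact hngr (h11 V G p hG htri hdeg hle2 h)
    · obtain ⟨φ, hφ, hadj⟩ := h12 V G htri hquad hdeg hle2 (le_antisymm h hn6)
      exact hngr (h13 V G p φ hG hφ hadj)

end Pool.Agent.MPf1f412
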