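import Mathlib

/-!
# Squares of graphs of girth at least five in 3-space: pendant vertices

The equivalence asked for (for every simple graph `G` without cycles of length `3` or `4`,
`G²` is globally rigid in `ℝ³` iff `G²` is `4`-connected and `5G` is highly `6`-tree-connected)
fails as soon as pendant vertices are allowed.
-/

namespace Pool.Agent.Results.MP_f1f412_co.PendantVertices

/-- Euclidean 3-space. -/
abbrev E3 : Type := EuclideanSpace ℝ (Fin 3)

/-- The square of a simple graph: distinct vertices at distance at most two are joined. -/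
def square {V : Type} (G : SimpleGraph V) : SimpleGraph V where
  Adj u v := u ≠ v ∧ (G.Adj u v ∨ ∃ w, G.Adj u w ∧ G.Adj w v)
  symm := ⟨by
    rintro u v ⟨h, h'⟩
    refine ⟨h.symm, ?_⟩
    rcases h' with h' | ⟨w, h1, h2⟩
    · exact Or.inl h'.symm
    · exact Or.inr ⟨w, h2.symm, h1.symm⟩⟩
  loopless := ⟨fun u h => h.1 rfl⟩

/-- A configuration in 3-space is generic if its coordinates are algebraically independent
over the rationals. -/
def Generic {V : Type} (p : V → E3) : Prop :=
  AlgebraicIndependent ℚ (fun i : V × Fin 3 => p i.1 i.2)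

/-- The framework `(H, p)` is globally rigid in 3-space. -/
def FrameworkGloballyRigid {V : Type} (H : SimpleGraph V) (p : V → E3) : Prop :=
  ∀ q : V → E3, (∀ u v, H.Adj u v → dist (q u) (q v) = dist (p u) (p v)) →
    ∀ u v, dist (q u) (q v) = dist (p u) (p v)

/-- `H` is generically globally rigid in 3-space: generic configurations exist, and every
generic configuration gives a globally rigid framework. -/
def GloballyRigid {V : Type} (H : SimpleGraph V) : Prop :=
  (∃ p : V → E3, Generic p) ∧ ∀ p : V → E3, Generic p → FrameworkGloballyRigid H p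

/-- `H` is `k`-connected: deleting fewer than `k` vertices leaves a connected graph. -/
def KConnected {V : Type} (k : ℕ) (H : SimpleGraph V) : Prop :=
  ∀ S : Set V, S.Finite → S.ncard < k → (H.induce Sᶜ).Connected

/-- No cycle of length three or four. -/
def NoShortCycle {V : Type} (G : SimpleGraph V) : Prop :=
  (∀ a b c, ¬ (G.Adj a b ∧ G.Adj b c ∧ G.Adj c a)) ∧
  (∀ a b c d, a ≠ c → b ≠ d → ¬ (G.Adj a b ∧ G.Adj b c ∧ G.Adj c d ∧ G.Adj d a))

/-- For the multigraph with vertex type `V`, edge type `E` and end map `ends`, the edge set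
`T` is the edge set of a spanning tree. -/
def IsSpanningTree {V E : Type} (ends : E → Sym2 V) (T : Set E) : Prop :=
  Set.InjOn ends T ∧ (SimpleGraph.fromEdgeSet (ends '' T)).IsTree

/-- The multigraph is highly `k`-tree-connected: after deleting any single edge there are still
`k` edge-disjoint spanning trees. -/
def HighlyTreeConnected {V E : Type} (k : ℕ) (ends : E → Sym2 V) : Prop :=
  ∀ e : E, ∃ T : Fin k → Set E, (∀ i, IsSpanningTree ends (T i)) ∧
    (∀ i j, i ≠ j → Disjoint (T i) (T j)) ∧ ∀ i, e ∉ T i

/-- The end map of the multigraph `kG`: its edges are the pairs (edge of `G`, copy index). -/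
def multiple {V : Type} (k : ℕ) (G : SimpleGraph V) : G.edgeSet × Fin k → Sym2 V :=
  fun e => (e.1 : Sym2 V)

/-- The equivalence asked for holds for `G`. -/
def Equivalence {V : Type} (G : SimpleGraph V) : Prop :=
  GloballyRigid (square G) ↔ (KConnected 4 (square G) ∧ HighlyTreeConnected 6 (multiple 5 G))

/-- `G` with one new vertex `none`, joined to the vertex `u` only. -/
def pendant {V : Type} (G : SimpleGraph V) (u : V) : SimpleGraph (Option V) where
  Adj
    | some a, some b => G.Adj a b
    | some a, none => a = u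
    | none, some a => a = u
    | none, none => False
  symm := ⟨by
    rintro (_ | a) (_ | b) h
    · exact h
    · exact h
    · exact h
    · exact SimpleGraph.Adj.symm h⟩
  loopless := ⟨by
    rintro (_ | a) h
    · exact h
    · exact G.loopless.irrefl a h⟩


/-! ## Existence of generic configurations -/

theorem infinite_transcendence {s : Set ℝ} (hs : IsTranscendenceBasis ℚ ((↑) : s → ℝ)) :
    s.Infinite := by
  intro hfin
  have : Algebra.IsAlgebraic (Algebra.adjoin ℚ s) ℝ := by
    have h := hs.isAlgebraic
    have h2 : Set.range ((↑) : s → ℝ) = s := Subtype.range_coe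
    rw [h2] at h
    exact h
  have hcount : Countable (Algebra.adjoin ℚ s) := by
    have : Countable (MvPolynomial s ℚ) := by
      have := hfin.countable.to_subtype
      have h := MvPolynomial.cardinalMk_le_max (σ := s) (R := ℚ)
      have h' : Cardinal.mk (MvPolynomial s ℚ) ≤ Cardinal.aleph0 :=
        h.trans (max_le (max_le Cardinal.mk_le_aleph0 Cardinal.mk_le_aleph0) le_rfl)
      exact Cardinal.mk_le_aleph0_iff.mp h'
    have hr : (Algebra.adjoin ℚ s : Set ℝ) ⊆ Set.range (MvPolynomial.aeval ((↑) : s → ℝ) :
        MvPolynomial s ℚ →ₐ[ℚ] ℝ) := by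
      intro x hx
      have h3 : Algebra.adjoin ℚ s = (MvPolynomial.aeval ((↑) : s → ℝ) :
        MvPolynomial s ℚ →ₐ[ℚ] ℝ).range := by
        rw [← Algebra.adjoin_range_eq_range_aeval, Subtype.range_coe]
      have hx' : x ∈ Algebra.adjoin ℚ s := hx
      rw [h3] at hx'
      exact hx'
    exact ((Set.countable_range _).mono hr).to_subtype
  have h1 := Algebra.IsAlgebraic.cardinalMk_le_max (Algebra.adjoin ℚ s) ℝ
  have h2 : Cardinal.mk (Algebra.adjoin ℚ s) ≤ Cardinal.aleph0 := Cardinal.mk_le_aleph0
  have h3 : Cardinal.mk ℝ ≤ Cardinal.aleph0 := h1.trans (max_le h2 le_rfl)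
  rw [Cardinal.mk_real] at h3
  exact absurd h3 (not_le.mpr Cardinal.aleph0_lt_continuum)

theorem exists_generic (V : Type) [Finite V] : ∃ p : V → E3, Generic p := by
  obtain ⟨s, hs⟩ := exists_isTranscendenceBasis ℚ ℝ
  have hinf : Infinite s := (infinite_transcendence hs).to_subtype
  obtain ⟨f⟩ : Nonempty (V × Fin 3 ↪ s) := by
    have := Cardinal.mk_le_aleph0 (α := V × Fin 3)
    have h2 := Cardinal.aleph0_le_mk s
    exact (Cardinal.le_def _ _).mp (this.trans h2)
  refine ⟨fun v => WithLp.toLp 2 (fun i => (f (v, i) : ℝ)), ?_⟩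
  have h := hs.1.comp f f.injective
  exact h

/-! ## Four points of a generic configuration are affinely independent -/

theorem det_ne_zero {V : Type} {p : V → E3} (hp : Generic p) (u : V) (w : Fin 3 → V)
    (hw : Function.Injective w) (huw : ∀ i, w i ≠ u) :
    (Matrix.of (fun i j : Fin 3 => p (w i) j - p u j)).det ≠ 0 := by
  classical
  intro h0
  let P : MvPolynomial (V × Fin 3) ℚ :=
    (Matrix.of (fun i j : Fin 3 =>
      (MvPolynomial.X (w i, j) - MvPolynomial.X (u, j) : MvPolynomial (V × Fin 3) ℚ))).det
  have h1 : MvPolynomial.aeval (fun i : V × Fin 3 => p i.1 i.2) P = 0 := by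
    have h2 := AlgHom.map_det (MvPolynomial.aeval (R := ℚ) (fun i : V × Fin 3 => p i.1 i.2))
      (Matrix.of (fun i j : Fin 3 =>
      (MvPolynomial.X (w i, j) - MvPolynomial.X (u, j) : MvPolynomial (V × Fin 3) ℚ)))
    have h3 : MvPolynomial.aeval (fun i : V × Fin 3 => p i.1 i.2) P = _ := h2
    rw [h3, ← h0]
    congr 1
    ext i j
    simp [AlgHom.mapMatrix_apply]
  have hP : P = 0 := by
    have hinj := hp
    rw [Generic, AlgebraicIndependent] at hinj
    apply hinj
    rw [h1, map_zero]
  let x : V × Fin 3 → ℚ := fun i => if w i.2 = i.1 then 1 else 0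
  have h4 : MvPolynomial.eval x P = 1 := by
    have h2 := RingHom.map_det (MvPolynomial.eval x)
      (Matrix.of (fun i j : Fin 3 =>
      (MvPolynomial.X (w i, j) - MvPolynomial.X (u, j) : MvPolynomial (V × Fin 3) ℚ)))
    have h3 : MvPolynomial.eval x P = _ := h2
    rw [h3]
    have h5 : (MvPolynomial.eval x).mapMatrix (Matrix.of (fun i j : Fin 3 =>
      (MvPolynomial.X (w i, j) - MvPolynomial.X (u, j) : MvPolynomial (V × Fin 3) ℚ))) = 1 := by
      ext i j
      simp only [RingHom.mapMatrix_apply, Matrix.map_apply, Matrix.of_apply, map_sub,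
        MvPolynomial.eval_X, x]
      rw [if_neg (huw j), sub_zero, Matrix.one_apply]
      by_cases hij : i = j
      · subst hij
        simp
      · have : w j ≠ w i := fun h => hij (hw h).symm
        simp [hij, this]
    rw [h5, Matrix.det_one]
  rw [hP, map_zero] at h4
  exact zero_ne_one h4

theorem exists_coeff {V : Type} {p : V → E3} (hp : Generic p) (u : V) (w : Fin 3 → V)
    (hw : Function.Injective w) (huw : ∀ i, w i ≠ u) (a : E3) :
    ∃ c : Fin 3 → ℝ, a = ∑ i, c i • (p (w i) - p u) := by
  have hdet := det_ne_zero hp u w hw huw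
  set M := (Matrix.of (fun i j : Fin 3 => p (w i) j - p u j)) with hM
  have hu : IsUnit M.det := isUnit_iff_ne_zero.mpr hdet
  refine ⟨Matrix.vecMul (fun j => a j) M⁻¹, ?_⟩
  have h1 : Matrix.vecMul (Matrix.vecMul (fun j => a j) M⁻¹) M = fun j => a j := by
    rw [Matrix.vecMul_vecMul, Matrix.nonsing_inv_mul _ hu, Matrix.vecMul_one]
  ext j
  have h2 := congrFun h1 j
  simp only [Matrix.vecMul, dotProduct] at h2
  rw [← h2]
  simp [hM, Matrix.vecMul, dotProduct]

theorem inner_eq_of_dist (a b c a' b' c' : E3) (h1 : dist a b = dist a' b')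
    (h2 : dist a c = dist a' c') (h3 : dist b c = dist b' c') :
    inner ℝ (b - a) (c - a) = inner ℝ (b' - a') (c' - a') := by
  rw [real_inner_eq_norm_mul_self_add_norm_mul_self_sub_norm_sub_mul_self_div_two,
    real_inner_eq_norm_mul_self_add_norm_mul_self_sub_norm_sub_mul_self_div_two]
  have e1 : b - a - (c - a) = b - c := by abel
  have e2 : b' - a' - (c' - a') = b' - c' := by abel
  rw [e1, e2, ← dist_eq_norm, ← dist_eq_norm, ← dist_eq_norm, ← dist_eq_norm, ← dist_eq_norm,
    ← dist_eq_norm, dist_comm b a, dist_comm c a, dist_comm b' a', dist_comm c' a', h1, h2, h3]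

theorem comb_eq (α α' : E3) (a a' : Fin 3 → E3) (c : Fin 3 → ℝ)
    (hXX : inner ℝ α α = inner ℝ α' α') (hX : ∀ i, inner ℝ (a i) α = inner ℝ (a' i) α')
    (hG : ∀ i j, inner ℝ (a i) (a j) = inner ℝ (a' i) (a' j))
    (hc : α = ∑ i, c i • a i) : α' = ∑ i, c i • a' i := by
  have key : ∀ (β : E3) (b : Fin 3 → E3), inner ℝ (β - ∑ i, c i • b i) (β - ∑ i, c i • b i)
      = inner ℝ β β - 2 * ∑ i, c i * inner ℝ (b i) β
        + ∑ i, ∑ j, c i * (c j * inner ℝ (b i) (b j)) := by
    intro β b
    rw [inner_sub_left, inner_sub_right, inner_sub_right, real_inner_comm (∑ i, c i • b i) β]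
    have h1 : inner ℝ (∑ i, c i • b i) β = ∑ i, c i * inner ℝ (b i) β := by
      rw [sum_inner]
      refine Finset.sum_congr rfl fun i _ => ?_
      rw [real_inner_smul_left]
    have h2 : inner ℝ (∑ i, c i • b i) (∑ i, c i • b i)
        = ∑ i, ∑ j, c i * (c j * inner ℝ (b i) (b j)) := by
      rw [sum_inner]
      refine Finset.sum_congr rfl fun i _ => ?_
      rw [inner_sum]
      refine Finset.sum_congr rfl fun j _ => ?_
      rw [real_inner_smul_left, real_inner_smul_right]
    rw [h1, h2]
    ring
  have h0 := key α a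
  rw [← hc, sub_self, inner_zero_left] at h0
  have h1 := key α' a'
  have h2 : inner ℝ (α' - ∑ i, c i • a' i) (α' - ∑ i, c i • a' i) = 0 := by
    rw [h1, h0, ← hXX]
    simp only [hX, hG]
  exact sub_eq_zero.mp (inner_self_eq_zero.mp h2)

theorem dist_sq_eq (α β : E3) (u x y : E3) (h1 : x - u = α) (h2 : y - u = β) :
    dist x y ^ 2 = inner ℝ α α - 2 * inner ℝ α β + inner ℝ β β := by
  rw [dist_eq_norm, ← real_inner_self_eq_norm_sq]
  have e3 : x - y = α - β := by rw [← h1, ← h2]; abel
  rw [e3, inner_sub_left, inner_sub_right, inner_sub_right, real_inner_comm α β]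
  ring

/-- Two points with the same distances to four affinely independent points have the same
distance from each other. -/
theorem dist_eq_of_frame (u : E3) (w : Fin 3 → E3) (x y : E3) (u' : E3) (w' : Fin 3 → E3)
    (x' y' : E3) (hspan : ∀ a : E3, ∃ c : Fin 3 → ℝ, a = ∑ i, c i • (w i - u))
    (huw : ∀ i, dist u (w i) = dist u' (w' i)) (hww : ∀ i j, dist (w i) (w j) = dist (w' i) (w' j))
    (hux : dist u x = dist u' x') (hwx : ∀ i, dist (w i) x = dist (w' i) x')
    (huy : dist u y = dist u' y') (hwy : ∀ i, dist (w i) y = dist (w' i) y') :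
    dist x' y' = dist x y := by
  obtain ⟨c, hc⟩ := hspan (x - u)
  have hG : ∀ i j, inner ℝ (w i - u) (w j - u) = inner ℝ (w' i - u') (w' j - u') :=
    fun i j => inner_eq_of_dist _ _ _ _ _ _ (huw i) (huw j) (hww i j)
  have hX : ∀ i, inner ℝ (w i - u) (x - u) = inner ℝ (w' i - u') (x' - u') :=
    fun i => inner_eq_of_dist _ _ _ _ _ _ (huw i) hux (hwx i)
  have hY : ∀ i, inner ℝ (w i - u) (y - u) = inner ℝ (w' i - u') (y' - u') :=
    fun i => inner_eq_of_dist _ _ _ _ _ _ (huw i) huy (hwy i)
  have hXX : inner ℝ (x - u) (x - u) = inner ℝ (x' - u') (x' - u') :=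
    inner_eq_of_dist _ _ _ _ _ _ hux hux (by simp)
  have hc' : x' - u' = ∑ i, c i • (w' i - u') :=
    comb_eq (x - u) (x' - u') (fun i => w i - u) (fun i => w' i - u') c hXX hX hG hc
  have hXY : inner ℝ (x - u) (y - u) = inner ℝ (x' - u') (y' - u') := by
    rw [hc, hc', sum_inner, sum_inner]
    refine Finset.sum_congr rfl fun i _ => ?_
    rw [real_inner_smul_left, real_inner_smul_left, hY i]
  have hYY : inner ℝ (y - u) (y - u) = inner ℝ (y' - u') (y' - u') :=
    inner_eq_of_dist _ _ _ _ _ _ huy huy (by simp)
  have e1 : dist x' y' ^ 2 = dist x y ^ 2 := by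
    rw [dist_sq_eq (x' - u') (y' - u') u' x' y' rfl rfl, dist_sq_eq (x - u) (y - u) u x y rfl rfl,
      hXX, hYY, hXY]
  exact (sq_eq_sq₀ dist_nonneg dist_nonneg).mp e1

/-! ## Adding a pendant vertex keeps the square globally rigid -/

theorem square_pendant_some {V : Type} (G : SimpleGraph V) (u : V) {a b : V}
    (h : (square G).Adj a b) : (square (pendant G u)).Adj (some a) (some b) := by
  obtain ⟨h1, h2⟩ := h
  refine ⟨fun h => h1 (Option.some_injective _ h), ?_⟩
  rcases h2 with h2 | ⟨w, h3, h4⟩
  · exact Or.inl h2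
  · exact Or.inr ⟨some w, h3, h4⟩

theorem square_pendant_none {V : Type} (G : SimpleGraph V) (u : V) :
    (square (pendant G u)).Adj (some u) none ∧
      ∀ w, G.Adj u w → (square (pendant G u)).Adj (some w) none := by
  refine ⟨⟨by simp, Or.inl ?_⟩, fun w hw => ⟨by simp, Or.inr ⟨some u, ?_, ?_⟩⟩⟩
  · show u = u
    rfl
  · show G.Adj w u
    exact hw.symm
  · show u = u
    rfl

theorem generic_restrict {V : Type} {p : Option V → E3} (hp : Generic p) :
    Generic (fun v => p (some v)) := by
  have hinj : Function.Injective (fun i : V × Fin 3 => ((some i.1, i.2) : Option V × Fin 3)) := by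
    rintro ⟨a, i⟩ ⟨b, j⟩ h
    simp only [Prod.mk.injEq, Option.some.injEq] at h
    exact Prod.ext h.1 h.2
  unfold Generic at hp ⊢
  have h := hp.comp _ hinj
  exact h

theorem globallyRigid_pendant {V : Type} [Finite V] (G : SimpleGraph V) (u : V)
    (w : Fin 3 → V) (hw : Function.Injective w) (hadj : ∀ i, G.Adj u (w i))
    (hG : GloballyRigid (square G)) : GloballyRigid (square (pendant G u)) := by
  refine ⟨exists_generic _, fun p hp q hq => ?_⟩
  have hp' : Generic (fun v => p (some v)) := generic_restrict hp
  have h1 : ∀ a b, dist (q (some a)) (q (some b)) = dist (p (some a)) (p (some b)) :=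
    hG.2 _ hp' (fun v => q (some v)) (fun a b hab => hq _ _ (square_pendant_some G u hab))
  obtain ⟨h2, h3⟩ := square_pendant_none G u
  have h4 := hq _ _ h2
  have h5 : ∀ i, dist (q (some (w i))) (q none) = dist (p (some (w i))) (p none) :=
    fun i => hq _ _ (h3 _ (hadj i))
  have h6 : ∀ a, dist (q (some a)) (q none) = dist (p (some a)) (p none) := by
    intro a
    refine dist_eq_of_frame (p (some u)) (fun i => p (some (w i))) (p (some a)) (p none)
      (q (some u)) (fun i => q (some (w i))) (q (some a)) (q none) ?_ ?_ ?_ ?_ ?_ ?_ ?_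
    · exact fun b => exists_coeff hp' u w hw (fun i => (hadj i).ne') b
    · exact fun i => (h1 _ _).symm
    · exact fun i j => (h1 _ _).symm
    · exact (h1 _ _).symm
    · exact fun i => (h1 _ _).symm
    · exact h4.symm
    · exact fun i => (h5 i).symm
  rintro (_ | a) (_ | b)
  · simp
  · rw [dist_comm, h6, dist_comm]
  · exact h6 a
  · exact h1 a b

/-! ## A graph with a pendant vertex: `5G` is not highly `6`-tree-connected -/

theorem not_highly_pendant {V : Type} (G : SimpleGraph V) (u : V) :
    ¬ HighlyTreeConnected 6 (multiple 5 (pendant G u)) := by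
  intro h
  have hu : s(some u, none) ∈ (pendant G u).edgeSet := by
    show (pendant G u).Adj (some u) none
    show u = u
    rfl
  obtain ⟨T, hT, hd, -⟩ := h (⟨s(some u, none), hu⟩, 0)
  have key : ∀ i, ∃ j : Fin 5, ((⟨s(some u, none), hu⟩, j) : (pendant G u).edgeSet × Fin 5) ∈ T i := by
    intro i
    have hc := (hT i).2.1
    have hne : (some u : Option V) ≠ none := by simp
    obtain ⟨b, hb⟩ : ∃ b, (SimpleGraph.fromEdgeSet (multiple 5 (pendant G u) '' T i)).Adj none b := by
      have hnt : Nontrivial (Option V) := ⟨⟨_, _, hne⟩⟩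
      exact hc.preconnected.exists_adj_of_nontrivial none
    rw [SimpleGraph.fromEdgeSet_adj] at hb
    obtain ⟨⟨e, he, hee⟩, hbne⟩ := hb
    have hmem : s(none, b) ∈ (pendant G u).edgeSet := by
      rw [← hee]
      exact e.1.2
    have hb' : b = some u := by
      have hadj : (pendant G u).Adj none b := hmem
      rcases b with _ | b
      · exact absurd hadj (fun h => h)
      · have : b = u := hadj
        rw [this]
    refine ⟨e.2, ?_⟩
    have : e = (⟨s(some u, none), hu⟩, e.2) := by
      refine Prod.ext (Subtype.ext ?_) rfl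
      show (e.1 : Sym2 (Option V)) = s(some u, none)
      have h8 : (e.1 : Sym2 (Option V)) = s(none, b) := hee
      rw [h8, hb', Sym2.eq_swap]
    rw [← this]
    exact he
  choose f hf using key
  have hinj : Function.Injective f := by
    intro i j hij
    by_contra hne
    exact Set.disjoint_left.mp (hd i j hne) (hf i) (by rw [hij]; exact hf j)
  have := Fintype.card_le_of_injective f hinj
  simp at this

theorem noShortCycle_pendant {V : Type} (G : SimpleGraph V) (u : V) (hG : NoShortCycle G) :
    NoShortCycle (pendant G u) := by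
  obtain ⟨h3, h4⟩ := hG
  refine ⟨?_, ?_⟩
  · rintro (_ | a) (_ | b) (_ | c) ⟨h1, h2, h5⟩
    all_goals first
      | exact h1
      | exact h2
      | exact h5
      | exact h3 a b c ⟨h1, h2, h5⟩
      | skip
    · have e1 : b = u := h1
      have e2 : c = u := h5
      subst e1
      subst e2
      exact h2.ne rfl
    · have e1 : c = u := h2
      have e2 : a = u := h1
      subst e1
      subst e2
      exact h5.ne rfl
    · have e1 : a = u := h5
      have e2 : b = u := h2
      subst e1
      subst e2
      exact h1.ne rfl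
  · rintro (_ | a) (_ | b) (_ | c) (_ | d) hac hbd ⟨h1, h2, h5, h6⟩
    all_goals first
      | exact h1
      | exact h2
      | exact h5
      | exact h6
      | exact hac rfl
      | exact hbd rfl
      | exact h4 a b c d (fun h => hac (congrArg some h)) (fun h => hbd (congrArg some h))
          ⟨h1, h2, h5, h6⟩
      | skip
    · have e1 : b = u := h1
      have e2 : d = u := h6
      exact hbd (congrArg some (e1.trans e2.symm))
    · have e1 : c = u := h2
      have e2 : a = u := h1
      exact hac (congrArg some (e2.trans e1.symm))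
    · have e1 : d = u := h5
      have e2 : b = u := h2
      exact hbd (congrArg some (e2.trans e1.symm))
    · have e1 : a = u := h6
      have e2 : c = u := h5
      exact hac (congrArg some (e1.trans e2.symm))

/-! ## The claw, and the induction -/

/-- The claw `K_{1,3}` with centre `none`. -/
def claw : SimpleGraph (Option (Fin 3)) where
  Adj
    | some _, some _ => False
    | some _, none => True
    | none, some _ => True
    | none, none => False
  symm := ⟨by
    rintro (_ | a) (_ | b) h
    · exact h
    · exact h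
    · exact h
    · exact h⟩
  loopless := ⟨by
    rintro (_ | a) h
    · exact h
    · exact h⟩

theorem claw_square : ∀ a b, a ≠ b → (square claw).Adj a b := by
  rintro (_ | a) (_ | b) h
  · exact absurd rfl h
  · exact ⟨h, Or.inl trivial⟩
  · exact ⟨h, Or.inl trivial⟩
  · exact ⟨h, Or.inr ⟨none, trivial, trivial⟩⟩

theorem claw_noShortCycle : NoShortCycle claw := by
  refine ⟨?_, ?_⟩
  · rintro (_ | a) (_ | b) (_ | c) ⟨h1, h2, h3⟩
    all_goals first
      | exact h1
      | exact h2
      | exact h3
  · rintro (_ | a) (_ | b) (_ | c) (_ | d) hac hbd ⟨h1, h2, h3, h4⟩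
    all_goals first
      | exact h1
      | exact h2
      | exact h3
      | exact h4
      | exact hac rfl
      | exact hbd rfl

theorem claw_globallyRigid : GloballyRigid (square claw) := by
  refine ⟨exists_generic _, fun p _ q hq u v => ?_⟩
  by_cases h : u = v
  · subst h
    simp
  · exact hq u v (claw_square u v h)

theorem exists_family (n : ℕ) (hn : 4 ≤ n) : ∃ (V : Type) (_ : Finite V) (G : SimpleGraph V)
    (u : V) (w : Fin 3 → V), Nat.card V = n ∧ NoShortCycle G ∧ Function.Injective w ∧
      (∀ i, G.Adj u (w i)) ∧ GloballyRigid (square G) := by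
  induction n, hn using Nat.le_induction with
  | base =>
    refine ⟨Option (Fin 3), inferInstance, claw, none, some, by simp, claw_noShortCycle,
      Option.some_injective _, fun i => trivial, claw_globallyRigid⟩
  | succ n _ ih =>
    obtain ⟨V, hV, G, u, w, hc, hs, hw, hadj, hG⟩ := ih
    refine ⟨Option V, inferInstance, pendant G u, some u, fun i => some (w i), ?_,
      noShortCycle_pendant G u hs, (Option.some_injective _).comp hw, fun i => hadj i,
      globallyRigid_pendant G u w hw hadj hG⟩
    rw [Finite.card_option, hc]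

/-- **Pendant vertices.** Let `G` be a finite simple graph without cycles of length three or four
whose square is generically globally rigid in 3-space, and let `u` be a vertex of `G` with at
least three neighbours. Then the graph obtained from `G` by adding one pendant vertex at `u`
violates the equivalence asked for. Moreover, for every `n ≥ 5` there is a graph on `n` vertices
violating it. -/
theorem result :
    (∀ (V : Type) [Finite V] (G : SimpleGraph V) (u : V), NoShortCycle G →
      (∃ w : Fin 3 → V, Function.Injective w ∧ ∀ i, G.Adj u (w i)) →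
      GloballyRigid (square G) →
      5 ≤ Nat.card (Option V) ∧ NoShortCycle (pendant G u) ∧
        GloballyRigid (square (pendant G u)) ∧
        ¬ HighlyTreeConnected 6 (multiple 5 (pendant G u)) ∧ ¬ Equivalence (pendant G u)) ∧
    (∀ n : ℕ, 5 ≤ n → ∃ (V : Type) (_ : Finite V) (G : SimpleGraph V), Nat.card V = n ∧
      NoShortCycle G ∧ ¬ Equivalence G) := by
  have key : ∀ (V : Type) [Finite V] (G : SimpleGraph V) (u : V), NoShortCycle G →
      (∃ w : Fin 3 → V, Function.Injective w ∧ ∀ i, G.Adj u (w i)) →
      GloballyRigid (square G) →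
      5 ≤ Nat.card (Option V) ∧ NoShortCycle (pendant G u) ∧
        GloballyRigid (square (pendant G u)) ∧
        ¬ HighlyTreeConnected 6 (multiple 5 (pendant G u)) ∧ ¬ Equivalence (pendant G u) := by
    intro V hV G u hs hw hG
    obtain ⟨w, hw, hadj⟩ := hw
    have h1 := globallyRigid_pendant G u w hw hadj hG
    have h2 := not_highly_pendant G u
    refine ⟨?_, noShortCycle_pendant G u hs, h1, h2, fun h => h2 (h.mp h1).2⟩
    have hcard : 4 ≤ Nat.card V := by
      classical
      have := Fintype.ofFinite V
      have hinj : Function.Injective (fun o : Option (Fin 3) => o.elim u w) := by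
        rintro (_ | a) (_ | b) h
        · rfl
        · exact absurd h (hadj b).ne
        · exact absurd h (hadj a).ne'
        · exact congrArg some (hw h)
      have := Nat.card_le_card_of_injective _ hinj
      simpa using this
    rw [Finite.card_option]
    omega
  refine ⟨key, fun n hn => ?_⟩
  obtain ⟨V, hV, G, u, w, hc, hs, hw, hadj, hG⟩ := exists_family (n - 1) (by omega)
  obtain ⟨-, h2, -, -, h5⟩ := key V G u hs ⟨w, hw, hadj⟩ hG
  refine ⟨Option V, inferInstance, pendant G u, ?_, h2, h5⟩
  rw [Finite.card_option, hc]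
  omega

end Pool.Agent.Results.MP_f1f412_co.PendantVertices
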