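import Pool.Agent.Lib.MP_f1f412_co.SpecQ
import Pool.Agent.Lib.MP_f1f412_co.Basic

/-!
# MP_f1f412_co (C34): the star identity with load
-/

set_option autoImplicit false

namespace Pool.Agent.MPf1f412

open Matrix

private theorem qStar_key {V K : Type} [Fintype V] (h1 : S_Vw) (h2 : S_Eq) {G : SimpleGraph V}
    {c : V → K} {p : V → R3} {S : Set K} {m : K → Tw} {C : V → V → ℝ} {lam : V → V → Tw}
    {Y₁ Y₂ : K} {y₁ : V} {ω : R3} (hC : IsCo G c p S m C)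
    (hL : Ldd G c p S Y₁ Y₂ (ω, cr (p y₁) ω) lam) (hs : ev (m Y₁ - m Y₂) (p y₁) = 0)
    (D : Derivation ℚ ℝ ℝ) (v : V) (hD : Spt p D {v}) :
    D3 D (p v) ⬝ᵥ ∑ w, C v w • ev (lam v w) (p w) =
      ω ⬝ᵥ cr (m Y₁ - m Y₂).1 (D3 D (p y₁)) := by
  have e1 := h1 V K G c p S m C lam D v hC hL.pre hD
  have e2 := (h2 V K G c p S lam (fun X => DT D (m X)) hL.pre).1
  have e3 := hL.vw (fun X => DT D (m X))
  rw [e1, e3, ← DT_sub] at e2
  have hl : ev (ω, cr (p y₁) ω) (p y₁) = 0 := by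
    show cr ω (p y₁) + cr (p y₁) ω = 0
    rw [cr_anti (p y₁) ω, neg_add_cancel]
  rw [t4 hl] at e2
  have e4 := D3_ev D (m Y₁ - m Y₂) (p y₁)
  rw [hs, D3_zero] at e4
  have e5 : ev (DT D (m Y₁ - m Y₂)) (p y₁) = - cr (m Y₁ - m Y₂).1 (D3 D (p y₁)) :=
    eq_neg_of_add_eq_zero_left e4.symm
  rw [e5, dotProduct_neg] at e2
  have e6 : (ω, cr (p y₁) ω).1 = ω := rfl
  rw [e6] at e2
  linarith

theorem qStar (h1 : S_Vw) (h2 : S_Eq) : S_QStar := by
  intro V K _ G c p S m C lam Y₁ Y₂ y₁ ω hG hC hL hs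
  constructor
  · intro v hv
    apply eq_zero_of_dot
    intro δ
    obtain ⟨D, hD, hDv⟩ := hG.exists_single v δ
    have h := qStar_key h1 h2 hC hL hs D v hD
    have h0 : D3 D (p y₁) = 0 := hD y₁ (by simpa using hv.symm)
    rw [h0, cr_zero_right, dotProduct_zero, hDv] at h
    rw [dotProduct_comm]
    exact h
  · rw [← sub_eq_zero]
    apply eq_zero_of_dot
    intro δ
    obtain ⟨D, hD, hDv⟩ := hG.exists_single y₁ δ
    have h := qStar_key h1 h2 hC hL hs D y₁ hD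
    rw [hDv, dot_cr_cyc' ω _ δ] at h
    rw [dotProduct_comm, dotProduct_sub, h, sub_self]

end Pool.Agent.MPf1f412
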