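import Pool.Agent.Lib.MP_f1f412_co.Spec8
import Pool.Agent.Lib.MP_f1f412_co.SpecB

/-!
# MP_f1f412_co (C34), Spec A: section 9 of TEXT3 (Case A: a node of degree two in a minimal set)

Every `S_...` is a statement to be proved in its own file; the docstring contains the complete proof.
Sets of nodes are `S : Set N`, the structure of the nodes is `(G, π ∘ c)`; in the counting lemmas
`cp : V → N` is any map.  `δ` denotes `dK G cp Z`, `k` the number `(f '' Z).ncard` of values of `f` on `Z`.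
-/

set_option autoImplicit false

namespace Pool.Agent.MPf1f412

open Matrix

section

variable {V K N J : Type}

/-- the hypotheses of the counting lemmas -/
structure NCnt (G : SimpleGraph V) (cp : V → N) (Z : Set N) : Prop where
  /-- no two nodes of degree two are adjacent -/
  ndn : NDN G cp
  deg : ∀ S : Set N, S.Nonempty → S ≠ Set.univ → 2 ≤ dK G cp S
  cnt : ∀ (J : Type) (f : N → J), (∃ A B, f A ≠ f B) → 1 ≤ sf G cp Set.univ f
  mz : MinZ G cp 2 Z

/-- the nodes of degree two in `Z` which are the only elements of `Z` with their value of `f` -/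
def i2 (G : SimpleGraph V) (cp : V → N) (Z : Set N) (f : N → J) : Set N :=
  {Y | Y ∈ Z ∧ dK G cp {Y} = 2 ∧ ∀ Y' ∈ Z, f Y' = f Y → Y' = Y}

open Classical in
/-- `f` with all values which occur on `Z` replaced by one value -/
noncomputable def mgZ (Z : Set N) (f : N → J) (Y : N) : Option J :=
  if f Y ∈ f '' Z then none else some (f Y)

open Classical in
/-- `f'` with a new value at `X` -/
noncomputable def opX (X : N) (f' : N → J) (Y : N) : Option J :=
  if Y = X then none else some (f' Y)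

/-- the situation of the second part of section 9: `X` is the node `{X₀}` of degree two, with the two edges
`x y`, `x' y'`, and the differences `m [y] - m [y']` of the motions of the structure on the other nodes are
the multiples of `ζ` -/
structure ZSit (G : SimpleGraph V) (c : V → K) (p q : V → R3) (g : K → Iso3) (π : K → N)
    (X : N) (X₀ : K) (x y x' y' : V) (ζ : Tw) : Prop where
  ne : NEnv G c p q g π
  pX : ∀ Y, π Y = X ↔ Y = X₀
  d2 : D2 G c X₀ x y x' y'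
  z0 : ζ ≠ 0
  /-- all differences are multiples of `ζ` -/
  zr : ∀ m : N → Tw, IsMot G (π ∘ c) p {A | A ≠ X} m → ∃ r : ℝ, m (π (c y)) - m (π (c y')) = r • ζ
  /-- `ζ` is a difference -/
  zm : ∃ m : N → Tw, IsMot G (π ∘ c) p {A | A ≠ X} m ∧ m (π (c y)) - m (π (c y')) = ζ
  /-- `ℝ ζ` is stable under the derivations supported on the class `X₀` -/
  zd : ∀ D : Derivation ℚ ℝ ℝ, Spt p D {u | c u = X₀} → ∃ t : ℝ, DT D ζ = t • ζ
  /-- the nodes of `y` and `y'` are in different components -/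
  zc : cmp G (π ∘ c) p {A | A ≠ X} (π (c y)) ≠ cmp G (π ∘ c) p {A | A ≠ X} (π (c y'))
  /-- the edges inside `Z` between different components have an end of degree two -/
  ze : ∀ u w, G.Adj u w → (∃ v, G.Adj v u ∧ π (c v) = X) → (∃ v, G.Adj v w ∧ π (c v) = X) →
    π (c u) ≠ X → π (c w) ≠ X →
    cmp G (π ∘ c) p {A | A ≠ X} (π (c u)) ≠ cmp G (π ∘ c) p {A | A ≠ X} (π (c w)) →
    dK G (π ∘ c) {π (c u)} = 2 ∨ dK G (π ∘ c) {π (c w)} = 2

/-! ## counting -/

/-- **A1.** (80 lines; uses `S_Add`) No edge leaves `Z` from a node of degree two.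

Proof.  Let `j = eAB {X} Zᶜ`, `t = eAB {X} (Z \ {X})`.  `S_Add` for `S = Z`: `2 = t + j`, `dK (Z \ {X}) + j = dK Z + t`, so
`dK (Z \ {X}) = dK Z + 2 - 2 j ≤ 4 - 2 j`.  Suppose that there is an edge `u w` with `cp u = X`, `cp w ∉ Z`: `j ≥ 1`.  `Z \ {X}` is nonempty (`mz.two`) and not everything: `2 ≤ dK (Z \ {X})`,
so `j = 1`, `t = 1`, `dK (Z \ {X}) ≤ 2`.  If `Z \ {X}` had two different elements then `mz.min` would give `2 < dK (Z \ {X})`.  So `Z \ {X} = {Y}`, `dK {Y} = 2`, and as `t = 1` there is an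
edge `u w` with `cp u = X`, `cp w = Y`: contradiction to `ndn`. -/
def S_ALeave : Prop := ∀ (V N : Type) [Finite V] (G : SimpleGraph V) (cp : V → N) (Z : Set N),
  NCnt G cp Z → ∀ X ∈ Z, dK G cp {X} = 2 → ∀ u w, G.Adj u w → cp u = X → cp w ∈ Z

/-- **A2.** (120 lines) The edges at the nodes of `i2`.

Proof.  Let `P` be the set of the ordered pairs `e : V × V` with `G.Adj e.1 e.2`, `cp e.1 ∈ i2`, `cp e.2 ≠ cp e.1`.  `P` is the disjoint union over `Y ∈ i2` of the sets of `dK {Y}` (for `cp e.1 = Y`), each with two elements: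
`P.ncard = 2 * i2.ncard`.  The map `e ↦ s(e.1, e.2)` maps `P` into the set `E` of `ef G cp Z f`: `cp e.1 ∈ Z`, `cp e.2 ∈ Z` by the hypothesis `hl`, and `f (cp e.2) ≠ f (cp e.1)` (otherwise `cp e.2 = cp e.1` by the definition of `i2`).
It is injective on `P`: if `s(e.1, e.2) = s(e'.1, e'.2)` and `e ≠ e'` then `e' = (e.2, e.1)`, so both ends are in nodes of `i2`, two adjacent nodes of degree two: contradiction to `NDN`.  So `2 * i2.ncard ≤ ef`.
If there is equality then `P → E` is surjective (`Set.eq_of_subset_of_ncard_le`), and every edge `u w` of `E` is `s(e.1, e.2)` with `cp e.1 ∈ i2`, `e.1 = u` or `e.1 = w`. -/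
def S_AI2 : Prop := ∀ (V N J : Type) [Finite V] [Finite N] (G : SimpleGraph V) (cp : V → N)
  (Z : Set N) (f : N → J), NDN G cp →
  (∀ Y ∈ Z, dK G cp {Y} = 2 → ∀ u w, G.Adj u w → cp u = Y → cp w ∈ Z) →
  2 * (i2 G cp Z f).ncard ≤ ef G cp Z f ∧
  (ef G cp Z f = 2 * (i2 G cp Z f).ncard → ∀ u w, G.Adj u w → cp u ∈ Z → cp w ∈ Z →
    f (cp u) ≠ f (cp w) → cp u ∈ i2 G cp Z f ∨ cp w ∈ i2 G cp Z f)

/-- **A3.** (150 lines; uses `S_Parts`) The sum of the degrees of the parts.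

Proof.  Let `F` be the finset of the values of `f` on `Z` (`k = F.card ≥ 2`), `P_j = {Y ∈ Z | f Y = j}` for `j ∈ F` (nonempty, `≠ Z`), `d_j = dK (P_j)`.  `S_Parts`: `∑ d_j = 2 ef + δ`.
`d_j ≥ 3`, or `P_j = {Y}` with `Y ∈ i2` and `d_j = 2`: if `P_j` has two different elements then `mz.min` gives `3 ≤ d_j`; if `P_j = {Y}` then `2 ≤ dK {Y}` by `deg` (`{Y} ≠ univ` as `Z` has two elements), and if `dK {Y} = 2` then `Y ∈ i2`.
Let `F₂` be the set of the `j ∈ F` of the second kind; `j ↦ Y` is injective from `F₂` to `i2` (`f Y = j`), so `|F₂| ≤ i2.ncard`.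
(a) `3 k ≤ ∑ d_j + |F₂| ≤ 2 ef + δ + i2.ncard`.
(b) Let `j₀` be as in the statement, `T₀ = P_(j₀)`, `W = Z \ T₀`: `W ⊆ Z`, `W ≠ Z` (`T₀` is nonempty), `W` has two different elements: `3 ≤ dK W` (`mz.min`).  The pairs leaving `W`: `cp e.1 ∈ W`, `cp e.2 ∉ W`; no edge leaves `Z` from `W` (hypothesis: it would have
`f (cp e.1) = j₀`), so `cp e.2 ∈ T₀`.  The pairs leaving `T₀` are the reversed pairs leaving `W` and the pairs leaving `Z` (these start in `T₀`): `d_(j₀) = dK W + δ ≥ 3 + δ` (only `≥` is needed: the two sets are disjoint subsets of the pairs leaving `T₀`).  So `j₀ ∉ F₂`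
(`d_(j₀) ≥ 3`), and `∑_{j ≠ j₀} d_j ≤ 2 ef + δ - 3 - δ = 2 ef - 3`; `3 (k - 1) ≤ ∑_{j ≠ j₀} d_j + |F₂|`.  So `3 k ≤ 2 ef + i2.ncard`. -/
def S_AI3 : Prop := ∀ (V N J : Type) [Finite V] [Finite N] (G : SimpleGraph V) (cp : V → N)
  (Z : Set N) (f : N → J), NCnt G cp Z → 2 ≤ (f '' Z).ncard →
  3 * (f '' Z).ncard ≤ 2 * ef G cp Z f + dK G cp Z + (i2 G cp Z f).ncard ∧
  ∀ j₀ ∈ f '' Z, (∀ u w, G.Adj u w → cp u ∈ Z → cp w ∉ Z → f (cp u) = j₀) →
    (∃ A ∈ Z, ∃ B ∈ Z, A ≠ B ∧ f A ≠ j₀ ∧ f B ≠ j₀) →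
    3 * (f '' Z).ncard ≤ 2 * ef G cp Z f + (i2 G cp Z f).ncard

/-- **A4.** (100 lines) Merging the parts which meet `Z`.

Proof.  `f₁ = mgZ Z f`.  (1) `f₁ '' univ = {none} ∪ some '' (f '' univ \ f '' Z)` (`Z` is nonempty), so `(f₁ '' univ).ncard = 1 + (f '' univ).ncard - k`.  (2) The edges with different values of `f₁` and the edges with both ends in `Z` and different values of `f` are
disjoint subsets of the set of the edges with different values of `f` (both ends in `Z`: `f₁` is `none` at both ends), so `ef univ f₁ + ef Z f ≤ ef univ f`.  (3) `sf univ f = 5 ef univ f - 6 (|f univ| - 1) ≥ 5 ef univ f₁ + 5 ef Z f - 6 (|f₁ univ| - 1 + k - 1)`.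
(All sets are finite; `ef` with `S = univ` counts the crossing edges with different values.) -/
def S_AMg : Prop := ∀ (V N J : Type) [Finite V] [Finite N] (G : SimpleGraph V) (cp : V → N)
  (Z : Set N) (f : N → J), Z.Nonempty →
  sf G cp Set.univ (mgZ Z f) + 5 * (ef G cp Z f : ℤ) ≤
    sf G cp Set.univ f + 6 * (((f '' Z).ncard : ℤ) - 1)

/-- **A5.** (90 lines) The two edges leaving `Z`.

Proof.  Suppose that `f (cp u) ≠ f (cp u')` and `ef univ f ≤ ef Z f`.  The set `E` of `ef G cp Z f` is a subset of the finite set `E'` of `ef G cp univ f`, so they are equal: every edge with different values of `f` has both ends in `Z`.  (*) So for every edge `a b` with an end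
not in `Z` (`cp a ∉ Z` or `cp b ∉ Z`): `f (cp a) = f (cp b)` (otherwise `s(a,b) ∈ E' = E`; note that `s(a,b) = s(u₁,w₁)` with `cp u₁, cp w₁ ∈ Z`).  `(u,w) ≠ (u',w')` leave `Z`, and `dK Z ≤ 2`: they are all the pairs leaving `Z`.
`U := {Y | Y ∉ Z ∧ f Y = f (cp u)}` contains `cp w` (by (*)) and not `cp u`, so `2 ≤ dK U` (`deg`).  Let `(a,b)` be a pair leaving `U`: `cp a ∈ U`, `cp b ∉ U`; by (*) `f (cp b) = f (cp a) = f (cp u)`, so `cp b ∈ Z`.  So `(b,a)` leaves `Z`: it is `(u,w)` or `(u',w')`; the second is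
impossible as `f (cp b) = f (cp u) ≠ f (cp u')`.  So `(a,b) = (w,u)`, `dK U ≤ 1`: contradiction. -/
def S_ARest : Prop := ∀ (V N J : Type) [Finite V] [Finite N] (G : SimpleGraph V) (cp : V → N)
  (Z : Set N) (f : N → J), (∀ S : Set N, S.Nonempty → S ≠ Set.univ → 2 ≤ dK G cp S) →
  dK G cp Z ≤ 2 → ∀ u w u' w', G.Adj u w → G.Adj u' w' → cp u ∈ Z → cp w ∉ Z → cp u' ∈ Z →
  cp w' ∉ Z → f (cp u) = f (cp u') ∨ ef G cp Z f + 1 ≤ ef G cp Set.univ f

/-- **A6.** (130 lines; uses `S_ALeave`, `S_AI2`, `S_AI3`, `S_AMg`, `S_ARest`) (9.4).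

Proof.  `k ≥ 2` (`X` and another element of `Z` have different values).  `e := ef G cp Z f`, `i := (i2 G cp Z f).ncard`.  `S_AI2` (its hypothesis is `S_ALeave`): `2 i ≤ e`; `S_AI3`: `3 k ≤ 2 e + δ + i`, so (1) `6 k ≤ 4 e + 2 δ + 2 i ≤ 5 e + 2 δ`; `δ ≤ 2` (`mz.le`).
`S_AMg`: (2) `sf univ f₁ + 5 e ≤ sf univ f + 6 (k - 1)`, `f₁ = mgZ Z f`.
(I) `f₁` is not constant: `sf univ f₁ ≥ 1` (`cnt`), `sf univ f ≥ 1 + 5 e - 6 k + 6 ≥ 7 - 2 δ ≥ 3`.  If `sf univ f = 3` then `6 k ≥ 5 e + 4` by (2), and `6 k ≤ 4 e + 4 + 2 i`: `e ≤ 2 i`, so `e = 2 i`, and the second part of `S_AI2` gives an end in `i2`, of degree 2.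
(II) `f₁` is constant: its value is `none` (value at `X ∈ Z`), so all values of `f` are in `f '' Z`, `sf univ f₁ = 0` (no edges with different values, one value).  We show `sf univ f ≥ 4` (so the second part is void).
If no edge leaves `Z`: `δ = 0`; (1), (2): `sf univ f ≥ 5 e - 6 k + 6 ≥ 6`.  Otherwise let `u w` be an edge with `cp u ∈ Z`, `cp w ∉ Z`, `j₀ := f (cp u)`.  If there is an edge `u' w'` leaving `Z` with `f (cp u') ≠ j₀`: `S_ARest`: `ef univ f ≥ e + 1`; `f '' univ = f '' Z`, so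
`sf univ f = 5 ef univ f - 6 (k - 1) ≥ 5 e + 5 - 6 k + 6 ≥ 11 - 2 δ ≥ 7`.  Otherwise all edges leaving `Z` start in the part of `j₀`.  `f X ≠ j₀`: otherwise `cp u = X` (`hX`), contradiction to `S_ALeave`.  If there are `A ≠ B` in `Z` with `f A ≠ j₀`, `f B ≠ j₀`:
second part of `S_AI3`: `6 k ≤ 4 e + 2 i ≤ 5 e`, `sf univ f ≥ 5 e - 6 k + 6 ≥ 6` by (2).  Otherwise all elements of `Z` except `X` have the value `j₀`: `f '' Z = {f X, j₀}`, `k = 2`, and `X ∈ i2` (`hX`), so `i ≥ 1`, `e ≥ 2`: by (2) `sf univ f ≥ 10 - 6 = 4`. -/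
def S_A94 : Prop := ∀ (V N J : Type) [Finite V] [Finite N] (G : SimpleGraph V) (cp : V → N)
  (Z : Set N) (f : N → J), NCnt G cp Z → ∀ X ∈ Z, dK G cp {X} = 2 → (∀ Y, f Y = f X → Y = X) →
  3 ≤ sf G cp Set.univ f ∧ (sf G cp Set.univ f = 3 → ∀ u w, G.Adj u w → cp u ∈ Z → cp w ∈ Z →
    f (cp u) ≠ f (cp w) → dK G cp {cp u} = 2 ∨ dK G cp {cp w} = 2)

/-- **A7.** (90 lines) Adding the node `X` of degree two.

Proof.  Let `f = opX X f'`, `S = {A | A ≠ X}`.  The edges with different values of `f` are the edges with both ends in nodes `≠ X` and different values of `f'` (`ef G cp S f'`), and the edges with exactly one end in `X`; these are the `s(e.1, e.2)` for the two pairs `e` leaving `{X}` (`e ↦ s(e.1, e.2)` is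
injective on this set, as `cp e.1 = X ≠ cp e.2`).  So `ef univ f = ef S f' + 2`.  `f '' univ = {none} ∪ some '' (f' '' S)`: `|f '' univ| = |f' '' S| + 1`.  So `sf univ f = 5 ef S f' + 10 - 6 |f' '' S| = sf S f' + 4`. -/
def S_AOpt : Prop := ∀ (V N J : Type) [Finite V] [Finite N] (G : SimpleGraph V) (cp : V → N)
  (X : N) (f' : N → J), dK G cp {X} = 2 →
  sf G cp Set.univ (opX X f') = sf G cp {A | A ≠ X} f' + 4

/-- **A8.** (70 lines; uses `S_A94`, `S_AOpt`, `S_D0f`, `S_D0r`) The motions of the structure on the nodes different from `X`.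

Proof.  `S = {A | A ≠ X}`.  For `f' : N → J` the map `f = opX X f'` has the part `{X}`, so by `S_A94` and `S_AOpt` `sf S f' = sf univ f - 4 ≥ -1`.  `S_D0r` (`k = 1`): `dmo ≤ 7`.  Let `7 ≤ dmo`, so `dmo = 7`.  `S_D0f`: `7 + 5 ef S (cmp) = 6 (cmp '' S).ncard`, so `sf S (cmp) = 6 - 7 = -1`, and for
`f = opX X cmp`: `sf univ f = 3`.  The second part of `S_A94`: for `u w` as in the statement `f (cp u) = some (cmp (cp u)) ≠ some (cmp (cp w)) = f (cp w)`. -/
def S_ADmo : Prop := ∀ (V N : Type) [Fintype V] [Finite N] (G : SimpleGraph V) (cp : V → N)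
  (p : V → R3) (Z : Set N), Gn p → NoTri G → NCnt G cp Z → ∀ X ∈ Z, dK G cp {X} = 2 →
  dmo G cp p {A | A ≠ X} ≤ 7 ∧ (7 ≤ dmo G cp p {A | A ≠ X} → ∀ u w, G.Adj u w → cp u ∈ Z →
    cp w ∈ Z → cp u ≠ X → cp w ≠ X →
    cmp G cp p {A | A ≠ X} (cp u) ≠ cmp G cp p {A | A ≠ X} (cp w) →
    dK G cp {cp u} = 2 ∨ dK G cp {cp w} = 2)

/-! ## the twist `ζ` -/

/-- **A9.** (50 lines) From the classes to the nodes.

Proof.  Let `S = {A | A ≠ X}`.  (1) `m` is a motion of `(G, c)` on `π ⁻¹' S`: for a crossing edge `u w` of it `c u ≠ X₀ ≠ c w`, so `u ≠ z ≠ w` and `Lse` at `u` and at `w` (both are pins of `c u` and of `c w`) with (T1) gives the hinge condition.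
(2) `m' A := m (choice of an element of π ⁻¹ A)` (`psurj`); by `motN` `m Y = m' (π Y)` for `π Y ≠ X`.  (3) `m'` is a motion of `(G, π ∘ c)` on `S`: a crossing edge `u w` (`π (c u) ≠ π (c w)`) is a crossing edge for `c`. -/
def S_ANode : Prop := ∀ (V K N : Type) [Finite V] (G : SimpleGraph V) (c : V → K) (p q : V → R3)
  (g : K → Iso3) (π : K → N), NEnv G c p q g π → ∀ (X : N) (X₀ : K), (∀ Y, π Y = X ↔ Y = X₀) →
  ∀ (z : V) (m : K → Tw), c z = X₀ → Lse G c p z m → ∃ m' : N → Tw,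
    IsMot G (π ∘ c) p {A | A ≠ X} m' ∧ ∀ Y, π Y ≠ X → m Y = m' (π Y)

/-- **A10.** (120 lines; uses `S_ALeave`, `S_ADmo`, `S_CompRig`, `S_Mrg`, `S_SpDim`, `S_Stab`) The twist `ζ`.

Proof.  `cp = π ∘ c`, `S = {A | A ≠ X}`, `Y₁ = π (c y)`, `Y₂ = π (c y')`, both in `S` (`c y ≠ X₀`).  `NCnt G cp Z` from `NDN`, `NEnv.deg`, `NEnv.cntN`, `MinZ`.
(zc) Suppose `cmp Y₁ = cmp Y₂`.  `R = cmp Y₁ ∋ Y₁, Y₂` (`Y₂ ∈ cmp Y₂`) is rigid (`S_CompRig` for the class map `π ∘ c`), `X ∉ R ⊆ S`.  `slowN` for `R`, `A = X` and the edges `x y`, `x' y'`: `y = y'`, contradiction to `D2.cyy`.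
By `S_Mrg` (1) there is a motion `m` with `m Y₁ ≠ m Y₂`, so `Sp G cp p S Y₁ Y₂ ≠ ⊥`, its dimension is at least 1; `S_SpDim` (with `K := N`) and `S_ADmo`: it is at most `7 - 6 = 1`.  So it is `span {ζ}`, `ζ ≠ 0` (`finrank_eq_one_iff'`), and `dmo = 7`.  This gives `z0`, `zr`, `zm`.
(zd) Let `D` be supported on `{u | c u = X₀}` and `ζ = m Y₁ - m Y₂`.  No crossing edge of `G[S]` has an end `u` with `c u = X₀` (then `cp u = X ∉ S`), so `Y ↦ DT D (m Y)` is a motion (`S_Stab`), and `DT D ζ = DT D (m Y₁) - DT D (m Y₂)` is a multiple of `ζ` by `zr`.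
(ze) `S_ADmo`, second part: `π (c u)`, `π (c w) ∈ Z` by `S_ALeave` for the edges `v u`, `v' w` with `π (c v) = π (c v') = X`. -/
def S_AZeta : Prop := ∀ (V K N : Type) [Fintype V] [Finite K] [Finite N] (G : SimpleGraph V)
  (c : V → K) (p q : V → R3) (g : K → Iso3) (π : K → N), NEnv G c p q g π → NDN G (π ∘ c) →
  ∀ Z : Set N, MinZ G (π ∘ c) 2 Z → ∀ X ∈ Z, dK G (π ∘ c) {X} = 2 → ∀ X₀ x y x' y',
  (∀ Y, π Y = X ↔ Y = X₀) → D2 G c X₀ x y x' y' → ∃ ζ, ZSit G c p q g π X X₀ x y x' y' ζ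

/-! ## type (b): `X` is a vertex of degree two -/

/-- **A11.** (90 lines; uses `S_R1`, `S_TwoIso`) A vertex of degree two.

Proof.  The class `X` is `{z}` and the neighbours of `z` are `y`, `y'` (`D2.one`); the pins of `X` are `z, y, y'`.  `Y = c y`, `Y' = c y'`, `A₁ = (g Y).A`, `A₂ = (g Y').A`, `e = ev ζ (p z)`; `z` is a pin of `Y` and of `Y'`.  `e ≠ 0`: otherwise `(g Y).B *ᵥ η = (g Y').B *ᵥ η` for all `η`, so
`(g Y).B = (g Y').B`, contradiction to `Env.T0`.  Let `C = A₁ᵀ * A₂`, `Cᵀ * C = 1` (`A₁ * A₁ᵀ = 1`).  For `x : R3` put `η = A₁ *ᵥ x`: `Cᵀ *ᵥ x - x = A₂ᵀ *ᵥ η - A₁ᵀ *ᵥ η = - ((g Y).B - (g Y').B) *ᵥ η`, a multiple of `e`.  `S_R1` (second part, `n = e`): `C = 1` or `C = Rn e`.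
`S_TwoIso` for `g₁ = g Y`, `g₂ = g Y'`, `v = p z`, `w = p y'`, `y = p y`: `g₁.ap (p z) = q z = g₂.ap (p z)`; `g₁.ap (p y) = q y`, `g₂.ap (p y') = q y'`, and `dsq (q y) (q y') = dsq (p y) (p y')` because `y, y'` are pins of `X` (`g X` preserves `dsq`).
`g₁ = g₂`: it serves the pins of `Y` and of `Y'` (`Y ≠ Y'`: `D2.cyy`).  `g₂.ap (p y') = g₁.ap (p y')`: `g₁` serves the pins of `Y` and the pins `z, y, y'` of `X`.  `g₂.ap (p y) = g₁.ap (p y)`: `g₂` serves the pins of `Y'` and of `X`.  Each is a contradiction to `Env.mp` (`c` is surjective). -/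
def S_ATyb : Prop := ∀ (V K : Type) [Finite V] (G : SimpleGraph V) (c : V → K) (p q : V → R3)
  (g : K → Iso3), Env G c p q g → ∀ (X : K) (z y y' : V) (ζ : Tw), D2 G c X z y z y' →
  (∀ η : R3, ∃ r : ℝ, ((g (c y)).B - (g (c y')).B) *ᵥ η = r • ev ζ (p z)) → False

/-! ## type (a) -/

/-- **A12.** (30 lines) Differentiating at `x'`.

Proof.  Let `δ ∈ R3` and `D` supported on `{x'}` with `D3 D (p x') = δ` (`Gn.exists_single`), `DT D ζ = t • ζ`.  Apply `D` to `0 = (x' - y') · ev ζ y`: `D y' = D y = 0`, so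
`0 = δ · ev ζ y + (x' - y') · ev (DT D ζ) y = δ · ev ζ y + t (x' - y') · ev ζ y = δ · ev ζ y`.  This holds for all `δ`. -/
def S_ADer : Prop := ∀ (V : Type) (p : V → R3) (ζ : Tw) (x' y' y : V), Gn p → y ≠ x' → y' ≠ x' →
  (∀ D : Derivation ℚ ℝ ℝ, Spt p D {x'} → ∃ t : ℝ, DT D ζ = t • ζ) →
  (p x' - p y') ⬝ᵥ ev ζ (p y) = 0 → ev ζ (p y) = 0

/-- **A13.** (80 lines; uses `S_ADer`) `ζ` vanishes at `y`.

Proof.  Suppose `ev ζ y ≠ 0`.  `Env.tr` for `z = x`, `X`, `Y = c y` (`x` is a pin of both): `m` with `Lse G c p x m` and `ev (m X - m Y) (p x) ≠ 0`.  `x' ≠ x`, `y' ≠ x`, `y ≠ x`; `x'` and `y'` are pins of `X` and of `Y' = c y'`, so by `Lse` and (T1) `m X - m Y' = b L(x',y')`.  `y` is a pin of `X` and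
of `Y`: `ev (m X - m Y) y = 0`.  By hypothesis `m Y - m Y' = r ζ`.  So `m X - m Y = b L(x',y') - r ζ` and `b n = r ev ζ y`, `n = ev L(x',y') y = (y' - x') × (y - x')`, `n ≠ 0` (`x'`, `y'`, `y` are different).  If `r = 0` then `b = 0` and `m X = m Y`: contradiction.  So `ev ζ y = (b / r) n` is orthogonal to `x' - y'`:
`S_ADer` gives `ev ζ y = 0`. -/
def S_ARel : Prop := ∀ (V K : Type) [Finite V] (G : SimpleGraph V) (c : V → K) (p q : V → R3)
  (g : K → Iso3), Env G c p q g → ∀ (X : K) (x y x' y' : V) (ζ : Tw), D2 G c X x y x' y' → x ≠ x' →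
  (∀ D : Derivation ℚ ℝ ℝ, Spt p D {x'} → ∃ t : ℝ, DT D ζ = t • ζ) →
  (∀ m : K → Tw, Lse G c p x m → ∃ r : ℝ, m (c y) - m (c y') = r • ζ) → ev ζ (p y) = 0

/-- **A14.** (100 lines; uses `S_ARel`, `S_ANode`, `S_DZP`) Type (a).

Proof.  (1) `ev ζ y = 0`: `S_ARel`; `ℝ ζ` is stable for `D` supported on `{x'}` (`zd`, `c x' = X₀`); if `Lse G c p x m` then by `S_ANode` (`z = x`) `m (c y) - m (c y') = m' (π (c y)) - m' (π (c y'))`, a multiple of `ζ` (`zr`).  (2) `ev ζ y' = 0`: the same for `D2 G c X₀ x' y' x y` (the structure `D2` is symmetric)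
and `m (c y') - m (c y) = (-r) • ζ`.  (3) `S_DZP` for the class map `π ∘ c`, `S = {A | A ≠ X}`, `y₁ = y`, `Y₂ = π (c y')`: for every motion `m (π (c y)) - m Y₂ = r ζ`, so its velocity at `y` is zero; by `zm` (`ζ ≠ 0`) there is a motion with `m (π (c y)) ≠ m Y₂`.  We get `w` with `G.Adj y w` and `ζ = t • L(y,w)`
(for the motion of `zm`), `t ≠ 0`.  `ev ζ y' = 0` gives `(w - y) × (y' - y) = 0`, `w ≠ y`, `y' ≠ y` (`D2.cyy`), so `w = y'` by general position (`Gn.gp3`).  So `G.Adj y y'`.  (4) `ze` for `u = y`, `w = y'` (with `v = x`, `v = x'`; `π (c x) = X`), `zc`: `dK {π (c y)} = 2` or `dK {π (c y')} = 2`; `dK {X} = 2`; the edges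
`x y` and `x' y'`: contradiction to `NDN`. -/
def S_ATya : Prop := ∀ (V K N : Type) [Fintype V] [Finite K] [Finite N] (G : SimpleGraph V)
  (c : V → K) (p q : V → R3) (g : K → Iso3) (π : K → N) (X : N) (X₀ : K) (x y x' y' : V) (ζ : Tw),
  ZSit G c p q g π X X₀ x y x' y' ζ → NDN G (π ∘ c) → dK G (π ∘ c) {X} = 2 → x ≠ x' → False

/-- **A15.** (60 lines; uses `S_AZeta`, `S_ATya`, `S_ATyb`, `S_ANode`) Case A.

Proof.  `NEnv.deg2` gives `X₀, x, y, x', y'`, `S_AZeta` gives `ζ`.  If `x ≠ x'`: `S_ATya`.  Let `x = x' = z`.  For `η : R3` let `m` be from `Env.T` for the field with the value `η` at `z` and `0` elsewhere; `Lse G c p z m`.  `S_ANode`: `m (c y) - m (c y') = m' (π (c y)) - m' (π (c y')) = r ζ` (`zr`; `π (c y) ≠ X`).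
`z` is a pin of `c y` and of `c y'`: `((g (c y)).B - (g (c y')).B) *ᵥ η = ev (m (c y) - m (c y')) (p z) = r • ev ζ (p z)`.  `S_ATyb`. -/
def S_CaseA : Prop := ∀ (V K N : Type) [Fintype V] [Finite K] [Finite N] (G : SimpleGraph V)
  (c : V → K) (p q : V → R3) (g : K → Iso3) (π : K → N), NEnv G c p q g π → NDN G (π ∘ c) →
  ∀ Z : Set N, MinZ G (π ∘ c) 2 Z → ∀ X ∈ Z, dK G (π ∘ c) {X} = 2 → False

end

end Pool.Agent.MPf1f412
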