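import Pool.Agent.Lib.MP_f1f412_co.Defs

/-!
# MP_f1f412_co (C34), Spec T: tree packing (Nash-Williams, Tutte) in the form of partitions

Every `S_...` is a statement to be proved in its own file; the docstring contains the complete
proof.  A partition of `V` is given by a map `c : V → K`; `cls c` is its number of classes,
`crn G c` the number of edges of `G` which cross it.
-/

set_option autoImplicit false

namespace Pool.Agent.MPf1f412

/-- **T1.** Matroid union for vectors.

Proof. Call a partial colouring `φ : E → Option (Fin k)` good if every colour class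
`{e | φ e = some i}` is linearly independent.  `φ = none` is good; let `φ₀` be a good colouring with the
maximal number of coloured elements.  Let `φ → φ'` if `φ'` is good and there are `e`, `f`, `i` with
`φ e = none`, `φ f = some i`, and `φ'` is `φ` with `f` uncoloured and `e` coloured by `i`.  Let `𝒞` be the set of
the colourings reachable from `φ₀` (`Relation.ReflTransGen`); they are good and have the maximal
number of coloured elements.  Let `R = {e | ∃ φ ∈ 𝒞, φ e = none}`.
(1) Let `φ ∈ 𝒞`, `φ e = none`, `i` a colour: `x e ∈ span (x '' ({φ = some i} ∩ R))`.  First `x e` is in the span of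
`x '' {φ = some i}`, as otherwise `e` could get the colour `i` (maximality).  So `x e = ∑ a_f x f` over the class `i`.
If `a_f ≠ 0` then the class with `f` replaced by `e` is linearly independent (exchange:
`LinearIndepOn` insert/diff lemmas; `x e` is not in the span of the class without `f`, because `x f` is not),
so the swapped colouring is in `𝒞` and `f ∈ R`.
(2) For `φ ∈ 𝒞` and every `i`: `span (x '' ({φ = some i} ∩ R)) = span (x '' ({φ₀ = some i} ∩ R))`.  One step `φ → φ'`
with `e, f, i`: for colours `≠ i` nothing changes.  `{φ' = some i} ∩ R = ({φ = some i} ∩ R \ {f}) ∪ {e}`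
(`e, f ∈ R`, as `φ e = none`, `φ' f = none`).  By (1) for `φ`, `x e` is in the span for `φ`, by (1) for `φ'`, `x f` is in
the span for `φ'`: the spans are equal.
(3) If `e ∈ R`, `φ e = none` with `φ ∈ 𝒞`: (1) and (2). -/
def S_Union : Prop := ∀ (F W E : Type) [Field F] [AddCommGroup W] [Module F W] [Finite E]
  (x : E → W) (k : ℕ), ∃ (φ : E → Option (Fin k)) (R : Set E),
    (∀ i, LinearIndepOn F x {e | φ e = some i}) ∧ (∀ e, φ e = none → e ∈ R) ∧
    ∀ i, ∀ e ∈ R, x e ∈ Submodule.span F (x '' ({e | φ e = some i} ∩ R))

/-- **T2.** The rank of a set of edges.  `c` is the partition into the components of `(V, R)`.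

Proof. (a) `≤`: choose for every `v` with `c v = y` a representative `s y`; the number of the `v` which are not
representatives is `|V| - cls c`.  The linear map `L : (V → ZMod 2) → (range c → ZMod 2)`,
`(L w) y = ∑_{c v = y} w v`, is surjective and kills all `vec (ends e)`, `e ∈ R` (the two ends are in the same class):
the span is contained in `ker L`, of dimension `|V| - cls c`.
(b) `≥`: `ker L` is spanned by the vectors `δ_v + δ_(s (c v))`, and each of them is a sum of vectors of edges
along a path in `R` (`hc`: equal classes are connected; induction on `Relation.ReflTransGen`/`EqvGen`: if `u, v` are connected by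
`R`-edges then `δ_u + δ_v ∈ span`).  (If `w ∈ ker L` then `w = ∑_v w v • (δ_v + δ_(s (c v)))`, because
`∑_v w v • δ_(s (c v)) = ∑_y (L w) y • δ_(s y) = 0`.) -/
def S_Rank : Prop := ∀ (V E K : Type) [Finite V] (ends : E → Sym2 V) (R : Set E) (c : V → K),
  (∀ e ∈ R, ¬ Crs c (ends e)) →
  (∀ u v, c u = c v → Relation.ReflTransGen (fun a b => ∃ e ∈ R, ends e = s(a, b)) u v) →
  Module.finrank (ZMod 2) (Submodule.span (ZMod 2) ((fun e => vec (ends e)) '' R)) + cls c =
    Nat.card V

/-- **T3.** Independent sets of `|V| - 1` edges are spanning trees.

Proof. `InjOn`: `vec ∘ ends` is injective on `T` (linear independence).  Let `H = fromEdgeSet (ends '' T)`.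
No `e ∈ T` is a loop (`vec s(v, v) = 0` in characteristic two), so `H.edgeSet = ends '' T` has `|V| - 1` elements.
`H` is connected: `V` is not empty (`T.ncard + 1 = Nat.card V`); suppose that `A` is the component of a vertex and `A ≠ univ`.
The functionals `w ↦ ∑_{v ∈ A} w v` and `w ↦ ∑_v w v` vanish on `vec (ends e)` for `e ∈ T`; they are linearly independent
(`A ≠ ∅, univ`), so the span has dimension at most `|V| - 2`, but it is `|V| - 1`.  Then
`SimpleGraph.isTree_iff_connected_and_card`. -/
def S_Tree : Prop := ∀ (V E : Type) [Finite V] [Finite E] (ends : E → Sym2 V) (T : Set E),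
  LinearIndepOn (ZMod 2) (fun e => vec (ends e)) T → T.ncard + 1 = Nat.card V →
  IsSpanningTree ends T

/-- **T4.** A spanning tree crosses a partition in at least `cls c - 1` edges.

Proof. Let `H = fromEdgeSet (ends '' T)`, connected.  Consider the simple graph `Q` on `Set.range c` in which `y ≠ z` are joined if
there are `u, v` with `c u = y`, `c v = z`, `H.Adj u v`.  `Q` is connected (map walks of `H`), so it has at least
`cls c - 1` edges (a connected graph has a spanning tree, `SimpleGraph.Connected.card_vert_le_card_edgeSet_add_one`).
Choose for every edge of `Q` an edge `e ∈ T` crossing `c` which maps to it: injective. -/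
def S_Easy : Prop := ∀ (V E K : Type) [Finite V] [Finite E] (ends : E → Sym2 V) (T : Set E)
  (c : V → K), IsSpanningTree ends T → cls c ≤ {e | e ∈ T ∧ Crs c (ends e)}.ncard + 1

/-- **T5.** The theorem of Nash-Williams and Tutte.  (Uses `S_Union`, `S_Rank`, `S_Tree`.)

Proof. `S_Union` for `x e = vec (ends e)` (field `ZMod 2`): `φ`, `R`.  Let `c v` be a chosen representative of the component of `v` in
`(V, R)` (the equivalence relation generated by: `∃ e ∈ R, ends e = s(a, b)`, this is symmetric), `m = cls c`,
`n = |V|`, `F i = {e | φ e = some i}`.
(i) `F i ∩ R` is independent and spans the same space as `R`: `|F i ∩ R| + m = n` (`S_Rank` for `R`).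
(ii) `F i` is independent in the space of the vectors with sum zero (dimension `n - 1`; or `S_Rank` for `E` and a
coarser partition): `|F i| ≤ n - 1`.
(iii) `∑ |F i| = |Rᶜ| + k (n - m)`: all uncoloured elements are in `R`.  All edges crossing `c` are in `Rᶜ`, so
`∑ |F i| ≥ k (m - 1) + k (n - m) = k (n - 1)`.  So `|F i| = n - 1` for all `i`: `S_Tree`. -/
def S_NWT : Prop := ∀ (V E : Type) [Finite V] [Nonempty V] [Finite E] (ends : E → Sym2 V) (k : ℕ),
  (∀ c : V → V, k * cls c ≤ {e | Crs c (ends e)}.ncard + k) →
  ∃ T : Fin k → Set E, (∀ i, IsSpanningTree ends (T i)) ∧ ∀ i j, i ≠ j → Disjoint (T i) (T j)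

/-- **T6.** The partition form of the condition.  (Uses `S_Easy`, `S_NWT`.)

Proof. Note that a map `c : V → K` can be replaced by `V → V` with the same classes (representatives).
`→`: let `2 ≤ cls c`.  Since there is an edge `e`, there is a spanning tree (of `5G`, so `G` is connected and has an edge `e₀` crossing `c`
(a path between two vertices of different classes).  Apply the hypothesis to `(e₀, 0)`: six disjoint spanning trees, each has at least `cls c - 1`
crossing edges (`S_Easy`), and the number of crossing elements of `G.edgeSet × Fin 5` other than `(e₀, 0)` is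
`5 * crn G c - 1`.
`←`: let `e` be given; `E' = {x // x ≠ e}` with the restricted `ends`.  For every `c` the number of crossing elements of `E'` is at
least `5 * crn G c - 1 ≥ 6 * (cls c - 1)` (for `cls c ≤ 1` trivial).  `S_NWT` for `k = 6`, and the images of the trees in `E`
are spanning trees (`ends '' ` is the same set). -/
def S_TP : Prop := ∀ (V : Type) [Finite V] (G : SimpleGraph V), (∃ u v, G.Adj u v) →
  (HighlyTreeConnected 6 (multiple 5 G) ↔
    ∀ (K : Type) (c : V → K), 2 ≤ cls c → 6 * cls c ≤ 5 * crn G c + 5)

end Pool.Agent.MPf1f412
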