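import Pool.Agent.Lib.MP_f1f412_co.SpecP
import Pool.Agent.Lib.MP_f1f412_co.SpecT

/-!
# MP_f1f412_co (C34), Spec F: the final assembly and graphs with leaves (TEXT4.md, section 17)

`S_Suff` and `S_Nec` are the results of the sufficiency part and of the necessity part (they are not
tasks of this file).  Every other `S_...` is a statement to be proved in its own file; the docstring
contains the complete proof.
-/

set_option autoImplicit false

namespace Pool.Agent.MPf1f412

open Matrix

/-! ### the two halves, for graphs of minimum degree at least two -/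

/-- **Sufficiency** (result of the sections 4 to 11). -/
def S_Suff : Prop := ∀ (V : Type) [Finite V] (G : SimpleGraph V) (p q : V → R3), Hyp G → Gn p →
  Eqv (square G) p q → ∀ u w, dsq (q u) (q w) = dsq (p u) (p w)

/-- **Four-connectivity** (necessity, general graphs; result of the necessity part, TEXT4 section 13). -/
def S_Con4 : Prop := ∀ (V : Type) [Finite V] (H : SimpleGraph V) (p : V → R3),
  5 ≤ Nat.card V → AlgebraicIndependent ℚ (fun i : V × Fin 3 => p i.1 i.2) →
  (∀ q, Eqv H p q → ∀ u w, dsq (q u) (q w) = dsq (p u) (p w)) → KConnected 4 H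

/-- **Necessity of the count** (result of the necessity part, minimum degree two). -/
def S_Nec : Prop := ∀ (V : Type) [Finite V] (G : SimpleGraph V) (p : V → R3), NoTri G →
  (∀ a b c d, a ≠ c → b ≠ d → ¬ (G.Adj a b ∧ G.Adj b c ∧ G.Adj c d ∧ G.Adj d a)) →
  (∀ v, ∃ a b, a ≠ b ∧ G.Adj v a ∧ G.Adj v b) → 5 ≤ Nat.card V →
  AlgebraicIndependent ℚ (fun i : V × Fin 3 => p i.1 i.2) →
  (∀ q, Eqv (square G) p q → ∀ u w, dsq (q u) (q w) = dsq (p u) (p w)) →
  ∀ (J : Type) (f : V → J), 2 ≤ cls f → 6 * cls f ≤ 5 * crn G f + 5

/-! ### bridges -/

/-- **FExG.** Generic configurations exist.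

Proof. `Results/MP_f1f412_co/PendantVertices.lean` (first section) contains the proof (a transcendence basis of `ℝ` over `ℚ` is infinite; embed the
finite type `V × Fin 3` into it).  Copy it. -/
def S_ExG : Prop := ∀ (V : Type) [Finite V], ∃ p : V → E3, Generic p

/-- the configuration in `R3` -/
def toR {V : Type} (p : V → E3) : V → R3 := fun v i => p v i

/-- **FBrg.** From `E3` to `R3`.

Proof. `dist x y ^ 2 = ∑ i, (x i - y i) ^ 2 = dsq` (`EuclideanSpace.dist_eq`), distances are nonnegative; every `q : V → R3` is `toR q'`
(`q' v = WithLp.toLp 2 (q v)`). -/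
def S_Brg : Prop := ∀ (V : Type) (H : SimpleGraph V) (p : V → E3),
  FrameworkGloballyRigid H p ↔
    ∀ q, Eqv H (toR p) q → ∀ u w, dsq (q u) (q w) = dsq (toR p u) (toR p w)

/-- the conditions of the problem for the graph `G` -/
def Cond {V : Type} (G : SimpleGraph V) : Prop :=
  KConnected 4 (square G) ∧ HighlyTreeConnected 6 (multiple 5 G)

/-- minimum degree at least two -/
def Deg2 {V : Type} (G : SimpleGraph V) : Prop := ∀ v, ∃ a b, a ≠ b ∧ G.Adj v a ∧ G.Adj v b

/-- **FMin** (from `Suff`, `Con4`, `Nec`, `TP`, `Gn`, `Brg`).  The theorem for minimum degree two.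

Proof. `S_TP` turns `HighlyTreeConnected 6 (multiple 5 G)` into the count (`G` has an edge: `V` is not empty as `5 ≤ Nat.card V`, take a vertex and a neighbour).
`NoShortCycle` is `NoTri` and `quad`.  Part 1: `Brg`, `Con4` for `H = square G`, `Nec`.  Part 2: `Hyp G`, `Gn (toR p)` by `S_Gn`, `Suff`, `Brg`.
(`Generic p` is the algebraic independence for `toR p` by definition.) -/
def S_FMin : Prop := ∀ (V : Type) [Finite V] (G : SimpleGraph V) (p : V → E3), NoShortCycle G →
  Deg2 G → 5 ≤ Nat.card V → Generic p →
  (FrameworkGloballyRigid (square G) p → Cond G) ∧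
  (Cond G → FrameworkGloballyRigid (square G) p)

/-! ### leaves -/

/-- the 2-core: the union of all sets of vertices which induce a graph of minimum degree two -/
def core {V : Type} (G : SimpleGraph V) : Set V :=
  ⋃₀ {U : Set V | ∀ v ∈ U, ∃ a ∈ U, ∃ b ∈ U, a ≠ b ∧ G.Adj v a ∧ G.Adj v b}

/-- the conditions with the 2-core -/
def CondC {V : Type} (G : SimpleGraph V) : Prop :=
  KConnected 4 (square G) ∧ HighlyTreeConnected 6 (multiple 5 (G.induce (core G)))

/-- `G` without the vertex `l` -/
abbrev del {V : Type} (G : SimpleGraph V) (l : V) : SimpleGraph {x // x ≠ l} :=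
  G.comap Subtype.val

/-- `l` is a leaf with neighbour `u` -/
def Leaf {V : Type} (G : SimpleGraph V) (l u : V) : Prop := ∀ x, G.Adj l x ↔ x = u

/-- **FSq.** The square of `G` without a leaf.

Proof. (1) For `x, y ≠ l`: adjacent in `square G` iff adjacent in `square (del G l)`: a path `x, l, y` is impossible as `l` has only one neighbour.
(2) The neighbours of `l` in `square G` are `u` and the neighbours `≠ l` of `u`.  (3) They form a clique of `square G`. -/
def S_FSq : Prop := ∀ (V : Type) (G : SimpleGraph V) (l u : V), Leaf G l u →
  (∀ x y : {x // x ≠ l}, (square (del G l)).Adj x y ↔ (square G).Adj x y) ∧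
  (∀ x, (square G).Adj l x ↔ x = u ∨ (G.Adj u x ∧ x ≠ l)) ∧
  ∀ x y, (square G).Adj l x → (square G).Adj l y → x ≠ y → (square G).Adj x y

/-- **FCon** (from `FSq`).  Four-connectivity and leaves.

Proof. (1) If the neighbours of `l` in `square G` are contained in a set `N` with at most three elements (`l ∉ N`) then, as `|V| ≥ 6`, `V \ (N ∪ {l})` is not
empty, and deleting `N` from `square G` separates `l`: contradiction to `KConnected 4`.  So there are four different ones; in terms of `S_FSq`: pairwise different
`x₁, .., x₄ ≠ l` adjacent to `l` in `square G`.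
(2) Let `S` be a set of at most three elements of `V \ {l}`; `square G` without `S` is connected, `|V \ ({l} ∪ S)| ≥ 2`.  Deleting `l` from it keeps it connected, since the neighbours
of `l` form a clique: take a walk between two vertices `≠ l` without repetition (`SimpleGraph.Walk.toPath`); if it passes through `l` its two neighbours on the path are adjacent (or
equal): induction on the length; or: map `l` to the vertex `x₁ ∉ S` (a neighbour of `l`; there are four) by a map `V → V \ {l}` which sends adjacent vertices to adjacent or equal vertices and is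
the identity on `V \ {l}`: images of connected graphs under such maps are connected.  So `square (del G l)` is 4-connected (`S_FSq` (1)). -/
def S_FCon : Prop := ∀ (V : Type) [Finite V] (G : SimpleGraph V) (l u : V), Leaf G l u →
  6 ≤ Nat.card V → KConnected 4 (square G) →
  (∃ x : Fin 4 → V, Function.Injective x ∧ ∀ i, (square G).Adj l (x i)) ∧
  KConnected 4 (square (del G l))

/-- **FDown** (from `FSq`, `S_Ext` of `SpecP`).  Deleting a leaf preserves global rigidity of a framework.

Proof. Let `q'` be equivalent to the restriction `p'` of `p` in `square (del G l)`.  The neighbours of `l` in `square G` form a clique, so `q'` is congruent to `p'`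
on them: by `S_Ext` there is an isometry `g` with `q' x = g.ap (p x)` for the neighbours `x` of `l`.  Put `q x = q' x` for `x ≠ l`, `q l = g.ap (p l)`: equivalent to `p` in `square G`, so
all distances of `q` and `p` are equal, in particular those of `q'` and `p'`. -/
def S_FDown : Prop := ∀ (V : Type) [Finite V] (G : SimpleGraph V) (l u : V) (p : V → R3),
  Leaf G l u → (∀ q, Eqv (square G) p q → ∀ x y, dsq (q x) (q y) = dsq (p x) (p y)) →
  ∀ q : {x // x ≠ l} → R3, Eqv (square (del G l)) (fun x => p x) q →
    ∀ x y, dsq (q x) (q y) = dsq (p x) (p y)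

/-- **FUp** (from `FSq`, `S_Ext`).  Adding a leaf with at least four neighbours in the square.

Proof. Let `q` be equivalent to `p` in `square G`.  On `V \ {l}` it is congruent to `p` (hypothesis, `S_FSq` (1)), so `q x = g.ap (p x)` for `x ≠ l` (`S_Ext`).  Let
`z = g⁻¹ (q l)`: the point with `g.ap z = q l` (`g.A` is invertible).  `dsq z (p x) = dsq (p l) (p x)` for the four neighbours `x₁, .., x₄` of `l`, so
`(z - p l) ⬝ᵥ (p x_i - p x_1) = 0` for `i = 2, 3, 4` (subtract the equations `|z - x_i|² - |p l - x_i|² = 0`), and by general position `z = p l`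
(`Gn.dot3`).  So `q = g ∘ p`. -/
def S_FUp : Prop := ∀ (V : Type) [Finite V] (G : SimpleGraph V) (l u : V) (p : V → R3), Gn p →
  Leaf G l u → (∃ x : Fin 4 → V, Function.Injective x ∧ ∀ i, (square G).Adj l (x i)) →
  (∀ q : {x // x ≠ l} → R3, Eqv (square (del G l)) (fun x => p x) q →
    ∀ x y, dsq (q x) (q y) = dsq (p x) (p y)) →
  ∀ q, Eqv (square G) p q → ∀ x y, dsq (q x) (q y) = dsq (p x) (p y)

/-- **FIso** (from `TP`).  Isomorphic graphs.

Proof. If `G` has no edge then both sides are true (there is no edge `e`).  Otherwise `S_TP`: the partition condition is preserved: for `c : V → K` take `c ∘ φ.symm`; `cls` and `crn`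
are preserved (`φ` gives a bijection of the crossing edges). -/
def S_FIso : Prop := ∀ (V W : Type) [Finite V] [Finite W] (G : SimpleGraph V) (H : SimpleGraph W),
  Nonempty (G ≃g H) → HighlyTreeConnected 6 (multiple 5 G) → HighlyTreeConnected 6 (multiple 5 H)

/-- **FCore.** The core without a leaf, and the core of a graph of minimum degree two.

Proof. (1) `l ∉ core G` (in a set `U` as in the definition every vertex has two neighbours in `U`).  For `U ⊆ V \ {l}` the condition for `U` in `G` and in `del G l` is the same, so
`x ∈ core (del G l)` iff `x.1 ∈ core G`.  The isomorphism maps `x ∈ core G` to `⟨⟨x, _⟩, _⟩`.  (2) `univ` is one of the sets `U`: `core G = univ`. -/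
def S_FCore : Prop := ∀ (V : Type) (G : SimpleGraph V),
  (∀ l u, Leaf G l u →
    Nonempty ((del G l).induce (core (del G l)) ≃g G.induce (core G))) ∧
  (Deg2 G → Nonempty (G.induce (core G) ≃g G))

/-- **FBase.** Leaves or minimum degree two, and five vertices.

Proof. (1) Let `v` be a vertex with no neighbour in `G`: then it has no neighbour in `square G`, and deleting `∅` from `square G` does not leave a connected graph.  So
every vertex has a neighbour; if a vertex `l` has only one neighbour `u` then `Leaf G l u`.  (2) `Nat.card V = 5`, `square G` 4-connected: for `x ≠ y` delete the other three vertices: the graph on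
`x, y` is connected, so `x, y` are adjacent in `square G`: it is complete.  If moreover `l` is a leaf with neighbour `u`: every `x ≠ l, u` is adjacent to `l` in `square G`, so to `u` in `G`.  All vertices `≠ u`
are neighbours of `u`; there are no triangles, so the only edges are those at `u`: every vertex `≠ u` has only one neighbour, so no set `U ≠ ∅` as in the definition of the core exists (take an element `v ≠ u` of it: `v = u` has two neighbours in `U`, so `U` contains some `v ≠ u`):
`core G = ∅`, and there is no edge: `HighlyTreeConnected` is true. -/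
def S_FBase : Prop := ∀ (V : Type) [Finite V] (G : SimpleGraph V), NoShortCycle G →
  5 ≤ Nat.card V → KConnected 4 (square G) →
  (Deg2 G ∨ ∃ l u, Leaf G l u) ∧
  (Nat.card V = 5 → (∀ x y, x ≠ y → (square G).Adj x y) ∧
    ((∃ l u, Leaf G l u) → HighlyTreeConnected 6 (multiple 5 (G.induce (core G)))))

/-- **FAll** (from `FMin`, `Con4`, `FSq`, `FCon`, `FDown`, `FUp`, `FIso`, `FCore`, `FBase`, `Gn`, `Brg`).  All graphs.

Proof. Induction on `Nat.card V`.  (1) `(square G, p)` globally rigid: `KConnected 4` by `Con4` (and `Brg`).  `FBase`: if `Deg2 G`: `FMin` and `FCore` (2), `FIso`.  Otherwise there is a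
leaf `l` with neighbour `u`.  If `Nat.card V = 5`: `FBase` (2).  Otherwise `Nat.card V ≥ 6`, `del G l` has `Nat.card V - 1 ≥ 5` vertices and no short cycle; the restriction of `p` is
generic; `FDown`; the induction hypothesis gives `CondC (del G l)`, and `FCore` (1), `FIso` give the second part of `CondC G`.
(2) `CondC G`: `FBase`.  `Deg2 G`: `FCore` (2), `FIso` give `Cond G`, then `FMin`.  Leaf and `Nat.card V = 5`: `square G` is complete, so every framework is globally rigid.
Leaf and `Nat.card V ≥ 6`: `FCon` gives `KConnected 4 (square (del G l))` and the four neighbours; `FCore` (1), `FIso`: `CondC (del G l)`; induction hypothesis; `FUp` (with `Gn (toR p)`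
from `S_Gn`).  (The induction statement is for all types `V : Type` of cardinality `n`; use `{x // x ≠ l}`.) -/
def S_FAll : Prop := ∀ (V : Type) [Finite V] (G : SimpleGraph V) (p : V → E3), NoShortCycle G →
  5 ≤ Nat.card V → Generic p →
  (FrameworkGloballyRigid (square G) p → CondC G) ∧
  (CondC G → FrameworkGloballyRigid (square G) p)

/-- **FEnd** (from `FAll`, `FMin`, `ExG`).  The final theorem.

Proof. (1) and (2): `FAll` and the existence of generic configurations.  (3): `FMin`. -/
def S_End : Prop := ∀ (V : Type) [Finite V] (G : SimpleGraph V), NoShortCycle G →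
  5 ≤ Nat.card V →
  ((∃ p : V → E3, Generic p ∧ FrameworkGloballyRigid (square G) p) ↔ GloballyRigid (square G)) ∧
  (GloballyRigid (square G) ↔ CondC G) ∧
  (Deg2 G → (GloballyRigid (square G) ↔ Cond G))

end Pool.Agent.MPf1f412
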