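import Pool.Agent.Lib.MP_f1f412_co.SpecF
import Pool.Agent.Lib.MP_f1f412_co.SpecB
import Pool.Agent.Lib.MP_f1f412_co.Spec1

/-!
# MP_f1f412_co (C34), Spec N: necessity (`S_Con4`, `S_Nec` of `SpecF`)

Every `S_...` is a statement to be proved in its own file; the docstring contains the complete
proof.  Class maps are arbitrary maps `c : V → K`; the set of the classes is `Set.range c`
(`cls c` elements); `crn G c` is the number of the crossing edges; `tight` means
`5 * crn G c + 6 ≤ 6 * cls c`.  Toolkit: `Basic.lean` (`t1`, `t2`, `Gn.inj`, `Gn.gp3`, `Gn.gp4`, `Gn.dot3`,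
`ev_diff`, `ev_sub`, `dot_cr_self`, `dot_cr_self'`, `IsMot.ev_eq`, `D_dot`, ...).
-/

set_option autoImplicit false

namespace Pool.Agent.MPf1f412

open Matrix

section

variable {V K : Type}

/-- `v` is an infinitesimal motion of the framework `(H, p)` -/
def BMot (H : SimpleGraph V) (p v : V → R3) : Prop :=
  ∀ u w, H.Adj u w → (p u - p w) ⬝ᵥ (v u - v w) = 0

/-- the framework `(H, p)` is infinitesimally rigid -/
def BRig (H : SimpleGraph V) (p : V → R3) : Prop :=
  ∀ v, BMot H p v → ∃ n : Tw, ∀ u, v u = ev n (p u)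

/-- the framework `(H, p)` is not globally rigid -/
def NGR (H : SimpleGraph V) (p : V → R3) : Prop :=
  ∃ q : V → R3, Eqv H p q ∧ ∃ u w, dsq (q u) (q w) ≠ dsq (p u) (p w)

/-- the graph of the pairs of different pins of a class in `S` -/
def BG (G : SimpleGraph V) (c : V → K) (S : Set K) : SimpleGraph V where
  Adj u w := u ≠ w ∧ ∃ Y ∈ S, Pin G c Y u ∧ Pin G c Y w
  symm := ⟨fun _ _ h => ⟨h.1.symm, h.2.imp fun _ h' => ⟨h'.1, h'.2.2, h'.2.1⟩⟩⟩
  loopless := ⟨fun _ h => h.1 rfl⟩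

/-- the class `X` has exactly the two crossing edges `x₁ y₁`, `x₂ y₂`, and they go to different classes -/
structure TwoX (G : SimpleGraph V) (c : V → K) (X : K) (x₁ y₁ x₂ y₂ : V) : Prop where
  cx₁ : c x₁ = X
  cx₂ : c x₂ = X
  cy₁ : c y₁ ≠ X
  cy₂ : c y₂ ≠ X
  cyy : c y₁ ≠ c y₂
  adj₁ : G.Adj x₁ y₁
  adj₂ : G.Adj x₂ y₂
  all : ∀ u w, G.Adj u w → c u = X → c w ≠ X → (u = x₁ ∧ w = y₁) ∨ (u = x₂ ∧ w = y₂)

end

/-! ## real embeddings of fields -/

/-- **N1.** (40 lines) A real polynomial of odd degree has a root.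

Proof.  The leading coefficient `a` is not zero; we may assume `a > 0` (take `-f`).  `f.eval x → ∞` for `x → ∞`
(`Polynomial.tendsto_atTop_of_leadingCoeff_nonneg`), and for `g = f.comp (-X)` the leading coefficient is `-a` (odd degree), so
`f.eval (-x) → -∞` (`Polynomial.tendsto_atBot_of_leadingCoeff_nonpos`).  Intermediate value theorem (`mem_range_of_exists_le_of_exists_ge` or
`intermediate_value_univ`). -/
def S_OddRoot : Prop := ∀ f : Polynomial ℝ, Odd f.natDegree → ∃ x : ℝ, f.IsRoot x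

/-- **N2.** (100 lines; uses `S_OddRoot`) Dichotomy for a finite extension `E` of `K` which is embedded in `ℝ`: either there is a second embedding over `K`, or every
embedding of `K` extends to `E`.

Proof.  `E/K` is separable (characteristic zero); let `pb = Field.powerBasisOfFiniteOfSeparable K E`, `θ = pb.gen`, `f = minpoly K θ` (`f.natDegree = pb.dim = finrank K E`).
(*) For `τ : K →+* ℝ` and a root `r` of `f.map τ` there is `σ : E →+* ℝ` over `τ` with `σ θ = r`: `letI := τ.toAlgebra; pb.lift r _` (`PowerBasis.lift`, `PowerBasis.lift_gen`).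
If `f.natDegree` is odd: `f.map τ` has the same degree (`Polynomial.natDegree_map`), so it has a root (`S_OddRoot`) and `τ` extends.
If it is even: let `τ = σ₀ ∘ algebraMap`, `g = f.map τ`, `r₀ = σ₀ θ`: a root of `g` (`Polynomial.hom_eval₂`/`Polynomial.eval_map`, `minpoly.aeval`).  `g = (X - C r₀) * h` (`Polynomial.dvd_iff_isRoot`), `h.natDegree` is odd, `h` has a root
`r`.  `r ≠ r₀`: `f` is separable (`minpoly` irreducible, characteristic zero: `Irreducible.separable`), so `g` is (`Polynomial.Separable.map`), and `(X - C r₀)^2 ∣ g` is impossible (`Polynomial.Separable.squarefree`).  By (*) there is `σ` over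
`τ` with `σ θ = r ≠ r₀ = σ₀ θ`. -/
def S_Dich : Prop := ∀ (K E : Type) [Field K] [Field E] [Algebra K E] [CharZero K]
  [FiniteDimensional K E] (σ₀ : E →+* ℝ),
  (∃ σ : E →+* ℝ, σ ≠ σ₀ ∧ ∀ x : K, σ (algebraMap K E x) = σ₀ (algebraMap K E x)) ∨
  ∀ τ : K →+* ℝ, ∃ σ : E →+* ℝ, ∀ x : K, σ (algebraMap K E x) = τ x

/-- **N3.** (50 lines) A transcendental number `T` can be sent to `-T`.

Proof.  The families `x = (T)` and `x' = (-T)` (index type `Unit`) are algebraically independent over `K` (`algebraicIndependent_unique_type_iff` or `algebraicIndependent_singleton_iff`; `-T` is transcendental as `T` is: `Transcendental`/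
`IsAlgebraic.neg`).  `AlgebraicIndependent.aevalEquivField` gives isomorphisms of `FractionRing (MvPolynomial Unit K)` with `adjoin K (range x)` and `adjoin K (range x')`; compose the inverse of the first with the second and the inclusion into `ℝ`
(`AlgebraicIndependent.aevalEquivField_algebraMap_apply_coe`); `Set.range x = {T}`.  (To avoid casts: generalize `{T}` to a set `A` with `A = Set.range x`, `subst`.) -/
def S_NegT : Prop := ∀ (K : Type) [Field K] [Algebra K ℝ] (T : ℝ), Transcendental K T →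
  ∃ τ : IntermediateField.adjoin K ({T} : Set ℝ) →ₐ[K] ℝ,
    ∀ x : IntermediateField.adjoin K ({T} : Set ℝ), (x : ℝ) = T → τ x = -T

/-- **N4.** (150 lines; uses `S_Dich`, `S_NegT`) Another real point with the same squared distances.

Here `K = ℚ(A)`, `T = dsq (p y₁) (p y₂)`, `L = K(T)`.
Proof.  Let `E = L(all coordinates of p)` (`IntermediateField.adjoin L (Set.range fun z : V × Fin 3 => p z.1 z.2)`, an intermediate field of `ℝ/L`); it is finite over `L` (finitely many algebraic generators: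
`IntermediateField.finiteDimensional_adjoin` or `finiteDimensional_iSup_of_finite`; algebraic = integral over a field).  `S_Dich` for `L`, `E`, `σ₀` = the inclusion.
For `σ : E →+* ℝ` let `q u i = σ (p u i)` (the element of `E`).  `dsq (q u) (q w) = σ (dsq (p u) (p w))`: `dsq` is a polynomial expression in the coordinates (work with the elements `P u i : E`, `P u i = p u i`, and `map_sum`, `map_mul`, `map_sub`).
(1) `σ ≠ σ₀`, `σ = σ₀` on `L`.  Then `q u = p u` if all `p u i ∈ A` (they are in `K ⊆ L`), `dsq (q u) (q w) = dsq (p u) (p w)` if this number is in `A` or is `T`.  `q ≠ p`: otherwise `σ = σ₀` on `L` and on the generators of `E`, so `σ = σ₀` (the elements where they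
agree form an intermediate field of `E/L`; or `IntermediateField.adjoin_induction`/`algHom_ext`).
(2) Every `τ : L →+* ℝ` extends.  Take `τ` from `S_NegT` (for `K`, `T`): `τ = id` on `K`, `τ T = -T`.  The extension `σ` gives `q` with `dsq (q y₁) (q y₂) = σ T = -T`.  But `dsq ≥ 0` (sum of squares), `T = dsq (p y₁) (p y₂) ≥ 0`, and `T ≠ 0` as it is transcendental: contradiction. -/
def S_Real : Prop := ∀ (V : Type) [Finite V] (p : V → R3) (A : Set ℝ) (y₁ y₂ : V),
  Transcendental (IntermediateField.adjoin ℚ A) (dsq (p y₁) (p y₂)) →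
  (∀ u i, IsAlgebraic (IntermediateField.adjoin (IntermediateField.adjoin ℚ A)
    ({dsq (p y₁) (p y₂)} : Set ℝ)) (p u i)) →
  ∃ q : V → R3, q ≠ p ∧ dsq (q y₁) (q y₂) = dsq (p y₁) (p y₂) ∧
    (∀ u, (∀ i, p u i ∈ A) → q u = p u) ∧
    ∀ u w, dsq (p u) (p w) ∈ A → dsq (q u) (q w) = dsq (p u) (p w)

/-- **N5.** (70 lines; uses `S_Der`) Derivations and algebraic numbers.

Proof.  (1) `IntermediateField.adjoin_induction` (`D` of rational numbers is `0`: `Derivation.map_algebraMap`; `D (x + y)`, `D (x * y)`, `D x⁻¹ = - x⁻¹ ^ 2 * D x`: `Derivation.leibniz_inv`).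
(2) `D` is `K`-linear (`D (a • x) = a • D x` as `D (algebraMap a) = 0`), so it is a derivation over `K`; let `f = minpoly K x`: `0 = D (aeval x f) = aeval x f' • D x` (`Derivation.map_aeval`), and `aeval x f' ≠ 0` as `f` is separable
(`Separable.aeval_derivative_ne_zero`; characteristic zero).
(3) `S_Der` for `F = K`, `L = ℝ`, the family `fun _ : Unit => x` (algebraically independent as `x` is transcendental) and the value `1`; then `Derivation.restrictScalars ℚ` (`K` is a `ℚ`-algebra, characteristic zero), `D (algebraMap K ℝ y) = 0`. -/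
def S_DerK : Prop :=
  (∀ (D : Derivation ℚ ℝ ℝ) (A : Set ℝ), (∀ x ∈ A, D x = 0) →
    ∀ x ∈ IntermediateField.adjoin ℚ A, D x = 0) ∧
  (∀ (K : Type) [Field K] [CharZero K] [Algebra K ℝ] (D : Derivation ℚ ℝ ℝ),
    (∀ y : K, D (algebraMap K ℝ y) = 0) → ∀ x : ℝ, IsAlgebraic K x → D x = 0) ∧
  ∀ (K : Type) [Field K] [CharZero K] [Algebra K ℝ] (x : ℝ), ¬ IsAlgebraic K x →
    ∃ D : Derivation ℚ ℝ ℝ, (∀ y : K, D (algebraMap K ℝ y) = 0) ∧ D x ≠ 0

/-! ## Hendrickson's principle -/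

/-- **N6.** (70 lines) Complete graphs are rigid.

Proof.  Write `a, b, d` for the points `p a, ..`.  (i) Subtract the translation by `v a`: we may assume `v a = 0` (`v' u = v u - v a = v u - ev (0, v a) (p u)`).  (ii) Now `(b - a) ⬝ᵥ v b = 0`; let `e = b - a ≠ 0`, `ω = (e ⬝ᵥ e)⁻¹ • cr e (v b)`: `cr ω e = v b`
(`cr_cr`, `e ⬝ᵥ v b = 0`).  Subtract the twist `(ω, - cr ω a)` (velocity `cr ω (x - a)`): we may assume `v a = v b = 0`.  (iii) `v d` is orthogonal to `d - a` and to `d - b`, so to `b - a` and `d - a`; `f := cr (b - a) (d - a) ≠ 0` (`gp3`), and `cr f (v d) = 0` (`cr_cr`-type formula: `cr (cr x y) z = (x ⬝ᵥ z) y - (y ⬝ᵥ z) x`), so `v d = t f`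
(`par_of_cr`); subtract the twist with velocity `t • cr (b - a) (x - a)`: `v a = v b = v d = 0`.  (iv) For `u ∈ N`, `u ≠ a, b, d`: `(p u - a) ⬝ᵥ v u = 0` etc., so `v u = 0` by `Gn.dot3` for `u, a, b, d`.
All the subtracted fields satisfy the bar conditions (`(x - y) ⬝ᵥ cr ω (x - y) = 0`). -/
def S_KN : Prop := ∀ (V : Type) (p v : V → R3) (N : Set V), Gn p →
  (∃ a ∈ N, ∃ b ∈ N, ∃ d ∈ N, a ≠ b ∧ a ≠ d ∧ b ≠ d) →
  (∀ u ∈ N, ∀ w ∈ N, (p u - p w) ⬝ᵥ (v u - v w) = 0) → ∃ n : Tw, ∀ u ∈ N, v u = ev n (p u)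

/-- **N7.** (150 lines; uses `S_Real`, `S_DerK`, `S_KN`) Hendrickson's theorem by the parity of the number of real embeddings.

Proof.  (1) `S_KN` for `N = range a` and `v`: `v (a i) = ev n (p (a i))`.  `v' u = v u - ev n (p u)` is a motion of `(H, p)` (`ev_diff`, `dot_cr_self`), vanishes at the `a i`, and `(p y₁ - p y₂) ⬝ᵥ (v' y₁ - v' y₂) ≠ 0`.
(2) `D` with `D3 D (p u) = v' u` (`Gn`).  `A = {x | (∃ i j, x = p (a i) j) ∨ ∃ u w, H.Adj u w ∧ x = dsq (p u) (p w)}`, `K = ℚ(A)`, `T = dsq (p y₁) (p y₂)`.  `D = 0` on `A`: `D (dsq (p u) (p w)) = 2 (p u - p w) ⬝ᵥ (v' u - v' w)` (`D_dot`).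
So `D = 0` on `K` (`S_DerK` (1)), `D T ≠ 0`, so `T` is transcendental over `K` (`S_DerK` (2)).
(3) Every coordinate `p u i` is algebraic over `L = K(T)`: otherwise (`S_DerK` (3) for `L`) there is `D'` with `D' = 0` on `L` and `D' (p u i) ≠ 0`.  `v'' w = D3 D' (p w)` is a motion of `(H, p)` with `(p y₁ - p y₂) ⬝ᵥ (v'' y₁ - v'' y₂) = 0` (`D' (dsq ..) = 0` as these numbers are in `L`),
so by the last hypothesis `v'' w = ev n (p w)`; `v'' (a i) = 0`, so `n = 0` (`t2`, `gp3` for `a 0, a 1, a 2`), `v'' = 0`: contradiction.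
(4) `S_Real`: `q ≠ p`, `q (a i) = p (a i)`, `Eqv H p q`, and the distance of `y₁, y₂` is preserved.  Suppose all `dsq (q u) (q w) = dsq (p u) (p w)`.  For every `u`: `dsq (q u) (p (a i)) = dsq (p u) (p (a i))`; subtract the equations for `i` and `0`:
`(q u - p u) ⬝ᵥ (p (a i) - p (a 0)) = 0` for `i = 1, 2, 3`, so `q u = p u` (`Gn.dot3`): contradiction. -/
def S_HL : Prop := ∀ (V : Type) [Finite V] (p v : V → R3) (H : SimpleGraph V) (a : Fin 4 → V)
  (y₁ y₂ : V), Gn p → Function.Injective a → (∀ i j, i ≠ j → H.Adj (a i) (a j)) →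
  BMot H p v → (p y₁ - p y₂) ⬝ᵥ (v y₁ - v y₂) ≠ 0 →
  (∀ v', BMot H p v' → (p y₁ - p y₂) ⬝ᵥ (v' y₁ - v' y₂) = 0 → ∃ n : Tw, ∀ u, v' u = ev n (p u)) →
  ∃ q : V → R3, Eqv H p q ∧ dsq (q y₁) (q y₂) = dsq (p y₁) (p y₂) ∧
    ∃ u w, dsq (q u) (q w) ≠ dsq (p u) (p w)

/-- **N8.** (80 lines; uses `S_HL`, `S_KN`) (N*) If a graph `H` which contains a `K₄` is not rigid at `p` then `H` plus the pair `y₁ y₂` is not globally rigid.

Proof.  The set of the graphs `H' ≥ H` which are not rigid at `p` is finite (`V` finite) and contains `H`; let `H₁` be a maximal element.  `⊤` is rigid (`S_KN` for `N = univ`; `a 0, a 1, a 2`), so `H₁ ≠ ⊤`: there are `z₁ ≠ z₂` not adjacent in `H₁`; if `y₁ ≠ y₂` are not adjacent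
in `H₁` take `z = y`.  `H₂ = H₁ ⊔ edge z₁ z₂` is rigid (maximality).  There is a motion `v` of `(H₁, p)` which is not given by a twist; `(p z₁ - p z₂) ⬝ᵥ (v z₁ - v z₂) ≠ 0`, otherwise it is a motion of `H₂`.  `S_HL` for `H₁`, `z₁`, `z₂` (a motion `v'` of `H₁` with
`(p z₁ - p z₂) ⬝ᵥ (v' z₁ - v' z₂) = 0` is a motion of `H₂`).  The distance of `y₁, y₂`: trivial if `y₁ = y₂` (`dsq x x = 0`), from `Eqv H₁ p q` if they are adjacent in `H₁`, otherwise `y = z`. -/
def S_NStar : Prop := ∀ (V : Type) [Finite V] (p : V → R3) (H : SimpleGraph V) (a : Fin 4 → V)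
  (y₁ y₂ : V), Gn p → Function.Injective a → (∀ i j, i ≠ j → H.Adj (a i) (a j)) →
  ¬ BRig H p → ∃ q : V → R3, Eqv H p q ∧ dsq (q y₁) (q y₂) = dsq (p y₁) (p y₂) ∧
    ∃ u w, dsq (q u) (q w) ≠ dsq (p u) (p w)

/-! ## motions of hinge structures give motions of frameworks -/

/-- **N9.** (50 lines) A motion which is not constant and satisfies `j` additional linear conditions.

Proof.  Let `M = Mot G c p S` (finite-dimensional as `finrank ≥ 7`), `M' ≤ M` the kernel of the restriction of `L` to `M`: `finrank M' ≥ finrank M - j ≥ 7` (`LinearMap.finrank_range_add_finrank_ker`, the range is in `Fin j → ℝ`).  Suppose every `m ∈ M'` is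
constant on `S`; let `X₀ ∈ S`.  The linear map `M' → Tw`, `m ↦ m X₀`, is injective (`m = 0` outside of `S`), so `finrank M' ≤ finrank Tw = 6`: contradiction. -/
def S_Ex7 : Prop := ∀ (V K : Type) (G : SimpleGraph V) (c : V → K) (p : V → R3) (S : Set K)
  (j : ℕ) (L : (K → Tw) →ₗ[ℝ] (Fin j → ℝ)), S.Nonempty → 7 + j ≤ dmo G c p S →
  ∃ m, IsMot G c p S m ∧ L m = 0 ∧ ∃ X ∈ S, ∃ Y ∈ S, m X ≠ m Y

/-- **N10.** (60 lines) Velocities of the pins.

Proof.  (1) `v u - v w = ev (m Y) (p u) - ev (m Y) (p w) = cr (m Y).1 (p u - p w)` (`ev_diff`), orthogonal to `p u - p w`.  (2) Suppose there is such an `n`.  Let `Y ∈ S`, `Y = c x`; `x` has two different neighbours `a, b` (`Deg2`), and `x, a, b` are three different pins of `Y`: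
`ev (m Y - n)` vanishes at them, so `m Y = n` (`t2`, `gp3`).  So `m` is constant on `S`: contradiction. -/
def S_BGm : Prop := ∀ (V K : Type) (G : SimpleGraph V) (c : V → K) (p v : V → R3) (S : Set K)
  (m : K → Tw), Gn p → Deg2 G → S ⊆ Set.range c →
  (∀ Y ∈ S, ∀ u, Pin G c Y u → v u = ev (m Y) (p u)) → (∃ X ∈ S, ∃ Y ∈ S, m X ≠ m Y) →
  (∀ Y ∈ S, ∀ u w, Pin G c Y u → Pin G c Y w → (p u - p w) ⬝ᵥ (v u - v w) = 0) ∧
  ¬ ∃ n : Tw, ∀ u, (∃ Y ∈ S, Pin G c Y u) → v u = ev n (p u)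

/-- **N11.** (100 lines; uses `S_Low`, `S_Ex7`, `S_BGm`, `S_NStar`) A partition with few crossing edges (and a class with four pins).

Proof.  `S = Set.range c`.  `S_Low` (with `f = id`): `6 * cls c ≤ dmo G c p S + 5 * ef G c S id`, and `ef G c S id = crn G c` (the same set of edges).  So `dmo ≥ 7`, and `S_Ex7` with `j = 0` gives a motion `m` which is not constant on `S`.  `v u = ev (m (c u)) (p u)`: for a pin `u` of `Y`
(`c x = Y`, `u = x` or `G.Adj x u`): `v u = ev (m Y) (p u)` (`IsMot.ev_eq`).  `S_BGm`: `BG G c S` is not rigid at `p` (`v` is a motion, not given by a twist).  The `a i` are pairwise adjacent in `BG G c S` (`Y₀ ∈ S`: a pin of `Y₀` comes from a vertex of `Y₀`).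
`S_NStar` with `y₁ = y₂ = a 0` gives `q`.  `square G ≤ BG G c S`: an edge `u w` of `G`: both are pins of `c u`; a path `u, t, w`: both are pins of `c t`. -/
def S_NA : Prop := ∀ (V K : Type) [Finite V] (G : SimpleGraph V) (c : V → K) (p : V → R3)
  (a : Fin 4 → V) (Y₀ : K), Gn p → Deg2 G → Function.Injective a → (∀ i, Pin G c Y₀ (a i)) →
  5 * crn G c + 6 < 6 * cls c → NGR (square G) p

/-- **N12.** (80 lines; uses `S_Low`) The dimension without the class `X`.

Proof.  `S = Set.range c \ {X}`, `S.ncard + 1 = cls c`.  `ef G c S id + 2 ≤ crn G c`: the crossing edges of `G[S]` are crossing edges, and `s(x₁, y₁) ≠ s(x₂, y₂)` are two more (they are different since `c y₁ ≠ c y₂` and `c x₁ = X ≠ c y₂`; they have an end in `X`, so they are not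
edges of `G[S]`).  `S_Low` with `f = id`: `6 * S.ncard ≤ dmo + 5 * ef`. -/
def S_NCt : Prop := ∀ (V K : Type) [Finite V] (G : SimpleGraph V) (c : V → K) (p : V → R3)
  (X : K) (x₁ y₁ x₂ y₂ : V), Gn p → TwoX G c X x₁ y₁ x₂ y₂ → 5 * crn G c + 6 ≤ 6 * cls c →
  10 ≤ dmo G c p (Set.range c \ {X})

/-- **N13.** (150 lines; uses `S_NCt`, `S_Ex7`, `S_BGm`, `S_NStar`) A tight partition with a class `{v}`, `v` of degree two.

Proof.  `X = c v`, `S = Set.range c \ {X}`; `TwoX G c X v y₁ v y₂` holds.  `S_NCt`: `dmo ≥ 10`.  `S_Ex7` with `j = 3`, `L m = ev (m (c y₁) - m (c y₂)) (p v)` (a vector of `R3 = Fin 3 → ℝ`): `m`.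
`w u = ev (m (c y₁)) (p v)` if `u = v`, and `ev (m (c u)) (p u)` otherwise.  For `Y ∈ S` and a pin `u` of `Y` (`c x = Y`, `u = x` or `G.Adj x u`): `w u = ev (m Y) (p u)`: if `u ≠ v` then `c u ≠ X`, `c u ∈ S` and `IsMot.ev_eq`; if `u = v` then `x ≠ v`, `G.Adj x v`, so `x` is `y₁` or `y₂`, and
`L m = 0`.  `S_BGm`: `BG G c S` is not rigid.  The `a i` are pairwise adjacent in it (`Y₀ ∈ S`).  `S_NStar` with `y₁, y₂`: `q`.  `Eqv (square G) p q`: an edge `u w` of `G`: one of `c u`, `c w` is not `X` (otherwise `u = v = w`), and both are pins of it.  A path `u, t, w`, `u ≠ w`: if `c t ≠ X` both are pins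
of `c t ∈ S`; if `c t = X` then `t = v` and `{u, w} = {y₁, y₂}`. -/
def S_NB : Prop := ∀ (V K : Type) [Finite V] (G : SimpleGraph V) (c : V → K) (p : V → R3)
  (a : Fin 4 → V) (Y₀ : K) (v y₁ y₂ : V), Gn p → Deg2 G → Function.Injective a →
  (∀ i, Pin G c Y₀ (a i)) → Y₀ ≠ c v → (∀ u, c u = c v → u = v) →
  (∀ u, G.Adj v u ↔ u = y₁ ∨ u = y₂) → c y₁ ≠ c y₂ → 5 * crn G c + 6 ≤ 6 * cls c →
  NGR (square G) p

/-- **N14.** (120 lines; uses `S_NCt`, `S_Ex7`, `S_BGm`) A tight partition and a class `X` with two disjoint crossing edges: the motion.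

Proof.  `S = Set.range c \ {X}`.  `S_NCt`: `dmo ≥ 10`.  `S_Ex7` with `j = 3` and `L m = ![(p x₁ - p x₂) ⬝ᵥ (e₁ - e₂), (p x₁ - p y₂) ⬝ᵥ (e₁ - ev (m (c y₂)) (p y₂)), (p x₂ - p y₁) ⬝ᵥ (e₂ - ev (m (c y₁)) (p y₁))]`, where `e₁ = ev (m (c y₁)) (p x₁)`, `e₂ = ev (m (c y₂)) (p x₂)`: `m`.
`w u = e₁` if `u = x₁`, `e₂` if `u = x₂`, and `ev (m (c u)) (p u)` otherwise.  For `Y ∈ S` and a pin `u` of `Y` (`c x = Y`, `u = x` or `G.Adj x u`): `w u = ev (m Y) (p u)`: if `c u ≠ X` by `IsMot.ev_eq`; if `c u = X` then `u ≠ x`, `G.Adj u x`, `c x = Y ≠ X`, so `(u, x) = (x₁, y₁)` or `(x₂, y₂)` (`TwoX.all`).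
`S_BGm` gives the first and the last statement; the three conditions are `L m = 0` (`w y₁ = ev (m (c y₁)) (p y₁)` etc., as `c y₁ ≠ X`). -/
def S_NC1 : Prop := ∀ (V K : Type) [Finite V] (G : SimpleGraph V) (c : V → K) (p : V → R3)
  (X : K) (x₁ y₁ x₂ y₂ : V), Gn p → Deg2 G → TwoX G c X x₁ y₁ x₂ y₂ → x₁ ≠ x₂ →
  5 * crn G c + 6 ≤ 6 * cls c → ∃ w : V → R3,
  (∀ Y ∈ Set.range c \ {X}, ∀ u z, Pin G c Y u → Pin G c Y z →
    (p u - p z) ⬝ᵥ (w u - w z) = 0) ∧
  (p x₁ - p x₂) ⬝ᵥ (w x₁ - w x₂) = 0 ∧ (p x₁ - p y₂) ⬝ᵥ (w x₁ - w y₂) = 0 ∧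
  (p x₂ - p y₁) ⬝ᵥ (w x₂ - w y₁) = 0 ∧
  ¬ ∃ n : Tw, ∀ u, (∃ Y ∈ Set.range c \ {X}, Pin G c Y u) → w u = ev n (p u)

/-- **N15.** (200 lines; uses `S_NC1`, `S_NStar`, `S_Ext`) A tight partition and a class `X` with two disjoint crossing edges.

Proof.  `S = Set.range c \ {X}`, `W = {u | ∃ Y ∈ S, Pin G c Y u}` (the type `↥W`).  Every `u` with `c u ≠ X` is in `W`; an element `u ∈ W` with `c u = X` is `x₁` or `x₂` (it is adjacent to some `x` with `c x ≠ X`: `TwoX.all`), and `x₁` (a pin of `c y₁`), `x₂` (a pin of `c y₂`) are in `W`.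
`p' = p` restricted to `W`; `Gn p'` (extend the velocities by `0`).  `H'` = the graph on `W` with `u z` adjacent iff `u ≠ z` and (they are both pins of some `Y ∈ S`, or `{u, z}` is `{x₁, x₂}`, `{x₁, y₂}` or `{x₂, y₁}`).  By `S_NC1` (`w` restricted to `W`) `H'` is not rigid at `p'`.
The `a i` are pins of `Y₀ ∈ S`, pairwise adjacent in `H'`.  `S_NStar` for `W`, `H'`, the pair `y₁ y₂`: `q'` equivalent to `p'` on `H'` and on `y₁ y₂`, not congruent.  All pairs of `N = {x₁, x₂, y₁, y₂}` are covered (`x₁ y₁`: pins of `c y₁`; `x₂ y₂`: pins of `c y₂`; `x₁ x₂`, `x₁ y₂`, `x₂ y₁` in `H'`; `y₁ y₂`), so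
`S_Ext` gives an isometry `g` with `q' = g.ap ∘ p` on `N` (work with the extension of `q'` by `0` to `V`).  Define `q u = g.ap (p u)` if `c u = X`, and `q u = q' u` if `c u ≠ X`.  At `x₁, x₂` both agree, so `q = q'` on `W`; `q = g.ap ∘ p` on all pins of `X` (they are in the class `X`, or `y₁`, `y₂`).
`Eqv (square G) p q`: let `u z` be an edge of `square G`; `u ≠ z` are pins of the class `Z` (`Z = c u`, or `Z = c t` for the middle vertex `t`).  `Z ≠ X`: both in `W` and adjacent in `H'`.  `Z = X`: `q = g.ap ∘ p` at both, and isometries preserve `dsq`.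
Not congruent: `q` restricted to `W` is `q'`. -/
def S_NC2 : Prop := ∀ (V K : Type) [Finite V] (G : SimpleGraph V) (c : V → K) (p : V → R3)
  (a : Fin 4 → V) (Y₀ X : K) (x₁ y₁ x₂ y₂ : V), Gn p → Deg2 G → Function.Injective a →
  (∀ i, Pin G c Y₀ (a i)) → Y₀ ≠ X → TwoX G c X x₁ y₁ x₂ y₂ → x₁ ≠ x₂ →
  5 * crn G c + 6 ≤ 6 * cls c → NGR (square G) p

/-! ## graph theory: partitions -/

/-- **N16.** (100 lines; uses `S_Parts`) In a tight partition there is a class of degree two, different from a given one.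

Proof.  Let `k = cls c`, `e = crn G c`, `d X = dK G c {X}`.  (1) `2 ≤ d X` for `X ∈ Set.range c`: apply the hypothesis to `h v = (c v = X)` (values in `Prop`): `cls h = 2` (there is another class, `k ≥ 2`) and `crn G h = d X` (bijection `(u, w) ↦ s(u, w)` from the set of the ordered pairs with
`c u = X`, `c w ≠ X`): `12 ≤ 5 d + 6`.
(2) `∑_{X ∈ range c} d X = 2 e`: `S_Parts` for `S = univ` and `f = id`, `F` = all of `K` (as a `Finset`; for `X ∉ range c` `d X = 0`), `dK G c univ = 0`, `ef G c univ id = crn G c`.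
(3) If all `X ∈ range c`, `X ≠ Y₀` have `d X ≥ 3` then `2 e ≥ 3 k - 1`, so `12 k - 12 ≥ 10 e ≥ 15 k - 5` (tight: `5 e ≤ 6 k - 6`): impossible.
(4) `6 ≤ k`: tight and the hypothesis for `h = c` give `5 e + 6 = 6 k`, so `5 ∣ k - 1`, and `k ≥ 2`. -/
def S_NDeg : Prop := ∀ (V K : Type) [Finite V] [Finite K] (G : SimpleGraph V) (c : V → K),
  (∀ (J : Type) (h : V → J), 6 * cls h ≤ 5 * crn G h + 6) → 2 ≤ cls c →
  5 * crn G c + 6 ≤ 6 * cls c → ∀ Y₀ : K, 6 ≤ cls c ∧
    ∃ X ∈ Set.range c, X ≠ Y₀ ∧ dK G c {X} = 2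

/-- **N17.** (100 lines) The two crossing edges of a class of degree two go to different classes.

Proof.  The set of `dK G c {X}` is `{(x₁, y₁), (x₂, y₂)}` with two different elements (`Set.ncard_eq_two`).  Suppose `c y₁ = c y₂ = Y`.  Let `h v = Y` if `c v = X`, `h v = c v` otherwise.  `cls h ≥ cls c - 1` (`Set.range c \ {X} ⊆ Set.range h`).  `crn G h + 2 ≤ crn G c`: an edge which crosses `h` crosses `c` and is not
`s(x₁, y₁)` or `s(x₂, y₂)`, and these are two different edges which cross `c`.  The hypothesis for `h`: `6 (k - 1) ≤ 5 (e - 2) + 6 ≤ 6 k - 10`: contradiction. -/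
def S_NPair : Prop := ∀ (V K : Type) [Finite V] (G : SimpleGraph V) (c : V → K) (X : K),
  (∀ (J : Type) (h : V → J), 6 * cls h ≤ 5 * crn G h + 6) → 5 * crn G c + 6 ≤ 6 * cls c →
  dK G c {X} = 2 → ∃ x₁ y₁ x₂ y₂, TwoX G c X x₁ y₁ x₂ y₂

/-- **N18.** (70 lines) A class which is attached at one vertex `v`, with at most two outer neighbours, is `{v}`.

Proof.  Suppose `c u = c v`, `u ≠ v`.  `B = {v, y₁, y₂}` has at most three elements, so `(square G).induce Bᶜ` is connected; `u` and `z` are in it (`c y_i`: note `u ≠ y₁, y₂` may be assumed: if `u = y₁` and `c y₁ = c v` then `y₁` is not an outer neighbour; to avoid this case replace `B` by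
`B = {v} ∪ {w ∈ {y₁, y₂} | c w ≠ c v}`).  Along a walk from `u` to `z` in `(square G).induce Bᶜ` there are consecutive vertices `a, b` with `c a = c v`, `c b ≠ c v`, `a, b ∉ B`.  If `G.Adj a b`: `a = v`, contradiction.  If `G.Adj a t`, `G.Adj t b`: `c t = c v` implies (edge `t b`) `b ∈ {y₁, y₂}`, contradiction;
`c t ≠ c v` implies (edge `a t`) `a = v`, contradiction. -/
def S_NCut : Prop := ∀ (V K : Type) [Finite V] (G : SimpleGraph V) (c : V → K) (v y₁ y₂ : V),
  KConnected 4 (square G) →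
  (∀ u w, G.Adj u w → c u = c v → c w ≠ c v → u = v ∧ (w = y₁ ∨ w = y₂)) →
  (∃ z, c z ≠ c v ∧ z ≠ y₁ ∧ z ≠ y₂) → ∀ u, c u = c v → u = v

/-- **N19.** (90 lines) At least two edges leave a class.

Proof.  Suppose `dK G c {X} ≤ 1`.  There are `x ∈ X` and `z ∉ X` (by hypothesis).  If no edge leaves `X`: `(square G).induce ∅ᶜ` is connected, along a walk from `x` to `z` there are `a, b` adjacent in `square G` with `c a = X`, `c b ≠ X`, so an edge of `G` leaves `X` (the edge `a b` or one of the two edges of the path `a, t, b`):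
contradiction.  If `x₀ y₀` is the only one (`c x₀ = X`, `c y₀ ≠ X`): `x₀` has a neighbour `x' ≠ y₀` (`Deg2`), `c x' = X`; `y₀` has a neighbour `y' ≠ x₀`, `c y' ≠ X` (otherwise the edge `y' y₀` leaves `X`).  `(square G).induce {x₀, y₀}ᶜ` is connected; on a walk from `x'` to `y'` there are consecutive `a, b ≠ x₀, y₀` with `c a = X`, `c b ≠ X`.
`G.Adj a b` gives `a = x₀`.  `G.Adj a t`, `G.Adj t b`: `c t = X` gives `b = y₀`, `c t ≠ X` gives `a = x₀`: contradictions. -/
def S_NTwo : Prop := ∀ (V K : Type) [Finite V] (G : SimpleGraph V) (c : V → K) (X : K),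
  KConnected 4 (square G) → Deg2 G → X ∈ Set.range c → (∃ v, c v ≠ X) → 2 ≤ dK G c {X}

/-- **N20.** (40 lines; uses `S_Parts`) If all classes have degree at least two then `cls c ≤ crn G c`.

Proof.  `∑_{X ∈ range c} dK G c {X} = 2 crn G c` as in `S_NDeg` (2). -/
def S_NLe : Prop := ∀ (V K : Type) [Finite V] [Finite K] (G : SimpleGraph V) (c : V → K),
  (∀ X ∈ Set.range c, 2 ≤ dK G c {X}) → cls c ≤ crn G c

/-! ## cycles -/

/-- **N21.** (150 lines; uses `S_NB`) All degrees are two, at least seven vertices.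

Proof.  Let `u w` be an edge, `u'` the other neighbour of `u`, `w'` the other neighbour of `w`; `a = ![u', u, w, w']` is injective (`u' ≠ w'`: no triangle).  `c x = u` if `x = w`, `c x = x` otherwise (`K = V`).  `cls c = n - 1` (`Set.range c = {w}ᶜ`), `n = Nat.card V`.
The edges of `G` which do not cross `c`: only `s(u, w)`; `G` has `n` edges (`SimpleGraph.sum_degrees_eq_twice_card_edges`, all degrees are two), so `crn G c = n - 1`; `5 (n - 1) + 6 ≤ 6 (n - 1)` as `n ≥ 7`.  `Y₀ = u`: the `a i` are pins of `u` (`c u = c w = u`).  Let `v ≠ u, w` be a vertex, `y₁ ≠ y₂` its neighbours.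
`c v = v ≠ u`; `c x = c v` implies `x = v`; `c y₁ ≠ c y₂`: otherwise `{y₁, y₂} = {u, w}` and `v, u, w` is a triangle.  `S_NB`. -/
def S_NBig : Prop := ∀ (V : Type) [Finite V] (G : SimpleGraph V) (p : V → R3), Gn p → NoTri G →
  Deg2 G → (∀ v a b d, G.Adj v a → G.Adj v b → G.Adj v d → a = b ∨ a = d ∨ b = d) →
  7 ≤ Nat.card V → NGR (square G) p

/-- **N22.** (120 lines) Six vertices of degree two, no triangle, no quadrilateral: the hexagon.

Proof.  Let `v₀` be a vertex, `v₁, v₅` its neighbours, `v₂` the other neighbour of `v₁`, `v₄` the other neighbour of `v₅`.  `v₂ ≠ v₅` and `v₄ ≠ v₁` (no triangle), `v₂ ≠ v₄` (no quadrilateral `v₀ v₁ v₂ v₅`): `v₀, v₁, v₂, v₄, v₅` are different; let `v₃` be the sixth vertex.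
The other neighbour `x` of `v₂` (`x ≠ v₁`) is not `v₀` (its neighbours are `v₁, v₅ ≠ v₂`), not `v₅` (its neighbours are `v₀, v₄`), so `x = v₃` or `x = v₄`.  If `x = v₄` then `v₀, v₁, v₂, v₄, v₅` have all their two neighbours among themselves and `v₃` has no neighbour: contradiction.  So `x = v₃`; in the same way the other neighbour of `v₄`
is `v₃` (it is `v₂` or `v₃`, and `v₂` has the neighbours `v₁, v₃`).  So `φ = ![v₀, v₁, v₂, v₃, v₄, v₅]`: bijective, `φ i`, `φ (i + 1)` are adjacent, and as all degrees are two there is no other edge. -/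
def S_C6 : Prop := ∀ (V : Type) [Finite V] (G : SimpleGraph V), NoTri G →
  (∀ a b c d, a ≠ c → b ≠ d → ¬ (G.Adj a b ∧ G.Adj b c ∧ G.Adj c d ∧ G.Adj d a)) → Deg2 G →
  (∀ v a b d, G.Adj v a → G.Adj v b → G.Adj v d → a = b ∨ a = d ∨ b = d) → Nat.card V = 6 →
  ∃ φ : Fin 6 → V, Function.Bijective φ ∧ ∀ i j, G.Adj (φ i) (φ j) ↔ (j = i + 1 ∨ i = j + 1)

/-- The octahedron (result of `SpecO.lean`, helper2): no generic octahedron is globally rigid. -/
def S_Oct : Prop := ∀ p : Fin 6 → R3, Gn p → ∃ q : Fin 6 → R3,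
  (∀ i j : Fin 6, i ≠ j → j ≠ i + 3 → dsq (q i) (q j) = dsq (p i) (p j)) ∧
  ∃ i j, dsq (q i) (q j) ≠ dsq (p i) (p j)

/-- **N23.** (40 lines; uses `S_Oct`) The hexagon.

Proof.  `S_Oct` for `p ∘ φ` (`Gn (p ∘ φ)`: for velocities `v` on `Fin 6` take `v ∘ φ⁻¹`) gives `q₀`; `q = q₀ ∘ φ⁻¹`.  An edge of `square G` is `φ i, φ j` with `i ≠ j` and `j = i ± 1` or `j = i ± 2` (a path `i, t, j`), so `j ≠ i + 3` (`decide`/`omega` over `Fin 6`). -/
def S_N6 : Prop := ∀ (V : Type) (G : SimpleGraph V) (p : V → R3) (φ : Fin 6 → V), Gn p →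
  Function.Bijective φ → (∀ i j, G.Adj (φ i) (φ j) ↔ (j = i + 1 ∨ i = j + 1)) →
  NGR (square G) p

/-! ## assembly -/

/-- **N24.** (120 lines) Four-connectivity: `S_Con4` of `SpecF` (for arbitrary graphs `H`); uses `S_Gn`.

Proof.  `Gn p` by `S_Gn`.  Suppose `|B| ≤ 3` and `H.induce Bᶜ` is not connected.  It has a vertex (`|V| ≥ 5`), so there are `a, b ∉ B` which are not connected in it; let `R` be the set of the vertices `∉ B` reachable from `b` in it: `b ∈ R`, `a ∉ R`.  Let `s₁, s₂, s₃` be three different vertices, `≠ a, b`, with `B ⊆ {s₁, s₂, s₃}` (`|V| ≥ 5`: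
extend `B` inside of `{a, b}ᶜ`).  `ν = cr (p s₂ - p s₁) (p s₃ - p s₁) ≠ 0` (`gp3`), `σ x = x - (2 * ((x - p s₁) ⬝ᵥ ν) / (ν ⬝ᵥ ν)) • ν` (the reflection): `dsq (σ x) (σ y) = dsq x y`, `σ (p s_i) = p s_i`, and
`dsq x (σ y) - dsq x y = 4 ((x - p s₁) ⬝ᵥ ν) ((y - p s₁) ⬝ᵥ ν) / (ν ⬝ᵥ ν)`.  `q u = σ (p u)` for `u ∈ R`, `q u = p u` otherwise.  Equivalent: an edge from `R` to `V \ R` has its other end in `B` (otherwise it would be reachable), which is fixed by `σ`.  So all distances are equal; but for `a, b`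
`dsq (p a) (σ (p b)) ≠ dsq (p a) (p b)`, as `(p a - p s₁) ⬝ᵥ ν ≠ 0` and `(p b - p s₁) ⬝ᵥ ν ≠ 0` (`gp4`): contradiction. -/
def S_Con4' : Prop := S_Con4

end Pool.Agent.MPf1f412
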