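import Pool.Agent.Lib.MP_f1f412_co.Defs2

/-!
# MP_f1f412_co (C34), Spec P: placements, the transfer lemma, first facts (TEXT1 section 4, TEXT2 section 5)

Every `S_...` is a statement to be proved in its own file; the docstring contains the complete
proof.  A placement gives to every class `X` an isometry `g X` which maps `p_u` to `q_u` for all pins
`u` of `X` (`Pin G c X u`: `u` is in the closed neighbourhood of a vertex of the class `X`).
-/

set_option autoImplicit false

namespace Pool.Agent.MPf1f412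

open Matrix

/-! ## definitions -/

/-- the hypotheses on the graph; `cnt` says `s(f) ≥ 1` for all non-constant `f` -/
structure Hyp {V : Type} (G : SimpleGraph V) : Prop where
  tri : NoTri G
  quad : ∀ a b c d, a ≠ c → b ≠ d → ¬ (G.Adj a b ∧ G.Adj b c ∧ G.Adj c d ∧ G.Adj d a)
  deg : ∀ v, ∃ a b, a ≠ b ∧ G.Adj v a ∧ G.Adj v b
  con : KConnected 4 (square G)
  cnt : ∀ (J : Type) (f : V → J), 2 ≤ cls f → 6 * cls f ≤ 5 * crn G f + 5

/-! ## section 4: isometries, minimal placements, the transfer lemma -/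

/-- **P1.** (90 lines) Congruent families of points are moved by an isometry.

Proof.  `N = ∅`: `A = 1`, `b = 0`.  Let `u₀ ∈ N`, `a u = x u - x u₀`, `b u = y u - y u₀`.  For `u, w ∈ N`
`2 (a u ⬝ᵥ a w) = dsq (x u) (x u₀) + dsq (x w) (x u₀) - dsq (x u) (x w)`, so `a u ⬝ᵥ a w = b u ⬝ᵥ b w`.
In `E = EuclideanSpace ℝ (Fin 3)` let `f, g : (N →₀ ℝ) →ₗ E` be the linear combinations of the `a u`, `b u`
(`Finsupp.linearCombination`); `‖f l‖ = ‖g l‖` for all `l` (expand the inner products), so `ker f ≤ ker g` and there is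
a linear isometry `T` from `range f` to `E` with `T (f l) = g l` (`f.quotKerEquivRange.symm`, `(ker f).liftQ g`).
`LinearIsometry.extend` gives `T' : E →ₗᵢ E`; let `A` be its matrix (`A i j = T' (single j 1) i`);
`Aᵀ * A = 1` because `T'` preserves inner products, and `b = y u₀ - A *ᵥ x u₀`. -/
def S_Ext : Prop := ∀ (V : Type) [Finite V] (N : Set V) (x y : V → R3),
  (∀ u ∈ N, ∀ w ∈ N, dsq (y u) (y w) = dsq (x u) (x w)) → ∃ g : Iso3, ∀ u ∈ N, y u = g.ap (x u)

/-- **P2.** (90 lines; uses `S_Ext`) Minimal placements exist.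

Proof.  For every `v` the set `N[v] = {u | u = v ∨ G.Adj v u}` is a clique of `square G` (two different neighbours of `v`
have distance two) and `dsq x x = 0`, so by `S_Ext` there is an isometry `g v` with `q u = (g v).ap (p u)` for `u ∈ N[v]`.
So there are pairs `c : V → V`, `g : V → Iso3` with `Pl G p q c g` (for `c = id`; `Pin G id v u` means
`u ∈ N[v]`).  Choose such a pair with `(Set.range c).ncard` minimal (`Nat.find` or `WellFounded.min`).  `MinPl`: let `X ≠ Y` be in
the range, `h` an isometry with `q u = h.ap (p u)` for all pins of `X` and of `Y`.  Put `c' v = X` if `c v = Y` and `c' v = c v`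
otherwise, `g' X = h`, `g' Z = g Z` otherwise.  A pin of `X` for `c'` is a pin of `X` or of `Y` for `c`; for `Z ≠ X, Y` the pins
are the same, and `Y` has no pins for `c'`: `Pl G p q c' g'`, and `Set.range c' ⊆ Set.range c \ {Y}`: contradiction.
Finally replace `V` by the type `Set.range c` (`Set.rangeFactorization c`); `Pin`, `Pl`, `MinPl` are preserved
(`Subtype.ext`). -/
def S_MinEx : Prop := ∀ (V : Type) [Finite V] [Nonempty V] (G : SimpleGraph V) (p q : V → R3),
  Eqv (square G) p q → ∃ (K : Type) (c : V → K) (g : K → Iso3), Function.Surjective c ∧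
    Pl G p q c g ∧ MinPl G p q c

/-- **P3.** (25 lines) If there is only one class then `q` is congruent to `p`.

Proof.  Every vertex `u` is a pin of its class (`v = u`), and all classes are equal to `X = c u`.  So `q u = (g X).ap (p u)` for all
`u`, `q u - q w = A *ᵥ (p u - p w)`, and `(A *ᵥ x) ⬝ᵥ (A *ᵥ x) = x ⬝ᵥ (Aᵀ * A) *ᵥ x = x ⬝ᵥ x`. -/
def S_One : Prop := ∀ (V K : Type) (G : SimpleGraph V) (p q : V → R3) (c : V → K)
  (g : K → Iso3), Pl G p q c g → (∀ X Y : K, X = Y) → ∀ u w, dsq (q u) (q w) = dsq (p u) (p w)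

/-- **P4.** (60 lines) The isometry of a class, differentiated.

Proof.  Let `W = Aᵀ * D A` (`D` applied to the entries).  `D (Aᵀ * A) = 0` (entries `D (∑ A k i * A k j)`, and the entries of `1` are
`0` and `1`, `D 1 = 0`), so `W + Wᵀ = 0`.  With `ω = ![W 2 1, W 0 2, W 1 0]` we have `W *ᵥ x = cr ω x` for all `x` (`W i i = 0`,
`W 1 2 = - W 2 1` etc.; check the three coordinates).  For a vector `x`, `y = A *ᵥ x + b`:
`D y = (D A) *ᵥ x + A *ᵥ D x + D b` (Leibniz), so `Aᵀ *ᵥ D y = W *ᵥ x + D x + Aᵀ *ᵥ D b`.  So the twist is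
`(ω, Aᵀ *ᵥ D b)`. -/
def S_DIso : Prop := ∀ (D : Derivation ℚ ℝ ℝ) (g : Iso3), ∃ m : Tw, ∀ x : R3,
  g.B *ᵥ D3 D (g.ap x) = D3 D x + ev m x

/-- **P5.** (60 lines) Twists of the image, pulled back.

Proof.  For a twist `n = (ω, τ)` and the isometry `g = (A, b)`: `W x = Aᵀ *ᵥ (cr ω (A *ᵥ x))` is linear and
`x ⬝ᵥ W x = (A *ᵥ x) ⬝ᵥ cr ω (A *ᵥ x) = 0` for all `x`, so its matrix `M` satisfies `M + Mᵀ = 0` (polarize: apply it to `x = e_i + e_j`),
hence `W x = cr ω' x` with `ω' = ![M 2 1, M 0 2, M 1 0]`; the twist is `(ω', Aᵀ *ᵥ (cr ω b + τ))`.  Linearity in `n`: define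
`ω'` by these formulas in terms of `ω`.  (Or by Mathlib: `crossProduct` and matrices with `Aᵀ A = 1`:
`Aᵀ (ω × A x) = det A • (Aᵀ ω) × x`.)  Injective: if `T g n = 0` then `Aᵀ *ᵥ ev n (A *ᵥ x + b) = 0` for all `x`, `Aᵀ` is
injective and `x ↦ A *ᵥ x + b` is surjective (`A * Aᵀ = 1`), so `ev n y = 0` for all `y`, `n = 0`. -/
def S_Pull : Prop := ∀ g : Iso3, ∃ T : Tw →ₗ[ℝ] Tw, (∀ n x, ev (T n) x = g.B *ᵥ ev n (g.ap x)) ∧
  Function.Injective T

/-- **P6.** (200 lines; uses `S_DIso`, `S_Pull`) The transfer lemma (T).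

Proof.  Let `AA` be the subspace of all `(a, e, m) : (V → R3) × (V → R3) × (K → Tw)` with
`(g X).B *ᵥ e u = a u + ev (m X) (p u)` for all `X`, `u` with `Pin G c X u`.
(1) The projection of `AA` to `a` is onto: given `a` take `D` from `Gn p` with `D3 D (p u) = a u`, `e u = D3 D (q u)` and `m X` from
`S_DIso` (`q u = (g X).ap (p u)` for the pins of `X`).
(2) The kernel of this projection has dimension at least 6: for a twist `n` the triple `(0, u ↦ ev n (q u), X ↦ T_X n)` with `T_X` from
`S_Pull` for `g X` is in `AA`; this is an injective linear map from `Tw` (there is a class, as `V` is nonempty).  `finrank ℝ Tw = 6`.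
(3) The kernel of the projection of `AA` to `e` has dimension at most 6: let `(a, 0, m) ∈ AA`, so `a u = - ev (m X) (p u)` for all pins.
For an edge `u w` both `u` and `w` are pins of `c u` and of `c w`, so `ev (m (c u) - m (c w))` vanishes at `p u` and at `p w`, and
by (T1) (`p u ≠ p w`) it is a multiple of `Ln (p u) (p w)`: `IsMot G c p univ m`, so `m` is constant (`Rig`).  So the linear map
`(a, 0, m) ↦ m X₀` is injective (`a u = - ev (m (c u)) (p u)`).
(4) So `finrank AA ≥ 3 |V| + 6` by (1), (2), and the image of the projection to `e` has dimension at least `3 |V|` by (3): it is everything.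
For `e = η` we get `(a, η, m) ∈ AA`; subtract the equations for `X` and `Y` at `u` (`ev` is linear in the twist). -/
def S_T : Prop := ∀ (V K : Type) [Finite V] [Nonempty V] (G : SimpleGraph V) (p q : V → R3)
  (c : V → K) (g : K → Iso3), Function.Surjective c → Gn p → Pl G p q c g →
  Rig G c p Set.univ → ∀ η : V → R3, ∃ m : K → Tw, ∀ X Y u, Pin G c X u → Pin G c Y u →
    ev (m X - m Y) (p u) = ((g X).B - (g Y).B) *ᵥ η u

/-- **P7.** (25 lines) (T0): different classes with a common pin have different linear parts.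

Proof.  If `(g X).B = (g Y).B` then `(g X).A = (g Y).A` (transpose), and `(g X).ap (p z) = q z = (g Y).ap (p z)` gives
`(g X).b = (g Y).b`.  So `g X = g Y` is an isometry which works for the pins of `X` and of `Y`: contradiction to `MinPl`. -/
def S_T0 : Prop := ∀ (V K : Type) (G : SimpleGraph V) (p q : V → R3) (c : V → K)
  (g : K → Iso3), Function.Surjective c → Pl G p q c g → MinPl G p q c → ∀ X Y z, X ≠ Y →
    Pin G c X z → Pin G c Y z → (g X).B ≠ (g Y).B

/-- **P8.** (60 lines) `s(f)` for maps on the classes.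

Proof.  `crn G (f ∘ c) = ef G c univ f`: the two sets of `z : Sym2 V` are equal (`f (c u) ≠ f (c w)` implies `c u ≠ c w`).
`cls (f ∘ c) = (f '' univ).ncard` as `c` is surjective.  It is at least 2 since `f` is not constant (the set is finite).  `cnt` for
`f ∘ c`. -/
def S_CntK : Prop := ∀ (V K : Type) [Finite V] (G : SimpleGraph V) (c : V → K), Hyp G →
  Function.Surjective c → ∀ (J : Type) (f : K → J), (∃ X Y, f X ≠ f Y) → 1 ≤ sf G c Set.univ f

/-- **P9.** (80 lines) (F4): the edges between two classes.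

Proof.  Suppose `g X = h` and `g Y = h'` are the isometries of the classes `X ≠ Y` and that `X` and `Y` have four different common pins
`a₀, a₁, a₂, a₃`.  `h.ap (p a_i) = q a_i = h'.ap (p a_i)`, so `(h.A - h'.A) *ᵥ (p a_i - p a_0) = 0` for `i = 1, 2, 3`; by general position
these three vectors are linearly independent, so `h.A = h'.A`, `h.b = h'.b`: contradiction to `MinPl`.
(f4a) `X = c u`, `Y = c w`; if `w ≠ w'` then `u, u', w, w'` are four different common pins.
(f4b) `z, a, b, d` are common pins of `c z` and `c a`.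
(f4c) If both alternatives fail then the class `c z` is `{z}` and its pins are `z, b, b'`, all of them are pins of `c b`: the isometry of
`c b` works for the pins of `c z` and of `c b`: contradiction to `MinPl`. -/
def S_F4 : Prop := ∀ (V K : Type) [Finite V] (G : SimpleGraph V) (p q : V → R3) (c : V → K)
  (g : K → Iso3), Function.Surjective c → Gn p → Pl G p q c g → MinPl G p q c →
  (∀ u w u' w', G.Adj u w → G.Adj u' w' → c u = c u' → c w = c w' → c u ≠ c w → u ≠ u' →
    w = w') ∧
  (∀ z a b d, G.Adj z a → G.Adj z b → G.Adj z d → c a = c b → c b = c d → c z ≠ c a →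
    a = b ∨ a = d ∨ b = d) ∧
  ∀ z b b', G.Adj z b → G.Adj z b' → b ≠ b' → c b = c b' → c z ≠ c b →
    (∃ v, v ≠ z ∧ c v = c z) ∨ ∃ x, G.Adj z x ∧ x ≠ b ∧ x ≠ b'

end Pool.Agent.MPf1f412
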