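import Pool.Agent.Lib.MP_f1f412_co.SpecT

/-!
# MP_f1f412_co (C34), T6: the partition form of the tree condition (helper86)
-/

set_option autoImplicit false

namespace Pool.Agent.MPf1f412

namespace TPAux

variable {V : Type}

/-- the number of the crossing elements of `5G` -/
theorem card_crs [Finite V] (G : SimpleGraph V) {K : Type} (c : V → K) :
    {e | Crs c (multiple 5 G e)}.ncard = 5 * crn G c := by
  have h1 : {e | Crs c (multiple 5 G e)} =
      {z : G.edgeSet | Crs c (z : Sym2 V)} ×ˢ (Set.univ : Set (Fin 5)) := by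
    ext ⟨z, i⟩
    simp [multiple]
  have h2 : {z : G.edgeSet | Crs c (z : Sym2 V)}.ncard = crn G c := by
    rw [crn, ← Set.ncard_image_of_injective _ Subtype.val_injective]
    congr 1
    ext z
    constructor
    · rintro ⟨x, hx, rfl⟩
      exact ⟨x.2, hx⟩
    · rintro ⟨hz, hc⟩
      exact ⟨⟨z, hz⟩, hc, rfl⟩
  rw [h1, Set.ncard_prod, h2, Set.ncard_univ, Nat.card_fin, mul_comm]

end TPAux

open TPAux in
theorem tTP (h1 : S_Easy) (h2 : S_NWT) : S_TP := by
  intro V _ G hG
  obtain ⟨a, b, hab⟩ := hG
  have hfin : Finite (Sym2 V) := inferInstance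
  have hfe : Finite G.edgeSet := inferInstance
  have hfE : Finite (G.edgeSet × Fin 5) := inferInstance
  constructor
  · intro hT K c hc
    -- an edge crossing the partition
    obtain ⟨e₀, he₀⟩ : ∃ e₀, Crs c (multiple 5 G e₀) := by
      obtain ⟨T, hT1, -, -⟩ := hT (⟨s(a, b), hab⟩, 0)
      have h3 := h1 V _ K (multiple 5 G) (T 0) c (hT1 0)
      have h4 : 0 < {e | e ∈ T 0 ∧ Crs c (multiple 5 G e)}.ncard := by omega
      obtain ⟨e, -, he⟩ := (Set.ncard_pos).1 h4
      exact ⟨e, he⟩
    obtain ⟨T, hT1, hT2, hT3⟩ := hT e₀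
    have h3 : ∀ i, cls c ≤ {e | e ∈ T i ∧ Crs c (multiple 5 G e)}.ncard + 1 := fun i =>
      h1 V _ K (multiple 5 G) (T i) c (hT1 i)
    classical
    let S : Fin 6 → Set (G.edgeSet × Fin 5) := fun i => {e | e ∈ T i ∧ Crs c (multiple 5 G e)}
    have h4 : ∑ i, (S i).ncard ≤ ({e | Crs c (multiple 5 G e)} \ {e₀}).ncard := by
      have h5 : ∀ i, (S i).ncard = (Set.toFinite (S i)).toFinset.card := fun i =>
        Set.ncard_eq_toFinset_card _ _
      have h6 : ({e | Crs c (multiple 5 G e)} \ {e₀}).ncard =
          (Set.toFinite ({e | Crs c (multiple 5 G e)} \ {e₀})).toFinset.card :=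
        Set.ncard_eq_toFinset_card _ _
      rw [h6, Finset.sum_congr rfl fun i _ => h5 i, ← Finset.card_biUnion]
      · apply Finset.card_le_card
        intro e he
        simp only [Finset.mem_biUnion, Finset.mem_univ, true_and, Set.Finite.mem_toFinset] at he
        obtain ⟨i, hi1, hi2⟩ := he
        rw [Set.Finite.mem_toFinset]
        refine ⟨hi2, fun h => ?_⟩
        rw [Set.mem_singleton_iff] at h
        rw [h] at hi1
        exact hT3 i hi1
      · intro i _ j _ hij
        change Disjoint (Set.toFinite (S i)).toFinset (Set.toFinite (S j)).toFinset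
        rw [Finset.disjoint_left]
        intro e he he'
        rw [Set.Finite.mem_toFinset] at he he'
        exact Set.disjoint_left.1 (hT2 i j hij) he.1 he'.1
    have h7 : ({e | Crs c (multiple 5 G e)} \ {e₀}).ncard + 1 = 5 * crn G c := by
      rw [← card_crs]
      exact Set.ncard_sdiff_singleton_add_one he₀
    have h8 : 6 * cls c ≤ ∑ i, ((S i).ncard + 1) := by
      calc 6 * cls c = ∑ _i : Fin 6, cls c := by simp
        _ ≤ _ := Finset.sum_le_sum fun i _ => h3 i
    rw [Finset.sum_add_distrib] at h8
    simp only [Finset.sum_const, Finset.card_univ, Fintype.card_fin, smul_eq_mul, mul_one] at h8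
    omega
  · intro hp e
    let E' := {x : G.edgeSet × Fin 5 // x ≠ e}
    let ends' : E' → Sym2 V := fun x => multiple 5 G x.1
    have hne : Nonempty V := ⟨a⟩
    obtain ⟨T, hT1, hT2⟩ := h2 V E' ends' 6 (by
      intro c
      by_cases hc : 2 ≤ cls c
      · have h3 := hp V c hc
        have h4 : {x | Crs c (multiple 5 G x)}.ncard ≤ {x | Crs c (ends' x)}.ncard + 1 := by
          have h5 : {x | Crs c (multiple 5 G x)} ⊆
              insert e (Subtype.val '' {x : E' | Crs c (ends' x)}) := by
            intro x hx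
            by_cases hxe : x = e
            · exact Or.inl hxe
            · exact Or.inr ⟨⟨x, hxe⟩, hx, rfl⟩
          refine (Set.ncard_le_ncard h5 (Set.toFinite _)).trans
            ((Set.ncard_insert_le _ _).trans ?_)
          rw [Set.ncard_image_of_injective _ Subtype.val_injective]
        rw [card_crs] at h4
        omega
      · omega)
    refine ⟨fun i => Subtype.val '' T i, ?_, ?_, ?_⟩
    · intro i
      obtain ⟨h3, h4⟩ := hT1 i
      refine ⟨?_, ?_⟩
      · rintro _ ⟨x, hx, rfl⟩ _ ⟨y, hy, rfl⟩ hxy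
        exact congrArg Subtype.val (h3 hx hy hxy)
      · rw [Set.image_image]
        exact h4
    · intro i j hij
      exact (Set.disjoint_image_iff Subtype.val_injective).2 (hT2 i j hij)
    · rintro i ⟨x, -, hx⟩
      exact x.2 hx

end Pool.Agent.MPf1f412
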