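import Pool.Agent.Lib.MP_f1f412_co.FBase
import Pool.Agent.Lib.MP_f1f412_co.FExG

/-!
# MP_f1f412_co (C34): graphs with leaves do not satisfy the second condition; stars
-/

set_option autoImplicit false

namespace Pool.Agent.MPf1f412

/-- a graph with a leaf: `5G` is not highly 6-tree-connected -/
theorem not_htc_of_leaf {V : Type} {G : SimpleGraph V} {l u : V} (hl : Leaf G l u) :
    ¬ HighlyTreeConnected 6 (multiple 5 G) := by
  intro h
  have hlu : G.Adj l u := (hl u).2 rfl
  have hu : s(l, u) ∈ G.edgeSet := hlu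
  obtain ⟨T, hT, hd, -⟩ := h (⟨s(l, u), hu⟩, 0)
  have key : ∀ i, ∃ j : Fin 5, ((⟨s(l, u), hu⟩, j) : G.edgeSet × Fin 5) ∈ T i := by
    intro i
    have hc := (hT i).2.1
    obtain ⟨b, hb⟩ : ∃ b, (SimpleGraph.fromEdgeSet (multiple 5 G '' T i)).Adj l b := by
      have hnt : Nontrivial V := ⟨⟨l, u, hlu.ne⟩⟩
      exact hc.preconnected.exists_adj_of_nontrivial l
    rw [SimpleGraph.fromEdgeSet_adj] at hb
    obtain ⟨⟨e, he, hee⟩, hbne⟩ := hb
    have hmem : s(l, b) ∈ G.edgeSet := by
      rw [← hee]
      exact e.1.2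
    have hb' : b = u := (hl b).1 hmem
    refine ⟨e.2, ?_⟩
    have : e = (⟨s(l, u), hu⟩, e.2) := by
      refine Prod.ext (Subtype.ext ?_) rfl
      show (e.1 : Sym2 V) = s(l, u)
      have h8 : (e.1 : Sym2 V) = s(l, b) := hee
      rw [h8, hb']
    rw [← this]
    exact he
  choose f hf using key
  have hinj : Function.Injective f := by
    intro i j hij
    by_contra hne
    exact Set.disjoint_left.mp (hd i j hne) (hf i) (by rw [hij]; exact hf j)
  have := Fintype.card_le_of_injective f hinj
  simp at this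

/-- the conditions of the problem imply minimum degree at least two -/
theorem deg2_of_cond {V : Type} [Finite V] {G : SimpleGraph V} (hG : NoShortCycle G)
    (h5 : 5 ≤ Nat.card V) (h : Cond G) : Deg2 G := by
  rcases (fBase V G hG h5 h.1).1 with hd | ⟨l, u, hl⟩
  · exact hd
  · exact absurd h.2 (not_htc_of_leaf hl)

/-- the star with `m` leaves -/
def starG (m : ℕ) : SimpleGraph (Option (Fin m)) where
  Adj
    | some _, some _ => False
    | some _, none => True
    | none, some _ => True
    | none, none => False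
  symm := ⟨by
    rintro (_ | a) (_ | b) h
    · exact h
    · exact h
    · exact h
    · exact h⟩
  loopless := ⟨by
    rintro (_ | a) h
    · exact h
    · exact h⟩

theorem starG_square (m : ℕ) : ∀ a b, a ≠ b → (square (starG m)).Adj a b := by
  rintro (_ | a) (_ | b) h
  · exact absurd rfl h
  · exact ⟨h, Or.inl trivial⟩
  · exact ⟨h, Or.inl trivial⟩
  · exact ⟨h, Or.inr ⟨none, trivial, trivial⟩⟩

theorem starG_noShortCycle (m : ℕ) : NoShortCycle (starG m) := by
  refine ⟨?_, ?_⟩
  · rintro (_ | a) (_ | b) (_ | c) ⟨h1, h2, h3⟩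
    all_goals first
      | exact h1
      | exact h2
      | exact h3
  · rintro (_ | a) (_ | b) (_ | c) (_ | d) hac hbd ⟨h1, h2, h3, h4⟩
    all_goals first
      | exact h1
      | exact h2
      | exact h3
      | exact h4
      | exact hac rfl
      | exact hbd rfl

theorem starG_globallyRigid (m : ℕ) : GloballyRigid (square (starG m)) := by
  refine ⟨fExG _, fun p _ q hq u v => ?_⟩
  by_cases h : u = v
  · subst h
    simp
  · exact hq u v (starG_square m u v h)

theorem starG_not_cond (m : ℕ) (hm : 1 ≤ m) : ¬ Cond (starG m) := by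
  rintro ⟨-, h⟩
  refine not_htc_of_leaf (l := some ⟨0, hm⟩) (u := none) (fun x => ?_) h
  rcases x with _ | x
  · exact ⟨fun _ => rfl, fun _ => trivial⟩
  · exact ⟨fun h => absurd h fun h' => h', fun h => absurd h (by simp)⟩

theorem starG_family (n : ℕ) (hn : 5 ≤ n) : ∃ (V : Type) (_ : Finite V) (G : SimpleGraph V),
    Nat.card V = n ∧ NoShortCycle G ∧ GloballyRigid (square G) ∧ ¬ Cond G :=
  ⟨Option (Fin (n - 1)), inferInstance, starG (n - 1), by
    rw [Finite.card_option, Nat.card_fin]; omega, starG_noShortCycle _, starG_globallyRigid _,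
    starG_not_cond _ (by omega)⟩

end Pool.Agent.MPf1f412
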