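import Pool.Agent.Lib.MP_f1f412_co.Defs4
import Pool.Agent.Lib.MP_f1f412_co.SpecF

/-!
# MP_f1f412_co (C34), final assembly of the sufficiency: minimal sets of nodes, no node environment
-/

set_option autoImplicit false

namespace Pool.Agent.MPf1f412

open Matrix

/-- minimal sets exist -/
theorem exists_minZ {V N : Type} [Finite N] (G : SimpleGraph V) (cn : V → N) (k : ℕ) (Z₀ : Set N)
    (h2 : ∃ A ∈ Z₀, ∃ B ∈ Z₀, A ≠ B) (hk : dK G cn Z₀ ≤ k) : ∃ Z, Z ⊆ Z₀ ∧ MinZ G cn k Z := by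
  classical
  have hfin : {Z : Set N | Z ⊆ Z₀ ∧ (∃ A ∈ Z, ∃ B ∈ Z, A ≠ B) ∧ dK G cn Z ≤ k}.Finite :=
    Set.toFinite _
  have hmem : Z₀ ∈ {Z : Set N | Z ⊆ Z₀ ∧ (∃ A ∈ Z, ∃ B ∈ Z, A ≠ B) ∧ dK G cn Z ≤ k} :=
    ⟨subset_rfl, h2, hk⟩
  obtain ⟨Z, hZ₀, hZ⟩ := hfin.exists_le_minimal hmem
  refine ⟨Z, hZ.prop.1, hZ.prop.2.1, hZ.prop.2.2, fun T hT hne hT2 => ?_⟩
  by_contra hcon
  rw [not_lt] at hcon
  have := hZ.le_of_le (y := T) ⟨hT.trans hZ.prop.1, hT2, hcon⟩ hT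
  exact hne (Set.Subset.antisymm hT this)

/-- **No node environment**: from section 8 (`h8`), section 9 (`h9`) and sections 10, 11 (`h10`) -/
theorem no_nEnv_of {V K N : Type} [Finite V] {G : SimpleGraph V} {c : V → K} {p q : V → R3}
    {g : K → Iso3} {π : K → N} (h : NEnv G c p q g π)
    (h9 : ∀ Z, MinZ G (π ∘ c) 2 Z → ∀ X ∈ Z, dK G (π ∘ c) {X} = 2 → False)
    (h10 : ∀ S, MinZ G (π ∘ c) 3 S → (∀ X ∈ S, 3 ≤ dK G (π ∘ c) {X}) → False) : False := by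
  classical
  have hsurj : Function.Surjective (π ∘ c) := h.psurj.comp h.env.surj
  have : Finite N := Finite.of_surjective _ hsurj
  obtain ⟨A, B, hAB⟩ := h.twoN
  have huniv : dK G (π ∘ c) Set.univ ≤ 2 := by
    have : {e : V × V | G.Adj e.1 e.2 ∧ (π ∘ c) e.1 ∈ (Set.univ : Set N) ∧
        (π ∘ c) e.2 ∉ (Set.univ : Set N)} = ∅ := by
      ext e
      simp
    unfold dK
    rw [this, Set.ncard_empty]
    omega
  obtain ⟨Z, -, hZ⟩ := exists_minZ G (π ∘ c) 2 Set.univ ⟨A, trivial, B, trivial, hAB⟩ huniv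
  by_cases hA : ∃ X ∈ Z, dK G (π ∘ c) {X} = 2
  · obtain ⟨X, hX, hX2⟩ := hA
    exact h9 Z hZ X hX hX2
  · have hdeg : ∀ X ∈ Z, 3 ≤ dK G (π ∘ c) {X} := by
      intro X hX
      have hne : ({X} : Set N) ≠ Set.univ := by
        intro he
        have h1 : A ∈ ({X} : Set N) := by rw [he]; trivial
        have h2 : B ∈ ({X} : Set N) := by rw [he]; trivial
        rw [Set.mem_singleton_iff] at h1 h2
        exact hAB (h1.trans h2.symm)
      have h2 := h.deg {X} (Set.singleton_nonempty X) hne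
      have h3 : dK G (π ∘ c) {X} ≠ 2 := fun h' => hA ⟨X, hX, h'⟩
      omega
    obtain ⟨S, hSZ, hS⟩ := exists_minZ G (π ∘ c) 3 Z hZ.two (hZ.le.trans (by norm_num))
    exact h10 S hS fun X hX => hdeg X (hSZ hX)

end Pool.Agent.MPf1f412
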